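import Mathlib

/-!
# `(I)`-envelopes, and charges on a set of cardinality `ℵ₁`
-/

set_option autoImplicit false

noncomputable section

open Filter Topology ZeroAtInfty

namespace Pool.Agent.V1198.IE

/-! ### Envelopes -/

section Env

variable {X : Type*} [NormedAddCommGroup X] [NormedSpace ℝ X]

/-- The weak* closure of a subset of the dual. -/
def wClosure (A : Set (X →L[ℝ] ℝ)) : Set (X →L[ℝ] ℝ) :=
  {φ | ∀ (F : Finset X) (ε : ℝ), 0 < ε → ∃ ψ ∈ A, ∀ x ∈ F, |ψ x - φ x| < ε}

/-- The weak* closed convex hull of a subset of the dual. -/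
def wConv (A : Set (X →L[ℝ] ℝ)) : Set (X →L[ℝ] ℝ) := wClosure (convexHull ℝ A)

/-- `K(C)` for a sequence `C` of subsets of the dual: the norm closed convex hull of the union of the
weak* closed convex hulls of the sets `C k`. -/
def hullSeq (C : ℕ → Set (X →L[ℝ] ℝ)) : Set (X →L[ℝ] ℝ) :=
  closure (convexHull ℝ (⋃ k, wConv (C k)))

/-- The `(I)`-envelope. -/
def Ienv (A : Set (X →L[ℝ] ℝ)) : Set (X →L[ℝ] ℝ) :=
  {φ | ∀ C : ℕ → Set (X →L[ℝ] ℝ), A = ⋃ k, C k → φ ∈ hullSeq C}

theorem convex_halfspace (x : X) (c : ℝ) : Convex ℝ {ψ : X →L[ℝ] ℝ | c ≤ ψ x} := by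
  intro a ha b hb r s hr hs hrs
  have ha' : c ≤ a x := ha
  have hb' : c ≤ b x := hb
  show c ≤ r * a x + s * b x
  have : c = r * c + s * c := by rw [← add_mul, hrs, one_mul]
  rw [this]
  exact add_le_add (mul_le_mul_of_nonneg_left ha' hr) (mul_le_mul_of_nonneg_left hb' hs)

theorem wConv_halfspace {A : Set (X →L[ℝ] ℝ)} {x : X} {c : ℝ} (h : ∀ φ ∈ A, c ≤ φ x) :
    ∀ φ ∈ wConv A, c ≤ φ x := by
  intro φ hφ
  refine le_of_forall_pos_lt_add fun ε hε => ?_
  obtain ⟨ψ, hψ, hd⟩ := hφ {x} ε hε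
  have h1 : c ≤ ψ x := convexHull_min (fun φ hφ => h φ hφ) (convex_halfspace x c) hψ
  have h2 := (abs_lt.mp (hd x (Finset.mem_singleton_self x))).2
  linarith

/-- `wClosure` is the closure for the weak* topology. -/
theorem mem_wClosure_iff (A : Set (X →L[ℝ] ℝ)) (φ : X →L[ℝ] ℝ) :
    φ ∈ wClosure A ↔
      StrongDual.toWeakDual φ ∈ closure (StrongDual.toWeakDual '' A) := by
  constructor
  · intro h
    rw [mem_closure_iff_nhds]
    intro U hU
    rw [show (𝓝 (StrongDual.toWeakDual φ) : Filter (WeakDual ℝ X)) =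
      Filter.comap (fun (f : WeakDual ℝ X) (x : X) => f x) (𝓝 fun x => φ x) from
        nhds_induced _ _] at hU
    obtain ⟨V, hV, hVU⟩ := hU
    rw [nhds_pi, Filter.mem_pi] at hV
    obtain ⟨I, hI, W, hW, hWV⟩ := hV
    have hε : ∀ x, ∃ ε > 0, Metric.ball (φ x) ε ⊆ W x := fun x => Metric.mem_nhds_iff.mp (hW x)
    choose ε hε hball using hε
    obtain ⟨δ, hδ, hδI⟩ : ∃ δ > 0, ∀ x ∈ hI.toFinset, δ ≤ ε x := by
      rcases hI.toFinset.eq_empty_or_nonempty with h0 | h0
      · exact ⟨1, one_pos, fun x hx => by rw [h0] at hx; simp at hx⟩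
      · refine ⟨hI.toFinset.inf' h0 ε, ?_, fun x hx => Finset.inf'_le _ hx⟩
        exact (Finset.lt_inf'_iff h0).mpr fun x _ => hε x
    obtain ⟨ψ, hψ, hd⟩ := h hI.toFinset δ hδ
    refine ⟨StrongDual.toWeakDual ψ, hVU (hWV fun x hx => hball x ?_), ⟨ψ, hψ, rfl⟩⟩
    have hx' : x ∈ hI.toFinset := hI.mem_toFinset.mpr hx
    show ψ x ∈ Metric.ball (φ x) (ε x)
    rw [Metric.mem_ball, Real.dist_eq]
    exact (hd x hx').trans_le (hδI x hx')
  · intro h F ε hε
    have hopen : ∀ x : X, IsOpen {ψ : WeakDual ℝ X | |ψ x - φ x| < ε} := fun x =>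
      isOpen_lt (((WeakDual.eval_continuous x).sub continuous_const).abs) continuous_const
    have hU : (⋂ x ∈ F, {ψ : WeakDual ℝ X | |ψ x - φ x| < ε}) ∈ 𝓝 (StrongDual.toWeakDual φ) := by
      refine (Filter.biInter_finset_mem F).mpr fun x _ => (hopen x).mem_nhds ?_
      show |φ x - φ x| < ε
      rwa [sub_self, abs_zero]
    obtain ⟨_, h1, ⟨ψ, hψ, rfl⟩⟩ := mem_closure_iff_nhds.mp h _ hU
    refine ⟨ψ, hψ, fun x hx => ?_⟩
    rw [Set.mem_iInter₂] at h1
    exact h1 x hx

theorem isClosed_halfspace (x : X) (c : ℝ) : IsClosed {ψ : X →L[ℝ] ℝ | c ≤ ψ x} :=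
  isClosed_le continuous_const (ContinuousLinearMap.apply ℝ ℝ x).continuous

/-- Weak* closed half-spaces that contain `A` contain the envelope. -/
theorem Ienv_halfspace {A : Set (X →L[ℝ] ℝ)} {x : X} {c : ℝ} (h : ∀ φ ∈ A, c ≤ φ x) :
    ∀ φ ∈ Ienv A, c ≤ φ x := by
  intro φ hφ
  have h1 := hφ (fun _ => A) (Set.iUnion_const A).symm
  have hsub : hullSeq (fun _ : ℕ => A) ⊆ {ψ : X →L[ℝ] ℝ | c ≤ ψ x} := by
    refine closure_minimal (convexHull_min ?_ (convex_halfspace x c)) (isClosed_halfspace x c)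
    intro ψ hψ
    rw [Set.mem_iUnion] at hψ
    obtain ⟨_, hψ⟩ := hψ
    exact wConv_halfspace h ψ hψ
  exact hsub h1

theorem subset_wConv (A : Set (X →L[ℝ] ℝ)) : A ⊆ wConv A := fun φ hφ F ε hε =>
  ⟨φ, subset_convexHull ℝ _ hφ, fun x _ => by rwa [sub_self, abs_zero]⟩

theorem subset_Ienv (A : Set (X →L[ℝ] ℝ)) : A ⊆ Ienv A := fun φ hφ C hC => by
  rw [hC, Set.mem_iUnion] at hφ
  obtain ⟨k, hk⟩ := hφ
  exact subset_closure (subset_convexHull ℝ _ (Set.mem_iUnion.mpr ⟨k, subset_wConv _ hk⟩))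

end Env

/-! ### Charges -/

/-- Finitely additive nonnegative set functions that are countably additive on partitions. -/
structure Charge {T : Type} (ν : Set T → ℝ) : Prop where
  nonneg : ∀ B, 0 ≤ ν B
  add : ∀ A B, Disjoint A B → ν (A ∪ B) = ν A + ν B
  sigma : ∀ c : T → ℕ, Tendsto (fun N => ν {t | N ≤ c t}) atTop (𝓝 0)

section Charge

variable {T : Type} {ν : Set T → ℝ}

theorem Charge.empty (h : Charge ν) : ν ∅ = 0 := by
  have := h.add ∅ ∅ (Set.disjoint_empty _)
  rw [Set.union_empty] at this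
  linarith

theorem Charge.mono (h : Charge ν) {A B : Set T} (hAB : A ⊆ B) : ν A ≤ ν B := by
  have h1 := h.add A (B \ A) disjoint_sdiff_self_right
  rw [Set.union_sdiff_cancel hAB] at h1
  have := h.nonneg (B \ A)
  linarith

theorem Charge.union_le (h : Charge ν) (A B : Set T) : ν (A ∪ B) ≤ ν A + ν B := by
  have h1 := h.add A (B \ A) disjoint_sdiff_self_right
  rw [Set.union_sdiff_self] at h1
  have := h.mono (A := B \ A) (B := B) Set.sdiff_subset
  linarith

theorem Charge.biUnion_le (h : Charge ν) {ι : Type} (s : Finset ι) (B : ι → Set T) :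
    ν (⋃ i ∈ s, B i) ≤ ∑ i ∈ s, ν (B i) := by
  classical
  induction s using Finset.induction_on with
  | empty => simp [h.empty]
  | insert i s hi ih =>
    rw [Finset.set_biUnion_insert, Finset.sum_insert hi]
    exact (h.union_le _ _).trans (add_le_add le_rfl ih)

theorem Charge.sum_le (h : Charge ν) {ι : Type} (s : Finset ι) (B : ι → Set T)
    (hd : ∀ i ∈ s, ∀ j ∈ s, i ≠ j → Disjoint (B i) (B j)) : ∑ i ∈ s, ν (B i) ≤ ν Set.univ := by
  classical
  have h1 : ∀ s : Finset ι, (∀ i ∈ s, ∀ j ∈ s, i ≠ j → Disjoint (B i) (B j)) →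
      ν (⋃ i ∈ s, B i) = ∑ i ∈ s, ν (B i) := by
    intro s
    induction s using Finset.induction_on with
    | empty => intro _; simp [h.empty]
    | insert i s hi ih =>
      intro hd
      rw [Finset.set_biUnion_insert, Finset.sum_insert hi, h.add, ih]
      · exact fun a ha b hb => hd a (Finset.mem_insert_of_mem ha) b (Finset.mem_insert_of_mem hb)
      · rw [Set.disjoint_iUnion₂_right]
        intro j hj
        exact hd i (Finset.mem_insert_self i s) j (Finset.mem_insert_of_mem hj)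
          fun hij => hi (hij ▸ hj)
  rw [← h1 s hd]
  exact h.mono (Set.subset_univ _)

/-- Sets of pairwise disjoint sets with measure bounded below are finite. -/
theorem Charge.finite_of_disjoint (h : Charge ν) {ι : Type} {I : Set ι} {B : ι → Set T} {c : ℝ}
    (hc : 0 < c) (hB : ∀ i ∈ I, c ≤ ν (B i))
    (hd : ∀ i ∈ I, ∀ j ∈ I, i ≠ j → Disjoint (B i) (B j)) : I.Finite := by
  by_contra hinf
  obtain ⟨n, hn⟩ := exists_nat_gt (ν Set.univ / c)
  obtain ⟨s, hs, hcard⟩ := Set.Infinite.exists_subset_card_eq hinf n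
  have h1 := h.sum_le s B fun i hi j hj => hd i (hs hi) j (hs hj)
  have h2 : (n : ℝ) * c ≤ ∑ i ∈ s, ν (B i) := by
    rw [← hcard, ← nsmul_eq_mul]
    exact Finset.card_nsmul_le_sum s _ c fun i hi => hB i (hs hi)
  rw [div_lt_iff₀ hc] at hn
  linarith

theorem Charge.countable_eq_zero (h : Charge ν) (h0 : ∀ t, ν {t} = 0) {C : Set T}
    (hC : C.Countable) : ν C = 0 := by
  classical
  obtain ⟨f, hf⟩ := Set.countable_iff_exists_injOn.mp hC
  have hfin : ∀ N : ℕ, ν {t | t ∈ C ∧ f t < N} = 0 := fun N => by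
    have h1 : {t | t ∈ C ∧ f t < N}.Finite := by
      refine Set.Finite.of_finite_image ((Set.finite_lt_nat N).subset ?_)
        (hf.mono fun t ht => ht.1)
      rintro _ ⟨t, ht, rfl⟩
      exact ht.2
    have h2 : {t | t ∈ C ∧ f t < N} = ⋃ t ∈ h1.toFinset, {t} := by
      ext t; simp
    refine le_antisymm ?_ (h.nonneg _)
    rw [h2]
    refine (h.biUnion_le _ _).trans (le_of_eq ?_)
    exact Finset.sum_eq_zero fun t _ => h0 t
  have hle : ∀ N : ℕ, ν C ≤ ν {t | N ≤ (if t ∈ C then f t else 0) + 0 ∧ t ∈ C} := fun N => by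
    have h1 : C ⊆ {t | t ∈ C ∧ f t < N} ∪
        {t | N ≤ (if t ∈ C then f t else 0) + 0 ∧ t ∈ C} := by
      intro t ht
      rcases lt_or_ge (f t) N with h2 | h2
      · exact Or.inl ⟨ht, h2⟩
      · exact Or.inr ⟨by rw [if_pos ht, add_zero]; exact h2, ht⟩
    have h2 := (h.mono h1).trans (h.union_le _ _)
    rw [hfin N, zero_add] at h2
    exact h2
  have hle2 : ∀ N : ℕ, ν C ≤ ν {t | N ≤ (if t ∈ C then f t else 0)} := fun N =>
    (hle N).trans (h.mono fun t ht => by
      have := ht.1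
      rwa [add_zero] at this)
  have := ge_of_tendsto' (h.sigma fun t => if t ∈ C then f t else 0) hle2
  exact le_antisymm this (h.nonneg _)

end Charge

/-- A set of cardinality `ℵ₁` with a linear relation whose initial segments are countable. -/
structure OmegaOne (T : Type) where
  r : T → T → Prop
  total : ∀ a b, a ≠ b → r a b ∨ r b a
  countable : ∀ a, {b | r b a}.Countable

theorem exists_omegaOne : ∃ T : Type, Uncountable T ∧ Nonempty (OmegaOne T) := by
  refine ⟨(Cardinal.aleph 1).out, ?_, ?_⟩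
  · rw [← Cardinal.aleph0_lt_mk_iff, Cardinal.mk_out]
    exact Cardinal.aleph0_lt_aleph_one
  · obtain ⟨r, wo, hr⟩ := Cardinal.exists_ord_eq (Cardinal.aleph 1).out
    refine ⟨⟨r, fun a b hab => ?_, fun a => ?_⟩⟩
    · rcases trichotomous_of r a b with h | h | h
      · exact Or.inl h
      · exact absurd h hab
      · exact Or.inr h
    · rw [Cardinal.countable_iff_lt_aleph_one]
      have h1 := Cardinal.card_typein_lt a hr
      rw [Cardinal.mk_out] at h1
      exact h1

section Ulam

variable {T : Type} {ν : Set T → ℝ}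

/-- Ulam's theorem. -/
theorem Charge.ulam (h : Charge ν) (O : OmegaOne T) [Uncountable T] (h0 : ∀ t, ν {t} = 0) :
    ν Set.univ = 0 := by
  classical
  by_contra hne
  have hm : 0 < ν Set.univ := lt_of_le_of_ne (h.nonneg _) (Ne.symm hne)
  choose f hf using fun a => Set.countable_iff_exists_injOn.mp (O.countable a)
  -- the matrix
  let A : T → ℕ → Set T := fun α n => {β | O.r α β ∧ f β α = n}
  have hdisj : ∀ n α α', α ≠ α' → Disjoint (A α n) (A α' n) := by
    intro n α α' hαα
    rw [Set.disjoint_left]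
    rintro β ⟨h1, h2⟩ ⟨h3, h4⟩
    exact hαα (hf β h1 h3 (h2.trans h4.symm))
  have hpos : ∀ α, ∃ n, 0 < ν (A α n) := by
    intro α
    by_contra hcon
    push Not at hcon
    have hz : ∀ n, ν (A α n) = 0 := fun n => le_antisymm (hcon n) (h.nonneg _)
    have hco : ν {β | ¬ O.r α β} = 0 := by
      refine h.countable_eq_zero h0 (((O.countable α).union (Set.countable_singleton α)).mono ?_)
      intro β hβ
      by_cases h1 : β = α
      · exact Or.inr h1
      · rcases O.total β α h1 with h2 | h2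
        · exact Or.inl h2
        · exact absurd h2 hβ
    have hle : ∀ N : ℕ, ν Set.univ ≤ ν {β | N ≤ (if O.r α β then f β α else 0)} := fun N => by
      have h1 : (Set.univ : Set T) ⊆ ({β | ¬ O.r α β} ∪ ⋃ n ∈ Finset.range N, A α n) ∪
          {β | N ≤ (if O.r α β then f β α else 0)} := by
        intro β _
        by_cases h2 : O.r α β
        · rcases lt_or_ge (f β α) N with h3 | h3
          · refine Or.inl (Or.inr ?_)
            simp only [Set.mem_iUnion]
            exact ⟨f β α, Finset.mem_range.mpr h3, h2, rfl⟩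
          · refine Or.inr ?_
            show N ≤ (if O.r α β then f β α else 0)
            rw [if_pos h2]
            exact h3
        · exact Or.inl (Or.inl h2)
      have h2 := (h.mono h1).trans (h.union_le _ _)
      have h3 := h.union_le {β | ¬ O.r α β} (⋃ n ∈ Finset.range N, A α n)
      have h4 := h.biUnion_le (Finset.range N) fun n => A α n
      rw [Finset.sum_eq_zero fun n _ => hz n] at h4
      linarith
    have := ge_of_tendsto' (h.sigma fun β => if O.r α β then f β α else 0) hle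
    linarith
  choose n hn using hpos
  have hk : ∀ α, ∃ k : ℕ, 1 / ((k : ℝ) + 1) ≤ ν (A α (n α)) := fun α => by
    obtain ⟨k, hk⟩ := exists_nat_one_div_lt (hn α)
    exact ⟨k, hk.le⟩
  choose k hk using hk
  -- an infinite fibre
  have hfib : ∃ q : ℕ × ℕ, {α | (n α, k α) = q}.Infinite := by
    by_contra hcon
    push Not at hcon
    have h1 : (Set.univ : Set T) = ⋃ q : ℕ × ℕ, {α | (n α, k α) = q} := by
      ext α; simp
    have h2 : (Set.univ : Set T).Countable := by
      rw [h1]
      exact Set.countable_iUnion fun q => (hcon q).countable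
    exact Set.not_countable_univ h2
  obtain ⟨⟨n0, k0⟩, hq⟩ := hfib
  refine hq (h.finite_of_disjoint (I := {α | (n α, k α) = (n0, k0)}) (B := fun α => A α n0)
    (c := 1 / ((k0 : ℝ) + 1)) (by positivity) ?_ ?_)
  · intro α hα
    have h1 : n α = n0 := congrArg Prod.fst hα
    have h2 : k α = k0 := congrArg Prod.snd hα
    have := hk α
    rwa [h1, h2] at this
  · intro α _ α' _ hαα
    exact hdisj n0 α α' hαα

/-- On a set of cardinality `ℵ₁` charges are concentrated on countable sets. -/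
theorem Charge.exists_finset (h : Charge ν) (O : OmegaOne T) [Uncountable T] {ε : ℝ}
    (hε : 0 < ε) : ∃ S : Finset T, ν ((S : Set T)ᶜ) ≤ ε := by
  classical
  set T0 : Set T := {t | 0 < ν {t}} with hT0
  have hcount : T0.Countable := by
    have h1 : T0 = ⋃ k : ℕ, {t | 1 / ((k : ℝ) + 1) ≤ ν {t}} := by
      ext t
      rw [Set.mem_iUnion]
      constructor
      · intro ht
        obtain ⟨k, hk⟩ := exists_nat_one_div_lt (show 0 < ν {t} from ht)
        exact ⟨k, hk.le⟩
      · rintro ⟨k, hk⟩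
        have h2 : (0 : ℝ) < 1 / ((k : ℝ) + 1) := by positivity
        exact lt_of_lt_of_le h2 hk
    rw [h1]
    refine Set.countable_iUnion fun k => Set.Finite.countable ?_
    refine h.finite_of_disjoint (B := fun t => {t}) (c := 1 / ((k : ℝ) + 1)) (by positivity)
      (fun t ht => ht) fun t _ t' _ htt => ?_
    rw [Set.disjoint_singleton]
    exact htt
  -- the part off `T0`
  have h' : Charge fun B => ν (B \ T0) := by
    refine ⟨fun B => h.nonneg _, fun A B hAB => ?_, fun c => ?_⟩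
    · rw [Set.union_sdiff_distrib, h.add]
      exact hAB.mono Set.sdiff_subset Set.sdiff_subset
    · exact squeeze_zero (fun N => h.nonneg _) (fun N => h.mono Set.sdiff_subset) (h.sigma c)
  have h0 : ν (Set.univ \ T0) = 0 := by
    refine h'.ulam O fun t => ?_
    by_cases ht : t ∈ T0
    · have : ({t} : Set T) \ T0 = ∅ := by
        rw [Set.sdiff_eq_empty, Set.singleton_subset_iff]; exact ht
      show ν ({t} \ T0) = 0
      rw [this, h.empty]
    · refine le_antisymm ((h.mono Set.sdiff_subset).trans (not_lt.mp ht)) (h.nonneg _)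
  obtain ⟨f, hf⟩ := Set.countable_iff_exists_injOn.mp hcount
  have h2 := h.sigma fun t => if t ∈ T0 then f t else 0
  obtain ⟨N, hN⟩ := (h2.eventually_le_const hε).exists
  have hfin : {t | t ∈ T0 ∧ f t < N}.Finite := by
    refine Set.Finite.of_finite_image ((Set.finite_lt_nat N).subset ?_)
      (hf.mono fun t ht => ht.1)
    rintro _ ⟨t, ht, rfl⟩
    exact ht.2
  refine ⟨hfin.toFinset, ?_⟩
  have h3 : ((hfin.toFinset : Set T))ᶜ ⊆ (Set.univ \ T0) ∪
      {t | N ≤ (if t ∈ T0 then f t else 0)} := by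
    intro t ht
    rw [Set.Finite.coe_toFinset, Set.mem_compl_iff] at ht
    by_cases h4 : t ∈ T0
    · refine Or.inr ?_
      show N ≤ (if t ∈ T0 then f t else 0)
      rw [if_pos h4]
      by_contra h5
      exact ht ⟨h4, not_le.mp h5⟩
    · exact Or.inl ⟨Set.mem_univ t, h4⟩
  have h4 := (h.mono h3).trans (h.union_le _ _)
  rw [h0, zero_add] at h4
  exact h4.trans hN

end Ulam

end Pool.Agent.V1198.IE
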