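import Mathlib
import Pool.Agent.V1198.Ienv

/-!
# The space `c₀(T) ⊕ ℓ^∞(T)` and the functionals `(f, g) ↦ a f(t) + b g(t)`
-/

set_option autoImplicit false

noncomputable section

open Filter Topology ZeroAtInfty BoundedContinuousFunction

namespace Pool.Agent.V1198.IE

section Space

variable {T : Type} [TopologicalSpace T] [DiscreteTopology T]

theorem c0_abs_le (f : C₀(T, ℝ)) (t : T) : |f t| ≤ ‖f‖ := by
  have h := f.toBCF.norm_coe_le_norm t
  rwa [ZeroAtInftyContinuousMap.norm_toBCF_eq_norm] at h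

theorem c0_norm_le (f : C₀(T, ℝ)) {M : ℝ} (hM : 0 ≤ M) (h : ∀ t, |f t| ≤ M) : ‖f‖ ≤ M := by
  rw [← ZeroAtInftyContinuousMap.norm_toBCF_eq_norm]
  exact (BoundedContinuousFunction.norm_le hM).mpr h

theorem c0_tendsto (f : C₀(T, ℝ)) : Tendsto (fun t => f t) cofinite (𝓝 0) := by
  have h := f.zero_at_infty'
  rwa [Filter.cocompact_eq_cofinite] at h

theorem c0_countable (f : C₀(T, ℝ)) : {t | f t ≠ 0}.Countable := by
  have h : {t | f t ≠ 0} = ⋃ k : ℕ, {t | 1 / ((k : ℝ) + 1) ≤ |f t|} := by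
    ext t
    rw [Set.mem_iUnion]
    constructor
    · intro ht
      obtain ⟨k, hk⟩ := exists_nat_one_div_lt (abs_pos.mpr (show f t ≠ 0 from ht))
      exact ⟨k, hk.le⟩
    · rintro ⟨k, hk⟩ h0
      have h2 : (0 : ℝ) < 1 / ((k : ℝ) + 1) := by positivity
      have hk' : 1 / ((k : ℝ) + 1) ≤ |f t| := hk
      rw [h0, abs_zero] at hk'
      exact absurd hk' (not_le.mpr h2)
  rw [h]
  refine Set.countable_iUnion fun k => Set.Finite.countable ?_
  have h2 : (0 : ℝ) < 1 / ((k : ℝ) + 1) := by positivity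
  have h3 := (c0_tendsto f).eventually (Metric.ball_mem_nhds (0 : ℝ) h2)
  rw [Filter.eventually_cofinite] at h3
  refine h3.subset fun t ht => ?_
  have ht' : 1 / ((k : ℝ) + 1) ≤ |f t| := ht
  show ¬ (f t ∈ Metric.ball (0 : ℝ) (1 / ((k : ℝ) + 1)))
  rw [Metric.mem_ball, dist_zero_right, Real.norm_eq_abs, not_lt]
  exact ht'

/-- The functional `(f, g) ↦ a f(t) + b g(t)`. -/
def xi (a b : ℝ) (t : T) : (C₀(T, ℝ) × (T →ᵇ ℝ)) →L[ℝ] ℝ :=
  LinearMap.mkContinuous
    { toFun := fun x => a * x.1 t + b * x.2 t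
      map_add' := fun x y => by
        show a * (x.1 t + y.1 t) + b * (x.2 t + y.2 t) = _
        ring
      map_smul' := fun r x => by
        show a * (r * x.1 t) + b * (r * x.2 t) = r * _
        ring } (|a| + |b|) fun x => by
      show |a * x.1 t + b * x.2 t| ≤ _
      have h1 : |x.1 t| ≤ ‖x‖ := (c0_abs_le x.1 t).trans (norm_fst_le x)
      have h2 : |x.2 t| ≤ ‖x‖ := (x.2.norm_coe_le_norm t).trans (norm_snd_le x)
      refine (abs_add_le _ _).trans ?_
      rw [abs_mul, abs_mul, add_mul]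
      exact add_le_add (mul_le_mul_of_nonneg_left h1 (abs_nonneg a))
        (mul_le_mul_of_nonneg_left h2 (abs_nonneg b))

theorem xi_apply (a b : ℝ) (t : T) (x : C₀(T, ℝ) × (T →ᵇ ℝ)) :
    xi a b t x = a * x.1 t + b * x.2 t := rfl

theorem norm_xi_le (a b : ℝ) (t : T) : ‖xi (T := T) a b t‖ ≤ |a| + |b| :=
  LinearMap.mkContinuous_norm_le _ (by positivity) _

/-- The indicator function as an element of `ℓ^∞(T)`. -/
def ind (B : Set T) : T →ᵇ ℝ :=
  BoundedContinuousFunction.ofNormedAddCommGroup (B.indicator fun _ => (1 : ℝ))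
    continuous_of_discreteTopology 1 fun t => by
      by_cases h : t ∈ B
      · rw [Set.indicator_of_mem h, norm_one]
      · rw [Set.indicator_of_notMem h, norm_zero]; exact zero_le_one

theorem ind_apply (B : Set T) (t : T) : ind B t = B.indicator (fun _ => (1 : ℝ)) t := rfl

theorem norm_ind_le (B : Set T) : ‖ind B‖ ≤ 1 := by
  refine (BoundedContinuousFunction.norm_le zero_le_one).mpr fun t => ?_
  rw [ind_apply]
  by_cases h : t ∈ B
  · rw [Set.indicator_of_mem h, norm_one]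
  · rw [Set.indicator_of_notMem h, norm_zero]; exact zero_le_one

/-- The indicator function of a finite set as an element of `c₀(T)`. -/
def cind (S : Finset T) : C₀(T, ℝ) where
  toFun := (S : Set T).indicator fun _ => (1 : ℝ)
  continuous_toFun := continuous_of_discreteTopology
  zero_at_infty' := by
    rw [Filter.cocompact_eq_cofinite]
    refine tendsto_const_nhds.congr' ?_
    refine (Set.Finite.subset S.finite_toSet fun t ht => ?_)
    by_contra h
    exact ht (Set.indicator_of_notMem h _).symm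

theorem cind_apply (S : Finset T) (t : T) :
    cind S t = (S : Set T).indicator (fun _ => (1 : ℝ)) t := rfl

theorem norm_cind_le (S : Finset T) : ‖cind S‖ ≤ 1 := by
  refine c0_norm_le _ zero_le_one fun t => ?_
  rw [cind_apply]
  by_cases h : t ∈ (S : Set T)
  · rw [Set.indicator_of_mem h, abs_one]
  · rw [Set.indicator_of_notMem h, abs_zero]; exact zero_le_one

theorem le_norm_xi (a b : ℝ) (t : T) : a ≤ ‖xi (T := T) a b t‖ := by
  classical
  have h1 : xi a b t (cind {t}, 0) = a := by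
    rw [xi_apply]
    show a * cind {t} t + b * 0 = a
    rw [cind_apply, Set.indicator_of_mem (by simp), mul_one, mul_zero, add_zero]
  have h2 : ‖((cind {t}, 0) : C₀(T, ℝ) × (T →ᵇ ℝ))‖ ≤ 1 := by
    rw [Prod.norm_mk, norm_zero]
    exact max_le (norm_cind_le _) zero_le_one
  calc a = xi a b t (cind {t}, 0) := h1.symm
    _ ≤ ‖xi a b t (cind {t}, 0)‖ := le_abs_self _
    _ ≤ ‖xi (T := T) a b t‖ * ‖((cind {t}, 0) : C₀(T, ℝ) × (T →ᵇ ℝ))‖ :=
        (xi a b t).le_opNorm _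
    _ ≤ ‖xi (T := T) a b t‖ * 1 := mul_le_mul_of_nonneg_left h2 (xi a b t).opNorm_nonneg
    _ = _ := mul_one _

/-- Accumulation points of infinitely many functionals `xi a b t` have norm at most `|b|`. -/
theorem exists_accum {C : Set ((C₀(T, ℝ) × (T →ᵇ ℝ)) →L[ℝ] ℝ)} {a b : ℝ}
    (h : {t : T | xi a b t ∈ C}.Infinite) : ∃ ζ ∈ wConv C, ‖ζ‖ ≤ |b| := by
  haveI : (cofinite ⊓ 𝓟 {t : T | xi a b t ∈ C}).NeBot := h.cofinite_inf_principal_neBot
  set U : Ultrafilter T := Ultrafilter.of (cofinite ⊓ 𝓟 {t : T | xi a b t ∈ C}) with hU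
  have hUle : (U : Filter T) ≤ cofinite ⊓ 𝓟 {t : T | xi a b t ∈ C} := Ultrafilter.of_le _
  have hU1 : (U : Filter T) ≤ cofinite := hUle.trans inf_le_left
  have hU2 : {t : T | xi a b t ∈ C} ∈ (U : Filter T) :=
    Filter.le_principal_iff.mp (hUle.trans inf_le_right)
  have hcpt := WeakDual.isCompact_closedBall (𝕜 := ℝ)
    (0 : StrongDual ℝ (C₀(T, ℝ) × (T →ᵇ ℝ))) (|a| + |b|)
  obtain ⟨z, hz, hlim⟩ := hcpt.ultrafilter_le_nhds
    (U.map fun t => StrongDual.toWeakDual (xi (T := T) a b t)) (by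
      rw [Filter.le_principal_iff]
      refine Filter.mem_map.mpr (Filter.Eventually.of_forall fun t => ?_)
      exact (mem_closedBall_zero_iff (E := StrongDual ℝ (C₀(T, ℝ) × (T →ᵇ ℝ)))).mpr
        (norm_xi_le a b t))
  have hlim' : Tendsto (fun t => StrongDual.toWeakDual (xi (T := T) a b t)) (U : Filter T) (𝓝 z) :=
    hlim
  obtain ⟨ζ, rfl⟩ : ∃ ζ, StrongDual.toWeakDual ζ = z := ⟨WeakDual.toStrongDual z, rfl⟩
  refine ⟨ζ, ?_, ?_⟩
  · refine (mem_wClosure_iff _ ζ).mpr (mem_closure_of_tendsto hlim' ?_)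
    filter_upwards [hU2] with t ht
    exact ⟨_, subset_convexHull ℝ _ ht, rfl⟩
  · refine ContinuousLinearMap.opNorm_le_bound _ (abs_nonneg b) fun x => ?_
    have h1 : Tendsto (fun t => xi a b t x) (U : Filter T) (𝓝 (ζ x)) :=
      ((WeakDual.eval_continuous x).tendsto _).comp hlim'
    have h2 : Tendsto (fun t => a * x.1 t) (U : Filter T) (𝓝 (a * 0)) :=
      ((c0_tendsto x.1).mono_left hU1).const_mul a
    have h3 : Tendsto (fun t => xi a b t x - a * x.1 t) (U : Filter T) (𝓝 (ζ x - a * 0)) :=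
      h1.sub h2
    rw [mul_zero, sub_zero] at h3
    have h4 : ∀ t, ‖xi a b t x - a * x.1 t‖ ≤ |b| * ‖x‖ := fun t => by
      rw [xi_apply, add_sub_cancel_left, norm_mul]
      exact mul_le_mul_of_nonneg_left ((x.2.norm_coe_le_norm t).trans (norm_snd_le x))
        (abs_nonneg b)
    exact le_of_tendsto h3.norm (Filter.Eventually.of_forall h4)

/-- Points of the envelope of a set of functionals `xi a b t`, with `b ≥ 0`, define charges. -/
theorem charge_of_Ienv {A : Set ((C₀(T, ℝ) × (T →ᵇ ℝ)) →L[ℝ] ℝ)}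
    (hA : ∀ φ ∈ A, ∃ a b t, 0 ≤ b ∧ φ = xi a b t)
    {η : (C₀(T, ℝ) × (T →ᵇ ℝ)) →L[ℝ] ℝ} (hη : η ∈ Ienv A) :
    Charge fun B : Set T => η (0, ind B) := by
  refine ⟨fun B => ?_, fun B B' hB => ?_, fun c => ?_⟩
  · refine Ienv_halfspace (c := 0) (x := ((0, ind B) : C₀(T, ℝ) × (T →ᵇ ℝ))) ?_ η hη
    intro φ hφ
    obtain ⟨a, b, t, hb, rfl⟩ := hA φ hφ
    rw [xi_apply]
    show 0 ≤ a * 0 + b * ind B t
    rw [mul_zero, zero_add, ind_apply]
    exact mul_nonneg hb (Set.indicator_nonneg (fun _ _ => zero_le_one) t)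
  · have h1 : ((0, ind (B ∪ B')) : C₀(T, ℝ) × (T →ᵇ ℝ)) = (0, ind B) + (0, ind B') := by
      rw [Prod.mk_add_mk, add_zero]
      congr 1
      ext t
      show ind (B ∪ B') t = ind B t + ind B' t
      rw [ind_apply, ind_apply, ind_apply, Set.indicator_union_of_disjoint hB]
    show η (0, ind (B ∪ B')) = η (0, ind B) + η (0, ind B')
    rw [h1, map_add]
  · -- the cover by the colours
    let C : ℕ → Set ((C₀(T, ℝ) × (T →ᵇ ℝ)) →L[ℝ] ℝ) := fun k =>
      {φ | φ ∈ A ∧ ∃ a b t, c t = k ∧ φ = xi a b t}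
    have hC : A = ⋃ k, C k := by
      ext φ
      rw [Set.mem_iUnion]
      constructor
      · intro hφ
        obtain ⟨a, b, t, _, h⟩ := hA φ hφ
        exact ⟨c t, hφ, a, b, t, rfl, h⟩
      · rintro ⟨_, h, _⟩
        exact h
    have h1 := hη C hC
    have hconv : Convex ℝ {θ : (C₀(T, ℝ) × (T →ᵇ ℝ)) →L[ℝ] ℝ |
        ∃ N : ℕ, ∀ M, N ≤ M → θ (0, ind {t | M ≤ c t}) = 0} := by
      rintro θ ⟨N, hN⟩ θ' ⟨N', hN'⟩ r s _ _ _
      refine ⟨max N N', fun M hM => ?_⟩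
      show r * θ _ + s * θ' _ = 0
      rw [hN M ((le_max_left _ _).trans hM), hN' M ((le_max_right _ _).trans hM), mul_zero,
        mul_zero, add_zero]
    have hsub : convexHull ℝ (⋃ k, wConv (C k)) ⊆ {θ : (C₀(T, ℝ) × (T →ᵇ ℝ)) →L[ℝ] ℝ |
        ∃ N : ℕ, ∀ M, N ≤ M → θ (0, ind {t | M ≤ c t}) = 0} := by
      refine convexHull_min ?_ hconv
      intro θ hθ
      rw [Set.mem_iUnion] at hθ
      obtain ⟨k, hk⟩ := hθ
      refine ⟨k + 1, fun M hM => ?_⟩
      have hz : ∀ φ ∈ C k, φ (0, ind {t | M ≤ c t}) = 0 := by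
        rintro φ ⟨_, a, b, t, ht, rfl⟩
        rw [xi_apply]
        show a * 0 + b * ind {t | M ≤ c t} t = 0
        rw [ind_apply, Set.indicator_of_notMem (by
          show ¬ M ≤ c t
          omega), mul_zero, mul_zero, add_zero]
      have h2 := wConv_halfspace (fun φ hφ => (hz φ hφ).ge) θ hk
      have h3 := wConv_halfspace (x := -((0, ind {t | M ≤ c t}) : C₀(T, ℝ) × (T →ᵇ ℝ))) (c := 0)
        (fun φ hφ => by rw [map_neg, hz φ hφ, neg_zero]) θ hk
      rw [map_neg] at h3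
      linarith
    rw [Metric.tendsto_atTop]
    intro ε hε
    obtain ⟨θ, hθ, hd⟩ := Metric.mem_closure_iff.mp h1 ε hε
    obtain ⟨N, hN⟩ := hsub hθ
    refine ⟨N, fun M hM => ?_⟩
    rw [dist_zero_right]
    have h2 : η (0, ind {t | M ≤ c t}) = (η - θ) (0, ind {t | M ≤ c t}) := by
      rw [_root_.sub_apply, hN M hM, sub_zero]
    rw [h2]
    have h3 : ‖((0, ind {t | M ≤ c t}) : C₀(T, ℝ) × (T →ᵇ ℝ))‖ ≤ 1 := by
      rw [Prod.norm_mk, norm_zero]
      exact max_le zero_le_one (norm_ind_le _)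
    refine ((η - θ).le_opNorm _).trans_lt ?_
    rw [← dist_eq_norm]
    calc dist η θ * _ ≤ dist η θ * 1 := mul_le_mul_of_nonneg_left h3 dist_nonneg
      _ = dist η θ := mul_one _
      _ < ε := hd

/-- The key estimate. -/
theorem key_estimate (O : OmegaOne T) [Uncountable T]
    {A : Set ((C₀(T, ℝ) × (T →ᵇ ℝ)) →L[ℝ] ℝ)} {M D : ℝ} (hM : 0 ≤ M) (hD : 0 ≤ D)
    (hA : ∀ φ ∈ A, ∃ a b t, 0 ≤ b ∧ φ = xi a b t ∧ D ≤ a ∧ D ≤ M * b)
    {η : (C₀(T, ℝ) × (T →ᵇ ℝ)) →L[ℝ] ℝ} (hη : η ∈ Ienv A) : D ≤ ‖η‖ := by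
  have hch : Charge fun B : Set T => η (0, ind B) :=
    charge_of_Ienv (fun φ hφ => by
      obtain ⟨a, b, t, h1, h2, _⟩ := hA φ hφ
      exact ⟨a, b, t, h1, h2⟩) hη
  refine le_of_forall_pos_le_add fun ε hε => ?_
  obtain ⟨S, hS⟩ := hch.exists_finset O (ε := ε / (M + 1)) (by positivity)
  have h1 : D ≤ η (cind S, M • ind (S : Set T)ᶜ) := by
    refine Ienv_halfspace ?_ η hη
    intro φ hφ
    obtain ⟨a, b, t, hb, rfl, ha, hMb⟩ := hA φ hφ
    rw [xi_apply]
    show D ≤ a * cind S t + b * (M * ind (S : Set T)ᶜ t)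
    rw [cind_apply, ind_apply]
    by_cases ht : t ∈ (S : Set T)
    · rw [Set.indicator_of_mem ht, Set.indicator_of_notMem (by simpa using ht)]
      linarith
    · rw [Set.indicator_of_notMem ht, Set.indicator_of_mem (by simpa using ht)]
      linarith
  have h2 : ((cind S, M • ind (S : Set T)ᶜ) : C₀(T, ℝ) × (T →ᵇ ℝ)) =
      (cind S, 0) + M • (0, ind (S : Set T)ᶜ) := by
    rw [Prod.smul_mk, smul_zero, Prod.mk_add_mk, add_zero, zero_add]
  rw [h2, map_add, map_smul, smul_eq_mul] at h1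
  have h3 : η (cind S, 0) ≤ ‖η‖ := by
    refine (le_abs_self _).trans ((η.le_opNorm _).trans ?_)
    have : ‖((cind S, 0) : C₀(T, ℝ) × (T →ᵇ ℝ))‖ ≤ 1 := by
      rw [Prod.norm_mk, norm_zero]
      exact max_le (norm_cind_le _) zero_le_one
    calc ‖η‖ * _ ≤ ‖η‖ * 1 := mul_le_mul_of_nonneg_left this η.opNorm_nonneg
      _ = ‖η‖ := mul_one _
  have h4 : M * η (0, ind (S : Set T)ᶜ) ≤ ε := by
    have h5 : M * η (0, ind (S : Set T)ᶜ) ≤ M * (ε / (M + 1)) := mul_le_mul_of_nonneg_left hS hM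
    refine h5.trans ?_
    rw [mul_div_assoc', div_le_iff₀ (by positivity)]
    nlinarith
  linarith

end Space

/-- The first example: `0` is in the envelope but far from the envelopes of the bounded parts. -/
theorem exists_dense_counterexample :
    ∃ (X : Type) (_ : NormedAddCommGroup X) (_ : NormedSpace ℝ X) (_ : CompleteSpace X)
      (A : Set (X →L[ℝ] ℝ)),
      ¬ Ienv A ⊆ closure (⋃ n : ℕ, Ienv (A ∩ Metric.closedBall 0 (n : ℝ))) := by
  classical
  obtain ⟨T, hT, ⟨O⟩⟩ := exists_omegaOne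
  letI : TopologicalSpace T := ⊥
  haveI : DiscreteTopology T := ⟨rfl⟩
  refine ⟨C₀(T, ℝ) × (T →ᵇ ℝ), inferInstance, inferInstance, inferInstance,
    {φ | ∃ m : ℕ, 0 < m ∧ ∃ t, φ = xi (m : ℝ) (1 / (m : ℝ)) t}, fun hsub => ?_⟩
  set A : Set ((C₀(T, ℝ) × (T →ᵇ ℝ)) →L[ℝ] ℝ) :=
    {φ | ∃ m : ℕ, 0 < m ∧ ∃ t, φ = xi (m : ℝ) (1 / (m : ℝ)) t} with hAdef
  have h0 : (0 : (C₀(T, ℝ) × (T →ᵇ ℝ)) →L[ℝ] ℝ) ∈ Ienv A := by
    intro C hC
    have hstep : ∀ m : ℕ, 0 < m → ∃ ζ ∈ ⋃ k, wConv (C k), ‖ζ‖ ≤ 1 / (m : ℝ) := by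
      intro m hm
      have hex : ∃ k, {t : T | xi (m : ℝ) (1 / (m : ℝ)) t ∈ C k}.Infinite := by
        by_contra hcon
        push Not at hcon
        have h1 : (Set.univ : Set T) = ⋃ k, {t : T | xi (m : ℝ) (1 / (m : ℝ)) t ∈ C k} := by
          ext t
          simp only [Set.mem_univ, true_iff]
          have ht : xi (m : ℝ) (1 / (m : ℝ)) t ∈ ⋃ k, C k := by
            rw [← hC]; exact ⟨m, hm, t, rfl⟩
          rw [Set.mem_iUnion] at ht ⊢
          exact ht
        have h2 : (Set.univ : Set T).Countable := by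
          rw [h1]
          exact Set.countable_iUnion fun k => (hcon k).countable
        exact Set.not_countable_univ h2
      obtain ⟨k, hk⟩ := hex
      obtain ⟨ζ, hζ, hn⟩ := exists_accum hk
      refine ⟨ζ, Set.mem_iUnion.mpr ⟨k, hζ⟩, hn.trans (le_of_eq ?_)⟩
      exact abs_of_nonneg (by positivity)
    refine closure_mono (subset_convexHull ℝ _) (Metric.mem_closure_iff.mpr fun ε hε => ?_)
    obtain ⟨m, hm⟩ := exists_nat_one_div_lt hε
    obtain ⟨ζ, hζ, hn⟩ := hstep (m + 1) (Nat.succ_pos m)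
    refine ⟨ζ, hζ, ?_⟩
    rw [dist_zero_left]
    refine lt_of_le_of_lt hn ?_
    rw [Nat.cast_succ]
    exact hm
  have h1 := hsub h0
  obtain ⟨θ, hθ, hd⟩ := Metric.mem_closure_iff.mp h1 1 one_pos
  rw [Set.mem_iUnion] at hθ
  obtain ⟨n, hn⟩ := hθ
  have h2 : (1 : ℝ) ≤ ‖θ‖ := by
    refine key_estimate O (M := (n : ℝ)) (D := 1) (Nat.cast_nonneg n) zero_le_one ?_ hn
    rintro φ ⟨⟨m, hm, t, rfl⟩, hball⟩
    have hmpos : (0 : ℝ) < m := Nat.cast_pos.mpr hm
    refine ⟨m, 1 / m, t, by positivity, rfl, by exact_mod_cast hm, ?_⟩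
    rw [mem_closedBall_zero_iff] at hball
    have h3 : (m : ℝ) ≤ n := (le_norm_xi _ _ t).trans hball
    rw [mul_one_div, le_div_iff₀ hmpos, one_mul]
    exact h3
  rw [dist_zero_left] at hd
  linarith

end Pool.Agent.V1198.IE
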