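import Mathlib

/-!
# The function `x log |x|` on `ℓ₁`
-/

set_option autoImplicit false

noncomputable section

open Filter Topology
open scoped ENNReal

namespace Pool.Agent.V1198.XL

/-- `ℓ₁`. -/
abbrev E1 : Type := lp (fun _ : ℕ => ℝ) 1

/-- `ψ(t) = t log |t|`. -/
def psi (t : ℝ) : ℝ := t * Real.log t

theorem psi_zero : psi 0 = 0 := by simp [psi]

theorem psi_neg (t : ℝ) : psi (-t) = -psi t := by
  simp [psi, Real.log_neg_eq_log]

theorem psi_mul (s t : ℝ) : psi (s * t) = psi s * t + s * psi t := by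
  unfold psi
  rcases eq_or_ne s 0 with hs | hs
  · simp [hs]
  rcases eq_or_ne t 0 with ht | ht
  · simp [ht]
  rw [Real.log_mul hs ht]
  ring

theorem continuous_psi : Continuous psi := Real.continuous_mul_log

theorem abs_psi_le (t : ℝ) : |psi t| ≤ 1 + t ^ 2 := by
  have h : ∀ t : ℝ, 0 < t → |psi t| ≤ 1 + t ^ 2 := by
    intro t ht
    unfold psi
    rw [abs_le]
    constructor
    · have h1 : Real.log t⁻¹ ≤ t⁻¹ - 1 := Real.log_le_sub_one_of_pos (inv_pos.mpr ht)
      rw [Real.log_inv] at h1
      have h2 : t * (-Real.log t) ≤ t * (t⁻¹ - 1) := mul_le_mul_of_nonneg_left h1 ht.le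
      have h3 : t * (t⁻¹ - 1) = 1 - t := by field_simp
      nlinarith [sq_nonneg t]
    · have h1 : Real.log t ≤ t - 1 := Real.log_le_sub_one_of_pos ht
      have h2 : t * Real.log t ≤ t * (t - 1) := mul_le_mul_of_nonneg_left h1 ht.le
      nlinarith
  rcases lt_trichotomy t 0 with ht | ht | ht
  · have h1 := h (-t) (by linarith)
    rw [psi_neg, abs_neg, neg_sq] at h1
    exact h1
  · rw [ht, psi_zero, abs_zero]; positivity
  · exact h t ht

theorem psi_add_aux {s t : ℝ} (hs : 0 ≤ s) (ht : 0 ≤ t) :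
    |psi (s + t) - psi s - psi t| ≤ s + t := by
  rcases hs.eq_or_lt with hs | hs
  · rw [← hs, zero_add, psi_zero, sub_zero, sub_self, abs_zero]; linarith
  rcases ht.eq_or_lt with ht | ht
  · rw [← ht, add_zero, psi_zero, sub_zero, sub_self, abs_zero]; linarith
  have hst : 0 < s + t := by linarith
  unfold psi
  have h1 : (s + t) * Real.log (s + t) - s * Real.log s - t * Real.log t =
      s * Real.log ((s + t) / s) + t * Real.log ((s + t) / t) := by
    rw [Real.log_div hst.ne' hs.ne', Real.log_div hst.ne' ht.ne']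
    ring
  rw [h1]
  have h2 : 0 ≤ Real.log ((s + t) / s) := Real.log_nonneg ((le_div_iff₀ hs).mpr (by linarith))
  have h3 : 0 ≤ Real.log ((s + t) / t) := Real.log_nonneg ((le_div_iff₀ ht).mpr (by linarith))
  rw [abs_of_nonneg (by positivity)]
  have h4 : s * Real.log ((s + t) / s) ≤ s * ((s + t) / s - 1) :=
    mul_le_mul_of_nonneg_left (Real.log_le_sub_one_of_pos (by positivity)) hs.le
  have h5 : t * Real.log ((s + t) / t) ≤ t * ((s + t) / t - 1) :=
    mul_le_mul_of_nonneg_left (Real.log_le_sub_one_of_pos (by positivity)) ht.le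
  have h6 : s * ((s + t) / s - 1) = t := by field_simp; ring
  have h7 : t * ((s + t) / t - 1) = s := by field_simp; ring
  linarith

theorem psi_add (s t : ℝ) : |psi (s + t) - psi s - psi t| ≤ |s| + |t| := by
  -- opposite signs
  have hopp : ∀ s t : ℝ, 0 ≤ s → 0 ≤ t → t ≤ s → |psi (s + -t) - psi s - psi (-t)| ≤ s + t := by
    intro s t _ ht hts
    have h := psi_add_aux (s := s - t) (t := t) (by linarith) ht
    rw [sub_add_cancel] at h
    rw [psi_neg, ← sub_eq_add_neg]
    have h2 : psi (s - t) - psi s - -psi t = -(psi s - psi (s - t) - psi t) := by ring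
    rw [h2, abs_neg]
    linarith
  have hneg : ∀ s t : ℝ, |psi (-s + -t) - psi (-s) - psi (-t)| = |psi (s + t) - psi s - psi t| := by
    intro s t
    rw [← neg_add, psi_neg, psi_neg, psi_neg, ← abs_neg]
    congr 1
    ring
  rcases le_total 0 s with hs | hs <;> rcases le_total 0 t with ht | ht
  · rw [abs_of_nonneg hs, abs_of_nonneg ht]
    exact psi_add_aux hs ht
  · rw [abs_of_nonneg hs, abs_of_nonpos ht]
    rcases le_total (-t) s with h | h
    · have h1 := hopp s (-t) hs (by linarith) h
      rwa [neg_neg] at h1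
    · have h1 := hopp (-t) s (by linarith) hs h
      rw [← hneg, neg_neg] at h1
      have h2 : psi (t + s) - psi t - psi (- -s) = psi (s + t) - psi s - psi t := by
        rw [neg_neg, add_comm t s]; ring
      have h3 : - -s = s := neg_neg s
      rw [h3] at h1
      rw [add_comm t s] at h1
      have h4 : psi (s + t) - psi t - psi s = psi (s + t) - psi s - psi t := by ring
      rw [h4] at h1
      linarith
  · rw [abs_of_nonpos hs, abs_of_nonneg ht]
    rcases le_total (-s) t with h | h
    · have h1 := hopp t (-s) ht (by linarith) h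
      rw [neg_neg, add_comm t s] at h1
      have h4 : psi (s + t) - psi t - psi s = psi (s + t) - psi s - psi t := by ring
      rw [h4] at h1
      linarith
    · have h1 := hopp (-s) t (by linarith) ht h
      rw [hneg s t] at h1
      exact h1
  · rw [abs_of_nonpos hs, abs_of_nonpos ht, ← hneg]
    exact psi_add_aux (by linarith) (by linarith)

/-! ### Sequences -/

theorem summable_E1 (x : E1) : Summable fun n => x n := by
  have h := lp.memℓp x
  rw [memℓp_gen_iff (by simp)] at h
  refine Summable.of_norm ?_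
  simpa using h

/-- Summable sequences as elements of `ℓ₁`. -/
def mk (f : ℕ → ℝ) (h : Summable f) : E1 := ⟨f, memℓp_gen (by simpa using h.norm)⟩

theorem mk_apply (f : ℕ → ℝ) (h : Summable f) (n : ℕ) : mk f h n = f n := rfl

theorem norm_eq (x : E1) : ‖x‖ = ∑' n, |x n| := by
  rw [lp.norm_eq_tsum_rpow (by simp)]
  simp

theorem summable_psi_of {x : E1} {c : ℕ → ℝ} (hc0 : ∀ n, 0 ≤ c n) (hc1 : ∀ n, c n ≤ 1)
    (hc : Summable c) : Summable fun n => psi (c n * x n) := by
  have h1 : ∀ n, |x n| ≤ ‖x‖ := fun n => lp.norm_apply_le_norm one_ne_zero x n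
  have h2 : Summable fun n => 2 * |x n| := ((summable_E1 x).abs).mul_left 2
  have h3 : Summable fun n => c n * (1 + ‖x‖ ^ 2) := hc.mul_right _
  refine Summable.of_norm_bounded (h2.add h3) fun n => ?_
  rw [psi_mul]
  refine (norm_add_le _ _).trans (add_le_add ?_ ?_)
  · rw [norm_mul, Real.norm_eq_abs, Real.norm_eq_abs]
    refine mul_le_mul_of_nonneg_right ?_ (abs_nonneg _)
    refine (abs_psi_le _).trans ?_
    nlinarith [hc0 n, hc1 n]
  · rw [norm_mul, Real.norm_eq_abs, Real.norm_eq_abs, abs_of_nonneg (hc0 n)]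
    refine mul_le_mul_of_nonneg_left ?_ (hc0 n)
    refine (abs_psi_le _).trans ?_
    have h4 : x n ^ 2 ≤ ‖x‖ ^ 2 := by
      rw [← sq_abs]
      exact pow_le_pow_left₀ (abs_nonneg _) (h1 n) 2
    linarith

/-- The element of `ℓ₁` for which `x log |x|` is not summable. -/
theorem exists_not_summable : ∃ x : E1, ¬ Summable fun n => psi (x n) := by
  -- `l n = log₂ n`
  let f : ℕ → ℝ := fun n => 1 / ((n : ℝ) * ((Nat.log 2 n : ℝ) + 1) ^ 2)
  let g : ℕ → ℝ := fun n => 1 / ((n : ℝ) * ((Nat.log 2 n : ℝ) + 1))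
  have hlog : ∀ m n : ℕ, m ≤ n → (Nat.log 2 m : ℝ) ≤ Nat.log 2 n := fun m n h => by
    exact_mod_cast Nat.log_mono_right h
  have hf : Summable f := by
    rw [← summable_condensed_iff_of_nonneg (fun n => by positivity) (fun m n hm hmn => ?_)]
    · have h1 : ∀ k : ℕ, (2 : ℝ) ^ k * f (2 ^ k) = 1 / (((k + 1 : ℕ) : ℝ)) ^ 2 := fun k => by
        simp only [f]
        rw [Nat.log_pow (by norm_num)]
        push_cast
        field_simp
      simp_rw [h1]
      exact (summable_nat_add_iff 1).mpr (Real.summable_one_div_nat_pow.mpr one_lt_two)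
    · simp only [f]
      have hm' : (0 : ℝ) < m := Nat.cast_pos.mpr hm
      refine one_div_le_one_div_of_le (by positivity) ?_
      refine mul_le_mul (by exact_mod_cast hmn) ?_ (by positivity) (by positivity)
      exact pow_le_pow_left₀ (by positivity) (by linarith [hlog m n hmn]) 2
  have hg : ¬ Summable g := by
    rw [← summable_condensed_iff_of_nonneg (fun n => by positivity) (fun m n hm hmn => ?_)]
    · have h1 : ∀ k : ℕ, (2 : ℝ) ^ k * g (2 ^ k) = 1 / ((k + 1 : ℕ) : ℝ) := fun k => by
        simp only [g]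
        rw [Nat.log_pow (by norm_num)]
        push_cast
        field_simp
      simp_rw [h1]
      intro h
      exact Real.not_summable_one_div_natCast
        ((summable_nat_add_iff (f := fun n : ℕ => 1 / (n : ℝ)) 1).mp h)
    · simp only [g]
      have hm' : (0 : ℝ) < m := Nat.cast_pos.mpr hm
      refine one_div_le_one_div_of_le (by positivity) ?_
      refine mul_le_mul (by exact_mod_cast hmn) ?_ (by positivity) (by positivity)
      linarith [hlog m n hmn]
  refine ⟨mk f hf, fun hpsi => hg ?_⟩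
  simp_rw [mk_apply] at hpsi
  -- compare
  have hlog2 : 0 < Real.log 2 := Real.log_pos one_lt_two
  have hs : Summable fun n => (2 / Real.log 2) * |psi (f n)| := hpsi.abs.mul_left _
  rw [← summable_nat_add_iff 2] at hs ⊢
  refine Summable.of_nonneg_of_le (fun n => by positivity) (fun n => ?_) hs
  set N := n + 2 with hN
  have hN0 : (0 : ℝ) < N := by positivity
  set l := Nat.log 2 N with hl
  have hl1 : 1 ≤ l := (Nat.le_log_iff_pow_le (by norm_num) (by omega)).mpr (by omega)
  have hl1' : (1 : ℝ) ≤ l := by exact_mod_cast hl1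
  have h2l : (2 : ℝ) ^ l ≤ N := by exact_mod_cast Nat.pow_log_le_self 2 (by omega)
  have hfN : f N = 1 / ((N : ℝ) * ((l : ℝ) + 1) ^ 2) := rfl
  have hgN : g N = 1 / ((N : ℝ) * ((l : ℝ) + 1)) := rfl
  have hfpos : 0 < f N := by rw [hfN]; positivity
  have hlogf : l * Real.log 2 ≤ -Real.log (f N) := by
    rw [hfN, one_div, Real.log_inv, neg_neg, ← Real.log_pow]
    refine Real.log_le_log (by positivity) (h2l.trans ?_)
    have : (1 : ℝ) ≤ ((l : ℝ) + 1) ^ 2 := by nlinarith
    nlinarith
  have habs : f N * (l * Real.log 2) ≤ |psi (f N)| := by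
    have h5 : f N * (l * Real.log 2) ≤ f N * (-Real.log (f N)) :=
      mul_le_mul_of_nonneg_left hlogf hfpos.le
    refine h5.trans ?_
    rw [mul_neg]
    exact neg_le_abs _
  have h6 : g N = f N * (l + 1) := by
    rw [hfN, hgN]
    field_simp
  rw [h6]
  calc f N * (l + 1) ≤ f N * (2 * l) := mul_le_mul_of_nonneg_left (by linarith) hfpos.le
    _ = 2 / Real.log 2 * (f N * (l * Real.log 2)) := by field_simp
    _ ≤ 2 / Real.log 2 * |psi (f N)| := mul_le_mul_of_nonneg_left habs (by positivity)

/-- The map `z ↦ Σ z_k v_k` for a bounded sequence `v`. -/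
theorem exists_sum_map {B : Type*} [NormedAddCommGroup B] [NormedSpace ℝ B] [CompleteSpace B]
    {v : ℕ → B} {K : ℝ} (hv : ∀ k, ‖v k‖ ≤ K) :
    ∀ z : E1, Summable fun k => z k • v k := by
  intro z
  have h1 : Summable fun k => |z k| * K := ((summable_E1 z).abs).mul_right K
  refine Summable.of_norm_bounded h1 fun k => ?_
  rw [norm_smul, Real.norm_eq_abs]
  exact mul_le_mul_of_nonneg_left (hv k) (abs_nonneg _)

/-- The embedding `z ↦ Σ 2^{-k} z_k e_{φ k}`. -/
def J (φ : ℕ → ℕ) (hφ : StrictMono φ) : E1 →ₗ[ℝ] E1 where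
  toFun z := mk (Function.extend φ (fun k => (1 / 2 : ℝ) ^ k * z k) 0) (by
    rw [← hφ.injective.summable_iff (fun n hn => by
      rw [Function.extend_apply' _ _ _ (by simpa using hn)]; rfl)]
    have h1 : Function.extend φ (fun k => (1 / 2 : ℝ) ^ k * z k) 0 ∘ φ =
        fun k => (1 / 2 : ℝ) ^ k * z k := by
      funext k
      exact hφ.injective.extend_apply _ _ _
    rw [h1]
    refine Summable.of_norm_bounded (summable_E1 z).abs fun k => ?_
    rw [norm_mul, Real.norm_eq_abs, Real.norm_eq_abs]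
    refine mul_le_of_le_one_left (abs_nonneg _) ?_
    rw [abs_of_nonneg (by positivity)]
    exact pow_le_one₀ (by norm_num) (by norm_num))
  map_add' x y := by
    ext n
    show Function.extend φ (fun k => (1 / 2 : ℝ) ^ k * (x k + y k)) 0 n =
      Function.extend φ (fun k => (1 / 2 : ℝ) ^ k * x k) 0 n +
        Function.extend φ (fun k => (1 / 2 : ℝ) ^ k * y k) 0 n
    by_cases hn : ∃ k, φ k = n
    · obtain ⟨k, rfl⟩ := hn
      rw [hφ.injective.extend_apply, hφ.injective.extend_apply, hφ.injective.extend_apply]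
      ring
    · rw [Function.extend_apply' _ _ _ hn, Function.extend_apply' _ _ _ hn,
        Function.extend_apply' _ _ _ hn]
      simp
  map_smul' r x := by
    ext n
    show Function.extend φ (fun k => (1 / 2 : ℝ) ^ k * (r * x k)) 0 n =
      r * Function.extend φ (fun k => (1 / 2 : ℝ) ^ k * x k) 0 n
    by_cases hn : ∃ k, φ k = n
    · obtain ⟨k, rfl⟩ := hn
      rw [hφ.injective.extend_apply, hφ.injective.extend_apply]
      ring
    · rw [Function.extend_apply' _ _ _ hn, Function.extend_apply' _ _ _ hn]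
      simp

theorem J_apply (φ : ℕ → ℕ) (hφ : StrictMono φ) (z : E1) (k : ℕ) :
    J φ hφ z (φ k) = (1 / 2 : ℝ) ^ k * z k := by
  show Function.extend φ (fun k => (1 / 2 : ℝ) ^ k * z k) 0 (φ k) = _
  rw [hφ.injective.extend_apply]

theorem J_apply' (φ : ℕ → ℕ) (hφ : StrictMono φ) (z : E1) {n : ℕ} (hn : ¬ ∃ k, φ k = n) :
    J φ hφ z n = 0 := by
  show Function.extend φ (fun k => (1 / 2 : ℝ) ^ k * z k) 0 n = _
  rw [Function.extend_apply' _ _ _ hn]
  rfl

theorem single_self (k : ℕ) (a : ℝ) : (lp.single 1 k a : E1) k = a :=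
  lp.single_apply_self (E := fun _ : ℕ => ℝ) 1 k a

theorem single_ne (k : ℕ) (a : ℝ) {n : ℕ} (h : n ≠ k) : (lp.single 1 k a : E1) n = 0 :=
  lp.single_apply_ne (E := fun _ : ℕ => ℝ) 1 k a h

theorem J_continuous (φ : ℕ → ℕ) (hφ : StrictMono φ) : Continuous (J φ hφ) := by
  refine LinearMap.continuous_of_seq_closed_graph _ fun u x y hu hy => ?_
  ext n
  have h1 : Tendsto (fun m => J φ hφ (u m) n) atTop (𝓝 (y n)) :=
    ((lp.evalCLM ℝ (fun _ : ℕ => ℝ) 1 n).continuous.tendsto y).comp hy
  refine tendsto_nhds_unique h1 ?_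
  by_cases hn : ∃ k, φ k = n
  · obtain ⟨k, rfl⟩ := hn
    simp_rw [J_apply]
    exact (((lp.evalCLM ℝ (fun _ : ℕ => ℝ) 1 k).continuous.tendsto x).comp hu).const_mul _
  · simp_rw [J_apply' φ hφ _ hn]
    exact tendsto_const_nhds

theorem summable_psi_J (φ : ℕ → ℕ) (hφ : StrictMono φ) (z : E1) :
    Summable fun n => psi (J φ hφ z n) := by
  rw [← hφ.injective.summable_iff (fun n hn => by
    rw [J_apply' φ hφ z (by simpa using hn), psi_zero])]
  have h1 : (fun n => psi (J φ hφ z n)) ∘ φ = fun k => psi ((1 / 2 : ℝ) ^ k * z k) := by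
    funext k
    show psi (J φ hφ z (φ k)) = _
    rw [J_apply]
  rw [h1]
  exact summable_psi_of (fun k => by positivity) (fun k => pow_le_one₀ (by norm_num) (by norm_num))
    (summable_geometric_of_lt_one (by norm_num) (by norm_num))

/-- Core lemma: the domain of `x log |x|` is not a Banach space. -/
theorem core {W Y : Type*} [NormedAddCommGroup W] [NormedSpace ℝ W] [CompleteSpace W]
    [NormedAddCommGroup Y] [NormedSpace ℝ Y] (i : W →L[ℝ] Y) (hi : Function.Injective i)
    (κ : E1 →L[ℝ] Y)
    (hL : ∀ x : E1, κ x ∈ Set.range i ↔ Summable fun n => psi (x n)) : False := by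
  classical
  -- the preimages of the unit vectors
  have he : ∀ j : ℕ, ∃ w : W, i w = κ (lp.single 1 j (1 : ℝ)) := by
    intro j
    have h1 : κ (lp.single 1 j (1 : ℝ)) ∈ Set.range i := by
      rw [hL]
      refine summable_of_ne_finset_zero (s := {j}) fun n hn => ?_
      rw [single_ne j 1 (by simpa using hn), psi_zero]
    exact h1
  choose f hf using he
  -- the maps `S`
  have hS : ∀ φ : ℕ → ℕ, StrictMono φ → ∃ C : ℝ, ∀ k, ‖f (φ k)‖ ≤ C * 2 ^ k := by
    intro φ hφ
    have h1 : ∀ z : E1, ∃ w : W, i w = κ (J φ hφ z) := fun z =>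
      (hL _).mpr (summable_psi_J φ hφ z)
    choose S hS using h1
    let S' : E1 →ₗ[ℝ] W :=
      { toFun := S
        map_add' := fun x y => hi (by rw [map_add, hS, hS, hS, map_add, map_add])
        map_smul' := fun r x => hi (by
          rw [RingHom.id_apply, map_smul, hS, hS, map_smul, map_smul]) }
    have hcont : Continuous S' := by
      refine LinearMap.continuous_of_seq_closed_graph _ fun u x y hu hy => ?_
      refine hi ?_
      show i y = i (S x)
      rw [hS]
      have h2 : Tendsto (fun m => i (S (u m))) atTop (𝓝 (i y)) := (i.continuous.tendsto y).comp hy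
      have h3 : Tendsto (fun m => i (S (u m))) atTop (𝓝 (κ (J φ hφ x))) := by
        simp_rw [hS]
        exact ((κ.continuous.comp (J_continuous φ hφ)).tendsto x).comp hu
      exact tendsto_nhds_unique h2 h3
    let S'' : E1 →L[ℝ] W := ⟨S', hcont⟩
    refine ⟨‖S''‖, fun k => ?_⟩
    have h4 : f (φ k) = (2 : ℝ) ^ k • S (lp.single 1 k (1 : ℝ)) := by
      refine hi ?_
      rw [map_smul, hf, hS, ← map_smul]
      congr 1
      ext n
      rw [lp.coeFn_smul, Pi.smul_apply, smul_eq_mul]
      by_cases hn : ∃ l, φ l = n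
      · obtain ⟨l, rfl⟩ := hn
        rw [J_apply]
        by_cases hlk : l = k
        · rw [hlk, single_self, single_self, mul_one, ← mul_pow]
          norm_num
        · rw [single_ne _ _ (fun h => hlk (hφ.injective h)), single_ne _ _ hlk, mul_zero,
            mul_zero]
      · rw [J_apply' φ hφ _ hn, mul_zero, single_ne]
        rintro rfl
        exact hn ⟨k, rfl⟩
    rw [h4, norm_smul, Real.norm_eq_abs, abs_of_pos (by positivity), mul_comm]
    refine mul_le_mul_of_nonneg_right ?_ (by positivity)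
    have h5 := S''.le_opNorm (lp.single 1 k (1 : ℝ))
    rw [lp.norm_single one_pos, norm_one, mul_one] at h5
    exact h5
  -- boundedness
  obtain ⟨K, hK⟩ : ∃ K, ∀ j, ‖f j‖ ≤ K := by
    by_contra hcon
    push Not at hcon
    have hfreq : ∀ n : ℕ, ∃ᶠ j in atTop, (n : ℝ) * 2 ^ n < ‖f j‖ := by
      intro n
      rw [Filter.frequently_atTop]
      intro a
      obtain ⟨j, hj⟩ := hcon (((n : ℝ) * 2 ^ n) + ∑ b ∈ Finset.range a, ‖f b‖)
      refine ⟨j, ?_, ?_⟩
      · by_contra hlt
        push Not at hlt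
        have h1 : ‖f j‖ ≤ ∑ b ∈ Finset.range a, ‖f b‖ :=
          Finset.single_le_sum (f := fun b => ‖f b‖) (fun b _ => norm_nonneg _)
            (Finset.mem_range.mpr hlt)
        have h2 : (0 : ℝ) ≤ (n : ℝ) * 2 ^ n := by positivity
        linarith
      · have h1 : (0 : ℝ) ≤ ∑ b ∈ Finset.range a, ‖f b‖ :=
          Finset.sum_nonneg fun b _ => norm_nonneg _
        linarith
    obtain ⟨φ, hφ, hφ2⟩ := Filter.extraction_forall_of_frequently hfreq
    obtain ⟨C, hC⟩ := hS φ hφ
    obtain ⟨n, hn⟩ := exists_nat_ge C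
    have h1 := hφ2 n
    have h2 := hC n
    have h3 : C * 2 ^ n ≤ (n : ℝ) * 2 ^ n := mul_le_mul_of_nonneg_right hn (by positivity)
    linarith
  -- every element of `ℓ₁` is in the domain
  obtain ⟨x, hx⟩ := exists_not_summable
  refine hx ((hL x).mp ⟨∑' k, x k • f k, ?_⟩)
  have h1 : HasSum (fun k => x k • f k) (∑' k, x k • f k) := (exists_sum_map hK x).hasSum
  have h2 : HasSum (fun k => i (x k • f k)) (i (∑' k, x k • f k)) := h1.mapL i
  have h3 : HasSum (fun k => κ (lp.single 1 k (x k))) (κ x) :=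
    (lp.hasSum_single ENNReal.one_ne_top x).mapL κ
  refine h2.unique ?_
  convert h3 using 2 with k
  rw [map_smul, hf, ← map_smul]
  congr 1
  ext n
  rw [lp.coeFn_smul, Pi.smul_apply, smul_eq_mul]
  by_cases hnk : n = k
  · rw [hnk, single_self, single_self, mul_one]
  · rw [single_ne _ _ hnk, single_ne _ _ hnk, mul_zero]

/-! ### Separability, measurability -/

instance separable_E1 : TopologicalSpace.SeparableSpace E1 := by
  rw [← TopologicalSpace.isSeparable_univ_iff]
  have h1 : TopologicalSpace.IsSeparable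
      (Submodule.span ℝ (Set.range fun k : ℕ => (lp.single 1 k (1 : ℝ) : E1)) : Set E1) :=
    (Set.countable_range _).isSeparable.span
  refine h1.closure.mono fun x _ => ?_
  refine mem_closure_of_tendsto (lp.hasSum_single ENNReal.one_ne_top x).tendsto_sum_nat
    (Filter.Eventually.of_forall fun N => ?_)
  refine Submodule.sum_mem _ fun k _ => ?_
  have h2 : (lp.single 1 k (x k) : E1) = x k • lp.single 1 k (1 : ℝ) := by
    ext n
    rw [lp.coeFn_smul, Pi.smul_apply, smul_eq_mul]
    by_cases hnk : n = k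
    · rw [hnk, single_self, single_self, mul_one]
    · rw [single_ne _ _ hnk, single_ne _ _ hnk, mul_zero]
  rw [h2]
  exact Submodule.smul_mem _ _ (Submodule.subset_span ⟨k, rfl⟩)

/-- The weights `2^{-n}`. -/
def D : E1 →L[ℝ] E1 := ⟨J id strictMono_id, J_continuous id strictMono_id⟩

theorem D_apply (z : E1) (n : ℕ) : D z n = (1 / 2 : ℝ) ^ n * z n := J_apply id strictMono_id z n

theorem D_injective : Function.Injective D := fun x y h => by
  ext n
  have h1 : D x n = D y n := by rw [h]
  rw [D_apply, D_apply] at h1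
  exact mul_left_cancel₀ (by positivity) h1

theorem norm_D_le (z : E1) : ‖D z‖ ≤ ‖z‖ := by
  rw [norm_eq, norm_eq]
  refine (summable_E1 _).abs.tsum_le_tsum (fun n => ?_) (summable_E1 _).abs
  rw [D_apply, abs_mul]
  refine mul_le_of_le_one_left (abs_nonneg _) ?_
  rw [abs_of_nonneg (by positivity)]
  exact pow_le_one₀ (by norm_num) (by norm_num)

theorem summable_Dpsi (x : E1) : Summable fun n => (1 / 2 : ℝ) ^ n * psi (x n) := by
  have h3 : Summable fun n : ℕ => (1 / 2 : ℝ) ^ n * (1 + ‖x‖ ^ 2) :=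
    (summable_geometric_of_lt_one (by norm_num) (by norm_num)).mul_right _
  refine Summable.of_norm_bounded h3 fun n => ?_
  rw [norm_mul, Real.norm_eq_abs, Real.norm_eq_abs, abs_of_nonneg (by positivity)]
  refine mul_le_mul_of_nonneg_left ?_ (by positivity)
  refine (abs_psi_le _).trans ?_
  have h1 : |x n| ≤ ‖x‖ := lp.norm_apply_le_norm one_ne_zero x n
  have h4 : x n ^ 2 ≤ ‖x‖ ^ 2 := by
    rw [← sq_abs]
    exact pow_le_pow_left₀ (abs_nonneg _) h1 2
  linarith

/-- The map `x ↦ (2^{-n} x_n log |x_n|)`. -/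
def Dpsi (x : E1) : E1 := mk (fun n => (1 / 2 : ℝ) ^ n * psi (x n)) (summable_Dpsi x)

theorem Dpsi_apply (x : E1) (n : ℕ) : Dpsi x n = (1 / 2 : ℝ) ^ n * psi (x n) := rfl

theorem measurable_Dpsi : @Measurable E1 E1 (borel E1) (borel E1) Dpsi := by
  borelize E1
  have h1 : ∀ N : ℕ, Continuous fun x : E1 =>
      ∑ n ∈ Finset.range N, (lp.single 1 n ((1 / 2 : ℝ) ^ n * psi (x n)) : E1) := fun N => by
    refine continuous_finsetSum _ fun n _ => ?_
    refine (lp.singleContinuousLinearMap ℝ (fun _ : ℕ => ℝ) 1 n).continuous.comp ?_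
    exact continuous_const.mul (continuous_psi.comp
      (lp.evalCLM ℝ (fun _ : ℕ => ℝ) 1 n).continuous)
  refine measurable_of_tendsto_metrizable (fun N => (h1 N).measurable) ?_
  rw [tendsto_pi_nhds]
  intro x
  exact (lp.hasSum_single ENNReal.one_ne_top (Dpsi x)).tendsto_sum_nat

theorem Dpsi_linear_mod (a b : ℝ) (x y : E1) :
    ∃ m : E1, D m = Dpsi (a • x + b • y) - (a • Dpsi x + b • Dpsi y) := by
  have h0 : ∀ n, psi (a * x n + b * y n) - (a * psi (x n) + b * psi (y n)) =
      (psi (a * x n + b * y n) - psi (a * x n) - psi (b * y n)) + (psi a * x n + psi b * y n) :=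
    fun n => by rw [psi_mul, psi_mul]; ring
  have hs : Summable fun n => psi (a * x n + b * y n) - (a * psi (x n) + b * psi (y n)) := by
    simp_rw [h0]
    refine Summable.add ?_ (((summable_E1 x).mul_left _).add ((summable_E1 y).mul_left _))
    refine Summable.of_norm_bounded
      (((summable_E1 x).mul_left a).abs.add ((summable_E1 y).mul_left b).abs) fun n => ?_
    exact psi_add _ _
  refine ⟨mk _ hs, ?_⟩
  ext n
  rw [D_apply, mk_apply]
  show (1 / 2 : ℝ) ^ n * (psi (a * x n + b * y n) - (a * psi (x n) + b * psi (y n))) =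
    (1 / 2 : ℝ) ^ n * psi (a * x n + b * y n) -
      (a * ((1 / 2 : ℝ) ^ n * psi (x n)) + b * ((1 / 2 : ℝ) ^ n * psi (y n)))
  ring

theorem exists_D_eq_Dpsi_iff (x : E1) :
    (∃ m, D m = Dpsi x) ↔ Summable fun n => psi (x n) := by
  constructor
  · rintro ⟨m, hm⟩
    have h1 : (fun n => psi (x n)) = fun n => m n := by
      funext n
      have h2 : D m n = Dpsi x n := by rw [hm]
      rw [D_apply, Dpsi_apply] at h2
      exact (mul_left_cancel₀ (by positivity) h2).symm
    rw [h1]
    exact summable_E1 m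
  · intro h
    refine ⟨mk _ h, ?_⟩
    ext n
    rw [D_apply, mk_apply, Dpsi_apply]

/-- Pettis: Borel linear maps from Banach spaces into separable spaces are continuous. -/
theorem continuous_of_measurable {W X : Type*} [NormedAddCommGroup W] [NormedSpace ℝ W]
    [CompleteSpace W] [MeasurableSpace W] [BorelSpace W] [NormedAddCommGroup X] [NormedSpace ℝ X]
    [TopologicalSpace.SeparableSpace X] [MeasurableSpace X] [BorelSpace X]
    (i : W →ₗ[ℝ] X) (hi : Measurable i) : Continuous i := by
  refine continuous_of_continuousAt_zero i ?_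
  rw [Metric.continuousAt_iff]
  intro ε hε
  set A : Set W := i ⁻¹' Metric.ball 0 (ε / 2) with hA
  have hAm : MeasurableSet A := hi measurableSet_ball
  have htr : ∀ w : W, Tendsto (fun v : W => v - w) (residual W) (residual W) := fun w =>
    tendsto_residual_of_isOpenMap (continuous_sub_right w) (Homeomorph.subRight w).isOpenMap
  -- `A` is not meagre
  have hnm : ¬ IsMeagre A := by
    intro hm
    have hsep : TopologicalSpace.IsSeparable (Set.range i) :=
      (TopologicalSpace.isSeparable_univ_iff.mpr inferInstance).mono (Set.subset_univ _)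
    obtain ⟨s, hs, hsc, hsub⟩ := hsep.exists_countable_dense_subset
    choose! g hg using fun (x : X) (hx : x ∈ s) => hs hx
    have h1 : IsMeagre (⋃ x ∈ s, (fun v : W => v - g x) ⁻¹' A) := by
      refine isMeagre_biUnion hsc fun x _ => ?_
      exact hm.preimage_of_isOpenMap (continuous_sub_right _) (Homeomorph.subRight _).isOpenMap
    have h2 : (Set.univ : Set W) ⊆ ⋃ x ∈ s, (fun v : W => v - g x) ⁻¹' A := by
      intro v _
      obtain ⟨x, hx, hd⟩ := Metric.mem_closure_iff.mp (hsub ⟨v, rfl⟩) (ε / 2) (by positivity)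
      rw [Set.mem_iUnion₂]
      refine ⟨x, hx, ?_⟩
      show i (v - g x) ∈ Metric.ball 0 (ε / 2)
      rw [map_sub, hg x hx, mem_ball_zero_iff, ← dist_eq_norm]
      exact hd
    have h3 : IsMeagre (Set.univ : Set W) := h1.mono h2
    have h4 : Dense ((Set.univ : Set W)ᶜ) := dense_of_mem_residual h3
    rw [Set.compl_univ, dense_iff_closure_eq, closure_empty] at h4
    exact (Set.univ_nonempty (α := W)).ne_empty h4.symm
  obtain ⟨U, hU, hAU⟩ := hAm.residualEq_isOpen
  have hne : U.Nonempty := by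
    by_contra hemp
    rw [Set.not_nonempty_iff_eq_empty] at hemp
    rw [hemp] at hAU
    apply hnm
    show Aᶜ ∈ residual W
    filter_upwards [hAU] with v hv
    intro hvA
    have h1 : A v = (∅ : Set W) v := hv
    have h2 : (∅ : Set W) v := by rw [← h1]; exact hvA
    exact h2
  obtain ⟨u, hu⟩ := hne
  obtain ⟨r, hr, hball⟩ := Metric.isOpen_iff.mp hU u hu
  refine ⟨r, hr, fun w hw => ?_⟩
  rw [dist_zero_right] at hw
  -- find `v` with `v ∈ A` and `v - w ∈ A`
  obtain ⟨v, hv1, hv2⟩ : ∃ v, v ∈ A ∧ v - w ∈ A := by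
    have hO : IsOpen (U ∩ (fun v : W => v - w) ⁻¹' U) :=
      hU.inter (hU.preimage (continuous_sub_right w))
    have huO : u ∈ U ∩ (fun v : W => v - w) ⁻¹' U := by
      refine ⟨hu, hball ?_⟩
      show u - w ∈ Metric.ball u r
      rw [mem_ball_iff_norm, sub_sub_cancel_left, norm_neg]
      exact hw
    have hres : {v : W | (A v = U v) ∧ (A (v - w) = U (v - w))} ∈ residual W :=
      Filter.inter_mem hAU (hAU.comp_tendsto (htr w))
    obtain ⟨v, hv, hv'⟩ := (dense_of_mem_residual hres).inter_open_nonempty _ hO ⟨u, huO⟩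
    refine ⟨v, ?_, ?_⟩
    · show A v
      rw [hv'.1]
      exact hv.1
    · show A (v - w)
      rw [hv'.2]
      exact hv.2
  have h1 : i w = i v - i (v - w) := by rw [← map_sub, sub_sub_cancel]
  have h2 : ‖i v‖ < ε / 2 := by simpa [hA] using hv1
  have h3 : ‖i (v - w)‖ < ε / 2 := by
    have : i (v - w) ∈ Metric.ball (0 : X) (ε / 2) := hv2
    rwa [mem_ball_zero_iff] at this
  rw [map_zero, dist_zero_right, h1]
  exact (norm_sub_le _ _).trans_lt (by linarith)

end Pool.Agent.V1198.XL
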