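import Mathlib

/-!
# Arens products and openness of multiplication
-/

set_option autoImplicit false
set_option linter.unusedSectionVars false

noncomputable section

open Filter Topology

namespace Pool.Agent.V1198.AR

/-- The map `m : E × E → E` is open: for all `x, y` and `ε > 0` there is `δ > 0` with
`B(m(x,y), δ) ⊆ m(B(x,ε) × B(y,ε))`. -/
def IsOpenMul {E : Type} [NormedAddCommGroup E] (m : E → E → E) : Prop :=
  ∀ (x y : E) (ε : ℝ), 0 < ε → ∃ δ : ℝ, 0 < δ ∧ ∀ z, ‖z - m x y‖ < δ →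
    ∃ x' y', ‖x' - x‖ < ε ∧ ‖y' - y‖ < ε ∧ m x' y' = z

/-- The map `m : E × E → E` is weakly open: images of products of balls contain balls. -/
def IsWeaklyOpenMul {E : Type} [NormedAddCommGroup E] (m : E → E → E) : Prop :=
  ∀ (x y : E) (ε : ℝ), 0 < ε → ∃ (c : E) (δ : ℝ), 0 < δ ∧ ∀ z, ‖z - c‖ < δ →
    ∃ x' y', ‖x' - x‖ < ε ∧ ‖y' - y‖ < ε ∧ m x' y' = z

section Arens

variable {A : Type} [NonUnitalNormedRing A] [NormedSpace ℝ A] [IsScalarTower ℝ A A]
  [SMulCommClass ℝ A A]

variable (A) in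
/-- The dual. -/
def Dl : Type := StrongDual ℝ A

instance : NormedAddCommGroup (Dl A) := (inferInstance : NormedAddCommGroup (StrongDual ℝ A))

instance : NormedSpace ℝ (Dl A) := (inferInstance : NormedSpace ℝ (StrongDual ℝ A))

/-- The underlying functional. -/
def fn (f : Dl A) : StrongDual ℝ A := f

/-- Evaluation of functionals. -/
def ev (f : Dl A) (a : A) : ℝ := fn f a

theorem ev_le (f : Dl A) (a : A) : |ev f a| ≤ ‖f‖ * ‖a‖ :=
  ContinuousLinearMap.le_opNorm (fn f) a

/-- `(f · a)(b) = f(ab)`. -/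
def fa (f : Dl A) (a : A) : Dl A :=
  LinearMap.mkContinuous
    { toFun := fun b => ev f (a * b)
      map_add' := fun b c => by rw [mul_add]; exact map_add (fn f) _ _
      map_smul' := fun r b => by rw [mul_smul_comm]; exact map_smul (fn f) _ _ }
    (‖f‖ * ‖a‖) fun b => (ev_le f _).trans (by
      rw [mul_assoc]
      exact mul_le_mul_of_nonneg_left (norm_mul_le a b) (norm_nonneg f))

/-- `(a · f)(b) = f(ba)`. -/
def af (a : A) (f : Dl A) : Dl A :=
  LinearMap.mkContinuous
    { toFun := fun b => ev f (b * a)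
      map_add' := fun b c => by rw [add_mul]; exact map_add (fn f) _ _
      map_smul' := fun r b => by rw [smul_mul_assoc]; exact map_smul (fn f) _ _ }
    (‖f‖ * ‖a‖) fun b => (ev_le f _).trans (by
      rw [mul_assoc, mul_comm ‖a‖]
      exact mul_le_mul_of_nonneg_left (norm_mul_le b a) (norm_nonneg f))

theorem ev_fa (f : Dl A) (a b : A) : ev (fa f a) b = ev f (a * b) := rfl

theorem ev_af (f : Dl A) (a b : A) : ev (af a f) b = ev f (b * a) := rfl

theorem norm_le_of (f : Dl A) {M : ℝ} (hM : 0 ≤ M) (h : ∀ a, |ev f a| ≤ M * ‖a‖) : ‖f‖ ≤ M :=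
  ContinuousLinearMap.opNorm_le_bound (fn f) hM h

theorem norm_fa_le (f : Dl A) (a : A) : ‖fa f a‖ ≤ ‖f‖ * ‖a‖ := by
  refine norm_le_of _ (by positivity) fun b => ?_
  rw [ev_fa, mul_assoc]
  exact (ev_le f _).trans (mul_le_mul_of_nonneg_left (norm_mul_le a b) (norm_nonneg f))

theorem norm_af_le (a : A) (f : Dl A) : ‖af a f‖ ≤ ‖f‖ * ‖a‖ := by
  refine norm_le_of _ (by positivity) fun b => ?_
  rw [ev_af, mul_assoc, mul_comm ‖a‖]
  exact (ev_le f _).trans (mul_le_mul_of_nonneg_left (norm_mul_le b a) (norm_nonneg f))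

theorem dl_ext {f g : Dl A} (h : ∀ a, ev f a = ev g a) : f = g :=
  ContinuousLinearMap.ext (f := (fn f)) (g := (fn g)) h

theorem ev_add (f g : Dl A) (a : A) : ev (f + g) a = ev f a + ev g a := rfl

theorem ev_smul (r : ℝ) (f : Dl A) (a : A) : ev (r • f) a = r * ev f a := rfl

theorem ev_add' (f : Dl A) (a b : A) : ev f (a + b) = ev f a + ev f b :=
  map_add (fn f) a b

theorem ev_smul' (f : Dl A) (r : ℝ) (a : A) : ev f (r • a) = r * ev f a :=
  map_smul (fn f) r a

theorem ev_sub' (f : Dl A) (a b : A) : ev f (a - b) = ev f a - ev f b :=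
  map_sub (fn f) a b

variable (A) in
/-- The bidual. -/
def Bd : Type := StrongDual ℝ (Dl A)

instance : NormedAddCommGroup (Bd A) := (inferInstance : NormedAddCommGroup (StrongDual ℝ (Dl A)))

instance : NormedSpace ℝ (Bd A) := (inferInstance : NormedSpace ℝ (StrongDual ℝ (Dl A)))

/-- The underlying functional. -/
def Fn (F : Bd A) : StrongDual ℝ (Dl A) := F

/-- Evaluation of elements of the bidual. -/
def Ev (F : Bd A) (f : Dl A) : ℝ := Fn F f

theorem Ev_le (F : Bd A) (f : Dl A) : |Ev F f| ≤ ‖F‖ * ‖f‖ :=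
  ContinuousLinearMap.le_opNorm (Fn F) f

theorem Ev_add (F : Bd A) (f g : Dl A) : Ev F (f + g) = Ev F f + Ev F g :=
  map_add (Fn F) f g

theorem Ev_smul (F : Bd A) (r : ℝ) (f : Dl A) : Ev F (r • f) = r * Ev F f :=
  map_smul (Fn F) r f

theorem Ev_add' (F G : Bd A) (f : Dl A) : Ev (F + G) f = Ev F f + Ev G f := rfl

theorem Ev_sub' (F G : Bd A) (f : Dl A) : Ev (F - G) f = Ev F f - Ev G f := rfl

theorem Ev_smul' (r : ℝ) (F : Bd A) (f : Dl A) : Ev (r • F) f = r * Ev F f := rfl

theorem bd_ext {F G : Bd A} (h : ∀ f, Ev F f = Ev G f) : F = G :=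
  ContinuousLinearMap.ext (f := (Fn F)) (g := (Fn G)) h

theorem Norm_le_of (F : Bd A) {M : ℝ} (hM : 0 ≤ M) (h : ∀ f, |Ev F f| ≤ M * ‖f‖) : ‖F‖ ≤ M :=
  ContinuousLinearMap.opNorm_le_bound (Fn F) hM h

/-- `(G · f)(a) = G(f · a)`. -/
def Gf (G : Bd A) (f : Dl A) : Dl A :=
  LinearMap.mkContinuous
    { toFun := fun a => Ev G (fa f a)
      map_add' := fun a b => by
        rw [← Ev_add]
        congr 1
        exact dl_ext fun c => by rw [ev_add, ev_fa, ev_fa, ev_fa, add_mul, ev_add']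
      map_smul' := fun r a => by
        rw [RingHom.id_apply, smul_eq_mul, ← Ev_smul]
        congr 1
        exact dl_ext fun c => by rw [ev_smul, ev_fa, ev_fa, smul_mul_assoc, ev_smul'] }
    (‖G‖ * ‖f‖) fun a => (Ev_le G _).trans (by
      rw [mul_assoc]
      exact mul_le_mul_of_nonneg_left (norm_fa_le f a) (norm_nonneg G))

/-- `(f · F)(a) = F(a · f)`. -/
def fF (f : Dl A) (F : Bd A) : Dl A :=
  LinearMap.mkContinuous
    { toFun := fun a => Ev F (af a f)
      map_add' := fun a b => by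
        rw [← Ev_add]
        congr 1
        exact dl_ext fun c => by rw [ev_add, ev_af, ev_af, ev_af, mul_add, ev_add']
      map_smul' := fun r a => by
        rw [RingHom.id_apply, smul_eq_mul, ← Ev_smul]
        congr 1
        exact dl_ext fun c => by rw [ev_smul, ev_af, ev_af, mul_smul_comm, ev_smul'] }
    (‖F‖ * ‖f‖) fun a => (Ev_le F _).trans (by
      rw [mul_assoc]
      exact mul_le_mul_of_nonneg_left (norm_af_le a f) (norm_nonneg F))

theorem ev_Gf (G : Bd A) (f : Dl A) (a : A) : ev (Gf G f) a = Ev G (fa f a) := rfl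

theorem ev_fF (f : Dl A) (F : Bd A) (a : A) : ev (fF f F) a = Ev F (af a f) := rfl

theorem norm_Gf_le (G : Bd A) (f : Dl A) : ‖Gf G f‖ ≤ ‖G‖ * ‖f‖ :=
  norm_le_of _ (by positivity) fun a => by
    rw [ev_Gf, mul_assoc]
    exact (Ev_le G _).trans (mul_le_mul_of_nonneg_left (norm_fa_le f a) (norm_nonneg G))

theorem norm_fF_le (f : Dl A) (F : Bd A) : ‖fF f F‖ ≤ ‖F‖ * ‖f‖ :=
  norm_le_of _ (by positivity) fun a => by
    rw [ev_fF, mul_assoc]
    exact (Ev_le F _).trans (mul_le_mul_of_nonneg_left (norm_af_le a f) (norm_nonneg F))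

/-- The first Arens product `(F □ G)(f) = F(G · f)`. -/
def arens1 (F G : Bd A) : Bd A :=
  LinearMap.mkContinuous
    { toFun := fun f => Ev F (Gf G f)
      map_add' := fun f g => by
        rw [← Ev_add]
        congr 1
        refine dl_ext fun c => ?_
        rw [ev_add, ev_Gf, ev_Gf, ev_Gf, ← Ev_add]
        congr 1
      map_smul' := fun r f => by
        rw [RingHom.id_apply, smul_eq_mul, ← Ev_smul]
        congr 1
        refine dl_ext fun c => ?_
        rw [ev_smul, ev_Gf, ev_Gf, ← Ev_smul]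
        congr 1 }
    (‖F‖ * ‖G‖) fun f => (Ev_le F _).trans (by
      rw [mul_assoc]
      exact mul_le_mul_of_nonneg_left (norm_Gf_le G f) (norm_nonneg F))

/-- The second Arens product `(F ◇ G)(f) = G(f · F)`. -/
def arens2 (F G : Bd A) : Bd A :=
  LinearMap.mkContinuous
    { toFun := fun f => Ev G (fF f F)
      map_add' := fun f g => by
        rw [← Ev_add]
        congr 1
        refine dl_ext fun c => ?_
        rw [ev_add, ev_fF, ev_fF, ev_fF, ← Ev_add]
        congr 1
      map_smul' := fun r f => by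
        rw [RingHom.id_apply, smul_eq_mul, ← Ev_smul]
        congr 1
        refine dl_ext fun c => ?_
        rw [ev_smul, ev_fF, ev_fF, ← Ev_smul]
        congr 1 }
    (‖F‖ * ‖G‖) fun f => (Ev_le G _).trans (by
      rw [mul_comm ‖F‖, mul_assoc]
      exact mul_le_mul_of_nonneg_left (norm_fF_le f F) (norm_nonneg G))

theorem Ev_arens1 (F G : Bd A) (f : Dl A) : Ev (arens1 F G) f = Ev F (Gf G f) := rfl

theorem Ev_arens2 (F G : Bd A) (f : Dl A) : Ev (arens2 F G) f = Ev G (fF f F) := rfl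

/-- The canonical embedding. -/
def emb (a : A) : Bd A :=
  LinearMap.mkContinuous
    { toFun := fun f => ev f a
      map_add' := fun _ _ => rfl
      map_smul' := fun _ _ => rfl } ‖a‖ fun f => by
      rw [mul_comm]
      exact ev_le f a

theorem Ev_emb (a : A) (f : Dl A) : Ev (emb a) f = ev f a := rfl

theorem norm_emb_le (a : A) : ‖emb a‖ ≤ ‖a‖ :=
  Norm_le_of _ (norm_nonneg a) fun f => by
    rw [Ev_emb, mul_comm]
    exact ev_le f a

/-- Bounded sequences have weak* cluster points in the bidual. -/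
theorem exists_cluster (U : Ultrafilter ℕ) (a : ℕ → A) {M : ℝ} (ha : ∀ n, ‖a n‖ ≤ M) :
    ∃ F : Bd A, ‖F‖ ≤ M ∧ ∀ f, Tendsto (fun n => ev f (a n)) (U : Filter ℕ) (𝓝 (Ev F f)) := by
  have hcpt := WeakDual.isCompact_closedBall (𝕜 := ℝ) (0 : StrongDual ℝ (Dl A)) M
  obtain ⟨z, hz, hlim⟩ := hcpt.ultrafilter_le_nhds
    (U.map fun n => StrongDual.toWeakDual (Fn (emb (a n)))) (by
      rw [Filter.le_principal_iff]
      refine Filter.mem_map.mpr (Filter.Eventually.of_forall fun n => ?_)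
      refine (mem_closedBall_zero_iff (E := StrongDual ℝ (Dl A))).mpr ?_
      exact (norm_emb_le (a n)).trans (ha n))
  have hlim' : Tendsto (fun n => StrongDual.toWeakDual (Fn (emb (a n))))
    (U : Filter ℕ) (𝓝 z) := hlim
  have hz' : ‖(WeakDual.toStrongDual z : StrongDual ℝ (Dl A))‖ ≤ M :=
    (mem_closedBall_zero_iff (E := StrongDual ℝ (Dl A))).mp hz
  exact ⟨WeakDual.toStrongDual z, hz', fun f => ((WeakDual.eval_continuous f).tendsto _).comp hlim'⟩

end Arens

end Pool.Agent.V1198.AR
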