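import Mathlib

/-!
# Banach lattices: bundled objects, quotient maps, function spaces, lifting of disjoint sequences
-/

set_option autoImplicit false

open Filter Topology

namespace Pool.Agent.V1198.BL

/-- A real Banach lattice. -/
structure BLat where
  /-- The underlying space. -/
  carrier : Type
  [grp : NormedAddCommGroup carrier]
  [lat : Lattice carrier]
  [ord : IsOrderedAddMonoid carrier]
  [solid : HasSolidNorm carrier]
  [mod : NormedSpace ℝ carrier]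
  [omod : IsOrderedModule ℝ carrier]
  [complete : CompleteSpace carrier]

attribute [instance] BLat.grp BLat.lat BLat.ord BLat.solid BLat.mod BLat.omod BLat.complete

instance : CoeSort BLat Type := ⟨BLat.carrier⟩

/-- Lattice homomorphisms. -/
def IsLatHom {A B : BLat} (f : A →L[ℝ] B) : Prop := ∀ x, f |x| = |f x|

/-- `q : B → C` is a quotient map of Banach lattices: a surjective lattice homomorphism whose target
has the quotient norm; up to isometric lattice isomorphism these are the maps `B → B/I` for closed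
ideals `I` of `B`, where `I` is the kernel of `q`. -/
def IsQuot {B C : BLat} (q : B →L[ℝ] C) : Prop :=
  IsLatHom q ∧ Function.Surjective q ∧ ∀ y, ‖y‖ = sInf {r : ℝ | ∃ x, q x = y ∧ r = ‖x‖}

/-- The Banach lattice `P` is projective (`1⁺`-projective). -/
def Projective (P : BLat) : Prop :=
  ∀ (X Y : BLat) (q : X →L[ℝ] Y), IsQuot q → ∀ T : P →L[ℝ] Y, IsLatHom T → ∀ ε : ℝ, 0 < ε →
    ∃ S : P →L[ℝ] X, IsLatHom S ∧ q.comp S = T ∧ ‖S‖ ≤ (1 + ε) * ‖T‖

/-- The Banach lattice `A` is semiprojective. Here `C n` is `B/I_n` and `C'` is `B/I`. -/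
def Semiprojective (A : BLat) : Prop :=
  ∀ (B : BLat) (C : ℕ → BLat) (C' : BLat) (q : ∀ n, B →L[ℝ] C n) (q' : B →L[ℝ] C')
    (p : ∀ n, C n →L[ℝ] C'), TopologicalSpace.SeparableSpace B → (∀ n, IsQuot (q n)) → IsQuot q' →
    (∀ n, (p n).comp (q n) = q') → (∀ n x, q n x = 0 → q (n + 1) x = 0) →
    {x | q' x = 0} = closure (⋃ n, {x | q n x = 0}) →
    ∀ φ : A →L[ℝ] C', IsLatHom φ → ‖φ‖ ≤ 1 → ∃ n, ∀ ε : ℝ, 0 < ε →
      ∃ ψ : A →L[ℝ] C n, IsLatHom ψ ∧ (p n).comp ψ = φ ∧ ‖ψ‖ ≤ 1 + ε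

/-! ### Elementary facts -/

section elem

variable {A B C : BLat}

theorem abs_smul_nonneg {c : ℝ} (hc : 0 ≤ c) (y : B) : |c • y| = c • |y| := by
  rcases hc.eq_or_lt with rfl | hc
  · simp
  · have hle : ∀ (d : ℝ), 0 < d → ∀ z : B, |d • z| ≤ d • |z| := fun d hd z =>
      sup_le (smul_le_smul_of_nonneg_left (le_abs_self z) hd.le) (by
        rw [← smul_neg]; exact smul_le_smul_of_nonneg_left (neg_le_abs z) hd.le)
    refine le_antisymm (hle c hc y) ?_
    have h1 := hle c⁻¹ (inv_pos.mpr hc) (c • y)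
    rw [smul_smul, inv_mul_cancel₀ hc.ne', one_smul] at h1
    have h2 := smul_le_smul_of_nonneg_left h1 hc.le
    rwa [smul_smul, mul_inv_cancel₀ hc.ne', one_smul] at h2

theorem abs_smul' (c : ℝ) (y : B) : |c • y| = |c| • |y| := by
  rcases le_total 0 c with hc | hc
  · rw [abs_smul_nonneg hc, abs_of_nonneg hc]
  · have h1 : c • y = -((-c) • y) := by rw [neg_smul, neg_neg]
    rw [h1, abs_neg, abs_smul_nonneg (neg_nonneg.mpr hc), abs_of_nonpos hc]

theorem norm_mono {x y : B} (h : |x| ≤ |y|) : ‖x‖ ≤ ‖y‖ := norm_le_norm_of_abs_le_abs h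

theorem norm_mono' {x y : B} (hx : 0 ≤ x) (h : x ≤ y) : ‖x‖ ≤ ‖y‖ :=
  norm_mono (by rwa [abs_of_nonneg hx, abs_of_nonneg (hx.trans h)])

theorem IsLatHom.smul {f : A →L[ℝ] B} (hf : IsLatHom f) {c : ℝ} (hc : 0 ≤ c) :
    IsLatHom (c • f) := by
  intro x
  have e1 : (c • f) |x| = c • f |x| := rfl
  have e2 : (c • f) x = c • f x := rfl
  rw [e1, e2, hf x, abs_smul_nonneg hc]

theorem IsLatHom.comp {g : B →L[ℝ] C} {f : A →L[ℝ] B} (hg : IsLatHom g)
    (hf : IsLatHom f) : IsLatHom (g.comp f) := fun x => by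
  rw [ContinuousLinearMap.comp_apply, ContinuousLinearMap.comp_apply, hf, hg]

theorem IsLatHom.nonneg {f : A →L[ℝ] B} (hf : IsLatHom f) {x : A} (hx : 0 ≤ x) : 0 ≤ f x := by
  rw [← abs_of_nonneg hx, hf]
  exact abs_nonneg _

theorem IsLatHom.mono {f : A →L[ℝ] B} (hf : IsLatHom f) {x y : A} (h : x ≤ y) : f x ≤ f y := by
  have := hf.nonneg (sub_nonneg.mpr h)
  rw [map_sub] at this
  exact sub_nonneg.mp this

theorem sup_eq_half (x y : A) : x ⊔ y = (1 / 2 : ℝ) • (x + y + |x - y|) := by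
  have h := two_nsmul_sup_eq_add_add_abs_sub x y
  have h2 : (2 : ℝ) • (x ⊔ y) = x + y + |x - y| := by
    rw [two_smul, ← two_nsmul, h, abs_sub_comm]
  rw [← h2, smul_smul]; norm_num

theorem inf_eq_half (x y : A) : x ⊓ y = (1 / 2 : ℝ) • (x + y - |x - y|) := by
  have h1 : x ⊓ y = x + y - x ⊔ y := by
    rw [eq_sub_iff_add_eq]; exact inf_add_sup x y
  rw [h1, sup_eq_half]
  module

theorem IsLatHom.sup {f : A →L[ℝ] B} (hf : IsLatHom f) (x y : A) : f (x ⊔ y) = f x ⊔ f y := by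
  rw [sup_eq_half, sup_eq_half, map_smul, map_add, map_add, hf, map_sub]

theorem IsLatHom.inf {f : A →L[ℝ] B} (hf : IsLatHom f) (x y : A) : f (x ⊓ y) = f x ⊓ f y := by
  rw [inf_eq_half, inf_eq_half, map_smul, map_sub, map_add, hf, map_sub]

theorem IsLatHom.posPart {f : A →L[ℝ] B} (hf : IsLatHom f) (x : A) : f x⁺ = (f x)⁺ := by
  rw [posPart_def, posPart_def, hf.sup, map_zero]

theorem IsQuot.norm_apply_le {q : B →L[ℝ] C} (hq : IsQuot q) (x : B) : ‖q x‖ ≤ ‖x‖ := by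
  rw [hq.2.2 (q x)]
  exact csInf_le ⟨0, by rintro _ ⟨z, -, rfl⟩; exact norm_nonneg z⟩ ⟨x, rfl, rfl⟩

theorem IsQuot.norm_le {q : B →L[ℝ] C} (hq : IsQuot q) : ‖q‖ ≤ 1 :=
  ContinuousLinearMap.opNorm_le_bound _ zero_le_one fun x => by
    rw [one_mul]; exact hq.norm_apply_le x

/-- Lifts with control of the norm. -/
theorem IsQuot.exists_lift {q : B →L[ℝ] C} (hq : IsQuot q) (y : C) {η : ℝ} (hη : 0 < η) :
    ∃ x, q x = y ∧ ‖x‖ < ‖y‖ + η := by
  obtain ⟨x₀, hx₀⟩ := hq.2.1 y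
  obtain ⟨_, ⟨x, hx, rfl⟩, h⟩ := exists_lt_of_csInf_lt (s := {r : ℝ | ∃ x, q x = y ∧ r = ‖x‖})
    ⟨_, x₀, hx₀, rfl⟩ (show sInf {r : ℝ | ∃ x, q x = y ∧ r = ‖x‖} < ‖y‖ + η by
      rw [← hq.2.2]; linarith)
  exact ⟨x, hx, h⟩

/-- Positive lifts with control of the norm. -/
theorem IsQuot.exists_pos_lift {q : B →L[ℝ] C} (hq : IsQuot q) {y : C} (hy : 0 ≤ y) {η : ℝ}
    (hη : 0 < η) : ∃ x, 0 ≤ x ∧ q x = y ∧ ‖x‖ < ‖y‖ + η := by
  obtain ⟨x, hx, h⟩ := hq.exists_lift y hη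
  refine ⟨|x|, abs_nonneg x, by rw [hq.1, hx, abs_of_nonneg hy], ?_⟩
  rwa [norm_abs_eq_norm]

end elem

/-! ### Disjoint lifts of disjoint sequences -/

section disjoint

variable {B C : BLat}

theorem smul_inf' {c : ℝ} (hc : 0 ≤ c) (a b : B) : (c • a) ⊓ (c • b) = c • (a ⊓ b) := by
  rw [inf_eq_half, ← smul_add, ← smul_sub, abs_smul_nonneg hc, ← smul_sub, smul_smul,
    mul_comm, ← smul_smul, ← inf_eq_half]

theorem inf_smul_of_disjoint {a b : B} (ha : 0 ≤ a) (hb : 0 ≤ b) (h : a ⊓ b = 0) {k : ℝ}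
    (hk : 0 ≤ k) : a ⊓ (k • b) = 0 := by
  refine le_antisymm ?_ (le_inf ha (smul_nonneg hk hb))
  have h1 : a ⊓ (k • b) ≤ ((1 + k) • a) ⊓ ((1 + k) • b) := by
    refine inf_le_inf ?_ ?_
    · rw [add_smul, one_smul]; exact le_add_of_nonneg_right (smul_nonneg hk ha)
    · rw [add_smul, one_smul]; exact le_add_of_nonneg_left hb
  rw [smul_inf' (by linarith), h, smul_zero] at h1
  exact h1

theorem inf_add_of_disjoint {a b c : B} (ha : 0 ≤ a) (hb : 0 ≤ b) (hc : 0 ≤ c) (h1 : a ⊓ b = 0)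
    (h2 : a ⊓ c = 0) : a ⊓ (b + c) = 0 := by
  refine le_antisymm ?_ (le_inf ha (add_nonneg hb hc))
  set w := a ⊓ (b + c) with hw
  have hwa : w ≤ a := inf_le_left
  have hwbc : w ≤ b + c := inf_le_right
  have h3 : w - c ≤ a ⊓ b := le_inf ((sub_le_self _ hc).trans hwa) (sub_le_iff_le_add.mpr hwbc)
  rw [h1, sub_nonpos] at h3
  rw [← h2]
  exact le_inf hwa h3

theorem posPart_sub_of_disjoint {a b : B} (h : a ⊓ b = 0) :
    (a - b)⁺ = a := by
  have h1 : (a - b)⁺ = a - a ⊓ b := by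
    rw [posPart_def]
    have h2 : a ⊓ b = a + (0 ⊓ (b - a)) := by rw [add_inf]; simp
    rw [h2]
    have h3 : (0 : B) ⊓ (b - a) = -(0 ⊔ (a - b)) := by rw [neg_sup]; simp
    rw [h3, sup_comm]; abel
  rw [h1, h, sub_zero]

/-- `(x - α y)⁺` and `(y - β x)⁺` are disjoint if `α β ≥ 1`. -/
theorem disjoint_cut {x y : B} (hx : 0 ≤ x) {α β : ℝ} (hα : 0 < α)
    (hαβ : 1 ≤ α * β) : (x - α • y)⁺ ⊓ (y - β • x)⁺ = 0 := by
  set w := (x - α • y)⁺ ⊓ (y - β • x)⁺ with hw
  have hw0 : 0 ≤ w := le_inf (posPart_nonneg _) (posPart_nonneg _)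
  -- `w` is disjoint from itself
  have h1 : (x - α • y)⁺ ≤ (α⁻¹ • x - y)⁺ + α • (α⁻¹ • x - y)⁺ := by
    refine sup_le ?_ (add_nonneg (posPart_nonneg _) (smul_nonneg hα.le (posPart_nonneg _)))
    have h2 : x - α • y = α • (α⁻¹ • x - y) := by
      rw [smul_sub, smul_smul, mul_inv_cancel₀ hα.ne', one_smul]
    rw [h2]
    exact le_add_of_nonneg_of_le (posPart_nonneg _)
      (smul_le_smul_of_nonneg_left (le_posPart _) hα.le)
  have h3 : (y - β • x)⁺ ≤ (α⁻¹ • x - y)⁻ := by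
    rw [negPart_def]
    refine sup_le_sup_right ?_ 0
    rw [neg_sub]
    refine sub_le_sub_left ?_ y
    refine smul_le_smul_of_nonneg_right ?_ hx
    rw [inv_le_iff_one_le_mul₀ hα]
    linarith [mul_comm α β]
  have h4 : (α⁻¹ • x - y)⁺ ⊓ (α⁻¹ • x - y)⁻ = 0 := posPart_inf_negPart_eq_zero _
  have h5 : w ≤ ((1 + α) • (α⁻¹ • x - y)⁺) ⊓ ((1 + α) • (α⁻¹ • x - y)⁻) := by
    refine inf_le_inf ?_ ?_
    · refine h1.trans (le_of_eq ?_)
      rw [add_smul, one_smul]
    · refine h3.trans ?_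
      rw [add_smul, one_smul]
      exact le_add_of_nonneg_right (smul_nonneg hα.le (negPart_nonneg _))
  have h6 : ((1 + α) • (α⁻¹ • x - y)⁺) ⊓ ((1 + α) • (α⁻¹ • x - y)⁻) = 0 := by
    rw [smul_inf' (by linarith), h4, smul_zero]
  exact le_antisymm (h5.trans h6.le) hw0

/-- Disjoint sequences of positive elements can be lifted below given positive lifts. -/
theorem exists_disjoint_lifts {q : B →L[ℝ] C} (hq : IsQuot q) (z : ℕ → B) (hz : ∀ j, 0 ≤ z j)
    {M : ℝ} (hM : ∀ j, ‖z j‖ ≤ M) (hdisj : ∀ i j, i ≠ j → q (z i) ⊓ q (z j) = 0) :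
    ∃ x : ℕ → B, (∀ j, 0 ≤ x j) ∧ (∀ j, x j ≤ z j) ∧ (∀ i j, i ≠ j → x i ⊓ x j = 0) ∧
      ∀ j, q (x j) = q (z j) := by
  classical
  set c : ℕ → ℝ := fun i => (1 / 2) ^ i with hc
  have hc0 : ∀ i, 0 < c i := fun i => by positivity
  have hsum : ∀ j, Summable fun i => if i = j then (0 : B) else c i • z i := by
    intro j
    refine Summable.of_norm_bounded (g := fun i => c i * M)
      (summable_geometric_two.mul_right M) fun i => ?_
    have hM0 : 0 ≤ M := (norm_nonneg _).trans (hM 0)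
    split_ifs
    · rw [norm_zero]; exact mul_nonneg (hc0 i).le hM0
    · rw [norm_smul, Real.norm_of_nonneg (hc0 i).le]
      exact mul_le_mul_of_nonneg_left (hM i) (hc0 i).le
  set s : ℕ → B := fun j => ∑' i, if i = j then (0 : B) else c i • z i with hs
  have hterm : ∀ i j, 0 ≤ if i = j then (0 : B) else c i • z i := fun i j => by
    split_ifs
    · exact le_rfl
    · exact smul_nonneg (hc0 i).le (hz i)
  have hs0 : ∀ j, 0 ≤ s j := fun j => tsum_nonneg fun i => hterm i j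
  have hle : ∀ i j, i ≠ j → c i • z i ≤ s j := by
    intro i j hij
    have := (hsum j).le_tsum i fun k _ => hterm k j
    rwa [if_neg hij] at this
  refine ⟨fun j => (z j - (c j)⁻¹ • s j)⁺, fun j => posPart_nonneg _, fun j => ?_,
    fun i j hij => ?_, fun j => ?_⟩
  · refine sup_le ?_ (hz j)
    exact sub_le_self _ (smul_nonneg (inv_nonneg.mpr (hc0 j).le) (hs0 j))
  · have h1 : ∀ i j, i ≠ j → (z j - (c j)⁻¹ • s j)⁺ ≤ (z j - ((c j)⁻¹ * c i) • z i)⁺ := by
      intro i j hij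
      refine sup_le_sup_right (sub_le_sub_left ?_ _) 0
      rw [← smul_smul]
      exact smul_le_smul_of_nonneg_left (hle i j hij) (inv_nonneg.mpr (hc0 j).le)
    refine le_antisymm ?_ (le_inf (posPart_nonneg _) (posPart_nonneg _))
    refine (inf_le_inf (h1 j i hij.symm) (h1 i j hij)).trans ?_
    refine (disjoint_cut (hz i) (mul_pos (inv_pos.mpr (hc0 i)) (hc0 j)) ?_).le
    have h2 := (hc0 i).ne'
    have h3 := (hc0 j).ne'
    have : (c i)⁻¹ * c j * ((c j)⁻¹ * c i) = 1 := by field_simp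
    rw [this]
  · rw [hq.1.posPart, map_sub, map_smul]
    have hqs : q (z j) ⊓ q (s j) = 0 := by
      have h1 : Tendsto (fun F : Finset ℕ => q (z j) ⊓ q (∑ i ∈ F, if i = j then (0 : B)
          else c i • z i)) atTop (𝓝 (q (z j) ⊓ q (s j))) :=
        tendsto_const_nhds.inf_nhds ((q.continuous.tendsto _).comp (hsum j).hasSum)
      have h2 : ∀ F : Finset ℕ, q (z j) ⊓ q (∑ i ∈ F, if i = j then (0 : B)
          else c i • z i) = 0 := by
        intro F
        induction F using Finset.induction_on with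
        | empty => simp [hq.1.nonneg (hz j)]
        | insert a F ha ih =>
          rw [Finset.sum_insert ha, map_add]
          refine inf_add_of_disjoint (hq.1.nonneg (hz j)) (hq.1.nonneg (hterm a j))
            (hq.1.nonneg (Finset.sum_nonneg fun i _ => hterm i j)) ?_ ih
          split_ifs with haj
          · rw [map_zero, inf_eq_right.mpr (hq.1.nonneg (hz j))]
          · rw [map_smul]
            exact inf_smul_of_disjoint (hq.1.nonneg (hz j)) (hq.1.nonneg (hz a))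
              (hdisj j a (Ne.symm haj)) (hc0 a).le
      exact tendsto_nhds_unique h1 (by simp only [h2]; exact tendsto_const_nhds)
    exact posPart_sub_of_disjoint (inf_smul_of_disjoint (hq.1.nonneg (hz j))
      (hq.1.nonneg (hs0 j)) hqs (inv_nonneg.mpr (hc0 j).le))

end disjoint

end Pool.Agent.V1198.BL
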