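import Pool.Agent.V1198.BLSp

/-!
# Homomorphisms from `ℓ_1`-like lattices; `ℝ` and `ℓ_1` are projective
-/

set_option autoImplicit false
set_option linter.unusedVariables false

noncomputable section

open Filter Topology

namespace Pool.Agent.V1198.BL

section absadd

variable {B : BLat}

theorem continuous_abs' : Continuous fun x : B => |x| := continuous_id.sup continuous_neg

theorem abs_add_of_disjoint {u v : B} (h : |u| ⊓ |v| = 0) : |u + v| = |u| + |v| := by
  refine le_antisymm (abs_add_le u v) ?_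
  have h1 := abs_abs_sub_abs_le u (-v)
  rw [abs_neg, sub_neg_eq_add] at h1
  have h2 : |(|u| - |v|)| = |u| + |v| := by
    have h3 := sup_sub_inf_eq_abs_sub |u| |v|
    have h4 := inf_add_sup |u| |v|
    rw [h, zero_add] at h4
    rw [h, sub_zero, h4] at h3
    rw [h3, abs_sub_comm]
  rw [h2] at h1
  exact h1

theorem disjoint_sum {x : ℕ → B} (hx : ∀ j, 0 ≤ x j) (hd : ∀ i j, i ≠ j → x i ⊓ x j = 0)
    {a : ℕ → ℝ} (ha : ∀ j, 0 ≤ a j) (F : Finset ℕ) {k : ℕ} (hk : k ∉ F) {c : ℝ} (hc : 0 ≤ c) :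
    (c • x k) ⊓ (∑ j ∈ F, a j • x j) = 0 := by
  classical
  induction F using Finset.induction_on with
  | empty => simp [smul_nonneg hc (hx k)]
  | insert i F hi ih =>
    rw [Finset.sum_insert hi]
    rw [Finset.mem_insert, not_or] at hk
    refine inf_add_of_disjoint (smul_nonneg hc (hx k)) (smul_nonneg (ha i) (hx i))
      (Finset.sum_nonneg fun j _ => smul_nonneg (ha j) (hx j)) ?_ (ih hk.2)
    have h1 : x k ⊓ (a i • x i) = 0 :=
      inf_smul_of_disjoint (hx k) (hx i) (hd k i hk.1) (ha i)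
    rw [inf_comm] at h1 ⊢
    exact inf_smul_of_disjoint (smul_nonneg (ha i) (hx i)) (hx k) h1 hc

theorem abs_sum_disjoint {x : ℕ → B} (hx : ∀ j, 0 ≤ x j) (hd : ∀ i j, i ≠ j → x i ⊓ x j = 0)
    (a : ℕ → ℝ) (F : Finset ℕ) : |∑ j ∈ F, a j • x j| = ∑ j ∈ F, |a j| • x j := by
  classical
  induction F using Finset.induction_on with
  | empty => simp
  | insert i F hi ih =>
    rw [Finset.sum_insert hi, Finset.sum_insert hi]
    have h1 : |a i • x i| = |a i| • x i := by rw [abs_smul', abs_of_nonneg (hx i)]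
    rw [abs_add_of_disjoint, ih, h1]
    rw [ih, h1]
    exact disjoint_sum hx hd (fun j => abs_nonneg _) F hi (abs_nonneg _)

end absadd

/-- The unit vectors belong to the space and the norm dominates a multiple of the `ℓ_1` norm. -/
structure L1Like (P : Spec ℕ) : Prop where
  single : ∀ j, (Pi.single j 1 : ℕ → ℝ) ∈ P.S
  bound : ∃ C : ℝ, 0 ≤ C ∧ ∀ (x : Sp P) (F : Finset ℕ), ∑ j ∈ F, |x j| ≤ C * ‖x‖

namespace L1Like

variable {P : Spec ℕ} (hP : L1Like P)

include hP

/-- The unit vectors. -/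
def e (j : ℕ) : Sp P := ⟨Pi.single j 1, hP.single j⟩

theorem e_apply (j i : ℕ) : (hP.e j) i = if i = j then 1 else 0 := by
  change (Pi.single j 1 : ℕ → ℝ) i = _
  rw [Pi.single_apply]

theorem e_nonneg (j : ℕ) : 0 ≤ hP.e j := Sp.le_def.mpr fun i => by
  rw [e_apply, Sp.zero_apply]; split_ifs <;> norm_num

theorem summable (x : Sp P) : Summable fun j => |x j| := by
  obtain ⟨C, -, h⟩ := hP.bound
  exact summable_of_sum_le (fun _ => abs_nonneg _) (h x)

theorem norm_le_tsum (x : Sp P) : ‖x‖ ≤ ∑' j, |x j| :=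
  Sp.norm_le (tsum_nonneg fun _ => abs_nonneg _) fun F _ =>
    (hP.summable x).sum_le_tsum F fun _ _ => abs_nonneg _

theorem sum_smul_apply (a : ℕ → ℝ) (F : Finset ℕ) (i : ℕ) :
    (∑ j ∈ F, a j • hP.e j) i = if i ∈ F then a i else 0 := by
  classical
  induction F using Finset.induction_on with
  | empty => simp
  | insert k F hk ih =>
    rw [Finset.sum_insert hk, Sp.add_apply, Sp.smul_apply, ih, e_apply]
    by_cases hik : i = k
    · subst hik
      simp [hk]
    · simp [hik]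

theorem hasSum (x : Sp P) : HasSum (fun j => x j • hP.e j) x := by
  have hs := hP.summable x
  have h1 : Tendsto (fun F : Finset ℕ => ∑' j, |x j| - ∑ j ∈ F, |x j|) atTop (𝓝 0) := by
    have := (tendsto_const_nhds (x := ∑' j, |x j|)).sub hs.hasSum
    simpa using this
  rw [HasSum, tendsto_iff_norm_sub_tendsto_zero]
  refine squeeze_zero (fun _ => norm_nonneg _) (fun F => ?_) h1
  refine (norm_sub_rev _ _).le.trans ?_
  refine Sp.norm_le (sub_nonneg.mpr (hs.sum_le_tsum F fun _ _ => abs_nonneg _)) fun G hG => ?_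
  classical
  have h2 : ∑ j ∈ G, |(x - ∑ j ∈ F, x j • hP.e j) j| = ∑ j ∈ G \ F, |x j| := by
    rw [← Finset.sum_filter_add_sum_filter_not G (fun j => j ∈ F)]
    have h3 : ∑ j ∈ G.filter (fun j => j ∈ F), |(x - ∑ j ∈ F, x j • hP.e j) j| = 0 :=
      Finset.sum_eq_zero fun j hj => by
        rw [Sp.sub_apply, sum_smul_apply, if_pos (Finset.mem_filter.mp hj).2, sub_self, abs_zero]
    rw [h3, zero_add, Finset.sdiff_eq_filter]
    refine Finset.sum_congr rfl fun j hj => ?_
    rw [Sp.sub_apply, sum_smul_apply, if_neg (Finset.mem_filter.mp hj).2, sub_zero]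
  rw [h2, le_sub_iff_add_le, ← Finset.sum_union Finset.sdiff_disjoint]
  exact hs.sum_le_tsum _ fun _ _ => abs_nonneg _

/-- Lifting of homomorphisms along quotient maps. -/
theorem exists_hom {X Y : BLat} {q : X →L[ℝ] Y} (hq : IsQuot q) {T : spLat P →L[ℝ] Y}
    (hT : IsLatHom T) (z : ℕ → X) (hz0 : ∀ j, 0 ≤ z j) (hzq : ∀ j, q (z j) = T (hP.e j))
    {M : ℝ} (hM : ∀ j, ‖z j‖ ≤ M) :
    ∃ (S : spLat P →L[ℝ] X) (x : ℕ → X), IsLatHom S ∧ q.comp S = T ∧ (∀ j, 0 ≤ x j) ∧
      (∀ j, x j ≤ z j) ∧ (∀ i j, i ≠ j → x i ⊓ x j = 0) ∧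
      (∀ a : Sp P, HasSum (fun j => |a j| • x j) |S a|) := by
  have hdisj : ∀ i j, i ≠ j → q (z i) ⊓ q (z j) = 0 := by
    intro i j hij
    rw [hzq, hzq, ← hT.inf]
    have : (hP.e i ⊓ hP.e j : Sp P) = 0 := by
      ext k
      rw [Sp.inf_apply, e_apply, e_apply, Sp.zero_apply]
      by_cases h1 : k = i
      · have h2 : k ≠ j := fun h => hij (h1.symm.trans h)
        simp [h1, hij]
      · by_cases h2 : k = j <;> simp [h1, h2, hij.symm]
    have h2 : T (hP.e i ⊓ hP.e j : Sp P) = 0 := by rw [this]; exact map_zero T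
    exact h2
  obtain ⟨x, hx0, hxz, hxd, hxq⟩ := exists_disjoint_lifts hq z hz0 hM hdisj
  have hxM : ∀ j, ‖x j‖ ≤ M := fun j => (norm_mono' (hx0 j) (hxz j)).trans (hM j)
  have hM0 : 0 ≤ M := (norm_nonneg _).trans (hM 0)
  obtain ⟨C, hC0, hC⟩ := hP.bound
  have hsum : ∀ a : Sp P, Summable fun j => a j • x j := fun a =>
    Summable.of_norm_bounded (g := fun j => |a j| * M) ((hP.summable a).mul_right M) fun j => by
      rw [norm_smul]
      exact mul_le_mul_of_nonneg_left (hxM j) (abs_nonneg _)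
  let S₀ : spLat P →ₗ[ℝ] X :=
    { toFun := fun a => ∑' j, (show Sp P from a) j • x j
      map_add' := fun a b => by
        have h1 : ∀ j, (show Sp P from a + b) j • x j =
            (show Sp P from a) j • x j + (show Sp P from b) j • x j := fun j => add_smul _ _ _
        simp only [h1]
        exact (hsum a).tsum_add (hsum b)
      map_smul' := fun c a => by
        have h1 : ∀ j, (show Sp P from c • a) j • x j = c • ((show Sp P from a) j • x j) :=
          fun j => mul_smul _ _ _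
        simp only [h1, RingHom.id_apply]
        exact (hsum a).tsum_const_smul c }
  have hbound : ∀ a, ‖S₀ a‖ ≤ (C * M) * ‖a‖ := fun a => by
    have h1 : ‖S₀ a‖ ≤ ∑' j, |(show Sp P from a) j| * M :=
      tsum_of_norm_bounded ((hP.summable a).mul_right M).hasSum fun j => by
        rw [norm_smul]
        exact mul_le_mul_of_nonneg_left (hxM j) (abs_nonneg _)
    rw [tsum_mul_right] at h1
    have h2 : ∑' j, |(show Sp P from a) j| ≤ C * ‖a‖ :=
      (hP.summable a).tsum_le_of_sum_le fun F => hC a F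
    calc ‖S₀ a‖ ≤ _ := h1
      _ ≤ C * ‖a‖ * M := mul_le_mul_of_nonneg_right h2 hM0
      _ = _ := by ring
  set S : spLat P →L[ℝ] X := S₀.mkContinuous (C * M) hbound with hS
  have hSa : ∀ a : Sp P, HasSum (fun j => a j • x j) (S a) := fun a => (hsum a).hasSum
  have habs : ∀ a : Sp P, HasSum (fun j => |a j| • x j) |S a| := fun a => by
    have h1 := (continuous_abs'.tendsto (S a)).comp (hSa a)
    refine h1.congr fun F => ?_
    exact abs_sum_disjoint hx0 hxd _ F
  refine ⟨S, x, fun a => ?_, ?_, hx0, hxz, hxd, habs⟩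
  · have h1 := hSa (|(show Sp P from a)|)
    exact h1.unique (habs a)
  · refine ContinuousLinearMap.ext fun a => ?_
    rw [ContinuousLinearMap.comp_apply]
    have h1 := (hSa a).mapL q
    have h2 := (hP.hasSum a).mapL T
    refine h1.unique ?_
    convert h2 using 1
    funext j
    rw [map_smul, map_smul, hxq, hzq]

end L1Like

/-! ### `ℓ_1` and `ℝ` -/

/-- The space `ℓ_1`. -/
def ellOneSpec : Spec ℕ := Spec.full Set.univ fun j => ⟨{j}, trivial, Finset.mem_singleton_self j⟩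

/-- The Banach lattice `ℓ_1`. -/
abbrev ellOne : BLat := spLat ellOneSpec

theorem ellOne_mem {x : ℕ → ℝ} (hx : Summable fun j => |x j|) : x ∈ ellOneSpec.S :=
  ⟨∑' j, |x j|, by rintro _ ⟨F, rfl⟩; exact hx.sum_le_tsum _ fun _ _ => abs_nonneg _⟩

theorem ellOne_l1Like : L1Like ellOneSpec where
  single j := ellOne_mem (summable_of_hasFiniteSupport (Set.Finite.subset (Set.finite_singleton j)
    fun i hi => by
      by_contra h
      apply hi
      simp only [Set.mem_singleton_iff] at h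
      simp [h]))
  bound := ⟨1, zero_le_one, fun x F => by
    rw [one_mul]
    exact Sp.sum_le_norm x (Set.mem_univ F)⟩

theorem ellOne_norm (x : Sp ellOneSpec) : ‖x‖ = ∑' j, |x j| :=
  le_antisymm (ellOne_l1Like.norm_le_tsum x)
    ((ellOne_l1Like.summable x).tsum_le_of_sum_le fun F => Sp.sum_le_norm x (Set.mem_univ F))

theorem ellOne_projective : Projective ellOne := by
  intro X Y q hq T hT ε hε
  by_cases hT0 : T = 0
  · exact ⟨0, fun x => by simp, by rw [hT0]; ext; simp, by rw [hT0]; simp⟩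
  have hTpos : 0 < ‖T‖ := norm_pos_iff.mpr hT0
  have he : ∀ j, ‖ellOne_l1Like.e j‖ ≤ 1 := fun j => by
    rw [ellOne_norm, tsum_eq_single j fun i hi => by
      rw [L1Like.e_apply, if_neg hi, abs_zero]]
    rw [L1Like.e_apply, if_pos rfl, abs_one]
  have hlift : ∀ j, ∃ z, 0 ≤ z ∧ q z = T (ellOne_l1Like.e j) ∧ ‖z‖ ≤ (1 + ε) * ‖T‖ := by
    intro j
    obtain ⟨z, hz0, hz1, hz2⟩ := hq.exists_pos_lift (hT.nonneg (ellOne_l1Like.e_nonneg j))
      (η := ε * ‖T‖) (by positivity)
    refine ⟨z, hz0, hz1, hz2.le.trans ?_⟩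
    have h1 : ‖T (ellOne_l1Like.e j)‖ ≤ ‖T‖ * 1 :=
      (T.le_opNorm _).trans (mul_le_mul_of_nonneg_left (he j) (norm_nonneg _))
    linarith
  choose z hz0 hzq hzn using hlift
  obtain ⟨S, x, hS, hqS, hx0, hxz, -, habs⟩ := ellOne_l1Like.exists_hom hq hT z hz0 hzq hzn
  refine ⟨S, hS, hqS, ContinuousLinearMap.opNorm_le_bound _ (by positivity) fun a => ?_⟩
  have h1 := habs a
  rw [← norm_abs_eq_norm, ← h1.tsum_eq]
  have h2 : ‖∑' j, |(show Sp ellOneSpec from a) j| • x j‖ ≤
      ∑' j, |(show Sp ellOneSpec from a) j| * ((1 + ε) * ‖T‖) :=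
    tsum_of_norm_bounded ((ellOne_l1Like.summable a).mul_right _).hasSum fun j => by
      rw [norm_smul, Real.norm_of_nonneg (abs_nonneg _)]
      exact mul_le_mul_of_nonneg_left ((norm_mono' (hx0 j) (hxz j)).trans (hzn j)) (abs_nonneg _)
  rw [tsum_mul_right, ← ellOne_norm, mul_comm] at h2
  exact h2

theorem real_projective : Projective realLat := by
  intro X Y q hq T hT ε hε
  by_cases hT0 : T = 0
  · exact ⟨0, fun x => by simp, by rw [hT0]; ext; simp, by rw [hT0]; simp⟩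
  have hTpos : 0 < ‖T‖ := norm_pos_iff.mpr hT0
  have h10 : (0 : ℝ) ≤ (1 : ℝ) := zero_le_one
  obtain ⟨z, hz0, hz1, hz2⟩ := hq.exists_pos_lift (y := T (1 : ℝ)) (hT.nonneg h10)
    (η := ε * ‖T‖) (by positivity)
  have hn : ‖z‖ ≤ (1 + ε) * ‖T‖ := by
    have h1 : ‖T (1 : ℝ)‖ ≤ ‖T‖ * ‖(1 : ℝ)‖ := T.le_opNorm _
    rw [norm_one] at h1
    linarith
  refine ⟨(ContinuousLinearMap.id ℝ ℝ).smulRight z, fun t => ?_, ?_, ?_⟩
  · change |(t : ℝ)| • z = |(t : ℝ) • z|
    rw [abs_smul', abs_of_nonneg hz0]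
  · refine ContinuousLinearMap.ext fun t => ?_
    change q ((t : ℝ) • z) = T t
    rw [map_smul, hz1, ← map_smul]
    congr 1
    exact mul_one (t : ℝ)
  · refine ContinuousLinearMap.opNorm_le_bound _ (by positivity) fun t => ?_
    change ‖(t : ℝ) • z‖ ≤ _
    rw [norm_smul, mul_comm]
    exact mul_le_mul_of_nonneg_right hn (norm_nonneg _)

theorem Projective.semiprojective {A : BLat} (hA : Projective A) : Semiprojective A := by
  intro B C C' q q' p _ hq hq' hp _ _ φ hφ hφ1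
  refine ⟨0, fun ε hε => ?_⟩
  obtain ⟨ψ, hψ, hψ2, hψ3⟩ := hA B C' q' hq' φ hφ ε hε
  refine ⟨(q 0).comp ψ, (hq 0).1.comp hψ, ?_, ?_⟩
  · rw [← ContinuousLinearMap.comp_assoc, hp, hψ2]
  · calc ‖(q 0).comp ψ‖ ≤ ‖q 0‖ * ‖ψ‖ := ContinuousLinearMap.opNorm_comp_le _ _
      _ ≤ 1 * ((1 + ε) * 1) := by
          gcongr
          · exact (hq 0).norm_le
          · exact hψ3.trans (by gcongr)
      _ = 1 + ε := by ring

/-- `e` is a topological order unit: every closed ideal containing `e` is everything. -/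
def IsTopOrderUnit {E : BLat} (e : E) : Prop :=
  0 ≤ e ∧ ∀ J : Submodule ℝ E, IsClosed (J : Set E) → (∀ a ∈ J, ∀ b : E, |b| ≤ |a| → b ∈ J) →
    e ∈ J → J = ⊤

theorem real_unit : IsTopOrderUnit (E := realLat) (1 : ℝ) := by
  refine ⟨zero_le_one (α := ℝ), fun J _ _ h1 => ?_⟩
  refine Submodule.eq_top_iff'.mpr fun t => ?_
  have h2 := J.smul_mem (t : ℝ) h1
  have h3 : (t : ℝ) • (show realLat.carrier from (1 : ℝ)) = t := mul_one (t : ℝ)
  rwa [h3] at h2

theorem ellOne_unit : ∃ e : ellOne, IsTopOrderUnit e := by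
  have hmem : (fun j : ℕ => ((1 : ℝ) / 2) ^ j) ∈ ellOneSpec.S := ellOne_mem (by
    have : (fun j : ℕ => |((1 : ℝ) / 2) ^ j|) = fun j => (1 / 2) ^ j := by
      funext j; exact abs_of_nonneg (by positivity)
    rw [this]
    exact summable_geometric_two)
  set u : Sp ellOneSpec := ⟨_, hmem⟩ with hu
  have hu0 : (0 : Sp ellOneSpec) ≤ u := Sp.le_def.mpr fun j => by
    change (0 : ℝ) ≤ (1 / 2) ^ j
    positivity
  refine ⟨u, hu0, fun J hJ hsol h1 => ?_⟩
  have he : ∀ j, (ellOne_l1Like.e j : ellOne) ∈ J := by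
    intro j
    have h2 := J.smul_mem ((2 : ℝ) ^ j) h1
    refine hsol _ h2 _ ?_
    rw [abs_of_nonneg (ellOne_l1Like.e_nonneg j),
      abs_of_nonneg (show (0 : Sp ellOneSpec) ≤ (2 : ℝ) ^ j • u from
        smul_nonneg (by positivity) hu0)]
    refine Sp.le_def.mpr fun i => ?_
    rw [L1Like.e_apply, Sp.smul_apply]
    change (if i = j then (1 : ℝ) else 0) ≤ 2 ^ j * (1 / 2) ^ i
    split_ifs with hij
    · rw [hij, ← mul_pow]; norm_num
    · positivity
  refine Submodule.eq_top_iff'.mpr fun x => ?_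
  have h2 := ellOne_l1Like.hasSum x
  refine hJ.mem_of_tendsto h2 (Eventually.of_forall fun F => ?_)
  exact J.sum_mem fun j _ => J.smul_mem _ (he j)

end Pool.Agent.V1198.BL
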