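import Pool.Agent.V1198.BLEll

/-!
# A quotient without almost isometric liftings of homomorphisms from `ℝ ⊕_∞ ℓ_1`

`X_n` is the space of pairs `(α, β)` of a convergent sequence `α` and a null sequence `β` with norm
`max (sup_k |α_k| + |β_{k+n}|, sup_k |β_k|)`, and `Y` the space of pairs `(c, β)` with the maximum
norm. The map `(α, β) ↦ (lim α, β)` is a quotient map `X_n → Y`, and `X_n` is the quotient of `X_0`
by the ideal of the pairs `(α, 0)` with `α` supported in `[0, n)`.
-/

set_option autoImplicit false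
set_option linter.unusedVariables false

noncomputable section

open Filter Topology

namespace Pool.Agent.V1198.BL

/-- Recognition of quotient maps. -/
theorem isQuot_of {B C : BLat} {q : B →L[ℝ] C} (h1 : IsLatHom q) (h2 : ∀ x, ‖q x‖ ≤ ‖x‖)
    (h3 : ∀ y, ∀ ε : ℝ, 0 < ε → ∃ x, q x = y ∧ ‖x‖ ≤ ‖y‖ + ε) : IsQuot q := by
  refine ⟨h1, fun y => ?_, fun y => le_antisymm ?_ ?_⟩
  · obtain ⟨x, hx, -⟩ := h3 y 1 one_pos
    exact ⟨x, hx⟩
  · obtain ⟨x, hx, -⟩ := h3 y 1 one_pos
    refine le_csInf ⟨‖x‖, x, hx, rfl⟩ ?_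
    rintro _ ⟨z, rfl, rfl⟩
    exact h2 z
  · refine le_of_forall_pos_le_add fun ε hε => ?_
    obtain ⟨x, hx, hx2⟩ := h3 y ε hε
    have h4 : sInf {r : ℝ | ∃ x, q x = y ∧ r = ‖x‖} ≤ ‖x‖ :=
      csInf_le ⟨0, by rintro _ ⟨z, -, rfl⟩; exact norm_nonneg z⟩ ⟨x, hx, rfl⟩
    exact h4.trans hx2

/-- The finite sets for the norm of `X_n`. -/
def WX (n : ℕ) : Set (Finset (ℕ ⊕ ℕ)) :=
  {F | ∃ k, F = {Sum.inl k, Sum.inr (k + n)} ∨ F = {Sum.inr k}}

theorem pair_sum (f : ℕ ⊕ ℕ → ℝ) (k m : ℕ) :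
    ∑ j ∈ ({Sum.inl k, Sum.inr m} : Finset (ℕ ⊕ ℕ)), f j = f (Sum.inl k) + f (Sum.inr m) :=
  Finset.sum_pair (by simp)

/-- The space `X_n`. -/
def specX (n : ℕ) : Spec (ℕ ⊕ ℕ) where
  W := WX n
  S :=
    { carrier := {x | (∃ c, Tendsto (fun k => x (Sum.inl k)) atTop (𝓝 c)) ∧
        Tendsto (fun k => x (Sum.inr k)) atTop (𝓝 0)}
      add_mem' := by
        rintro x y ⟨⟨c, hc⟩, hx⟩ ⟨⟨d, hd⟩, hy⟩
        exact ⟨⟨c + d, hc.add hd⟩, by simpa using hx.add hy⟩
      zero_mem' := ⟨⟨0, tendsto_const_nhds⟩, tendsto_const_nhds⟩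
      smul_mem' := by
        rintro t x ⟨⟨c, hc⟩, hx⟩
        exact ⟨⟨t * c, hc.const_mul t⟩, by simpa using hx.const_mul t⟩ }
  cover := by
    rintro (k | k)
    · exact ⟨{Sum.inl k, Sum.inr (k + n)}, ⟨k, Or.inl rfl⟩, by simp⟩
    · exact ⟨{Sum.inr k}, ⟨k, Or.inr rfl⟩, by simp⟩
  bdd := by
    rintro x ⟨⟨c, hc⟩, hx⟩
    obtain ⟨A, hA⟩ := isBounded_iff_forall_norm_le.mp (Metric.isBounded_range_of_tendsto _ hc)
    obtain ⟨D, hD⟩ := isBounded_iff_forall_norm_le.mp (Metric.isBounded_range_of_tendsto _ hx)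
    have hA' : ∀ k, |x (Sum.inl k)| ≤ A := fun k => hA _ ⟨k, rfl⟩
    have hD' : ∀ k, |x (Sum.inr k)| ≤ D := fun k => hD _ ⟨k, rfl⟩
    refine ⟨A + D, ?_⟩
    rintro _ ⟨⟨F, k, rfl | rfl⟩, rfl⟩
    · simp only
      rw [pair_sum (fun j => |x j|)]
      exact add_le_add (hA' _) (hD' _)
    · simp only [Finset.sum_singleton]
      exact (hD' k).trans (le_add_of_nonneg_left ((abs_nonneg _).trans (hA' 0)))
  abs_mem := by
    rintro x ⟨⟨c, hc⟩, hx⟩
    refine ⟨⟨|c|, hc.abs⟩, ?_⟩
    have := hx.abs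
    rw [abs_zero] at this
    exact this
  closed := by
    intro x _ h
    have hl : ∀ y : ℕ ⊕ ℕ → ℝ, ∀ ε : ℝ, (∀ F ∈ WX n, ∑ j ∈ F, |x j - y j| ≤ ε) →
        (∀ k, |x (Sum.inl k) - y (Sum.inl k)| ≤ ε) ∧ ∀ k, |x (Sum.inr k) - y (Sum.inr k)| ≤ ε := by
      intro y ε hy
      constructor
      · intro k
        have h1 := hy _ ⟨k, Or.inl rfl⟩
        rw [pair_sum (fun j => |x j - y j|)] at h1
        exact (le_add_of_nonneg_right (abs_nonneg _)).trans h1
      · intro k
        have h1 := hy _ ⟨k, Or.inr rfl⟩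
        rwa [Finset.sum_singleton] at h1
    constructor
    · refine cauchySeq_tendsto_of_complete ?_
      rw [Metric.cauchySeq_iff]
      intro ε hε
      obtain ⟨y, ⟨⟨c, hc⟩, -⟩, hy⟩ := h (ε / 4) (by positivity)
      have h1 := (hl y _ hy).1
      obtain ⟨N, hN⟩ := Metric.cauchySeq_iff.mp hc.cauchySeq (ε / 4) (by positivity)
      refine ⟨N, fun m hm k hk => ?_⟩
      have h2 := hN m hm k hk
      have h3 := h1 m
      have h4 := h1 k
      rw [Real.dist_eq] at h2 ⊢
      have h5 : x (Sum.inl m) - x (Sum.inl k) = (x (Sum.inl m) - y (Sum.inl m)) +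
          (y (Sum.inl m) - y (Sum.inl k)) - (x (Sum.inl k) - y (Sum.inl k)) := by ring
      rw [h5]
      refine (abs_sub _ _).trans_lt ?_
      have h6 := abs_add_le (x (Sum.inl m) - y (Sum.inl m)) (y (Sum.inl m) - y (Sum.inl k))
      linarith
    · rw [Metric.tendsto_atTop]
      intro ε hε
      obtain ⟨y, ⟨-, hc⟩, hy⟩ := h (ε / 4) (by positivity)
      have h1 := (hl y _ hy).2
      obtain ⟨N, hN⟩ := Metric.tendsto_atTop.mp hc (ε / 4) (by positivity)
      refine ⟨N, fun m hm => ?_⟩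
      have h2 := hN m hm
      have h3 := h1 m
      rw [Real.dist_eq, sub_zero] at h2 ⊢
      have h5 : x (Sum.inr m) = (x (Sum.inr m) - y (Sum.inr m)) + y (Sum.inr m) := by ring
      rw [h5]
      refine (abs_add_le _ _).trans_lt ?_
      linarith

/-- The space `Y`. -/
def specY : Spec (Option ℕ) where
  W := {F | ∃ j, F = {j}}
  S :=
    { carrier := {x | Tendsto (fun k => x (some k)) atTop (𝓝 0)}
      add_mem' := fun {x y} hx hy => by
        have h : Tendsto (fun k => x (some k) + y (some k)) atTop (𝓝 (0 + 0)) :=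
          Filter.Tendsto.add hx hy
        rw [add_zero] at h
        exact h
      zero_mem' := tendsto_const_nhds
      smul_mem' := fun t x hx => by
        have h : Tendsto (fun k => t * x (some k)) atTop (𝓝 (t * 0)) :=
          Filter.Tendsto.const_mul t hx
        rw [mul_zero] at h
        exact h }
  cover j := ⟨{j}, ⟨j, rfl⟩, Finset.mem_singleton_self j⟩
  bdd := by
    intro x hx
    obtain ⟨D, hD⟩ := isBounded_iff_forall_norm_le.mp (Metric.isBounded_range_of_tendsto _
      (show Tendsto (fun k => x (some k)) atTop (𝓝 0) from hx))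
    refine ⟨|x none| + |D|, ?_⟩
    rintro _ ⟨⟨F, j, rfl⟩, rfl⟩
    simp only [Finset.sum_singleton]
    rcases j with _ | k
    · exact le_add_of_nonneg_right (abs_nonneg _)
    · exact ((hD _ ⟨k, rfl⟩).trans (le_abs_self D)).trans (le_add_of_nonneg_left (abs_nonneg _))
  abs_mem := by
    intro x hx
    have h : Tendsto (fun k => |x (some k)|) atTop (𝓝 |0|) := Filter.Tendsto.abs hx
    rw [abs_zero] at h
    exact h
  closed := by
    intro x _ h
    change Tendsto (fun k => x (some k)) atTop (𝓝 0)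
    rw [Metric.tendsto_atTop]
    intro ε hε
    obtain ⟨y, hc, hy⟩ := h (ε / 4) (by positivity)
    obtain ⟨N, hN⟩ := Metric.tendsto_atTop.mp
      (show Tendsto (fun k => y (some k)) atTop (𝓝 0) from hc) (ε / 4) (by positivity)
    refine ⟨N, fun m hm => ?_⟩
    have h2 := hN m hm
    have h3 := hy {some m} ⟨_, rfl⟩
    rw [Finset.sum_singleton] at h3
    rw [Real.dist_eq, sub_zero] at h2 ⊢
    have h5 : x (some m) = (x (some m) - y (some m)) + y (some m) := by ring
    rw [h5]
    refine (abs_add_le _ _).trans_lt ?_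
    linarith

/-- The Banach lattices `X_n` and `Y`. -/
abbrev latX (n : ℕ) : BLat := spLat (specX n)

/-- The Banach lattice `Y`. -/
abbrev latY : BLat := spLat specY

theorem X_pair_le {n : ℕ} (x : Sp (specX n)) (k : ℕ) :
    |x (Sum.inl k)| + |x (Sum.inr (k + n))| ≤ ‖x‖ := by
  have h := Sp.sum_le_norm x (F := {Sum.inl k, Sum.inr (k + n)}) ⟨k, Or.inl rfl⟩
  rwa [pair_sum (fun j => |x j|)] at h

theorem X_norm_le {n : ℕ} {x : Sp (specX n)} {C : ℝ}
    (h1 : ∀ k, |x (Sum.inl k)| + |x (Sum.inr (k + n))| ≤ C) (h2 : ∀ k, |x (Sum.inr k)| ≤ C) :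
    ‖x‖ ≤ C := by
  refine Sp.norm_le ((abs_nonneg _).trans (h2 0)) ?_
  rintro F ⟨k, rfl | rfl⟩
  · rw [pair_sum (fun j => |x j|)]; exact h1 k
  · rw [Finset.sum_singleton]; exact h2 k

theorem Y_norm_le {x : Sp specY} {C : ℝ} (h : ∀ j, |x j| ≤ C) : ‖x‖ ≤ C := by
  refine Sp.norm_le ((abs_nonneg _).trans (h none)) ?_
  rintro F ⟨j, rfl⟩
  rw [Finset.sum_singleton]; exact h j

/-- The limit of the first component. -/
def lim {n : ℕ} (x : Sp (specX n)) : ℝ := Classical.choose x.2.1

theorem lim_spec {n : ℕ} (x : Sp (specX n)) :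
    Tendsto (fun k => x (Sum.inl k)) atTop (𝓝 (lim x)) := Classical.choose_spec x.2.1

theorem abs_lim_le {n : ℕ} (x : Sp (specX n)) : |lim x| ≤ ‖x‖ :=
  le_of_tendsto' (lim_spec x).abs fun k => Sp.apply_le x _

/-- The map `(α, β) ↦ (lim α, β)` as a function. -/
def pFun {n : ℕ} (x : Sp (specX n)) : Sp specY :=
  ⟨fun j => Option.elim j (lim x) fun k => x (Sum.inr k), x.2.2⟩

theorem pFun_none {n : ℕ} (x : Sp (specX n)) : (pFun x) none = lim x := rfl

theorem pFun_some {n : ℕ} (x : Sp (specX n)) (k : ℕ) : (pFun x) (some k) = x (Sum.inr k) := rfl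

theorem lim_add {n : ℕ} (x y : Sp (specX n)) : lim (x + y) = lim x + lim y :=
  tendsto_nhds_unique (lim_spec (x + y)) ((lim_spec x).add (lim_spec y))

theorem lim_smul {n : ℕ} (c : ℝ) (x : Sp (specX n)) : lim (c • x) = c * lim x :=
  tendsto_nhds_unique (lim_spec (c • x)) ((lim_spec x).const_mul c)

theorem lim_abs {n : ℕ} (x : Sp (specX n)) : lim |x| = |lim x| :=
  tendsto_nhds_unique (lim_spec |x|) (lim_spec x).abs

/-- The map `(α, β) ↦ (lim α, β)`. -/
def pMap (n : ℕ) : latX n →L[ℝ] latY :=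
  LinearMap.mkContinuous
    { toFun := fun x => (pFun (show Sp (specX n) from x) : Sp specY)
      map_add' := fun x y => Sp.ext fun j => by
        rcases j with _ | k
        · exact lim_add _ _
        · rfl
      map_smul' := fun c x => Sp.ext fun j => by
        rcases j with _ | k
        · exact lim_smul _ _
        · rfl } 1 fun x => by
      rw [one_mul]
      refine Y_norm_le fun j => ?_
      rcases j with _ | k
      · exact abs_lim_le _
      · exact Sp.apply_le (P := specX n) x _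

theorem pMap_apply (n : ℕ) (x : Sp (specX n)) : pMap n x = pFun x := rfl

theorem pMap_isQuot (n : ℕ) : IsQuot (pMap n) := by
  refine isQuot_of (fun x => ?_) (fun x => ?_) fun y ε hε => ?_
  · refine Sp.ext (P := specY) fun j => ?_
    rcases j with _ | k
    · exact lim_abs _
    · rfl
  · refine Y_norm_le fun j => ?_
    rcases j with _ | k
    · exact abs_lim_le _
    · exact Sp.apply_le (P := specX n) x _
  · have hy : Tendsto (fun k => (show Sp specY from y) (some k)) atTop (𝓝 0) := y.2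
    obtain ⟨K, hK⟩ := Metric.tendsto_atTop.mp hy ε hε
    have hK' : ∀ k ≥ K, |(show Sp specY from y) (some k)| ≤ ε := fun k hk => by
      have := hK k hk
      rw [Real.dist_eq, sub_zero] at this
      exact this.le
    have hlim : Tendsto (fun k => if k < K then (0 : ℝ) else (show Sp specY from y) none) atTop
        (𝓝 ((show Sp specY from y) none)) := by
      refine tendsto_const_nhds.congr' ?_
      filter_upwards [eventually_ge_atTop K] with k hk
      rw [if_neg (not_lt.mpr hk)]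
    have hmem : (fun j : ℕ ⊕ ℕ => Sum.elim
        (fun k => if k < K then (0 : ℝ) else (show Sp specY from y) none)
        (fun k => (show Sp specY from y) (some k)) j) ∈ (specX n).S := ⟨⟨_, hlim⟩, hy⟩
    refine ⟨⟨_, hmem⟩, ?_, ?_⟩
    · refine Sp.ext (P := specY) fun j => ?_
      rcases j with _ | k
      · exact tendsto_nhds_unique (lim_spec (n := n) ⟨_, hmem⟩) hlim
      · rfl
    · refine X_norm_le (fun k => ?_) fun k => ?_
      · change |if k < K then (0 : ℝ) else (show Sp specY from y) none| +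
          |(show Sp specY from y) (some (k + n))| ≤ _
        split_ifs with hk
        · rw [abs_zero, zero_add]
          exact (Sp.apply_le (P := specY) y _).trans (le_add_of_nonneg_right hε.le)
        · push Not at hk
          exact add_le_add (Sp.apply_le (P := specY) y _) (hK' _ (by omega))
      · exact (Sp.apply_le (P := specY) y _).trans (le_add_of_nonneg_right hε.le)

/-- The homomorphism `ℝ ⊕_∞ ℓ_1 → Y`. -/
def TMap : prodLat realLat ellOne →L[ℝ] latY :=
  LinearMap.mkContinuous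
    { toFun := fun z => (⟨fun j => Option.elim j (z.1 : ℝ) fun k => (show Sp ellOneSpec from z.2) k,
        (ellOne_l1Like.summable z.2).of_abs.tendsto_atTop_zero⟩ : Sp specY)
      map_add' := fun x y => Sp.ext fun j => by rcases j with _ | k <;> rfl
      map_smul' := fun c x => Sp.ext fun j => by rcases j with _ | k <;> rfl } 1 fun z => by
      rw [one_mul]
      refine Y_norm_le fun j => ?_
      rcases j with _ | k
      · exact norm_fst_le z
      · exact (Sp.apply_le (P := ellOneSpec) z.2 k).trans (norm_snd_le z)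

theorem TMap_none (z : prodLat realLat ellOne) :
    (show Sp specY from TMap z) none = (z.1 : ℝ) := rfl

theorem TMap_some (z : prodLat realLat ellOne) (k : ℕ) :
    (show Sp specY from TMap z) (some k) = (show Sp ellOneSpec from z.2) k := rfl

theorem TMap_isLatHom : IsLatHom TMap := fun z => Sp.ext fun j => by
  rcases j with _ | k <;> rfl

theorem norm_TMap_le : ‖TMap‖ ≤ 1 := LinearMap.mkContinuous_norm_le _ zero_le_one _

/-- There is no almost contractive lift. -/
theorem no_lift (n : ℕ) : ¬ ∃ S : prodLat realLat ellOne →L[ℝ] latX n, IsLatHom S ∧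
    (pMap n).comp S = TMap ∧ ‖S‖ ≤ 3 / 2 := by
  rintro ⟨S, hS, hpS, hn⟩
  set x₀ : Sp (specX n) := S ((1 : ℝ), 0) with hx₀
  set x : ℕ → Sp (specX n) := fun j => S ((0 : ℝ), (ellOne_l1Like.e j : Sp ellOneSpec)) with hx
  have hlim : lim x₀ = 1 := by
    have h1 : pMap n (S ((1 : ℝ), 0)) = TMap ((1 : ℝ), 0) := by rw [← hpS]; rfl
    have h2 := congrArg (fun y : Sp specY => y none) h1
    exact h2
  have hβ₀ : ∀ k, x₀ (Sum.inr k) = 0 := by
    intro k
    have h1 : pMap n (S ((1 : ℝ), 0)) = TMap ((1 : ℝ), 0) := by rw [← hpS]; rfl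
    exact congrArg (fun y : Sp specY => y (some k)) h1
  have hβ : ∀ k, (x k) (Sum.inr k) = 1 := by
    intro k
    have h1 : pMap n (S ((0 : ℝ), (ellOne_l1Like.e k : Sp ellOneSpec))) =
        TMap ((0 : ℝ), (ellOne_l1Like.e k : Sp ellOneSpec)) := by rw [← hpS]; rfl
    have h2 : (x k) (Sum.inr k) = (ellOne_l1Like.e k) k :=
      congrArg (fun y : Sp specY => y (some k)) h1
    rw [h2, L1Like.e_apply, if_pos rfl]
  have hx0 : ∀ k, (0 : Sp (specX n)) ≤ x k := fun k =>
    hS.nonneg (x := ((0 : ℝ), (ellOne_l1Like.e k : Sp ellOneSpec)))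
      ⟨le_rfl, ellOne_l1Like.e_nonneg k⟩
  have hnorm : ∀ k, ‖x₀ + x k‖ ≤ 3 / 2 := by
    intro k
    have h1 : x₀ + x k = S ((1 : ℝ), (ellOne_l1Like.e k : Sp ellOneSpec)) := by
      rw [hx₀, hx]
      simp only
      rw [← map_add]
      congr 1
      refine Prod.ext ?_ ?_
      · exact add_zero (1 : ℝ)
      · exact zero_add _
    have h2 : ‖(((1 : ℝ), (ellOne_l1Like.e k : Sp ellOneSpec)) :
        (prodLat realLat ellOne).carrier)‖ ≤ 1 := by
      refine max_le (by rw [norm_one]) ?_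
      change ‖ellOne_l1Like.e k‖ ≤ 1
      rw [ellOne_norm, tsum_eq_single k fun i hi => by
        rw [L1Like.e_apply, if_neg hi, abs_zero]]
      rw [L1Like.e_apply, if_pos rfl, abs_one]
    rw [h1]
    refine (S.le_opNorm _).trans ?_
    calc ‖S‖ * _ ≤ 3 / 2 * 1 := mul_le_mul hn h2 (norm_nonneg _) (by norm_num)
      _ = 3 / 2 := by norm_num
  have hle : ∀ k, x₀ (Sum.inl k) + 1 ≤ 3 / 2 := by
    intro k
    have h1 := X_pair_le (x₀ + x (k + n)) k
    rw [Sp.add_apply, Sp.add_apply, hβ₀, hβ, zero_add, abs_one] at h1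
    have h2 : 0 ≤ (x (k + n)) (Sum.inl k) := Sp.le_def.mp (hx0 (k + n)) _
    have h3 := le_abs_self (x₀ (Sum.inl k) + (x (k + n)) (Sum.inl k))
    have h4 := hnorm (k + n)
    linarith
  have h1 := le_of_tendsto' ((lim_spec x₀).add_const 1) hle
  rw [hlim] at h1
  norm_num at h1

end Pool.Agent.V1198.BL
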