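import Pool.Agent.V1198.BL

/-!
# Banach lattices of functions with norms given by families of finite sets; products
-/

set_option autoImplicit false
set_option linter.unusedVariables false

noncomputable section

open Filter Topology

namespace Pool.Agent.V1198.BL

/-- Data for a Banach lattice of functions on `ι`: the norm is `sup_{F ∈ W} ∑_{j ∈ F} |x j|`. -/
structure Spec (ι : Type) where
  /-- The family of finite sets. -/
  W : Set (Finset ι)
  /-- The space of functions. -/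
  S : Submodule ℝ (ι → ℝ)
  cover : ∀ j, ∃ F ∈ W, j ∈ F
  bdd : ∀ x ∈ S, BddAbove (Set.range fun F : W => ∑ j ∈ F.1, |x j|)
  abs_mem : ∀ x ∈ S, |x| ∈ S
  closed : ∀ x : ι → ℝ, BddAbove (Set.range fun F : W => ∑ j ∈ F.1, |x j|) →
    (∀ ε : ℝ, 0 < ε → ∃ y ∈ S, ∀ F ∈ W, ∑ j ∈ F, |x j - y j| ≤ ε) → x ∈ S

variable {ι : Type}

/-- The functions in the space. -/
def Sp (P : Spec ι) : Type := P.S

namespace Sp

variable {P : Spec ι}

instance : AddCommGroup (Sp P) := inferInstanceAs (AddCommGroup P.S)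

instance : Module ℝ (Sp P) := inferInstanceAs (Module ℝ P.S)

instance : CoeFun (Sp P) fun _ => ι → ℝ := ⟨fun x => x.1⟩

@[ext] theorem ext {x y : Sp P} (h : ∀ j, x j = y j) : x = y := Subtype.ext (funext h)

@[simp] theorem add_apply (x y : Sp P) (j : ι) : (x + y) j = x j + y j := rfl

@[simp] theorem sub_apply (x y : Sp P) (j : ι) : (x - y) j = x j - y j := rfl

@[simp] theorem neg_apply (x : Sp P) (j : ι) : (-x) j = -x j := rfl

@[simp] theorem zero_apply (j : ι) : (0 : Sp P) j = 0 := rfl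

@[simp] theorem smul_apply (c : ℝ) (x : Sp P) (j : ι) : (c • x) j = c * x j := rfl

instance : Norm (Sp P) := ⟨fun x => ⨆ F : P.W, ∑ j ∈ F.1, |x j|⟩

theorem norm_def (x : Sp P) : ‖x‖ = ⨆ F : P.W, ∑ j ∈ F.1, |x j| := rfl

theorem sum_le_norm (x : Sp P) {F : Finset ι} (hF : F ∈ P.W) : ∑ j ∈ F, |x j| ≤ ‖x‖ :=
  le_ciSup (P.bdd x.1 x.2) ⟨F, hF⟩

theorem norm_le {x : Sp P} {C : ℝ} (hC : 0 ≤ C) (h : ∀ F ∈ P.W, ∑ j ∈ F, |x j| ≤ C) : ‖x‖ ≤ C :=
  Real.iSup_le (fun F => h F.1 F.2) hC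

theorem norm_nonneg' (x : Sp P) : 0 ≤ ‖x‖ :=
  Real.iSup_nonneg fun _ => Finset.sum_nonneg fun _ _ => abs_nonneg _

theorem apply_le (x : Sp P) (j : ι) : |x j| ≤ ‖x‖ := by
  obtain ⟨F, hF, hj⟩ := P.cover j
  exact (Finset.single_le_sum (f := fun j => |x j|) (fun _ _ => abs_nonneg _) hj).trans
    (sum_le_norm x hF)

instance : NormedAddCommGroup (Sp P) :=
  AddGroupNorm.toNormedAddCommGroup
    { toFun := fun x => ‖x‖
      map_zero' := le_antisymm (norm_le le_rfl fun F _ => by simp) (norm_nonneg' _)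
      add_le' := fun x y => norm_le (add_nonneg (norm_nonneg' x) (norm_nonneg' y)) fun F hF => by
        calc ∑ j ∈ F, |(x + y) j| ≤ ∑ j ∈ F, (|x j| + |y j|) :=
              Finset.sum_le_sum fun j _ => abs_add_le _ _
          _ = ∑ j ∈ F, |x j| + ∑ j ∈ F, |y j| := Finset.sum_add_distrib
          _ ≤ _ := add_le_add (sum_le_norm x hF) (sum_le_norm y hF)
      neg' := fun x => by
        rw [norm_def, norm_def]
        simp only [neg_apply, abs_neg]
      eq_zero_of_map_eq_zero' := fun x hx => by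
        ext j
        have h1 := apply_le x j
        rw [hx] at h1
        exact abs_eq_zero.mp (le_antisymm h1 (abs_nonneg _)) }

instance : NormedSpace ℝ (Sp P) where
  norm_smul_le c x := norm_le (mul_nonneg (norm_nonneg _) (norm_nonneg' x)) fun F hF => by
    calc ∑ j ∈ F, |(c • x) j| = |c| * ∑ j ∈ F, |x j| := by
          rw [Finset.mul_sum]
          exact Finset.sum_congr rfl fun j _ => by rw [smul_apply, abs_mul]
      _ ≤ |c| * ‖x‖ := mul_le_mul_of_nonneg_left (sum_le_norm x hF) (abs_nonneg _)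

theorem sup_mem (x y : ι → ℝ) (hx : x ∈ P.S) (hy : y ∈ P.S) : x ⊔ y ∈ P.S := by
  have : x ⊔ y = (1 / 2 : ℝ) • (x + y + |x - y|) := by
    ext j
    simp only [Pi.sup_apply, Pi.smul_apply, Pi.add_apply, Pi.abs_apply, Pi.sub_apply, smul_eq_mul]
    rcases le_total (x j) (y j) with h | h
    · rw [sup_eq_right.mpr h, abs_of_nonpos (by linarith)]; ring
    · rw [sup_eq_left.mpr h, abs_of_nonneg (by linarith)]; ring
  rw [this]
  exact P.S.smul_mem _ (P.S.add_mem (P.S.add_mem hx hy) (P.abs_mem _ (P.S.sub_mem hx hy)))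

theorem inf_mem (x y : ι → ℝ) (hx : x ∈ P.S) (hy : y ∈ P.S) : x ⊓ y ∈ P.S := by
  have : x ⊓ y = -((-x) ⊔ (-y)) := by
    rw [neg_sup, neg_neg, neg_neg]
  rw [this]
  exact P.S.neg_mem (sup_mem _ _ (P.S.neg_mem hx) (P.S.neg_mem hy))

instance : Lattice (Sp P) :=
  Subtype.lattice (P := fun x : ι → ℝ => x ∈ P.S) (fun {x y} hx hy => sup_mem x y hx hy)
    (fun {x y} hx hy => inf_mem x y hx hy)

theorem le_def {x y : Sp P} : x ≤ y ↔ ∀ j, x j ≤ y j := Iff.rfl

@[simp] theorem sup_apply (x y : Sp P) (j : ι) : (x ⊔ y) j = max (x j) (y j) := rfl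

@[simp] theorem inf_apply (x y : Sp P) (j : ι) : (x ⊓ y) j = min (x j) (y j) := rfl

@[simp] theorem abs_apply (x : Sp P) (j : ι) : |x| j = |x j| := rfl

instance : IsOrderedAddMonoid (Sp P) where
  add_le_add_left x y h z := le_def.mpr fun j => by
    simp only [add_apply]
    have := le_def.mp h j
    linarith

instance : IsOrderedModule ℝ (Sp P) where
  smul_le_smul_of_nonneg_left c hc x y h := le_def.mpr fun j => by
    simp only [smul_apply]
    exact mul_le_mul_of_nonneg_left (le_def.mp h j) hc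
  smul_le_smul_of_nonneg_right x hx c d h := le_def.mpr fun j => by
    simp only [smul_apply]
    exact mul_le_mul_of_nonneg_right h (le_def.mp hx j)

instance : HasSolidNorm (Sp P) where
  solid x y h := norm_le (norm_nonneg' y) fun F hF =>
    (Finset.sum_le_sum fun j _ => le_def.mp h j).trans (sum_le_norm y hF)

instance : CompleteSpace (Sp P) := by
  refine Metric.complete_of_cauchySeq_tendsto fun u hu => ?_
  rw [Metric.cauchySeq_iff] at hu
  have hpt : ∀ j, ∃ l : ℝ, Tendsto (fun n => u n j) atTop (𝓝 l) := by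
    intro j
    refine cauchySeq_tendsto_of_complete ?_
    rw [Metric.cauchySeq_iff]
    intro ε hε
    obtain ⟨N, hN⟩ := hu ε hε
    refine ⟨N, fun m hm n hn => ?_⟩
    have h1 := apply_le (u m - u n) j
    rw [sub_apply] at h1
    rw [Real.dist_eq]
    refine h1.trans_lt ?_
    rw [← dist_eq_norm]
    exact hN m hm n hn
  choose l hl using hpt
  have hF : ∀ ε : ℝ, 0 < ε → ∃ N, ∀ n ≥ N, ∀ F ∈ P.W, ∑ j ∈ F, |l j - u n j| ≤ ε := by
    intro ε hε
    obtain ⟨N, hN⟩ := hu ε hε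
    refine ⟨N, fun n hn F hF => ?_⟩
    have h1 : Tendsto (fun m => ∑ j ∈ F, |u m j - u n j|) atTop (𝓝 (∑ j ∈ F, |l j - u n j|)) :=
      tendsto_finsetSum _ fun j _ => ((hl j).sub_const _).abs
    refine le_of_tendsto h1 (eventually_atTop.mpr ⟨N, fun m hm => ?_⟩)
    have h2 := sum_le_norm (u m - u n) hF
    simp only [sub_apply] at h2
    refine h2.trans ?_
    rw [← dist_eq_norm]
    exact (hN m hm n hn).le
  have hbdd : BddAbove (Set.range fun F : P.W => ∑ j ∈ F.1, |l j|) := by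
    obtain ⟨N, hN⟩ := hF 1 one_pos
    refine ⟨1 + ‖u N‖, ?_⟩
    rintro _ ⟨F, rfl⟩
    calc ∑ j ∈ F.1, |l j| ≤ ∑ j ∈ F.1, (|l j - u N j| + |u N j|) :=
          Finset.sum_le_sum fun j _ => by
            have := abs_add_le (l j - u N j) (u N j)
            rwa [sub_add_cancel] at this
      _ = ∑ j ∈ F.1, |l j - u N j| + ∑ j ∈ F.1, |u N j| := Finset.sum_add_distrib
      _ ≤ _ := add_le_add (hN N le_rfl F.1 F.2) (sum_le_norm (u N) F.2)
  have hmem : l ∈ P.S := P.closed l hbdd fun ε hε => by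
    obtain ⟨N, hN⟩ := hF ε hε
    exact ⟨(u N).1, (u N).2, fun F hF => hN N le_rfl F hF⟩
  obtain ⟨z, hz⟩ : ∃ z : Sp P, ∀ j, z j = l j := ⟨⟨l, hmem⟩, fun _ => rfl⟩
  refine ⟨z, ?_⟩
  rw [Metric.tendsto_atTop]
  intro ε hε
  obtain ⟨N, hN⟩ := hF (ε / 2) (by positivity)
  refine ⟨N, fun n hn => ?_⟩
  rw [dist_comm, dist_eq_norm]
  refine lt_of_le_of_lt (norm_le (by positivity) fun F hF => ?_) (show ε / 2 < ε by linarith)
  simp only [sub_apply, hz]
  exact hN n hn F hF

end Sp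

/-- The Banach lattice of functions given by `P`. -/
abbrev spLat (P : Spec ι) : BLat := ⟨Sp P⟩

/-- The largest space of functions with the given norm. -/
def Spec.full (W : Set (Finset ι)) (hW : ∀ j, ∃ F ∈ W, j ∈ F) : Spec ι where
  W := W
  S :=
    { carrier := {x | BddAbove (Set.range fun F : W => ∑ j ∈ F.1, |x j|)}
      add_mem' := by
        rintro x y ⟨C, hC⟩ ⟨D, hD⟩
        refine ⟨C + D, ?_⟩
        rintro _ ⟨F, rfl⟩
        calc ∑ j ∈ F.1, |(x + y) j| ≤ ∑ j ∈ F.1, (|x j| + |y j|) :=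
              Finset.sum_le_sum fun j _ => abs_add_le _ _
          _ = ∑ j ∈ F.1, |x j| + ∑ j ∈ F.1, |y j| := Finset.sum_add_distrib
          _ ≤ _ := add_le_add (hC ⟨F, rfl⟩) (hD ⟨F, rfl⟩)
      zero_mem' := ⟨0, by rintro _ ⟨F, rfl⟩; simp⟩
      smul_mem' := by
        rintro c x ⟨C, hC⟩
        refine ⟨|c| * C, ?_⟩
        rintro _ ⟨F, rfl⟩
        calc ∑ j ∈ F.1, |(c • x) j| = |c| * ∑ j ∈ F.1, |x j| := by
              rw [Finset.mul_sum]
              exact Finset.sum_congr rfl fun j _ => by rw [Pi.smul_apply, smul_eq_mul, abs_mul]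
          _ ≤ |c| * C := mul_le_mul_of_nonneg_left (hC ⟨F, rfl⟩) (abs_nonneg _) }
  cover := hW
  bdd := fun x hx => hx
  abs_mem := fun x hx => by
    obtain ⟨C, hC⟩ := hx
    refine ⟨C, ?_⟩
    rintro _ ⟨F, rfl⟩
    simp only [Pi.abs_apply, abs_abs]
    exact hC ⟨F, rfl⟩
  closed := fun x hx _ => hx

/-! ### Products with the maximum norm, and the real line -/

instance (A B : BLat) : HasSolidNorm (A × B) where
  solid x y h := by
    rw [Prod.norm_def, Prod.norm_def]
    exact max_le_max (norm_mono h.1) (norm_mono h.2)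

instance (A B : BLat) : IsOrderedModule ℝ (A × B) where
  smul_le_smul_of_nonneg_left c hc x y h :=
    ⟨smul_le_smul_of_nonneg_left h.1 hc, smul_le_smul_of_nonneg_left h.2 hc⟩
  smul_le_smul_of_nonneg_right x hx c d h :=
    ⟨smul_le_smul_of_nonneg_right h hx.1, smul_le_smul_of_nonneg_right h hx.2⟩

/-- The direct sum of two Banach lattices with the maximum norm. -/
abbrev prodLat (A B : BLat) : BLat := ⟨A × B⟩

/-- The real line. -/
abbrev realLat : BLat := ⟨ℝ⟩

end Pool.Agent.V1198.BL
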