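import Mathlib

/-!
# A metrizability criterion for compact spaces (after Stepanova)
-/

set_option autoImplicit false
set_option linter.unusedSectionVars false
set_option linter.unusedVariables false

noncomputable section

open Filter Topology

namespace Pool.Agent.V1198.CP

section step

variable {K : Type} [TopologicalSpace K] [CompactSpace K] [T2Space K]
  {ψ : K → K → C(K, ℝ)}

/-- Continuous separating functions. -/
structure Sep (ψ : K → K → C(K, ℝ)) : Prop where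
  cont : ∀ x y, x ≠ y → ContinuousAt (fun p : K × K => ψ p.1 p.2) (x, y)
  zero : ∀ x y, x ≠ y → ψ x y x = 0
  one : ∀ x y, x ≠ y → ψ x y y = 1

theorem Sep.cont_left (h : Sep ψ) {x y : K} (hxy : x ≠ y) :
    ContinuousAt (fun x' => ψ x' y) x :=
  ContinuousAt.comp (f := fun x' : K => (x', y)) (h.cont x y hxy)
    (Continuous.prodMk_left y).continuousAt

theorem Sep.cont_right (h : Sep ψ) {x y : K} (hxy : x ≠ y) :
    ContinuousAt (fun y' => ψ x y') y :=
  ContinuousAt.comp (f := fun y' : K => (x, y')) (h.cont x y hxy)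
    (Continuous.prodMk_right x).continuousAt

theorem near {Z : Type} [TopologicalSpace Z] {f : Z → C(K, ℝ)} {z : Z} (h : ContinuousAt f z)
    {ε : ℝ} (hε : 0 < ε) : ∀ᶠ z' in 𝓝 z, ‖f z' - f z‖ < ε := by
  have := Metric.tendsto_nhds.1 h ε hε
  filter_upwards [this] with z' hz'
  rwa [dist_eq_norm] at hz'

theorem ev_le {f g : C(K, ℝ)} {ε : ℝ} (h : ‖f - g‖ ≤ ε) (x : K) : |f x - g x| ≤ ε :=
  ((f - g).norm_coe_le_norm x).trans h

/-- Countable nets for the pseudometrics given by the points. -/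
theorem net (hψ : Sep ψ) (q : K) : ∃ S : Set K, S.Countable ∧
    ∀ y, y ≠ q → ∃ s ∈ S, s ≠ q ∧ ‖ψ y q - ψ s q‖ ≤ 1 / 5 := by
  classical
  obtain ⟨S, hSmax⟩ := zorn_subset {S : Set K | (∀ y ∈ S, y ≠ q) ∧
    ∀ y ∈ S, ∀ y' ∈ S, y ≠ y' → 1 / 5 < ‖ψ y q - ψ y' q‖} (by
      intro c hc hchain
      refine ⟨⋃₀ c, ⟨?_, ?_⟩, fun s hs => Set.subset_sUnion_of_mem hs⟩
      · rintro y ⟨s, hs, hy⟩
        exact (hc hs).1 y hy
      · rintro y ⟨s, hs, hy⟩ y' ⟨s', hs', hy'⟩ hne
        rcases hchain.total hs hs' with h | h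
        · exact (hc hs').2 y (h hy) y' hy' hne
        · exact (hc hs).2 y hy y' (h hy') hne)
  obtain ⟨hS1, hS2⟩ := hSmax.prop
  refine ⟨S, ?_, ?_⟩
  · by_contra hunc
    have hfin : ∀ U ∈ 𝓝 q, {y | y ∈ S ∧ y ∉ U}.Finite := by
      intro U hU
      obtain ⟨V, hVU, hVo, hqV⟩ := mem_nhds_iff.1 hU
      have hcomp : IsCompact Vᶜ := hVo.isClosed_compl.isCompact
      have hne : ∀ y ∈ Vᶜ, y ≠ q := fun y hy h => hy (h ▸ hqV)
      obtain ⟨t, hcov⟩ := hcomp.elim_nhds_subcover'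
        (fun y hy => {y' | ‖ψ y' q - ψ y q‖ < 1 / 10})
        (fun y hy => near (hψ.cont_left (hne y hy)) (by norm_num))
      refine Set.Finite.subset (t.finite_toSet.biUnion fun y _ =>
        (show ({y' | y' ∈ S ∧ ‖ψ y' q - ψ (y : K) q‖ < 1 / 10} : Set K).Finite from ?_)) ?_
      · refine Set.Subsingleton.finite ?_
        rintro a ⟨ha, ha'⟩ b ⟨hb, hb'⟩
        by_contra hab
        have h1 := hS2 a ha b hb hab
        have h2 : ψ a q - ψ b q = (ψ a q - ψ (y : K) q) - (ψ b q - ψ (y : K) q) := by abel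
        rw [h2] at h1
        have h3 := norm_sub_le (ψ a q - ψ (y : K) q) (ψ b q - ψ (y : K) q)
        linarith
      · rintro y ⟨hy, hyU⟩
        have h0 : y ∈ Vᶜ := fun h => hyU (hVU h)
        have h1 := hcov h0
        rw [Set.mem_iUnion₂] at h1
        obtain ⟨z, hz, hyz⟩ := h1
        exact Set.mem_iUnion₂.2 ⟨z, hz, hy, hyz⟩
    have hA : ∀ y ∈ S, {y' | y' ∈ S ∧ ¬ ‖ψ y y' - ψ y q‖ < 1 / 3}.Finite := fun y hy =>
      hfin _ (near (hψ.cont_right (hS1 y hy)) (by norm_num))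
    have hB : ∀ y ∈ S, {y' | y' ∈ S ∧ ¬ ‖ψ y' y - ψ q y‖ < 1 / 3}.Finite := fun y hy =>
      hfin _ (near (hψ.cont_left (hS1 y hy).symm) (by norm_num))
    have hinf : S.Infinite := fun h => hunc h.countable
    set f : ℕ ↪ S := hinf.natEmbedding with hf
    have hcount : (⋃ n, ({y' | y' ∈ S ∧ ¬ ‖ψ (f n : K) y' - ψ (f n : K) q‖ < 1 / 3} ∪
        {(f n : K)})).Countable := Set.countable_iUnion fun n =>
      ((hA (f n) (f n).2).countable).union (Set.countable_singleton _)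
    obtain ⟨y', hy', hy'n⟩ : ∃ y' ∈ S, y' ∉ ⋃ n, ({y' | y' ∈ S ∧
        ¬ ‖ψ (f n : K) y' - ψ (f n : K) q‖ < 1 / 3} ∪ {(f n : K)}) := by
      by_contra hcon
      exact hunc (hcount.mono fun y hy => by_contra fun h => hcon ⟨y, hy, h⟩)
    have hBf := hB y' hy'
    obtain ⟨n, hn⟩ : ∃ n, (f n : K) ∉ {y | y ∈ S ∧ ¬ ‖ψ y y' - ψ q y'‖ < 1 / 3} := by
      by_contra hcon
      have h1 : (Set.range fun n => (f n : K)).Infinite :=
        Set.infinite_range_of_injective (Subtype.val_injective.comp f.injective)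
      exact h1 (hBf.subset (by rintro _ ⟨n, rfl⟩; exact by_contra fun h => hcon ⟨n, h⟩))
    have h1 : ‖ψ (f n : K) y' - ψ q y'‖ < 1 / 3 := by
      by_contra h
      exact hn ⟨(f n).2, h⟩
    have h2 : ‖ψ (f n : K) y' - ψ (f n : K) q‖ < 1 / 3 := by
      by_contra h
      exact hy'n (Set.mem_iUnion.2 ⟨n, Or.inl ⟨hy', h⟩⟩)
    have h3 := ev_le h1.le q
    have h4 := ev_le h2.le q
    rw [hψ.zero q y' (hS1 y' hy').symm] at h3
    rw [hψ.one (f n) q (hS1 _ (f n).2)] at h4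
    rw [abs_le] at h3 h4
    linarith [h3.1, h3.2, h4.1, h4.2]
  · intro y hy
    by_contra hcon
    push Not at hcon
    have hyS : y ∉ S := fun h => by
      have := hcon y h hy
      rw [sub_self, norm_zero] at this
      norm_num at this
    have h1 : insert y S ∈ {S : Set K | (∀ y ∈ S, y ≠ q) ∧
        ∀ y ∈ S, ∀ y' ∈ S, y ≠ y' → 1 / 5 < ‖ψ y q - ψ y' q‖} := by
      refine ⟨?_, ?_⟩
      · rintro z (rfl | hz)
        · exact hy
        · exact hS1 z hz
      · rintro z (rfl | hz) z' (rfl | hz') hne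
        · exact absurd rfl hne
        · exact hcon z' hz' (hS1 z' hz')
        · rw [norm_sub_rev]
          exact hcon z hz (hS1 z hz)
        · exact hS2 z hz z' hz' hne
    exact hyS (hSmax.le_of_ge h1 (Set.subset_insert y S) (Set.mem_insert y S))

/-- Countable sets approximating finitely many functions. -/
theorem approxT (ψ : K → K → C(K, ℝ)) (l : Finset K) : ∃ T : Set K, T.Countable ∧
    ∀ (z : K) (ε : ℝ), 0 < ε → ∃ z' ∈ T, ∀ x ∈ l, ∀ y ∈ l, |ψ x y z - ψ x y z'| < ε := by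
  classical
  set e : K → (l × l → ℝ) := fun z i => ψ i.1 i.2 z with he
  obtain ⟨c, hc1, hc2, hc3⟩ := (TopologicalSpace.IsSeparable.of_separableSpace
    (Set.range e)).exists_countable_dense_subset
  choose g hg using fun (w : c) => hc1 w.2
  haveI : Countable c := hc2.to_subtype
  refine ⟨Set.range g, Set.countable_range g, fun z ε hε => ?_⟩
  obtain ⟨w, hw, hwz⟩ := Metric.mem_closure_iff.1 (hc3 ⟨z, rfl⟩) ε hε
  refine ⟨g ⟨w, hw⟩, ⟨_, rfl⟩, fun x hx y hy => ?_⟩
  have h1 := (dist_pi_lt_iff hε).1 hwz (⟨x, hx⟩, ⟨y, hy⟩)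
  have h2 : e (g ⟨w, hw⟩) = w := hg ⟨w, hw⟩
  rw [← h2, Real.dist_eq] at h1
  exact h1

/-- The metrizability criterion. -/
theorem metrizable (hψ : Sep ψ) : TopologicalSpace.MetrizableSpace K := by
  classical
  rcases isEmpty_or_nonempty K with hK | ⟨⟨x₀⟩⟩
  · infer_instance
  choose S hS1 hS2 using net hψ
  choose T hT1 hT2 using approxT ψ
  let D : ℕ → Set K := fun n => Nat.rec {x₀} (fun n D =>
    (D ∪ ⋃ q ∈ D, S q) ∪ ⋃ l ∈ {l : Finset K | (l : Set K) ⊆ D}, T l) n
  have hD0 : D 0 = {x₀} := rfl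
  have hDs : ∀ n, D (n + 1) = (D n ∪ ⋃ q ∈ D n, S q) ∪
    ⋃ l ∈ {l : Finset K | (l : Set K) ⊆ D n}, T l := fun n => rfl
  have hDc : ∀ n, (D n).Countable := by
    intro n
    induction n with
    | zero => rw [hD0]; exact Set.countable_singleton _
    | succ n ih =>
      rw [hDs]
      refine (ih.union (ih.biUnion fun q _ => hS1 q)).union (Set.Countable.biUnion ?_ fun l _ =>
        hT1 l)
      have h1 := Set.countable_ofPred_finite_subset ih
      have h2 := h1.preimage_of_injOn (f := fun l : Finset K => (l : Set K))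
        (Finset.coe_injective.injOn)
      refine h2.mono fun l hl => ?_
      exact ⟨l.finite_toSet, hl⟩
  have hDm : Monotone D := monotone_nat_of_le_succ fun n => by
    rw [hDs]
    exact (Set.subset_union_left).trans Set.subset_union_left
  set E : Set K := ⋃ n, D n with hE
  have hEc : E.Countable := Set.countable_iUnion hDc
  have hEne : E.Nonempty := ⟨x₀, Set.mem_iUnion.2 ⟨0, rfl⟩⟩
  have hES : ∀ q ∈ E, S q ⊆ E := by
    intro q hq s hs
    obtain ⟨n, hn⟩ := Set.mem_iUnion.1 hq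
    refine Set.mem_iUnion.2 ⟨n + 1, ?_⟩
    rw [hDs]
    exact Or.inl (Or.inr (Set.mem_iUnion₂.2 ⟨q, hn, hs⟩))
  have hET : ∀ l : Finset K, (l : Set K) ⊆ E → T l ⊆ E := by
    intro l hl s hs
    have hex : ∀ x, ∃ n, x ∈ l → x ∈ D n := by
      intro x
      by_cases hx : x ∈ l
      · obtain ⟨n, hn⟩ := Set.mem_iUnion.1 (hl hx)
        exact ⟨n, fun _ => hn⟩
      · exact ⟨0, fun h => absurd h hx⟩
    choose f hf using hex
    refine Set.mem_iUnion.2 ⟨l.sup f + 1, ?_⟩
    rw [hDs]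
    exact Or.inr (Set.mem_iUnion₂.2 ⟨l, fun x hx => hDm (Finset.le_sup (f := f) hx) (hf x hx), hs⟩)
  obtain ⟨d, hd⟩ := hEc.exists_eq_range hEne
  have hdE : ∀ n, d n ∈ E := fun n => by rw [hd]; exact ⟨n, rfl⟩
  -- the key fact
  have key : ∀ p q : K, p ≠ q → q ∈ closure E → (∀ x ∈ E, ∀ y ∈ E, ψ x y p = ψ x y q) →
      False := by
    intro p q hpq hq hΦ
    have h1 : ∀ᶠ q' in 𝓝 q, ‖ψ p q' - ψ p q‖ < 1 / 5 := near (hψ.cont_right hpq) (by norm_num)
    have h2 : ∀ᶠ q' in 𝓝 q, p ≠ q' := by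
      filter_upwards [isOpen_ne.mem_nhds (show q ≠ p from hpq.symm)] with q' hq' h
      exact hq' h.symm
    obtain ⟨q', ⟨h3, h4⟩, hq'⟩ := mem_closure_iff_nhds.1 hq _ (h1.and h2)
    obtain ⟨s, hs1, hs2, hs3⟩ := hS2 q' p h4
    have hsE : s ∈ E := hES q' hq' hs1
    have h5 := hΦ s hsE q' hq'
    have e1 := ev_le h3.le p
    have e2 := ev_le h3.le q
    have e3 := ev_le hs3 p
    have e4 := ev_le hs3 q
    rw [hψ.zero p q hpq] at e1
    rw [hψ.one p q hpq] at e2
    rw [h5] at e3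
    rw [abs_le] at e1 e2 e3 e4
    linarith [e1.1, e1.2, e2.1, e2.2, e3.1, e3.2, e4.1, e4.2]
  have hdense : ∀ p, p ∈ closure E := by
    intro p
    have hex : ∀ n : ℕ, ∃ z ∈ E, ∀ i ≤ n, ∀ j ≤ n,
        |ψ (d i) (d j) p - ψ (d i) (d j) z| < 1 / ((n : ℝ) + 1) := by
      intro n
      obtain ⟨z, hz, h1⟩ := hT2 ((Finset.range (n + 1)).image d) p (1 / ((n : ℝ) + 1))
        (by positivity)
      refine ⟨z, hET _ (fun x hx => ?_) hz, fun i hi j hj => h1 _ ?_ _ ?_⟩
      · obtain ⟨i, -, rfl⟩ := Finset.mem_image.1 (Finset.mem_coe.1 hx)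
        exact hdE i
      · exact Finset.mem_image_of_mem _ (Finset.mem_range.2 (by omega))
      · exact Finset.mem_image_of_mem _ (Finset.mem_range.2 (by omega))
    choose z hzE hz using hex
    obtain ⟨q, -, hq⟩ := isCompact_univ.ultrafilter_le_nhds ((hyperfilter ℕ).map z) (by simp)
    have hq' : Tendsto z (hyperfilter ℕ) (𝓝 q) := hq
    have hqE : q ∈ closure E := mem_closure_of_tendsto hq' (Filter.univ_mem' hzE)
    by_contra hp
    have hpq : p ≠ q := fun h => hp (h ▸ hqE)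
    refine key p q hpq hqE fun x hx y hy => ?_
    rw [hd] at hx hy
    obtain ⟨i, rfl⟩ := hx
    obtain ⟨j, rfl⟩ := hy
    have h1 : Tendsto (fun n => ψ (d i) (d j) (z n)) (hyperfilter ℕ) (𝓝 (ψ (d i) (d j) q)) :=
      ((ψ (d i) (d j)).continuous.tendsto q).comp hq'
    have h2 : Tendsto (fun n => ψ (d i) (d j) (z n)) atTop (𝓝 (ψ (d i) (d j) p)) := by
      rw [tendsto_iff_norm_sub_tendsto_zero]
      refine squeeze_zero' (Eventually.of_forall fun n => norm_nonneg _) ?_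
        (tendsto_one_div_add_atTop_nhds_zero_nat (𝕜 := ℝ))
      filter_upwards [eventually_ge_atTop (max i j)] with n hn
      rw [norm_sub_rev, Real.norm_eq_abs]
      exact (hz n i (le_of_max_le_left hn) j (le_of_max_le_right hn)).le
    exact tendsto_nhds_unique (h2.mono_left Nat.hyperfilter_le_atTop) h1
  -- the embedding
  set e : K → (ℕ × ℕ → ℝ) := fun z i => ψ (d i.1) (d i.2) z with he
  have hec : Continuous e := continuous_pi fun i => (ψ (d i.1) (d i.2)).continuous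
  have hei : Function.Injective e := by
    intro p q hpq
    by_contra hne
    refine key p q hne (hdense q) fun x hx y hy => ?_
    rw [hd] at hx hy
    obtain ⟨i, rfl⟩ := hx
    obtain ⟨j, rfl⟩ := hy
    exact congrFun hpq (i, j)
  exact (hec.isClosedEmbedding hei).isEmbedding.metrizableSpace

end step

end Pool.Agent.V1198.CP
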