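import Pool.Agent.V1198.CP1

/-!
# Compensation functions on the unit ball give continuous separating functions
-/

set_option autoImplicit false
set_option linter.unusedSectionVars false
set_option linter.unusedVariables false

noncomputable section

open Filter Topology

namespace Pool.Agent.V1198.CP

section defs

variable {K : Type} [TopologicalSpace K] [CompactSpace K]

/-- The positive part of a functional on `C(K)`, on nonnegative functions. -/
def posP (μ : WeakDual ℝ C(K, ℝ)) (f : C(K, ℝ)) : ℝ :=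
  sSup {r | ∃ g : C(K, ℝ), 0 ≤ g ∧ g ≤ f ∧ r = μ g}

/-- The closed unit ball. -/
def BM (K : Type) [TopologicalSpace K] [CompactSpace K] : Set (WeakDual ℝ C(K, ℝ)) :=
  {μ | ∀ f, |μ f| ≤ ‖f‖}

end defs

section main

variable {K : Type} [TopologicalSpace K] [CompactSpace K] [T2Space K]

theorem exists_s {x y : K} (hxy : x ≠ y) (ν : WeakDual ℝ C(K, ℝ)) (h0 : ∀ f, 0 ≤ f → 0 ≤ ν f)
    (hle : ∀ f, 0 ≤ f → ν f ≤ (f x + f y) / 3) (h1 : ν 1 = 1 / 3) :
    ∃ s : ℝ, ∀ f, 3 * ν f = s * f x + (1 - s) * f y := by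
  obtain ⟨a, ha1, ha2, ha3⟩ := exists_continuous_zero_one_of_isClosed
    (isClosed_singleton (x := y)) (isClosed_singleton (x := x))
    (Set.disjoint_singleton.2 hxy.symm)
  have hay : a y = 0 := ha1 rfl
  have hax : a x = 1 := ha2 rfl
  refine ⟨3 * ν a, fun f => ?_⟩
  set g : C(K, ℝ) := f - f x • a - f y • (1 - a) with hg
  have hgx : g x = 0 := by
    change f x - f x * a x - f y * (1 - a x) = 0
    rw [hax]; ring
  have hgy : g y = 0 := by
    change f y - f x * a y - f y * (1 - a y) = 0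
    rw [hay]; ring
  have h2 : ν |g| ≤ 0 := by
    refine (hle |g| (abs_nonneg g)).trans ?_
    change (|g x| + |g y|) / 3 ≤ 0
    rw [hgx, hgy, abs_zero, add_zero, zero_div]
  have h3 : 0 ≤ ν (|g| - g) := h0 _ (sub_nonneg.2 (le_abs_self g))
  have h4 : 0 ≤ ν (|g| + g) := h0 _ (by
    have := sub_nonneg.2 (neg_le_abs g)
    rwa [sub_neg_eq_add] at this)
  rw [map_sub] at h3
  rw [map_add] at h4
  have h5 : ν g = 0 := by linarith
  have h6 : ν g = ν f - f x * ν a - f y * (ν 1 - ν a) := by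
    rw [hg, map_sub, map_sub, map_smul, map_smul, map_sub]
    rfl
  rw [h6, h1] at h5
  linarith

/-- The measures `(δ_x + δ_y - δ_z)/3`. -/
def NM (x y z : K) : WeakDual ℝ C(K, ℝ) :=
  StrongDual.toWeakDual ((1 / 3 : ℝ) • ((ContinuousMap.evalCLM ℝ x : C(K, ℝ) →L[ℝ] ℝ) +
    ContinuousMap.evalCLM ℝ y - ContinuousMap.evalCLM ℝ z))

theorem NM_apply (x y z : K) (f : C(K, ℝ)) : NM x y z f = 1 / 3 * (f x + f y - f z) := rfl

theorem NM_mem (x y z : K) : NM x y z ∈ BM K := by
  intro f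
  rw [NM_apply]
  have h1 := f.norm_coe_le_norm x
  have h2 := f.norm_coe_le_norm y
  have h3 := f.norm_coe_le_norm z
  rw [Real.norm_eq_abs, abs_le] at h1 h2 h3
  rw [abs_le]
  constructor <;> linarith [h1.1, h1.2, h2.1, h2.2, h3.1, h3.2]

theorem NM_cont : Continuous fun p : K × K × K => NM p.1 p.2.1 p.2.2 := by
  refine WeakDual.continuous_of_continuous_eval fun f => ?_
  change Continuous fun p : K × K × K => 1 / 3 * (f p.1 + f p.2.1 - f p.2.2)
  fun_prop

theorem posP_NM (x y z : K) {f : C(K, ℝ)} (hf : 0 ≤ f) : posP (NM x y z) f ≤ (f x + f y) / 3 := by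
  refine csSup_le ⟨_, 0, le_rfl, hf, rfl⟩ ?_
  rintro _ ⟨g, h0, h1, rfl⟩
  rw [NM_apply]
  have e1 : g x ≤ f x := h1 x
  have e2 : g y ≤ f y := h1 y
  have e3 : 0 ≤ g z := h0 z
  linarith

theorem posP_NM_left (x y : K) {f : C(K, ℝ)} (hf : 0 ≤ f) : posP (NM x y x) f ≤ f y / 3 := by
  refine csSup_le ⟨_, 0, le_rfl, hf, rfl⟩ ?_
  rintro _ ⟨g, h0, h1, rfl⟩
  rw [NM_apply]
  have e2 : g y ≤ f y := h1 y
  linarith

theorem posP_NM_right (x y : K) {f : C(K, ℝ)} (hf : 0 ≤ f) : posP (NM x y y) f ≤ f x / 3 := by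
  refine csSup_le ⟨_, 0, le_rfl, hf, rfl⟩ ?_
  rintro _ ⟨g, h0, h1, rfl⟩
  rw [NM_apply]
  have e2 : g x ≤ f x := h1 x
  linarith

/-- Compensation functions on the unit ball give separating functions. -/
theorem exists_sep (ξ : BM K → WeakDual ℝ C(K, ℝ)) (hc : Continuous ξ)
    (hξ : ∀ μ : BM K, 0 < μ.1 1 → (∀ f, 0 ≤ f → 0 ≤ ξ μ f) ∧
      (∀ f, 0 ≤ f → ξ μ f ≤ posP μ.1 f) ∧ ξ μ 1 = μ.1 1) :
    ∃ ψ : K → K → C(K, ℝ), Sep ψ := by
  classical
  set ν : K → K → K → WeakDual ℝ C(K, ℝ) := fun x y z => ξ ⟨NM x y z, NM_mem x y z⟩ with hν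
  have hN1 : ∀ x y z : K, NM x y z 1 = 1 / 3 := fun x y z => by
    rw [NM_apply]
    change (1 / 3 : ℝ) * (1 + 1 - 1) = 1 / 3
    norm_num
  have hprop := fun x y z => hξ ⟨NM x y z, NM_mem x y z⟩ (by
    change 0 < NM x y z 1
    rw [hN1]; norm_num)
  have hνc : Continuous fun p : K × K × K => ν p.1 p.2.1 p.2.2 :=
    hc.comp (NM_cont.subtype_mk _)
  have hex : ∀ x y z, ∃ s : ℝ, x ≠ y → ∀ f, 3 * ν x y z f = s * f x + (1 - s) * f y := by
    intro x y z
    by_cases hxy : x = y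
    · exact ⟨0, fun h => absurd hxy h⟩
    · obtain ⟨s, hs⟩ := exists_s hxy (ν x y z) (hprop x y z).1
        (fun f hf => ((hprop x y z).2.1 f hf).trans (posP_NM x y z hf))
        ((hprop x y z).2.2.trans (hN1 x y z))
      exact ⟨s, fun _ => hs⟩
  choose s hs using hex
  have hscont : ∀ x y z, x ≠ y → ContinuousAt (fun p : K × K × K => s p.1 p.2.1 p.2.2)
      (x, y, z) := by
    intro x y z hxy
    obtain ⟨u, hxu, hu, v, hyv, hv, huv⟩ := exists_open_nhds_disjoint_closure hxy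
    obtain ⟨a, ha1, ha2, ha3⟩ := exists_continuous_zero_one_of_isClosed
      (isClosed_closure (s := v)) (isClosed_closure (s := u)) huv.symm
    have h1 : Continuous fun p : K × K × K => 3 * ν p.1 p.2.1 p.2.2 a :=
      continuous_const.mul ((WeakDual.eval_continuous a).comp hνc)
    refine h1.continuousAt.congr ?_
    have h2 : ∀ᶠ p : K × K × K in 𝓝 (x, y, z), p.1 ∈ u ∧ p.2.1 ∈ v := by
      have e1 : ∀ᶠ p : K × K × K in 𝓝 (x, y, z), p.1 ∈ u :=
        continuous_fst.continuousAt (hu.mem_nhds hxu)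
      have e2 : ∀ᶠ p : K × K × K in 𝓝 (x, y, z), p.2.1 ∈ v :=
        (continuous_fst.comp continuous_snd).continuousAt (hv.mem_nhds hyv)
      exact e1.and e2
    filter_upwards [h2] with p hp
    have hne : p.1 ≠ p.2.1 := by
      intro h
      exact (Set.disjoint_left.1 huv) (subset_closure hp.1) (h ▸ subset_closure hp.2)
    rw [hs _ _ _ hne a]
    have e1 : a p.1 = 1 := ha2 (subset_closure hp.1)
    have e2 : a p.2.1 = 0 := ha1 (subset_closure hp.2)
    rw [e1, e2]
    ring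
  set O : Set (K × K) := {p | p.1 ≠ p.2} with hO
  have hOo : IsOpen O := isClosed_diagonal.isOpen_compl
  set F : C(O × K, ℝ) := ⟨fun p => s p.1.1.1 p.1.1.2 p.2, by
    rw [continuous_iff_continuousAt]
    rintro ⟨⟨⟨x, y⟩, hxy⟩, z⟩
    have h1 : Continuous fun p : O × K => ((p.1.1.1, p.1.1.2, p.2) : K × K × K) := by fun_prop
    exact (hscont x y z hxy).comp_of_eq h1.continuousAt rfl⟩ with hF
  refine ⟨fun x y => if h : x ≠ y then F.curry ⟨(x, y), h⟩ else 0, ?_, ?_, ?_⟩
  · intro x y hxy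
    have h1 : ContinuousOn (fun p : K × K => if h : p.1 ≠ p.2 then F.curry ⟨(p.1, p.2), h⟩ else 0)
        O := by
      rw [continuousOn_iff_continuous_domRestrict]
      refine F.curry.continuous.congr fun p => ?_
      have hp : p.1.1 ≠ p.1.2 := p.2
      change _ = dite _ _ _
      rw [dif_pos hp]
    exact h1.continuousAt (hOo.mem_nhds hxy)
  · intro x y hxy
    rw [dif_pos hxy]
    change s x y x = 0
    obtain ⟨a, ha1, ha2, ha3⟩ := exists_continuous_zero_one_of_isClosed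
      (isClosed_singleton (x := y)) (isClosed_singleton (x := x))
      (Set.disjoint_singleton.2 hxy.symm)
    have hay : a y = 0 := ha1 rfl
    have hax : a x = 1 := ha2 rfl
    have ha0 : 0 ≤ a := fun z => (ha3 z).1
    have h1 := hs x y x hxy a
    rw [hay, hax] at h1
    have h2 := (hprop x y x).1 a ha0
    have h3 := ((hprop x y x).2.1 a ha0).trans (posP_NM_left x y ha0)
    rw [hay] at h3
    change 0 ≤ ν x y x a at h2
    change ν x y x a ≤ _ at h3
    linarith
  · intro x y hxy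
    rw [dif_pos hxy]
    change s x y y = 1
    obtain ⟨a, ha1, ha2, ha3⟩ := exists_continuous_zero_one_of_isClosed
      (isClosed_singleton (x := x)) (isClosed_singleton (x := y))
      (Set.disjoint_singleton.2 hxy)
    have hay : a y = 1 := ha2 rfl
    have hax : a x = 0 := ha1 rfl
    have ha0 : 0 ≤ a := fun z => (ha3 z).1
    have h1 := hs x y y hxy a
    rw [hay, hax] at h1
    have h2 := (hprop x y y).1 a ha0
    have h3 := ((hprop x y y).2.1 a ha0).trans (posP_NM_right x y ha0)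
    rw [hax] at h3
    change 0 ≤ ν x y y a at h2
    change ν x y y a ≤ _ at h3
    linarith

end main

end Pool.Agent.V1198.CP
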