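import Mathlib

/-!
# Weakly compact subsets of `ℓ₁(Γ)` are norm compact (ultrafilter form), and continuous lifts
through the quotient map `ℓ₁(F) → F`
-/

set_option autoImplicit false
set_option linter.unusedSectionVars false

noncomputable section

open Filter Topology NormedSpace

namespace Pool.Agent.V1198.MR

/-- The Banach space `ℓ₁(Γ)`. -/
abbrev L1 (Γ : Type) : Type := lp (fun _ : Γ => ℝ) 1

section ell

variable {Γ : Type}

theorem summ (a : L1 Γ) : Summable fun γ => |a γ| := by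
  have := (lp.memℓp a).summable (by norm_num)
  simpa using this

theorem norm_eq (a : L1 Γ) : ‖a‖ = ∑' γ, |a γ| := by
  have := lp.norm_eq_tsum_rpow (p := 1) (by norm_num) a
  simpa using this

theorem summ' (a : L1 Γ) {φ : Γ → ℝ} (hφ : ∀ γ, |φ γ| ≤ 1) : Summable fun γ => φ γ * a γ := by
  refine Summable.of_norm_bounded (summ a) fun γ => ?_
  rw [norm_mul]
  exact mul_le_of_le_one_left (abs_nonneg _) (hφ γ)

/-- The functional on `ℓ₁(Γ)` given by a function bounded by one. -/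
def Phi (φ : Γ → ℝ) (hφ : ∀ γ, |φ γ| ≤ 1) : L1 Γ →L[ℝ] ℝ :=
  LinearMap.mkContinuous
    { toFun := fun a => ∑' γ, φ γ * a γ
      map_add' := fun a b => by
        rw [← (summ' a hφ).tsum_add (summ' b hφ)]
        refine tsum_congr fun γ => ?_
        rw [lp.coeFn_add, Pi.add_apply, mul_add]
      map_smul' := fun c a => by
        rw [RingHom.id_apply, smul_eq_mul, ← tsum_mul_left]
        refine tsum_congr fun γ => ?_
        rw [lp.coeFn_smul, Pi.smul_apply, smul_eq_mul]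
        ring } 1 (fun a => by
        show ‖∑' γ, φ γ * a γ‖ ≤ 1 * ‖a‖
        rw [one_mul, norm_eq]
        refine (norm_tsum_le_tsum_norm (summ' a hφ).norm).trans ?_
        refine Summable.tsum_le_tsum (fun γ => ?_) (summ' a hφ).norm (summ a)
        rw [norm_mul]
        exact mul_le_of_le_one_left (abs_nonneg _) (hφ γ))

theorem Phi_apply (φ : Γ → ℝ) (hφ : ∀ γ, |φ γ| ≤ 1) (a : L1 Γ) :
    Phi φ hφ a = ∑' γ, φ γ * a γ := rfl

theorem exists_tail (a : L1 Γ) {δ : ℝ} (hδ : 0 < δ) (F : Finset Γ) :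
    ∃ F' : Finset Γ, F ⊆ F' ∧ ‖a‖ - ∑ γ ∈ F', |a γ| < δ := by
  classical
  have h1 : Tendsto (fun F' : Finset Γ => ∑ γ ∈ F', |a γ|) atTop (𝓝 ‖a‖) := by
    rw [norm_eq]
    exact (summ a).hasSum
  obtain ⟨F', h2, h3⟩ := ((h1.eventually (lt_mem_nhds (show ‖a‖ - δ < ‖a‖ by linarith))).and
    (eventually_ge_atTop F)).exists
  exact ⟨F', h3, by linarith⟩

theorem Phi_ge (φ : Γ → ℝ) (hφ : ∀ γ, |φ γ| ≤ 1) (a : L1 Γ) (D : Finset Γ)
    (hD : ∀ γ ∈ D, φ γ * a γ = |a γ|) : 2 * ∑ γ ∈ D, |a γ| - ‖a‖ ≤ Phi φ hφ a := by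
  classical
  have h1 : HasSum (fun γ => if γ ∈ D then |a γ| else 0) (∑ γ ∈ D, |a γ|) := by
    have : HasSum (fun γ => if γ ∈ D then |a γ| else 0) (∑ γ ∈ D, if γ ∈ D then |a γ| else 0) :=
      hasSum_sum_of_ne_finset_zero (fun γ hγ => if_neg hγ)
    rwa [Finset.sum_congr rfl fun γ hγ => if_pos hγ] at this
  have h2 : HasSum (fun γ => 2 * (if γ ∈ D then |a γ| else 0) - |a γ|)
      (2 * ∑ γ ∈ D, |a γ| - ‖a‖) := by
    refine (h1.mul_left 2).sub ?_
    rw [norm_eq]
    exact (summ a).hasSum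
  refine hasSum_le (fun γ => ?_) h2 (summ' a hφ).hasSum
  by_cases hγ : γ ∈ D
  · rw [if_pos hγ, hD γ hγ]; linarith
  · rw [if_neg hγ]
    have h3 : |φ γ * a γ| ≤ |a γ| := by
      rw [abs_mul]
      exact mul_le_of_le_one_left (abs_nonneg _) (hφ γ)
    have := (abs_le.1 h3).1
    linarith

/-- A set is relatively weakly compact if every ultrafilter on it has a weak limit. -/
def RWC {E : Type} [NormedAddCommGroup E] [NormedSpace ℝ E] (A : Set E) : Prop :=
  ∀ G : Ultrafilter E, A ∈ G → ∃ a : E, ∀ ψ : StrongDual ℝ E, Tendsto ψ G (𝓝 (ψ a))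

theorem schur {A : Set (L1 Γ)} (hA : RWC A) : TotallyBounded A := by
  classical
  rw [totallyBounded_iff_ultrafilter]
  intro G hG
  rw [le_principal_iff] at hG
  obtain ⟨a, ha⟩ := hA G hG
  have hle : (G : Filter (L1 Γ)) ≤ 𝓝 a := by
    by_contra hcon
    obtain ⟨c, hc, hball⟩ : ∃ c : ℝ, 0 < c ∧ Metric.ball a c ∉ (G : Filter (L1 Γ)) := by
      by_contra h
      push Not at h
      refine hcon fun s hs => ?_
      obtain ⟨c, hc, hcs⟩ := Metric.mem_nhds_iff.1 hs
      exact mem_of_superset (h c hc) hcs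
    have hcompl : (Metric.ball a c)ᶜ ∈ G := Ultrafilter.compl_mem_iff_notMem.2 hball
    obtain ⟨δ, hδ, hδc⟩ : ∃ δ : ℝ, 0 < δ ∧ 8 * δ = c := ⟨c / 8, by positivity, by ring⟩
    have hone : ∀ γ₀ : Γ, ∀ γ, |(fun γ => if γ = γ₀ then (1 : ℝ) else 0) γ| ≤ 1 := by
      intro γ₀ γ
      show |if γ = γ₀ then (1 : ℝ) else 0| ≤ 1
      split_ifs <;> simp
    have hcoord : ∀ (γ : Γ) (b : L1 Γ), Phi _ (hone γ) b = b γ := by
      intro γ b
      rw [Phi_apply, tsum_eq_single γ]
      · simp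
      · intro γ' hγ'
        simp [hγ']
    have hα : ∀ (F : Finset Γ) (i : ℕ), ∃ y ∈ A, c ≤ ‖y - a‖ ∧
        ∑ γ ∈ F, |y γ - a γ| < δ / (i + 1) := by
      intro F i
      have h1 : Tendsto (fun y : L1 Γ => ∑ γ ∈ F, |y γ - a γ|) G (𝓝 (∑ γ ∈ F, |a γ - a γ|)) := by
        refine tendsto_finsetSum _ fun γ _ => ?_
        have h2 := (ha (Phi _ (hone γ))).congr (hcoord γ)
        rw [hcoord] at h2
        exact (h2.sub_const _).abs
      simp only [sub_self, abs_zero, Finset.sum_const_zero] at h1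
      have h3 := h1.eventually (gt_mem_nhds (show 0 < δ / ((i : ℝ) + 1) by positivity))
      obtain ⟨y, ⟨hy1, hy2⟩, hy3⟩ := Ultrafilter.nonempty_of_mem
        (inter_mem (inter_mem h3 hcompl) hG)
      refine ⟨y, hy3, ?_, hy1⟩
      rw [← dist_eq_norm]
      exact not_lt.1 hy2
    choose Y hYA hYc hYs using hα
    have hβ : ∀ (F : Finset Γ) (i : ℕ), ∃ F' : Finset Γ, F ⊆ F' ∧
        ‖Y F i - a‖ - ∑ γ ∈ F', |(Y F i - a : L1 Γ) γ| < δ := fun F i => exists_tail _ hδ F
    choose N hN1 hN2 using hβ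
    let F : ℕ → Finset Γ := fun n => Nat.rec ∅ (fun n F => N F n) n
    have hF : ∀ n, F (n + 1) = N (F n) n := fun n => rfl
    have hFm : Monotone F := monotone_nat_of_le_succ fun n => by rw [hF]; exact hN1 _ _
    let y : ℕ → L1 Γ := fun n => Y (F n) n
    have hy1 : ∀ n, ∑ γ ∈ F n, |(y n - a : L1 Γ) γ| < δ / (n + 1) := fun n => hYs (F n) n
    have hy2 : ∀ n, ‖y n - a‖ - ∑ γ ∈ F (n + 1), |(y n - a : L1 Γ) γ| < δ := fun n => hN2 (F n) n
    let φ : Γ → ℝ := fun γ => if h : ∃ i, γ ∈ F (i + 1) then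
      SignType.sign ((y (Nat.find h) - a : L1 Γ) γ) else 0
    have hφ : ∀ γ, |φ γ| ≤ 1 := by
      intro γ
      show |if h : ∃ i, γ ∈ F (i + 1) then
        ((SignType.sign ((y (Nat.find h) - a : L1 Γ) γ) : SignType) : ℝ) else 0| ≤ 1
      split_ifs with h
      · rcases SignType.sign ((y (Nat.find h) - a : L1 Γ) γ) with _ | _ | _ <;> simp
      · simp
    have hφD : ∀ n, ∀ γ ∈ F (n + 1) \ F n, φ γ * (y n - a : L1 Γ) γ = |(y n - a : L1 Γ) γ| := by
      intro n γ hγ
      obtain ⟨h1, h2⟩ := Finset.mem_sdiff.1 hγ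
      have h : ∃ i, γ ∈ F (i + 1) := ⟨n, h1⟩
      have h3 : Nat.find h = n := by
        rw [Nat.find_eq_iff]
        exact ⟨h1, fun m hm h4 => h2 (hFm (Nat.succ_le_of_lt hm) h4)⟩
      have h4 : φ γ = SignType.sign ((y n - a : L1 Γ) γ) := by
        show (if h : ∃ i, γ ∈ F (i + 1) then
          ((SignType.sign ((y (Nat.find h) - a : L1 Γ) γ) : SignType) : ℝ) else 0) = _
        rw [dif_pos h, h3]
      rw [h4, sign_mul_self]
    have hφ0 : ∀ γ, (∀ i, γ ∉ F (i + 1)) → φ γ = 0 := by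
      intro γ hγ
      exact dif_neg fun ⟨i, hi⟩ => hγ i hi
    have hbig : ∀ n, c / 2 ≤ Phi φ hφ (y n - a) := by
      intro n
      have h1 := Phi_ge φ hφ (y n - a) (F (n + 1) \ F n) (hφD n)
      have h2 := Finset.sum_sdiff (f := fun γ => |(y n - a : L1 Γ) γ|) (hFm (Nat.le_succ n))
      have h3 := hy1 n
      have h4 := hy2 n
      have h5 : δ / ((n : ℝ) + 1) ≤ δ := div_le_self hδ.le (by linarith [Nat.cast_nonneg (α := ℝ) n])
      have h6 : c ≤ ‖y n - a‖ := hYc _ _
      simp only [Nat.succ_eq_add_one] at h2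
      linarith
    obtain ⟨a', ha'⟩ := hA ((hyperfilter ℕ).map y)
      (Filter.mem_map.2 (Filter.univ_mem' fun n => hYA (F n) n))
    have ha'' : ∀ ψ : StrongDual ℝ (L1 Γ), Tendsto (fun n => ψ (y n)) (hyperfilter ℕ) (𝓝 (ψ a')) :=
      fun ψ => ha' ψ
    have hcoord' : ∀ γ, (∃ i, γ ∈ F (i + 1)) → a' γ = a γ := by
      rintro γ ⟨i, hi⟩
      have h1 := ha'' (Phi _ (hone γ))
      simp only [hcoord] at h1
      have h2 : Tendsto (fun n => y n γ) atTop (𝓝 (a γ)) := by
        rw [tendsto_iff_norm_sub_tendsto_zero]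
        have h3 : Tendsto (fun n : ℕ => δ / ((n : ℝ) + 1)) atTop (𝓝 0) :=
          tendsto_const_div_atTop_nhds_zero_nat δ |>.comp (tendsto_add_atTop_nat 1) |>.congr
            fun n => by simp
        refine squeeze_zero' (Eventually.of_forall fun n => norm_nonneg _) ?_ h3
        filter_upwards [eventually_ge_atTop (i + 1)] with n hn
        refine le_trans ?_ (hy1 n).le
        exact Finset.single_le_sum (f := fun γ => |(y n - a : L1 Γ) γ|)
          (fun γ _ => abs_nonneg _) (hFm hn hi)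
      have h3 : Tendsto (fun n => y n γ) (hyperfilter ℕ) (𝓝 (a γ)) :=
        h2.mono_left Nat.hyperfilter_le_atTop
      exact tendsto_nhds_unique h1 h3
    have h1 : Phi φ hφ (a' - a) = 0 := by
      rw [Phi_apply]
      have : ∀ γ, φ γ * (a' - a : L1 Γ) γ = 0 := by
        intro γ
        by_cases h : ∃ i, γ ∈ F (i + 1)
        · rw [lp.coeFn_sub, Pi.sub_apply, hcoord' γ h, sub_self, mul_zero]
        · rw [hφ0 γ (fun i hi => h ⟨i, hi⟩), zero_mul]
      simp only [this, tsum_zero]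
    have h2 : c / 2 ≤ Phi φ hφ (a' - a) := by
      rw [map_sub]
      refine ge_of_tendsto' ((ha'' (Phi φ hφ)).sub_const _) fun n => ?_
      rw [← map_sub]
      exact hbig n
    rw [h1] at h2
    linarith
  exact cauchy_nhds.mono' G.neBot hle

end ell

/-! ### Lifting continuous maps through `ℓ₁(F) → F` -/

section lift

variable {F : Type} [NormedAddCommGroup F] [NormedSpace ℝ F] [CompleteSpace F]

theorem termQ (a : L1 F) (y : F) : ‖a y • (‖y‖⁻¹ • y)‖ ≤ |a y| := by
  rw [norm_smul, norm_smul, norm_inv, norm_norm]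
  refine mul_le_of_le_one_right (abs_nonneg _) ?_
  rcases eq_or_ne y 0 with rfl | hy
  · simp
  · rw [inv_mul_cancel₀ (norm_ne_zero_iff.2 hy)]

theorem summQ (a : L1 F) : Summable fun y : F => a y • (‖y‖⁻¹ • y) :=
  Summable.of_norm_bounded (summ a) fun y => termQ a y

theorem summQn (a : L1 F) : Summable fun y : F => ‖a y • (‖y‖⁻¹ • y)‖ :=
  Summable.of_nonneg_of_le (fun _ => norm_nonneg _) (fun y => termQ a y) (summ a)

/-- The quotient map `ℓ₁(F) → F`. -/
def Q : L1 F →L[ℝ] F :=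
  LinearMap.mkContinuous
    { toFun := fun a => ∑' y : F, a y • (‖y‖⁻¹ • y)
      map_add' := fun a b => by
        rw [← (summQ a).tsum_add (summQ b)]
        refine tsum_congr fun γ => ?_
        rw [lp.coeFn_add, Pi.add_apply, add_smul]
      map_smul' := fun c a => by
        rw [RingHom.id_apply, ← (summQ a).tsum_const_smul]
        refine tsum_congr fun γ => ?_
        rw [lp.coeFn_smul, Pi.smul_apply, smul_assoc] } 1 (fun a => by
        show ‖∑' y : F, a y • (‖y‖⁻¹ • y)‖ ≤ 1 * ‖a‖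
        rw [one_mul, norm_eq]
        refine (norm_tsum_le_tsum_norm (summQn a)).trans ?_
        exact Summable.tsum_le_tsum (fun y => termQ a y) (summQn a) (summ a))

theorem Q_apply (a : L1 F) : Q a = ∑' y : F, a y • (‖y‖⁻¹ • y) := rfl

theorem exists_preimage (y : F) : ∃ a : L1 F, Q a = y ∧ ‖a‖ = ‖y‖ := by
  classical
  refine ⟨lp.single 1 y ‖y‖, ?_, ?_⟩
  · rw [Q_apply, tsum_eq_single y]
    · rw [lp.single_apply_self]
      rcases eq_or_ne y 0 with rfl | hy
      · simp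
      · rw [smul_smul, mul_inv_cancel₀ (norm_ne_zero_iff.2 hy), one_smul]
    · intro y' hy'
      rw [lp.single_apply_ne 1 y _ hy', zero_smul]
  · rw [norm_eq, tsum_eq_single y]
    · rw [lp.single_apply_self, abs_norm]
    · intro y' hy'
      rw [lp.single_apply_ne 1 y _ hy', abs_zero]

theorem one_step (h : C(F, F)) {ρ : ℝ} (hρ : 0 < ρ) :
    ∃ s : C(F, L1 F), ∀ y, ‖h y - Q (s y)‖ < ρ ∧ ‖s y‖ < ‖h y‖ + ρ := by
  have ht : ∀ y, Convex ℝ {a : L1 F | ‖h y - Q a‖ < ρ ∧ ‖a‖ < ‖h y‖ + ρ} := by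
    intro y a ha b hb s t hs ht hst
    obtain ⟨ha1, ha2⟩ := ha
    obtain ⟨hb1, hb2⟩ := hb
    constructor
    · have h1 : h y - Q (s • a + t • b) = s • (h y - Q a) + t • (h y - Q b) := by
        rw [map_add, map_smul, map_smul, smul_sub, smul_sub]
        nth_rw 1 [← one_smul ℝ (h y)]
        rw [← hst, add_smul]
        abel
      rw [h1]
      refine (norm_add_le _ _).trans_lt ?_
      rw [norm_smul, norm_smul, Real.norm_of_nonneg hs, Real.norm_of_nonneg ht]
      rcases hs.eq_or_lt with rfl | hs'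
      · rw [zero_add] at hst; subst hst; simpa using hb1
      · have := mul_lt_mul_of_pos_left ha1 hs'
        have := mul_le_mul_of_nonneg_left hb1.le ht
        calc s * ‖h y - Q a‖ + t * ‖h y - Q b‖ < s * ρ + t * ρ := by linarith
          _ = ρ := by rw [← add_mul, hst, one_mul]
    · refine (norm_add_le _ _).trans_lt ?_
      rw [norm_smul, norm_smul, Real.norm_of_nonneg hs, Real.norm_of_nonneg ht]
      rcases hs.eq_or_lt with rfl | hs'
      · rw [zero_add] at hst; subst hst; simpa using hb2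
      · have := mul_lt_mul_of_pos_left ha2 hs'
        have := mul_le_mul_of_nonneg_left hb2.le ht
        calc s * ‖a‖ + t * ‖b‖ < s * (‖h y‖ + ρ) + t * (‖h y‖ + ρ) := by linarith
          _ = ‖h y‖ + ρ := by rw [← add_mul, hst, one_mul]
  obtain ⟨s, hs⟩ := exists_continuous_forall_mem_convex_of_local_const ht (fun y₀ => by
    obtain ⟨a, ha1, ha2⟩ := exists_preimage (h y₀)
    refine ⟨a, ?_⟩
    have h1 : Tendsto (fun y => ‖h y - Q a‖) (𝓝 y₀) (𝓝 ‖h y₀ - Q a‖) :=
      ((h.continuous.tendsto y₀).sub_const _).norm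
    rw [ha1, sub_self, norm_zero] at h1
    have h2 : Tendsto (fun y => ‖h y‖ + ρ) (𝓝 y₀) (𝓝 (‖h y₀‖ + ρ)) :=
      ((h.continuous.tendsto y₀).norm).add_const _
    filter_upwards [h1.eventually (gt_mem_nhds hρ),
      h2.eventually (lt_mem_nhds (show ‖a‖ < ‖h y₀‖ + ρ by rw [ha2]; linarith))] with y hy1 hy2
    refine ⟨?_, hy2⟩
    rw [ha1]
    exact hy1)
  exact ⟨s, hs⟩

/-- A continuous right inverse of the quotient map `ℓ₁(F) → F`. -/
theorem exists_section : ∃ s : C(F, L1 F), ∀ y, Q (s y) = y := by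
  have hp : ∀ n : ℕ, 0 < (1 / 2 : ℝ) ^ n := fun n => by positivity
  choose st hst using fun (h : C(F, F)) (n : ℕ) => one_step h (hp n)
  let QC : C(L1 F, F) := ⟨Q, Q.continuous⟩
  let h : ℕ → C(F, F) := fun n => Nat.rec (ContinuousMap.id F) (fun n h => h - QC.comp (st h n)) n
  have hs : ∀ n y, h (n + 1) y = h n y - Q (st (h n) n y) := fun n y => rfl
  let s : ℕ → C(F, L1 F) := fun n => st (h n) n
  have h1 : ∀ n y, ‖h (n + 1) y‖ < (1 / 2) ^ n := fun n y => by
    rw [hs]; exact (hst (h n) n y).1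
  have h2 : ∀ n y, ‖s (n + 1) y‖ ≤ 2 * (1 / 2) ^ n := fun n y => by
    have h3 := (hst (h (n + 1)) (n + 1) y).2
    have h4 := h1 n y
    have h5 : (1 / 2 : ℝ) ^ (n + 1) ≤ (1 / 2) ^ n := by
      rw [pow_succ]
      have := hp n
      linarith
    show ‖st (h (n + 1)) (n + 1) y‖ ≤ _
    linarith
  have hsum : Summable fun n : ℕ => 2 * (1 / 2 : ℝ) ^ n :=
    (summable_geometric_of_lt_one (by norm_num) (by norm_num)).mul_left 2
  have hsy : ∀ y, Summable fun n => s (n + 1) y := fun y =>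
    Summable.of_norm_bounded hsum fun n => h2 n y
  refine ⟨⟨fun y => s 0 y + ∑' n, s (n + 1) y, (s 0).continuous.add
    (continuous_tsum (fun n => (s (n + 1)).continuous) hsum h2)⟩, fun y => ?_⟩
  show Q (s 0 y + ∑' n, s (n + 1) y) = y
  have hsy' : Summable fun n => s n y := (summable_nat_add_iff 1).1 (hsy y)
  have h3 : s 0 y + ∑' n, s (n + 1) y = ∑' n, s n y := by
    rw [hsy'.tsum_eq_zero_add]
  rw [h3]
  have h4 : ∀ N, Q (∑ n ∈ Finset.range N, s n y) = y - h N y := by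
    intro N
    induction N with
    | zero => simp [h]
    | succ N ih =>
      rw [Finset.sum_range_succ, map_add, ih, hs]
      show y - h N y + Q (st (h N) N y) = _
      abel
  have h5 : Tendsto (fun N => Q (∑ n ∈ Finset.range N, s n y)) atTop (𝓝 (Q (∑' n, s n y))) :=
    (Q.continuous.tendsto _).comp hsy'.hasSum.tendsto_sum_nat
  have h6 : Tendsto (fun N => h N y) atTop (𝓝 0) := by
    rw [← tendsto_add_atTop_iff_nat 1]
    exact squeeze_zero_norm (fun n => (h1 n y).le)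
      (tendsto_pow_atTop_nhds_zero_of_lt_one (by norm_num) (by norm_num))
  simp only [h4] at h5
  have h7 : Tendsto (fun N => y - h N y) atTop (𝓝 (y - 0)) := tendsto_const_nhds.sub h6
  rw [sub_zero] at h7
  exact tendsto_nhds_unique h5 h7

end lift

end Pool.Agent.V1198.MR
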