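import Pool.Agent.V1198.PJ1
import Pool.Agent.V1198.MRSchur

/-!
# Completely continuous operators on `C(K)` are weakly compact
-/

set_option autoImplicit false
set_option linter.unusedSectionVars false
set_option linter.unusedVariables false

noncomputable section

open Filter Topology

namespace Pool.Agent.V1198.RD

open Pool.Agent.V1198.BL Pool.Agent.V1198.PJ

section ck

variable {K : Type} [TopologicalSpace K] [CompactSpace K]

instance solidCK : HasSolidNorm C(K, ℝ) where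
  solid f g h := (ContinuousMap.norm_le _ (norm_nonneg _)).2 fun t => by
    have h1 : |f t| ≤ |g t| := h t
    exact h1.trans (g.norm_coe_le_norm t)

/-- `C(K)` as a Banach lattice. -/
abbrev CK (K : Type) [TopologicalSpace K] [CompactSpace K] : BLat := ⟨C(K, ℝ)⟩

variable {Y : Type} [NormedAddCommGroup Y] [NormedSpace ℝ Y] (T : C(K, ℝ) →L[ℝ] Y)

/-- Values on intervals. -/
def pv (f : C(K, ℝ)) : Set ℝ := {r | ∃ g : C(K, ℝ), |g| ≤ f ∧ r = ‖T g‖}

/-- The lattice seminorm of the operator. -/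
def p (f : C(K, ℝ)) : ℝ := sSup (pv T f)

theorem norm_le_of_abs {f g : C(K, ℝ)} (h : |g| ≤ f) : ‖g‖ ≤ ‖f‖ := by
  refine (ContinuousMap.norm_le _ (norm_nonneg _)).2 fun t => ?_
  have h1 : |g t| ≤ f t := h t
  exact h1.trans ((le_abs_self _).trans (f.norm_coe_le_norm t))

theorem pv_bdd (f : C(K, ℝ)) : BddAbove (pv T f) := ⟨‖T‖ * ‖f‖, by
  rintro _ ⟨g, hg, rfl⟩
  exact (T.le_opNorm g).trans (mul_le_mul_of_nonneg_left (norm_le_of_abs hg) (norm_nonneg _))⟩

theorem pv_zero {f : C(K, ℝ)} (hf : 0 ≤ f) : (0 : ℝ) ∈ pv T f :=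
  ⟨0, by rw [abs_zero]; exact hf, by rw [map_zero, norm_zero]⟩

theorem le_p {f g : C(K, ℝ)} (h : |g| ≤ f) : ‖T g‖ ≤ p T f := le_csSup (pv_bdd T f) ⟨g, h, rfl⟩

theorem p_le {f : C(K, ℝ)} (hf : 0 ≤ f) {c : ℝ} (h : ∀ g, |g| ≤ f → ‖T g‖ ≤ c) : p T f ≤ c :=
  csSup_le ⟨0, pv_zero T hf⟩ (by rintro _ ⟨g, hg, rfl⟩; exact h g hg)

theorem p_nonneg {f : C(K, ℝ)} (hf : 0 ≤ f) : 0 ≤ p T f := le_csSup (pv_bdd T f) (pv_zero T hf)

theorem p_mono {f h : C(K, ℝ)} (hf : 0 ≤ f) (hfh : f ≤ h) : p T f ≤ p T h :=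
  p_le T hf fun g hg => le_p T (hg.trans hfh)

theorem p_norm {f : C(K, ℝ)} (hf : 0 ≤ f) : p T f ≤ ‖T‖ * ‖f‖ :=
  p_le T hf fun g hg => (T.le_opNorm g).trans
    (mul_le_mul_of_nonneg_left (norm_le_of_abs hg) (norm_nonneg _))

theorem p_zero : p T 0 = 0 :=
  le_antisymm ((p_norm T le_rfl).trans (by rw [norm_zero, mul_zero])) (p_nonneg T le_rfl)

theorem cut {a b c : ℝ} (h : |a| ≤ b + c) (hb : 0 ≤ b) (hc : 0 ≤ c) :
    |max (min a b) (-b)| ≤ b ∧ |a - max (min a b) (-b)| ≤ c := by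
  rw [abs_le] at h
  rcases le_total a b with h1 | h1
  · rw [min_eq_left h1]
    rcases le_total a (-b) with h2 | h2
    · rw [max_eq_right h2, abs_neg, abs_of_nonneg hb]
      exact ⟨le_rfl, abs_le.2 ⟨by linarith, by linarith⟩⟩
    · rw [max_eq_left h2, sub_self, abs_zero]
      exact ⟨abs_le.2 ⟨h2, h1⟩, hc⟩
  · rw [min_eq_right h1, max_eq_left (by linarith), abs_of_nonneg hb]
    exact ⟨le_rfl, abs_le.2 ⟨by linarith, by linarith⟩⟩

theorem p_add {f h : C(K, ℝ)} (hf : 0 ≤ f) (hh : 0 ≤ h) : p T (f + h) ≤ p T f + p T h := by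
  refine p_le T (add_nonneg hf hh) fun g hg => ?_
  have h1 : |(g ⊓ f) ⊔ (-f)| ≤ f := fun t => (cut (hg t) (hf t) (hh t)).1
  have h2 : |g - (g ⊓ f) ⊔ (-f)| ≤ h := fun t => (cut (hg t) (hf t) (hh t)).2
  have h3 : g = (g ⊓ f) ⊔ (-f) + (g - (g ⊓ f) ⊔ (-f)) := by abel
  calc ‖T g‖ = ‖T ((g ⊓ f) ⊔ (-f)) + T (g - (g ⊓ f) ⊔ (-f))‖ := by rw [← map_add, ← h3]
    _ ≤ ‖T ((g ⊓ f) ⊔ (-f))‖ + ‖T (g - (g ⊓ f) ⊔ (-f))‖ := norm_add_le _ _
    _ ≤ _ := add_le_add (le_p T h1) (le_p T h2)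

theorem p_sum {ι : Type} (s : Finset ι) (f : ι → C(K, ℝ)) (hf : ∀ i ∈ s, 0 ≤ f i) :
    p T (∑ i ∈ s, f i) ≤ ∑ i ∈ s, p T (f i) := by
  classical
  induction s using Finset.induction_on with
  | empty => rw [Finset.sum_empty, Finset.sum_empty, p_zero]
  | insert a s ha ih =>
    rw [Finset.sum_insert ha, Finset.sum_insert ha]
    have h1 : ∀ i ∈ s, 0 ≤ f i := fun i hi => hf i (Finset.mem_insert_of_mem hi)
    exact (p_add T (hf a (Finset.mem_insert_self a s)) (Finset.sum_nonneg h1)).trans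
      (add_le_add_right (ih h1) _)

theorem p_smul {c : ℝ} (hc : 0 ≤ c) {f : C(K, ℝ)} (hf : 0 ≤ f) : p T (c • f) ≤ c * p T f := by
  rcases hc.eq_or_lt with rfl | hc
  · rw [zero_smul, p_zero, zero_mul]
  · refine p_le T (smul_nonneg hc.le hf) fun g hg => ?_
    have h1 : |c⁻¹ • g| ≤ f := fun t => by
      have h2 : |g t| ≤ c * f t := hg t
      change |c⁻¹ * g t| ≤ f t
      rw [abs_mul, abs_of_pos (inv_pos.2 hc), inv_mul_le_iff₀ hc]
      exact h2
    have h2 := le_p T h1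
    rw [map_smul, norm_smul, Real.norm_of_nonneg (inv_nonneg.2 hc.le), inv_mul_le_iff₀ hc] at h2
    exact h2

/-- The property of disjoint sequences. -/
def DP : Prop := ∀ f : ℕ → C(K, ℝ), (∀ n, 0 ≤ f n) → (∀ n, f n ≤ 1) →
  (∀ m n, m < n → ∀ t, f m t = 0 ∨ f n t = 0) → Tendsto (fun n => p T (f n)) atTop (𝓝 0)

variable {T}

theorem tendsto_or {a : ℕ → ℝ} (ha : ∀ n, 0 ≤ a n) (h : ¬ Tendsto a atTop (𝓝 0)) :
    ∃ ε : ℝ, 0 < ε ∧ ∀ N, ∃ n ≥ N, ε ≤ a n := by
  by_contra hcon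
  push Not at hcon
  apply h
  rw [Metric.tendsto_atTop]
  intro ε hε
  obtain ⟨N, hN⟩ := hcon ε hε
  refine ⟨N, fun n hn => ?_⟩
  rw [Real.dist_eq, sub_zero, abs_of_nonneg (ha n)]
  exact hN n hn

/-- Sequences of bounded multiplicity. -/
theorem mult (hD : DP T) (M : ℕ) : ∀ f : ℕ → C(K, ℝ), (∀ n, 0 ≤ f n) → (∀ n, f n ≤ 1) →
    (∀ t, ∀ S : Finset ℕ, (∀ n ∈ S, f n t ≠ 0) → S.card ≤ M) →
    Tendsto (fun n => p T (f n)) atTop (𝓝 0) := by
  classical
  induction M with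
  | zero =>
    intro f h0 h1 hM
    have h2 : ∀ n, f n = 0 := by
      intro n
      ext t
      by_contra hne
      have := hM t {n} (by intro m hm; rw [Finset.mem_singleton.1 hm]; exact hne)
      simp at this
    simp only [h2, p_zero]
    exact tendsto_const_nhds
  | succ M ih =>
    intro v h0 h1 hM
    by_contra hcon
    obtain ⟨ε, hε, hfreq⟩ := tendsto_or (fun n => p_nonneg T (h0 n)) hcon
    set κ : ℝ := 4 * ‖T‖ / ε + 1 with hκ
    have hκ1 : 1 ≤ κ := by
      have : 0 ≤ 4 * ‖T‖ / ε := by positivity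
      linarith
    have hκ0 : 0 < κ := by linarith
    have hw : ∀ i, Tendsto (fun j => p T (if j ≤ i then 0 else v i ⊓ v j)) atTop (𝓝 0) := by
      intro i
      refine ih _ (fun j => ?_) (fun j => ?_) (fun t S hS => ?_)
      · split_ifs
        · exact le_rfl
        · exact le_inf (h0 i) (h0 j)
      · split_ifs
        · exact zero_le_one
        · exact inf_le_left.trans (h1 i)
      · rcases S.eq_empty_or_nonempty with rfl | ⟨j₀, hj₀⟩
        · simp
        have key : ∀ j ∈ S, ¬ j ≤ i ∧ v i t ≠ 0 ∧ v j t ≠ 0 := by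
          intro j hj
          have h2 := hS j hj
          by_cases hji : j ≤ i
          · rw [if_pos hji] at h2
            exact absurd rfl h2
          · rw [if_neg hji] at h2
            have h3 : min (v i t) (v j t) ≠ 0 := h2
            have h4 : 0 ≤ v i t := h0 i t
            have h5 : 0 ≤ v j t := h0 j t
            refine ⟨hji, fun h6 => h3 ?_, fun h6 => h3 ?_⟩
            · rw [h6]; exact min_eq_left h5
            · rw [h6]; exact min_eq_right h4
        have hi : i ∉ S := fun hi => (key i hi).1 le_rfl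
        have h2 := hM t (insert i S) (by
          intro n hn
          rcases Finset.mem_insert.1 hn with rfl | hn
          · exact (key j₀ hj₀).2.1
          · exact (key n hn).2.2)
        rw [Finset.card_insert_of_notMem hi] at h2
        omega
    obtain ⟨φ, hφP, hφr⟩ := exists_seq_of_forall_finset_exists (fun i => ε ≤ p T (v i))
      (fun i j => i < j ∧ p T (v i ⊓ v j) ≤ ε / (8 * κ) * (1 / 2) ^ i) (by
        intro s _
        have h2 : ∀ x ∈ s, ∀ᶠ j in atTop, x < j ∧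
            p T (v x ⊓ v j) ≤ ε / (8 * κ) * (1 / 2) ^ x := by
          intro x _
          have h3 : (0 : ℝ) < ε / (8 * κ) * (1 / 2) ^ x := by positivity
          filter_upwards [(hw x).eventually (gt_mem_nhds h3), eventually_gt_atTop x] with j hj hxj
          rw [if_neg (not_le.2 hxj)] at hj
          exact ⟨hxj, hj.le⟩
        obtain ⟨N, hN⟩ := eventually_atTop.1 ((Finset.eventually_all s).2 h2)
        obtain ⟨n, hn, hn2⟩ := hfreq N
        exact ⟨n, hn2, fun x hx => hN n hn x hx⟩)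
    have hφm : StrictMono φ := strictMono_nat_of_lt_succ fun n => (hφr n (n + 1) (by omega)).1
    have hφid : ∀ n, n ≤ φ n := hφm.id_le
    set L : ℕ → C(K, ℝ) := fun b => ∑ a ∈ Finset.range b, v (φ a) ⊓ v (φ b) with hL
    have hL0 : ∀ b, 0 ≤ L b := fun b => Finset.sum_nonneg fun a _ => le_inf (h0 _) (h0 _)
    have hLge : ∀ a b, a < b → v (φ a) ⊓ v (φ b) ≤ L b := fun a b hab =>
      Finset.single_le_sum (f := fun a => v (φ a) ⊓ v (φ b))
        (fun a _ => le_inf (h0 _) (h0 _)) (Finset.mem_range.2 hab)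
    have hLp : ∀ b, p T (L b) ≤ ε / (4 * κ) := by
      intro b
      refine (p_sum T _ _ fun a _ => le_inf (h0 _) (h0 _)).trans ?_
      calc ∑ a ∈ Finset.range b, p T (v (φ a) ⊓ v (φ b))
          ≤ ∑ a ∈ Finset.range b, ε / (8 * κ) * (1 / 2) ^ a := by
            refine Finset.sum_le_sum fun a ha => ?_
            refine (hφr a b (Finset.mem_range.1 ha)).2.trans ?_
            refine mul_le_mul_of_nonneg_left ?_ (by positivity)
            exact pow_le_pow_of_le_one (by norm_num) (by norm_num) (hφid a)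
        _ = ε / (8 * κ) * ∑ a ∈ Finset.range b, (1 / 2 : ℝ) ^ a := by rw [Finset.mul_sum]
        _ ≤ ε / (8 * κ) * 2 := by
            refine mul_le_mul_of_nonneg_left ?_ (by positivity)
            have h1 := summable_geometric_two.sum_le_tsum (Finset.range b)
              (fun k _ => by positivity)
            rwa [tsum_geometric_two] at h1
        _ = ε / (4 * κ) := by field_simp; ring
    set v' : ℕ → C(K, ℝ) := fun b => (v (φ b) - κ • L b - (κ⁻¹) • 1) ⊔ 0 with hv'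
    have hv'0 : ∀ b, 0 ≤ v' b := fun b => le_sup_right
    have hv'v : ∀ b, v' b ≤ v (φ b) := fun b => by
      refine sup_le ?_ (h0 _)
      have h2 : 0 ≤ κ • L b := smul_nonneg hκ0.le (hL0 b)
      have h3 : (0 : C(K, ℝ)) ≤ κ⁻¹ • 1 := smul_nonneg (inv_nonneg.2 hκ0.le) zero_le_one
      exact (sub_le_self _ h3).trans (sub_le_self _ h2)
    have hdisj : ∀ m n, m < n → ∀ t, v' m t = 0 ∨ v' n t = 0 := by
      intro a b hab t
      by_contra hne
      push Not at hne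
      have e1 : v' a t = max (v (φ a) t - κ * L a t - κ⁻¹ * 1) 0 := rfl
      have e2 : v' b t = max (v (φ b) t - κ * L b t - κ⁻¹ * 1) 0 := rfl
      have p1 : 0 < v (φ a) t - κ * L a t - κ⁻¹ * 1 := by
        by_contra hle
        exact hne.1 (by rw [e1]; exact max_eq_right (not_lt.1 hle))
      have p2 : 0 < v (φ b) t - κ * L b t - κ⁻¹ * 1 := by
        by_contra hle
        exact hne.2 (by rw [e2]; exact max_eq_right (not_lt.1 hle))
      have q1 : 0 ≤ L a t := hL0 a t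
      have q2 : min (v (φ a) t) (v (φ b) t) ≤ L b t := hLge a b hab t
      have q3 : v (φ b) t ≤ 1 := h1 (φ b) t
      have q4 : 0 ≤ v (φ b) t := h0 (φ b) t
      have q5 : 0 ≤ v (φ a) t := h0 (φ a) t
      have q6 : 0 < κ⁻¹ := inv_pos.2 hκ0
      have q7 : κ * κ⁻¹ = 1 := mul_inv_cancel₀ hκ0.ne'
      have q8 : κ * min (v (φ a) t) (v (φ b) t) ≤ κ * L b t := mul_le_mul_of_nonneg_left q2 hκ0.le
      rcases min_cases (v (φ a) t) (v (φ b) t) with ⟨h2, h3⟩ | ⟨h2, h3⟩
      · rw [h2] at q8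
        have q9 : κ⁻¹ < v (φ a) t := by
          have : 0 ≤ κ * L a t := mul_nonneg hκ0.le q1
          linarith
        have q10 : κ * κ⁻¹ < κ * v (φ a) t := mul_lt_mul_of_pos_left q9 hκ0
        linarith
      · rw [h2] at q8
        have q9 : v (φ b) t ≤ κ * v (φ b) t := by nlinarith
        linarith
    have hlim := hD v' hv'0 (fun b => (hv'v b).trans (h1 _)) hdisj
    obtain ⟨b, hb⟩ := (hlim.eventually (gt_mem_nhds (show (0 : ℝ) < ε / 2 by linarith))).exists
    have h2 : v (φ b) ≤ v' b + (κ • L b + κ⁻¹ • 1) := by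
      have h3 : v (φ b) - κ • L b - κ⁻¹ • 1 ≤ v' b := le_sup_left
      have h4 := add_le_add_left h3 (κ • L b + κ⁻¹ • (1 : C(K, ℝ)))
      have h5 : v (φ b) - κ • L b - κ⁻¹ • 1 + (κ • L b + κ⁻¹ • (1 : C(K, ℝ))) = v (φ b) := by abel
      rw [h5] at h4
      exact h4
    have n1 : (0 : C(K, ℝ)) ≤ κ • L b := smul_nonneg hκ0.le (hL0 b)
    have n2 : (0 : C(K, ℝ)) ≤ κ⁻¹ • 1 := smul_nonneg (inv_nonneg.2 hκ0.le) zero_le_one
    have h3 := (p_mono T (h0 _) h2).trans ((p_add T (hv'0 b) (add_nonneg n1 n2)).trans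
      (add_le_add_right (p_add T n1 n2) _))
    have h4 : p T (κ • L b) ≤ ε / 4 := by
      refine (p_smul T hκ0.le (hL0 b)).trans ?_
      calc κ * p T (L b) ≤ κ * (ε / (4 * κ)) := mul_le_mul_of_nonneg_left (hLp b) hκ0.le
        _ = ε / 4 := by field_simp
    have h5 : p T (κ⁻¹ • 1) < ε / 4 := by
      refine (p_norm T n2).trans_lt ?_
      have h6 : ‖(κ⁻¹ • (1 : C(K, ℝ)))‖ ≤ κ⁻¹ := by
        rw [norm_smul, Real.norm_of_nonneg (inv_nonneg.2 hκ0.le)]
        have h7 : ‖(1 : C(K, ℝ))‖ ≤ 1 := (ContinuousMap.norm_le _ zero_le_one).2 fun t => by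
          change ‖(1 : ℝ)‖ ≤ 1
          rw [norm_one]
        exact (mul_le_mul_of_nonneg_left h7 (inv_nonneg.2 hκ0.le)).trans (mul_one _).le
      calc ‖T‖ * ‖(κ⁻¹ • (1 : C(K, ℝ)))‖ ≤ ‖T‖ * κ⁻¹ :=
            mul_le_mul_of_nonneg_left h6 (ContinuousLinearMap.opNorm_nonneg T)
        _ < ε / 4 := by
          rw [← div_eq_mul_inv, div_lt_iff₀ hκ0, hκ]
          have : ε / 4 * (4 * ‖T‖ / ε + 1) = ‖T‖ + ε / 4 := by field_simp
          rw [this]
          linarith
    have h6 := hφP b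
    linarith

theorem norm_one_le : ‖(1 : C(K, ℝ))‖ ≤ 1 := (ContinuousMap.norm_le _ zero_le_one).2 fun t => by
  change ‖(1 : ℝ)‖ ≤ 1
  rw [norm_one]

/-- Sequences with bounded sums. -/
theorem sums (hD : DP T) (u : ℕ → C(K, ℝ)) (h0 : ∀ n, 0 ≤ u n)
    (h1 : ∀ N, ∑ i ∈ Finset.range N, u i ≤ 1) : Tendsto (fun n => p T (u n)) atTop (𝓝 0) := by
  classical
  have hle1 : ∀ n, u n ≤ 1 := fun n => by
    refine le_trans ?_ (h1 (n + 1))
    exact Finset.single_le_sum (f := u) (fun i _ => h0 i) (Finset.mem_range.2 (by omega))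
  rw [Metric.tendsto_atTop]
  intro ε hε
  set η : ℝ := ε / (4 * (‖T‖ + 1)) with hη
  have hη0 : 0 < η := by positivity
  set v : ℕ → C(K, ℝ) := fun n => (u n - η • 1) ⊔ 0 with hv
  have hv0 : ∀ n, 0 ≤ v n := fun n => le_sup_right
  have n2 : (0 : C(K, ℝ)) ≤ η • 1 := smul_nonneg hη0.le zero_le_one
  have hlim := mult hD ⌈1 / η⌉₊ v hv0
    (fun n => sup_le ((sub_le_self _ n2).trans (hle1 n)) zero_le_one) (by
      intro t S hS
      have h2 : ∀ n ∈ S, η ≤ u n t := by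
        intro n hn
        by_contra hlt
        push Not at hlt
        apply hS n hn
        change max (u n t - η * 1) 0 = 0
        exact max_eq_right (by linarith)
      have h3 : (S.card : ℝ) * η ≤ 1 := by
        calc (S.card : ℝ) * η = ∑ n ∈ S, η := by rw [Finset.sum_const, nsmul_eq_mul]
          _ ≤ ∑ n ∈ S, u n t := Finset.sum_le_sum h2
          _ ≤ ∑ n ∈ Finset.range (S.sup id + 1), u n t :=
              Finset.sum_le_sum_of_subset_of_nonneg (fun n hn => Finset.mem_range.2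
                (Nat.lt_succ_of_le (Finset.le_sup (f := id) hn))) fun n _ _ => h0 n t
          _ = (∑ n ∈ Finset.range (S.sup id + 1), u n) t := by
              rw [ContinuousMap.sum_apply]
          _ ≤ 1 := h1 _ t
      have h4 : (S.card : ℝ) ≤ 1 / η := by rwa [le_div_iff₀ hη0]
      exact_mod_cast h4.trans (Nat.le_ceil _))
  obtain ⟨N, hN⟩ := Metric.tendsto_atTop.1 hlim (ε / 4) (by linarith)
  refine ⟨N, fun n hn => ?_⟩
  have h2 := hN n hn
  rw [Real.dist_eq, sub_zero, abs_of_nonneg (p_nonneg T (hv0 n))] at h2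
  rw [Real.dist_eq, sub_zero, abs_of_nonneg (p_nonneg T (h0 n))]
  have h3 : u n ≤ v n + η • 1 := by
    have h4 : u n - η • 1 ≤ v n := le_sup_left
    exact sub_le_iff_le_add.1 h4
  have h4 := (p_mono T (h0 n) h3).trans (p_add T (hv0 n) n2)
  have h5 : p T (η • 1) ≤ ε / 4 := by
    refine (p_norm T n2).trans ?_
    rw [norm_smul, Real.norm_of_nonneg hη0.le]
    calc ‖T‖ * (η * ‖(1 : C(K, ℝ))‖) ≤ (‖T‖ + 1) * (η * 1) := by
          gcongr
          · linarith
          · exact norm_one_le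
      _ = ε / 4 := by rw [hη]; field_simp
  linarith

/-- Increasing sequences. -/
theorem mono_cauchy (hD : DP T) (F : ℕ → C(K, ℝ)) (hF : Monotone F) (h0 : ∀ n, 0 ≤ F n)
    (h1 : ∀ n, F n ≤ 1) {ε : ℝ} (hε : 0 < ε) : ∃ n, ∀ m ≥ n, p T (F m - F n) ≤ ε := by
  by_contra hcon
  push Not at hcon
  choose g hg1 hg2 using hcon
  set φ : ℕ → ℕ := fun j => g^[j] 0 with hφ
  have hφs : ∀ j, φ (j + 1) = g (φ j) := fun j => Function.iterate_succ_apply' g j 0
  have hlim := sums hD (fun j => F (φ (j + 1)) - F (φ j)) (fun j => by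
    rw [hφs]; exact sub_nonneg.2 (hF (hg1 _))) (fun N => by
    rw [Finset.sum_range_sub (fun j => F (φ j))]
    exact (sub_le_self _ (h0 _)).trans (h1 _))
  obtain ⟨j, hj⟩ := (hlim.eventually (gt_mem_nhds hε)).exists
  have := hg2 (φ j)
  rw [hφs] at hj
  linarith

/-- A positive functional dominated by `p` and large at a given function. -/
theorem exists_mu {f : C(K, ℝ)} (hf : 0 ≤ f) {ε : ℝ} (h : ε < p T f) :
    ∃ μ : C(K, ℝ) →L[ℝ] ℝ, (∀ g, 0 ≤ g → 0 ≤ μ g) ∧ (∀ g, 0 ≤ g → μ g ≤ p T g) ∧ ε < μ f := by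
  obtain ⟨_, ⟨g, hg, rfl⟩, h1⟩ := exists_lt_of_lt_csSup ⟨0, pv_zero T hf⟩ h
  obtain ⟨ψ, hψ1, hψ2⟩ := exists_dual_vector'' ℝ (T g)
  set ν : C(K, ℝ) →L[ℝ] ℝ := ψ.comp T with hν
  have hνT : ∀ x, ν x ≤ ‖T x‖ := fun x => by
    refine (le_abs_self _).trans ((ψ.le_opNorm (T x)).trans ?_)
    exact (mul_le_mul_of_nonneg_right hψ1 (norm_nonneg _)).trans (one_mul _).le
  set μ₁ : C(K, ℝ) →L[ℝ] ℝ := GF (X := CK K) ν with hμ₁
  set μ₂ : C(K, ℝ) →L[ℝ] ℝ := GF (X := CK K) (-ν) with hμ₂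
  refine ⟨μ₁ + μ₂, fun x hx => add_nonneg (GF_nonneg (X := CK K) ν hx)
    (GF_nonneg (X := CK K) (-ν) hx), fun x hx => ?_, ?_⟩
  · have e1 : μ₁ x = fp (X := CK K) ν x := GF_apply (X := CK K) ν hx
    have e2 : μ₂ x = fp (X := CK K) (-ν) x := GF_apply (X := CK K) (-ν) hx
    change μ₁ x + μ₂ x ≤ _
    rw [e1, e2]
    have h2 : ∀ y : C(K, ℝ), 0 ≤ y → y ≤ x → ∀ z : C(K, ℝ), 0 ≤ z → z ≤ x →
        ν y + (-ν) z ≤ p T x := by
      intro y hy0 hyx z hz0 hzx
      have h3 : ν y + (-ν) z = ν (y - z) := by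
        rw [map_sub]
        change ν y + -(ν z) = _
        ring
      rw [h3]
      refine (hνT _).trans (le_p T fun t => ?_)
      change |y t - z t| ≤ x t
      have a1 : 0 ≤ y t := hy0 t
      have a2 : y t ≤ x t := hyx t
      have a3 : 0 ≤ z t := hz0 t
      have a4 : z t ≤ x t := hzx t
      rw [abs_le]
      constructor <;> linarith
    have h3 : ∀ y : C(K, ℝ), 0 ≤ y → y ≤ x → fp (X := CK K) (-ν) x ≤ p T x - ν y := by
      intro y hy0 hyx
      refine fp_le (X := CK K) (-ν) hx fun z hz0 hzx => ?_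
      have := h2 y hy0 hyx z hz0 hzx
      linarith
    have h4 : fp (X := CK K) ν x ≤ p T x - fp (X := CK K) (-ν) x :=
      fp_le (X := CK K) ν hx fun y hy0 hyx => by
        have := h3 y hy0 hyx
        linarith
    linarith
  · have e1 : μ₁ f = fp (X := CK K) ν f := GF_apply (X := CK K) ν hf
    have e2 : μ₂ f = fp (X := CK K) (-ν) f := GF_apply (X := CK K) (-ν) hf
    change ε < μ₁ f + μ₂ f
    rw [e1, e2]
    have h2 : g ⊔ 0 ≤ f := sup_le ((le_abs_self g).trans hg) hf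
    have h3 : (-g) ⊔ 0 ≤ f := sup_le ((neg_le_abs g).trans hg) hf
    have h4 := le_fp (X := CK K) ν (x := f) (y := g ⊔ 0) le_sup_right h2
    have h5 := le_fp (X := CK K) (-ν) (x := f) (y := (-g) ⊔ 0) le_sup_right h3
    have h6 : ν (g ⊔ 0) + (-ν) ((-g) ⊔ 0) = ν g := by
      have h7 : g = (g ⊔ 0) - ((-g) ⊔ 0) := by
        ext t
        change g t = max (g t) 0 - max (-(g t)) 0
        rcases le_total 0 (g t) with h8 | h8
        · rw [max_eq_left h8, max_eq_right (by linarith)]; ring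
        · rw [max_eq_right h8, max_eq_left (by linarith)]; ring
      conv_rhs => rw [h7]
      rw [map_sub]
      change ν (g ⊔ 0) + -(ν ((-g) ⊔ 0)) = _
      ring
    have h7 : ν g = ‖T g‖ := hψ2
    have h8 : ε < ν (g ⊔ 0) + (-ν) ((-g) ⊔ 0) := by rw [h6, h7]; exact h1
    exact h8.trans_le (add_le_add h4 h5)

end ck

end Pool.Agent.V1198.RD
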