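import Pool.Agent.V1198.CP2
import Pool.Agent.V1198.RD1

/-!
# Compensation functions on compact metric spaces
-/

set_option autoImplicit false
set_option linter.unusedSectionVars false
set_option linter.unusedVariables false

noncomputable section

open Filter Topology

namespace Pool.Agent.V1198.CP

open Pool.Agent.V1198.PJ Pool.Agent.V1198.RD

theorem exists_pou {K : Type} [MetricSpace K] [CompactSpace K] {ε : ℝ} (hε : 0 < ε) :
    ∃ (I : Finset K) (h : K → C(K, ℝ)), (∀ i, 0 ≤ h i) ∧ ∑ i ∈ I, h i = 1 ∧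
      ∀ i x y, h i x ≠ 0 → h i y ≠ 0 → dist x y < ε := by
  classical
  obtain ⟨I, -, hI⟩ := isCompact_univ.elim_nhds_subcover (fun x : K => Metric.ball x (ε / 2))
    fun x _ => Metric.ball_mem_nhds x (half_pos hε)
  set b : K → K → ℝ := fun i x => max 0 (ε / 2 - dist x i) with hb
  have hb0 : ∀ i x, 0 ≤ b i x := fun i x => le_max_left _ _
  have hbc : ∀ i, Continuous (b i) := fun i =>
    continuous_const.max (continuous_const.sub (continuous_id.dist continuous_const))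
  have hB : ∀ x, 0 < ∑ j ∈ I, b j x := by
    intro x
    obtain ⟨i, hi, hxi⟩ := Set.mem_iUnion₂.1 (hI (Set.mem_univ x))
    refine Finset.sum_pos' (fun j _ => hb0 j x) ⟨i, hi, ?_⟩
    have h1 : dist x i < ε / 2 := hxi
    exact lt_max_of_lt_right (by linarith)
  refine ⟨I, fun i => ⟨fun x => b i x / ∑ j ∈ I, b j x, (hbc i).div
    (continuous_finsetSum _ fun j _ => hbc j) fun x => (hB x).ne'⟩, ?_, ?_, ?_⟩
  · intro i x
    exact div_nonneg (hb0 i x) (hB x).le
  · ext x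
    rw [ContinuousMap.sum_apply]
    change ∑ i ∈ I, b i x / ∑ j ∈ I, b j x = 1
    rw [← Finset.sum_div, div_self (hB x).ne']
  · intro i x y hx hy
    have key : ∀ z, b i z / ∑ j ∈ I, b j z ≠ 0 → dist z i < ε / 2 := by
      intro z hz
      by_contra hcon
      apply hz
      have : b i z = 0 := max_eq_left (by linarith [not_lt.1 hcon])
      rw [this, zero_div]
    have h1 := key x hx
    have h2 := key y hy
    have h3 := dist_triangle_right x y i
    linarith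

section tree

variable {K : Type} [TopologicalSpace K] [CompactSpace K] [Nonempty K]
  (I : ℕ → Finset K) (h : ℕ → K → C(K, ℝ))

/-- A point of the support. -/
def cc (g : C(K, ℝ)) : K := by
  classical
  exact if hg : ∃ x, g x ≠ 0 then hg.choose else Classical.arbitrary K

theorem cc_spec {g : C(K, ℝ)} (hg : ∃ x, g x ≠ 0) : g (cc g) ≠ 0 := by
  unfold cc
  rw [dif_pos hg]
  exact hg.choose_spec

/-- The mass of the children. -/
def ms (n : ℕ) (g : C(K, ℝ)) (μ : WeakDual ℝ C(K, ℝ)) (m : ℝ) (i : K) : ℝ :=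
  m * max (μ (g * h n i)) 0 / ∑ j ∈ I n, max (μ (g * h n j)) 0

/-- The approximations. -/
def W : ℕ → ℕ → C(K, ℝ) → WeakDual ℝ C(K, ℝ) → ℝ → C(K, ℝ) → ℝ
  | 0, _, g, _, m, f => m * f (cc g)
  | k + 1, n, g, μ, m, f => ∑ i ∈ I n, W k (n + 1) (g * h n i) μ (ms I h n g μ m i) f

variable {I h} (hsum : ∀ n, ∑ i ∈ I n, h n i = 1) (h0 : ∀ n i, 0 ≤ h n i)

include hsum in
theorem sum_gh (n : ℕ) (g : C(K, ℝ)) : ∑ i ∈ I n, g * h n i = g := by
  rw [← Finset.mul_sum, hsum, mul_one]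

include hsum in
theorem le_A (n : ℕ) (g : C(K, ℝ)) (μ : WeakDual ℝ C(K, ℝ)) :
    max (μ g) 0 ≤ ∑ j ∈ I n, max (μ (g * h n j)) 0 := by
  refine max_le ?_ (Finset.sum_nonneg fun _ _ => le_max_right _ _)
  calc μ g = μ (∑ i ∈ I n, g * h n i) := by rw [sum_gh hsum]
    _ = ∑ i ∈ I n, μ (g * h n i) := map_sum μ _ _
    _ ≤ _ := Finset.sum_le_sum fun i _ => le_max_left _ _

theorem ms_nonneg (n : ℕ) (g : C(K, ℝ)) (μ : WeakDual ℝ C(K, ℝ)) {m : ℝ} (hm : 0 ≤ m) (i : K) :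
    0 ≤ ms I h n g μ m i :=
  div_nonneg (mul_nonneg hm (le_max_right _ _)) (Finset.sum_nonneg fun _ _ => le_max_right _ _)

include hsum in
theorem ms_le (n : ℕ) (g : C(K, ℝ)) (μ : WeakDual ℝ C(K, ℝ)) {m : ℝ} (hm : 0 ≤ m)
    (hm' : m ≤ max (μ g) 0) (i : K) : ms I h n g μ m i ≤ max (μ (g * h n i)) 0 := by
  have h1 := hm'.trans (le_A hsum n g μ)
  have hA : 0 ≤ ∑ j ∈ I n, max (μ (g * h n j)) 0 := hm.trans h1
  unfold ms
  rcases hA.eq_or_lt with hA0 | hA0
  · rw [← hA0, div_zero]; exact le_max_right _ _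
  · rw [div_le_iff₀ hA0, mul_comm]
    exact mul_le_mul_of_nonneg_left h1 (le_max_right _ _)

theorem ms_le_m (n : ℕ) (g : C(K, ℝ)) (μ : WeakDual ℝ C(K, ℝ)) {m : ℝ} (hm : 0 ≤ m) {i : K}
    (hi : i ∈ I n) : ms I h n g μ m i ≤ m := by
  have h1 : max (μ (g * h n i)) 0 ≤ ∑ j ∈ I n, max (μ (g * h n j)) 0 :=
    Finset.single_le_sum (f := fun j => max (μ (g * h n j)) 0) (fun _ _ => le_max_right _ _) hi
  unfold ms
  rcases (Finset.sum_nonneg fun j (_ : j ∈ I n) =>
    le_max_right (μ (g * h n j)) 0).eq_or_lt with hA0 | hA0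
  · rw [← hA0, div_zero]; exact hm
  · rw [div_le_iff₀ hA0]
    exact mul_le_mul_of_nonneg_left h1 hm

include hsum in
theorem ms_sum (n : ℕ) (g : C(K, ℝ)) (μ : WeakDual ℝ C(K, ℝ)) {m : ℝ} (hm : 0 ≤ m)
    (hm' : m ≤ max (μ g) 0) : ∑ i ∈ I n, ms I h n g μ m i = m := by
  have h1 := hm'.trans (le_A hsum n g μ)
  have hA : 0 ≤ ∑ j ∈ I n, max (μ (g * h n j)) 0 := hm.trans h1
  unfold ms
  rw [← Finset.sum_div, ← Finset.mul_sum]
  rcases hA.eq_or_lt with hA0 | hA0
  · rw [← hA0, div_zero]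
    rw [← hA0] at h1
    exact le_antisymm hm h1
  · rw [mul_div_assoc, div_self hA0.ne', mul_one]

include hsum in
/-- Comparison with a constant. -/
theorem W_const (k : ℕ) : ∀ (n : ℕ) (g : C(K, ℝ)) (μ : WeakDual ℝ C(K, ℝ)) (m : ℝ) (f : C(K, ℝ))
    (b η : ℝ), 0 ≤ m → m ≤ max (μ g) 0 → (∀ x, g x ≠ 0 → |f x - b| ≤ η) →
    |W I h k n g μ m f - m * b| ≤ m * η := by
  induction k with
  | zero =>
    intro n g μ m f b η hm hm' hf
    change |m * f (cc g) - m * b| ≤ m * η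
    by_cases hg : ∃ x, g x ≠ 0
    · rw [← mul_sub, abs_mul, abs_of_nonneg hm]
      exact mul_le_mul_of_nonneg_left (hf _ (cc_spec hg)) hm
    · push Not at hg
      have h1 : g = 0 := by ext x; exact hg x
      rw [h1, map_zero, max_self] at hm'
      have h2 : m = 0 := le_antisymm hm' hm
      rw [h2]
      simp
  | succ k ih =>
    intro n g μ m f b η hm hm' hf
    have h1 := ms_sum hsum n g μ hm hm'
    have h2 : W I h (k + 1) n g μ m f - m * b =
        ∑ i ∈ I n, (W I h k (n + 1) (g * h n i) μ (ms I h n g μ m i) f -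
          ms I h n g μ m i * b) := by
      rw [Finset.sum_sub_distrib, ← Finset.sum_mul, h1]
      rfl
    rw [h2]
    refine (Finset.abs_sum_le_sum_abs _ _).trans ?_
    calc ∑ i ∈ I n, |W I h k (n + 1) (g * h n i) μ (ms I h n g μ m i) f -
          ms I h n g μ m i * b| ≤ ∑ i ∈ I n, ms I h n g μ m i * η := by
          refine Finset.sum_le_sum fun i _ => ih (n + 1) (g * h n i) μ _ f b η
            (ms_nonneg n g μ hm i) (ms_le hsum n g μ hm hm' i) fun x hx => hf x fun h3 => hx ?_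
          change g x * h n i x = 0
          rw [h3, zero_mul]
      _ = m * η := by rw [← Finset.sum_mul, h1]

include hsum in
/-- The Cauchy estimate. -/
theorem W_cauchy (k : ℕ) : ∀ (n : ℕ) (g : C(K, ℝ)) (μ : WeakDual ℝ C(K, ℝ)) (m : ℝ)
    (f : C(K, ℝ)) (η : ℝ) (d : ℕ), 0 ≤ m → m ≤ max (μ g) 0 →
    (∀ i x y, h (n + k) i x ≠ 0 → h (n + k) i y ≠ 0 → |f x - f y| ≤ η) →
    |W I h (k + 1) n g μ m f - W I h (k + 1 + d) n g μ m f| ≤ 2 * m * η := by
  induction k with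
  | zero =>
    intro n g μ m f η d hm hm' hf
    have h1 := ms_sum hsum n g μ hm hm'
    have hd : 0 + 1 + d = d + 1 := by omega
    rw [hd]
    have h2 : W I h (0 + 1) n g μ m f - W I h (d + 1) n g μ m f =
        ∑ i ∈ I n, (W I h 0 (n + 1) (g * h n i) μ (ms I h n g μ m i) f -
          W I h d (n + 1) (g * h n i) μ (ms I h n g μ m i) f) := by
      rw [Finset.sum_sub_distrib]
      rfl
    rw [h2]
    refine (Finset.abs_sum_le_sum_abs _ _).trans ?_
    calc _ ≤ ∑ i ∈ I n, ms I h n g μ m i * (2 * η) := by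
          refine Finset.sum_le_sum fun i _ => ?_
          have h3 : ∀ x, (g * h n i) x ≠ 0 → |f x - f (cc (g * h n i))| ≤ η := by
            intro x hx
            have hx' : g x * h n i x ≠ 0 := hx
            have hc : g (cc (g * h n i)) * h n i (cc (g * h n i)) ≠ 0 := cc_spec ⟨x, hx⟩
            exact hf i x _ (right_ne_zero_of_mul hx') (right_ne_zero_of_mul hc)
          have h4 := W_const hsum 0 (n + 1) (g * h n i) μ _ f _ η (ms_nonneg n g μ hm i)
            (ms_le hsum n g μ hm hm' i) h3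
          have h5 := W_const hsum d (n + 1) (g * h n i) μ _ f _ η (ms_nonneg n g μ hm i)
            (ms_le hsum n g μ hm hm' i) h3
          rw [abs_le] at h4 h5 ⊢
          constructor <;> linarith [h4.1, h4.2, h5.1, h5.2]
      _ = 2 * m * η := by rw [← Finset.sum_mul, h1]; ring
  | succ k ih =>
    intro n g μ m f η d hm hm' hf
    have h1 := ms_sum hsum n g μ hm hm'
    have hd : k + 1 + 1 + d = (k + 1 + d) + 1 := by omega
    rw [hd]
    have h2 : W I h (k + 1 + 1) n g μ m f - W I h ((k + 1 + d) + 1) n g μ m f =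
        ∑ i ∈ I n, (W I h (k + 1) (n + 1) (g * h n i) μ (ms I h n g μ m i) f -
          W I h (k + 1 + d) (n + 1) (g * h n i) μ (ms I h n g μ m i) f) := by
      rw [Finset.sum_sub_distrib]
      rfl
    rw [h2]
    refine (Finset.abs_sum_le_sum_abs _ _).trans ?_
    calc _ ≤ ∑ i ∈ I n, 2 * ms I h n g μ m i * η := by
          refine Finset.sum_le_sum fun i _ => ih (n + 1) (g * h n i) μ _ f η d
            (ms_nonneg n g μ hm i) (ms_le hsum n g μ hm hm' i) ?_
          have h3 : n + 1 + k = n + (k + 1) := by omega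
          rw [h3]
          exact hf
      _ = 2 * m * η := by rw [← Finset.sum_mul, ← Finset.mul_sum, h1]

theorem W_add (k : ℕ) : ∀ (n : ℕ) (g : C(K, ℝ)) (μ : WeakDual ℝ C(K, ℝ)) (m : ℝ)
    (f f' : C(K, ℝ)), W I h k n g μ m (f + f') = W I h k n g μ m f + W I h k n g μ m f' := by
  induction k with
  | zero =>
    intro n g μ m f f'
    change m * (f (cc g) + f' (cc g)) = m * f (cc g) + m * f' (cc g)
    ring
  | succ k ih =>
    intro n g μ m f f'
    change ∑ i ∈ I n, _ = ∑ i ∈ I n, _ + ∑ i ∈ I n, _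
    rw [← Finset.sum_add_distrib]
    exact Finset.sum_congr rfl fun i _ => ih _ _ _ _ _ _

theorem W_smul (k : ℕ) : ∀ (n : ℕ) (g : C(K, ℝ)) (μ : WeakDual ℝ C(K, ℝ)) (m : ℝ) (c : ℝ)
    (f : C(K, ℝ)), W I h k n g μ m (c • f) = c * W I h k n g μ m f := by
  induction k with
  | zero =>
    intro n g μ m c f
    change m * (c * f (cc g)) = c * (m * f (cc g))
    ring
  | succ k ih =>
    intro n g μ m c f
    change ∑ i ∈ I n, _ = c * ∑ i ∈ I n, _
    rw [Finset.mul_sum]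
    exact Finset.sum_congr rfl fun i _ => ih _ _ _ _ _ _

theorem W_nonneg (k : ℕ) : ∀ (n : ℕ) (g : C(K, ℝ)) (μ : WeakDual ℝ C(K, ℝ)) (m : ℝ)
    (f : C(K, ℝ)), 0 ≤ m → 0 ≤ f → 0 ≤ W I h k n g μ m f := by
  induction k with
  | zero =>
    intro n g μ m f hm hf
    exact mul_nonneg hm (hf _)
  | succ k ih =>
    intro n g μ m f hm hf
    exact Finset.sum_nonneg fun i _ => ih _ _ _ _ _ (ms_nonneg n g μ hm i) hf

include hsum in
theorem W_one (k : ℕ) (n : ℕ) (g : C(K, ℝ)) (μ : WeakDual ℝ C(K, ℝ)) (m : ℝ) (hm : 0 ≤ m)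
    (hm' : m ≤ max (μ g) 0) : W I h k n g μ m 1 = m := by
  have h1 := W_const hsum k n g μ m 1 1 0 hm hm' (fun x _ => by
    change |(1 : ℝ) - 1| ≤ 0
    rw [sub_self, abs_zero])
  rw [mul_zero, mul_one] at h1
  have := abs_nonpos_iff.1 h1
  linarith

include hsum in
theorem W_abs (k : ℕ) (n : ℕ) (g : C(K, ℝ)) (μ : WeakDual ℝ C(K, ℝ)) (m : ℝ) (f : C(K, ℝ))
    (hm : 0 ≤ m) (hm' : m ≤ max (μ g) 0) : |W I h k n g μ m f| ≤ m * ‖f‖ := by
  have h1 := W_const hsum k n g μ m f 0 ‖f‖ hm hm' (fun x _ => by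
    rw [sub_zero]
    exact f.norm_coe_le_norm x)
  rwa [mul_zero, sub_zero] at h1

/-- The positive part, as a linear functional. -/
def GP (μ : WeakDual ℝ C(K, ℝ)) : C(K, ℝ) →L[ℝ] ℝ := GF (X := CK K) (WeakDual.toStrongDual μ)

theorem GP_apply (μ : WeakDual ℝ C(K, ℝ)) {f : C(K, ℝ)} (hf : 0 ≤ f) : GP μ f = posP μ f :=
  GF_apply (X := CK K) (WeakDual.toStrongDual μ) hf

theorem GP_nonneg (μ : WeakDual ℝ C(K, ℝ)) {f : C(K, ℝ)} (hf : 0 ≤ f) : 0 ≤ GP μ f :=
  GF_nonneg (X := CK K) (WeakDual.toStrongDual μ) hf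

theorem le_GP (μ : WeakDual ℝ C(K, ℝ)) {f g : C(K, ℝ)} (hg : 0 ≤ g) (hgf : g ≤ f) :
    max (μ g) 0 ≤ GP μ f := by
  refine max_le ?_ (GP_nonneg μ (hg.trans hgf))
  have h1 : GP μ f = fp (X := CK K) (WeakDual.toStrongDual μ) f :=
    GF_apply (X := CK K) (WeakDual.toStrongDual μ) (hg.trans hgf)
  rw [h1]
  exact le_fp (X := CK K) (WeakDual.toStrongDual μ) hg hgf

include hsum h0 in
/-- The upper bound. -/
theorem W_upper (k : ℕ) : ∀ (n : ℕ) (g : C(K, ℝ)) (μ : WeakDual ℝ C(K, ℝ)) (m : ℝ)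
    (f : C(K, ℝ)) (η : ℝ), 0 ≤ g → 0 ≤ m → m ≤ max (μ g) 0 → 0 ≤ f → 0 ≤ η →
    (∀ i x y, h (n + k) i x ≠ 0 → h (n + k) i y ≠ 0 → |f x - f y| ≤ η) →
    W I h (k + 1) n g μ m f ≤ GP μ (g * (f + η • 1)) := by
  induction k with
  | zero =>
    intro n g μ m f η hg hm hm' hf hη hosc
    have e1 : GP μ (g * (f + η • 1)) = ∑ i ∈ I n, GP μ ((g * h n i) * (f + η • 1)) := by
      rw [← map_sum, ← Finset.sum_mul, sum_gh hsum]
    rw [e1]
    change ∑ i ∈ I n, ms I h n g μ m i * f (cc (g * h n i)) ≤ _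
    refine Finset.sum_le_sum fun i _ => ?_
    have hfc : 0 ≤ f (cc (g * h n i)) := hf _
    calc ms I h n g μ m i * f (cc (g * h n i))
        ≤ max (μ (g * h n i)) 0 * f (cc (g * h n i)) :=
          mul_le_mul_of_nonneg_right (ms_le hsum n g μ hm hm' i) hfc
      _ = max (μ (f (cc (g * h n i)) • (g * h n i))) 0 := by
          rw [map_smul, smul_eq_mul, max_mul_of_nonneg _ _ hfc, zero_mul, mul_comm]
      _ ≤ _ := by
          refine le_GP μ (smul_nonneg hfc (mul_nonneg hg (h0 n i))) fun x => ?_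
          change f (cc (g * h n i)) * (g x * h n i x) ≤ (g x * h n i x) * (f x + η * 1)
          have h3 : 0 ≤ g x * h n i x := mul_nonneg (hg x) (h0 n i x)
          rw [mul_comm]
          rcases h3.eq_or_lt with h4 | h4
          · rw [← h4, zero_mul, zero_mul]
          · refine mul_le_mul_of_nonneg_left ?_ h3
            have hc : g (cc (g * h n i)) * h n i (cc (g * h n i)) ≠ 0 :=
              cc_spec (g := g * h n i) ⟨x, h4.ne'⟩
            have h5 := hosc i (cc (g * h n i)) x (right_ne_zero_of_mul hc)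
              (right_ne_zero_of_mul h4.ne')
            have := (abs_le.1 h5).2
            linarith
  | succ k ih =>
    intro n g μ m f η hg hm hm' hf hη hosc
    have e1 : GP μ (g * (f + η • 1)) = ∑ i ∈ I n, GP μ ((g * h n i) * (f + η • 1)) := by
      rw [← map_sum, ← Finset.sum_mul, sum_gh hsum]
    rw [e1]
    change ∑ i ∈ I n, W I h (k + 1) (n + 1) (g * h n i) μ (ms I h n g μ m i) f ≤ _
    refine Finset.sum_le_sum fun i _ => ih (n + 1) (g * h n i) μ _ f η (mul_nonneg hg (h0 n i))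
      (ms_nonneg n g μ hm i) (ms_le hsum n g μ hm hm' i) hf hη ?_
    have h3 : n + 1 + k = n + (k + 1) := by omega
    rw [h3]
    exact hosc

include hsum in
theorem ms_cont (n : ℕ) (g : C(K, ℝ)) (m : WeakDual ℝ C(K, ℝ) → ℝ) (hmc : Continuous m)
    (hm : ∀ μ, 0 ≤ m μ) (hm' : ∀ μ, m μ ≤ max (μ g) 0) {i : K} (hi : i ∈ I n) :
    Continuous fun μ => ms I h n g μ (m μ) i := by
  have ha : ∀ j, Continuous fun μ : WeakDual ℝ C(K, ℝ) => max (μ (g * h n j)) 0 := fun j =>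
    (WeakDual.eval_continuous _).max continuous_const
  have hA : Continuous fun μ : WeakDual ℝ C(K, ℝ) => ∑ j ∈ I n, max (μ (g * h n j)) 0 :=
    continuous_finsetSum _ fun j _ => ha j
  rw [continuous_iff_continuousAt]
  intro μ₀
  by_cases h1 : ∑ j ∈ I n, max (μ₀ (g * h n j)) 0 = 0
  · have h2 : m μ₀ = 0 := le_antisymm (h1 ▸ (hm' μ₀).trans (le_A hsum n g μ₀)) (hm μ₀)
    have h3 : ms I h n g μ₀ (m μ₀) i = 0 := by
      unfold ms
      rw [h1, div_zero]
    change Tendsto (fun μ => ms I h n g μ (m μ) i) (𝓝 μ₀) (𝓝 (ms I h n g μ₀ (m μ₀) i))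
    rw [h3]
    have h4 : Tendsto m (𝓝 μ₀) (𝓝 0) := by
      have := hmc.tendsto μ₀
      rwa [h2] at this
    exact squeeze_zero (fun μ => ms_nonneg n g μ (hm μ) i) (fun μ => ms_le_m n g μ (hm μ) hi) h4
  · exact ContinuousAt.div (hmc.mul (ha i)).continuousAt hA.continuousAt h1

include hsum in
theorem W_cont (f : C(K, ℝ)) (k : ℕ) : ∀ (n : ℕ) (g : C(K, ℝ)) (m : WeakDual ℝ C(K, ℝ) → ℝ),
    Continuous m → (∀ μ, 0 ≤ m μ) → (∀ μ, m μ ≤ max (μ g) 0) →
    Continuous fun μ => W I h k n g μ (m μ) f := by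
  induction k with
  | zero =>
    intro n g m hmc hm hm'
    exact hmc.mul continuous_const
  | succ k ih =>
    intro n g m hmc hm hm'
    change Continuous fun μ => ∑ i ∈ I n, W I h k (n + 1) (g * h n i) μ (ms I h n g μ (m μ) i) f
    refine continuous_finsetSum _ fun i hi => ih (n + 1) (g * h n i) _
      (ms_cont hsum n g m hmc hm hm' hi) (fun μ => ms_nonneg n g μ (hm μ) i)
      fun μ => ms_le hsum n g μ (hm μ) (hm' μ) i

end tree

/-- Compensation functions on compact metric spaces. -/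
theorem exists_comp {K : Type} [MetricSpace K] [CompactSpace K] [Nonempty K] :
    ∃ ξ : WeakDual ℝ C(K, ℝ) → WeakDual ℝ C(K, ℝ), Continuous ξ ∧
      (∀ μ f, 0 ≤ f → 0 ≤ ξ μ f) ∧ (∀ μ f, 0 ≤ f → ξ μ f ≤ posP μ f) ∧
      (∀ μ, ξ μ 1 = max (μ 1) 0) ∧ ∀ μ f, |ξ μ f| ≤ max (μ 1) 0 * ‖f‖ := by
  classical
  have hpos : ∀ n : ℕ, (0 : ℝ) < 1 / ((n : ℝ) + 1) := fun n => by positivity
  choose I h h0 hsum hdist using fun n : ℕ => exists_pou (K := K) (hpos n)
  set M : WeakDual ℝ C(K, ℝ) → ℝ := fun μ => max (μ 1) 0 with hM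
  have hM0 : ∀ μ, 0 ≤ M μ := fun μ => le_max_right _ _
  have hMle : ∀ μ, M μ ≤ max (μ 1) 0 := fun μ => le_rfl
  have hMc : Continuous M := (WeakDual.eval_continuous 1).max continuous_const
  -- small oscillation
  have hosc : ∀ (f : C(K, ℝ)) (η : ℝ), 0 < η → ∃ k₀, ∀ k ≥ k₀, ∀ i x y,
      h (0 + k) i x ≠ 0 → h (0 + k) i y ≠ 0 → |f x - f y| ≤ η := by
    intro f η hη
    obtain ⟨δ, hδ, h1⟩ := Metric.uniformContinuous_iff.1
      (CompactSpace.uniformContinuous_of_continuous f.continuous) η hη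
    obtain ⟨k₀, hk₀⟩ := exists_nat_one_div_lt hδ
    refine ⟨k₀, fun k hk i x y hx hy => ?_⟩
    rw [zero_add] at hx hy
    have h2 := hdist k i x y hx hy
    have h3 : 1 / ((k : ℝ) + 1) ≤ 1 / ((k₀ : ℝ) + 1) := by
      apply one_div_le_one_div_of_le (by positivity)
      have : (k₀ : ℝ) ≤ k := by exact_mod_cast hk
      linarith
    have h4 := h1 (h2.trans_le (h3.trans hk₀.le))
    rw [Real.dist_eq] at h4
    exact h4.le
  set V : ℕ → WeakDual ℝ C(K, ℝ) → C(K, ℝ) → ℝ := fun k μ f => W I h (k + 1) 0 1 μ (M μ) f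
    with hV
  have hcau : ∀ (f : C(K, ℝ)) (η : ℝ), 0 < η → ∃ k₀, ∀ k ≥ k₀, ∀ d μ,
      |V k μ f - V (k + d) μ f| ≤ 2 * M μ * η := by
    intro f η hη
    obtain ⟨k₀, hk₀⟩ := hosc f η hη
    refine ⟨k₀, fun k hk d μ => ?_⟩
    have h1 := W_cauchy hsum k 0 1 μ (M μ) f η d (hM0 μ) (hMle μ) (hk₀ k hk)
    have h2 : k + 1 + d = k + d + 1 := by omega
    rw [h2] at h1
    exact h1
  have hlim : ∀ μ f, ∃ l, Tendsto (fun k => V k μ f) atTop (𝓝 l) := by
    intro μ f
    apply cauchySeq_tendsto_of_complete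
    rw [Metric.cauchySeq_iff']
    intro ε hε
    obtain ⟨k₀, hk₀⟩ := hcau f (ε / (2 * M μ + 1)) (by have := hM0 μ; positivity)
    refine ⟨k₀, fun k hk => ?_⟩
    obtain ⟨d, rfl⟩ := Nat.exists_eq_add_of_le hk
    have h1 := hk₀ k₀ le_rfl d μ
    rw [dist_comm, Real.dist_eq]
    refine h1.trans_lt ?_
    have h2 := hM0 μ
    rw [mul_div_assoc', div_lt_iff₀ (by positivity)]
    nlinarith
  choose L hL using hlim
  have happ : ∀ (f : C(K, ℝ)) (η : ℝ), 0 < η → ∃ k₀, ∀ k ≥ k₀, ∀ μ,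
      |V k μ f - L μ f| ≤ 2 * M μ * η := by
    intro f η hη
    obtain ⟨k₀, hk₀⟩ := hcau f η hη
    refine ⟨k₀, fun k hk μ => ?_⟩
    have h1 : Tendsto (fun d => |V k μ f - V (k + d) μ f|) atTop (𝓝 |V k μ f - L μ f|) :=
      (((hL μ f).comp (tendsto_add_atTop_nat k)).congr (fun d => by
        change V (d + k) μ f = V (k + d) μ f
        rw [add_comm])).const_sub _ |>.abs
    exact le_of_tendsto' h1 fun d => hk₀ k hk d μ
  have hLadd : ∀ μ f f', L μ (f + f') = L μ f + L μ f' := fun μ f f' =>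
    tendsto_nhds_unique (hL μ (f + f')) (((hL μ f).add (hL μ f')).congr fun k =>
      (W_add (I := I) (h := h) (k + 1) 0 1 μ (M μ) f f').symm)
  have hLsmul : ∀ μ (c : ℝ) f, L μ (c • f) = c * L μ f := fun μ c f =>
    tendsto_nhds_unique (hL μ (c • f)) (((hL μ f).const_mul c).congr fun k =>
      (W_smul (I := I) (h := h) (k + 1) 0 1 μ (M μ) c f).symm)
  have hLabs : ∀ μ f, |L μ f| ≤ M μ * ‖f‖ := fun μ f =>
    le_of_tendsto' (hL μ f).abs fun k => W_abs hsum (k + 1) 0 1 μ (M μ) f (hM0 μ) (hMle μ)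
  have hLcont : ∀ f, Continuous fun μ => L μ f := by
    intro f
    have hVc : ∀ k, Continuous fun μ => V k μ f := fun k =>
      W_cont hsum f (k + 1) 0 1 M hMc hM0 hMle
    rw [continuous_iff_continuousAt]
    intro μ₀
    rw [Metric.continuousAt_iff']
    intro ε hε
    set B : ℝ := M μ₀ + 1 with hB
    have hB0 : 0 < B := by have := hM0 μ₀; linarith
    obtain ⟨k, hk⟩ := happ f (ε / (8 * B)) (by positivity)
    have hk' := hk k le_rfl
    have h1 : ∀ᶠ μ in 𝓝 μ₀, M μ < B := hMc.continuousAt.eventually (gt_mem_nhds (by linarith))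
    have h2 := Metric.tendsto_nhds.1 ((hVc k).tendsto μ₀) (ε / 4) (by positivity)
    filter_upwards [h1, h2] with μ hμ1 hμ2
    rw [Real.dist_eq] at hμ2 ⊢
    have h3 : ∀ ν, M ν ≤ B → |V k ν f - L ν f| ≤ ε / 4 := by
      intro ν hν
      refine (hk' ν).trans ?_
      calc 2 * M ν * (ε / (8 * B)) ≤ 2 * B * (ε / (8 * B)) := by gcongr
        _ = ε / 4 := by field_simp; ring
    have h4 := h3 μ hμ1.le
    have h5 := h3 μ₀ (by linarith)
    rw [abs_le] at h4 h5
    rw [abs_lt] at hμ2 ⊢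
    constructor <;> linarith [h4.1, h4.2, h5.1, h5.2, hμ2.1, hμ2.2]
  set ξ : WeakDual ℝ C(K, ℝ) → WeakDual ℝ C(K, ℝ) := fun μ => StrongDual.toWeakDual
    (LinearMap.mkContinuous { toFun := L μ, map_add' := hLadd μ, map_smul' := hLsmul μ }
      (M μ) (hLabs μ)) with hξ
  have hξL : ∀ μ f, ξ μ f = L μ f := fun μ f => rfl
  refine ⟨ξ, WeakDual.continuous_of_continuous_eval hLcont, fun μ f hf => ?_, fun μ f hf => ?_,
    fun μ => ?_, fun μ f => hLabs μ f⟩
  · exact ge_of_tendsto' (hL μ f) fun k => W_nonneg (k + 1) 0 1 μ (M μ) f (hM0 μ) hf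
  · rw [hξL, ← GP_apply μ hf]
    refine le_of_forall_pos_le_add fun ε hε => ?_
    set G1 : ℝ := GP μ 1 with hG1
    have hG10 : 0 ≤ G1 := GP_nonneg μ zero_le_one
    set η : ℝ := ε / (2 * M μ + G1 + 1) with hη
    have hη0 : 0 < η := by have := hM0 μ; positivity
    obtain ⟨k₁, hk₁⟩ := happ f η hη0
    obtain ⟨k₂, hk₂⟩ := hosc f η hη0
    have h1 := hk₁ (max k₁ k₂) (le_max_left _ _) μ
    have h2 := W_upper hsum h0 (max k₁ k₂) 0 1 μ (M μ) f η zero_le_one (hM0 μ) (hMle μ) hf hη0.le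
      (hk₂ _ (le_max_right _ _))
    have h3 : GP μ (1 * (f + η • 1)) = GP μ f + η * G1 := by
      rw [one_mul, map_add, map_smul]
      rfl
    rw [h3] at h2
    have h4 := (abs_le.1 h1).1
    have h5 : (2 * M μ + G1 + 1) * η = ε := by
      rw [hη]
      have := hM0 μ
      field_simp
    have h6 : V (max k₁ k₂) μ f = W I h (max k₁ k₂ + 1) 0 1 μ (M μ) f := rfl
    rw [h6] at h4
    nlinarith
  · exact tendsto_nhds_unique (hL μ 1) (tendsto_const_nhds.congr fun k =>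
      (W_one hsum (k + 1) 0 1 μ (M μ) (hM0 μ) (hMle μ)).symm)

end Pool.Agent.V1198.CP
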