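import Pool.Agent.V1198.Yos3

/-!
# Functional calculus with functions on the Hilbert cube
-/

set_option autoImplicit false
set_option linter.unusedSectionVars false

noncomputable section

open Filter Topology

namespace Pool.Agent.V1198.YS

open Pool.Agent.V1198.BL

/-- The Hilbert cube. -/
abbrev QQ : Type := ℕ → Set.Icc (-1 : ℝ) 1

instance instSolidQ : HasSolidNorm C(QQ, ℝ) where
  solid f g h := (ContinuousMap.norm_le _ (norm_nonneg _)).2 fun x =>
    (show |f x| ≤ |g x| from h x).trans (g.norm_coe_le_norm x)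

/-- The Banach lattice of continuous functions on the Hilbert cube. -/
abbrev CQ : BLat := ⟨C(QQ, ℝ)⟩

/-- The coordinate functions. -/
def co (i : ℕ) : C(QQ, ℝ) := ⟨fun t => (t i : ℝ), by fun_prop⟩

theorem co_apply (i : ℕ) (t : QQ) : co i t = (t i : ℝ) := rfl

theorem abs_co_le (i : ℕ) : |co i| ≤ (1 : C(QQ, ℝ)) := fun t => by
  change |(t i : ℝ)| ≤ 1
  exact abs_le.2 ⟨(t i).2.1, (t i).2.2⟩

/-- Stone–Weierstrass: a closed vector sublattice containing the constants and the coordinates is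
everything. -/
theorem sw (S : Set C(QQ, ℝ)) (hc : IsClosed S) (h1 : (1 : C(QQ, ℝ)) ∈ S) (hco : ∀ i, co i ∈ S)
    (hadd : ∀ f ∈ S, ∀ g ∈ S, f + g ∈ S) (hsmul : ∀ (c : ℝ), ∀ f ∈ S, c • f ∈ S)
    (habs : ∀ f ∈ S, |f| ∈ S) (f : C(QQ, ℝ)) : f ∈ S := by
  have hsub : ∀ f ∈ S, ∀ g ∈ S, f - g ∈ S := fun f hf g hg => by
    have h := hadd f hf _ (hsmul (-1) g hg)
    rwa [neg_one_smul, ← sub_eq_add_neg] at h
  have h := ContinuousMap.sublattice_closure_eq_top S ⟨1, h1⟩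
    (fun f hf g hg => by
      have e : f ⊓ g = (1 / 2 : ℝ) • (f + g - |f - g|) := inf_eq_half (A := CQ) f g
      rw [e]
      exact hsmul _ _ (hsub _ (hadd _ hf _ hg) _ (habs _ (hsub _ hf _ hg))))
    (fun f hf g hg => by
      have e : f ⊔ g = (1 / 2 : ℝ) • (f + g + |f - g|) := sup_eq_half (A := CQ) f g
      rw [e]
      exact hsmul _ _ (hadd _ (hadd _ hf _ hg) _ (habs _ (hsub _ hf _ hg))))
    (fun v x y => by
      by_cases hxy : x = y
      · refine ⟨(v x) • (1 : C(QQ, ℝ)), hsmul _ _ h1, ?_, ?_⟩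
        · simp
        · rw [← hxy]; simp
      · obtain ⟨i, hi⟩ := Function.ne_iff.1 hxy
        have hi' : (x i : ℝ) - (y i : ℝ) ≠ 0 := fun h0 => hi (Subtype.ext (sub_eq_zero.1 h0))
        refine ⟨(v x - (v x - v y) / ((x i : ℝ) - y i) * x i) • (1 : C(QQ, ℝ)) +
          ((v x - v y) / ((x i : ℝ) - y i)) • co i,
          hadd _ (hsmul _ _ h1) _ (hsmul _ _ (hco i)), ?_, ?_⟩
        · simp only [ContinuousMap.add_apply, ContinuousMap.smul_apply, ContinuousMap.one_apply,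
            co_apply, smul_eq_mul]
          ring
        · simp only [ContinuousMap.add_apply, ContinuousMap.smul_apply, ContinuousMap.one_apply,
            co_apply, smul_eq_mul]
          field_simp
          ring)
  rw [hc.closure_eq] at h
  rw [h]
  trivial

/-- Homomorphisms from `C(Q)` are determined by the images of the constants and the coordinates. -/
theorem hom_ext {Y : BLat} {S T : CQ →L[ℝ] Y} (hS : IsLatHom S) (hT : IsLatHom T)
    (h1 : S (1 : C(QQ, ℝ)) = T (1 : C(QQ, ℝ))) (hco : ∀ i, S (co i) = T (co i)) : S = T := by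
  ext f
  refine sw {f | S f = T f} (isClosed_eq S.continuous T.continuous) h1 hco ?_ ?_ ?_ f
  · intro f hf g hg
    change S (f + g) = T (f + g)
    rw [map_add, map_add, hf, hg]
  · intro c f hf
    change S (c • f) = T (c • f)
    rw [map_smul, map_smul, hf]
  · intro f hf
    change S |f| = T |f|
    rw [hS, hT, hf]

section fcalc

variable {X : BLat} {v : X} (hv : 0 ≤ v) (d : ℕ → X) (hd : ∀ i, |d i| ≤ v)
include hv hd

/-- The element `d i` of the principal ideal. -/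
def dP (i : ℕ) : PV v := ⟨d i, 1, by rw [one_smul]; exact hd i⟩

theorem dP_le (i : ℕ) : |dP d hd i| ≤ uu v hv := hd i

theorem hom_dP {φ : PV v →ₗ[ℝ] ℝ} (hφ : IsHom (uu v hv) φ) (i : ℕ) :
    φ (dP d hd i) ∈ Set.Icc (-1 : ℝ) 1 := by
  have h := hφ.mono (dP_le hv d hd i)
  rw [hφ.abs, hφ.unit] at h
  exact abs_le.1 h

/-- The point of the cube corresponding to a homomorphism. -/
def pt {φ : PV v →ₗ[ℝ] ℝ} (hφ : IsHom (uu v hv) φ) : QQ := fun i =>
  ⟨φ (dP d hd i), hom_dP hv d hd hφ i⟩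

theorem exists_calcP (f : C(QQ, ℝ)) : ∃ y : PV v, ∀ (φ : PV v →ₗ[ℝ] ℝ)
    (hφ : IsHom (uu v hv) φ), φ y = f (pt hv d hd hφ) := by
  refine sw {f | ∃ y : PV v, ∀ (φ : PV v →ₗ[ℝ] ℝ) (hφ : IsHom (uu v hv) φ),
    φ y = f (pt hv d hd hφ)} ?_ ?_ ?_ ?_ ?_ ?_ f
  · refine isClosed_of_closure_subset fun f hf => ?_
    have hex : ∀ n : ℕ, ∃ g : C(QQ, ℝ), (∃ y : PV v, ∀ (φ : PV v →ₗ[ℝ] ℝ)
        (hφ : IsHom (uu v hv) φ), φ y = g (pt hv d hd hφ)) ∧ ‖f - g‖ < (1 / 2 : ℝ) ^ n := by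
      intro n
      obtain ⟨g, hg, hfg⟩ := Metric.mem_closure_iff.1 hf ((1 / 2 : ℝ) ^ n) (by positivity)
      exact ⟨g, hg, by rwa [← dist_eq_norm]⟩
    choose g hg hfg using hex
    choose y hy using hg
    have hle : ∀ m n, |y m - y n| ≤ ((1 / 2 : ℝ) ^ m + (1 / 2 : ℝ) ^ n) • uu v hv := by
      intro m n
      refine PV.le_of_hom hv fun φ hφ => ?_
      rw [hφ.abs, map_sub, hy m φ hφ, hy n φ hφ, map_smul, hφ.unit, smul_eq_mul, mul_one]
      have h1 := (f - g m).norm_coe_le_norm (pt hv d hd hφ)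
      have h2 := (f - g n).norm_coe_le_norm (pt hv d hd hφ)
      have h3 := (h1.trans (hfg m).le)
      have h4 := (h2.trans (hfg n).le)
      rw [ContinuousMap.sub_apply, Real.norm_eq_abs] at h3 h4
      rw [abs_le] at h3 h4 ⊢
      constructor <;> linarith [h3.1, h3.2, h4.1, h4.2]
    have hcau : CauchySeq (fun n => (y n).1) := by
      refine cauchySeq_of_le_geometric (1 / 2) (2 * ‖v‖) (by norm_num) fun n => ?_
      rw [dist_eq_norm]
      have h1 : |(y n).1 - (y (n + 1)).1| ≤ ((1 / 2 : ℝ) ^ n + (1 / 2 : ℝ) ^ (n + 1)) • v :=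
        hle n (n + 1)
      rw [← norm_abs_eq_norm]
      refine (norm_mono' (abs_nonneg _) h1).trans ?_
      rw [norm_smul, Real.norm_eq_abs, abs_of_nonneg (by positivity), pow_succ]
      have h2 : (0 : ℝ) ≤ (1 / 2 : ℝ) ^ n := by positivity
      nlinarith [norm_nonneg v, mul_nonneg h2 (norm_nonneg v)]
    obtain ⟨z, hz⟩ := cauchySeq_tendsto_of_complete hcau
    have hzle : ∀ n, |z - (y n).1| ≤ ((1 / 2 : ℝ) ^ n) • v := by
      intro n
      have h1 : Tendsto (fun m => |(y m).1 - (y n).1|) atTop (𝓝 |z - (y n).1|) := by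
        have h2 := hz.sub_const (y n).1
        exact h2.sup_nhds h2.neg
      have h2 : Tendsto (fun m : ℕ => ((1 / 2 : ℝ) ^ m + (1 / 2 : ℝ) ^ n) • v) atTop
          (𝓝 ((0 + (1 / 2 : ℝ) ^ n) • v)) :=
        ((tendsto_pow_atTop_nhds_zero_of_lt_one (by norm_num) (by norm_num)).add_const
          _).smul_const v
      rw [zero_add] at h2
      exact le_of_tendsto_of_tendsto' h1 h2 fun m => hle m n
    have hzP : z ∈ pI v := by
      have h1 : z - (y 0).1 ∈ pI v := ⟨(1 / 2 : ℝ) ^ 0, hzle 0⟩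
      have h2 := (pI v).add_mem h1 (y 0).2
      rwa [sub_add_cancel] at h2
    let zP : PV v := ⟨z, hzP⟩
    refine ⟨zP, fun φ hφ => ?_⟩
    have hb : ∀ n : ℕ, |φ zP - f (pt hv d hd hφ)| ≤ 2 * (1 / 2 : ℝ) ^ n := by
      intro n
      have h1 : |zP - y n| ≤ ((1 / 2 : ℝ) ^ n) • uu v hv := hzle n
      have h2 := hφ.mono h1
      rw [hφ.abs, map_sub, map_smul, hφ.unit, smul_eq_mul, mul_one, hy n φ hφ] at h2
      have h3 := ((f - g n).norm_coe_le_norm (pt hv d hd hφ)).trans (hfg n).le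
      rw [ContinuousMap.sub_apply, Real.norm_eq_abs] at h3
      rw [abs_le] at h2 h3 ⊢
      constructor <;> linarith [h2.1, h2.2, h3.1, h3.2]
    have hlim : Tendsto (fun n : ℕ => 2 * (1 / 2 : ℝ) ^ n) atTop (𝓝 (2 * 0)) :=
      (tendsto_pow_atTop_nhds_zero_of_lt_one (by norm_num) (by norm_num)).const_mul 2
    rw [mul_zero] at hlim
    have h2 := abs_nonpos_iff.1 (ge_of_tendsto' hlim hb)
    exact sub_eq_zero.1 h2
  · exact ⟨uu v hv, fun φ hφ => by rw [hφ.unit]; rfl⟩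
  · exact fun i => ⟨dP d hd i, fun φ hφ => rfl⟩
  · rintro f ⟨y, hy⟩ g ⟨z, hz⟩
    exact ⟨y + z, fun φ hφ => by rw [map_add, hy φ hφ, hz φ hφ]; rfl⟩
  · rintro c f ⟨y, hy⟩
    exact ⟨c • y, fun φ hφ => by rw [map_smul, hy φ hφ]; rfl⟩
  · rintro f ⟨y, hy⟩
    exact ⟨|y|, fun φ hφ => by rw [hφ.abs, hy φ hφ, ContinuousMap.abs_apply]⟩

/-- Functional calculus. -/
theorem exists_calc : ∃ ψ : CQ →L[ℝ] X, IsLatHom ψ ∧ ψ (1 : C(QQ, ℝ)) = v ∧
    ∀ i, ψ (co i) = d i := by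
  choose F hF using exists_calcP hv d hd
  let L : C(QQ, ℝ) →ₗ[ℝ] PV v :=
    { toFun := F
      map_add' := fun f g => PV.eq_of_hom hv fun φ hφ => by
        rw [map_add, hF _ φ hφ, hF _ φ hφ, hF _ φ hφ]; rfl
      map_smul' := fun c f => PV.eq_of_hom hv fun φ hφ => by
        rw [RingHom.id_apply, map_smul, hF _ φ hφ, hF _ φ hφ]; rfl }
  have hL : ∀ f (φ : PV v →ₗ[ℝ] ℝ) (hφ : IsHom (uu v hv) φ), φ (L f) = f (pt hv d hd hφ) := hF
  let ψ : CQ →L[ℝ] X := LinearMap.mkContinuous ((inc v).comp L) ‖v‖ fun f => by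
    have h1 : |L f| ≤ ‖f‖ • uu v hv := PV.le_of_hom hv fun φ hφ => by
      rw [hφ.abs, hL f φ hφ, map_smul, hφ.unit, smul_eq_mul, mul_one]
      exact f.norm_coe_le_norm _
    have h2 : |(L f).1| ≤ ‖f‖ • v := h1
    change ‖(L f).1‖ ≤ _
    rw [← norm_abs_eq_norm]
    refine (norm_mono' (abs_nonneg _) h2).trans ?_
    rw [norm_smul, norm_norm, mul_comm]
  refine ⟨ψ, fun f => ?_, ?_, fun i => ?_⟩
  · have h1 : L |f| = |L f| := PV.eq_of_hom hv fun φ hφ => by
      rw [hφ.abs, hL f φ hφ, hL _ φ hφ, ContinuousMap.abs_apply]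
    change (L |f|).1 = |(L f).1|
    rw [h1]
    rfl
  · have h1 : L 1 = uu v hv := PV.eq_of_hom hv fun φ hφ => by
      rw [hL _ φ hφ, hφ.unit]; rfl
    change (L 1).1 = v
    rw [h1]
    rfl
  · have h1 : L (co i) = dP d hd i := PV.eq_of_hom hv fun φ hφ => by
      rw [hL _ φ hφ]; rfl
    change (L (co i)).1 = d i
    rw [h1]
    rfl

end fcalc

end Pool.Agent.V1198.YS
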