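import Mathlib

/-!
# Difference property: preliminaries
-/

set_option autoImplicit false
set_option linter.unusedSectionVars false

noncomputable section

open Filter Topology MeasureTheory Set

namespace Pool.Agent.V1198.DP

/-! ### The exponential -/

/-- `e^{ix}` -/
def ex (x : ℝ) : ℂ := Complex.exp (Complex.I * x)

theorem norm_ex (x : ℝ) : ‖ex x‖ = 1 := by
  unfold ex
  rw [mul_comm]
  exact Complex.norm_exp_ofReal_mul_I x

theorem ex_add (x y : ℝ) : ex (x + y) = ex x * ex y := by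
  unfold ex
  rw [← Complex.exp_add]
  push_cast
  ring_nf

theorem ex_zero : ex 0 = 1 := by simp [ex]

theorem ex_pi : ex Real.pi = -1 := by
  unfold ex
  rw [mul_comm]
  exact Complex.exp_pi_mul_I

theorem ex_neg_mul (x : ℝ) : ex (-x) * ex x = 1 := by
  rw [← ex_add, neg_add_cancel, ex_zero]

theorem ex_neg_pi : ex (-Real.pi) = -1 := by
  have h := ex_neg_mul Real.pi
  rw [ex_pi] at h
  linear_combination -h

theorem ex_lip (x y : ℝ) : ‖ex x - ex y‖ ≤ |x - y| := by
  have h : ex x - ex y = ex y * (ex (x - y) - 1) := by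
    rw [mul_sub, mul_one, ← ex_add]
    congr 2
    ring
  rw [h, norm_mul, norm_ex, one_mul]
  exact Real.norm_exp_I_mul_ofReal_sub_one_le

theorem continuous_ex : Continuous ex := by
  unfold ex
  fun_prop

/-! ### Uniformly continuous functions -/

variable {X : Type} [NormedAddCommGroup X] [NormedSpace ℂ X]

/-- Growth of uniformly continuous functions on a convex set. -/
theorem growth {J : Set ℝ} (hJ : Convex ℝ J) {v : ℝ → X} (hv : UniformContinuousOn v J) :
    ∃ L : ℝ, 0 ≤ L ∧ ∀ t ∈ J, ∀ t' ∈ J, ‖v t - v t'‖ ≤ L * (1 + |t - t'|) := by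
  obtain ⟨δ, hδ, h⟩ := Metric.uniformContinuousOn_iff.1 hv 1 one_pos
  have key : ∀ n : ℕ, ∀ t ∈ J, ∀ t' ∈ J, |t - t'| ≤ n * (δ / 2) → ‖v t - v t'‖ ≤ n := by
    intro n
    induction n with
    | zero =>
      intro t _ t' _ h1
      have h2 : t = t' := by
        have : |t - t'| ≤ 0 := by simpa using h1
        exact sub_eq_zero.1 (abs_nonpos_iff.1 this)
      simp [h2]
    | succ n ih =>
      intro t ht t' ht' h1
      set c : ℝ := (n : ℝ) / (n + 1) with hc
      have hn : (0 : ℝ) < (n : ℝ) + 1 := by positivity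
      have hc0 : 0 ≤ c := by positivity
      have hc1 : c ≤ 1 := by rw [hc, div_le_one hn]; linarith
      have hm : t + c * (t' - t) ∈ J := by
        have := hJ.add_smul_sub_mem ht ht' ⟨hc0, hc1⟩
        simpa using this
      push_cast at h1 ⊢
      have h2 : |t - (t + c * (t' - t))| ≤ n * (δ / 2) := by
        have : t - (t + c * (t' - t)) = c * (t - t') := by ring
        rw [this, abs_mul, abs_of_nonneg hc0]
        calc c * |t - t'| ≤ c * (((n : ℝ) + 1) * (δ / 2)) := mul_le_mul_of_nonneg_left h1 hc0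
          _ = n * (δ / 2) := by rw [hc]; field_simp
      have h3 : |t + c * (t' - t) - t'| ≤ δ / 2 := by
        have : t + c * (t' - t) - t' = (1 - c) * (t - t') := by ring
        rw [this, abs_mul, abs_of_nonneg (by linarith)]
        calc (1 - c) * |t - t'| ≤ (1 - c) * (((n : ℝ) + 1) * (δ / 2)) :=
              mul_le_mul_of_nonneg_left h1 (by linarith)
          _ = δ / 2 := by rw [hc]; field_simp; ring
      have h4 := ih t ht _ hm h2
      have h5 := h _ hm t' ht' (by rw [Real.dist_eq]; linarith)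
      rw [dist_eq_norm] at h5
      calc ‖v t - v t'‖ = ‖(v t - v (t + c * (t' - t))) + (v (t + c * (t' - t)) - v t')‖ := by
            rw [sub_add_sub_cancel]
        _ ≤ _ := (norm_add_le _ _).trans (by linarith)
  refine ⟨1 + 2 / δ, by positivity, fun t ht t' ht' => ?_⟩
  have h1 := key (⌈|t - t'| / (δ / 2)⌉₊) t ht t' ht' (by
    rw [← div_le_iff₀ (by positivity)]
    exact Nat.le_ceil _)
  have h3 : |t - t'| / (δ / 2) = (2 / δ) * |t - t'| := by field_simp
  have h2 : (⌈|t - t'| / (δ / 2)⌉₊ : ℝ) < (2 / δ) * |t - t'| + 1 := by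
    have : (⌈|t - t'| / (δ / 2)⌉₊ : ℝ) < |t - t'| / (δ / 2) + 1 :=
      Nat.ceil_lt_add_one (by positivity)
    linarith
  have h4 : 0 ≤ 2 / δ := by positivity
  nlinarith [abs_nonneg (t - t')]

theorem uc_smul {S : Set ℝ} {a : ℝ → ℂ} {v : ℝ → X} (ha : UniformContinuousOn a S)
    (ha1 : ∀ t ∈ S, ‖a t‖ ≤ 1) (hv : UniformContinuousOn v S) {M : ℝ} (hM : ∀ t ∈ S, ‖v t‖ ≤ M) :
    UniformContinuousOn (fun t => a t • v t) S := by
  rw [Metric.uniformContinuousOn_iff] at ha hv ⊢
  intro ε hε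
  have hM' : 0 < |M| + 1 := by positivity
  obtain ⟨δ₁, hδ₁, h₁⟩ := ha (ε / 2 / (|M| + 1)) (by positivity)
  obtain ⟨δ₂, hδ₂, h₂⟩ := hv (ε / 2) (by positivity)
  refine ⟨min δ₁ δ₂, lt_min hδ₁ hδ₂, fun t ht t' ht' h => ?_⟩
  have h3 := h₁ t ht t' ht' (h.trans_le (min_le_left _ _))
  have h4 := h₂ t ht t' ht' (h.trans_le (min_le_right _ _))
  rw [dist_eq_norm] at h3 h4 ⊢
  have h5 : a t • v t - a t' • v t' = a t • (v t - v t') + (a t - a t') • v t' := by
    rw [smul_sub, sub_smul]; abel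
  rw [h5]
  refine (norm_add_le _ _).trans_lt ?_
  rw [norm_smul, norm_smul]
  rw [lt_div_iff₀ hM'] at h3
  have h6 : ‖a t‖ * ‖v t - v t'‖ ≤ ‖v t - v t'‖ := mul_le_of_le_one_left (norm_nonneg _) (ha1 t ht)
  have h7 : ‖a t - a t'‖ * ‖v t'‖ ≤ ‖a t - a t'‖ * (|M| + 1) :=
    mul_le_mul_of_nonneg_left ((hM t' ht').trans (by linarith [le_abs_self M])) (norm_nonneg _)
  linarith

theorem uc_ex_lin (S : Set ℝ) (p q : ℝ) : UniformContinuousOn (fun t => ex (p * t + q)) S := by
  rw [Metric.uniformContinuousOn_iff]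
  intro ε hε
  refine ⟨ε / (|p| + 1), by positivity, fun t _ t' _ h => ?_⟩
  rw [dist_eq_norm]
  refine (ex_lip _ _).trans_lt ?_
  rw [Real.dist_eq, lt_div_iff₀ (by positivity)] at h
  have : p * t + q - (p * t' + q) = p * (t - t') := by ring
  rw [this, abs_mul]
  nlinarith [abs_nonneg (t - t'), abs_nonneg p]

/-- Patching uniform continuity. -/
theorem uc_patch {J : Set ℝ} {F : ℝ → X} {a b : ℝ} (hab : a < b)
    (h1 : UniformContinuousOn F (J ∩ Iic b)) (h2 : UniformContinuousOn F (J ∩ Ici a)) :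
    UniformContinuousOn F J := by
  rw [Metric.uniformContinuousOn_iff] at h1 h2 ⊢
  intro ε hε
  obtain ⟨δ₁, hδ₁, h₁⟩ := h1 ε hε
  obtain ⟨δ₂, hδ₂, h₂⟩ := h2 ε hε
  refine ⟨min (min δ₁ δ₂) (b - a), lt_min (lt_min hδ₁ hδ₂) (by linarith), fun t ht t' ht' h => ?_⟩
  have h3 := h.trans_le (min_le_right _ _)
  have h4 := (h.trans_le (min_le_left _ _)).trans_le (min_le_left _ _)
  have h5 := (h.trans_le (min_le_left _ _)).trans_le (min_le_right _ _)
  rw [Real.dist_eq] at h3
  have h6 := abs_lt.1 h3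
  by_cases hc : t ≤ b ∧ t' ≤ b
  · exact h₁ t ⟨ht, hc.1⟩ t' ⟨ht', hc.2⟩ h4
  · have h7 : a ≤ t ∧ a ≤ t' := by
      by_contra hcon
      rw [not_and_or, not_le, not_le] at hcon hc
      rcases hcon with h8 | h8 <;> rcases hc with h9 | h9 <;> linarith [h6.1, h6.2]
    exact h₂ t ⟨ht, h7.1⟩ t' ⟨ht', h7.2⟩ h5

/-- The point `√(t²+π)`. -/
def sg (t : ℝ) : ℝ := Real.sqrt (t ^ 2 + Real.pi)

theorem sg_sq (t : ℝ) : sg t ^ 2 = t ^ 2 + Real.pi :=
  Real.sq_sqrt (by positivity)

theorem continuous_sg : Continuous sg := by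
  unfold sg
  fun_prop

theorem le_sg (t : ℝ) : t ≤ sg t := Real.le_sqrt_of_sq_le (by linarith [Real.pi_pos])

theorem sg_sub_le {t : ℝ} (ht : 0 < t) : sg t - t ≤ 2 / t := by
  have h1 := le_sg t
  have h2 : (sg t - t) * (sg t + t) = Real.pi := by
    have := sg_sq t
    ring_nf
    ring_nf at this
    linarith
  rw [le_div_iff₀ ht]
  have h3 := Real.pi_le_four
  nlinarith

theorem ex_sg (t : ℝ) : ex (sg t ^ 2) = -ex (t ^ 2) := by
  rw [sg_sq, ex_add, ex_pi]
  ring

/-- The key boundedness lemma. -/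
theorem bounded_of_rel {T β : ℝ} (hβ : β ≠ 0) {x y z : ℝ → X}
    (hx : UniformContinuousOn x (Ici T)) (hy : UniformContinuousOn y (Ici T))
    (hz : UniformContinuousOn z (Ici T))
    (h : ∀ t, T ≤ t → z t = ex (t ^ 2) • (y t - ex (2 * β * t + β ^ 2) • x t)) :
    ∃ M : ℝ, ∀ t, T ≤ t → ‖x t‖ ≤ M := by
  obtain ⟨Lx, hLx0, hLx⟩ := growth (convex_Ici T) hx
  obtain ⟨Ly, hLy0, hLy⟩ := growth (convex_Ici T) hy
  obtain ⟨Lz, hLz0, hLz⟩ := growth (convex_Ici T) hz
  set w : ℝ → X := fun t => y t - ex (2 * β * t + β ^ 2) • x t with hw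
  set T₁ := max T 1 with hT₁
  have hTT : T ≤ T₁ := le_max_left _ _
  have h1T : 1 ≤ T₁ := le_max_right _ _
  set A := ‖x T‖ + Lx * (4 + |T|) with hA
  set K := (3 * Lz + 3 * Ly + 3 * Lx + 2 * |β| * (2 * (A + Lx))) / 2 with hK
  have hxg : ∀ t, T ≤ t → ‖x t‖ ≤ ‖x T‖ + Lx * (1 + (t - T)) := by
    intro t ht
    have h1 := hLx t ht T (le_refl T)
    rw [abs_of_nonneg (by linarith)] at h1
    calc ‖x t‖ = ‖(x t - x T) + x T‖ := by rw [sub_add_cancel]
      _ ≤ ‖x t - x T‖ + ‖x T‖ := norm_add_le _ _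
      _ ≤ _ := by linarith
  have hwK : ∀ t, T₁ ≤ t → ‖w t‖ ≤ K := by
    intro t ht
    have htT : T ≤ t := hTT.trans ht
    have ht1 : 1 ≤ t := h1T.trans ht
    have ht0 : 0 < t := by linarith
    have hs := le_sg t
    have hs2 := sg_sub_le ht0
    have hs3 : 2 / t ≤ 2 := by rw [div_le_iff₀ ht0]; linarith
    have hsT : T ≤ sg t := htT.trans hs
    have habs : |t - sg t| = sg t - t := by rw [abs_sub_comm, abs_of_nonneg (by linarith)]
    have h1 : ‖w t + w (sg t)‖ ≤ 3 * Lz := by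
      have h2 : z t - z (sg t) = ex (t ^ 2) • (w t + w (sg t)) := by
        rw [h t htT, h _ hsT, ex_sg, neg_smul, sub_neg_eq_add, smul_add]
      have h3 := hLz t htT (sg t) hsT
      rw [h2, norm_smul, norm_ex, one_mul, habs] at h3
      nlinarith
    have h2 : ‖w t - w (sg t)‖ ≤ 3 * Ly + 3 * Lx + 2 * |β| * (2 * (A + Lx)) := by
      have h3 : w t - w (sg t) = (y t - y (sg t)) - (ex (2 * β * sg t + β ^ 2) • (x t - x (sg t)) +
          (ex (2 * β * t + β ^ 2) - ex (2 * β * sg t + β ^ 2)) • x t) := by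
        simp only [hw, smul_sub, sub_smul]
        abel
      rw [h3]
      have h4 := hLy t htT (sg t) hsT
      have h5 := hLx t htT (sg t) hsT
      rw [habs] at h4 h5
      have h6 : ‖(ex (2 * β * t + β ^ 2) - ex (2 * β * sg t + β ^ 2)) • x t‖ ≤
          2 * |β| * (2 * (A + Lx)) := by
        rw [norm_smul]
        have h7 := ex_lip (2 * β * t + β ^ 2) (2 * β * sg t + β ^ 2)
        have h8 : |2 * β * t + β ^ 2 - (2 * β * sg t + β ^ 2)| = 2 * |β| * (sg t - t) := by
          have : 2 * β * t + β ^ 2 - (2 * β * sg t + β ^ 2) = 2 * β * (t - sg t) := by ring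
          rw [this, abs_mul, abs_mul, habs]
          norm_num
        rw [h8] at h7
        have h9 : (sg t - t) * ‖x t‖ ≤ 2 * (A + Lx) := by
          have h10 : ‖x t‖ ≤ A + Lx * t := by
            refine (hxg t htT).trans ?_
            rw [hA]
            nlinarith [neg_abs_le T]
          have hA0 : 0 ≤ A := by positivity
          calc (sg t - t) * ‖x t‖ ≤ (2 / t) * (A + Lx * t) :=
                mul_le_mul hs2 h10 (norm_nonneg _) (by positivity)
            _ = 2 * (A / t + Lx) := by field_simp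
            _ ≤ 2 * (A + Lx) := by
                have : A / t ≤ A := div_le_self hA0 ht1
                linarith
        calc ‖ex (2 * β * t + β ^ 2) - ex (2 * β * sg t + β ^ 2)‖ * ‖x t‖
            ≤ (2 * |β| * (sg t - t)) * ‖x t‖ := mul_le_mul_of_nonneg_right h7 (norm_nonneg _)
          _ = 2 * |β| * ((sg t - t) * ‖x t‖) := by ring
          _ ≤ _ := mul_le_mul_of_nonneg_left h9 (by positivity)
      refine (norm_sub_le _ _).trans ?_
      have h7 := norm_add_le (ex (2 * β * sg t + β ^ 2) • (x t - x (sg t)))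
        ((ex (2 * β * t + β ^ 2) - ex (2 * β * sg t + β ^ 2)) • x t)
      rw [norm_smul, norm_ex, one_mul] at h7
      nlinarith
    have h3 : (2 : ℝ) • w t = (w t + w (sg t)) + (w t - w (sg t)) := by
      rw [two_smul]; abel
    have h4 : 2 * ‖w t‖ = ‖(w t + w (sg t)) + (w t - w (sg t))‖ := by
      rw [← h3, norm_smul]; norm_num
    have h5 := norm_add_le (w t + w (sg t)) (w t - w (sg t))
    rw [hK]
    linarith
  set δ := Real.pi / (2 * |β|) with hδ
  have hδ0 : 0 < δ := by positivity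
  have hex : ex (2 * β * δ) = -1 := by
    rcases lt_or_gt_of_ne hβ with h1 | h1
    · have : 2 * β * δ = -Real.pi := by rw [hδ, abs_of_neg h1]; field_simp
      rw [this, ex_neg_pi]
    · have : 2 * β * δ = Real.pi := by rw [hδ, abs_of_pos h1]; field_simp
      rw [this, ex_pi]
  refine ⟨max (‖x T‖ + Lx * (1 + (T₁ - T))) ((Ly * (1 + δ) + 2 * K + Lx * (1 + δ)) / 2),
    fun t ht => ?_⟩
  rcases le_total t T₁ with h1 | h1
  · refine (hxg t ht).trans (le_trans ?_ (le_max_left _ _))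
    nlinarith
  · refine le_trans ?_ (le_max_right _ _)
    have htδ : T ≤ t + δ := by linarith
    have h2 : ex (2 * β * (t + δ) + β ^ 2) = -ex (2 * β * t + β ^ 2) := by
      have : 2 * β * (t + δ) + β ^ 2 = (2 * β * t + β ^ 2) + 2 * β * δ := by ring
      rw [this, ex_add, hex]
      ring
    have h3 : ex (2 * β * t + β ^ 2) • (x t + x (t + δ)) =
        (y t - y (t + δ)) - w t + w (t + δ) := by
      simp only [hw]
      rw [h2, neg_smul, smul_add]
      abel
    have h4 : ‖x t + x (t + δ)‖ ≤ Ly * (1 + δ) + 2 * K := by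
      have h5 : ‖x t + x (t + δ)‖ = ‖(y t - y (t + δ)) - w t + w (t + δ)‖ := by
        rw [← h3, norm_smul, norm_ex, one_mul]
      rw [h5]
      have h6 := hLy t ht (t + δ) htδ
      have h7 : |t - (t + δ)| = δ := by
        rw [abs_sub_comm, add_sub_cancel_left, abs_of_pos hδ0]
      rw [h7] at h6
      have h8 := hwK t h1
      have h9 := hwK (t + δ) (by linarith)
      have h10 := norm_add_le ((y t - y (t + δ)) - w t) (w (t + δ))
      have h11 := norm_sub_le (y t - y (t + δ)) (w t)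
      linarith
    have h5 := hLx t ht (t + δ) htδ
    have h7 : |t - (t + δ)| = δ := by
      rw [abs_sub_comm, add_sub_cancel_left, abs_of_pos hδ0]
    rw [h7] at h5
    have h8 : (2 : ℝ) • x t = (x t + x (t + δ)) + (x t - x (t + δ)) := by
      rw [two_smul]; abel
    have h9 : 2 * ‖x t‖ = ‖(x t + x (t + δ)) + (x t - x (t + δ))‖ := by
      rw [← h8, norm_smul]; norm_num
    have h10 := norm_add_le (x t + x (t + δ)) (x t - x (t + δ))
    linarith

end Pool.Agent.V1198.DP
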