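import Pool.Agent.V1198.DP1

/-!
# Difference property: continuity of locally integrable functions with continuous differences
-/

set_option autoImplicit false
set_option linter.unusedSectionVars false

noncomputable section

open Filter Topology MeasureTheory Set
open scoped ENNReal

namespace Pool.Agent.V1198.DP

variable {X : Type} [NormedAddCommGroup X] [NormedSpace ℂ X]

/-- Continuity of translations in `L₁`. -/
theorem translation {f : ℝ → X} (hf : Integrable f) {ε : ℝ≥0∞} (hε : ε ≠ 0) :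
    ∃ δ : ℝ, 0 < δ ∧ ∀ r : ℝ, |r| < δ → ∫⁻ x, ‖f (x + r) - f x‖ₑ < ε := by
  rcases eq_or_ne ε ⊤ with rfl | hεt
  · refine ⟨1, one_pos, fun r _ => ?_⟩
    have : Integrable fun x => f (x + r) - f x := (hf.comp_add_right r).sub hf
    exact this.2
  set η := ε / 4 with hη
  have hη0 : η ≠ 0 := (ENNReal.div_pos hε (by norm_num)).ne'
  have hηt : η ≠ ⊤ := (ENNReal.div_lt_top hεt (by norm_num)).ne
  obtain ⟨g, hgs, hfg, hgc, hgi⟩ := hf.exists_hasCompactSupport_lintegral_sub_le hη0
  obtain ⟨R, hR⟩ := hgs.isCompact.isBounded.subset_closedBall (0 : ℝ)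
  have hguc : UniformContinuous g := hgs.uniformContinuous_of_continuous hgc
  set V : ℝ≥0∞ := volume (Metric.closedBall (0 : ℝ) (R + 1)) with hV
  have hVt : V ≠ ⊤ := (isCompact_closedBall _ _).measure_lt_top.ne
  obtain ⟨c, hc, hcV⟩ : ∃ c : ℝ, 0 < c ∧ ENNReal.ofReal c * V ≤ η := by
    refine ⟨η.toReal / (V.toReal + 1), div_pos (ENNReal.toReal_pos hη0 hηt) (by positivity), ?_⟩
    rw [← ENNReal.ofReal_toReal hVt, ← ENNReal.ofReal_mul (by positivity),
      ← ENNReal.ofReal_toReal hηt]
    refine ENNReal.ofReal_le_ofReal ?_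
    rw [ENNReal.toReal_ofReal (by positivity), ENNReal.toReal_ofReal (by positivity),
      div_mul_eq_mul_div, div_le_iff₀ (by positivity)]
    nlinarith [ENNReal.toReal_nonneg (a := η), ENNReal.toReal_nonneg (a := V)]
  obtain ⟨δ, hδ, hδg⟩ := Metric.uniformContinuous_iff.1 hguc c hc
  refine ⟨min δ 1, lt_min hδ one_pos, fun r hr => ?_⟩
  have h1 : ∫⁻ x, ‖f (x + r) - g (x + r)‖ₑ ≤ η := by
    rw [lintegral_add_right_eq_self (fun x => ‖f x - g x‖ₑ) r]
    exact hfg
  have h2 : ∫⁻ x, ‖g x - f x‖ₑ ≤ η := by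
    simp only [enorm_sub_rev (g _)]
    exact hfg
  have h3 : ∫⁻ x, ‖g (x + r) - g x‖ₑ ≤ η := by
    have h4 : ∀ x, ‖g (x + r) - g x‖ₑ ≤
        (Metric.closedBall (0 : ℝ) (R + 1)).indicator (fun _ => ENNReal.ofReal c) x := by
      intro x
      by_cases hx : x ∈ Metric.closedBall (0 : ℝ) (R + 1)
      · rw [indicator_of_mem hx]
        rw [← ofReal_norm]
        refine ENNReal.ofReal_le_ofReal ?_
        rw [← dist_eq_norm]
        refine (hδg ?_).le
        rw [Real.dist_eq, add_sub_cancel_left]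
        exact hr.trans_le (min_le_left _ _)
      · rw [indicator_of_notMem hx]
        have hx1 : R + 1 < |x| := by simpa using hx
        have hr1 : |r| < 1 := hr.trans_le (min_le_right _ _)
        have hz : ∀ y, R < |y| → g y = 0 := by
          intro y hy
          by_contra hne
          have := hR (subset_tsupport g hne)
          rw [mem_closedBall_zero_iff, Real.norm_eq_abs] at this
          linarith
        have h5 : R < |x + r| := by
          have := abs_sub_abs_le_abs_sub x (-r)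
          rw [abs_neg, sub_neg_eq_add] at this
          linarith
        rw [hz _ h5, hz x (by linarith), sub_zero, enorm_zero]
    calc ∫⁻ x, ‖g (x + r) - g x‖ₑ ≤ ∫⁻ x, (Metric.closedBall (0 : ℝ) (R + 1)).indicator
          (fun _ => ENNReal.ofReal c) x := lintegral_mono h4
      _ = ENNReal.ofReal c * V := by
          rw [lintegral_indicator Metric.isClosed_closedBall.measurableSet, setLIntegral_const]
      _ ≤ η := hcV
  have hmf : AEStronglyMeasurable (fun x => f (x + r) - g (x + r)) volume :=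
    ((hf.comp_add_right r).sub (hgi.comp_add_right r)).1
  have hmg : AEStronglyMeasurable (fun x => g (x + r) - g x) volume :=
    ((hgi.comp_add_right r).sub hgi).1
  calc ∫⁻ x, ‖f (x + r) - f x‖ₑ
      ≤ ∫⁻ x, (‖f (x + r) - g (x + r)‖ₑ + (‖g (x + r) - g x‖ₑ + ‖g x - f x‖ₑ)) := by
        refine lintegral_mono fun x => ?_
        have : f (x + r) - f x = (f (x + r) - g (x + r)) + ((g (x + r) - g x) + (g x - f x)) := by
          abel
        rw [this]
        exact (enorm_add_le _ _).trans (by gcongr; exact enorm_add_le _ _)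
    _ = (∫⁻ x, ‖f (x + r) - g (x + r)‖ₑ) + ((∫⁻ x, ‖g (x + r) - g x‖ₑ) + (∫⁻ x, ‖g x - f x‖ₑ)) := by
        rw [lintegral_add_left' hmf.enorm, lintegral_add_left' hmg.enorm]
    _ ≤ η + (η + η) := add_le_add h1 (add_le_add h3 h2)
    _ < ε := by
        have h5 : ε = η + (η + η) + η := by
          rw [hη, show ε / 4 + (ε / 4 + ε / 4) + ε / 4 = 4 * (ε / 4) by ring]
          exact (ENNReal.mul_div_cancel (by norm_num) (by norm_num)).symm
        conv_rhs => rw [h5]
        exact ENNReal.lt_add_right (by simp [hηt]) hη0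

/-- A locally integrable function all of whose small differences are continuous is continuous. -/
theorem continuousOn_of_diff {f : ℝ → X} {β R : ℝ} (hf : IntegrableOn f (Icc β (R + 2)))
    (hd : ∀ s, 0 < s → s ≤ 1 → ContinuousOn (fun t => f (t + s) - f t) (Icc β R)) :
    ContinuousOn f (Icc β R) := by
  suffices huc : UniformContinuousOn f (Icc β R) from huc.continuousOn
  rw [Metric.uniformContinuousOn_iff]
  intro ε₀ hε₀
  obtain ⟨ε, hε, hεε⟩ : ∃ ε : ℝ, 0 < ε ∧ 2 * ε < ε₀ := ⟨ε₀ / 4, by positivity, by linarith⟩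
  let S : ℕ → Set ℝ := fun n => {s | s ∈ Ioc (0 : ℝ) 1 ∧ ∀ t ∈ Icc β R, ∀ t' ∈ Icc β R,
    |t - t'| < 1 / ((n : ℝ) + 1) → ‖(f (t + s) - f t) - (f (t' + s) - f t')‖ ≤ ε}
  have hS : Ioc (0 : ℝ) 1 ⊆ ⋃ n, S n := by
    intro s hs
    have h1 := isCompact_Icc.uniformContinuousOn_of_continuous (hd s hs.1 hs.2)
    obtain ⟨δ, hδ, h2⟩ := Metric.uniformContinuousOn_iff.1 h1 ε hε
    obtain ⟨n, hn⟩ := exists_nat_one_div_lt hδ
    refine mem_iUnion.2 ⟨n, hs, fun t ht t' ht' h3 => ?_⟩
    have h4 := h2 t ht t' ht' (by rw [Real.dist_eq]; exact h3.trans hn)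
    rw [dist_eq_norm] at h4
    exact h4.le
  obtain ⟨n, hn⟩ : ∃ n, volume (S n) ≠ 0 := by
    by_contra hcon
    push Not at hcon
    have h1 : volume (Ioc (0 : ℝ) 1) = 0 := measure_mono_null hS (measure_iUnion_null hcon)
    simp at h1
  set f₀ := (Icc β (R + 2)).indicator f with hf₀
  have hf₀i : Integrable f₀ := hf.integrable_indicator measurableSet_Icc
  have hm : ENNReal.ofReal ε * volume (S n) ≠ 0 :=
    mul_ne_zero (ENNReal.ofReal_pos.2 hε).ne' hn
  obtain ⟨δ, hδ, h1⟩ := translation hf₀i hm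
  have key : ∀ t ∈ Icc β R, ∀ t' ∈ Icc β R, t ≤ t' → t' - t < min (min δ 1) (1 / ((n : ℝ) + 1)) →
      ‖f t' - f t‖ ≤ 2 * ε := by
    intro t ht t' ht' htt h2
    by_contra hcon
    rw [not_le] at hcon
    set r := t' - t with hr
    have hr0 : 0 ≤ r := by linarith
    have hrδ : r < δ := (h2.trans_le (min_le_left _ _)).trans_le (min_le_left _ _)
    have hr1 : r < 1 := (h2.trans_le (min_le_left _ _)).trans_le (min_le_right _ _)
    have hrn : r < 1 / ((n : ℝ) + 1) := h2.trans_le (min_le_right _ _)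
    have h3 : ∀ s ∈ S n, ENNReal.ofReal ε ≤ ‖f₀ ((s + t) + r) - f₀ (s + t)‖ₑ := by
      rintro s ⟨hs, hs2⟩
      have h4 := hs2 t' ht' t ht (by rw [abs_of_nonneg (by linarith)]; exact hrn)
      have h5 : f₀ (s + t) = f (t + s) := by
        rw [hf₀, indicator_of_mem, add_comm]
        exact ⟨by linarith [hs.1, ht.1], by linarith [hs.2, ht.2]⟩
      have h6 : f₀ ((s + t) + r) = f (t' + s) := by
        have : s + t + r = t' + s := by rw [hr]; ring
        rw [this, hf₀, indicator_of_mem]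
        exact ⟨by linarith [hs.1, ht'.1], by linarith [hs.2, ht'.2]⟩
      rw [h5, h6, ← ofReal_norm]
      refine ENNReal.ofReal_le_ofReal ?_
      have h7 : f t' - f t = (f (t' + s) - f (t + s)) - ((f (t' + s) - f t') - (f (t + s) - f t)) := by
        abel
      have h8 := norm_sub_le (f (t' + s) - f (t + s)) ((f (t' + s) - f t') - (f (t + s) - f t))
      rw [← h7] at h8
      linarith
    have hmeas : AEMeasurable (fun s : ℝ => ‖f₀ ((s + t) + r) - f₀ (s + t)‖ₑ) volume := by
      have h4 : Integrable fun s : ℝ => f₀ ((s + t) + r) - f₀ (s + t) := by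
        have h5 : Integrable fun x : ℝ => f₀ (x + r) - f₀ x := (hf₀i.comp_add_right r).sub hf₀i
        exact h5.comp_add_right t
      exact h4.1.enorm
    have h4 : ENNReal.ofReal ε * volume (S n) ≤ ∫⁻ s, ‖f₀ ((s + t) + r) - f₀ (s + t)‖ₑ := by
      refine le_trans ?_ (mul_meas_ge_le_lintegral₀ hmeas (ENNReal.ofReal ε))
      gcongr
      exact h3
    rw [lintegral_add_right_eq_self (fun x => ‖f₀ (x + r) - f₀ x‖ₑ) t] at h4
    exact absurd (h1 r (by rw [abs_of_nonneg hr0]; exact hrδ)) (not_lt.2 h4)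
  refine ⟨min (min δ 1) (1 / ((n : ℝ) + 1)), lt_min (lt_min hδ one_pos) (by positivity),
    fun t ht t' ht' h => ?_⟩
  rw [Real.dist_eq] at h
  rw [dist_eq_norm]
  rcases le_total t t' with h2 | h2
  · rw [norm_sub_rev]
    refine (key t ht t' ht' h2 ?_).trans_lt hεε
    rwa [abs_sub_comm, abs_of_nonneg (by linarith)] at h
  · refine (key t' ht' t ht h2 ?_).trans_lt hεε
    rwa [abs_of_nonneg (by linarith)] at h

end Pool.Agent.V1198.DP
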