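import Pool.Agent.V1198.DP1b

/-!
# Difference property: the half-line theorem
-/

set_option autoImplicit false
set_option linter.unusedSectionVars false

noncomputable section

open Filter Topology MeasureTheory Set

namespace Pool.Agent.V1198.DP

variable {X : Type} [NormedAddCommGroup X] [NormedSpace ℂ X]

/-- `F = u + g v` on `[T, ∞)` with control of the moduli of continuity. -/
def Dd (F : ℝ → X) (T δ ε M : ℝ) : Prop := ∃ u v : ℝ → X,
  (∀ t, T ≤ t → F t = u t + ex (t ^ 2) • v t) ∧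
  (∀ t, T ≤ t → ∀ t', T ≤ t' → |t - t'| ≤ δ → ‖u t - u t'‖ ≤ ε ∧ ‖v t - v t'‖ ≤ ε) ∧
  ∀ t, T ≤ t → ‖v t‖ ≤ M

/-- Extraction of the first component. -/
def UU (F : ℝ → X) (t : ℝ) : X := (1 / 2 : ℂ) • (F t + F (sg t))

/-- Extraction of the second component. -/
def VV (F : ℝ → X) (t : ℝ) : X := (1 / 2 : ℂ) • (ex (-(t ^ 2)) • (F t - F (sg t)))

theorem half (x : X) : ‖(1 / 2 : ℂ) • x‖ = 1 / 2 * ‖x‖ := by
  rw [norm_smul]
  norm_num

theorem UV (F : ℝ → X) (t : ℝ) : F t = UU F t + ex (t ^ 2) • VV F t := by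
  unfold UU VV
  rw [smul_comm (ex (t ^ 2)) (1 / 2 : ℂ), smul_smul (ex (t ^ 2)), ← ex_add, add_neg_cancel, ex_zero,
    one_smul, ← smul_add, add_add_sub_cancel, ← two_smul ℂ (F t), smul_smul]
  norm_num

/-- Control of the canonical components. -/
def Cc (F : ℝ → X) (T δ ε M : ℝ) : Prop :=
  (∀ t, T ≤ t → ∀ t', T ≤ t' → |t - t'| ≤ δ → ‖UU F t - UU F t'‖ ≤ ε ∧ ‖VV F t - VV F t'‖ ≤ ε) ∧
  ∀ t, T ≤ t → ‖VV F t‖ ≤ M

theorem Cc.mono {F : ℝ → X} {T δ ε M T' δ' ε' M' : ℝ} (h : Cc F T δ ε M) (hT : T ≤ T')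
    (hδ : δ' ≤ δ) (hε : ε ≤ ε') (hM : M ≤ M') : Cc F T' δ' ε' M' :=
  ⟨fun t ht t' ht' hd => ⟨(h.1 t (hT.trans ht) t' (hT.trans ht') (hd.trans hδ)).1.trans hε,
    (h.1 t (hT.trans ht) t' (hT.trans ht') (hd.trans hδ)).2.trans hε⟩,
    fun t ht => (h.2 t (hT.trans ht)).trans hM⟩

theorem Dd.mono {F : ℝ → X} {T δ ε M T' δ' ε' M' : ℝ} (h : Dd F T δ ε M) (hT : T ≤ T')
    (hδ : δ' ≤ δ) (hε : ε ≤ ε') (hM : M ≤ M') : Dd F T' δ' ε' M' := by
  obtain ⟨u, v, h1, h2, h3⟩ := h
  exact ⟨u, v, fun t ht => h1 t (hT.trans ht), fun t ht t' ht' hd =>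
    ⟨(h2 t (hT.trans ht) t' (hT.trans ht') (hd.trans hδ)).1.trans hε,
    (h2 t (hT.trans ht) t' (hT.trans ht') (hd.trans hδ)).2.trans hε⟩,
    fun t ht => (h3 t (hT.trans ht)).trans hM⟩

theorem Cc.toDd {F : ℝ → X} {T δ ε M : ℝ} (h : Cc F T δ ε M) : Dd F T δ ε M :=
  ⟨UU F, VV F, fun t _ => UV F t, h.1, h.2⟩

theorem Dd.toCc {F : ℝ → X} {T δ ε M : ℝ} (hδ : 0 < δ) (h : Dd F T δ ε M) :
    Cc F (max T (2 / δ)) δ (3 * ε) (M + ε) := by
  obtain ⟨u, v, h1, h2, h3⟩ := h
  have key : ∀ t, max T (2 / δ) ≤ t → ‖UU F t - u t‖ ≤ ε ∧ ‖VV F t - v t‖ ≤ ε := by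
    intro t ht
    have hT : T ≤ t := (le_max_left _ _).trans ht
    have h2δ : 2 / δ ≤ t := (le_max_right _ _).trans ht
    have ht0 : 0 < t := lt_of_lt_of_le (by positivity) h2δ
    have hs := le_sg t
    have hsT : T ≤ sg t := hT.trans hs
    have hs2 : |t - sg t| ≤ δ := by
      rw [abs_sub_comm, abs_of_nonneg (by linarith)]
      refine (sg_sub_le ht0).trans ?_
      rw [div_le_iff₀ ht0]
      rw [div_le_iff₀ hδ] at h2δ
      linarith
    obtain ⟨h4, h5⟩ := h2 t hT (sg t) hsT hs2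
    have hF : F t = u t + ex (t ^ 2) • v t := h1 t hT
    have hF' : F (sg t) = u (sg t) - ex (t ^ 2) • v (sg t) := by
      rw [h1 _ hsT, ex_sg, neg_smul, sub_eq_add_neg]
    constructor
    · have h6 : UU F t - u t = (1 / 2 : ℂ) • (ex (t ^ 2) • (v t - v (sg t)) - (u t - u (sg t))) := by
        unfold UU
        have : u t = (1 / 2 : ℂ) • (u t + u t) := by
          rw [← two_smul ℂ (u t), smul_smul]; norm_num
        have hCD : ex (t ^ 2) • (v t - v (sg t)) = ex (t ^ 2) • v t - ex (t ^ 2) • v (sg t) :=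
          smul_sub _ _ _
        conv_lhs => rw [this]
        rw [← smul_sub, hF, hF', hCD]
        congr 1
        abel
      rw [h6, half]
      have h7 := norm_sub_le (ex (t ^ 2) • (v t - v (sg t))) (u t - u (sg t))
      rw [norm_smul, norm_ex, one_mul] at h7
      linarith
    · have h6 : VV F t - v t = (1 / 2 : ℂ) • (ex (-(t ^ 2)) • (u t - u (sg t)) - (v t - v (sg t))) := by
        unfold VV
        have : v t = (1 / 2 : ℂ) • (v t + v t) := by
          rw [← two_smul ℂ (v t), smul_smul]; norm_num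
        conv_lhs => rw [this]
        rw [← smul_sub, hF, hF']
        congr 1
        have hCD : ex (t ^ 2) • (v t + v (sg t)) = ex (t ^ 2) • v t + ex (t ^ 2) • v (sg t) :=
          smul_add _ _ _
        have h7 : u t + ex (t ^ 2) • v t - (u (sg t) - ex (t ^ 2) • v (sg t)) =
            (u t - u (sg t)) + ex (t ^ 2) • (v t + v (sg t)) := by
          rw [hCD]; abel
        rw [h7, smul_add, smul_smul (ex (-(t ^ 2))), ex_neg_mul, one_smul]
        abel
      rw [h6, half]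
      have h7 := norm_sub_le (ex (-(t ^ 2)) • (u t - u (sg t))) (v t - v (sg t))
      rw [norm_smul, norm_ex, one_mul] at h7
      linarith
  refine ⟨fun t ht t' ht' hd => ?_, fun t ht => ?_⟩
  · obtain ⟨h4, h5⟩ := key t ht
    obtain ⟨h6, h7⟩ := key t' ht'
    obtain ⟨h8, h9⟩ := h2 t ((le_max_left _ _).trans ht) t' ((le_max_left _ _).trans ht') hd
    constructor
    · have h10 : UU F t - UU F t' = (UU F t - u t) + (u t - u t') - (UU F t' - u t') := by abel
      rw [h10]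
      have h11 := norm_sub_le ((UU F t - u t) + (u t - u t')) (UU F t' - u t')
      have h12 := norm_add_le (UU F t - u t) (u t - u t')
      linarith
    · have h10 : VV F t - VV F t' = (VV F t - v t) + (v t - v t') - (VV F t' - v t') := by abel
      rw [h10]
      have h11 := norm_sub_le ((VV F t - v t) + (v t - v t')) (VV F t' - v t')
      have h12 := norm_add_le (VV F t - v t) (v t - v t')
      linarith
  · have h10 : VV F t = v t + (VV F t - v t) := by abel
    have h11 := norm_add_le (v t) (VV F t - v t)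
    rw [← h10] at h11
    have := h3 t ((le_max_left _ _).trans ht)
    have := (key t ht).2
    linarith

/-- Multiplying by a slowly varying phase. -/
theorem phase {v v' : X} {p q t t' δ ε M : ℝ} (hv : ‖v - v'‖ ≤ ε) (hM : ‖v'‖ ≤ M)
    (ht : |t - t'| ≤ δ) (hp : |p| * δ * M ≤ ε) :
    ‖ex (p * t + q) • v - ex (p * t' + q) • v'‖ ≤ 2 * ε := by
  have h5 : ex (p * t + q) • v - ex (p * t' + q) • v' =
      ex (p * t + q) • (v - v') + (ex (p * t + q) - ex (p * t' + q)) • v' := by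
    rw [smul_sub, sub_smul]; abel
  rw [h5]
  refine (norm_add_le _ _).trans ?_
  rw [norm_smul, norm_smul, norm_ex, one_mul]
  have h6 := ex_lip (p * t + q) (p * t' + q)
  have h7 : p * t + q - (p * t' + q) = p * (t - t') := by ring
  rw [h7, abs_mul] at h6
  have h8 : ‖ex (p * t + q) - ex (p * t' + q)‖ * ‖v'‖ ≤ (|p| * δ) * M := by
    refine mul_le_mul (h6.trans (mul_le_mul_of_nonneg_left ht (abs_nonneg _))) hM (norm_nonneg _) ?_
    exact mul_nonneg (abs_nonneg _) ((abs_nonneg _).trans ht)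
  linarith

theorem Dd_back {F F₁ F₂ : ℝ → X} {T δ ε M c δ' : ℝ} (hc : 0 < c) (h₁ : Cc F₁ T δ ε M)
    (h₂ : Cc F₂ T δ ε M) (hF : ∀ t, T + c ≤ t → F t = F₁ (t - c) - F₂ (t - c)) (hδ : δ' ≤ δ)
    (hδ' : 2 * c * δ' * (2 * M) ≤ 2 * ε) : Dd F (T + c) δ' (4 * ε) (2 * M) := by
  refine ⟨fun t => UU F₁ (t - c) - UU F₂ (t - c),
    fun t => ex (-(2 * c) * t + c ^ 2) • (VV F₁ (t - c) - VV F₂ (t - c)), fun t ht => ?_,
    fun t ht t' ht' hd => ?_, fun t ht => ?_⟩
  · show F t = (UU F₁ (t - c) - UU F₂ (t - c)) +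
      ex (t ^ 2) • (ex (-(2 * c) * t + c ^ 2) • (VV F₁ (t - c) - VV F₂ (t - c)))
    rw [hF t ht]
    conv_lhs => rw [UV F₁ (t - c), UV F₂ (t - c)]
    rw [smul_smul, ← ex_add]
    have : t ^ 2 + (-(2 * c) * t + c ^ 2) = (t - c) ^ 2 := by ring
    have hCD : ex ((t - c) ^ 2) • (VV F₁ (t - c) - VV F₂ (t - c)) =
        ex ((t - c) ^ 2) • VV F₁ (t - c) - ex ((t - c) ^ 2) • VV F₂ (t - c) := smul_sub _ _ _
    rw [this, hCD]
    abel
  · have h3 : T ≤ t - c := by linarith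
    have h4 : T ≤ t' - c := by linarith
    have h5 : |(t - c) - (t' - c)| ≤ δ := by rw [sub_sub_sub_cancel_right]; exact hd.trans hδ
    obtain ⟨h6, h7⟩ := h₁.1 _ h3 _ h4 h5
    obtain ⟨h8, h9⟩ := h₂.1 _ h3 _ h4 h5
    have hε : 0 ≤ ε := (norm_nonneg _).trans h6
    constructor
    · have h10 : (UU F₁ (t - c) - UU F₂ (t - c)) - (UU F₁ (t' - c) - UU F₂ (t' - c)) =
        (UU F₁ (t - c) - UU F₁ (t' - c)) - (UU F₂ (t - c) - UU F₂ (t' - c)) := by abel
      show ‖(UU F₁ (t - c) - UU F₂ (t - c)) - (UU F₁ (t' - c) - UU F₂ (t' - c))‖ ≤ _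
      rw [h10]
      refine (norm_sub_le _ _).trans (by linarith)
    · have h10 : ‖(VV F₁ (t - c) - VV F₂ (t - c)) - (VV F₁ (t' - c) - VV F₂ (t' - c))‖ ≤ 2 * ε := by
        have : (VV F₁ (t - c) - VV F₂ (t - c)) - (VV F₁ (t' - c) - VV F₂ (t' - c)) =
          (VV F₁ (t - c) - VV F₁ (t' - c)) - (VV F₂ (t - c) - VV F₂ (t' - c)) := by abel
        rw [this]
        refine (norm_sub_le _ _).trans (by linarith)
      have h11 : ‖VV F₁ (t' - c) - VV F₂ (t' - c)‖ ≤ 2 * M :=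
        (norm_sub_le _ _).trans (by linarith [h₁.2 _ h4, h₂.2 _ h4])
      have h12 := phase (q := c ^ 2) (p := -(2 * c)) (t := t) (t' := t') h10 h11 hd (by
        rw [abs_neg, abs_of_pos (by linarith)]
        exact hδ')
      refine h12.trans (by linarith)
  · have h3 : T ≤ t - c := by linarith
    show ‖ex (-(2 * c) * t + c ^ 2) • (VV F₁ (t - c) - VV F₂ (t - c))‖ ≤ _
    rw [norm_smul, norm_ex, one_mul]
    exact (norm_sub_le _ _).trans (by linarith [h₁.2 _ h3, h₂.2 _ h3])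

theorem Dd_fwd {F : ℝ → X} {T δ ε M b δ' : ℝ} (hb : 0 ≤ b) (h : Dd F T δ ε M) (hδ : δ' ≤ δ)
    (hδ' : 2 * b * δ' * M ≤ ε) : Dd (fun t => F (t + b)) T δ' (2 * ε) M := by
  obtain ⟨u, v, h1, h2, h3⟩ := h
  refine ⟨fun t => u (t + b), fun t => ex (2 * b * t + b ^ 2) • v (t + b), fun t ht => ?_,
    fun t ht t' ht' hd => ?_, fun t ht => ?_⟩
  · show F (t + b) = _
    rw [h1 _ (by linarith), smul_smul, ← ex_add]
    congr 3
    ring
  · have h5 : |(t + b) - (t' + b)| ≤ δ := by rw [add_sub_add_right_eq_sub]; exact hd.trans hδ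
    obtain ⟨h6, h7⟩ := h2 _ (by linarith : T ≤ t + b) _ (by linarith : T ≤ t' + b) h5
    have hε : 0 ≤ ε := (norm_nonneg _).trans h6
    refine ⟨h6.trans (by linarith), ?_⟩
    refine phase h7 (h3 _ (by linarith)) hd ?_
    rw [abs_of_nonneg (by linarith)]
    exact hδ'
  · show ‖ex (2 * b * t + b ^ 2) • v (t + b)‖ ≤ _
    rw [norm_smul, norm_ex, one_mul]
    exact h3 _ (by linarith)

theorem Dd.add {F G : ℝ → X} {T δ ε₁ ε₂ M₁ M₂ : ℝ} (h₁ : Dd F T δ ε₁ M₁) (h₂ : Dd G T δ ε₂ M₂) :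
    Dd (fun t => F t + G t) T δ (ε₁ + ε₂) (M₁ + M₂) := by
  obtain ⟨u, v, h1, h2, h3⟩ := h₁
  obtain ⟨u', v', h1', h2', h3'⟩ := h₂
  refine ⟨fun t => u t + u' t, fun t => v t + v' t, fun t ht => ?_, fun t ht t' ht' hd => ?_,
    fun t ht => (norm_add_le _ _).trans (add_le_add (h3 t ht) (h3' t ht))⟩
  · show F t + G t = (u t + u' t) + ex (t ^ 2) • (v t + v' t)
    have hCD : ex (t ^ 2) • (v t + v' t) = ex (t ^ 2) • v t + ex (t ^ 2) • v' t := smul_add _ _ _
    rw [h1 t ht, h1' t ht, hCD]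
    abel
  · obtain ⟨h6, h7⟩ := h2 t ht t' ht' hd
    obtain ⟨h8, h9⟩ := h2' t ht t' ht' hd
    constructor
    · show ‖(u t + u' t) - (u t' + u' t')‖ ≤ _
      rw [add_sub_add_comm]
      exact (norm_add_le _ _).trans (add_le_add h6 h8)
    · show ‖(v t + v' t) - (v t' + v' t')‖ ≤ _
      rw [add_sub_add_comm]
      exact (norm_add_le _ _).trans (add_le_add h7 h9)

/-- The hypothesis on a half-line. -/
def Hyp (f : ℝ → X) (T₀ : ℝ) : Prop := ∀ a : ℝ, 0 < a → ∃ u v : ℝ → X,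
  UniformContinuousOn u (Ici T₀) ∧ UniformContinuousOn v (Ici T₀) ∧
  (∃ M : ℝ, ∀ t, T₀ ≤ t → ‖v t‖ ≤ M) ∧ ∀ t, T₀ ≤ t → f (t + a) - f t = u t + ex (t ^ 2) • v t

theorem Hyp.dd {f : ℝ → X} {T₀ : ℝ} (H : Hyp f T₀) {a : ℝ} (ha : 0 ≤ a) {ε : ℝ} (hε : 0 < ε) :
    ∃ δ : ℝ, 0 < δ ∧ ∃ M : ℝ, Dd (fun t => f (t + a) - f t) T₀ δ ε M := by
  rcases ha.eq_or_lt with rfl | ha
  · refine ⟨1, one_pos, 0, fun _ => 0, fun _ => 0, fun t _ => by simp, fun t _ t' _ _ => ?_,
      fun t _ => by simp⟩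
    simp [hε.le]
  · obtain ⟨u, v, hu, hv, ⟨M, hM⟩, h⟩ := H a ha
    obtain ⟨δ₁, hδ₁, h1⟩ := Metric.uniformContinuousOn_iff.1 hu ε hε
    obtain ⟨δ₂, hδ₂, h2⟩ := Metric.uniformContinuousOn_iff.1 hv ε hε
    refine ⟨min δ₁ δ₂ / 2, by positivity, M, u, v, h, fun t ht t' ht' hd => ?_, hM⟩
    have h3 : 0 < min δ₁ δ₂ := lt_min hδ₁ hδ₂
    have h4 : dist t t' < δ₁ := by
      rw [Real.dist_eq]; linarith [min_le_left δ₁ δ₂]
    have h5 : dist t t' < δ₂ := by
      rw [Real.dist_eq]; linarith [min_le_right δ₁ δ₂]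
    have h6 := h1 t ht t' ht' h4
    have h7 := h2 t ht t' ht' h5
    rw [dist_eq_norm] at h6 h7
    exact ⟨h6.le, h7.le⟩

/-- Baire category. -/
theorem baire {f : ℝ → X} (hf : Continuous f) {T₀ : ℝ} (H : Hyp f T₀) {ε : ℝ} (hε : 0 < ε) :
    ∃ c ρ δ T M : ℝ, 0 < c ∧ 0 < ρ ∧ 0 < δ ∧ T₀ ≤ T ∧ 0 ≤ M ∧
      ∀ r, 0 ≤ r → r < ρ → Cc (fun t => f (t + (c + r)) - f t) T δ ε M := by
  let S : ℕ → Set ℝ := fun n => {s | Cc (fun t => f (t + (|s| + 1)) - f t) (max T₀ n)
    (1 / ((n : ℝ) + 1)) ε n}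
  have hcl : ∀ n, IsClosed (S n) := by
    intro n
    simp only [S, Cc, UU, VV, ofPred_and, ofPred_forall]
    refine IsClosed.inter ?_ ?_
    · refine isClosed_iInter fun t => isClosed_iInter fun _ => isClosed_iInter fun t' =>
        isClosed_iInter fun _ => isClosed_iInter fun _ => IsClosed.inter ?_ ?_
      · exact isClosed_le (by fun_prop) continuous_const
      · exact isClosed_le (by fun_prop) continuous_const
    · refine isClosed_iInter fun t => isClosed_iInter fun _ => ?_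
      exact isClosed_le (by fun_prop) continuous_const
  have hun : ⋃ n, S n = univ := by
    refine eq_univ_of_forall fun s => ?_
    obtain ⟨δ, hδ, M, h1⟩ := H.dd (a := |s| + 1) (by positivity) (show 0 < ε / 3 by positivity)
    have h2 := h1.toCc hδ
    obtain ⟨n₁, hn₁⟩ := exists_nat_ge (2 / δ)
    obtain ⟨n₂, hn₂⟩ := exists_nat_ge (M + ε / 3)
    obtain ⟨n₃, hn₃⟩ := exists_nat_one_div_lt hδ
    set n := max n₁ (max n₂ n₃) with hn
    have h3 : (n₁ : ℝ) ≤ n := by exact_mod_cast le_max_left _ _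
    have h4 : (n₂ : ℝ) ≤ n := by exact_mod_cast (le_max_left _ _).trans (le_max_right _ _)
    have h5 : (n₃ : ℝ) ≤ n := by exact_mod_cast (le_max_right _ _).trans (le_max_right _ _)
    refine mem_iUnion.2 ⟨n, h2.mono ?_ ?_ (by linarith) (by linarith)⟩
    · exact max_le_max le_rfl (by linarith)
    · refine le_trans ?_ hn₃.le
      exact one_div_le_one_div_of_le (by positivity) (by linarith)
  obtain ⟨n, s₀, hs₀⟩ := nonempty_interior_of_iUnion_of_closed hcl hun
  obtain ⟨ρ, hρ, hball⟩ := Metric.isOpen_iff.1 isOpen_interior s₀ hs₀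
  refine ⟨|s₀| + 1, ρ, 1 / ((n : ℝ) + 1), max T₀ n, n, by positivity, hρ, by positivity,
    le_max_left _ _, by positivity, fun r hr hrρ => ?_⟩
  obtain ⟨s, hs, hs'⟩ : ∃ s ∈ Metric.ball s₀ ρ, |s| = |s₀| + r := by
    rcases le_total 0 s₀ with h | h
    · refine ⟨s₀ + r, ?_, ?_⟩
      · rw [Metric.mem_ball, Real.dist_eq, add_sub_cancel_left, abs_of_nonneg hr]; exact hrρ
      · rw [abs_of_nonneg h, abs_of_nonneg (by linarith)]
    · refine ⟨s₀ - r, ?_, ?_⟩
      · rw [Metric.mem_ball, Real.dist_eq, sub_sub_cancel_left, abs_neg, abs_of_nonneg hr]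
        exact hrρ
      · rw [abs_of_nonpos h, abs_of_nonpos (by linarith)]; ring
  have h1 : s ∈ S n := interior_subset (hball hs)
  have h2 : Cc (fun t => f (t + (|s| + 1)) - f t) (max T₀ n) (1 / ((n : ℝ) + 1)) ε n := h1
  rw [hs'] at h2
  have h3 : |s₀| + r + 1 = |s₀| + 1 + r := by ring
  rwa [h3] at h2

theorem small {f : ℝ → X} (hf : Continuous f) {T₀ : ℝ} (H : Hyp f T₀) {ε : ℝ} (hε : 0 < ε) :
    ∃ ρ δ T M : ℝ, 0 < ρ ∧ 0 < δ ∧ T₀ ≤ T ∧ 0 ≤ M ∧
      ∀ r, 0 < r → r < ρ → Dd (fun t => f (t + r) - f t) T δ ε M := by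
  obtain ⟨c, ρ, δ, T, M, hc, hρ, hδ, hT, hM, h⟩ := baire hf H (show 0 < ε / 4 by positivity)
  refine ⟨ρ, min δ (ε / 2 / (2 * c * (2 * M) + 1)), T + c, 2 * M, hρ, by positivity, by linarith,
    by positivity, fun r hr hrρ => ?_⟩
  have h1 := h r hr.le hrρ
  have h2 := h 0 le_rfl hρ
  have h3 := Dd_back (F := fun t => f (t + r) - f t) hc h1 h2 (fun t ht => by
    show f (t + r) - f t = (f (t - c + (c + r)) - f (t - c)) - (f (t - c + (c + 0)) - f (t - c))
    have h4 : t - c + (c + r) = t + r := by ring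
    have h5 : t - c + (c + 0) = t := by ring
    rw [h4, h5]
    abel) (min_le_left δ (ε / 2 / (2 * c * (2 * M) + 1))) (by
    have h4 : min δ (ε / 2 / (2 * c * (2 * M) + 1)) ≤ ε / 2 / (2 * c * (2 * M) + 1) :=
      min_le_right _ _
    rw [le_div_iff₀ (by positivity)] at h4
    have h5 : 0 < min δ (ε / 2 / (2 * c * (2 * M) + 1)) := by positivity
    nlinarith)
  exact h3.mono le_rfl le_rfl (by linarith) le_rfl

theorem uniform {f : ℝ → X} (hf : Continuous f) {T₀ : ℝ} (H : Hyp f T₀) {ε : ℝ} (hε : 0 < ε)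
    (h : ℝ) : ∃ δ T M : ℝ, 0 < δ ∧ T₀ ≤ T ∧
      ∀ s, 0 < s → s ≤ h → Dd (fun t => f (t + s) - f t) T δ ε M := by
  obtain ⟨ρ, δ₀, T₁, M₁, hρ, hδ₀, hT₁, hM₁, hsm⟩ := small hf H (show 0 < ε / 4 by positivity)
  have key : ∀ j : ℕ, ∃ δ T M : ℝ, 0 < δ ∧ T₀ ≤ T ∧
      ∀ s, 0 < s → s ≤ j * (ρ / 2) → Dd (fun t => f (t + s) - f t) T δ ε M := by
    intro j
    induction j with
    | zero =>
      refine ⟨1, T₀, 0, one_pos, le_rfl, fun s hs hs' => ?_⟩
      rw [Nat.cast_zero, zero_mul] at hs'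
      linarith
    | succ j ih =>
      obtain ⟨δ, T, M, hδ, hT, hj⟩ := ih
      set b := (j : ℝ) * (ρ / 2) with hb
      have hb0 : 0 ≤ b := by positivity
      obtain ⟨δ₂, hδ₂, M₂, h2⟩ := H.dd hb0 (show 0 < ε / 2 by positivity)
      set δ₃ := min δ₀ (ε / 4 / (2 * b * M₁ + 1)) with hδ₃
      have hδ₃0 : 0 < δ₃ := by positivity
      refine ⟨min δ (min δ₂ δ₃), max T (max T₀ T₁), max M (M₂ + M₁), by positivity,
        hT.trans (le_max_left _ _), fun s hs hs' => ?_⟩
      rcases le_or_gt s b with h3 | h3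
      · exact (hj s hs h3).mono (le_max_left _ _) (min_le_left _ _) le_rfl (le_max_left _ _)
      · push_cast at hs'
        have h4 := hsm (s - b) (by linarith) (by
          have : s ≤ b + ρ / 2 := by rw [hb]; linarith
          linarith)
        have h5 := Dd_fwd hb0 h4 (min_le_left δ₀ (ε / 4 / (2 * b * M₁ + 1))) (by
          have h6 : min δ₀ (ε / 4 / (2 * b * M₁ + 1)) ≤ ε / 4 / (2 * b * M₁ + 1) := min_le_right _ _
          rw [le_div_iff₀ (by positivity)] at h6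
          rw [← hδ₃] at h6 ⊢
          nlinarith)
        have h6 := (h2.mono (T' := max T₀ T₁) (δ' := min δ₂ δ₃) (le_max_left _ _) (min_le_left _ _)
          le_rfl le_rfl).add (h5.mono (T' := max T₀ T₁) (δ' := min δ₂ δ₃) (le_max_right _ _)
          (min_le_right _ _) le_rfl le_rfl)
        have h7 : (fun t => (f (t + b) - f t) + (f (t + b + (s - b)) - f (t + b))) =
            fun t => f (t + s) - f t := by
          funext t
          have : t + b + (s - b) = t + s := by ring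
          rw [this]
          abel
        have h8 : Dd (fun t => f (t + s) - f t) (max T₀ T₁) (min δ₂ δ₃) (ε / 2 + 2 * (ε / 4))
            (M₂ + M₁) := by
          rw [← h7]
          exact h6
        exact h8.mono (le_max_right _ _) (min_le_right _ _) (by linarith) (le_max_right _ _)
  obtain ⟨j, hj⟩ := exists_nat_ge (h / (ρ / 2))
  obtain ⟨δ, T, M, hδ, hT, h1⟩ := key j
  refine ⟨δ, T, M, hδ, hT, fun s hs hs' => h1 s hs (hs'.trans ?_)⟩
  rwa [div_le_iff₀ (by positivity)] at hj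

theorem uc_of_tail {F : ℝ → X} (hF : Continuous F) (T₀ : ℝ)
    (h : ∀ ε : ℝ, 0 < ε → ∃ δ T : ℝ, 0 < δ ∧ ∀ t, T ≤ t → ∀ t', T ≤ t' → |t - t'| ≤ δ →
      ‖F t - F t'‖ ≤ ε) : UniformContinuousOn F (Ici T₀) := by
  rw [Metric.uniformContinuousOn_iff]
  intro ε hε
  obtain ⟨δ, T, hδ, h1⟩ := h (ε / 2) (by positivity)
  have h2 := (isCompact_Icc (a := T₀) (b := max T T₀ + 1)).uniformContinuousOn_of_continuous
    hF.continuousOn
  obtain ⟨δ', hδ', h3⟩ := Metric.uniformContinuousOn_iff.1 h2 ε hε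
  refine ⟨min (min δ δ') 1, lt_min (lt_min hδ hδ') one_pos, fun t ht t' ht' hd => ?_⟩
  have hd1 := hd.trans_le (min_le_right _ _)
  have hd2 := (hd.trans_le (min_le_left _ _)).trans_le (min_le_left _ _)
  have hd3 := (hd.trans_le (min_le_left _ _)).trans_le (min_le_right _ _)
  rw [Real.dist_eq] at hd1 hd2
  have hd4 := abs_lt.1 hd1
  rw [mem_Ici] at ht ht'
  by_cases hc : t ≤ max T T₀ + 1 ∧ t' ≤ max T T₀ + 1
  · exact h3 t ⟨ht, hc.1⟩ t' ⟨ht', hc.2⟩ hd3
  · have hTT : T ≤ max T T₀ := le_max_left _ _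
    have h7 : T ≤ t ∧ T ≤ t' := by
      rw [not_and_or, not_le, not_le] at hc
      rcases hc with h9 | h9 <;> constructor <;> linarith [hd4.1, hd4.2]
    rw [dist_eq_norm]
    exact (h1 t h7.1 t' h7.2 hd2.le).trans_lt (by linarith)

variable [CompleteSpace X]

/-- **The half-line theorem.** -/
theorem half_line {f : ℝ → X} (hf : Continuous f) {T₀ : ℝ} (H : Hyp f T₀) {h : ℝ} (hh : 0 < h) :
    ∃ U V : ℝ → X, Continuous U ∧ Continuous V ∧ UniformContinuousOn U (Ici T₀) ∧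
      UniformContinuousOn V (Ici T₀) ∧ (∃ M : ℝ, ∀ t, T₀ ≤ t → ‖V t‖ ≤ M) ∧
      ∀ t, (1 / h : ℝ) • (∫ s in t..t + h, f s) - f t = U t + ex (t ^ 2) • V t := by
  set G : ℝ → X := fun t => (1 / h : ℝ) • (∫ s in (0 : ℝ)..h, (f (t + s) - f t)) with hG
  have hGe : ∀ t, (1 / h : ℝ) • (∫ s in t..t + h, f s) - f t = G t := by
    intro t
    simp only [hG]
    have h1 : ∫ s in (0 : ℝ)..h, (f (t + s) - f t) =
        (∫ s in (0 : ℝ)..h, f (t + s)) - ∫ _s in (0 : ℝ)..h, f t :=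
      intervalIntegral.integral_sub (Continuous.intervalIntegrable (by fun_prop) _ _)
        (Continuous.intervalIntegrable (by fun_prop) _ _)
    rw [h1, intervalIntegral.integral_comp_add_left,
      intervalIntegral.integral_const, smul_sub, sub_zero, add_zero, smul_smul,
      one_div_mul_cancel hh.ne', one_smul]
  have hGc : Continuous G := by
    refine Continuous.const_smul ?_ _
    exact intervalIntegral.continuous_parametric_intervalIntegral_of_continuous'
      (f := fun t s => f (t + s) - f t) (by fun_prop) 0 h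
  have hUG : ∀ t, UU G t = (1 / h : ℝ) • ∫ s in (0 : ℝ)..h, UU (fun t => f (t + s) - f t) t := by
    intro t
    simp only [UU, hG]
    rw [← smul_add, ← intervalIntegral.integral_add, smul_comm, intervalIntegral.integral_smul]
    · exact Continuous.intervalIntegrable (by fun_prop) _ _
    · exact Continuous.intervalIntegrable (by fun_prop) _ _
  have hVG : ∀ t, VV G t = (1 / h : ℝ) • ∫ s in (0 : ℝ)..h, VV (fun t => f (t + s) - f t) t := by
    intro t
    simp only [VV, hG]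
    rw [← smul_sub, ← intervalIntegral.integral_sub, intervalIntegral.integral_smul,
      intervalIntegral.integral_smul, smul_comm (ex _) (1 / h : ℝ),
      smul_comm (1 / 2 : ℂ) (1 / h : ℝ)]
    · exact Continuous.intervalIntegrable (by fun_prop) _ _
    · exact Continuous.intervalIntegrable (by fun_prop) _ _
  have hctrl : ∀ ε : ℝ, 0 < ε → ∃ δ T M : ℝ, 0 < δ ∧ Cc G T δ ε M := by
    intro ε hε
    obtain ⟨δ, T, M, hδ, -, h1⟩ := uniform hf H (show 0 < ε / 3 by positivity) h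
    refine ⟨δ, max T (2 / δ), M + ε / 3, hδ, ?_, ?_⟩
    · intro t ht t' ht' hd
      have h2 : ∀ s, 0 < s → s ≤ h → ‖UU (fun t => f (t + s) - f t) t -
          UU (fun t => f (t + s) - f t) t'‖ ≤ ε ∧ ‖VV (fun t => f (t + s) - f t) t -
          VV (fun t => f (t + s) - f t) t'‖ ≤ ε := by
        intro s hs hs'
        have h3 := ((h1 s hs hs').toCc hδ).1 t ht t' ht' hd
        exact ⟨h3.1.trans (by linarith), h3.2.trans (by linarith)⟩
      constructor
      · rw [hUG, hUG, ← smul_sub, ← intervalIntegral.integral_sub, norm_smul,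
          Real.norm_of_nonneg (by positivity)]
        · have h3 : ‖∫ s in (0 : ℝ)..h, (UU (fun t => f (t + s) - f t) t -
              UU (fun t => f (t + s) - f t) t')‖ ≤ ε * |h - 0| :=
            intervalIntegral.norm_integral_le_of_norm_le_const fun s hs => by
              rw [uIoc_of_le hh.le] at hs
              exact (h2 s hs.1 hs.2).1
          rw [sub_zero, abs_of_pos hh] at h3
          rw [div_mul_eq_mul_div, one_mul, div_le_iff₀ hh]
          exact h3
        · exact Continuous.intervalIntegrable (by unfold UU; fun_prop) _ _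
        · exact Continuous.intervalIntegrable (by unfold UU; fun_prop) _ _
      · rw [hVG, hVG, ← smul_sub, ← intervalIntegral.integral_sub, norm_smul,
          Real.norm_of_nonneg (by positivity)]
        · have h3 : ‖∫ s in (0 : ℝ)..h, (VV (fun t => f (t + s) - f t) t -
              VV (fun t => f (t + s) - f t) t')‖ ≤ ε * |h - 0| :=
            intervalIntegral.norm_integral_le_of_norm_le_const fun s hs => by
              rw [uIoc_of_le hh.le] at hs
              exact (h2 s hs.1 hs.2).2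
          rw [sub_zero, abs_of_pos hh] at h3
          rw [div_mul_eq_mul_div, one_mul, div_le_iff₀ hh]
          exact h3
        · exact Continuous.intervalIntegrable (by unfold VV; fun_prop) _ _
        · exact Continuous.intervalIntegrable (by unfold VV; fun_prop) _ _
    · intro t ht
      rw [hVG, norm_smul, Real.norm_of_nonneg (by positivity)]
      have h3 : ‖∫ s in (0 : ℝ)..h, VV (fun t => f (t + s) - f t) t‖ ≤ (M + ε / 3) * |h - 0| :=
        intervalIntegral.norm_integral_le_of_norm_le_const fun s hs => by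
          rw [uIoc_of_le hh.le] at hs
          exact ((h1 s hs.1 hs.2).toCc hδ).2 t ht
      rw [sub_zero, abs_of_pos hh] at h3
      rw [div_mul_eq_mul_div, one_mul, div_le_iff₀ hh]
      exact h3
  have hUc : Continuous (UU G) := by
    unfold UU
    exact ((hGc.add (hGc.comp continuous_sg))).const_smul _
  have hVc : Continuous (VV G) := by
    unfold VV
    exact ((continuous_ex.comp (by fun_prop)).smul (hGc.sub (hGc.comp continuous_sg))).const_smul _
  refine ⟨UU G, VV G, hUc, hVc, ?_, ?_, ?_, fun t => by rw [hGe]; exact UV G t⟩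
  · refine uc_of_tail hUc T₀ fun ε hε => ?_
    obtain ⟨δ, T, M, hδ, h1⟩ := hctrl ε hε
    exact ⟨δ, T, hδ, fun t ht t' ht' hd => (h1.1 t ht t' ht' hd).1⟩
  · refine uc_of_tail hVc T₀ fun ε hε => ?_
    obtain ⟨δ, T, M, hδ, h1⟩ := hctrl ε hε
    exact ⟨δ, T, hδ, fun t ht t' ht' hd => (h1.1 t ht t' ht' hd).2⟩
  · obtain ⟨δ, T, M, hδ, h1⟩ := hctrl 1 one_pos
    obtain ⟨M', hM'⟩ := (isCompact_Icc (a := T₀) (b := T)).exists_bound_of_continuousOn
      hVc.continuousOn
    refine ⟨max M M', fun t ht => ?_⟩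
    rcases le_total t T with h2 | h2
    · exact (hM' t ⟨ht, h2⟩).trans (le_max_right _ _)
    · exact (h1.2 t h2).trans (le_max_left _ _)

end Pool.Agent.V1198.DP
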