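import Pool.Agent.V1198.DP2

/-!
# Difference property: assembly
-/

set_option autoImplicit false
set_option linter.unusedSectionVars false

noncomputable section

open Filter Topology MeasureTheory Set

namespace Pool.Agent.V1198.DP

/-- The admissible intervals `[α, ∞)`, `(α, ∞)` and `ℝ`. -/
def Adm (J : Set ℝ) : Prop := (∃ α, J = Ici α) ∨ (∃ α, J = Ioi α) ∨ J = univ

variable {X : Type} [NormedAddCommGroup X] [NormedSpace ℂ X]

/-- Membership in `UC(J, X) + g UC(J, X)`, `g(t) = e^{it²}`. -/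
def InA (J : Set ℝ) (F : ℝ → X) : Prop := ∃ u v : ℝ → X,
  UniformContinuousOn u J ∧ UniformContinuousOn v J ∧
  ∀ t ∈ J, F t = u t + Complex.exp (Complex.I * (t : ℂ) ^ 2) • v t

theorem ex_sq (t : ℝ) : Complex.exp (Complex.I * (t : ℂ) ^ 2) = ex (t ^ 2) := by
  unfold ex
  push_cast
  rfl

theorem uc_comp {v : ℝ → X} {S S' : Set ℝ} (hv : UniformContinuousOn v S) {φ : ℝ → ℝ}
    (hφ : ∀ x y, |φ x - φ y| ≤ |x - y|) (hS : ∀ x ∈ S', φ x ∈ S) :
    UniformContinuousOn (fun t => v (φ t)) S' := by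
  rw [Metric.uniformContinuousOn_iff] at hv ⊢
  intro ε hε
  obtain ⟨δ, hδ, h⟩ := hv ε hε
  refine ⟨δ, hδ, fun x hx y hy hxy => h _ (hS x hx) _ (hS y hy) ?_⟩
  rw [Real.dist_eq] at hxy ⊢
  exact (hφ x y).trans_lt hxy

theorem uc_add {S : Set ℝ} {u v : ℝ → X} (hu : UniformContinuousOn u S)
    (hv : UniformContinuousOn v S) : UniformContinuousOn (fun t => u t + v t) S := by
  rw [Metric.uniformContinuousOn_iff] at hu hv ⊢
  intro ε hε
  obtain ⟨δ₁, hδ₁, h₁⟩ := hu (ε / 2) (by positivity)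
  obtain ⟨δ₂, hδ₂, h₂⟩ := hv (ε / 2) (by positivity)
  refine ⟨min δ₁ δ₂, lt_min hδ₁ hδ₂, fun x hx y hy hxy => ?_⟩
  have h3 := h₁ x hx y hy (hxy.trans_le (min_le_left _ _))
  have h4 := h₂ x hx y hy (hxy.trans_le (min_le_right _ _))
  rw [dist_eq_norm] at h3 h4 ⊢
  rw [add_sub_add_comm]
  exact (norm_add_le _ _).trans_lt (by linarith)

theorem uc_neg {S : Set ℝ} {u : ℝ → X} (hu : UniformContinuousOn u S) :
    UniformContinuousOn (fun t => -u t) S := by
  rw [Metric.uniformContinuousOn_iff] at hu ⊢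
  intro ε hε
  obtain ⟨δ₁, hδ₁, h₁⟩ := hu ε hε
  refine ⟨δ₁, hδ₁, fun x hx y hy hxy => ?_⟩
  rw [dist_neg_neg]
  exact h₁ x hx y hy hxy

theorem uc_sub {S : Set ℝ} {u v : ℝ → X} (hu : UniformContinuousOn u S)
    (hv : UniformContinuousOn v S) : UniformContinuousOn (fun t => u t - v t) S := by
  simp only [sub_eq_add_neg]
  exact uc_add hu (uc_neg hv)

theorem uc_congr {S : Set ℝ} {u v : ℝ → X} (hu : UniformContinuousOn u S)
    (h : ∀ t ∈ S, v t = u t) : UniformContinuousOn v S := by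
  rw [Metric.uniformContinuousOn_iff] at hu ⊢
  intro ε hε
  obtain ⟨δ₁, hδ₁, h₁⟩ := hu ε hε
  refine ⟨δ₁, hδ₁, fun x hx y hy hxy => ?_⟩
  rw [h x hx, h y hy]
  exact h₁ x hx y hy hxy

theorem uc_exsq {S : Set ℝ} {a b : ℝ} (hS : S ⊆ Icc a b) :
    UniformContinuousOn (fun t => ex (t ^ 2)) S :=
  (isCompact_Icc.uniformContinuousOn_of_continuous
    (continuous_ex.comp (continuous_pow 2)).continuousOn).mono hS

theorem bdd_of_uc {S : Set ℝ} {a b : ℝ} (hS : S ⊆ Icc a b) (hc : Convex ℝ S) {v : ℝ → X}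
    (hv : UniformContinuousOn v S) : ∃ M : ℝ, ∀ t ∈ S, ‖v t‖ ≤ M := by
  obtain ⟨L, hL, h⟩ := growth hc hv
  rcases S.eq_empty_or_nonempty with h0 | ⟨t₀, ht₀⟩
  · exact ⟨0, fun t ht => by rw [h0] at ht; exact ht.elim⟩
  · refine ⟨‖v t₀‖ + L * (1 + (b - a)), fun t ht => ?_⟩
    have h1 := h t ht t₀ ht₀
    have h2 : |t - t₀| ≤ b - a := by
      rw [abs_le]
      constructor <;> linarith [(hS ht).1, (hS ht).2, (hS ht₀).1, (hS ht₀).2]
    calc ‖v t‖ = ‖(v t - v t₀) + v t₀‖ := by rw [sub_add_cancel]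
      _ ≤ ‖v t - v t₀‖ + ‖v t₀‖ := norm_add_le _ _
      _ ≤ _ := by nlinarith

theorem uc_of_form {S : Set ℝ} {a b : ℝ} (hS : S ⊆ Icc a b) (hc : Convex ℝ S) {F u v : ℝ → X}
    (hu : UniformContinuousOn u S) (hv : UniformContinuousOn v S)
    (h : ∀ t ∈ S, F t = u t + ex (t ^ 2) • v t) : UniformContinuousOn F S := by
  obtain ⟨M, hM⟩ := bdd_of_uc hS hc hv
  exact uc_congr (uc_add hu (uc_smul (uc_exsq hS) (fun t _ => (norm_ex _).le) hv hM)) h

/-- Boundedness of the second component on a right half-line. -/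
theorem toHyp {f : ℝ → X} {T₀ : ℝ} (H : ∀ a : ℝ, 0 < a → ∃ u v : ℝ → X,
      UniformContinuousOn u (Ici T₀) ∧ UniformContinuousOn v (Ici T₀) ∧
      ∀ t, T₀ ≤ t → f (t + a) - f t = u t + ex (t ^ 2) • v t) : Hyp f T₀ := by
  intro a ha
  obtain ⟨u, v, hu, hv, h⟩ := H a ha
  obtain ⟨u', v', hu', hv', h'⟩ := H (2 * a) (by positivity)
  have htr : ∀ x y : ℝ, |(x + a) - (y + a)| ≤ |x - y| := fun x y => by
    rw [add_sub_add_right_eq_sub]
  have hmem : ∀ x ∈ Ici T₀, x + a ∈ Ici T₀ := fun x hx => by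
    rw [mem_Ici] at hx ⊢; linarith
  obtain ⟨M, hM⟩ := bounded_of_rel (T := T₀) (β := a) ha.ne' (x := fun t => v (t + a))
    (y := fun t => v' t - v t) (z := fun t => (u (t + a) + u t) - u' t)
    (uc_comp hv htr hmem) (uc_sub hv' hv) (uc_sub (uc_add (uc_comp hu htr hmem) hu) hu') (by
      intro t ht
      have h1 := h t ht
      have h2 := h (t + a) (by linarith)
      have h3 := h' t ht
      have h4 : t + a + a = t + 2 * a := by ring
      rw [h4] at h2
      have h5 : ex ((t + a) ^ 2) = ex (t ^ 2) * ex (2 * a * t + a ^ 2) := by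
        rw [← ex_add]; congr 1; ring
      have h6 : u' t + ex (t ^ 2) • v' t =
          (u (t + a) + ex ((t + a) ^ 2) • v (t + a)) + (u t + ex (t ^ 2) • v t) := by
        rw [← h1, ← h2, ← h3]; abel
      have h7 : ex (t ^ 2) • (v' t - v t - ex (2 * a * t + a ^ 2) • v (t + a)) =
          ex (t ^ 2) • v' t - ex (t ^ 2) • v t - ex ((t + a) ^ 2) • v (t + a) := by
        rw [smul_sub, smul_sub, smul_smul, ← h5]
      show (u (t + a) + u t) - u' t = ex (t ^ 2) • (v' t - v t - ex (2 * a * t + a ^ 2) • v (t + a))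
      rw [h7]
      have h8 : ex (t ^ 2) • v' t = (u (t + a) + ex ((t + a) ^ 2) • v (t + a)) +
          (u t + ex (t ^ 2) • v t) - u' t := by rw [← h6]; abel
      rw [h8]
      abel)
  obtain ⟨L, hL, hg⟩ := growth (convex_Ici T₀) hv
  refine ⟨u, v, hu, hv, ⟨M + L * (1 + a), fun t ht => ?_⟩, h⟩
  have h1 := hg t ht (t + a) (hmem t ht)
  have h2 : |t - (t + a)| = a := by rw [abs_sub_comm, add_sub_cancel_left, abs_of_pos ha]
  rw [h2] at h1
  have h3 := hM t ht
  calc ‖v t‖ = ‖(v t - v (t + a)) + v (t + a)‖ := by rw [sub_add_cancel]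
    _ ≤ ‖v t - v (t + a)‖ + ‖v (t + a)‖ := norm_add_le _ _
    _ ≤ _ := by linarith

/-- The hypothesis for the reflected function on the line. -/
theorem toHyp_neg {f : ℝ → X} (H : ∀ a : ℝ, 0 < a → ∃ u v : ℝ → X,
      UniformContinuousOn u univ ∧ UniformContinuousOn v univ ∧
      ∀ t, f (t + a) - f t = u t + ex (t ^ 2) • v t) : Hyp (fun t => f (-t)) 0 := by
  intro a ha
  obtain ⟨u, v, hu, hv, h⟩ := H a ha
  obtain ⟨u', v', hu', hv', h'⟩ := H (2 * a) (by positivity)
  have htr : ∀ c x y : ℝ, |(-x + c) - (-y + c)| ≤ |x - y| := fun c x y => by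
    rw [add_sub_add_right_eq_sub, ← abs_neg, neg_sub, neg_sub_neg, abs_sub_comm]
  have hmem : ∀ c : ℝ, ∀ x ∈ Ici (0 : ℝ), -x + c ∈ (univ : Set ℝ) := fun _ _ _ => trivial
  have htr0 : ∀ x y : ℝ, |(-x) - (-y)| ≤ |x - y| := fun x y => by
    rw [neg_sub_neg, abs_sub_comm]
  have hmem0 : ∀ x ∈ Ici (0 : ℝ), -x ∈ (univ : Set ℝ) := fun _ _ => trivial
  obtain ⟨M, hM⟩ := bounded_of_rel (T := 0) (β := -a) (neg_ne_zero.2 ha.ne')
    (x := fun t => v (-t + a))
    (y := fun t => v' (-t) - v (-t)) (z := fun t => (u (-t + a) + u (-t)) - u' (-t))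
    (uc_comp hv (htr a) (hmem a)) (uc_sub (uc_comp hv' htr0 hmem0) (uc_comp hv htr0 hmem0))
    (uc_sub (uc_add (uc_comp hu (htr a) (hmem a)) (uc_comp hu htr0 hmem0))
      (uc_comp hu' htr0 hmem0)) (by
      intro t _
      have h1 := h (-t)
      have h2 := h (-t + a)
      have h3 := h' (-t)
      have h4 : -t + a + a = -t + 2 * a := by ring
      rw [h4] at h2
      have hsq : (-t) ^ 2 = t ^ 2 := by ring
      rw [hsq] at h1 h3
      have h5 : ex ((-t + a) ^ 2) = ex (t ^ 2) * ex (2 * -a * t + (-a) ^ 2) := by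
        rw [← ex_add]; congr 1; ring
      have h6 : u' (-t) + ex (t ^ 2) • v' (-t) =
          (u (-t + a) + ex ((-t + a) ^ 2) • v (-t + a)) + (u (-t) + ex (t ^ 2) • v (-t)) := by
        rw [← h1, ← h2, ← h3]; abel
      have h7 : ex (t ^ 2) • (v' (-t) - v (-t) - ex (2 * -a * t + (-a) ^ 2) • v (-t + a)) =
          ex (t ^ 2) • v' (-t) - ex (t ^ 2) • v (-t) - ex ((-t + a) ^ 2) • v (-t + a) := by
        rw [smul_sub, smul_sub, smul_smul, ← h5]
      show (u (-t + a) + u (-t)) - u' (-t) =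
        ex (t ^ 2) • (v' (-t) - v (-t) - ex (2 * -a * t + (-a) ^ 2) • v (-t + a))
      rw [h7]
      have h8 : ex (t ^ 2) • v' (-t) = (u (-t + a) + ex ((-t + a) ^ 2) • v (-t + a)) +
          (u (-t) + ex (t ^ 2) • v (-t)) - u' (-t) := by rw [← h6]; abel
      rw [h8]
      abel)
  have hvb : ∀ x : ℝ, 0 ≤ x → ‖v (-x + -a)‖ ≤ M := by
    intro x hx
    have h1 := hM (x + 2 * a) (by linarith)
    have h2 : -(x + 2 * a) + a = -x + -a := by ring
    simp only [h2] at h1
    exact h1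
  have huc : UniformContinuousOn (fun x => v (-x + -a)) (Ici (0 : ℝ)) :=
    uc_comp hv (htr (-a)) (hmem (-a))
  refine ⟨fun t => -u (-t + -a), fun t => -(ex (2 * a * t + a ^ 2) • v (-t + -a)),
    uc_neg (uc_comp hu (htr (-a)) (hmem (-a))),
    uc_neg (uc_smul (uc_ex_lin _ _ _) (fun t _ => (norm_ex _).le) huc (fun t ht => hvb t ht)),
    ⟨M, fun t ht => ?_⟩, fun t ht => ?_⟩
  · show ‖-(ex (2 * a * t + a ^ 2) • v (-t + -a))‖ ≤ M
    rw [norm_neg, norm_smul, norm_ex, one_mul]
    exact hvb t ht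
  · have h1 := h (-t + -a)
    have h2 : -t + -a + a = -t := by ring
    have h3 : ex ((-t + -a) ^ 2) = ex (t ^ 2) * ex (2 * a * t + a ^ 2) := by
      rw [← ex_add]; congr 1; ring
    rw [h2, h3, mul_smul] at h1
    show f (-(t + a)) - f (-t) =
      -u (-t + -a) + ex (t ^ 2) • -(ex (2 * a * t + a ^ 2) • v (-t + -a))
    have h4 : -(t + a) = -t + -a := by ring
    have h5 : f (-t + -a) - f (-t) = -(f (-t) - f (-t + -a)) := by abel
    rw [h4, h5, h1, smul_neg, neg_add]

/-- Cutoff function. -/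
def chi (t : ℝ) : ℂ := ((max 0 (min 1 t) : ℝ) : ℂ)

theorem chi_lip (x y : ℝ) : ‖chi x - chi y‖ ≤ |x - y| := by
  unfold chi
  rw [← Complex.ofReal_sub, Complex.norm_real, Real.norm_eq_abs]
  have h := ((LipschitzWith.id (α := ℝ)).const_min 1).const_max 0
  have := h.dist_le_mul x y
  simpa [Real.dist_eq] using this

theorem chi_le (t : ℝ) : ‖chi t‖ ≤ 1 := by
  unfold chi
  rw [Complex.norm_real, Real.norm_eq_abs, abs_of_nonneg (le_max_left _ _)]
  exact max_le zero_le_one (min_le_left _ _)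

theorem chi_one {t : ℝ} (h : 1 ≤ t) : chi t = 1 := by
  unfold chi
  rw [min_eq_left h, max_eq_right zero_le_one, Complex.ofReal_one]

theorem chi_zero {t : ℝ} (h : t ≤ 0) : chi t = 0 := by
  unfold chi
  rw [max_eq_left ((min_le_right _ _).trans h), Complex.ofReal_zero]

theorem uc_chi {S : Set ℝ} {φ : ℝ → ℝ} (hφ : ∀ x y, |φ x - φ y| ≤ |x - y|) :
    UniformContinuousOn (fun t => chi (φ t)) S := by
  rw [Metric.uniformContinuousOn_iff]
  intro ε hε
  refine ⟨ε, hε, fun x _ y _ hxy => ?_⟩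
  rw [dist_eq_norm]
  rw [Real.dist_eq] at hxy
  exact ((chi_lip _ _).trans (hφ x y)).trans_lt hxy

theorem max_lip (c x y : ℝ) : |max x c - max y c| ≤ |x - y| := abs_max_sub_max_le_abs x y c

variable [CompleteSpace X]

/-- Continuity on the interval. -/
theorem cont_Ici {f : ℝ → X} {T₀ : ℝ} (hf : ∀ R, IntegrableOn f (Icc T₀ R))
    (H : ∀ a : ℝ, 0 < a → ∃ u v : ℝ → X,
      UniformContinuousOn u (Ici T₀) ∧ UniformContinuousOn v (Ici T₀) ∧
      ∀ t, T₀ ≤ t → f (t + a) - f t = u t + ex (t ^ 2) • v t) : ContinuousOn f (Ici T₀) := by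
  have h1 : ∀ R, ContinuousOn f (Icc T₀ R) := fun R => by
    refine continuousOn_of_diff (hf _) fun s hs _ => ?_
    obtain ⟨u, v, hu, hv, h⟩ := H s hs
    have h2 : ContinuousOn (fun t => u t + ex (t ^ 2) • v t) (Ici T₀) :=
      hu.continuousOn.add ((continuous_ex.comp (continuous_pow 2)).continuousOn.smul
        hv.continuousOn)
    refine ContinuousOn.congr (h2.mono Icc_subset_Ici_self) fun t ht => h t ht.1
  intro t ht
  have ht' : T₀ ≤ t := ht
  have h2 := (h1 (t + 1)) t ⟨ht', by linarith⟩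
  refine h2.mono_of_mem_nhdsWithin ?_
  have h3 : Iic (t + 1) ∈ 𝓝[Ici T₀] t :=
    mem_nhdsWithin_of_mem_nhds (Iic_mem_nhds (show t < t + 1 by linarith))
  exact mem_of_superset (inter_mem self_mem_nhdsWithin h3) fun s hs => ⟨hs.1, hs.2⟩

/-- The conclusion at the right end. -/
theorem right_end {f : ℝ → X} {T₀ : ℝ} (hf : ContinuousOn f (Ici T₀))
    (H : ∀ a : ℝ, 0 < a → ∃ u v : ℝ → X,
      UniformContinuousOn u (Ici T₀) ∧ UniformContinuousOn v (Ici T₀) ∧
      ∀ t, T₀ ≤ t → f (t + a) - f t = u t + ex (t ^ 2) • v t) {h : ℝ} (hh : 0 < h) :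
    ∃ U V : ℝ → X, UniformContinuousOn U (Ici T₀) ∧
      UniformContinuousOn V (Ici T₀) ∧ (∃ M : ℝ, ∀ t, T₀ ≤ t → ‖V t‖ ≤ M) ∧
      ∀ t, T₀ ≤ t → (1 / h : ℝ) • (∫ s in t..t + h, f s) - f t = U t + ex (t ^ 2) • V t := by
  set g : ℝ → X := fun t => f (max t T₀) with hg
  have hgf : ∀ t, T₀ ≤ t → g t = f t := fun t ht => by simp only [hg]; rw [max_eq_left ht]
  have hgc : Continuous g := by
    refine hf.comp_continuous (continuous_id.max continuous_const) fun t => ?_
    exact (show T₀ ≤ max t T₀ from le_max_right _ _)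
  have hH : Hyp g T₀ := toHyp fun a ha => by
    obtain ⟨u, v, hu, hv, h1⟩ := H a ha
    refine ⟨u, v, hu, hv, fun t ht => ?_⟩
    rw [hgf t ht, hgf (t + a) (by linarith)]
    exact h1 t ht
  obtain ⟨U, V, -, -, hU, hV, hM, h1⟩ := half_line hgc hH hh
  refine ⟨U, V, hU, hV, hM, fun t ht => ?_⟩
  rw [← h1 t, hgf t ht]
  congr 2
  refine intervalIntegral.integral_congr fun s hs => ?_
  rw [uIcc_of_le (by linarith)] at hs
  exact (hgf s (ht.trans hs.1)).symm

/-- Uniform continuity of the means. -/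
theorem uc_mean {f : ℝ → X} {J : Set ℝ} (hJ : ∀ t ∈ J, Ici t ⊆ J) (hfc : ContinuousOn f J)
    {b h : ℝ} (hh : 0 < h) (hf : UniformContinuousOn f (J ∩ Iic (b + h))) :
    UniformContinuousOn (fun t => (1 / h : ℝ) • (∫ s in t..t + h, f s)) (J ∩ Iic b) := by
  rw [Metric.uniformContinuousOn_iff] at hf ⊢
  intro ε hε
  obtain ⟨δ, hδ, h1⟩ := hf (ε / 2) (by positivity)
  refine ⟨δ, hδ, fun t ht t' ht' hd => ?_⟩
  have hint : ∀ t ∈ J, IntervalIntegrable (fun s => f (t + s)) volume 0 h := by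
    intro t ht
    refine ContinuousOn.intervalIntegrable ?_
    rw [uIcc_of_le hh.le]
    refine hfc.comp (by fun_prop) fun s hs => hJ t ht ?_
    show t ≤ t + s
    linarith [hs.1]
  have hch : ∀ t, ∫ s in t..t + h, f s = ∫ s in (0 : ℝ)..h, f (t + s) := fun t => by
    rw [intervalIntegral.integral_comp_add_left, add_zero]
  rw [dist_eq_norm, ← smul_sub, hch, hch,
    ← intervalIntegral.integral_sub (hint t ht.1) (hint t' ht'.1), norm_smul,
    Real.norm_of_nonneg (by positivity)]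
  have h3 : ‖∫ s in (0 : ℝ)..h, (f (t + s) - f (t' + s))‖ ≤ (ε / 2) * |h - 0| :=
    intervalIntegral.norm_integral_le_of_norm_le_const fun s hs => by
      rw [uIoc_of_le hh.le] at hs
      have htb : t ≤ b := ht.2
      have htb' : t' ≤ b := ht'.2
      have h4 := h1 (t + s) ⟨hJ t ht.1 (show t ≤ t + s by linarith [hs.1]),
        show t + s ≤ b + h by linarith [hs.2]⟩ (t' + s)
        ⟨hJ t' ht'.1 (show t' ≤ t' + s by linarith [hs.1]), show t' + s ≤ b + h by linarith [hs.2]⟩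
        (by rw [Real.dist_eq, add_sub_add_right_eq_sub, ← Real.dist_eq]; exact hd)
      rw [dist_eq_norm] at h4
      exact h4.le
  rw [sub_zero, abs_of_pos hh] at h3
  have h5 : (1 / h) * ‖∫ s in (0 : ℝ)..h, (f (t + s) - f (t' + s))‖ ≤ ε / 2 := by
    rw [div_mul_eq_mul_div, one_mul, div_le_iff₀ hh]
    exact h3
  linarith

/-- Half-lines. -/
theorem main_half {f : ℝ → X} {J : Set ℝ} {α : ℝ} (hJα : J ⊆ Ici α)
    (hJ : ∀ t ∈ J, Ici t ⊆ J) {T₀ : ℝ} (hT₀ : T₀ ∈ J) (hfc : ContinuousOn f J)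
    (hfu : ∀ b, UniformContinuousOn f (J ∩ Iic b))
    (H : ∀ a : ℝ, 0 < a → InA J (fun t => f (t + a) - f t)) {h : ℝ} (hh : 0 < h) :
    InA J (fun t => f t - (1 / h : ℝ) • (∫ s in t..t + h, f s)) := by
  have hTJ : Ici T₀ ⊆ J := hJ T₀ hT₀
  obtain ⟨U, V, hU, hV, ⟨M, hM⟩, h1⟩ := right_end (hfc.mono hTJ) (fun a ha => by
    obtain ⟨u, v, hu, hv, h1⟩ := H a ha
    exact ⟨u, v, hu.mono hTJ, hv.mono hTJ, fun t ht => by
      have h2 := h1 t (hTJ ht)
      rw [ex_sq] at h2
      exact h2⟩) hh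
  set v : ℝ → X := fun t => -(chi (t - T₀) • V (max t T₀)) with hv
  set G : ℝ → X := fun t => f t - (1 / h : ℝ) • (∫ s in t..t + h, f s) with hG
  have hVm : UniformContinuousOn (fun t => V (max t T₀)) univ :=
    uc_comp hV (fun x y => max_lip T₀ x y) fun x _ =>
      (show T₀ ≤ max x T₀ from le_max_right _ _)
  have hVM : ∀ t : ℝ, ‖V (max t T₀)‖ ≤ M := fun t => hM _ (le_max_right _ _)
  have hvu : UniformContinuousOn v univ := uc_neg (uc_smul (uc_chi fun x y => by
    rw [sub_sub_sub_cancel_right]) (fun t _ => chi_le _) hVm fun t _ => hVM t)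
  have hvM : ∀ t, ‖v t‖ ≤ M := fun t => by
    simp only [hv]
    rw [norm_neg, norm_smul]
    exact (mul_le_of_le_one_left (norm_nonneg _) (chi_le _)).trans (hVM t)
  refine ⟨fun t => G t - ex (t ^ 2) • v t, v, ?_, hvu.mono (subset_univ _), fun t ht => ?_⟩
  · refine uc_patch (a := T₀ + 1) (b := T₀ + 2) (by linarith) ?_ ?_
    · have hsub : J ∩ Iic (T₀ + 2) ⊆ Icc α (T₀ + 2) := fun t ht => ⟨hJα ht.1, ht.2⟩
      refine uc_sub (uc_sub (hfu _) (uc_mean hJ hfc hh (hfu _))) ?_
      exact uc_smul (uc_exsq hsub) (fun t _ => (norm_ex _).le) (hvu.mono (subset_univ _))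
        fun t _ => hvM t
    · have hU' : UniformContinuousOn U (J ∩ Ici (T₀ + 1)) := hU.mono fun t ht => by
        have : T₀ + 1 ≤ t := ht.2
        show T₀ ≤ t
        linarith
      refine uc_congr (uc_neg hU') fun t ht => ?_
      · have h2 : T₀ + 1 ≤ t := ht.2
        have h3 := h1 t (by linarith)
        simp only [hG, hv]
        rw [chi_one (by linarith), one_smul, max_eq_left (by linarith), smul_neg, sub_neg_eq_add]
        have h4 : U t = (1 / h : ℝ) • (∫ s in t..t + h, f s) - f t - ex (t ^ 2) • V t := by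
          rw [h3]; abel
        rw [h4]
        abel
  · rw [ex_sq]
    show G t = G t - ex (t ^ 2) • v t + ex (t ^ 2) • v t
    rw [sub_add_cancel]

/-- The whole line. -/
theorem main_line {f : ℝ → X} (hfc : Continuous f)
    (H : ∀ a : ℝ, 0 < a → InA univ (fun t => f (t + a) - f t)) {h : ℝ} (hh : 0 < h) :
    InA univ (fun t => f t - (1 / h : ℝ) • (∫ s in t..t + h, f s)) := by
  have H' : ∀ a : ℝ, 0 < a → ∃ u v : ℝ → X,
      UniformContinuousOn u univ ∧ UniformContinuousOn v univ ∧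
      ∀ t, f (t + a) - f t = u t + ex (t ^ 2) • v t := fun a ha => by
    obtain ⟨u, v, hu, hv, h1⟩ := H a ha
    exact ⟨u, v, hu, hv, fun t => by
      have h2 := h1 t trivial
      rw [ex_sq] at h2
      exact h2⟩
  obtain ⟨U, V, hU, hV, ⟨M, hM⟩, h1⟩ := right_end (T₀ := 0) hfc.continuousOn (fun a ha => by
    obtain ⟨u, v, hu, hv, h1⟩ := H' a ha
    exact ⟨u, v, hu.mono (subset_univ _), hv.mono (subset_univ _), fun t _ => h1 t⟩) hh
  have hHn := toHyp_neg H'
  obtain ⟨Un, Vn, -, -, hUn, hVn, ⟨Mn, hMn⟩, h2⟩ :=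
    half_line (f := fun t => f (-t)) (hfc.comp continuous_neg) hHn hh
  obtain ⟨un, vn, hun, hvn, ⟨mn, hmn⟩, h3⟩ := hHn h hh
  set Ub : ℝ → X := fun x => Un (x - h) - un (x - h) with hUb
  set Vb : ℝ → X := fun x => ex (-(2 * h) * x + h ^ 2) • (Vn (x - h) - vn (x - h)) with hVb
  have htr : ∀ x y : ℝ, |(x - h) - (y - h)| ≤ |x - y| := fun x y => by
    rw [sub_sub_sub_cancel_right]
  have hmem : ∀ x ∈ Ici h, x - h ∈ Ici (0 : ℝ) := fun x hx => by
    rw [mem_Ici] at hx ⊢; linarith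
  have hUbu : UniformContinuousOn Ub (Ici h) :=
    uc_sub (uc_comp hUn htr hmem) (uc_comp hun htr hmem)
  have hVbM : ∀ x, h ≤ x → ‖Vb x‖ ≤ Mn + mn := fun x hx => by
    simp only [hVb]
    rw [norm_smul, norm_ex, one_mul]
    exact (norm_sub_le _ _).trans (add_le_add (hMn _ (by linarith)) (hmn _ (by linarith)))
  have hVbu : UniformContinuousOn Vb (Ici h) :=
    uc_smul (uc_ex_lin _ _ _) (fun t _ => (norm_ex _).le)
      (uc_sub (uc_comp hVn htr hmem) (uc_comp hvn htr hmem)) (M := Mn + mn) (fun x hx => by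
        have hx' : h ≤ x := hx
        exact (norm_sub_le _ _).trans (add_le_add (hMn _ (by linarith)) (hmn _ (by linarith))))
  have h4 : ∀ x, h ≤ x → (1 / h : ℝ) • (∫ s in -x..-x + h, f s) - f (-x) =
      Ub x + ex (x ^ 2) • Vb x := by
    intro x hx
    have h5 := h2 (x - h)
    have h6 := h3 (x - h) (by linarith)
    have h7 : x - h + h = x := by ring
    rw [h7] at h5 h6
    have h8 : ∫ s in -x..-x + h, f s = ∫ s in (x - h)..x, f (-s) := by
      rw [intervalIntegral.integral_comp_neg]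
      congr 1
      ring
    have h9 : ex (x ^ 2) • Vb x = ex ((x - h) ^ 2) • (Vn (x - h) - vn (x - h)) := by
      simp only [hVb]
      rw [smul_smul, ← ex_add]
      congr 2
      ring
    have h10 : ex ((x - h) ^ 2) • (Vn (x - h) - vn (x - h)) =
        ex ((x - h) ^ 2) • Vn (x - h) - ex ((x - h) ^ 2) • vn (x - h) := smul_sub _ _ _
    rw [h8, h9, h10]
    have h11 : Un (x - h) = (1 / h : ℝ) • (∫ s in (x - h)..x, f (-s)) - f (-(x - h)) -
        ex ((x - h) ^ 2) • Vn (x - h) := by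
      rw [h5]; abel
    have h12 : un (x - h) = f (-x) - f (-(x - h)) - ex ((x - h) ^ 2) • vn (x - h) := by
      rw [h6]; abel
    simp only [hUb]
    rw [h11, h12]
    abel
  set v : ℝ → X := fun t => -(chi t • V (max t 0)) - chi (-t - h) • Vb (max (-t) h) with hv
  set G : ℝ → X := fun t => f t - (1 / h : ℝ) • (∫ s in t..t + h, f s) with hG
  have hVm : UniformContinuousOn (fun t => V (max t 0)) univ :=
    uc_comp hV (fun x y => max_lip 0 x y) fun x _ =>
      (show (0 : ℝ) ≤ max x 0 from le_max_right _ _)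
  have hVM : ∀ t : ℝ, ‖V (max t 0)‖ ≤ M := fun t => hM _ (le_max_right _ _)
  have hVbm : UniformContinuousOn (fun t => Vb (max (-t) h)) univ :=
    uc_comp hVbu (fun x y => (max_lip h (-x) (-y)).trans (by rw [neg_sub_neg, abs_sub_comm]))
      fun x _ => (show h ≤ max (-x) h from le_max_right _ _)
  have hVbM' : ∀ t : ℝ, ‖Vb (max (-t) h)‖ ≤ Mn + mn := fun t => hVbM _ (le_max_right _ _)
  have hvu : UniformContinuousOn v univ := by
    refine uc_sub (uc_neg (uc_smul (uc_chi (φ := fun t => t) fun x y => le_rfl)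
      (fun t _ => chi_le _) hVm fun t _ => hVM t)) ?_
    refine uc_smul (uc_chi (φ := fun t => -t - h) fun x y => ?_) (fun t _ => chi_le _) hVbm
      fun t _ => hVbM' t
    rw [sub_sub_sub_cancel_right, neg_sub_neg, abs_sub_comm]
  have hvc : Continuous v := by
    rw [← continuousOn_univ]
    exact hvu.continuousOn
  have hGc : Continuous G := by
    have h5 : ∀ t, ∫ s in t..t + h, f s = ∫ s in (0 : ℝ)..h, f (t + s) := fun t => by
      rw [intervalIntegral.integral_comp_add_left, add_zero]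
    simp only [hG, h5]
    refine hfc.sub (Continuous.const_smul ?_ _)
    exact intervalIntegral.continuous_parametric_intervalIntegral_of_continuous'
      (f := fun t s => f (t + s)) (by fun_prop) 0 h
  refine ⟨fun t => G t - ex (t ^ 2) • v t, v, ?_, hvu, fun t _ => ?_⟩
  · have huc : Continuous fun t => G t - ex (t ^ 2) • v t :=
      hGc.sub ((continuous_ex.comp (continuous_pow 2)).smul hvc)
    refine uc_patch (a := 1) (b := 2) (by norm_num) ?_ ?_
    · rw [univ_inter]
      refine uc_patch (a := -h - 2) (b := -h - 1) (by linarith) ?_ ?_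
      · refine uc_congr (uc_neg (uc_comp (S' := Iic 2 ∩ Iic (-h - 1)) hUbu (φ := fun t => -t)
          (fun x y => by rw [neg_sub_neg, abs_sub_comm]) fun t ht => ?_)) fun t ht => ?_
        · have : t ≤ -h - 1 := ht.2
          show h ≤ -t
          linarith
        · have h5 : t ≤ -h - 1 := ht.2
          have h6 := h4 (-t) (by linarith)
          rw [neg_neg] at h6
          have h7 : (-t) ^ 2 = t ^ 2 := by ring
          rw [h7] at h6
          simp only [hG, hv]
          rw [chi_zero (by linarith : t ≤ 0), zero_smul, neg_zero, zero_sub,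
            chi_one (by linarith), one_smul, max_eq_left (by linarith), smul_neg, sub_neg_eq_add]
          have h8 : Ub (-t) = (1 / h : ℝ) • (∫ s in t..t + h, f s) - f t -
              ex (t ^ 2) • Vb (-t) := by rw [h6]; abel
          rw [h8]
          abel
      · refine (isCompact_Icc (a := -h - 2) (b := 2)).uniformContinuousOn_of_continuous
          huc.continuousOn |>.mono fun t ht => ⟨ht.2, ht.1⟩
    · rw [univ_inter]
      have hU' : UniformContinuousOn U (Ici 1) := hU.mono fun t ht => by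
        have : (1 : ℝ) ≤ t := ht
        show (0 : ℝ) ≤ t
        linarith
      refine uc_congr (uc_neg hU') fun t ht => ?_
      · have h5 : (1 : ℝ) ≤ t := ht
        have h6 := h1 t (by linarith)
        simp only [hG, hv]
        rw [chi_one h5, one_smul, max_eq_left (by linarith), chi_zero (by linarith : -t - h ≤ 0),
          zero_smul, sub_zero, smul_neg, sub_neg_eq_add]
        have h8 : U t = (1 / h : ℝ) • (∫ s in t..t + h, f s) - f t -
              ex (t ^ 2) • V t := by rw [h6]; abel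
        rw [h8]
        abel
  · rw [ex_sq]
    show G t = G t - ex (t ^ 2) • v t + ex (t ^ 2) • v t
    rw [sub_add_cancel]

/-- **Theorem.** `UC(J, X) + g UC(J, X)` satisfies `(Δ)`. -/
theorem difference_property {J : Set ℝ} (hJ : Adm J) {f : ℝ → X}
    (hf : ∀ a b, a ∈ J → b ∈ J → IntegrableOn f (Icc a b))
    (H : ∀ a : ℝ, 0 < a → InA J (fun t => f (t + a) - f t)) {h : ℝ} (hh : 0 < h) :
    InA J (fun t => f t - (1 / h : ℝ) • (∫ s in t..t + h, f s)) := by
  have hup : ∀ t ∈ J, Ici t ⊆ J := by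
    rcases hJ with ⟨α, rfl⟩ | ⟨α, rfl⟩ | rfl
    · intro t ht s hs
      exact (show α ≤ s from le_trans (show α ≤ t from ht) (show t ≤ s from hs))
    · intro t ht s hs
      exact (show α < s from lt_of_lt_of_le (show α < t from ht) (show t ≤ s from hs))
    · intro t _ s _
      trivial
  have hI : ∀ T₀ ∈ J, ContinuousOn f (Ici T₀) := by
    intro T₀ hT₀
    refine cont_Ici (fun R => ?_) fun a ha => ?_
    · rcases le_total T₀ R with h1 | h1
      · exact hf T₀ R hT₀ (hup T₀ hT₀ h1)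
      · refine (hf T₀ T₀ hT₀ hT₀).mono_set (Icc_subset_Icc le_rfl h1)
    · obtain ⟨u, v, hu, hv, h1⟩ := H a ha
      exact ⟨u, v, hu.mono (hup T₀ hT₀), hv.mono (hup T₀ hT₀),
        fun t ht => by
          have h2 := h1 t (hup T₀ hT₀ ht)
          rw [ex_sq] at h2
          exact h2⟩
  rcases hJ with ⟨α, rfl⟩ | ⟨α, rfl⟩ | rfl
  · have hα : α ∈ Ici α := le_refl α
    refine main_half (α := α) (fun t ht => ht) hup (T₀ := α) hα (hI α hα)
      (fun b => ?_) H hh
    have : Ici α ∩ Iic b = Icc α b := rfl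
    rw [this]
    exact isCompact_Icc.uniformContinuousOn_of_continuous
      ((hI α hα).mono Icc_subset_Ici_self)
  · have hcont : ContinuousOn f (Ioi α) := by
      intro t ht
      have ht' : α < t := ht
      have h1 := hI ((α + t) / 2) (show α < (α + t) / 2 by linarith) t
        (show (α + t) / 2 ≤ t by linarith)
      refine h1.mono_of_mem_nhdsWithin (mem_nhdsWithin_of_mem_nhds (Ici_mem_nhds (by linarith)))
    refine main_half (α := α) Ioi_subset_Ici_self hup (T₀ := α + 1)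
      (show α < α + 1 by linarith) hcont (fun b => ?_) H hh
    obtain ⟨u, v, hu, hv, h1⟩ := H 1 one_pos
    have hsub : Ioi α ∩ Iic b ⊆ Icc α b := fun t ht => ⟨le_of_lt ht.1, ht.2⟩
    have hc : Convex ℝ (Ioi α ∩ Iic b) := (convex_Ioi α).inter (convex_Iic b)
    have h2 : UniformContinuousOn (fun t => f (t + 1) - f t) (Ioi α ∩ Iic b) :=
      uc_of_form hsub hc (hu.mono inter_subset_left) (hv.mono inter_subset_left)
        fun t ht => by
          have h2 := h1 t ht.1
          rw [ex_sq] at h2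
          exact h2
    have h3 : UniformContinuousOn f (Icc (α + 1) (b + 1)) :=
      isCompact_Icc.uniformContinuousOn_of_continuous
        ((hI (α + 1) (show α < α + 1 by linarith)).mono Icc_subset_Ici_self)
    have h4 : UniformContinuousOn (fun t => f (t + 1)) (Ioi α ∩ Iic b) :=
      uc_comp h3 (fun x y => by rw [add_sub_add_right_eq_sub]) fun t ht => by
        have h5 : α < t := ht.1
        have h6 : t ≤ b := ht.2
        exact ⟨by linarith, by linarith⟩
    refine uc_congr (uc_sub h4 h2) fun t _ => ?_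
    abel
  · refine main_line ?_ H hh
    rw [continuous_iff_continuousAt]
    intro t
    exact (hI (t - 1) trivial).continuousAt (Ici_mem_nhds (by linarith))

end Pool.Agent.V1198.DP
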