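import Mathlib

/-!
# The free Banach lattice generated by a Banach space, as a space of functions on the dual
-/

set_option autoImplicit false

noncomputable section

open Filter Topology

namespace Pool.Agent.V1198.FB

variable (E : Type*) [NormedAddCommGroup E] [NormedSpace ℝ E]

/-- The dual space. -/
abbrev Dual' : Type _ := E →L[ℝ] ℝ

variable {E}

/-- The family `φ` of functionals satisfies `∑ |φ i x| ≤ 1` for `‖x‖ ≤ 1`. -/
def Adm {m : ℕ} (φ : Fin m → Dual' E) : Prop := ∀ x : E, ‖x‖ ≤ 1 → ∑ i, |φ i x| ≤ 1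

/-- The sums `∑ |f (φ i)|` over the families `φ` with `∑ |φ i x| ≤ 1` for `‖x‖ ≤ 1`. -/
def sums (f : Dual' E → ℝ) : Set ℝ :=
  {r | ∃ (m : ℕ) (φ : Fin m → Dual' E), Adm φ ∧ r = ∑ i, |f (φ i)|}

/-- Positively homogeneous functions. -/
def PosHom (f : Dual' E → ℝ) : Prop := ∀ (t : ℝ) (φ : Dual' E), 0 ≤ t → f (t • φ) = t * f φ

theorem zero_mem_sums (f : Dual' E → ℝ) : (0 : ℝ) ∈ sums f :=
  ⟨0, fun i => i.elim0, fun x _ => by simp, by simp⟩

theorem bdd_add {f g : Dual' E → ℝ} (hf : BddAbove (sums f)) (hg : BddAbove (sums g)) :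
    BddAbove (sums (f + g)) := by
  obtain ⟨C, hC⟩ := hf
  obtain ⟨D, hD⟩ := hg
  refine ⟨C + D, ?_⟩
  rintro _ ⟨m, φ, hφ, rfl⟩
  calc ∑ i, |(f + g) (φ i)| ≤ ∑ i, (|f (φ i)| + |g (φ i)|) :=
        Finset.sum_le_sum fun i _ => abs_add_le _ _
    _ = ∑ i, |f (φ i)| + ∑ i, |g (φ i)| := Finset.sum_add_distrib
    _ ≤ C + D := add_le_add (hC ⟨m, φ, hφ, rfl⟩) (hD ⟨m, φ, hφ, rfl⟩)

theorem bdd_smul {f : Dual' E → ℝ} (c : ℝ) (hf : BddAbove (sums f)) :
    BddAbove (sums (c • f)) := by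
  obtain ⟨C, hC⟩ := hf
  refine ⟨|c| * C, ?_⟩
  rintro _ ⟨m, φ, hφ, rfl⟩
  calc ∑ i, |(c • f) (φ i)| = |c| * ∑ i, |f (φ i)| := by
        rw [Finset.mul_sum]
        exact Finset.sum_congr rfl fun i _ => by rw [Pi.smul_apply, smul_eq_mul, abs_mul]
    _ ≤ |c| * C := mul_le_mul_of_nonneg_left (hC ⟨m, φ, hφ, rfl⟩) (abs_nonneg _)

variable (E)

/-- `H[E]`: the positively homogeneous functions on the dual for which the supremum of the sums
`∑ |f (φ i)|` is finite. -/
def Hsub : Submodule ℝ (Dual' E → ℝ) where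
  carrier := {f | PosHom f ∧ BddAbove (sums f)}
  add_mem' := fun {f g} hf hg =>
    ⟨fun t φ ht => by simp only [Pi.add_apply]; rw [hf.1 t φ ht, hg.1 t φ ht, mul_add],
      bdd_add hf.2 hg.2⟩
  zero_mem' := ⟨fun t φ _ => by simp, ⟨0, by rintro _ ⟨m, φ, _, rfl⟩; simp⟩⟩
  smul_mem' := fun c f hf =>
    ⟨fun t φ ht => by
      simp only [Pi.smul_apply, smul_eq_mul]; rw [hf.1 t φ ht]; ring, bdd_smul c hf.2⟩

/-- The space `H[E]`. -/
def H : Type _ := Hsub E

variable {E}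

instance : AddCommGroup (H E) := inferInstanceAs (AddCommGroup (Hsub E))

instance : Module ℝ (H E) := inferInstanceAs (Module ℝ (Hsub E))

instance : CoeFun (H E) fun _ => Dual' E → ℝ := ⟨fun f => f.1⟩

@[ext] theorem H.ext {f g : H E} (h : ∀ φ, f φ = g φ) : f = g := Subtype.ext (funext h)

@[simp] theorem H.add_apply (f g : H E) (φ : Dual' E) : (f + g) φ = f φ + g φ := rfl

@[simp] theorem H.sub_apply (f g : H E) (φ : Dual' E) : (f - g) φ = f φ - g φ := rfl

@[simp] theorem H.neg_apply (f : H E) (φ : Dual' E) : (-f) φ = -f φ := rfl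

@[simp] theorem H.zero_apply (φ : Dual' E) : (0 : H E) φ = 0 := rfl

@[simp] theorem H.smul_apply (c : ℝ) (f : H E) (φ : Dual' E) : (c • f) φ = c * f φ := rfl

/-- `‖f‖ = sup ∑ |f (φ i)|`. -/
instance : Norm (H E) := ⟨fun f => sSup (sums f.1)⟩

theorem H.norm_def (f : H E) : ‖f‖ = sSup (sums f.1) := rfl

theorem H.sum_le_norm (f : H E) {m : ℕ} {φ : Fin m → Dual' E} (hφ : Adm φ) :
    ∑ i, |f (φ i)| ≤ ‖f‖ := le_csSup f.2.2 ⟨m, φ, hφ, rfl⟩

theorem H.norm_le {f : H E} {C : ℝ} (h : ∀ (m : ℕ) (φ : Fin m → Dual' E), Adm φ →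
    ∑ i, |f (φ i)| ≤ C) : ‖f‖ ≤ C := by
  refine csSup_le ⟨0, zero_mem_sums _⟩ ?_
  rintro _ ⟨m, φ, hφ, rfl⟩
  exact h m φ hφ

theorem H.exists_lt {f : H E} {C : ℝ} (h : C < ‖f‖) :
    ∃ (m : ℕ) (φ : Fin m → Dual' E), Adm φ ∧ C < ∑ i, |f (φ i)| := by
  obtain ⟨_, ⟨m, φ, hφ, rfl⟩, h2⟩ := exists_lt_of_lt_csSup ⟨0, zero_mem_sums _⟩ h
  exact ⟨m, φ, hφ, h2⟩

theorem H.norm_nonneg' (f : H E) : 0 ≤ ‖f‖ := le_csSup f.2.2 (zero_mem_sums _)

theorem H.hom (f : H E) (t : ℝ) (φ : Dual' E) (ht : 0 ≤ t) : f (t • φ) = t * f φ := f.2.1 t φ ht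

theorem H.apply_zero (f : H E) : f 0 = 0 := by
  have := f.hom 0 0 le_rfl
  simpa using this

theorem adm_single {φ : Dual' E} (hφ : ‖φ‖ ≤ 1) : Adm (fun _ : Fin 1 => φ) := fun x hx => by
  rw [Finset.sum_const, Finset.card_univ, Fintype.card_fin, one_smul]
  refine (φ.le_opNorm x).trans ?_
  exact mul_le_one₀ hφ (norm_nonneg _) hx

theorem H.abs_apply_le (f : H E) (φ : Dual' E) : |f φ| ≤ ‖f‖ * ‖φ‖ := by
  by_cases h0 : φ = 0
  · rw [h0, f.apply_zero, abs_zero, norm_zero, mul_zero]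
  · have hn : 0 < ‖φ‖ := norm_pos_iff.mpr h0
    have h1 := f.sum_le_norm (adm_single (φ := ‖φ‖⁻¹ • φ) (by
      rw [norm_smul, norm_inv, norm_norm, inv_mul_cancel₀ hn.ne']))
    rw [Finset.sum_const, Finset.card_univ, Fintype.card_fin, one_smul,
      f.hom _ _ (inv_nonneg.mpr hn.le), abs_mul, abs_of_pos (inv_pos.mpr hn),
      inv_mul_le_iff₀ hn] at h1
    rwa [mul_comm]

instance : NormedAddCommGroup (H E) :=
  AddGroupNorm.toNormedAddCommGroup
    { toFun := fun f => ‖f‖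
      map_zero' := le_antisymm (H.norm_le fun m φ _ => by simp) (H.norm_nonneg' _)
      add_le' := fun f g => H.norm_le fun m φ hφ => by
        calc ∑ i, |(f + g) (φ i)| ≤ ∑ i, (|f (φ i)| + |g (φ i)|) :=
              Finset.sum_le_sum fun i _ => abs_add_le _ _
          _ = ∑ i, |f (φ i)| + ∑ i, |g (φ i)| := Finset.sum_add_distrib
          _ ≤ _ := add_le_add (f.sum_le_norm hφ) (g.sum_le_norm hφ)
      neg' := fun f => by
        have h1 : ∀ f : H E, ‖-f‖ ≤ ‖f‖ := fun f => H.norm_le fun m φ hφ => by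
          simp only [H.neg_apply, abs_neg]
          exact f.sum_le_norm hφ
        refine le_antisymm (h1 f) ?_
        have := h1 (-f)
        rwa [neg_neg] at this
      eq_zero_of_map_eq_zero' := fun f hf => by
        ext φ
        have h1 := f.abs_apply_le φ
        rw [hf, zero_mul] at h1
        exact abs_eq_zero.mp (le_antisymm h1 (abs_nonneg _)) }

instance : NormedSpace ℝ (H E) where
  norm_smul_le c f := H.norm_le fun m φ hφ => by
    calc ∑ i, |(c • f) (φ i)| = |c| * ∑ i, |f (φ i)| := by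
          rw [Finset.mul_sum]
          exact Finset.sum_congr rfl fun i _ => by rw [H.smul_apply, abs_mul]
      _ ≤ |c| * ‖f‖ := mul_le_mul_of_nonneg_left (f.sum_le_norm hφ) (abs_nonneg _)

/-- The element `δ_x : x* ↦ x*(x)` of `H[E]`. -/
def delta (x : E) : H E :=
  ⟨fun φ => φ x, fun t φ _ => rfl, by
    refine ⟨‖x‖, ?_⟩
    rintro _ ⟨m, φ, hφ, rfl⟩
    by_cases hx : x = 0
    · simp [hx]
    · have hn : 0 < ‖x‖ := norm_pos_iff.mpr hx
      have h1 := hφ (‖x‖⁻¹ • x) (by rw [norm_smul, norm_inv, norm_norm, inv_mul_cancel₀ hn.ne'])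
      have h2 : ∀ i, |φ i (‖x‖⁻¹ • x)| = ‖x‖⁻¹ * |φ i x| := fun i => by
        rw [map_smul, smul_eq_mul, abs_mul, abs_of_pos (inv_pos.mpr hn)]
      simp only [h2] at h1
      rw [← Finset.mul_sum, inv_mul_le_iff₀ hn, mul_one] at h1
      exact h1⟩

@[simp] theorem delta_apply (x : E) (φ : Dual' E) : delta x φ = φ x := rfl

/-- The modulus of an element of `H[E]`. -/
def habs (f : H E) : H E :=
  ⟨fun φ => |f φ|, fun t φ ht => (congrArg abs (f.hom t φ ht)).trans
      (by rw [abs_mul, abs_of_nonneg ht]), by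
    refine ⟨‖f‖, ?_⟩
    rintro _ ⟨m, φ, hφ, rfl⟩
    have h1 : ∀ i, |(|f (φ i)|)| = |f (φ i)| := fun i => abs_abs _
    exact (Finset.sum_congr rfl fun i _ => h1 i).trans_le (f.sum_le_norm hφ)⟩

@[simp] theorem habs_apply (f : H E) (φ : Dual' E) : habs f φ = |f φ| := rfl

variable (E)

/-- The vector sublattice of `H[E]` generated by the elements `δ_x`: the smallest linear subspace
that contains them and that contains `|f|` with `f`. -/
def sublattice : Submodule ℝ (H E) :=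
  sInf {S | (∀ x : E, delta x ∈ S) ∧ ∀ f ∈ S, habs f ∈ S}

/-- `FBL[E]`, as a subspace of `H[E]`: the norm closure of the vector sublattice generated by the
elements `δ_x`. -/
def FBLsub : Submodule ℝ (H E) := (sublattice E).topologicalClosure

/-- The free Banach lattice generated by `E`. -/
abbrev FBL : Type _ := FBLsub E

variable {E}

theorem delta_mem (x : E) : delta x ∈ sublattice E := by
  rw [sublattice, Submodule.mem_sInf]
  exact fun S hS => hS.1 x

theorem habs_mem {f : H E} (hf : f ∈ sublattice E) : habs f ∈ sublattice E := by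
  rw [sublattice, Submodule.mem_sInf] at hf ⊢
  exact fun S hS => hS.2 f (hf S hS)

/-- The maximum of two elements of `H[E]`. -/
def hsup (f g : H E) : H E := (1 / 2 : ℝ) • (f + g + habs (f - g))

@[simp] theorem hsup_apply (f g : H E) (φ : Dual' E) : hsup f g φ = max (f φ) (g φ) := by
  simp only [hsup, H.smul_apply, H.add_apply, habs_apply, H.sub_apply]
  rcases le_total (f φ) (g φ) with h | h
  · rw [max_eq_right h, abs_of_nonpos (by linarith)]; ring
  · rw [max_eq_left h, abs_of_nonneg (by linarith)]; ring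

theorem hsup_mem {f g : H E} (hf : f ∈ sublattice E) (hg : g ∈ sublattice E) :
    hsup f g ∈ sublattice E :=
  Submodule.smul_mem _ _ (Submodule.add_mem _ (Submodule.add_mem _ hf hg)
    (habs_mem (Submodule.sub_mem _ hf hg)))

theorem sublattice_le : sublattice E ≤ FBLsub E := Submodule.le_topologicalClosure _

theorem norm_habs_sub_le (f g : H E) : ‖habs f - habs g‖ ≤ ‖f - g‖ :=
  H.norm_le fun m φ hφ => by
    refine le_trans (Finset.sum_le_sum fun i _ => ?_) ((f - g).sum_le_norm hφ)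
    exact abs_abs_sub_abs_le_abs_sub _ _

theorem FBL_habs_mem {f : H E} (hf : f ∈ FBLsub E) : habs f ∈ FBLsub E := by
  have hf' : f ∈ closure (sublattice E : Set (H E)) := hf
  show habs f ∈ closure (sublattice E : Set (H E))
  rw [Metric.mem_closure_iff] at hf' ⊢
  intro ε hε
  obtain ⟨g, hg, hfg⟩ := hf' ε hε
  refine ⟨habs g, habs_mem hg, ?_⟩
  rw [dist_eq_norm] at hfg ⊢
  exact (norm_habs_sub_le f g).trans_lt hfg

theorem FBL_hsup_mem {f g : H E} (hf : f ∈ FBLsub E) (hg : g ∈ FBLsub E) :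
    hsup f g ∈ FBLsub E :=
  Submodule.smul_mem _ _ (Submodule.add_mem _ (Submodule.add_mem _ hf hg)
    (FBL_habs_mem (Submodule.sub_mem _ hf hg)))

/-- The norm of `X` is octahedral. -/
def Octahedral (X : Type*) [NormedAddCommGroup X] [NormedSpace ℝ X] : Prop :=
  ∀ Y : Submodule ℝ X, FiniteDimensional ℝ Y → ∀ ε : ℝ, 0 < ε →
    ∃ y : X, ‖y‖ = 1 ∧ ∀ z ∈ Y, ∀ l : ℝ, (1 - ε) * (‖z‖ + |l|) ≤ ‖z + l • y‖

end Pool.Agent.V1198.FB
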