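import Pool.Agent.V1198.FBL

/-!
# Octahedral norms, the Daugavet property and continuity of elements of free Banach lattices
-/

set_option autoImplicit false

noncomputable section

open Filter Topology

namespace Pool.Agent.V1198.FB

/-- `X` has the Daugavet property: `‖I + T‖ = 1 + ‖T‖` for all bounded operators `T` on `X` with
one-dimensional range. -/
def Daugavet (X : Type*) [NormedAddCommGroup X] [NormedSpace ℝ X] : Prop :=
  ∀ T : X →L[ℝ] X, Module.finrank ℝ T.range = 1 → ‖ContinuousLinearMap.id ℝ X + T‖ = 1 + ‖T‖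

section Octa

variable {X : Type*} [NormedAddCommGroup X] [NormedSpace ℝ X]

theorem exists_unit_of_ne {x : X} (hx : x ≠ 0) : ‖‖x‖⁻¹ • x‖ = 1 := by
  rw [norm_smul, norm_inv, norm_norm, inv_mul_cancel₀ (norm_ne_zero_iff.mpr hx)]

/-- Rank-one operators have one-dimensional range. -/
theorem finrank_smulRight {f : X →L[ℝ] ℝ} {z : X} (hf : f ≠ 0) (hz : z ≠ 0) :
    Module.finrank ℝ (f.smulRight z).range = 1 := by
  obtain ⟨x, hx⟩ : ∃ x, f x ≠ 0 := by
    by_contra h
    push Not at h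
    exact hf (ContinuousLinearMap.ext h)
  rw [finrank_eq_one_iff']
  refine ⟨⟨z, ⟨(f x)⁻¹ • x, ?_⟩⟩, fun h => hz (congrArg Subtype.val h), ?_⟩
  · show f.smulRight z ((f x)⁻¹ • x) = z
    rw [ContinuousLinearMap.smulRight_apply, map_smul, smul_eq_mul, inv_mul_cancel₀ hx, one_smul]
  · rintro ⟨_, ⟨y, rfl⟩⟩
    exact ⟨f y, Subtype.ext rfl⟩

/-- The key step: a slice of the unit ball contains a slice on which `‖x + y‖` is almost `2`. -/
theorem Daugavet.subslice (h : Daugavet X) {x : X} (hx : ‖x‖ = 1) {f : X →L[ℝ] ℝ} (hf : ‖f‖ = 1)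
    {ε : ℝ} (hε : 0 < ε) : ∃ g : X →L[ℝ] ℝ, ‖g‖ = 1 ∧ ∃ δ : ℝ, 0 < δ ∧
      ∀ y : X, ‖y‖ ≤ 1 → 1 - δ < g y → 1 - ε < f y ∧ 2 - ε < ‖x + y‖ := by
  have hx0 : x ≠ 0 := fun h0 => by rw [h0, norm_zero] at hx; exact zero_ne_one hx
  have hf0 : f ≠ 0 := fun h0 => by rw [h0, norm_zero] at hf; exact zero_ne_one hf
  set e := min (ε / 8) (1 / 8) with he
  have he0 : 0 < e := by positivity
  have he1 : e ≤ ε / 8 := min_le_left _ _
  have he2 : e ≤ 1 / 8 := min_le_right _ _
  have h1 := h (f.smulRight x) (finrank_smulRight hf0 hx0)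
  rw [ContinuousLinearMap.norm_smulRight_apply, hf, hx, one_mul] at h1
  obtain ⟨w, hw, hw2⟩ := (ContinuousLinearMap.id ℝ X + f.smulRight x).exists_lt_apply_of_lt_opNorm
    (r := 2 - e) (by rw [h1]; linarith)
  rw [_root_.add_apply, ContinuousLinearMap.id_apply, ContinuousLinearMap.smulRight_apply] at hw2
  -- a norming functional
  have hne : ‖w + f w • x‖ ≠ 0 := by linarith
  obtain ⟨g, hg, hgw⟩ := exists_dual_vector ℝ (w + f w • x) hne
  have hgw' : g w + f w * g x = ‖w + f w • x‖ := by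
    have := hgw
    rw [map_add, map_smul, smul_eq_mul] at this
    exact this
  have hgw1 : |g w| ≤ 1 := by
    have := g.le_opNorm w
    rw [hg, one_mul] at this
    exact this.trans hw.le
  have hfw1 : |f w| ≤ 1 := by
    have := f.le_opNorm w
    rw [hf, one_mul] at this
    exact this.trans hw.le
  have hgx1 : |g x| ≤ 1 := by
    have := g.le_opNorm x
    rw [hg, hx, one_mul] at this
    exact this
  -- a common sign
  obtain ⟨w', g', hw', hg', hfw, hgw2, hgx⟩ : ∃ (w' : X) (g' : X →L[ℝ] ℝ), ‖w'‖ ≤ 1 ∧ ‖g'‖ = 1 ∧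
      1 - e ≤ f w' ∧ 1 - e ≤ g' w' ∧ 1 - e ≤ g' x := by
    have h2 : 1 - e ≤ f w * g x := by linarith [(abs_le.mp hgw1).2]
    have h3 : 1 - e ≤ g w := by
      have : f w * g x ≤ 1 := by
        have := abs_mul (f w) (g x)
        have h4 : |f w * g x| ≤ 1 := by rw [this]; nlinarith [abs_nonneg (f w), abs_nonneg (g x)]
        exact (abs_le.mp h4).2
      linarith
    have hf2 := abs_le.mp hfw1
    have hg2 := abs_le.mp hgx1
    rcases le_total 0 (f w) with h4 | h4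
    · have h5 : 0 ≤ g x := by
        by_contra h6
        push Not at h6
        nlinarith
      refine ⟨w, g, hw.le, hg, ?_, h3, ?_⟩ <;> nlinarith
    · have h5 : g x ≤ 0 := by
        by_contra h6
        push Not at h6
        nlinarith
      refine ⟨-w, -g, by rw [norm_neg]; exact hw.le, by rw [norm_neg]; exact hg, ?_, ?_, ?_⟩
      · rw [map_neg]; nlinarith
      · rw [map_neg, _root_.neg_apply, neg_neg]; exact h3
      · rw [_root_.neg_apply]; nlinarith
  -- the subslice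
  set s := ‖f + g'‖ with hs
  have hs1 : 2 - 2 * e ≤ s := by
    have h2 := (f + g').le_opNorm w'
    have h3 : (f + g') w' = f w' + g' w' := rfl
    have h4 : ‖f + g'‖ * ‖w'‖ ≤ s := by
      rw [hs]; exact mul_le_of_le_one_right (norm_nonneg _) hw'
    have h5 := (le_abs_self _).trans (h2.trans h4)
    rw [h3] at h5
    linarith
  have hs0 : 0 < s := by linarith
  refine ⟨s⁻¹ • (f + g'), ?_, e, he0, fun y hy hgy => ?_⟩
  · rw [norm_smul, norm_inv, Real.norm_eq_abs, abs_of_pos hs0, inv_mul_cancel₀ hs0.ne']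
  · have h2 : s * (1 - e) < f y + g' y := by
      have h3 : (s⁻¹ • (f + g')) y = s⁻¹ * (f y + g' y) := rfl
      rw [h3, lt_inv_mul_iff₀ hs0] at hgy
      exact hgy
    have h3 : f y ≤ 1 := by
      have := f.le_opNorm y
      rw [hf, one_mul] at this
      exact (le_abs_self _).trans (this.trans hy)
    have h4 : g' y ≤ 1 := by
      have := g'.le_opNorm y
      rw [hg', one_mul] at this
      exact (le_abs_self _).trans (this.trans hy)
    have h5 : (2 - 2 * e) * (1 - e) ≤ s * (1 - e) :=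
      mul_le_mul_of_nonneg_right hs1 (by linarith)
    have h6 : 2 - 4 * e ≤ (2 - 2 * e) * (1 - e) := by nlinarith
    refine ⟨by linarith, ?_⟩
    have h7 : g' x + g' y ≤ ‖x + y‖ := by
      have h8 := g'.le_opNorm (x + y)
      rw [hg', one_mul, map_add] at h8
      exact (le_abs_self _).trans h8
    linarith

theorem Daugavet.exists_common (h : Daugavet X) {n : ℕ} (x : Fin n → X) (hx : ∀ i, ‖x i‖ = 1)
    {f : X →L[ℝ] ℝ} (hf : ‖f‖ = 1) {ε : ℝ} (hε : 0 < ε) : ∃ g : X →L[ℝ] ℝ, ‖g‖ = 1 ∧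
      ∃ δ : ℝ, 0 < δ ∧ ∀ y : X, ‖y‖ ≤ 1 → 1 - δ < g y → ∀ i, 2 - ε < ‖x i + y‖ := by
  induction n with
  | zero => exact ⟨f, hf, 1, one_pos, fun y _ _ i => i.elim0⟩
  | succ n ih =>
    obtain ⟨g, hg, δ, hδ, h1⟩ := ih (fun i => x i.succ) fun i => hx _
    obtain ⟨g', hg', δ', hδ', h2⟩ := h.subslice (hx 0) hg (lt_min hδ hε)
    refine ⟨g', hg', δ', hδ', fun y hy hgy i => ?_⟩
    obtain ⟨h3, h4⟩ := h2 y hy hgy
    refine Fin.cases ?_ (fun j => ?_) i
    · have := min_le_right δ ε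
      linarith
    · refine h1 y hy ?_ j
      have := min_le_left δ ε
      linarith

/-- The finite version of octahedrality. -/
def FinOcta (X : Type*) [NormedAddCommGroup X] [NormedSpace ℝ X] : Prop :=
  ∀ (n : ℕ) (x : Fin n → X), (∀ i, ‖x i‖ = 1) → ∀ ε : ℝ, 0 < ε →
    ∃ y : X, ‖y‖ ≤ 1 ∧ ∀ i, 2 - ε ≤ ‖x i + y‖

theorem Daugavet.finOcta (h : Daugavet X) : FinOcta X := by
  intro n x hx ε hε
  rcases n with _ | n
  · exact ⟨0, by rw [norm_zero]; exact zero_le_one, fun i => i.elim0⟩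
  · obtain ⟨f, hf, _⟩ := exists_dual_vector ℝ (x 0) (by rw [hx 0]; exact one_ne_zero)
    obtain ⟨g, hg, δ, hδ, h1⟩ := h.exists_common x hx hf hε
    obtain ⟨w, hw, hw2⟩ := g.exists_lt_apply_of_lt_opNorm (r := 1 - δ) (by rw [hg]; linarith)
    rcases le_total 0 (g w) with h2 | h2
    · rw [Real.norm_eq_abs, abs_of_nonneg h2] at hw2
      exact ⟨w, hw.le, fun i => (h1 w hw.le hw2 i).le⟩
    · rw [Real.norm_eq_abs, abs_of_nonpos h2] at hw2
      have hw' : ‖-w‖ ≤ 1 := by rw [norm_neg]; exact hw.le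
      exact ⟨-w, hw', fun i => (h1 (-w) hw' (by rw [map_neg]; exact hw2) i).le⟩

/-- The homogeneous form of the inequality. -/
theorem octa_homogeneous {z y : X} {ε : ℝ} (hy : ‖y‖ = 1) (hz : z ≠ 0)
    (h : 2 - ε ≤ ‖‖z‖⁻¹ • z + y‖) {l : ℝ} (hl : 0 ≤ l) (hε : 0 ≤ ε) :
    (1 - ε) * (‖z‖ + l) ≤ ‖z + l • y‖ := by
  set a := ‖z‖ with ha
  have ha0 : 0 < a := norm_pos_iff.mpr hz
  set u := a⁻¹ • z with hu
  have hu1 : ‖u‖ = 1 := exists_unit_of_ne hz
  have hz' : z = a • u := by rw [hu, smul_smul, mul_inv_cancel₀ ha0.ne', one_smul]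
  rcases le_total l a with h1 | h1
  · have h2 : a • (u + y) = (z + l • y) + (a - l) • y := by
      rw [hz', smul_add, sub_smul]; abel
    have h3 := norm_add_le (z + l • y) ((a - l) • y)
    rw [← h2, norm_smul, norm_smul, hy, Real.norm_eq_abs, Real.norm_eq_abs, abs_of_pos ha0,
      abs_of_nonneg (by linarith)] at h3
    nlinarith
  · have h2 : l • (u + y) = (z + l • y) + (l - a) • u := by
      rw [hz', smul_add, sub_smul]; abel
    have h3 := norm_add_le (z + l • y) ((l - a) • u)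
    rw [← h2, norm_smul, norm_smul, hu1, Real.norm_eq_abs, Real.norm_eq_abs, abs_of_nonneg hl,
      abs_of_nonneg (by linarith)] at h3
    nlinarith

theorem FinOcta.octahedral (h : FinOcta X) {x0 : X} (hx0 : ‖x0‖ = 1) : Octahedral X := by
  classical
  intro Y hY ε hε
  set e := ε / 4 with he
  have he0 : 0 < e := by positivity
  have hproper : ProperSpace Y := FiniteDimensional.proper ℝ Y
  have hcomp : IsCompact (Metric.sphere (0 : Y) 1) := isCompact_sphere _ _
  obtain ⟨t, ht, htf, hcov⟩ :=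
    hcomp.totallyBounded.exists_subset (Metric.dist_mem_uniformity he0)
  set N := htf.toFinset.card with hN
  obtain ⟨y0, hy0, hy1⟩ := h (N + 1) (Fin.cons x0 fun i => ((htf.toFinset.equivFin.symm i).1 : X))
    (fun i => by
      refine Fin.cases ?_ (fun j => ?_) i
      · rw [Fin.cons_zero]; exact hx0
      · rw [Fin.cons_succ]
        have := ht ((htf.mem_toFinset).mp (htf.toFinset.equivFin.symm j).2)
        simpa using this) (min e (1 / 2)) (by positivity)
  have hn1 : 1 - min e (1 / 2) ≤ ‖y0‖ := by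
    have h1 := hy1 0
    rw [Fin.cons_zero] at h1
    have h2 := norm_add_le x0 y0
    rw [hx0] at h2
    linarith
  have hmin1 := min_le_left e (1 / 2)
  have hmin2 := min_le_right e (1 / 2)
  have hy00 : y0 ≠ 0 := fun h0 => by rw [h0, norm_zero] at hn1; linarith
  have hpos : 0 < ‖y0‖ := norm_pos_iff.mpr hy00
  set y := ‖y0‖⁻¹ • y0 with hydef
  have hy : ‖y‖ = 1 := exists_unit_of_ne hy00
  have hyy : ‖y0 - y‖ ≤ e := by
    have h1 : y0 - y = (1 - ‖y0‖⁻¹) • y0 := by rw [hydef, sub_smul, one_smul]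
    rw [h1, norm_smul, Real.norm_eq_abs, abs_of_nonpos (by
      have := one_le_inv_iff₀.mpr ⟨hpos, hy0⟩
      linarith)]
    have h2 : -(1 - ‖y0‖⁻¹) * ‖y0‖ = 1 - ‖y0‖ := by
      rw [neg_mul, sub_mul, inv_mul_cancel₀ hpos.ne']; ring
    rw [h2]
    linarith
  -- all unit vectors of `Y`
  have hunit : ∀ u ∈ Y, ‖u‖ = 1 → 2 - ε ≤ ‖u + y‖ := by
    intro u hu hu1
    have h1 : (⟨u, hu⟩ : Y) ∈ Metric.sphere (0 : Y) 1 := by simpa using hu1
    have h2 := hcov h1
    simp only [Set.mem_iUnion] at h2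
    obtain ⟨z, hz, hxz⟩ := h2
    have h3 : 2 - min e (1 / 2) ≤ ‖(z : X) + y0‖ := by
      have := hy1 (htf.toFinset.equivFin ⟨z, htf.mem_toFinset.mpr hz⟩).succ
      rw [Fin.cons_succ] at this
      simpa using this
    have h4 : ‖u - z‖ < e := by
      have : dist (⟨u, hu⟩ : Y) z < e := hxz
      rwa [Subtype.dist_eq, dist_eq_norm] at this
    have h5 : (z : X) + y0 = (u + y) + (-(u - z)) + (y0 - y) := by abel
    have h6 := norm_add₃_le (a := u + y) (b := -(u - (z : X))) (c := y0 - y)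
    rw [← h5, norm_neg] at h6
    linarith
  refine ⟨y, hy, fun z hz l => ?_⟩
  by_cases hz0 : z = 0
  · rw [hz0, norm_zero, zero_add, zero_add, norm_smul, hy, mul_one, Real.norm_eq_abs]
    nlinarith [abs_nonneg l]
  · have hun : ∀ z ∈ Y, z ≠ 0 → ∀ l : ℝ, 0 ≤ l → (1 - ε) * (‖z‖ + l) ≤ ‖z + l • y‖ :=
      fun z hz hz0 l hl => octa_homogeneous hy hz0
        (hunit _ (Y.smul_mem _ hz) (exists_unit_of_ne hz0)) hl hε.le
    rcases le_total 0 l with hl | hl
    · rw [abs_of_nonneg hl]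
      exact hun z hz hz0 l hl
    · rw [abs_of_nonpos hl]
      have h1 := hun (-z) (Y.neg_mem hz) (neg_ne_zero.mpr hz0) (-l) (by linarith)
      have h2 : -z + (-l) • y = -(z + l • y) := by rw [neg_smul]; abel
      rwa [norm_neg, h2, norm_neg] at h1

end Octa

/-! ### Elements of the free Banach lattice -/

section General

variable {E : Type*} [NormedAddCommGroup E] [NormedSpace ℝ E]

theorem norm_mono {f g : H E} (h : ∀ φ, |f φ| ≤ |g φ|) : ‖f‖ ≤ ‖g‖ :=
  H.norm_le fun _ φ hφ => (Finset.sum_le_sum fun i _ => h (φ i)).trans (g.sum_le_norm hφ)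

/-- Elements of the sublattice depend in a Lipschitz way on finitely many coordinates. -/
theorem exists_lip {f : H E} (hf : f ∈ sublattice E) : ∃ (Z : Finset E) (C : ℝ), 0 ≤ C ∧
    ∀ φ ψ : Dual' E, |f φ - f ψ| ≤ C * ∑ z ∈ Z, |φ z - ψ z| := by
  classical
  have h1 : sublattice E ≤
      { carrier := {f : H E | ∃ (Z : Finset E) (C : ℝ), 0 ≤ C ∧
          ∀ φ ψ : Dual' E, |f φ - f ψ| ≤ C * ∑ z ∈ Z, |φ z - ψ z|}
        add_mem' := by
          rintro f g ⟨Z, C, hC, h1⟩ ⟨W, D, hD, h2⟩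
          refine ⟨Z ∪ W, C + D, add_nonneg hC hD, fun φ ψ => ?_⟩
          have h3 : ∑ z ∈ Z, |φ z - ψ z| ≤ ∑ z ∈ Z ∪ W, |φ z - ψ z| :=
            Finset.sum_le_sum_of_subset_of_nonneg Finset.subset_union_left
              fun _ _ _ => abs_nonneg _
          have h4 : ∑ z ∈ W, |φ z - ψ z| ≤ ∑ z ∈ Z ∪ W, |φ z - ψ z| :=
            Finset.sum_le_sum_of_subset_of_nonneg Finset.subset_union_right
              fun _ _ _ => abs_nonneg _
          calc |(f + g) φ - (f + g) ψ| = |(f φ - f ψ) + (g φ - g ψ)| := by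
                congr 1; rw [H.add_apply, H.add_apply]; ring
            _ ≤ |f φ - f ψ| + |g φ - g ψ| := abs_add_le _ _
            _ ≤ C * ∑ z ∈ Z, |φ z - ψ z| + D * ∑ z ∈ W, |φ z - ψ z| :=
                add_le_add (h1 φ ψ) (h2 φ ψ)
            _ ≤ (C + D) * ∑ z ∈ Z ∪ W, |φ z - ψ z| := by
                rw [add_mul]
                exact add_le_add (mul_le_mul_of_nonneg_left h3 hC)
                  (mul_le_mul_of_nonneg_left h4 hD)
        zero_mem' := ⟨∅, 0, le_rfl, fun φ ψ => by simp⟩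
        smul_mem' := by
          rintro c f ⟨Z, C, hC, h1⟩
          refine ⟨Z, |c| * C, by positivity, fun φ ψ => ?_⟩
          rw [H.smul_apply, H.smul_apply, ← mul_sub, abs_mul, mul_assoc]
          exact mul_le_mul_of_nonneg_left (h1 φ ψ) (abs_nonneg _) } := by
    refine sInf_le ⟨fun x => ?_, ?_⟩
    · exact ⟨{x}, 1, zero_le_one, fun φ ψ => by rw [Finset.sum_singleton, one_mul]; rfl⟩
    · rintro f ⟨Z, C, hC, h1⟩
      exact ⟨Z, C, hC, fun φ ψ => (abs_abs_sub_abs_le_abs_sub _ _).trans (h1 φ ψ)⟩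
  exact h1 hf

theorem exists_approx {f : H E} (hf : f ∈ FBLsub E) {ε : ℝ} (hε : 0 < ε) :
    ∃ g ∈ sublattice E, ‖f - g‖ < ε := by
  have hf' : f ∈ closure (sublattice E : Set (H E)) := hf
  obtain ⟨g, hg, hfg⟩ := Metric.mem_closure_iff.mp hf' ε hε
  exact ⟨g, hg, by rwa [dist_eq_norm] at hfg⟩

theorem continuous_of_mem {f : H E} (hf : f ∈ FBLsub E) : Continuous (f : Dual' E → ℝ) := by
  have h1 : ∀ g ∈ sublattice E, Continuous (g : Dual' E → ℝ) := by
    intro g hg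
    have h1 : sublattice E ≤
        { carrier := {f : H E | Continuous (f : Dual' E → ℝ)}
          add_mem' := fun {a b} ha hb => Continuous.add ha hb
          zero_mem' := continuous_const
          smul_mem' := fun c a ha => Continuous.mul continuous_const ha } := by
      refine sInf_le ⟨fun x => ?_, fun f hf => ?_⟩
      · exact (ContinuousLinearMap.apply ℝ ℝ x).continuous
      · exact Continuous.abs hf
    exact h1 hg
  rw [Metric.continuous_iff]
  intro φ ε hε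
  obtain ⟨g, hg, hfg⟩ := exists_approx hf (ε := ε / (4 * (‖φ‖ + 1))) (by positivity)
  obtain ⟨δ, hδ, hgδ⟩ := Metric.continuous_iff.mp (h1 g hg) φ (ε / 4) (by positivity)
  refine ⟨min δ 1, lt_min hδ one_pos, fun ψ hψ => ?_⟩
  have h2 := hgδ ψ (lt_of_lt_of_le hψ (min_le_left _ _))
  have h3 : ‖ψ‖ ≤ ‖φ‖ + 1 := by
    have h4 : ‖ψ - φ‖ < 1 := by
      rw [← dist_eq_norm]; exact lt_of_lt_of_le hψ (min_le_right _ _)
    have h5 := norm_add_le (ψ - φ) φ
    rw [sub_add_cancel] at h5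
    linarith
  have h6 : ∀ χ : Dual' E, ‖χ‖ ≤ ‖φ‖ + 1 → |f χ - g χ| ≤ ε / 4 := fun χ hχ => by
    have h7 := (f - g).abs_apply_le χ
    rw [H.sub_apply] at h7
    refine h7.trans ?_
    calc ‖f - g‖ * ‖χ‖ ≤ ε / (4 * (‖φ‖ + 1)) * (‖φ‖ + 1) :=
          mul_le_mul hfg.le hχ (norm_nonneg _) (by positivity)
      _ = ε / 4 := by field_simp
  have h8 := h6 ψ h3
  have h9 := h6 φ (by linarith)
  rw [Real.dist_eq] at h2 ⊢
  have h10 : f ψ - f φ = (f ψ - g ψ) + (g ψ - g φ) + (g φ - f φ) := by ring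
  rw [h10]
  have h11 := abs_add_three (f ψ - g ψ) (g ψ - g φ) (g φ - f φ)
  rw [abs_sub_comm (g φ) (f φ)] at h11
  linarith

theorem H.finset_sum_apply {ι : Type*} (s : Finset ι) (f : ι → H E) (φ : Dual' E) :
    (∑ i ∈ s, f i) φ = ∑ i ∈ s, f i φ := by
  let ev : H E →+ ℝ :=
    { toFun := fun x => x φ
      map_zero' := rfl
      map_add' := fun _ _ => rfl }
  exact map_sum ev f s

/-- Scaled admissible families. -/
theorem H.sum_le_of_adm_mul (f : H E) {m : ℕ} {φ : Fin m → Dual' E} {c : ℝ} (hc : 0 < c)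
    (hφ : ∀ x : E, ‖x‖ ≤ 1 → ∑ i, |φ i x| ≤ c) : ∑ i, |f (φ i)| ≤ c * ‖f‖ := by
  have h1 : Adm fun i => c⁻¹ • φ i := fun x hx => by
    have h2 : ∀ i, |(c⁻¹ • φ i) x| = c⁻¹ * |φ i x| := fun i => by
      rw [_root_.smul_apply, smul_eq_mul, abs_mul, abs_of_pos (inv_pos.mpr hc)]
    simp only [h2]
    rw [← Finset.mul_sum, inv_mul_le_iff₀ hc, mul_one]
    exact hφ x hx
  have h3 := f.sum_le_norm h1
  have h4 : ∀ i, |f (c⁻¹ • φ i)| = c⁻¹ * |f (φ i)| := fun i => by
    rw [f.hom _ _ (inv_nonneg.mpr hc.le), abs_mul, abs_of_pos (inv_pos.mpr hc)]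
  simp only [h4] at h3
  rwa [← Finset.mul_sum, inv_mul_le_iff₀ hc] at h3

end General

/-! ### Extension of functionals -/

section Ext

variable {E : Type*} [NormedAddCommGroup E] [NormedSpace ℝ E]

/-- A functional on `V` dominated by `‖L v‖` factors through a functional of norm at most one. -/
theorem exists_factor {V : Type*} [AddCommGroup V] [Module ℝ V] (L : V →ₗ[ℝ] E) (l : V →ₗ[ℝ] ℝ)
    (h : ∀ v, |l v| ≤ ‖L v‖) : ∃ g : E →L[ℝ] ℝ, ‖g‖ ≤ 1 ∧ ∀ v, g (L v) = l v := by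
  have hker : LinearMap.ker L ≤ LinearMap.ker l := fun v hv => by
    rw [LinearMap.mem_ker] at hv ⊢
    have := h v
    rw [hv, norm_zero] at this
    exact abs_eq_zero.mp (le_antisymm this (abs_nonneg _))
  let f0 : LinearMap.range L →ₗ[ℝ] ℝ :=
    ((LinearMap.ker L).liftQ l hker).comp L.quotKerEquivRange.symm.toLinearMap
  have hf0 : ∀ v, f0 ⟨L v, LinearMap.mem_range_self L v⟩ = l v := fun v => by
    show (LinearMap.ker L).liftQ l hker (L.quotKerEquivRange.symm
      ⟨L v, LinearMap.mem_range_self L v⟩) = l v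
    rw [LinearMap.quotKerEquivRange_symm_apply_image]
    exact Submodule.liftQ_apply _ _ _
  let f1 : LinearMap.range L →L[ℝ] ℝ := f0.mkContinuous 1 (by
    rintro ⟨_, ⟨v, rfl⟩⟩
    rw [hf0 v, one_mul]
    exact h v)
  obtain ⟨g, hg, hgn⟩ := exists_extension_norm_eq (LinearMap.range L) f1
  refine ⟨g, ?_, fun v => ?_⟩
  · rw [hgn]
    exact f0.mkContinuous_norm_le zero_le_one _
  · have := hg ⟨L v, LinearMap.mem_range_self L v⟩
    exact this.trans (hf0 v)

/-- The vector `x` is almost `ℓ_1`-orthogonal to `Z`, in terms of functionals. -/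
def ExtProp (x : E) (Z : Set E) (δ : ℝ) : Prop :=
  ∀ (g : E →L[ℝ] ℝ) (η : ℝ), ‖g‖ ≤ 1 - δ → |η| ≤ 1 - δ →
    ∃ h : E →L[ℝ] ℝ, ‖h‖ ≤ 1 ∧ (∀ z ∈ Z, h z = g z) ∧ h x = η

theorem ExtProp.mono {x : E} {Z Z' : Set E} {δ δ' : ℝ} (h : ExtProp x Z δ) (hZ : Z' ⊆ Z)
    (hδ : δ ≤ δ') : ExtProp x Z' δ' := fun g η hg hη => by
  obtain ⟨h1, h2, h3, h4⟩ := h g η (by linarith) (by linarith)
  exact ⟨h1, h2, fun z hz => h3 z (hZ hz), h4⟩

theorem Octahedral.exists_extProp (h : Octahedral E) (Z : Finset E) {δ : ℝ} (hδ : 0 < δ) :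
    ∃ x : E, ‖x‖ = 1 ∧ ExtProp x Z δ := by
  obtain ⟨x, hx, hx2⟩ := h (Submodule.span ℝ (Z : Set E))
    (FiniteDimensional.span_finset ℝ Z) δ hδ
  refine ⟨x, hx, fun g η hg hη => ?_⟩
  set S := Submodule.span ℝ (Z : Set E) with hS
  let L : (S × ℝ) →ₗ[ℝ] E := S.subtype.coprod (LinearMap.toSpanSingleton ℝ E x)
  let l : (S × ℝ) →ₗ[ℝ] ℝ :=
    ((g : E →ₗ[ℝ] ℝ).comp S.subtype).coprod (LinearMap.toSpanSingleton ℝ ℝ η)
  have hL : ∀ v, L v = (v.1 : E) + v.2 • x := fun v => rfl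
  have hl : ∀ v, l v = g v.1 + v.2 * η := fun v => rfl
  obtain ⟨f, hf, hfL⟩ := exists_factor L l (fun v => by
    rw [hL, hl]
    have h1 := hx2 v.1 v.1.2 v.2
    have h2 : |g v.1| ≤ (1 - δ) * ‖(v.1 : E)‖ :=
      (g.le_opNorm _).trans (mul_le_mul_of_nonneg_right hg (norm_nonneg _))
    have h3 : |v.2 * η| ≤ (1 - δ) * |v.2| := by
      rw [abs_mul, mul_comm]
      exact mul_le_mul_of_nonneg_right hη (abs_nonneg _)
    refine (abs_add_le _ _).trans ?_
    linarith)
  refine ⟨f, hf, fun z hz => ?_, ?_⟩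
  · have := hfL (⟨z, Submodule.subset_span hz⟩, 0)
    rw [hL, hl] at this
    simpa using this
  · have := hfL (0, 1)
    rw [hL, hl] at this
    simpa using this

end Ext

end Pool.Agent.V1198.FB
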