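import Pool.Agent.V1198.SemiP
import Pool.Agent.V1198.BLEll

/-!
# Free Banach lattices (on arbitrary or on positive generators)
-/

set_option autoImplicit false
set_option linter.unusedSectionVars false
set_option linter.unusedVariables false

noncomputable section

open Filter Topology
open scoped ENNReal

namespace Pool.Agent.V1198.FP

open Pool.Agent.V1198.BL Pool.Agent.V1198.YS

/-! ### Products -/

section prod

variable {ι : Type} (X : ι → BLat)

/-- The family of carriers. -/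
abbrev Fam : ι → Type := fun i => (X i).carrier

instance instLatLp : Lattice (lp (Fam X) ∞) :=
  letI : Lattice (PreLp (Fam X)) := inferInstanceAs (Lattice (∀ i, Fam X i))
  Subtype.lattice (P := fun f => f ∈ lp (Fam X) ∞)
    (fun {f g} hf hg => by
      obtain ⟨a, ha⟩ := memℓp_infty_iff.1 hf
      obtain ⟨b, hb⟩ := memℓp_infty_iff.1 hg
      refine memℓp_infty_iff.2 ⟨a + b, ?_⟩
      rintro _ ⟨i, rfl⟩
      exact (norm_sup_le_add (f i : X i) (g i)).trans (add_le_add (ha ⟨i, rfl⟩) (hb ⟨i, rfl⟩)))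
    (fun {f g} hf hg => by
      obtain ⟨a, ha⟩ := memℓp_infty_iff.1 hf
      obtain ⟨b, hb⟩ := memℓp_infty_iff.1 hg
      refine memℓp_infty_iff.2 ⟨a + b, ?_⟩
      rintro _ ⟨i, rfl⟩
      exact (norm_inf_le_add (f i : X i) (g i)).trans (add_le_add (ha ⟨i, rfl⟩) (hb ⟨i, rfl⟩)))

theorem lp_le_def {f g : lp (Fam X) ∞} : f ≤ g ↔ ∀ i, f i ≤ g i := Iff.rfl

theorem lp_abs_apply (f : lp (Fam X) ∞) (i : ι) : (|f| : lp (Fam X) ∞) i = |f i| := rfl

theorem lp_norm_le {f : lp (Fam X) ∞} {C : ℝ} (hC : 0 ≤ C) (h : ∀ i, ‖f i‖ ≤ C) : ‖f‖ ≤ C :=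
  lp.norm_le_of_forall_le hC h

theorem lp_apply_le (f : lp (Fam X) ∞) (i : ι) : ‖f i‖ ≤ ‖f‖ :=
  lp.norm_apply_le_norm ENNReal.top_ne_zero f i

/-- The `ℓ_∞`-product of a family of Banach lattices. -/
@[reducible] def prodL : BLat :=
  { carrier := lp (Fam X) ∞
    grp := inferInstance
    lat := instLatLp X
    ord := ⟨fun _ _ h c i => add_le_add_left (α := X i) (h i) (c i),
      fun _ _ h c i => add_le_add_right (α := X i) (h i) (c i)⟩
    solid := ⟨fun f g h => lp_norm_le X (norm_nonneg _) fun i =>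
      (norm_mono (B := X i) (h i)).trans (lp_apply_le X g i)⟩
    mod := inferInstance
    omod := { smul_le_smul_of_nonneg_left := fun _ hc _ _ h i =>
                smul_le_smul_of_nonneg_left (β := X i) (h i) hc
              smul_le_smul_of_nonneg_right := fun _ hx _ _ h i =>
                smul_le_smul_of_nonneg_right (β := X i) h (hx i) }
    complete := inferInstance }

end prod

/-! ### Terms -/

/-- Vector lattice terms. -/
inductive Tm (Γ : Type) : Type
  | zero : Tm Γ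
  | gen : Γ → Tm Γ
  | add : Tm Γ → Tm Γ → Tm Γ
  | smul : ℝ → Tm Γ → Tm Γ
  | abs : Tm Γ → Tm Γ

variable {Γ : Type}

/-- Evaluation of terms. -/
def eval (X : BLat) (g : Γ → X) : Tm Γ → X
  | .zero => 0
  | .gen γ => g γ
  | .add u v => eval X g u + eval X g v
  | .smul c u => c • eval X g u
  | .abs u => |eval X g u|

/-- A bound for the values of terms. -/
def bnd : Tm Γ → ℝ
  | .zero => 0
  | .gen _ => 1
  | .add u v => bnd u + bnd v
  | .smul c u => |c| * bnd u
  | .abs u => bnd u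

/-- The generators occurring in a term. -/
def supp : Tm Γ → Set Γ
  | .zero => ∅
  | .gen γ => {γ}
  | .add u v => supp u ∪ supp v
  | .smul _ u => supp u
  | .abs u => supp u

/-- Admissible families: norms at most `1`, and positive if `b` holds. -/
def Adm (b : Prop) {X : BLat} (g : Γ → X) : Prop := ∀ γ, (b → 0 ≤ g γ) ∧ ‖g γ‖ ≤ 1

theorem eval_le (b : Prop) (X : BLat) (g : Γ → X) (hg : Adm b g) (w : Tm Γ) :
    ‖eval X g w‖ ≤ bnd w := by
  induction w with
  | zero => exact norm_zero.le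
  | gen γ => exact (hg γ).2
  | add u v hu hv => exact (norm_add_le _ _).trans (add_le_add hu hv)
  | smul c u hu =>
    refine (norm_smul_le _ _).trans ?_
    rw [Real.norm_eq_abs]
    exact mul_le_mul_of_nonneg_left hu (abs_nonneg _)
  | abs u hu => exact (norm_abs_eq_norm _).le.trans hu

theorem supp_countable (w : Tm Γ) : (supp w).Countable := by
  induction w with
  | zero => exact Set.countable_empty
  | gen γ => exact Set.countable_singleton γ
  | add u v hu hv => exact hu.union hv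
  | smul c u hu => exact hu
  | abs u hu => exact hu

theorem eval_eq_zero (X : BLat) (g : Γ → X) (w : Tm Γ) (h : ∀ γ ∈ supp w, g γ = 0) :
    eval X g w = 0 := by
  induction w with
  | zero => rfl
  | gen γ => exact h γ rfl
  | add u v hu hv =>
    change eval X g u + eval X g v = 0
    rw [hu fun γ hγ => h γ (Or.inl hγ), hv fun γ hγ => h γ (Or.inr hγ), add_zero]
  | smul c u hu =>
    change c • eval X g u = 0
    rw [hu h, smul_zero]
  | abs u hu =>
    change |eval X g u| = 0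
    rw [hu h, abs_zero]

theorem map_eval {X Y : BLat} {T : X →L[ℝ] Y} (hT : IsLatHom T) (g : Γ → X) (w : Tm Γ) :
    T (eval X g w) = eval Y (fun γ => T (g γ)) w := by
  induction w with
  | zero => exact map_zero T
  | gen γ => rfl
  | add u v hu hv =>
    change T (eval X g u + eval X g v) = _ + _
    rw [map_add, hu, hv]
  | smul c u hu =>
    change T (c • eval X g u) = c • _
    rw [map_smul, hu]
  | abs u hu =>
    change T |eval X g u| = |_|
    rw [hT, hu]

/-! ### The universal family -/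

variable (b : Prop) (Γ)

/-- The values of norms. -/
def vals (w : Tm Γ) : Set ℝ := {r | ∃ (X : BLat) (g : Γ → X), Adm b g ∧ r = ‖eval X g w‖}

/-- The universal norm. -/
def N (w : Tm Γ) : ℝ := sSup (vals Γ b w)

theorem vals_bdd (w : Tm Γ) : BddAbove (vals Γ b w) :=
  ⟨bnd w, by rintro _ ⟨X, g, hg, rfl⟩; exact eval_le b X g hg w⟩

theorem vals_nonempty (w : Tm Γ) : (vals Γ b w).Nonempty :=
  ⟨_, realLat, fun _ => (0 : ℝ), fun _ => ⟨fun _ => le_rfl, (norm_zero (E := ℝ)).le.trans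
    zero_le_one⟩, rfl⟩

theorem eval_le_N {X : BLat} {g : Γ → X} (hg : Adm b g) (w : Tm Γ) : ‖eval X g w‖ ≤ N Γ b w :=
  le_csSup (vals_bdd Γ b w) ⟨X, g, hg, rfl⟩

theorem N_nonneg (w : Tm Γ) : 0 ≤ N Γ b w := by
  obtain ⟨_, X, g, hg, -⟩ := vals_nonempty Γ b w
  exact (norm_nonneg _).trans (eval_le_N Γ b hg w)

theorem exists_near (i : Tm Γ × ℕ) : ∃ (X : BLat) (g : Γ → X), Adm b g ∧
    N Γ b i.1 - 1 / ((i.2 : ℝ) + 1) < ‖eval X g i.1‖ := by
  have h : N Γ b i.1 - 1 / ((i.2 : ℝ) + 1) < sSup (vals Γ b i.1) := by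
    have : (0 : ℝ) < 1 / ((i.2 : ℝ) + 1) := by positivity
    change _ < N Γ b i.1
    linarith
  obtain ⟨_, ⟨X, g, hg, rfl⟩, h1⟩ := exists_lt_of_lt_csSup (vals_nonempty Γ b i.1) h
  exact ⟨X, g, hg, h1⟩

/-- The chosen lattices. -/
def XX (i : Tm Γ × ℕ) : BLat := (exists_near Γ b i).choose

/-- The chosen families. -/
def gg (i : Tm Γ × ℕ) : Γ → XX Γ b i := (exists_near Γ b i).choose_spec.choose

theorem gg_adm (i : Tm Γ × ℕ) : Adm b (gg Γ b i) := (exists_near Γ b i).choose_spec.choose_spec.1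

theorem gg_near (i : Tm Γ × ℕ) :
    N Γ b i.1 - 1 / ((i.2 : ℝ) + 1) < ‖eval (XX Γ b i) (gg Γ b i) i.1‖ :=
  (exists_near Γ b i).choose_spec.choose_spec.2

/-- The big product. -/
abbrev BB : BLat := prodL (XX Γ b)

/-- The generators in the product. -/
def dd (γ : Γ) : BB Γ b := ⟨fun i => gg Γ b i γ, memℓp_infty_iff.2 ⟨1, by
  rintro _ ⟨i, rfl⟩; exact (gg_adm Γ b i γ).2⟩⟩

theorem dd_adm : Adm b (X := BB Γ b) (dd Γ b) := fun γ =>
  ⟨fun hb i => (gg_adm Γ b i γ).1 hb,
    lp_norm_le (XX Γ b) zero_le_one fun i => (gg_adm Γ b i γ).2⟩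

theorem eval_apply (w : Tm Γ) (i : Tm Γ × ℕ) :
    (show lp (Fam (XX Γ b)) ∞ from eval (BB Γ b) (dd Γ b) w) i =
      eval (XX Γ b i) (gg Γ b i) w := by
  induction w with
  | zero => rfl
  | gen γ => rfl
  | add u v hu hv =>
    change (show lp (Fam (XX Γ b)) ∞ from eval (BB Γ b) (dd Γ b) u) i +
      (show lp (Fam (XX Γ b)) ∞ from eval (BB Γ b) (dd Γ b) v) i = _ + _
    rw [hu, hv]
  | smul c u hu =>
    change c • (show lp (Fam (XX Γ b)) ∞ from eval (BB Γ b) (dd Γ b) u) i = c • _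
    rw [hu]
  | abs u hu =>
    change |(show lp (Fam (XX Γ b)) ∞ from eval (BB Γ b) (dd Γ b) u) i| = |_|
    rw [hu]

theorem norm_eval (w : Tm Γ) : ‖eval (BB Γ b) (dd Γ b) w‖ = N Γ b w := by
  refine le_antisymm (eval_le_N Γ b (dd_adm Γ b) w) ?_
  refine le_of_forall_pos_lt_add fun ε hε => ?_
  obtain ⟨n, hn⟩ := exists_nat_one_div_lt hε
  have h1 := gg_near Γ b (w, n)
  have h2 := lp_apply_le (XX Γ b) (show lp (Fam (XX Γ b)) ∞ from eval (BB Γ b) (dd Γ b) w) (w, n)
  rw [eval_apply] at h2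
  change ‖eval (XX Γ b (w, n)) (gg Γ b (w, n)) w‖ ≤ ‖eval (BB Γ b) (dd Γ b) w‖ at h2
  change N Γ b w - 1 / ((n : ℝ) + 1) < ‖eval (XX Γ b (w, n)) (gg Γ b (w, n)) w‖ at h1
  linarith

/-- The values of terms form a vector sublattice. -/
def RR : Submodule ℝ (BB Γ b) where
  carrier := Set.range (eval (BB Γ b) (dd Γ b))
  zero_mem' := ⟨.zero, rfl⟩
  add_mem' := by
    rintro _ _ ⟨u, rfl⟩ ⟨v, rfl⟩
    exact ⟨.add u v, rfl⟩
  smul_mem' := by
    rintro c _ ⟨u, rfl⟩
    exact ⟨.smul c u, rfl⟩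

/-- The closure. -/
def SS : Submodule ℝ (BB Γ b) := (RR Γ b).topologicalClosure

theorem SS_abs : ∀ x ∈ SS Γ b, |x| ∈ SS Γ b := by
  intro x hx
  refine map_mem_closure (continuous_abs' (B := BB Γ b)) hx ?_
  rintro _ ⟨w, rfl⟩
  exact ⟨.abs w, rfl⟩

/-- The free Banach lattice on `Γ` (with positive generators if `b`). -/
abbrev PP : BLat := subLat (SS Γ b) (RR Γ b).isClosed_topologicalClosure (SS_abs Γ b)

instance instLatP : Lattice (SS Γ b) := (PP Γ b).lat

/-- The generators. -/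
def pp (γ : Γ) : PP Γ b := ⟨dd Γ b γ, (RR Γ b).le_topologicalClosure ⟨.gen γ, rfl⟩⟩

theorem eval_val (w : Tm Γ) : (eval (PP Γ b) (pp Γ b) w).1 = eval (BB Γ b) (dd Γ b) w := by
  induction w with
  | zero => rfl
  | gen γ => rfl
  | add u v hu hv =>
    change (eval (PP Γ b) (pp Γ b) u).1 + (eval (PP Γ b) (pp Γ b) v).1 = _ + _
    rw [hu, hv]
  | smul c u hu =>
    change c • (eval (PP Γ b) (pp Γ b) u).1 = c • _
    rw [hu]
  | abs u hu =>
    change |(eval (PP Γ b) (pp Γ b) u).1| = |_|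
    rw [hu]

theorem norm_evalP (w : Tm Γ) : ‖eval (PP Γ b) (pp Γ b) w‖ = N Γ b w := by
  rw [← norm_eval, ← eval_val]
  rfl

theorem pp_adm : Adm b (X := PP Γ b) (pp Γ b) := fun γ =>
  ⟨fun hb => (dd_adm Γ b γ).1 hb, (dd_adm Γ b γ).2⟩

theorem dense_eval (x : PP Γ b) :
    x ∈ closure (Set.range (eval (PP Γ b) (pp Γ b))) := by
  rw [closure_subtype]
  have h := x.2
  refine closure_mono ?_ h
  rintro _ ⟨w, rfl⟩
  exact ⟨_, ⟨w, rfl⟩, eval_val Γ b w⟩

variable {Γ b}

theorem hom_ext {X : BLat} {T T' : PP Γ b →L[ℝ] X} (hT : IsLatHom T) (hT' : IsLatHom T')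
    (h : ∀ γ, T (pp Γ b γ) = T' (pp Γ b γ)) : T = T' := by
  refine ContinuousLinearMap.ext fun x => ?_
  have hc : IsClosed {x | T x = T' x} := isClosed_eq T.continuous T'.continuous
  refine closure_minimal (t := {x | T x = T' x}) ?_ hc (dense_eval Γ b x)
  rintro _ ⟨w, rfl⟩
  change T _ = T' _
  rw [map_eval hT, map_eval hT']
  congr 1
  exact funext h

theorem exists_term (x : Tm Γ →₀ ℝ) : ∃ w : Tm Γ, ∀ (X : BLat) (g : Γ → X),
    Finsupp.linearCombination ℝ (eval X g) x = eval X g w := by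
  induction x using Finsupp.induction_linear with
  | zero => exact ⟨.zero, fun X g => map_zero _⟩
  | add x y hx hy =>
    obtain ⟨u, hu⟩ := hx
    obtain ⟨v, hv⟩ := hy
    exact ⟨.add u v, fun X g => by rw [map_add, hu, hv]; rfl⟩
  | single w c =>
    exact ⟨.smul c w, fun X g => by rw [Finsupp.linearCombination_single]; rfl⟩

theorem exists_hom_one {X : BLat} (g : Γ → X) (hg : Adm b g) :
    ∃ T : PP Γ b →L[ℝ] X, IsLatHom T ∧ (∀ γ, T (pp Γ b γ) = g γ) ∧ ‖T‖ ≤ 1 := by
  set e := Finsupp.linearCombination ℝ (eval (PP Γ b) (pp Γ b)) with he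
  set f := Finsupp.linearCombination ℝ (eval X g) with hf
  have hdense : DenseRange e := by
    intro x
    refine closure_mono ?_ (dense_eval Γ b x)
    rintro _ ⟨w, rfl⟩
    exact ⟨Finsupp.single w 1, by rw [he, Finsupp.linearCombination_single, one_smul]⟩
  have hnorm : ∀ x, ‖f x‖ ≤ 1 * ‖e x‖ := by
    intro x
    obtain ⟨w, hw⟩ := exists_term x
    rw [hf, he, hw, hw, one_mul, norm_evalP]
    exact eval_le_N Γ b hg w
  have hT : ∀ w, f.extendOfNorm e (eval (PP Γ b) (pp Γ b) w) = eval X g w := by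
    intro w
    have h := LinearMap.extendOfNorm_eq hdense ⟨1, hnorm⟩ (Finsupp.single w 1)
    rw [he, hf, Finsupp.linearCombination_single, Finsupp.linearCombination_single, one_smul,
      one_smul] at h
    exact h
  refine ⟨f.extendOfNorm e, fun x => ?_, fun γ => hT (.gen γ),
    LinearMap.opNorm_extendOfNorm_le hdense zero_le_one hnorm⟩
  have hc : IsClosed {x : PP Γ b | f.extendOfNorm e |x| = |f.extendOfNorm e x|} :=
    isClosed_eq ((f.extendOfNorm e).continuous.comp continuous_abs')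
      (continuous_abs'.comp (f.extendOfNorm e).continuous)
  refine closure_minimal (t := {x : PP Γ b | f.extendOfNorm e |x| = |f.extendOfNorm e x|}) ?_ hc
    (dense_eval Γ b x)
  rintro _ ⟨w, rfl⟩
  change f.extendOfNorm e (eval (PP Γ b) (pp Γ b) (.abs w)) = _
  rw [hT, hT]
  rfl

/-- The universal property. -/
theorem exists_hom {X : BLat} (g : Γ → X) {c : ℝ} (hc : 0 ≤ c)
    (hg : ∀ γ, (b → 0 ≤ g γ) ∧ ‖g γ‖ ≤ c) :
    ∃ T : PP Γ b →L[ℝ] X, IsLatHom T ∧ (∀ γ, T (pp Γ b γ) = g γ) ∧ ‖T‖ ≤ c := by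
  rcases hc.eq_or_lt with rfl | hc
  · refine ⟨0, fun x => by simp, fun γ => ?_,
      ContinuousLinearMap.opNorm_le_bound _ le_rfl fun x => by simp⟩
    have := norm_le_zero_iff.1 (hg γ).2
    rw [this]
    rfl
  · obtain ⟨T, hT, h1, h2⟩ := exists_hom_one (b := b) (fun γ => c⁻¹ • g γ) fun γ =>
      ⟨fun hb => smul_nonneg (inv_nonneg.2 hc.le) ((hg γ).1 hb), by
        rw [norm_smul, Real.norm_of_nonneg (inv_nonneg.2 hc.le), inv_mul_le_iff₀ hc, mul_one]
        exact (hg γ).2⟩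
    refine ⟨c • T, hT.smul hc.le, fun γ => ?_, ?_⟩
    · change c • T (pp Γ b γ) = g γ
      rw [h1, smul_smul, mul_inv_cancel₀ hc.ne', one_smul]
    · refine ContinuousLinearMap.opNorm_le_bound _ hc.le fun x => ?_
      change ‖c • T x‖ ≤ _
      rw [norm_smul, Real.norm_of_nonneg hc.le]
      refine mul_le_mul_of_nonneg_left ?_ hc.le
      exact (T.le_opNorm x).trans ((mul_le_mul_of_nonneg_right h2 (norm_nonneg _)).trans
        (one_mul _).le)

/-- Free Banach lattices on positive generators are projective. -/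
theorem PP_projective : Projective (PP Γ True) := by
  intro X Y q hq T hT ε hε
  by_cases hT0 : T = 0
  · exact ⟨0, fun x => by simp, by rw [hT0]; ext; simp, by rw [hT0]; simp⟩
  have hTpos : 0 < ‖T‖ := norm_pos_iff.mpr hT0
  have hlift : ∀ γ, ∃ z, 0 ≤ z ∧ q z = T (pp Γ True γ) ∧ ‖z‖ ≤ (1 + ε) * ‖T‖ := by
    intro γ
    obtain ⟨z, hz0, hz1, hz2⟩ := hq.exists_pos_lift
      (hT.nonneg ((pp_adm Γ True γ).1 trivial)) (η := ε * ‖T‖) (by positivity)
    refine ⟨z, hz0, hz1, hz2.le.trans ?_⟩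
    have h1 : ‖T (pp Γ True γ)‖ ≤ ‖T‖ * 1 :=
      (T.le_opNorm _).trans (mul_le_mul_of_nonneg_left (pp_adm Γ True γ).2 (norm_nonneg _))
    linarith
  choose z hz0 hzq hzn using hlift
  obtain ⟨S, hS, h1, h2⟩ := exists_hom (b := True) z (c := (1 + ε) * ‖T‖) (by positivity)
    fun γ => ⟨fun _ => hz0 γ, hzn γ⟩
  refine ⟨S, hS, hom_ext (hq.1.comp hS) hT fun γ => ?_, h2⟩
  rw [ContinuousLinearMap.comp_apply, h1, hzq]

/-- There is no topological order unit if there are uncountably many generators. -/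
theorem PP_no_unit (hΓ : ¬ (Set.univ : Set Γ).Countable) (e : PP Γ True) :
    ¬ IsTopOrderUnit e := by
  classical
  rintro ⟨he0, he⟩
  obtain ⟨s, hs, hse⟩ := mem_closure_iff_seq_limit.1 (dense_eval Γ True e)
  choose w hw using hs
  have hcount : (⋃ n, supp (w n)).Countable := Set.countable_iUnion fun n => supp_countable _
  obtain ⟨γ₀, hγ₀⟩ : ∃ γ₀, γ₀ ∉ ⋃ n, supp (w n) := by
    by_contra hcon
    push Not at hcon
    exact hΓ (hcount.mono fun γ _ => hcon γ)
  obtain ⟨ω, hω, h1, -⟩ := exists_hom (b := True) (X := realLat)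
    (fun γ => if γ = γ₀ then (1 : ℝ) else 0) (c := 1) zero_le_one fun γ => by
      constructor
      · intro _
        change (0 : ℝ) ≤ if γ = γ₀ then (1 : ℝ) else 0
        split_ifs <;> norm_num
      · change ‖(if γ = γ₀ then (1 : ℝ) else 0 : ℝ)‖ ≤ 1
        split_ifs <;> norm_num
  have h2 : ω e = 0 := by
    have h3 : Tendsto (fun n => ω (s n)) atTop (𝓝 (ω e)) :=
      (ω.continuous.tendsto e).comp hse
    refine tendsto_nhds_unique h3 ?_
    have h4 : ∀ n, ω (s n) = 0 := by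
      intro n
      rw [← hw n, map_eval hω]
      refine eval_eq_zero _ _ _ fun γ hγ => ?_
      change ω (pp Γ True γ) = 0
      rw [h1]
      have : γ ≠ γ₀ := fun h => hγ₀ (h ▸ Set.mem_iUnion.2 ⟨n, hγ⟩)
      exact if_neg this
    simp only [h4]
    exact tendsto_const_nhds
  have h3 := he (LinearMap.ker (ω : PP Γ True →ₗ[ℝ] realLat)) ?_ ?_ h2
  · have h4 : pp Γ True γ₀ ∈ LinearMap.ker (ω : PP Γ True →ₗ[ℝ] realLat) := by
      rw [h3]; trivial
    have h5 : ω (pp Γ True γ₀) = 0 := h4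
    rw [h1] at h5
    have h6 : (if γ₀ = γ₀ then (1 : ℝ) else 0) = 0 := h5
    rw [if_pos rfl] at h6
    exact one_ne_zero h6
  · exact isClosed_eq ω.continuous continuous_const
  · intro a ha c hca
    have h4 : ω a = 0 := ha
    have h5 : ω |c| ≤ ω |a| := hω.mono hca
    rw [hω, hω, h4, abs_zero] at h5
    have h6 : |ω c| = 0 := le_antisymm h5 (abs_nonneg _)
    exact abs_eq_zero.1 h6

end Pool.Agent.V1198.FP
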