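import Mathlib

/-!
# Gaussian copies of Hilbert space in `L_r[0,1]`
-/

set_option autoImplicit false

noncomputable section

open MeasureTheory ProbabilityTheory Filter Topology
open scoped ENNReal MeasureTheory

namespace Pool.Agent.V1198.GL

variable (𝕜 : Type) [RCLike 𝕜]

/-- The law of `c X`, `X` standard Gaussian. -/
def law (c : 𝕜) : Measure 𝕜 := (stdGaussian 𝕜).map (fun x => c * x)

theorem measurable_mulc (c : 𝕜) : Measurable (fun x : 𝕜 => c * x) :=
  (continuous_const.mul continuous_id).measurable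

instance (c : 𝕜) : IsProbabilityMeasure (law 𝕜 c) :=
  Measure.isProbabilityMeasure_map (measurable_mulc 𝕜 c).aemeasurable

theorem inner_eq (x y : 𝕜) : (inner ℝ x y : ℝ) = RCLike.re (starRingEnd 𝕜 x * y) := by
  rw [mul_comm]
  rfl

theorem charFun_law (c t : 𝕜) :
    charFun (law 𝕜 c) t = Complex.exp (-(((‖c‖ * ‖t‖ : ℝ)) : ℂ) ^ 2 / 2) := by
  have h : charFun (law 𝕜 c) t = charFun (stdGaussian 𝕜) (starRingEnd 𝕜 c * t) := by
    rw [charFun_apply, charFun_apply, law, integral_map (measurable_mulc 𝕜 c).aemeasurable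
      (by fun_prop)]
    congr 1
    funext x
    congr 2
    rw [inner_eq, inner_eq, RingHom.map_mul]
    congr 1
    ring_nf
  rw [h, charFun_stdGaussian, norm_mul, RCLike.norm_conj]

theorem law_congr {c d : 𝕜} (h : ‖c‖ = ‖d‖) : law 𝕜 c = law 𝕜 d := by
  refine Measure.ext_of_charFun ?_
  funext t
  rw [charFun_law, charFun_law, h]

theorem law_conv (b c : 𝕜) :
    (law 𝕜 b) ∗ (law 𝕜 c) = law 𝕜 ((Real.sqrt (‖b‖ ^ 2 + ‖c‖ ^ 2) : ℝ) : 𝕜) := by
  refine Measure.ext_of_charFun ?_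
  funext t
  rw [charFun_conv, charFun_law, charFun_law, charFun_law, ← Complex.exp_add]
  congr 1
  have h1 : ‖((Real.sqrt (‖b‖ ^ 2 + ‖c‖ ^ 2) : ℝ) : 𝕜)‖ = Real.sqrt (‖b‖ ^ 2 + ‖c‖ ^ 2) := by
    rw [RCLike.norm_ofReal, abs_of_nonneg (Real.sqrt_nonneg _)]
  rw [h1]
  have h2 : (Real.sqrt (‖b‖ ^ 2 + ‖c‖ ^ 2) * ‖t‖) ^ 2 = (‖b‖ * ‖t‖) ^ 2 + (‖c‖ * ‖t‖) ^ 2 := by
    rw [mul_pow, Real.sq_sqrt (by positivity)]
    ring
  have h3 : ((Real.sqrt (‖b‖ ^ 2 + ‖c‖ ^ 2) * ‖t‖ : ℝ) : ℂ) ^ 2 =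
      ((‖b‖ * ‖t‖ : ℝ) : ℂ) ^ 2 + ((‖c‖ * ‖t‖ : ℝ) : ℂ) ^ 2 := by
    exact_mod_cast h2
  rw [h3]
  ring

/-- Independent standard Gaussian variables. -/
theorem law_sum (b : ℕ → 𝕜) (s : Finset ℕ) :
    (Measure.infinitePi (fun _ : ℕ => stdGaussian 𝕜)).map (fun ω => ∑ n ∈ s, b n * ω n) =
      law 𝕜 ((Real.sqrt (∑ n ∈ s, ‖b n‖ ^ 2) : ℝ) : 𝕜) := by
  classical
  set P := Measure.infinitePi (fun _ : ℕ => stdGaussian 𝕜) with hP
  have hind : iIndepFun (fun n (ω : ℕ → 𝕜) => b n * ω n) P :=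
    iIndepFun_infinitePi (P := fun _ : ℕ => stdGaussian 𝕜) (X := fun n x => b n * x)
      (fun n => measurable_mulc 𝕜 (b n))
  have hmeas : ∀ n, Measurable (fun ω : ℕ → 𝕜 => b n * ω n) := fun n =>
    (measurable_mulc 𝕜 (b n)).comp (measurable_pi_apply n)
  have hlaw1 : ∀ n, P.map (fun ω => b n * ω n) = law 𝕜 (b n) := fun n => by
    have h1 := (measurePreserving_eval_infinitePi (fun _ : ℕ => stdGaussian 𝕜) n).map_eq
    rw [law, ← h1, Measure.map_map (measurable_mulc 𝕜 (b n)) (measurable_pi_apply n)]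
    rfl
  induction s using Finset.induction_on with
  | empty =>
    simp only [Finset.sum_empty, Real.sqrt_zero, RCLike.ofReal_zero]
    rw [law]
    simp only [zero_mul]
    rw [Measure.map_const, Measure.map_const, measure_univ, measure_univ]
  | insert m s hm ih =>
    have h1 : (fun ω : ℕ → 𝕜 => ∑ n ∈ insert m s, b n * ω n) =
        (fun ω => ∑ n ∈ s, b n * ω n) + fun ω => b m * ω m := by
      funext ω
      rw [Finset.sum_insert hm, Pi.add_apply, add_comm]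
    have hindep := hind.indepFun_finsetSum_of_notMem hmeas hm
    have h2 : (∑ j ∈ s, fun ω : ℕ → 𝕜 => b j * ω j) = fun ω => ∑ n ∈ s, b n * ω n := by
      funext ω
      rw [Finset.sum_apply]
    rw [h2] at hindep
    have hms : Measurable (fun ω : ℕ → 𝕜 => ∑ n ∈ s, b n * ω n) :=
      Finset.measurable_sum _ fun n _ => hmeas n
    have : IsProbabilityMeasure (P.map fun ω : ℕ → 𝕜 => ∑ n ∈ s, b n * ω n) :=
      Measure.isProbabilityMeasure_map hms.aemeasurable
    have : IsProbabilityMeasure (P.map fun ω : ℕ → 𝕜 => b m * ω m) :=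
      Measure.isProbabilityMeasure_map (hmeas m).aemeasurable
    rw [h1, IndepFun.map_add_eq_map_conv_map₀' hms.aemeasurable (hmeas m).aemeasurable
      inferInstance inferInstance hindep, ih, hlaw1, law_conv, Finset.sum_insert hm]
    congr 3
    rw [RCLike.norm_ofReal, abs_of_nonneg (Real.sqrt_nonneg _), Real.sq_sqrt (by positivity)]
    ring

/-- A sequence of functions on the unit interval that are independent standard Gaussian. -/
theorem exists_seq : ∃ Y : ℕ → unitInterval → 𝕜, (∀ n, Measurable (Y n)) ∧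
    ∀ (s : Finset ℕ) (b : ℕ → 𝕜), (volume : Measure unitInterval).map
      (fun t => ∑ n ∈ s, b n * Y n t) = law 𝕜 ((Real.sqrt (∑ n ∈ s, ‖b n‖ ^ 2) : ℝ) : 𝕜) := by
  obtain ⟨τ, hτ, hmap⟩ := Measure.exists_measurable_map_eq
    (Measure.infinitePi (fun _ : ℕ => stdGaussian 𝕜))
  refine ⟨fun n t => τ t n, fun n => (measurable_pi_apply n).comp hτ, fun s b => ?_⟩
  rw [← law_sum, ← hmap, Measure.map_map _ hτ]
  · rfl
  · exact Finset.measurable_sum _ fun n _ => (measurable_mulc 𝕜 (b n)).comp (measurable_pi_apply n)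

end Pool.Agent.V1198.GL
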