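import Pool.Agent.V1198.GaussLp

/-!
# The Gaussian operators `ℓ_2 → L_r[0,1]`
-/

set_option autoImplicit false

noncomputable section

open MeasureTheory ProbabilityTheory Filter Topology
open scoped ENNReal MeasureTheory

namespace Pool.Agent.V1198.GL

variable (𝕜 : Type) [RCLike 𝕜]

/-- `N(s,c) = ‖s + c ξ‖_r`. -/
def Nn (r : ℝ≥0∞) (s : 𝕜) (c : ℝ) : ℝ :=
  (eLpNorm (fun x : 𝕜 => s + (c : 𝕜) * x) r (stdGaussian 𝕜)).toReal

theorem measurable_addc (s : 𝕜) : Measurable (fun x : 𝕜 => s + x) :=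
  (continuous_const.add continuous_id).measurable

theorem eLpNorm_law (r : ℝ≥0∞) (s c : 𝕜) :
    eLpNorm (fun x : 𝕜 => s + c * x) r (stdGaussian 𝕜) =
      eLpNorm (fun z : 𝕜 => s + z) r (law 𝕜 c) := by
  rw [law, eLpNorm_map_measure (measurable_addc 𝕜 s).aestronglyMeasurable
    (measurable_mulc 𝕜 c).aemeasurable]
  rfl

/-- The constant function `1` in `L_r(γ)`. -/
def oneG (r : ℝ≥0∞) : Lp 𝕜 r (stdGaussian 𝕜) := (memLp_const (1 : 𝕜)).toLp _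

/-- The constant function `1` in `L_r[0,1]`. -/
def oneL (r : ℝ≥0∞) : Lp 𝕜 r (volume : Measure unitInterval) := (memLp_const (1 : 𝕜)).toLp _

/-- The coordinate function in `L_r(γ)`. -/
def xiG (r : ℝ≥0∞) (hr : r ≠ ∞) : Lp 𝕜 r (stdGaussian 𝕜) :=
  (IsGaussian.memLp_id (stdGaussian 𝕜) r hr).toLp _

theorem Nn_eq (r : ℝ≥0∞) (hr : r ≠ ∞) (s : 𝕜) (c : ℝ) :
    Nn 𝕜 r s c = ‖s • oneG 𝕜 r + (c : 𝕜) • xiG 𝕜 r hr‖ := by
  rw [Nn, Lp.norm_def]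
  congr 1
  refine eLpNorm_congr_ae ?_
  filter_upwards [Lp.coeFn_add (s • oneG 𝕜 r) ((c : 𝕜) • xiG 𝕜 r hr),
    Lp.coeFn_smul s (oneG 𝕜 r), Lp.coeFn_smul (c : 𝕜) (xiG 𝕜 r hr),
    MemLp.coeFn_toLp (memLp_const (1 : 𝕜) : MemLp _ r (stdGaussian 𝕜)),
    MemLp.coeFn_toLp (IsGaussian.memLp_id (stdGaussian 𝕜) r hr)] with x h1 h2 h3 h4 h5
  rw [h1, Pi.add_apply, h2, h3, Pi.smul_apply, Pi.smul_apply, oneG, xiG, h4, h5]
  simp [smul_eq_mul]

theorem continuous_Nn (r : ℝ≥0∞) [Fact (1 ≤ r)] (hr : r ≠ ∞) :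
    Continuous (fun z : 𝕜 × ℝ => Nn 𝕜 r z.1 z.2) := by
  have h : (fun z : 𝕜 × ℝ => Nn 𝕜 r z.1 z.2) =
      fun z : 𝕜 × ℝ => ‖z.1 • oneG 𝕜 r + (z.2 : 𝕜) • xiG 𝕜 r hr‖ := by
    funext z
    exact Nn_eq 𝕜 r hr z.1 z.2
  rw [h]
  have h1 : Continuous (fun z : 𝕜 × ℝ => ((z.2 : ℝ) : 𝕜)) :=
    RCLike.continuous_ofReal.comp continuous_snd
  exact ((continuous_fst.smul continuous_const).add (h1.smul continuous_const)).norm

/-- The Hilbert space `ℓ_2`. -/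
abbrev H2 := lp (fun _ : ℕ => 𝕜) 2

theorem coeFn_sum {r : ℝ≥0∞} (y : ℕ → Lp 𝕜 r (volume : Measure unitInterval))
    (Y : ℕ → unitInterval → 𝕜) (hy : ∀ n, y n =ᵐ[volume] Y n) (S : Finset ℕ) (b : ℕ → 𝕜) :
    (∑ n ∈ S, b n • y n : Lp 𝕜 r (volume : Measure unitInterval)) =ᵐ[volume]
      fun t => ∑ n ∈ S, b n * Y n t := by
  classical
  induction S using Finset.induction_on with
  | empty =>
    simp only [Finset.sum_empty]
    exact Lp.coeFn_zero _ _ _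
  | insert m S hm ih =>
    rw [Finset.sum_insert hm]
    filter_upwards [Lp.coeFn_add (b m • y m) (∑ n ∈ S, b n • y n), Lp.coeFn_smul (b m) (y m),
      ih, hy m] with t h1 h2 h3 h4
    rw [h1, Pi.add_apply, h2, h3, Pi.smul_apply, h4, Finset.sum_insert hm, smul_eq_mul]

/-- Finite sums: there are `y_n ∈ L_r[0,1]` with `‖s 1 + ∑ b_n y_n‖ = N(s, |b|)`. -/
theorem exists_y (r : ℝ≥0∞) (hr : r ≠ ∞) :
    ∃ y : ℕ → Lp 𝕜 r (volume : Measure unitInterval), ∀ (s : 𝕜) (S : Finset ℕ) (b : ℕ → 𝕜),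
      ‖s • oneL 𝕜 r + ∑ n ∈ S, b n • y n‖ = Nn 𝕜 r s (Real.sqrt (∑ n ∈ S, ‖b n‖ ^ 2)) := by
  obtain ⟨Y, hYm, hY⟩ := exists_seq 𝕜
  have hmem : ∀ n, MemLp (Y n) r (volume : Measure unitInterval) := fun n => by
    have h1 := hY {n} (fun _ => 1)
    simp only [Finset.sum_singleton, one_mul, norm_one, one_pow, Real.sqrt_one,
      RCLike.ofReal_one] at h1
    have h2 : law 𝕜 (1 : 𝕜) = stdGaussian 𝕜 := by
      rw [law]
      simp only [one_mul]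
      exact Measure.map_id
    rw [h2] at h1
    have h3 : MemLp (id : 𝕜 → 𝕜) r ((volume : Measure unitInterval).map (fun t => Y n t)) := by
      rw [h1]
      exact IsGaussian.memLp_id (stdGaussian 𝕜) r hr
    exact h3.comp_of_map (hYm n).aemeasurable
  refine ⟨fun n => (hmem n).toLp _, fun s S b => ?_⟩
  have hms : Measurable (fun t => ∑ n ∈ S, b n * Y n t) :=
    Finset.measurable_sum _ fun n _ => (measurable_mulc 𝕜 (b n)).comp (hYm n)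
  rw [Nn, Lp.norm_def]
  congr 1
  rw [eLpNorm_law, ← hY S b, eLpNorm_map_measure (measurable_addc 𝕜 s).aestronglyMeasurable
    hms.aemeasurable]
  refine eLpNorm_congr_ae ?_
  filter_upwards [Lp.coeFn_add (s • oneL 𝕜 r) (∑ n ∈ S, b n • (hmem n).toLp _),
    Lp.coeFn_smul s (oneL 𝕜 r), coeFn_sum 𝕜 (fun n => (hmem n).toLp _) Y
      (fun n => MemLp.coeFn_toLp (hmem n)) S b,
    MemLp.coeFn_toLp (memLp_const (1 : 𝕜) : MemLp _ r (volume : Measure unitInterval))]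
    with t h1 h2 h3 h4
  rw [h1, Pi.add_apply, h2, h3, Pi.smul_apply, oneL, h4]
  simp [smul_eq_mul]

theorem sq_summable (b : H2 𝕜) : Summable (fun n => ‖b n‖ ^ 2) := by
  have h := lp.memℓp b
  have h2 := (memℓp_gen_iff (by norm_num : (0 : ℝ) < (2 : ℝ≥0∞).toReal)).1 h
  simpa using h2

theorem sq_norm (b : H2 𝕜) : ‖b‖ ^ 2 = ∑' n, ‖b n‖ ^ 2 := by
  have h := lp.norm_rpow_eq_tsum (by norm_num : (0 : ℝ) < (2 : ℝ≥0∞).toReal) b
  simpa using h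

/-- The Gaussian operator with bounded multipliers. -/
theorem exists_G (r : ℝ≥0∞) [Fact (1 ≤ r)] (hr : r ≠ ∞) (d : ℕ → ℝ) (hd0 : ∀ n, 0 ≤ d n)
    (hd1 : ∀ n, d n ≤ 1) :
    ∃ G : H2 𝕜 →ₗ[𝕜] Lp 𝕜 r (volume : Measure unitInterval), ∀ (s : 𝕜) (b : H2 𝕜),
      ‖s • oneL 𝕜 r + G b‖ = Nn 𝕜 r s (Real.sqrt (∑' n, (d n * ‖b n‖) ^ 2)) := by
  obtain ⟨y, hy⟩ := exists_y 𝕜 r hr
  set γ : ℝ := Nn 𝕜 r 0 1 with hγ
  have hN0 : ∀ c : ℝ, 0 ≤ c → Nn 𝕜 r 0 c = c * γ := by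
    intro c hc
    rw [hγ, Nn_eq 𝕜 r hr, Nn_eq 𝕜 r hr, zero_smul, zero_add, zero_add, RCLike.ofReal_one,
      one_smul, norm_smul, RCLike.norm_ofReal, abs_of_nonneg hc]
  have hfin : ∀ (S : Finset ℕ) (b : ℕ → 𝕜), ‖∑ n ∈ S, b n • y n‖ =
      Real.sqrt (∑ n ∈ S, ‖b n‖ ^ 2) * γ := by
    intro S b
    have h := hy 0 S b
    rw [zero_smul, zero_add] at h
    rw [h, hN0 _ (Real.sqrt_nonneg _)]
  have hle : ∀ (b : H2 𝕜) n, (d n * ‖b n‖) ^ 2 ≤ ‖b n‖ ^ 2 := fun b n => by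
    refine pow_le_pow_left₀ (mul_nonneg (hd0 n) (norm_nonneg _)) ?_ 2
    have := mul_le_mul_of_nonneg_right (hd1 n) (norm_nonneg (b n))
    linarith
  have hsq : ∀ b : H2 𝕜, Summable (fun n => (d n * ‖b n‖) ^ 2) := fun b =>
    Summable.of_nonneg_of_le (fun n => sq_nonneg _) (hle b) (sq_summable 𝕜 b)
  have hnorm : ∀ (b : H2 𝕜) n, ‖((d n : ℝ) : 𝕜) * b n‖ = d n * ‖b n‖ := fun b n => by
    rw [norm_mul, RCLike.norm_ofReal, abs_of_nonneg (hd0 n)]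
  have hγ0 : 0 ≤ γ := by
    rw [hγ, Nn]
    exact ENNReal.toReal_nonneg
  have hsum : ∀ b : H2 𝕜, Summable (fun n => (((d n : ℝ) : 𝕜) * b n) • y n) := by
    intro b
    rw [summable_iff_vanishing_norm]
    intro ε hε
    obtain ⟨S, hS⟩ := summable_iff_vanishing_norm.1 (hsq b) ((ε / (γ + 1)) ^ 2) (by positivity)
    refine ⟨S, fun t ht => ?_⟩
    have h1 := hS t ht
    rw [Real.norm_eq_abs, abs_of_nonneg (Finset.sum_nonneg fun n _ => sq_nonneg _)] at h1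
    rw [hfin t (fun n => ((d n : ℝ) : 𝕜) * b n)]
    have h2 : Real.sqrt (∑ n ∈ t, ‖((d n : ℝ) : 𝕜) * b n‖ ^ 2) < ε / (γ + 1) := by
      rw [Real.sqrt_lt' (by positivity)]
      simpa only [hnorm] using h1
    calc Real.sqrt (∑ n ∈ t, ‖((d n : ℝ) : 𝕜) * b n‖ ^ 2) * γ
        ≤ ε / (γ + 1) * γ := mul_le_mul_of_nonneg_right h2.le hγ0
      _ < ε / (γ + 1) * (γ + 1) := mul_lt_mul_of_pos_left (by linarith) (by positivity)
      _ = ε := by field_simp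
  refine ⟨{ toFun := fun b => (∑' n, (((d n : ℝ) : 𝕜) * b n) • y n)
            map_add' := ?_
            map_smul' := ?_ }, ?_⟩
  · intro b c
    rw [← (hsum b).tsum_add (hsum c)]
    congr 1
    funext n
    rw [← add_smul]
    congr 1
    rw [lp.coeFn_add, Pi.add_apply, mul_add]
  · intro a b
    rw [RingHom.id_apply, ← (hsum b).tsum_const_smul]
    congr 1
    funext n
    rw [lp.coeFn_smul, Pi.smul_apply, smul_smul, smul_eq_mul]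
    congr 1
    ring
  · intro s b
    change ‖s • oneL 𝕜 r + ∑' n, (((d n : ℝ) : 𝕜) * b n) • y n‖ = _
    have hs1 : Tendsto (fun S : Finset ℕ => ∑ n ∈ S, (((d n : ℝ) : 𝕜) * b n) • y n) atTop
        (𝓝 (∑' n, (((d n : ℝ) : 𝕜) * b n) • y n)) := (hsum b).hasSum
    have hs2 : Tendsto (fun S : Finset ℕ => ∑ n ∈ S, (d n * ‖b n‖) ^ 2) atTop
        (𝓝 (∑' n, (d n * ‖b n‖) ^ 2)) := (hsq b).hasSum
    have hfin2 : ∀ S : Finset ℕ, ‖s • oneL 𝕜 r + ∑ n ∈ S, (((d n : ℝ) : 𝕜) * b n) • y n‖ =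
        Nn 𝕜 r s (Real.sqrt (∑ n ∈ S, (d n * ‖b n‖) ^ 2)) := by
      intro S
      rw [hy s S (fun n => ((d n : ℝ) : 𝕜) * b n)]
      simp only [hnorm]
    have h30 : Continuous (fun c : ℝ => (s, Real.sqrt c)) :=
      continuous_const.prodMk Real.continuous_sqrt
    have h3 := (continuous_Nn 𝕜 r hr).comp h30
    generalize (∑' n, (((d n : ℝ) : 𝕜) * b n) • y n) = A at hs1
    generalize (∑' n, (d n * ‖b n‖) ^ 2) = B at hs2
    have h4 := (hs1.const_add (s • oneL 𝕜 r)).norm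
    have h5 := (h3.tendsto B).comp hs2
    refine tendsto_nhds_unique h4 ?_
    refine h5.congr fun S => ?_
    exact (hfin2 S).symm

end Pool.Agent.V1198.GL
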