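import Pool.Agent.V1198.GaussLp2

/-!
# The strict inequality
-/

set_option autoImplicit false

noncomputable section

open MeasureTheory ProbabilityTheory Filter Topology
open scoped ENNReal MeasureTheory

namespace Pool.Agent.V1198.GL

variable (𝕜 : Type) [RCLike 𝕜]

theorem memLp_aff (r : ℝ≥0∞) (hr : r ≠ ∞) (s c : 𝕜) :
    MemLp (fun x : 𝕜 => s + c * x) r (stdGaussian 𝕜) :=
  (memLp_const s).add ((IsGaussian.memLp_id (stdGaussian 𝕜) r hr).const_mul c)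

theorem Nn_rpow (r : ℝ≥0∞) (h0 : r ≠ 0) (hr : r ≠ ∞) (s : 𝕜) (c : ℝ) :
    Nn 𝕜 r s c ^ r.toReal = ∫ x, ‖s + (c : 𝕜) * x‖ ^ r.toReal ∂(stdGaussian 𝕜) := by
  have hp : r.toReal ≠ 0 := ENNReal.toReal_ne_zero.2 ⟨h0, hr⟩
  have h1 : 0 ≤ ∫ x, ‖s + (c : 𝕜) * x‖ ^ r.toReal ∂(stdGaussian 𝕜) :=
    integral_nonneg fun x => Real.rpow_nonneg (norm_nonneg _) _
  rw [Nn, (memLp_aff 𝕜 r hr s (c : 𝕜)).eLpNorm_eq_integral_rpow_norm h0 hr,
    ENNReal.toReal_ofReal (Real.rpow_nonneg h1 _), ← Real.rpow_mul h1, inv_mul_cancel₀ hp,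
    Real.rpow_one]

theorem law_one : law 𝕜 (1 : 𝕜) = stdGaussian 𝕜 := by
  rw [law]
  simp only [one_mul]
  exact Measure.map_id

theorem aesm_norm_rpow (ρ : ℝ) (hρ : 0 ≤ ρ) (μ : Measure 𝕜) :
    AEStronglyMeasurable (fun z : 𝕜 => ‖z‖ ^ ρ) μ :=
  (continuous_norm.rpow_const fun _ => Or.inr hρ).aestronglyMeasurable

theorem Nn_conv (r : ℝ≥0∞) [Fact (1 ≤ r)] (h0 : r ≠ 0) (hr : r ≠ ∞) (a : ℝ) (ha : 0 ≤ a) :
    Nn 𝕜 r 0 (Real.sqrt (a ^ 2 + 1)) ^ r.toReal =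
      ∫ x, Nn 𝕜 r ((a : 𝕜) * x) 1 ^ r.toReal ∂(stdGaussian 𝕜) := by
  set ρ := r.toReal with hρ
  have hρ0 : 0 ≤ ρ := ENNReal.toReal_nonneg
  rw [hρ, Nn_rpow 𝕜 r h0 hr, ← hρ]
  have h1 : ∫ x, ‖(0 : 𝕜) + ((Real.sqrt (a ^ 2 + 1) : ℝ) : 𝕜) * x‖ ^ ρ ∂(stdGaussian 𝕜) =
      ∫ z, ‖z‖ ^ ρ ∂(law 𝕜 ((Real.sqrt (a ^ 2 + 1) : ℝ) : 𝕜)) := by
    rw [law, integral_map (measurable_mulc 𝕜 _).aemeasurable (aesm_norm_rpow 𝕜 ρ hρ0 _)]
    simp only [zero_add]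
  have h2 : law 𝕜 ((Real.sqrt (a ^ 2 + 1) : ℝ) : 𝕜) = (law 𝕜 (a : 𝕜)) ∗ (law 𝕜 (1 : 𝕜)) := by
    rw [law_conv]
    congr 3
    rw [RCLike.norm_ofReal, abs_of_nonneg ha, norm_one, one_pow]
  have hint : Integrable (fun z : 𝕜 => ‖z‖ ^ ρ) ((law 𝕜 (a : 𝕜)) ∗ (law 𝕜 (1 : 𝕜))) := by
    rw [← h2, law, integrable_map_measure (aesm_norm_rpow 𝕜 ρ hρ0 _)
      (measurable_mulc 𝕜 _).aemeasurable]
    have h3 := (memLp_aff 𝕜 r hr 0 ((Real.sqrt (a ^ 2 + 1) : ℝ) : 𝕜)).integrable_norm_rpow h0 hr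
    refine h3.congr (Eventually.of_forall fun x => ?_)
    simp only [zero_add, Function.comp_apply, hρ]
  rw [h1, h2, integral_conv hint, law_one]
  have h4 : ∀ x : 𝕜, ∫ y, ‖x + y‖ ^ ρ ∂(stdGaussian 𝕜) = Nn 𝕜 r x 1 ^ ρ := fun x => by
    rw [hρ, Nn_rpow 𝕜 r h0 hr]
    simp only [RCLike.ofReal_one, one_mul]
  simp only [h4]
  have h50 : Continuous (fun x : 𝕜 => (x, (1 : ℝ))) := continuous_id.prodMk continuous_const
  have h5 : Continuous (fun x : 𝕜 => Nn 𝕜 r x 1 ^ ρ) :=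
    ((continuous_Nn 𝕜 r hr).comp h50).rpow_const fun _ => Or.inr hρ0
  rw [law, integral_map (measurable_mulc 𝕜 _).aemeasurable h5.aestronglyMeasurable]

/-- The real part of a standard Gaussian variable is a standard real Gaussian variable. -/
theorem map_re : (stdGaussian 𝕜).map (fun x : 𝕜 => RCLike.re x) = gaussianReal 0 1 := by
  have hm : Measurable (fun x : 𝕜 => RCLike.re x) := RCLike.continuous_re.measurable
  have : IsProbabilityMeasure ((stdGaussian 𝕜).map (fun x : 𝕜 => RCLike.re x)) :=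
    Measure.isProbabilityMeasure_map hm.aemeasurable
  refine Measure.ext_of_charFun ?_
  funext t
  rw [charFun_gaussianReal, charFun_apply, integral_map hm.aemeasurable (by fun_prop)]
  have h1 := charFun_stdGaussian (E := 𝕜) ((t : ℝ) : 𝕜)
  rw [charFun_apply] at h1
  have h2 : ∀ x : 𝕜, (inner ℝ x ((t : ℝ) : 𝕜) : ℝ) = inner ℝ (RCLike.re x) t := by
    intro x
    rw [inner_eq, RCLike.re_mul_ofReal, RCLike.conj_re]
    simp [mul_comm]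
  simp only [h2] at h1
  rw [h1, RCLike.norm_ofReal, ← Complex.ofReal_pow, sq_abs]
  congr 1
  simp
  ring

theorem not_const (m : ℝ) : ¬ ∀ᵐ x ∂(stdGaussian 𝕜), ‖x‖ ^ 2 = m := by
  intro h
  have hm : Measurable (fun x : 𝕜 => RCLike.re x) := RCLike.continuous_re.measurable
  have h1 : (stdGaussian 𝕜) {x : 𝕜 | Real.sqrt m < RCLike.re x} = 0 := by
    refine measure_mono_null ?_ h
    intro x hx hx2
    have hx2' : ‖x‖ ^ 2 = m := hx2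
    have h3 : RCLike.re x ≤ ‖x‖ := RCLike.re_le_norm x
    have h4 : Real.sqrt m = ‖x‖ := by rw [← hx2', Real.sqrt_sq (norm_nonneg _)]
    have h5 : Real.sqrt m < RCLike.re x := hx
    linarith
  have h2 : (gaussianReal 0 1) (Set.Ioi (Real.sqrt m)) = 0 := by
    rw [← map_re 𝕜, Measure.map_apply hm measurableSet_Ioi]
    exact h1
  have h3 : (volume : Measure ℝ) (Set.Ioi (Real.sqrt m)) = 0 :=
    gaussianReal_absolutelyContinuous' 0 one_ne_zero h2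
  simp at h3

theorem Nn_zero (r : ℝ≥0∞) [Fact (1 ≤ r)] (hr : r ≠ ∞) (c : ℝ) (hc : 0 ≤ c) :
    Nn 𝕜 r 0 c = c * Nn 𝕜 r 0 1 := by
  rw [Nn_eq 𝕜 r hr, Nn_eq 𝕜 r hr, zero_smul, zero_add, zero_add, RCLike.ofReal_one,
    one_smul, norm_smul, RCLike.norm_ofReal, abs_of_nonneg hc]

theorem Nn_nonneg (r : ℝ≥0∞) (s : 𝕜) (c : ℝ) : 0 ≤ Nn 𝕜 r s c := ENNReal.toReal_nonneg

theorem integrable_dom (r : ℝ≥0∞) (h0 : r ≠ 0) (hr : r ≠ ∞) :
    Integrable (fun x : 𝕜 => (1 + ‖x‖) ^ r.toReal) (stdGaussian 𝕜) := by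
  have h1 : MemLp (fun x : 𝕜 => (1 : ℝ) + ‖x‖) r (stdGaussian 𝕜) :=
    (memLp_const (1 : ℝ)).add (IsGaussian.memLp_id (stdGaussian 𝕜) r hr).norm
  refine (h1.integrable_norm_rpow h0 hr).congr (Eventually.of_forall fun x => ?_)
  change ‖(1 : ℝ) + ‖x‖‖ ^ r.toReal = (1 + ‖x‖) ^ r.toReal
  rw [Real.norm_eq_abs, abs_of_nonneg (by positivity)]

theorem le_dom {ρ u y : ℝ} (hρ : 0 ≤ ρ) (hu : 0 ≤ u) (hu1 : u ≤ 1) (hy : 0 ≤ y) :
    (1 + u * y ^ 2) ^ (ρ / 2) ≤ (1 + y) ^ ρ := by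
  have h1 : (1 + y) ^ ρ = ((1 + y) ^ 2) ^ (ρ / 2) := by
    rw [← Real.rpow_natCast, ← Real.rpow_mul (by positivity)]
    congr 1
    push_cast
    ring
  rw [h1]
  refine Real.rpow_le_rpow (by positivity) ?_ (by positivity)
  nlinarith [mul_nonneg (sub_nonneg.2 hu1) (sq_nonneg y)]

theorem jensen (r : ℝ≥0∞) (hr : r ≠ ∞) (h2 : 2 < r) :
    (∫ x, ‖x‖ ^ 2 ∂(stdGaussian 𝕜)) ^ (r.toReal / 2) < Nn 𝕜 r 0 1 ^ r.toReal := by
  have h0 : r ≠ 0 := (lt_trans (by norm_num) h2).ne'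
  have hρ : 2 < r.toReal := by
    have := (ENNReal.toReal_lt_toReal (by norm_num) hr).2 h2
    simpa using this
  have hsq : ∀ x : 𝕜, (‖x‖ ^ 2) ^ (r.toReal / 2) = ‖x‖ ^ r.toReal := fun x => by
    rw [← Real.rpow_natCast, ← Real.rpow_mul (norm_nonneg _)]
    congr 1
    push_cast
    ring
  have hint1 : Integrable (fun x : 𝕜 => ‖x‖ ^ 2) (stdGaussian 𝕜) := by
    have h3 := (IsGaussian.memLp_id (stdGaussian 𝕜) 2 (by norm_num)).integrable_norm_rpow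
      (by norm_num) (by norm_num)
    simpa using h3
  have hint2 : Integrable (fun x : 𝕜 => ‖x‖ ^ r.toReal) (stdGaussian 𝕜) :=
    (IsGaussian.memLp_id (stdGaussian 𝕜) r hr).integrable_norm_rpow h0 hr
  have h := (strictConvexOn_rpow (p := r.toReal / 2) (by linarith)).ae_eq_const_or_map_average_lt
    (μ := stdGaussian 𝕜) (f := fun x : 𝕜 => ‖x‖ ^ 2)
    (continuousOn_id.rpow_const fun x _ => Or.inr (by linarith)) isClosed_Ici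
    (Eventually.of_forall fun x => Set.mem_Ici.2 (by positivity)) hint1
    (by
      refine hint2.congr (Eventually.of_forall fun x => ?_)
      exact (hsq x).symm)
  rcases h with h | h
  · exact absurd h (not_const 𝕜 _)
  · rw [average_eq_integral, average_eq_integral] at h
    simp only [hsq] at h
    refine h.trans_eq ?_
    rw [Nn_rpow 𝕜 r h0 hr]
    simp

theorem step_K (r : ℝ≥0∞) [Fact (1 ≤ r)] (hr : r ≠ ∞) (h2 : 2 < r)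
    (hcon : ∀ (s : 𝕜) (c : ℝ), 0 ≤ c → Nn 𝕜 r s c ≤ Real.sqrt (‖s‖ ^ 2 + (Nn 𝕜 r 0 1 * c) ^ 2))
    (hγ : 0 < Nn 𝕜 r 0 1) (u : ℝ) (hu : 0 ≤ u) (hu1 : u ≤ 1) :
    (1 + Nn 𝕜 r 0 1 ^ 2 * u) ^ (r.toReal / 2) ≤
      ∫ x, (1 + u * ‖x‖ ^ 2) ^ (r.toReal / 2) ∂(stdGaussian 𝕜) := by
  have h0 : r ≠ 0 := (lt_trans (by norm_num) h2).ne'
  have hρ : 2 < r.toReal := by
    have := (ENNReal.toReal_lt_toReal (by norm_num) hr).2 h2
    simpa using this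
  have hρ0 : 0 ≤ r.toReal := by linarith
  set γ := Nn 𝕜 r 0 1 with hγdef
  set ρ := r.toReal with hρdef
  have hc := Nn_conv 𝕜 r h0 hr (γ * Real.sqrt u) (by positivity)
  rw [← hρdef] at hc
  have hsqrt : ∀ z : ℝ, 0 ≤ z → Real.sqrt z ^ ρ = z ^ (ρ / 2) := fun z hz => by
    rw [Real.sqrt_eq_rpow, ← Real.rpow_mul hz]
    congr 1
    ring
  have hL : Nn 𝕜 r 0 (Real.sqrt ((γ * Real.sqrt u) ^ 2 + 1)) ^ ρ =
      γ ^ ρ * (1 + γ ^ 2 * u) ^ (ρ / 2) := by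
    rw [Nn_zero 𝕜 r hr _ (Real.sqrt_nonneg _), ← hγdef, Real.mul_rpow (Real.sqrt_nonneg _) hγ.le,
      hsqrt _ (by positivity), mul_pow, Real.sq_sqrt hu, mul_comm]
    congr 2
    ring
  have hR : ∀ x : 𝕜, Nn 𝕜 r (((γ * Real.sqrt u : ℝ) : 𝕜) * x) 1 ^ ρ ≤
      γ ^ ρ * (1 + u * ‖x‖ ^ 2) ^ (ρ / 2) := by
    intro x
    have h3 := hcon (((γ * Real.sqrt u : ℝ) : 𝕜) * x) 1 zero_le_one
    have h4 : ‖((γ * Real.sqrt u : ℝ) : 𝕜) * x‖ ^ 2 + (γ * 1) ^ 2 =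
        γ ^ 2 * (1 + u * ‖x‖ ^ 2) := by
      rw [norm_mul, RCLike.norm_ofReal, abs_of_nonneg (by positivity), mul_pow, mul_pow,
        Real.sq_sqrt hu]
      ring
    rw [h4] at h3
    calc Nn 𝕜 r (((γ * Real.sqrt u : ℝ) : 𝕜) * x) 1 ^ ρ
        ≤ Real.sqrt (γ ^ 2 * (1 + u * ‖x‖ ^ 2)) ^ ρ :=
          Real.rpow_le_rpow (Nn_nonneg 𝕜 r _ _) h3 hρ0
      _ = γ ^ ρ * (1 + u * ‖x‖ ^ 2) ^ (ρ / 2) := by
          rw [hsqrt _ (by positivity), Real.mul_rpow (by positivity) (by positivity)]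
          congr 1
          rw [← Real.rpow_natCast, ← Real.rpow_mul hγ.le]
          congr 1
          push_cast
          ring
  have hint : Integrable (fun x : 𝕜 => (1 + u * ‖x‖ ^ 2) ^ (ρ / 2)) (stdGaussian 𝕜) := by
    refine (integrable_dom 𝕜 r h0 hr).mono' ?_ (Eventually.of_forall fun x => ?_)
    · refine Continuous.aestronglyMeasurable ?_
      refine Continuous.rpow_const (by fun_prop) fun x => Or.inr (by positivity)
    · rw [Real.norm_eq_abs, abs_of_nonneg (by positivity)]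
      exact le_dom hρ0 hu hu1 (norm_nonneg x)
  have h6 : γ ^ ρ * (1 + γ ^ 2 * u) ^ (ρ / 2) ≤
      γ ^ ρ * ∫ x, (1 + u * ‖x‖ ^ 2) ^ (ρ / 2) ∂(stdGaussian 𝕜) := by
    rw [← hL, hc, ← integral_const_mul]
    refine integral_mono_of_nonneg (Eventually.of_forall fun x => ?_) (hint.const_mul _)
      (Eventually.of_forall hR)
    exact Real.rpow_nonneg (Nn_nonneg 𝕜 r _ _) _
  exact le_of_mul_le_mul_left h6 (Real.rpow_pos_of_pos hγ _)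

theorem bern {α y : ℝ} (hα : 1 ≤ α) (hy : 0 ≤ y) :
    (1 + y) ^ α ≤ 1 + α * (y * (1 + y) ^ (α - 1)) := by
  have h1 : 0 < 1 + y := by positivity
  have h2 := one_add_mul_self_le_rpow_one_add (s := (1 + y)⁻¹ - 1)
    (by have := inv_pos.2 h1; linarith) hα
  have h3 : (1 : ℝ) + ((1 + y)⁻¹ - 1) = (1 + y)⁻¹ := by ring
  rw [h3, Real.inv_rpow h1.le] at h2
  have h4 : 0 < (1 + y) ^ α := Real.rpow_pos_of_pos h1 _
  have h5 := mul_le_mul_of_nonneg_right h2 h4.le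
  rw [inv_mul_cancel₀ h4.ne'] at h5
  have h6 : (1 + y) ^ (α - 1) = (1 + y) ^ α * (1 + y)⁻¹ := by
    rw [Real.rpow_sub h1, Real.rpow_one, div_eq_mul_inv]
  rw [h6]
  have h7 : y * ((1 + y) ^ α * (1 + y)⁻¹) = (1 + y) ^ α * (1 - (1 + y)⁻¹) := by
    field_simp
    ring
  rw [h7]
  nlinarith [h5]

/-- For `r > 2` the map `e_0 ↦ 1`, `e_n ↦ ξ_n / γ` is not a contraction `ℓ_2 → L_r`. -/
theorem exists_gt (r : ℝ≥0∞) [Fact (1 ≤ r)] (hr : r ≠ ∞) (h2 : 2 < r) :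
    ∃ (s : 𝕜) (c : ℝ), 0 ≤ c ∧ Real.sqrt (‖s‖ ^ 2 + (Nn 𝕜 r 0 1 * c) ^ 2) < Nn 𝕜 r s c := by
  by_contra! hcon
  have h0 : r ≠ 0 := (lt_trans (by norm_num) h2).ne'
  have hρ : 2 < r.toReal := by
    have := (ENNReal.toReal_lt_toReal (by norm_num) hr).2 h2
    simpa using this
  have hρ0 : 0 ≤ r.toReal := by linarith
  have hJ := jensen 𝕜 r hr h2
  have hm0 : 0 ≤ ∫ x, ‖x‖ ^ 2 ∂(stdGaussian 𝕜) := integral_nonneg fun x => by positivity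
  have hγ : 0 < Nn 𝕜 r 0 1 := by
    rcases (Nn_nonneg 𝕜 r 0 1).lt_or_eq with h | h
    · exact h
    · rw [← h, Real.zero_rpow (by linarith)] at hJ
      exact absurd hJ (not_lt.2 (Real.rpow_nonneg hm0 _))
  have hK := step_K 𝕜 r hr h2 hcon hγ
  set γ := Nn 𝕜 r 0 1 with hγdef
  set ρ := r.toReal with hρdef
  have hcont : ∀ u : ℝ, 0 ≤ u → Continuous (fun x : 𝕜 => ‖x‖ ^ 2 * (1 + u * ‖x‖ ^ 2) ^ (ρ / 2 - 1)) :=
    fun u hu => (continuous_norm.pow 2).mul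
      (Continuous.rpow_const (by fun_prop) fun x => Or.inl (by positivity))
  have hdom : ∀ u : ℝ, 0 ≤ u → u ≤ 1 → ∀ x : 𝕜,
      ‖‖x‖ ^ 2 * (1 + u * ‖x‖ ^ 2) ^ (ρ / 2 - 1)‖ ≤ (1 + ‖x‖) ^ ρ := by
    intro u hu hu1 x
    rw [Real.norm_eq_abs, abs_of_nonneg (by positivity)]
    have h3 : (1 + u * ‖x‖ ^ 2) ^ (ρ / 2 - 1) ≤ (1 + 1 * ‖x‖ ^ 2) ^ (ρ / 2 - 1) := by
      refine Real.rpow_le_rpow (by positivity) ?_ (by linarith)
      nlinarith [sq_nonneg ‖x‖]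
    have h4 : ‖x‖ ^ 2 * (1 + 1 * ‖x‖ ^ 2) ^ (ρ / 2 - 1) ≤ (1 + 1 * ‖x‖ ^ 2) ^ (ρ / 2) := by
      have h5 : (1 + 1 * ‖x‖ ^ 2) ^ (ρ / 2) =
          (1 + 1 * ‖x‖ ^ 2) * (1 + 1 * ‖x‖ ^ 2) ^ (ρ / 2 - 1) := by
        have h6 : (1 + 1 * ‖x‖ ^ 2) ≠ 0 := by positivity
        rw [Real.rpow_sub_one h6]
        field_simp
      rw [h5]
      refine mul_le_mul_of_nonneg_right (by linarith) (by positivity)
    exact (mul_le_mul_of_nonneg_left h3 (by positivity)).trans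
      (h4.trans (le_dom hρ0 zero_le_one le_rfl (norm_nonneg x)))
  have hint : ∀ u : ℝ, 0 ≤ u → u ≤ 1 →
      Integrable (fun x : 𝕜 => ‖x‖ ^ 2 * (1 + u * ‖x‖ ^ 2) ^ (ρ / 2 - 1)) (stdGaussian 𝕜) :=
    fun u hu hu1 => (integrable_dom 𝕜 r h0 hr).mono' (hcont u hu).aestronglyMeasurable
      (Eventually.of_forall (hdom u hu hu1))
  have hL : ∀ u : ℝ, 0 < u → u ≤ 1 →
      γ ^ 2 ≤ ∫ x, ‖x‖ ^ 2 * (1 + u * ‖x‖ ^ 2) ^ (ρ / 2 - 1) ∂(stdGaussian 𝕜) := by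
    intro u hu hu1
    have h3 := hK u hu.le hu1
    have h4 : 1 + ρ / 2 * (γ ^ 2 * u) ≤ (1 + γ ^ 2 * u) ^ (ρ / 2) :=
      one_add_mul_self_le_rpow_one_add (by nlinarith [mul_pos (pow_pos hγ 2) hu]) (by linarith)
    have h5 : ∫ x, (1 + u * ‖x‖ ^ 2) ^ (ρ / 2) ∂(stdGaussian 𝕜) ≤
        ∫ x, (1 + ρ / 2 * u * (‖x‖ ^ 2 * (1 + u * ‖x‖ ^ 2) ^ (ρ / 2 - 1))) ∂(stdGaussian 𝕜) := by
      refine integral_mono_of_nonneg (Eventually.of_forall fun x => by positivity)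
        ((integrable_const _).add ((hint u hu.le hu1).const_mul _))
        (Eventually.of_forall fun x => ?_)
      have h6 := bern (α := ρ / 2) (y := u * ‖x‖ ^ 2) (by linarith) (by positivity)
      refine h6.trans_eq ?_
      ring
    rw [integral_add (integrable_const _) ((hint u hu.le hu1).const_mul _), integral_const,
      integral_const_mul] at h5
    simp only [probReal_univ, smul_eq_mul, mul_one] at h5
    have h7 : ρ / 2 * (γ ^ 2 * u) ≤ ρ / 2 * u *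
        ∫ x, ‖x‖ ^ 2 * (1 + u * ‖x‖ ^ 2) ^ (ρ / 2 - 1) ∂(stdGaussian 𝕜) := by linarith
    have h8 : (ρ / 2 * u) * γ ^ 2 ≤ (ρ / 2 * u) *
        ∫ x, ‖x‖ ^ 2 * (1 + u * ‖x‖ ^ 2) ^ (ρ / 2 - 1) ∂(stdGaussian 𝕜) := by linarith
    exact le_of_mul_le_mul_left h8 (by positivity)
  have hlim : Tendsto (fun n : ℕ => ∫ x, ‖x‖ ^ 2 * (1 + (1 / ((n : ℝ) + 1)) * ‖x‖ ^ 2) ^ (ρ / 2 - 1)
      ∂(stdGaussian 𝕜)) atTop (𝓝 (∫ x, ‖x‖ ^ 2 ∂(stdGaussian 𝕜))) := by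
    refine tendsto_integral_of_dominated_convergence (fun x => (1 + ‖x‖) ^ ρ)
      (fun n => (hcont _ (by positivity)).aestronglyMeasurable) (integrable_dom 𝕜 r h0 hr)
      (fun n => Eventually.of_forall (hdom _ (by positivity) ?_))
      (Eventually.of_forall fun x => ?_)
    · rw [div_le_one (by positivity)]
      linarith [(Nat.cast_nonneg n : (0 : ℝ) ≤ n)]
    · have h9 : Tendsto (fun n : ℕ => (1 : ℝ) + (1 / ((n : ℝ) + 1)) * ‖x‖ ^ 2) atTop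
          (𝓝 (1 + 0 * ‖x‖ ^ 2)) :=
        (tendsto_one_div_add_atTop_nhds_zero_nat.mul_const _).const_add _
      have h10 := (h9.rpow_const (p := ρ / 2 - 1) (Or.inl (by norm_num))).const_mul (‖x‖ ^ 2)
      simpa using h10
  have hle : γ ^ 2 ≤ ∫ x, ‖x‖ ^ 2 ∂(stdGaussian 𝕜) := by
    refine ge_of_tendsto' hlim fun n => hL _ (by positivity) ?_
    rw [div_le_one (by positivity)]
    linarith [(Nat.cast_nonneg n : (0 : ℝ) ≤ n)]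
  have hfin : γ ^ ρ ≤ (∫ x, ‖x‖ ^ 2 ∂(stdGaussian 𝕜)) ^ (ρ / 2) := by
    have h11 : γ ^ ρ = (γ ^ 2) ^ (ρ / 2) := by
      rw [← Real.rpow_natCast, ← Real.rpow_mul hγ.le]
      congr 1
      push_cast
      ring
    rw [h11]
    exact Real.rpow_le_rpow (by positivity) hle (by linarith)
  linarith

end Pool.Agent.V1198.GL
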