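import Pool.Agent.V1198.GaussLp3

/-!
# The operators `V` and `U`
-/

set_option autoImplicit false

noncomputable section

open MeasureTheory ProbabilityTheory Filter Topology
open scoped ENNReal MeasureTheory

namespace Pool.Agent.V1198.GL

variable (𝕜 : Type) [RCLike 𝕜]

theorem gamma_pos (r : ℝ≥0∞) [Fact (1 ≤ r)] (hr : r ≠ ∞) : 0 < Nn 𝕜 r 0 1 := by
  have h0 : r ≠ 0 := (lt_of_lt_of_le one_pos (Fact.out : 1 ≤ r)).ne'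
  rcases (Nn_nonneg 𝕜 r 0 1).lt_or_eq with h | h
  · exact h
  · exfalso
    have hmem := memLp_aff 𝕜 r hr 0 ((1 : ℝ) : 𝕜)
    have h1 : eLpNorm (fun x : 𝕜 => (0 : 𝕜) + ((1 : ℝ) : 𝕜) * x) r (stdGaussian 𝕜) = 0 := by
      rcases (ENNReal.toReal_eq_zero_iff _).1 h.symm with h2 | h2
      · exact h2
      · exact absurd h2 hmem.2.ne
    rw [eLpNorm_eq_zero_iff hmem.1 h0] at h1
    refine not_const 𝕜 0 (h1.mono fun x hx => ?_)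
    have hx2 : (0 : 𝕜) + ((1 : ℝ) : 𝕜) * x = 0 := hx
    rw [RCLike.ofReal_one, one_mul, zero_add] at hx2
    rw [hx2]
    simp

theorem Nn_const (r : ℝ≥0∞) [Fact (1 ≤ r)] (s : 𝕜) : Nn 𝕜 r s 0 = ‖s‖ := by
  have h0 : r ≠ 0 := (lt_of_lt_of_le one_pos (Fact.out : 1 ≤ r)).ne'
  rw [Nn]
  have h1 : (fun x : 𝕜 => s + ((0 : ℝ) : 𝕜) * x) = fun _ => s := by
    funext x
    simp
  rw [h1, eLpNorm_const _ h0 (IsProbabilityMeasure.ne_zero _)]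
  simp

theorem sqrt_sum_le (d : ℕ → ℝ) (hd0 : ∀ n, 0 ≤ d n) (hd1 : ∀ n, d n ≤ 1) (b : H2 𝕜) :
    Real.sqrt (∑' n, (d n * ‖b n‖) ^ 2) ≤ ‖b‖ := by
  rw [Real.sqrt_le_left (norm_nonneg _), sq_norm]
  have hle : ∀ n, (d n * ‖b n‖) ^ 2 ≤ ‖b n‖ ^ 2 := fun n => by
    refine pow_le_pow_left₀ (mul_nonneg (hd0 n) (norm_nonneg _)) ?_ 2
    have := mul_le_mul_of_nonneg_right (hd1 n) (norm_nonneg (b n))
    linarith
  exact (Summable.of_nonneg_of_le (fun n => sq_nonneg _) hle (sq_summable 𝕜 b)).tsum_le_tsum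
    hle (sq_summable 𝕜 b)

/-- An isometric copy of `ℓ_2` in `L_r[0,1]`. -/
theorem exists_V (r : ℝ≥0∞) [Fact (1 ≤ r)] (hr : r ≠ ∞) :
    ∃ V : H2 𝕜 →L[𝕜] Lp 𝕜 r (volume : Measure unitInterval), ∀ b, ‖V b‖ = ‖b‖ := by
  obtain ⟨G, hG⟩ := exists_G 𝕜 r hr (fun _ => 1) (fun _ => zero_le_one) (fun _ => le_rfl)
  have hγ := gamma_pos 𝕜 r hr
  have h1 : ∀ b : H2 𝕜, ‖G b‖ = ‖b‖ * Nn 𝕜 r 0 1 := fun b => by
    have h := hG 0 b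
    rw [zero_smul, zero_add, Nn_zero 𝕜 r hr _ (Real.sqrt_nonneg _)] at h
    rw [h]
    congr 1
    simp only [one_mul]
    rw [← sq_norm, Real.sqrt_sq (norm_nonneg _)]
  have h2 : ∀ b : H2 𝕜, ‖((((Nn 𝕜 r 0 1)⁻¹ : ℝ) : 𝕜) • G) b‖ = ‖b‖ := fun b => by
    rw [LinearMap.smul_apply, norm_smul, RCLike.norm_ofReal, abs_of_pos (inv_pos.2 hγ), h1]
    field_simp
  exact ⟨LinearMap.mkContinuous ((((Nn 𝕜 r 0 1)⁻¹ : ℝ) : 𝕜) • G) 1 fun b => by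
    rw [h2, one_mul], fun b => h2 b⟩

/-- The multipliers `n / (n + 1)`. -/
def dd (n : ℕ) : ℝ := (n : ℝ) / ((n : ℝ) + 1)

theorem dd_zero : dd 0 = 0 := by simp [dd]

theorem dd_nonneg (n : ℕ) : 0 ≤ dd n := by unfold dd; positivity

theorem dd_lt_one (n : ℕ) : dd n < 1 := by
  unfold dd
  rw [div_lt_one (by positivity)]
  linarith

theorem dd_tendsto : Tendsto dd atTop (𝓝 1) := tendsto_natCast_div_add_atTop (1 : ℝ)

theorem norm_sq_pair (s : 𝕜) (t : ℝ) (n : ℕ) (hn : n ≠ 0) :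
    ‖(lp.single 2 0 s + lp.single 2 n ((t : ℝ) : 𝕜) : H2 𝕜)‖ ^ 2 = ‖s‖ ^ 2 + t ^ 2 := by
  rw [sq_norm, tsum_eq_sum (s := {0, n})]
  · rw [Finset.sum_pair hn.symm]
    rw [lp.coeFn_add, Pi.add_apply, Pi.add_apply, lp.single_apply_self, lp.single_apply_self,
      lp.single_apply_ne 2 n _ hn.symm, lp.single_apply_ne 2 0 _ hn, add_zero, zero_add,
      RCLike.norm_ofReal, sq_abs]
  · intro k hk
    simp only [Finset.mem_insert, Finset.mem_singleton, not_or] at hk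
    rw [lp.coeFn_add, Pi.add_apply, lp.single_apply_ne 2 0 _ hk.1, lp.single_apply_ne 2 n _ hk.2]
    simp

theorem rho_pair (s : 𝕜) (t : ℝ) (ht : 0 ≤ t) (n : ℕ) (hn : n ≠ 0) :
    Real.sqrt (∑' k, (dd k * ‖(lp.single 2 0 s + lp.single 2 n ((t : ℝ) : 𝕜) : H2 𝕜) k‖) ^ 2) =
      dd n * t := by
  rw [tsum_eq_single n]
  · rw [lp.coeFn_add, Pi.add_apply, lp.single_apply_self, lp.single_apply_ne 2 0 _ hn, zero_add,
      RCLike.norm_ofReal, abs_of_nonneg ht, Real.sqrt_sq (mul_nonneg (dd_nonneg n) ht)]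
  · intro k hk
    by_cases hk0 : k = 0
    · rw [hk0, dd_zero]
      simp
    · rw [lp.coeFn_add, Pi.add_apply, lp.single_apply_ne 2 0 _ hk0, lp.single_apply_ne 2 n _ hk]
      simp

theorem rho_lt (b : H2 𝕜) (k : ℕ) (hk : k ≠ 0) (hb : b k ≠ 0) :
    ‖b 0‖ ^ 2 + ∑' n, (dd n * ‖b n‖) ^ 2 < ‖b‖ ^ 2 := by
  have hle : ∀ n, (dd n * ‖b n‖) ^ 2 ≤ ‖b n‖ ^ 2 := fun n => by
    refine pow_le_pow_left₀ (mul_nonneg (dd_nonneg n) (norm_nonneg _)) ?_ 2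
    have := mul_le_mul_of_nonneg_right (dd_lt_one n).le (norm_nonneg (b n))
    linarith
  have hs1 : Summable (fun n => (dd n * ‖b n‖) ^ 2) :=
    Summable.of_nonneg_of_le (fun n => sq_nonneg _) hle (sq_summable 𝕜 b)
  have hs2 := (sq_summable 𝕜 b).sub hs1
  have h1 : ∑' n, (‖b n‖ ^ 2 - (dd n * ‖b n‖) ^ 2) = ‖b‖ ^ 2 - ∑' n, (dd n * ‖b n‖) ^ 2 := by
    rw [sq_norm, (sq_summable 𝕜 b).tsum_sub hs1]
  have h2 : ∑ n ∈ ({0, k} : Finset ℕ), (‖b n‖ ^ 2 - (dd n * ‖b n‖) ^ 2) ≤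
      ∑' n, (‖b n‖ ^ 2 - (dd n * ‖b n‖) ^ 2) :=
    hs2.sum_le_tsum _ fun n _ => sub_nonneg.2 (hle n)
  rw [Finset.sum_pair hk.symm, h1, dd_zero, zero_mul] at h2
  have h3 : 0 < ‖b k‖ := norm_pos_iff.2 hb
  have h4 : (dd k * ‖b k‖) ^ 2 < ‖b k‖ ^ 2 := by
    refine pow_lt_pow_left₀ ?_ (mul_nonneg (dd_nonneg k) (norm_nonneg _)) two_ne_zero
    have := mul_lt_mul_of_pos_right (dd_lt_one k) h3
    linarith
  have h5 : (0 : ℝ) ^ 2 = 0 := by norm_num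
  rw [h5] at h2
  linarith

/-- The operator that behaves like a non-contraction but does not attain its norm. -/
theorem exists_U (r : ℝ≥0∞) [Fact (1 ≤ r)] (hr : r ≠ ∞) (h2 : 2 < r) :
    ∃ (U : H2 𝕜 →L[𝕜] Lp 𝕜 r (volume : Measure unitInterval))
      (w : Lp 𝕜 r (volume : Measure unitInterval)), 1 < ‖U‖ ∧
      (∀ b, b ≠ 0 → ‖U b‖ < ‖U‖ * ‖b‖) ∧ ∀ b, ‖U b - b 0 • w‖ ≤ ‖b‖ := by
  obtain ⟨G, hG⟩ := exists_G 𝕜 r hr dd dd_nonneg (fun n => (dd_lt_one n).le)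
  have hγ := gamma_pos 𝕜 r hr
  obtain ⟨s0, c0, hc0, hgt⟩ := exists_gt 𝕜 r hr h2
  set γ := Nn 𝕜 r 0 1 with hγdef
  -- a slightly smaller multiple of the constant
  obtain ⟨β, hβ0, hβ1, hβ⟩ : ∃ β : ℝ, 0 < β ∧ β < 1 ∧
      Real.sqrt (‖s0‖ ^ 2 + (γ * c0) ^ 2) < Nn 𝕜 r ((β : 𝕜) * s0) c0 := by
    have hc1 : Continuous (fun β : ℝ => (((β : ℝ) : 𝕜) * s0, c0)) :=
      (RCLike.continuous_ofReal.mul continuous_const).prodMk continuous_const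
    have hc2 := (continuous_Nn 𝕜 r hr).comp hc1
    have hc3 : ∀ᶠ β in 𝓝 (1 : ℝ), Real.sqrt (‖s0‖ ^ 2 + (γ * c0) ^ 2) <
        Nn 𝕜 r (((β : ℝ) : 𝕜) * s0) c0 := by
      refine hc2.continuousAt.eventually_const_lt ?_
      simpa using hgt
    have hc4 : ∀ᶠ β in 𝓝[<] (1 : ℝ), Real.sqrt (‖s0‖ ^ 2 + (γ * c0) ^ 2) <
        Nn 𝕜 r (((β : ℝ) : 𝕜) * s0) c0 := hc3.filter_mono nhdsWithin_le_nhds
    have hc5 : ∀ᶠ β in 𝓝[<] (1 : ℝ), β ∈ Set.Ioo (0 : ℝ) 1 := Ioo_mem_nhdsLT one_pos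
    obtain ⟨β, h1, h2⟩ := (hc4.and hc5).exists
    exact ⟨β, h2.1, h2.2, h1⟩
  have hGn : ∀ b : H2 𝕜, ‖G b‖ = Real.sqrt (∑' n, (dd n * ‖b n‖) ^ 2) * γ := fun b => by
    have h := hG 0 b
    rw [zero_smul, zero_add, Nn_zero 𝕜 r hr _ (Real.sqrt_nonneg _)] at h
    exact h
  set w : Lp 𝕜 r (volume : Measure unitInterval) := ((β : ℝ) : 𝕜) • oneL 𝕜 r with hw
  set U0 : H2 𝕜 →ₗ[𝕜] Lp 𝕜 r (volume : Measure unitInterval) :=
    (lp.evalₗ (𝕜 := 𝕜) (fun _ : ℕ => 𝕜) 2 0).smulRight w + (((γ⁻¹ : ℝ) : 𝕜) • G) with hU0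
  have hU0a : ∀ b, U0 b = b 0 • w + ((γ⁻¹ : ℝ) : 𝕜) • G b := fun b => rfl
  have hGle : ∀ b : H2 𝕜, ‖((γ⁻¹ : ℝ) : 𝕜) • G b‖ ≤ ‖b‖ := fun b => by
    rw [norm_smul, RCLike.norm_ofReal, abs_of_pos (inv_pos.2 hγ), hGn]
    have h := sqrt_sum_le 𝕜 dd dd_nonneg (fun n => (dd_lt_one n).le) b
    calc γ⁻¹ * (Real.sqrt (∑' n, (dd n * ‖b n‖) ^ 2) * γ)
        = Real.sqrt (∑' n, (dd n * ‖b n‖) ^ 2) := by field_simp
      _ ≤ ‖b‖ := h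
  have hU0n : ∀ b : H2 𝕜, ‖U0 b‖ =
      Nn 𝕜 r (((β : ℝ) : 𝕜) * b 0) (γ⁻¹ * Real.sqrt (∑' n, (dd n * ‖b n‖) ^ 2)) := fun b => by
    have h1 : U0 b = (((β : ℝ) : 𝕜) * b 0) • oneL 𝕜 r + G (((γ⁻¹ : ℝ) : 𝕜) • b) := by
      rw [hU0a, hw, smul_smul, mul_comm, map_smul]
    rw [h1, hG]
    congr 1
    have h3 : ∀ n, (dd n * ‖(((γ⁻¹ : ℝ) : 𝕜) • b) n‖) ^ 2 = (γ⁻¹) ^ 2 * (dd n * ‖b n‖) ^ 2 := by
      intro n
      rw [lp.coeFn_smul, Pi.smul_apply, norm_smul, RCLike.norm_ofReal,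
        abs_of_pos (inv_pos.2 hγ)]
      ring
    simp only [h3]
    rw [tsum_mul_left, Real.sqrt_mul (sq_nonneg _), Real.sqrt_sq (inv_pos.2 hγ).le]
  let U : H2 𝕜 →L[𝕜] Lp 𝕜 r (volume : Measure unitInterval) :=
    U0.mkContinuous (‖w‖ + 1) fun b => by
      rw [hU0a]
      refine (norm_add_le _ _).trans ?_
      have h1 : ‖b 0 • w‖ ≤ ‖w‖ * ‖b‖ := by
        rw [norm_smul, mul_comm]
        exact mul_le_mul_of_nonneg_left (lp.norm_apply_le_norm two_ne_zero b 0) (norm_nonneg _)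
      have h2 := hGle b
      linarith
  have hUU : ∀ b, U b = U0 b := fun b => rfl
  have hUn : ∀ b : H2 𝕜, ‖U b‖ =
      Nn 𝕜 r (((β : ℝ) : 𝕜) * b 0) (γ⁻¹ * Real.sqrt (∑' n, (dd n * ‖b n‖) ^ 2)) := hU0n
  -- the limiting inequality
  have hPsi : ∀ (s : 𝕜) (t : ℝ), 0 ≤ t →
      Nn 𝕜 r (((β : ℝ) : 𝕜) * s) (γ⁻¹ * t) ≤ ‖U‖ * Real.sqrt (‖s‖ ^ 2 + t ^ 2) := by
    intro s t ht
    have h1 : ∀ n : ℕ, n ≠ 0 → Nn 𝕜 r (((β : ℝ) : 𝕜) * s) (γ⁻¹ * (dd n * t)) ≤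
        ‖U‖ * Real.sqrt (‖s‖ ^ 2 + t ^ 2) := by
      intro n hn
      have h3 := U.le_opNorm (lp.single 2 0 s + lp.single 2 n ((t : ℝ) : 𝕜) : H2 𝕜)
      have h4 : ‖(lp.single 2 0 s + lp.single 2 n ((t : ℝ) : 𝕜) : H2 𝕜)‖ =
          Real.sqrt (‖s‖ ^ 2 + t ^ 2) := by
        rw [← norm_sq_pair 𝕜 s t n hn, Real.sqrt_sq (norm_nonneg _)]
      rw [hUn, rho_pair 𝕜 s t ht n hn, h4] at h3
      have h5 : (lp.single 2 0 s + lp.single 2 n ((t : ℝ) : 𝕜) : H2 𝕜) 0 = s := by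
        rw [lp.coeFn_add, Pi.add_apply, lp.single_apply_self, lp.single_apply_ne 2 n _ hn.symm,
          add_zero]
      rw [h5] at h3
      exact h3
    have hc1 : Continuous (fun c : ℝ => (((β : ℝ) : 𝕜) * s, γ⁻¹ * (c * t))) :=
      continuous_const.prodMk (continuous_const.mul (continuous_id.mul continuous_const))
    have hc2 := (continuous_Nn 𝕜 r hr).comp hc1
    have hc3 := (hc2.tendsto 1).comp dd_tendsto
    have hc4 : Nn 𝕜 r (((β : ℝ) : 𝕜) * s) (γ⁻¹ * (1 * t)) ≤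
        ‖U‖ * Real.sqrt (‖s‖ ^ 2 + t ^ 2) := by
      refine le_of_tendsto hc3 ?_
      filter_upwards [eventually_ne_atTop 0] with n hn
      exact h1 n hn
    rwa [one_mul] at hc4
  have hlam : 1 < ‖U‖ := by
    by_contra hle
    have hle' : ‖U‖ ≤ 1 := not_lt.1 hle
    have h1 := hPsi s0 (γ * c0) (by positivity)
    have h3 : γ⁻¹ * (γ * c0) = c0 := by field_simp
    rw [h3] at h1
    have h4 : ‖U‖ * Real.sqrt (‖s0‖ ^ 2 + (γ * c0) ^ 2) ≤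
        1 * Real.sqrt (‖s0‖ ^ 2 + (γ * c0) ^ 2) :=
      mul_le_mul_of_nonneg_right hle' (Real.sqrt_nonneg _)
    linarith
  refine ⟨U, w, hlam, fun b hb => ?_, fun b => ?_⟩
  · by_cases hk : ∃ k, k ≠ 0 ∧ b k ≠ 0
    · obtain ⟨k, hk0, hbk⟩ := hk
      have h1 := hPsi (b 0) (Real.sqrt (∑' n, (dd n * ‖b n‖) ^ 2)) (Real.sqrt_nonneg _)
      rw [← hUn, Real.sq_sqrt (tsum_nonneg fun n => sq_nonneg _)] at h1
      refine h1.trans_lt ?_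
      refine mul_lt_mul_of_pos_left ?_ (one_pos.trans hlam)
      rw [Real.sqrt_lt' (norm_pos_iff.2 hb)]
      exact rho_lt 𝕜 b k hk0 hbk
    · have hk' : ∀ k, k ≠ 0 → b k = 0 := fun k hk0 => by
        by_contra hbk
        exact hk ⟨k, hk0, hbk⟩
      have h1 : ∀ n, (dd n * ‖b n‖) ^ 2 = 0 := fun n => by
        by_cases hn : n = 0
        · rw [hn, dd_zero]; simp
        · rw [hk' n hn]; simp
      have h3 := hUn b
      simp only [h1, tsum_zero, Real.sqrt_zero, mul_zero] at h3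
      rw [Nn_const, norm_mul, RCLike.norm_ofReal, abs_of_pos hβ0] at h3
      have h4 : ‖b 0‖ ≤ ‖b‖ := lp.norm_apply_le_norm two_ne_zero b 0
      have h5 : 0 < ‖b‖ := norm_pos_iff.2 hb
      rw [h3]
      nlinarith [norm_nonneg (b 0)]
  · rw [hUU, hU0a, add_sub_cancel_left]
    exact hGle b

end Pool.Agent.V1198.GL
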