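import Pool.Agent.V1198.GaussLp4

/-!
# Duality and the weak maximizing property
-/

set_option autoImplicit false

noncomputable section

open MeasureTheory ProbabilityTheory Filter Topology
open scoped ENNReal MeasureTheory

namespace Pool.Agent.V1198.GL

variable (𝕜 : Type) [RCLike 𝕜]

/-- The pairing between `L_p` and its conjugate. -/
theorem exists_pairing {α : Type} [MeasurableSpace α] (μ : Measure α) (p q : ℝ≥0∞)
    [hpq : ENNReal.HolderConjugate p q] [Fact (1 ≤ p)] [Fact (1 ≤ q)] (hp : p ≠ ∞) (hq : q ≠ ∞) :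
    ∃ P : Lp 𝕜 p μ →L[𝕜] Lp 𝕜 q μ →L[𝕜] 𝕜, (∀ x y, ‖P x y‖ ≤ ‖x‖ * ‖y‖) ∧
      ∀ y, ∃ x, ‖x‖ ≤ 1 ∧ P x y = ((‖y‖ : ℝ) : 𝕜) := by
  have hq0 : q ≠ 0 := (lt_of_lt_of_le one_pos (Fact.out : 1 ≤ q)).ne'
  have hp0 : p ≠ 0 := (lt_of_lt_of_le one_pos (Fact.out : 1 ≤ p)).ne'
  refine ⟨(ContinuousLinearMap.mul 𝕜 𝕜).lpPairing μ p q, fun x y => ?_, fun y => ?_⟩
  · rw [ContinuousLinearMap.lpPairing_eq_integral]
    have h1 : ∫ t, (ContinuousLinearMap.mul 𝕜 𝕜) (x t) (y t) ∂μ =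
        ∫ t, ((ContinuousLinearMap.mul 𝕜 𝕜).holder 1 x y : Lp 𝕜 1 μ) t ∂μ :=
      integral_congr_ae ((ContinuousLinearMap.mul 𝕜 𝕜).coeFn_holder x y).symm
    rw [h1, ← L1.integral_eq_integral]
    refine (L1.norm_integral_le _).trans ?_
    refine ((ContinuousLinearMap.mul 𝕜 𝕜).norm_holder_apply_apply_le x y).trans ?_
    have h2 := ContinuousLinearMap.opNorm_mul_le 𝕜 𝕜
    have h3 : 0 ≤ ‖x‖ * ‖y‖ := by positivity
    calc ‖ContinuousLinearMap.mul 𝕜 𝕜‖ * ‖x‖ * ‖y‖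
        = ‖ContinuousLinearMap.mul 𝕜 𝕜‖ * (‖x‖ * ‖y‖) := by ring
      _ ≤ 1 * (‖x‖ * ‖y‖) := mul_le_mul_of_nonneg_right h2 h3
      _ = ‖x‖ * ‖y‖ := one_mul _
  · by_cases hy : y = 0
    · refine ⟨0, by simp, ?_⟩
      rw [hy]
      simp
    · have hy0 : 0 < ‖y‖ := norm_pos_iff.2 hy
      set ρ := q.toReal with hρ
      have hq1 : 1 < q := (ENNReal.HolderConjugate.lt_top_iff_one_lt p q).1 (lt_top_iff_ne_top.2 hp)
      have hρ1 : 1 < ρ := by
        have := (ENNReal.toReal_lt_toReal (by norm_num) hq).2 hq1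
        simpa using this
      -- the norming function
      set F : α → 𝕜 := fun t => (starRingEnd 𝕜) (y t) * (((‖y t‖ ^ (ρ - 2) : ℝ)) : 𝕜) with hF
      have hFn : ∀ t, ‖F t‖ = ‖y t‖ ^ (ρ - 1) := by
        intro t
        rw [hF]
        simp only [norm_mul, RCLike.norm_conj, RCLike.norm_ofReal]
        rw [abs_of_nonneg (Real.rpow_nonneg (norm_nonneg _) _)]
        by_cases ht : ‖y t‖ = 0
        · rw [ht, Real.zero_rpow (by linarith : ρ - 1 ≠ 0), zero_mul]
        · have : 0 < ‖y t‖ := lt_of_le_of_ne (norm_nonneg _) (Ne.symm ht)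
          rw [show ρ - 1 = 1 + (ρ - 2) by ring, Real.rpow_add this, Real.rpow_one]
      have hFy : ∀ t, F t * y t = ((‖y t‖ ^ ρ : ℝ) : 𝕜) := by
        intro t
        by_cases ht : y t = 0
        · rw [ht, mul_zero, norm_zero, Real.zero_rpow (by linarith : ρ ≠ 0), RCLike.ofReal_zero]
        · have h0 : 0 < ‖y t‖ := norm_pos_iff.2 ht
          rw [hF]
          simp only
          rw [mul_right_comm, RCLike.conj_mul, ← RCLike.ofReal_pow, ← RCLike.ofReal_mul]
          congr 1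
          rw [← Real.rpow_natCast, ← Real.rpow_add h0]
          congr 1
          push_cast
          ring
      have hym : Measurable (fun t => y t) := (Lp.stronglyMeasurable y).measurable
      have hFm : Measurable F :=
        (RCLike.continuous_conj.measurable.comp hym).mul
          (RCLike.continuous_ofReal.measurable.comp (hym.norm.pow_const (ρ - 2)))
      have hexp : p * ENNReal.ofReal (ρ - 1) = q := by
        have h1 : ENNReal.ofReal (ρ - 1) = q - 1 := by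
          rw [ENNReal.ofReal_sub _ zero_le_one, hρ, ENNReal.ofReal_toReal hq, ENNReal.ofReal_one]
        rw [h1, ENNReal.mul_sub (fun _ _ => hp), mul_one,
          ENNReal.HolderConjugate.mul_eq_add (p := p) (q := q)]
        exact ENNReal.add_sub_cancel_left hp
      have hFe : eLpNorm F p μ = eLpNorm y q μ ^ (ρ - 1) := by
        have h1 : eLpNorm F p μ = eLpNorm (fun t => ‖y t‖ ^ (ρ - 1)) p μ := by
          refine eLpNorm_congr_norm_ae (Eventually.of_forall fun t => ?_)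
          rw [hFn, Real.norm_eq_abs, abs_of_nonneg (Real.rpow_nonneg (norm_nonneg _) _)]
        rw [h1, eLpNorm_norm_rpow _ (by linarith), hexp]
      have hFmem : MemLp F p μ := by
        refine ⟨hFm.aestronglyMeasurable, ?_⟩
        rw [hFe]
        exact ENNReal.rpow_lt_top_of_nonneg (by linarith) (Lp.eLpNorm_ne_top y)
      have hFnorm : ‖hFmem.toLp F‖ = ‖y‖ ^ (ρ - 1) := by
        rw [Lp.norm_toLp, hFe, Lp.norm_def, ENNReal.toReal_rpow]
      have hyint : ∫ t, ‖y t‖ ^ ρ ∂μ = ‖y‖ ^ ρ := by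
        have h1 : 0 ≤ ∫ t, ‖y t‖ ^ ρ ∂μ :=
          integral_nonneg fun t => Real.rpow_nonneg (norm_nonneg _) _
        rw [Lp.norm_def, (Lp.memLp y).eLpNorm_eq_integral_rpow_norm hq0 hq, ← hρ,
          ENNReal.toReal_ofReal (Real.rpow_nonneg h1 _), ← Real.rpow_mul h1,
          inv_mul_cancel₀ (by linarith : ρ ≠ 0), Real.rpow_one]
      have hPF : (ContinuousLinearMap.mul 𝕜 𝕜).lpPairing μ p q (hFmem.toLp F) y =
          ((‖y‖ ^ ρ : ℝ) : 𝕜) := by
        rw [ContinuousLinearMap.lpPairing_eq_integral]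
        have h1 : ∫ t, (ContinuousLinearMap.mul 𝕜 𝕜) (hFmem.toLp F t) (y t) ∂μ =
            ∫ t, ((‖y t‖ ^ ρ : ℝ) : 𝕜) ∂μ := by
          refine integral_congr_ae ?_
          filter_upwards [hFmem.coeFn_toLp] with t ht
          rw [ht, ContinuousLinearMap.mul_apply', hFy]
        rw [h1, integral_ofReal, hyint]
      have hpos : 0 < ‖y‖ ^ (ρ - 1) := Real.rpow_pos_of_pos hy0 _
      refine ⟨((((‖y‖ ^ (ρ - 1))⁻¹ : ℝ)) : 𝕜) • hFmem.toLp F, ?_, ?_⟩
      · rw [norm_smul, RCLike.norm_ofReal, abs_of_pos (inv_pos.2 hpos), hFnorm,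
          inv_mul_cancel₀ hpos.ne']
      · rw [map_smul, _root_.smul_apply, hPF, smul_eq_mul, ← RCLike.ofReal_mul]
        congr 1
        rw [show ρ = 1 + (ρ - 1) by ring, Real.rpow_add hy0, Real.rpow_one]
        field_simp
        ring_nf

/-- The transpose of `S : ℓ_2 → Z` with respect to a pairing of `X` and `Z`. -/
theorem exists_adj {X Z : Type} [NormedAddCommGroup X] [NormedSpace 𝕜 X]
    [NormedAddCommGroup Z] [NormedSpace 𝕜 Z] (P : X →L[𝕜] Z →L[𝕜] 𝕜)
    (hP : ∀ x z, ‖P x z‖ ≤ ‖x‖ * ‖z‖) (S : H2 𝕜 →L[𝕜] Z) :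
    ∃ A : X →L[𝕜] H2 𝕜, ∀ x b, inner 𝕜 (star (A x)) b = P x (S b) := by
  let L : X →ₗ[𝕜] H2 𝕜 :=
    { toFun := fun x => star ((InnerProductSpace.toDual 𝕜 (H2 𝕜)).symm ((P x).comp S))
      map_add' := fun x y => by
        rw [map_add, ContinuousLinearMap.add_comp, map_add, star_add]
      map_smul' := fun c x => by
        rw [map_smul, ContinuousLinearMap.smul_comp, map_smulₛₗ, star_smul, RingHom.id_apply]
        congr 1
        exact RCLike.conj_conj c }
  have hL : ∀ x b, inner 𝕜 (star (L x)) b = P x (S b) := by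
    intro x b
    change inner 𝕜 (star (star ((InnerProductSpace.toDual 𝕜 (H2 𝕜)).symm ((P x).comp S)))) b = _
    rw [star_star, InnerProductSpace.toDual_symm_apply]
    rfl
  refine ⟨L.mkContinuous ‖S‖ fun x => ?_, fun x b => hL x b⟩
  change ‖star ((InnerProductSpace.toDual 𝕜 (H2 𝕜)).symm ((P x).comp S))‖ ≤ _
  rw [norm_star, LinearIsometryEquiv.norm_map]
  refine ContinuousLinearMap.opNorm_le_bound _ (by positivity) fun b => ?_
  calc ‖P x (S b)‖ ≤ ‖x‖ * ‖S b‖ := hP x (S b)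
    _ ≤ ‖x‖ * (‖S‖ * ‖b‖) := mul_le_mul_of_nonneg_left (S.le_opNorm b) (norm_nonneg _)
    _ = ‖S‖ * ‖x‖ * ‖b‖ := by ring

end Pool.Agent.V1198.GL
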