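import Pool.Agent.V1198.SickSt

/-!
# `G_δ`-point measures on sick compacta are analytic
-/

set_option autoImplicit false
set_option linter.unusedSectionVars false

noncomputable section

open Filter Topology MeasureTheory
open scoped BoundedContinuousFunction CompactlySupported

namespace Pool.Agent.V1198.SK

open Pool.Agent.V1198.BL

/-- The space of regular Borel probability measures on `K` with the weak* topology. -/
abbrev PK (K : Type) [TopologicalSpace K] [MeasurableSpace K] [BorelSpace K] : Type :=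
  {ν : ProbabilityMeasure K // (ν : Measure K).Regular}

section meas

variable {K : Type} [TopologicalSpace K] [CompactSpace K] [T2Space K] [MeasurableSpace K]
  [BorelSpace K]

theorem cint (μ : Measure K) [IsFiniteMeasure μ] (f : C(K, ℝ)) : Integrable f μ :=
  (BoundedContinuousFunction.mkOfCompact f).integrable μ

/-- Integration as a linear functional. -/
def II (μ : Measure K) [IsFiniteMeasure μ] : C(K, ℝ) →ₗ[ℝ] ℝ where
  toFun := fun f => ∫ x, f x ∂μ
  map_add' f g := integral_add (cint μ f) (cint μ g)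
  map_smul' c f := integral_const_mul c _

theorem II_nonneg (μ : Measure K) [IsFiniteMeasure μ] {f : C(K, ℝ)} (hf : 0 ≤ f) : 0 ≤ II μ f :=
  integral_nonneg fun x => hf x

theorem II_mono (μ : Measure K) [IsFiniteMeasure μ] {f g : C(K, ℝ)} (h : f ≤ g) :
    II μ f ≤ II μ g := by
  have := II_nonneg μ (sub_nonneg.2 h)
  rw [map_sub] at this
  linarith

theorem II_one (μ : Measure K) [IsProbabilityMeasure μ] : II μ 1 = 1 := by
  show ∫ x, (1 : C(K, ℝ)) x ∂μ = 1
  simp

theorem exists_measure (Λ : C(K, ℝ) →ₗ[ℝ] ℝ) (hΛ : ∀ f, 0 ≤ f → 0 ≤ Λ f) (h1 : Λ 1 = 1) :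
    ∃ ν : PK K, ∀ f : C(K, ℝ), II (ν.1 : Measure K) f = Λ f := by
  let Λ0 : C_c(K, ℝ) →ₗ[ℝ] ℝ :=
    { toFun := fun g => Λ g.toContinuousMap
      map_add' := fun f g => Λ.map_add f.toContinuousMap g.toContinuousMap
      map_smul' := fun c f => Λ.map_smul c f.toContinuousMap }
  let Λ1 : C_c(K, ℝ) →ₚ[ℝ] ℝ := PositiveLinearMap.mk₀ Λ0 (fun g hg => hΛ _ (fun x => hg x))
  have key : ∀ f : C(K, ℝ), ∫ x, f x ∂(RealRMK.rieszMeasure Λ1) = Λ f := fun f =>
    RealRMK.integral_rieszMeasure Λ1 ⟨f, HasCompactSupport.of_compactSpace f⟩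
  have hp : IsProbabilityMeasure (RealRMK.rieszMeasure Λ1) := by
    have h2 := key 1
    rw [h1] at h2
    simp only [ContinuousMap.one_apply, integral_const, smul_eq_mul, mul_one] at h2
    constructor
    rw [measureReal_def] at h2
    rw [← ENNReal.ofReal_toReal (measure_ne_top (RealRMK.rieszMeasure Λ1) Set.univ), h2]
    simp
  exact ⟨⟨⟨RealRMK.rieszMeasure Λ1, hp⟩, RealRMK.regular_rieszMeasure Λ1⟩, key⟩

/-- A `G_δ` point is countably determined. -/
theorem exists_countable_det {μ : PK K} (h : IsGδ ({μ} : Set (PK K))) :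
    ∃ D : Set C(K, ℝ), D.Countable ∧ ∀ ν : PK K,
      (∀ f ∈ D, II (ν.1 : Measure K) f = II (μ.1 : Measure K) f) → ν = μ := by
  obtain ⟨U, hU, hUe⟩ := isGδ_iff_eq_iInter_nat.1 h
  let ι : PK K → (C(K, ℝ) → ℝ) := fun ν f => II (ν.1 : Measure K) f
  have hle : comap ι (𝓝 (ι μ)) ≤ 𝓝 μ := by
    have h1 : Tendsto (fun ν : PK K => ν) (comap ι (𝓝 (ι μ))) (𝓝 μ) := by
      rw [tendsto_subtype_rng, ProbabilityMeasure.tendsto_iff_forall_integral_tendsto]
      intro f
      have h2 : Tendsto ι (comap ι (𝓝 (ι μ))) (𝓝 (ι μ)) := tendsto_comap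
      exact (tendsto_pi_nhds.1 h2) f.toContinuousMap
    exact h1
  have h1 : ∀ n, ∃ I : Finset C(K, ℝ), ∀ ν : PK K,
      (∀ f ∈ I, II (ν.1 : Measure K) f = II (μ.1 : Measure K) f) → ν ∈ U n := by
    intro n
    have hμ : μ ∈ U n := by
      have : μ ∈ ⋂ n, U n := hUe ▸ Set.mem_singleton μ
      exact Set.mem_iInter.1 this n
    obtain ⟨V, hV, hVU⟩ := hle ((hU n).mem_nhds hμ)
    obtain ⟨V', hV'V, hV', hμV'⟩ := mem_nhds_iff.1 hV
    obtain ⟨I, u, hIu, hs⟩ := isOpen_pi_iff.1 hV' _ hμV'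
    refine ⟨I, fun ν hν => hVU (hV'V (hs ?_))⟩
    intro f hf
    show II (ν.1 : Measure K) f ∈ u f
    rw [hν f hf]
    exact (hIu f hf).2
  choose I hI using h1
  refine ⟨⋃ n, (I n : Set C(K, ℝ)), Set.countable_iUnion fun n => (I n).countable_toSet,
    fun ν hν => ?_⟩
  have : ν ∈ ⋂ n, U n := Set.mem_iInter.2 fun n => hI n ν fun f hf =>
    hν f (Set.mem_iUnion.2 ⟨n, hf⟩)
  rw [← hUe] at this
  exact this

theorem exists_upper {μ : PK K} {D : Set C(K, ℝ)} (hD : ∀ ν : PK K,
      (∀ f ∈ D, II (ν.1 : Measure K) f = II (μ.1 : Measure K) f) → ν = μ) (g : C(K, ℝ)) {ε : ℝ}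
    (hε : 0 < ε) : ∃ h ∈ Submodule.span ℝ (insert 1 D), g ≤ h ∧
      II (μ.1 : Measure K) h < II (μ.1 : Measure K) g + ε := by
  by_contra hcon
  push Not at hcon
  set V := Submodule.span ℝ (insert 1 D) with hV
  set J := II (μ.1 : Measure K) with hJ
  have h1V : (1 : C(K, ℝ)) ∈ V := Submodule.subset_span (Set.mem_insert _ _)
  have hgV : g ∉ V := fun hg => by
    have := hcon g hg le_rfl
    linarith
  let f : C(K, ℝ) →ₗ.[ℝ] ℝ := ⟨V, J.domRestrict V⟩
  let F := f.supSpanSingleton g (J g + ε) hgV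
  have hpos : ∀ x : F.domain, (x : C(K, ℝ)) ∈ PointedCone.positive ℝ C(K, ℝ) → 0 ≤ F x := by
    rintro ⟨x, hx⟩ hx0
    obtain ⟨v, hv, w, hw, rfl⟩ := Submodule.mem_sup.1 hx
    obtain ⟨c, rfl⟩ := Submodule.mem_span_singleton.1 hw
    have hx0' : (0 : C(K, ℝ)) ≤ v + c • g := hx0
    have h2 : F ⟨v + c • g, hx⟩ = J v + c * (J g + ε) :=
      LinearPMap.supSpanSingleton_apply_mk f g (J g + ε) hgV v hv c
    rw [h2]
    have h3 : 0 ≤ J v + c * J g := by
      have := II_nonneg (μ.1 : Measure K) hx0'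
      rw [map_add, map_smul, smul_eq_mul] at this
      exact this
    rcases le_or_gt 0 c with hc | hc
    · have := mul_nonneg hc hε.le
      linarith
    · have hc' : 0 < -c := by linarith
      have h4 : g ≤ (-c)⁻¹ • v := by
        intro t
        have h5 : 0 ≤ v t + c * g t := hx0' t
        show g t ≤ (-c)⁻¹ * v t
        rw [inv_mul_eq_div, le_div_iff₀ hc']
        linarith
      have h5 := hcon _ (V.smul_mem _ hv) h4
      rw [map_smul, smul_eq_mul, inv_mul_eq_div, le_div_iff₀ hc'] at h5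
      linarith
  have hdense : ∀ y, ∃ x : F.domain, (x : C(K, ℝ)) + y ∈ PointedCone.positive ℝ C(K, ℝ) := by
    intro y
    refine ⟨⟨‖y‖ • (1 : C(K, ℝ)), Submodule.mem_sup_left (V.smul_mem _ h1V)⟩, ?_⟩
    show (0 : C(K, ℝ)) ≤ ‖y‖ • (1 : C(K, ℝ)) + y
    intro t
    have := (abs_le.1 (y.norm_coe_le_norm t)).1
    show 0 ≤ ‖y‖ * 1 + y t
    linarith
  obtain ⟨Λ, hΛ1, hΛ2⟩ := riesz_extension (PointedCone.positive ℝ C(K, ℝ)) F hpos hdense
  have hΛV : ∀ v ∈ V, Λ v = J v := by
    intro v hv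
    have h2 := hΛ1 ⟨v, Submodule.mem_sup_left hv⟩
    rw [LinearPMap.supSpanSingleton_apply_mk_of_mem f (J g + ε) hgV hv] at h2
    exact h2
  have hΛg : Λ g = J g + ε := by
    have h2 := hΛ1 ⟨g, Submodule.mem_sup_right (Submodule.mem_span_singleton_self _)⟩
    rw [LinearPMap.supSpanSingleton_apply_self f (J g + ε) hgV] at h2
    exact h2
  obtain ⟨ν, hν⟩ := exists_measure Λ (fun f hf => hΛ2 f hf) (by
    rw [hΛV 1 h1V]
    exact II_one _)
  have h3 : ν = μ := hD ν fun f hf => by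
    rw [hν]
    exact hΛV f (Submodule.subset_span (Set.mem_insert_of_mem _ hf))
  have h4 := hν g
  rw [h3, hΛg] at h4
  have : J g = J g + ε := h4
  linarith

theorem isSeparable_span {D : Set C(K, ℝ)} (hD : D.Countable) :
    TopologicalSpace.IsSeparable (Submodule.span ℝ D : Set C(K, ℝ)) := by
  exact hD.isSeparable.span

theorem exists_upper_countable {μ : PK K} (h : IsGδ ({μ} : Set (PK K))) :
    ∃ D : Set C(K, ℝ), D.Countable ∧ ∀ (g : C(K, ℝ)) (ε : ℝ), 0 < ε → ∃ h ∈ D, g ≤ h ∧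
      II (μ.1 : Measure K) h < II (μ.1 : Measure K) g + ε := by
  obtain ⟨D, hDc, hD⟩ := exists_countable_det h
  have hsep := isSeparable_span (hDc.insert (1 : C(K, ℝ)))
  obtain ⟨t, htV, htc, htd⟩ := hsep.exists_countable_dense_subset
  refine ⟨t, htc, fun g ε hε => ?_⟩
  obtain ⟨h, hhV, hgh, hh⟩ := exists_upper hD g (show 0 < ε / 4 by positivity)
  have h1 : h + (ε / 4) • (1 : C(K, ℝ)) ∈ Submodule.span ℝ (insert 1 D) :=
    Submodule.add_mem _ hhV (Submodule.smul_mem _ _ (Submodule.subset_span (Set.mem_insert _ _)))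
  obtain ⟨d, hdt, hd⟩ := Metric.mem_closure_iff.1 (htd h1) (ε / 4) (by positivity)
  rw [dist_eq_norm] at hd
  have h2 : ∀ x, |h x + ε / 4 - d x| ≤ ε / 4 := by
    intro x
    have h3 := (h + (ε / 4) • (1 : C(K, ℝ)) - d).norm_coe_le_norm x
    simp only [ContinuousMap.add_apply, ContinuousMap.smul_apply, ContinuousMap.one_apply,
      smul_eq_mul, mul_one, ContinuousMap.sub_apply, Real.norm_eq_abs] at h3
    exact h3.trans hd.le
  refine ⟨d, hdt, fun x => ?_, ?_⟩
  · have h3 := (abs_le.1 (h2 x)).2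
    have h4 : g x ≤ h x := hgh x
    show g x ≤ d x
    linarith
  · have h3 : d ≤ h + (ε / 2) • (1 : C(K, ℝ)) := by
      intro x
      have h3 := (abs_le.1 (h2 x)).1
      show d x ≤ h x + ε / 2 * 1
      linarith
    have h4 := II_mono (μ.1 : Measure K) h3
    rw [map_add, map_smul, II_one, smul_eq_mul] at h4
    linarith

theorem dist_toLp (μ : Measure K) [IsFiniteMeasure μ] (f g : C(K, ℝ)) :
    dist (ContinuousMap.toLp (E := ℝ) 1 μ ℝ f) (ContinuousMap.toLp (E := ℝ) 1 μ ℝ g) =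
      II μ |f - g| := by
  rw [dist_eq_norm, ← map_sub, L1.norm_eq_integral_norm]
  show _ = ∫ x, |f - g| x ∂μ
  refine integral_congr_ae ?_
  filter_upwards [ContinuousMap.coeFn_toLp (E := ℝ) (p := 1) (𝕜 := ℝ) μ (f - g)] with x hx
  rw [hx]
  rfl

/-- A measure is analytic if `L₁(μ)` is separable and the image of `C(K)` in it is analytic. -/
def IsAnalyticMeasure (μ : Measure K) [IsFiniteMeasure μ] : Prop :=
  TopologicalSpace.SeparableSpace (Lp ℝ 1 μ) ∧
    AnalyticSet (Set.range (ContinuousMap.toLp (E := ℝ) 1 μ ℝ))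

theorem analytic_of_gdelta (hK : Sick1 K) {μ : PK K} (h : IsGδ ({μ} : Set (PK K))) :
    IsAnalyticMeasure (μ.1 : Measure K) := by
  obtain ⟨E, u, T, hsep, hu, hinj, hT, rfl, hr⟩ := hK
  obtain ⟨D, hDc, hD⟩ := exists_upper_countable h
  have hreg : (μ.1 : Measure K).Regular := μ.2
  set m := (μ.1 : Measure K) with hm
  set i := ContinuousMap.toLp (E := ℝ) 1 m ℝ with hi
  have hdense : Dense (i '' D) := by
    intro F
    rw [Metric.mem_closure_iff]
    intro ε hε
    obtain ⟨g, hg⟩ := (ContinuousMap.toLp_denseRange ℝ m ℝ (p := 1) (by simp)).exists_dist_lt F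
      (show 0 < ε / 2 by positivity)
    obtain ⟨h, hhD, hgh, hh⟩ := hD g (ε / 2) (by positivity)
    refine ⟨i h, ⟨h, hhD, rfl⟩, ?_⟩
    have h1 : dist (i g) (i h) < ε / 2 := by
      rw [dist_comm, hi, dist_toLp, abs_of_nonneg (sub_nonneg.2 hgh), map_sub]
      linarith
    calc dist F (i h) ≤ dist F (i g) + dist (i g) (i h) := dist_triangle _ _ _
      _ < ε := by linarith
  have hsepL : TopologicalSpace.SeparableSpace (Lp ℝ 1 m) := ⟨⟨i '' D, hDc.image _, hdense⟩⟩
  refine ⟨hsepL, ?_⟩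
  have : SecondCountableTopology (Lp ℝ 1 m) := UniformSpace.secondCountable_of_separable _
  have : SecondCountableTopology E := UniformSpace.secondCountable_of_separable E
  let _ : MeasurableSpace E := borel E
  have : BorelSpace E := ⟨rfl⟩
  let _ : MeasurableSpace (Lp ℝ 1 m) := borel _
  have : BorelSpace (Lp ℝ 1 m) := ⟨rfl⟩
  have hpol : PolishSpace E := inferInstance
  let A : ℕ → Set E := fun N => {y | |y| ≤ (N : ℝ) • T 1}
  have hcabs : Continuous fun y : E => |y| := continuous_id.sup continuous_neg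
  have hAc : ∀ N, IsClosed (A N) := fun N => isClosed_le hcabs continuous_const
  let ψ : E → Lp ℝ 1 m := fun y => i (Function.invFun T y)
  have hψ : ∀ g, ψ (T g) = i g := fun g => by
    show i (Function.invFun T (T g)) = i g
    rw [Function.leftInverse_invFun hinj g]
  have hAr : ∀ N y, y ∈ A N → ∃ g, T g = y := by
    intro N y hy
    have h1 : y ∈ Set.range T := by
      rw [hr]
      refine ⟨N + 1, by positivity, hy.trans ?_⟩
      refine smul_le_smul_of_nonneg_right (by linarith) hu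
    exact h1
  have hmeas : ∀ N, Measurable fun y : A N => ψ y.1 := by
    intro N
    have := (hAc N).polishSpace
    have hball : ∀ h ∈ D, ∀ q : ℝ, MeasurableSet ((fun y : A N => ψ y.1) ⁻¹' Metric.ball (i h) q) := by
      intro h hh q
      have h1 : (fun y : A N => ψ y.1) ⁻¹' Metric.ball (i h) q =
          ⋃ h' ∈ {h' | h' ∈ D ∧ II m h' < q}, {y : A N | |y.1 - T h| ≤ T h'} := by
        ext y
        obtain ⟨g, hg⟩ := hAr N y.1 y.2
        simp only [Set.mem_preimage, Metric.mem_ball, Set.mem_iUnion, Set.mem_ofPred_eq,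
          exists_prop]
        rw [← hg, hψ, hi, dist_toLp]
        have h2 : ∀ h' : C(K, ℝ), |T g - T h| ≤ T h' ↔ |g - h| ≤ h' := by
          intro h'
          rw [← map_sub, ← hT]
          exact ⟨fun h3 => T_le hT hinj h3, fun h3 => T_mono hT h3⟩
        simp only [h2]
        constructor
        · intro h3
          obtain ⟨h', hh'D, hgh', hh'⟩ := hD |g - h| (q - II m |g - h|) (by linarith)
          exact ⟨h', ⟨hh'D, by linarith⟩, hgh'⟩
        · rintro ⟨h', ⟨-, h3⟩, h4⟩
          exact (II_mono m h4).trans_lt h3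
      rw [h1]
      refine MeasurableSet.biUnion (hDc.mono fun h' hh' => hh'.1) fun h' _ => ?_
      refine IsClosed.measurableSet ?_
      exact isClosed_le (hcabs.comp (continuous_subtype_val.sub continuous_const)) continuous_const
    refine measurable_of_isOpen fun U hU => ?_
    have h1 : (fun y : A N => ψ y.1) ⁻¹' U = ⋃ h ∈ D, ⋃ q ∈ {q : ℚ | Metric.ball (i h) q ⊆ U},
        (fun y : A N => ψ y.1) ⁻¹' Metric.ball (i h) q := by
      ext y
      simp only [Set.mem_preimage, Set.mem_iUnion, exists_prop]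
      constructor
      · intro hy
        obtain ⟨ε, hε, hεU⟩ := Metric.isOpen_iff.1 hU _ hy
        obtain ⟨_, ⟨h, hhD, rfl⟩, hh⟩ := Metric.mem_closure_iff.1 (hdense (ψ y.1)) (ε / 2)
          (by positivity)
        obtain ⟨q, hq1, hq2⟩ := exists_rat_btwn hh
        refine ⟨h, hhD, q, ?_, hq1⟩
        intro z hz
        refine hεU ?_
        rw [Metric.mem_ball] at hz ⊢
        have := dist_triangle z (i h) (ψ y.1)
        rw [dist_comm (i h)] at this
        linarith
      · rintro ⟨h, _, q, hq, hy⟩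
        exact hq hy
    rw [h1]
    exact MeasurableSet.biUnion hDc fun h hh => MeasurableSet.biUnion (Set.to_countable _)
      fun q _ => hball h hh q
  have hran : Set.range i = ⋃ N : ℕ, (fun y : A N => ψ y.1) '' Set.univ := by
    ext F
    simp only [Set.mem_range, Set.mem_iUnion, Set.mem_image, Set.mem_univ, true_and]
    constructor
    · rintro ⟨g, rfl⟩
      obtain ⟨N, hN⟩ := exists_nat_ge ‖g‖
      have h1 : T g ∈ A N := by
        show |T g| ≤ (N : ℝ) • T 1
        rw [← hT, ← map_smul]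
        refine T_mono hT fun t => ?_
        have := g.norm_coe_le_norm t
        show |g t| ≤ (N : ℝ) * 1
        rw [mul_one]
        exact this.trans hN
      exact ⟨N, ⟨T g, h1⟩, hψ g⟩
    · rintro ⟨N, y, rfl⟩
      obtain ⟨g, hg⟩ := hAr N y.1 y.2
      exact ⟨g, by rw [← hg, hψ]⟩
  rw [hran]
  refine AnalyticSet.iUnion fun N => ?_
  have := (hAc N).polishSpace
  exact MeasurableSet.univ.analyticSet_image (hmeas N)

end meas

end Pool.Agent.V1198.SK
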