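import Pool.Agent.V1198.BL

/-!
# Renormings of Banach lattices by finite solid convex hulls
-/

set_option autoImplicit false
set_option linter.unusedSectionVars false

noncomputable section

open Filter Topology

namespace Pool.Agent.V1198.YS

open Pool.Agent.V1198.BL

/-- A sequence of positive elements, the first of which is a strong order unit. -/
structure Fam (A : BLat) where
  /-- The sequence. -/
  F : ℕ → A
  pos : ∀ i, 0 ≤ F i
  /-- The constant. -/
  c : ℝ
  hc : 0 ≤ c
  unit : ∀ x : A, |x| ≤ (c * ‖x‖) • F 0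

variable {A : BLat} (D : Fam A) (n : ℕ)

/-- The admissible bounds. -/
def rset (x : A) : Set ℝ :=
  {r | ∃ l : ℕ → ℝ, (∀ i, 0 ≤ l i) ∧ |x| ≤ ∑ i ∈ Finset.range (n + 1), l i • D.F i ∧
    r = ∑ i ∈ Finset.range (n + 1), l i}

/-- The gauge of the solid convex hull of `F 0, …, F n`. -/
def rn (x : A) : ℝ := sInf (rset D n x)

theorem single_mem {x : A} {r : ℝ} (hr : 0 ≤ r) {i : ℕ} (hi : i ≤ n) (h : |x| ≤ r • D.F i) :
    r ∈ rset D n x := by
  refine ⟨Pi.single i r, fun j => ?_, ?_, ?_⟩
  · by_cases h' : j = i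
    · rw [h', Pi.single_eq_same]; exact hr
    · rw [Pi.single_eq_of_ne h']
  · rw [Finset.sum_eq_single i]
    · rwa [Pi.single_eq_same]
    · intro j _ hj
      rw [Pi.single_eq_of_ne hj, zero_smul]
    · intro h'
      exact absurd (Finset.mem_range.2 (Nat.lt_succ_of_le hi)) h'
  · rw [Finset.sum_eq_single i]
    · rw [Pi.single_eq_same]
    · intro j _ hj
      rw [Pi.single_eq_of_ne hj]
    · intro h'
      exact absurd (Finset.mem_range.2 (Nat.lt_succ_of_le hi)) h'

theorem rset_nonneg {x : A} {r : ℝ} (h : r ∈ rset D n x) : 0 ≤ r := by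
  obtain ⟨l, hl, -, rfl⟩ := h
  exact Finset.sum_nonneg fun i _ => hl i

theorem rset_bdd (x : A) : BddBelow (rset D n x) := ⟨0, fun _ h => rset_nonneg D n h⟩

theorem rset_ne (x : A) : (rset D n x).Nonempty :=
  ⟨_, single_mem D n (mul_nonneg D.hc (norm_nonneg x)) (Nat.zero_le n) (D.unit x)⟩

theorem rn_nonneg (x : A) : 0 ≤ rn D n x := le_csInf (rset_ne D n x) fun _ h => rset_nonneg D n h

theorem rn_le {x : A} {r : ℝ} (h : r ∈ rset D n x) : rn D n x ≤ r := csInf_le (rset_bdd D n x) h

theorem rn_le_norm (x : A) : rn D n x ≤ D.c * ‖x‖ :=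
  rn_le D n (single_mem D n (mul_nonneg D.hc (norm_nonneg x)) (Nat.zero_le n) (D.unit x))

theorem rn_exists (x : A) {ε : ℝ} (hε : 0 < ε) : ∃ r ∈ rset D n x, r < rn D n x + ε :=
  exists_lt_of_csInf_lt (rset_ne D n x) (show sInf (rset D n x) < rn D n x + ε by
    unfold rn; linarith)

theorem rn_le_of {x : A} {r : ℝ} (hr : 0 ≤ r) {i : ℕ} (hi : i ≤ n) (h : |x| ≤ r • D.F i) :
    rn D n x ≤ r := rn_le D n (single_mem D n hr hi h)

theorem rn_F {i : ℕ} (hi : i ≤ n) : rn D n (D.F i) ≤ 1 :=
  rn_le_of D n zero_le_one hi (by rw [one_smul, abs_of_nonneg (D.pos i)])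

theorem rn_mono {x y : A} (h : |x| ≤ |y|) : rn D n x ≤ rn D n y := by
  refine le_csInf (rset_ne D n y) ?_
  rintro _ ⟨l, hl, hy, rfl⟩
  exact rn_le D n ⟨l, hl, h.trans hy, rfl⟩

theorem rn_zero : rn D n (0 : A) = 0 :=
  le_antisymm (by
    have h := rn_le_norm D n (0 : A)
    rwa [norm_zero, mul_zero] at h) (rn_nonneg D n _)

theorem rn_neg (x : A) : rn D n (-x) = rn D n x :=
  le_antisymm (rn_mono D n (by rw [abs_neg])) (rn_mono D n (by rw [abs_neg]))

theorem rn_add (x y : A) : rn D n (x + y) ≤ rn D n x + rn D n y := by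
  refine le_of_forall_pos_le_add fun ε hε => ?_
  obtain ⟨_, ⟨l, hl, hx, rfl⟩, hlt⟩ := rn_exists D n x (show 0 < ε / 2 by linarith)
  obtain ⟨_, ⟨m, hm, hy, rfl⟩, hmt⟩ := rn_exists D n y (show 0 < ε / 2 by linarith)
  have h1 : rn D n (x + y) ≤ ∑ i ∈ Finset.range (n + 1), (l i + m i) := by
    refine rn_le D n ⟨fun i => l i + m i, fun i => add_nonneg (hl i) (hm i), ?_, rfl⟩
    simp only [add_smul, Finset.sum_add_distrib]
    exact (abs_add_le x y).trans (add_le_add hx hy)
  rw [Finset.sum_add_distrib] at h1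
  linarith

theorem rn_smul_le (c : ℝ) (x : A) : rn D n (c • x) ≤ |c| * rn D n x := by
  rcases (abs_nonneg c).eq_or_lt with h0 | h0
  · have hc : c = 0 := abs_eq_zero.1 h0.symm
    rw [hc, zero_smul, rn_zero, abs_zero, zero_mul]
  · refine le_of_forall_pos_le_add fun ε hε => ?_
    obtain ⟨_, ⟨l, hl, hx, rfl⟩, hlt⟩ := rn_exists D n x (div_pos hε h0)
    have h1 : rn D n (c • x) ≤ ∑ i ∈ Finset.range (n + 1), |c| * l i := by
      refine rn_le D n ⟨fun i => |c| * l i, fun i => mul_nonneg h0.le (hl i), ?_, rfl⟩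
      simp only [mul_smul, ← Finset.smul_sum]
      rw [abs_smul']
      exact smul_le_smul_of_nonneg_left hx h0.le
    rw [← Finset.mul_sum] at h1
    have h2 := mul_lt_mul_of_pos_left hlt h0
    have h3 : |c| * (rn D n x + ε / |c|) = |c| * rn D n x + ε := by field_simp
    linarith

/-- Homomorphisms are bounded by their values at `F 0, …, F n`. -/
theorem hom_le {X : BLat} {T : A →L[ℝ] X} (hT : IsLatHom T) {K : ℝ}
    (h : ∀ i ≤ n, ‖T (D.F i)‖ ≤ K) (x : A) : ‖T x‖ ≤ K * rn D n x := by
  have hK : 0 ≤ K := (norm_nonneg _).trans (h 0 (Nat.zero_le n))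
  have key : ∀ r ∈ rset D n x, ‖T x‖ ≤ K * r := by
    rintro _ ⟨l, hl, hx, rfl⟩
    have h1 : |T x| ≤ ∑ i ∈ Finset.range (n + 1), l i • T (D.F i) := by
      rw [← hT]
      have h2 := hT.mono hx
      rw [map_sum] at h2
      simpa only [map_smul] using h2
    rw [← norm_abs_eq_norm]
    refine (norm_mono' (abs_nonneg _) h1).trans ((norm_sum_le _ _).trans ?_)
    rw [Finset.mul_sum]
    refine Finset.sum_le_sum fun i hi => ?_
    rw [norm_smul, Real.norm_eq_abs, abs_of_nonneg (hl i), mul_comm]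
    exact mul_le_mul_of_nonneg_right (h i (Nat.lt_succ_iff.1 (Finset.mem_range.1 hi))) (hl i)
  refine le_of_forall_pos_le_add fun ε hε => ?_
  obtain ⟨r, hr, hlt⟩ := rn_exists D n x (show 0 < ε / (K + 1) by positivity)
  have h1 := key r hr
  have h2 : K * r ≤ K * (rn D n x + ε / (K + 1)) := mul_le_mul_of_nonneg_left hlt.le hK
  have h3 : K * (ε / (K + 1)) ≤ ε := by
    rw [← mul_div_assoc, div_le_iff₀ (by positivity)]
    nlinarith
  linarith

/-- The bound for the original norm. -/
def rbd : ℝ := ∑ i ∈ Finset.range (n + 1), ‖D.F i‖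

theorem isLatHom_id : IsLatHom (ContinuousLinearMap.id ℝ A) := fun _ => rfl

theorem norm_le_rn (x : A) : ‖x‖ ≤ rbd D n * rn D n x :=
  hom_le D n isLatHom_id (fun i hi => Finset.single_le_sum (f := fun i => ‖D.F i‖)
    (fun _ _ => norm_nonneg _) (Finset.mem_range.2 (Nat.lt_succ_of_le hi))) x

theorem rn_anti {m k : ℕ} (h : m ≤ k) (x : A) : rn D k x ≤ rn D m x := by
  have h1 : rn D k x ≤ rn D m x := by
    refine le_csInf (rset_ne D m x) ?_
    rintro _ ⟨l, hl, hx, rfl⟩
    have hsub : Finset.range (m + 1) ⊆ Finset.range (k + 1) :=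
      Finset.range_mono (Nat.succ_le_succ h)
    refine rn_le D k ⟨fun i => if i ∈ Finset.range (m + 1) then l i else 0, fun i => ?_, ?_, ?_⟩
    · simp only
      split_ifs
      · exact hl i
      · exact le_rfl
    · refine hx.trans (le_of_eq ?_)
      rw [← Finset.sum_subset hsub (fun i _ hi => by simp only [if_neg hi, zero_smul])]
      exact Finset.sum_congr rfl fun i hi => by simp only [if_pos hi]
    · rw [← Finset.sum_subset hsub (fun i _ hi => by rw [if_neg hi])]
      exact Finset.sum_congr rfl fun i hi => by rw [if_pos hi]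
  exact h1

/-- The renormed space. -/
def RT {A : BLat} (_ : Fam A) (_ : ℕ) : Type := A.carrier

instance instGrpRT : AddCommGroup (RT D n) := inferInstanceAs (AddCommGroup A)
instance instModRT : Module ℝ (RT D n) := inferInstanceAs (Module ℝ A)
instance instLatRT : Lattice (RT D n) := inferInstanceAs (Lattice A)

/-- The identity map. -/
def toA : RT D n → A := fun x => x

/-- The identity map. -/
def ofA : A → RT D n := fun x => x

instance instNormRT : NormedAddCommGroup (RT D n) :=
  AddGroupNorm.toNormedAddCommGroup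
    { toFun := fun x => rn D n (toA D n x)
      map_zero' := rn_zero D n
      add_le' := fun x y => rn_add D n _ _
      neg' := fun x => rn_neg D n _
      eq_zero_of_map_eq_zero' := fun x hx => by
        have h := norm_le_rn D n (toA D n x)
        rw [hx, mul_zero] at h
        exact norm_le_zero_iff.1 h }

theorem rt_norm (x : RT D n) : ‖x‖ = rn D n (toA D n x) := rfl

instance instNSRT : NormedSpace ℝ (RT D n) where
  norm_smul_le c x := rn_smul_le D n c x

theorem rt_complete : CompleteSpace (RT D n) := by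
  refine Metric.complete_of_cauchySeq_tendsto fun u hu => ?_
  have hcau : CauchySeq (fun k => toA D n (u k)) := by
    rw [Metric.cauchySeq_iff] at hu ⊢
    intro ε hε
    have hR : 0 ≤ rbd D n := Finset.sum_nonneg fun _ _ => norm_nonneg _
    obtain ⟨N, hN⟩ := hu (ε / (rbd D n + 1)) (by positivity)
    refine ⟨N, fun k hk m hm => ?_⟩
    have h1 := hN k hk m hm
    rw [dist_eq_norm] at h1 ⊢
    have h2 := norm_le_rn D n (toA D n (u k) - toA D n (u m))
    have h3 : rn D n (toA D n (u k) - toA D n (u m)) < ε / (rbd D n + 1) := h1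
    have h4 : rbd D n * rn D n (toA D n (u k) - toA D n (u m)) ≤
        rbd D n * (ε / (rbd D n + 1)) := mul_le_mul_of_nonneg_left h3.le hR
    have h5 : rbd D n * (ε / (rbd D n + 1)) < ε := by
      rw [← mul_div_assoc, div_lt_iff₀ (by positivity)]
      nlinarith
    linarith
  obtain ⟨a, ha⟩ := cauchySeq_tendsto_of_complete hcau
  refine ⟨ofA D n a, ?_⟩
  rw [tendsto_iff_norm_sub_tendsto_zero] at ha ⊢
  have h1 := ha.const_mul D.c
  rw [mul_zero] at h1
  refine squeeze_zero (fun k => norm_nonneg _) (fun k => ?_) h1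
  exact rn_le_norm D n (toA D n (u k) - a)

theorem A_add_left {a b : A} (h : a ≤ b) (c : A) : a + c ≤ b + c := add_le_add_left h c

theorem A_add_right {a b : A} (h : a ≤ b) (c : A) : c + a ≤ c + b := add_le_add_right h c

theorem A_smul_left {a b : A} (h : a ≤ b) {c : ℝ} (hc : 0 ≤ c) : c • a ≤ c • b :=
  smul_le_smul_of_nonneg_left h hc

theorem A_smul_right {a : A} (ha : 0 ≤ a) {b c : ℝ} (h : b ≤ c) : b • a ≤ c • a :=
  smul_le_smul_of_nonneg_right h ha

instance instOrdRT : IsOrderedAddMonoid (RT D n) where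
  add_le_add_left _ _ h c := A_add_left (A := A) h c
  add_le_add_right _ _ h c := A_add_right (A := A) h c

instance instSolRT : HasSolidNorm (RT D n) where
  solid x y h := rn_mono (D := D) (n := n) (x := x) (y := y) h

instance instOModRT : IsOrderedModule ℝ (RT D n) where
  smul_le_smul_of_nonneg_left _ hc _ _ h := A_smul_left (A := A) h hc
  smul_le_smul_of_nonneg_right _ hx _ _ h := A_smul_right (A := A) hx h

instance instComRT : CompleteSpace (RT D n) := rt_complete D n

/-- The renormed Banach lattice. -/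
abbrev RL : BLat := ⟨RT D n⟩

end Pool.Agent.V1198.YS
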