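import Pool.Agent.V1198.CalcQ
import Pool.Agent.V1198.Renorm

/-!
# Semiprojectivity of the renormed lattices `C(Q)`, and inductive limits
-/

set_option autoImplicit false
set_option linter.unusedSectionVars false

noncomputable section

open Filter Topology

namespace Pool.Agent.V1198.YS

open Pool.Agent.V1198.BL

/-- The identity map to the renormed space. -/
def ofAL {A : BLat} (D : Fam A) (n : ℕ) : A →L[ℝ] RL D n :=
  LinearMap.mkContinuous
    { toFun := ofA D n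
      map_add' := fun _ _ => rfl
      map_smul' := fun _ _ => rfl } D.c fun x => rn_le_norm D n x

/-- A homomorphism on `A` as a homomorphism on the renormed space. -/
def onRL {A X : BLat} (D : Fam A) (n : ℕ) (T : A →L[ℝ] X) (hT : IsLatHom T) (K : ℝ)
    (h : ∀ i ≤ n, ‖T (D.F i)‖ ≤ K) : RL D n →L[ℝ] X :=
  LinearMap.mkContinuous
    { toFun := fun x => T (toA D n x)
      map_add' := fun _ _ => map_add T _ _
      map_smul' := fun _ _ => map_smul T _ _ } K fun x => hom_le D n hT h (toA D n x)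

theorem onRL_apply {A X : BLat} (D : Fam A) (n : ℕ) (T : A →L[ℝ] X) (hT : IsLatHom T) (K : ℝ)
    (h : ∀ i ≤ n, ‖T (D.F i)‖ ≤ K) (x : RL D n) : onRL D n T hT K h x = T (toA D n x) := rfl

theorem onRL_norm {A X : BLat} (D : Fam A) (n : ℕ) (T : A →L[ℝ] X) (hT : IsLatHom T) (K : ℝ)
    (h : ∀ i ≤ n, ‖T (D.F i)‖ ≤ K) : ‖onRL D n T hT K h‖ ≤ K :=
  LinearMap.mkContinuous_norm_le _ ((norm_nonneg _).trans (h 0 (Nat.zero_le n))) _

theorem onRL_hom {A X : BLat} (D : Fam A) (n : ℕ) (T : A →L[ℝ] X) (hT : IsLatHom T) (K : ℝ)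
    (h : ∀ i ≤ n, ‖T (D.F i)‖ ≤ K) : IsLatHom (onRL D n T hT K h) := fun x => hT (toA D n x)

/-- The operators of an asymptotic splitting approximate the quotient norm. -/
theorem eventually_norm_le {B C : BLat} {q : B →L[ℝ] C} (hq : IsQuot q) {M : ℕ → B →L[ℝ] B}
    (h1 : ∀ k x, ‖M k x‖ ≤ ‖x‖) (h2 : ∀ j, q j = 0 → Tendsto (fun k => M k j) atTop (𝓝 0))
    (x : B) {δ : ℝ} (hδ : 0 < δ) : ∀ᶠ k in atTop, ‖M k x‖ ≤ ‖q x‖ + δ := by
  obtain ⟨z, hz, hzn⟩ := hq.exists_lift (q x) (show 0 < δ / 2 by linarith)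
  have h3 := h2 (x - z) (by rw [map_sub, hz, sub_self])
  rw [tendsto_zero_iff_norm_tendsto_zero] at h3
  filter_upwards [h3.eventually_lt_const (show 0 < δ / 2 by linarith)] with k hk
  have e : M k x = M k z + M k (x - z) := by rw [map_sub]; abel
  rw [e]
  have := norm_add_le (M k z) (M k (x - z))
  have := h1 k z
  linarith

/-- The renormed lattices `C(Q)` are semiprojective. -/
theorem semiproj (D : Fam CQ) (n : ℕ) : Semiprojective (RL D n) := by
  intro B C C' q q' p hBsep hq hq' hpq _ _ φ hφ hφ1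
  refine ⟨0, fun ε hε => ?_⟩
  have hof : IsLatHom (ofAL D n) := fun _ => rfl
  set φ' : CQ →L[ℝ] C' := φ.comp (ofAL D n) with hφ'
  have hφ'h : IsLatHom φ' := hφ.comp hof
  have hone : (0 : CQ) ≤ (1 : C(QQ, ℝ)) := fun t => zero_le_one
  obtain ⟨v, hv, hqv, -⟩ := hq'.exists_pos_lift (hφ'h.nonneg hone) one_pos
  have hz : ∀ i, ∃ z, q' z = φ' (co i) := fun i => hq'.2.1 _
  choose z hz using hz
  have hnv : -v ≤ v := (neg_nonpos.2 hv).trans hv
  have hd : ∀ i, |(z i ⊓ v) ⊔ (-v)| ≤ v := fun i => by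
    have h1 : (z i ⊓ v) ⊔ (-v) ≤ v := sup_le inf_le_right hnv
    have h2 : -((z i ⊓ v) ⊔ (-v)) ≤ v := neg_le.1 le_sup_right
    exact sup_le h1 h2
  have hco : ∀ i, ((co i : CQ) ⊓ (1 : C(QQ, ℝ))) ⊔ (-(1 : C(QQ, ℝ))) = co i := fun i => by
    have h1 := abs_co_le i
    have h2 : (co i : CQ) ≤ (1 : C(QQ, ℝ)) := (le_abs_self (co i : CQ)).trans h1
    have h3 : -(1 : C(QQ, ℝ)) ≤ (co i : CQ) := neg_le.1 ((neg_le_abs (co i : CQ)).trans h1)
    rw [inf_eq_left.2 h2]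
    exact sup_eq_left.2 h3
  obtain ⟨ψ, hψ, hψ1, hψco⟩ := exists_calc hv (fun i => (z i ⊓ v) ⊔ (-v)) hd
  have hcomp : q'.comp ψ = φ' := by
    refine hom_ext (hq'.1.comp hψ) hφ'h ?_ fun i => ?_
    · rw [ContinuousLinearMap.comp_apply, hψ1, hqv]
    · rw [ContinuousLinearMap.comp_apply, hψco, hq'.1.sup, hq'.1.inf, map_neg, hqv, hz]
      have h1 := congrArg φ' (hco i)
      rw [hφ'h.sup, hφ'h.inf, map_neg] at h1
      exact h1
  obtain ⟨M, hM1, hM2, hM3, hM4⟩ := exists_split hq'.1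
  have hFi : ∀ i ≤ n, ‖q' (ψ (D.F i))‖ ≤ 1 := fun i hi => by
    rw [← ContinuousLinearMap.comp_apply, hcomp, hφ', ContinuousLinearMap.comp_apply]
    refine (φ.le_opNorm _).trans ?_
    have h1 : ‖ofAL D n (D.F i)‖ ≤ 1 := rn_F D n hi
    calc ‖φ‖ * ‖ofAL D n (D.F i)‖ ≤ 1 * 1 := mul_le_mul hφ1 h1 (norm_nonneg _) zero_le_one
      _ = 1 := one_mul _
  have hev : ∀ᶠ k in atTop, ∀ i ∈ Finset.range (n + 1), ‖M k (ψ (D.F i))‖ ≤ 1 + ε := by
    rw [Filter.eventually_all_finset]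
    intro i hi
    filter_upwards [eventually_norm_le hq' hM2 hM4 (ψ (D.F i)) hε] with k hk
    have := hFi i (Nat.lt_succ_iff.1 (Finset.mem_range.1 hi))
    linarith
  obtain ⟨k, hk⟩ := hev.exists
  have hT : IsLatHom ((q 0).comp ((M k).comp ψ)) := (hq 0).1.comp ((hM1 k).comp hψ)
  have hTb : ∀ i ≤ n, ‖((q 0).comp ((M k).comp ψ)) (D.F i)‖ ≤ 1 + ε := fun i hi =>
    ((hq 0).norm_apply_le _).trans (hk i (Finset.mem_range.2 (Nat.lt_succ_of_le hi)))
  refine ⟨onRL D n _ hT (1 + ε) hTb, onRL_hom D n _ hT _ hTb, ?_, onRL_norm D n _ hT _ hTb⟩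
  ext x
  rw [ContinuousLinearMap.comp_apply, onRL_apply]
  change p 0 (q 0 (M k (ψ (toA D n x)))) = φ x
  have h1 : p 0 (q 0 (M k (ψ (toA D n x)))) = q' (M k (ψ (toA D n x))) := by
    rw [← hpq 0]; rfl
  rw [h1, hM3]
  have h2 : q' (ψ (toA D n x)) = φ' (toA D n x) := by rw [← hcomp]; rfl
  rw [h2]
  rfl

/-- The composites of the connecting maps. -/
def tr {A : ℕ → BLat} (φ : ∀ n, A n →L[ℝ] A (n + 1)) (n : ℕ) : ∀ m, A n →L[ℝ] A (n + m)
  | 0 => ContinuousLinearMap.id ℝ _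
  | m + 1 => (φ (n + m)).comp (tr φ n m)

/-- `E` is (isometrically lattice isomorphic to) the inductive limit of the sequence
`A_0 → A_1 → ⋯`: there are compatible lattice homomorphisms `ι_n : A_n → E` with
`‖ι_n x‖ = lim_m ‖φ_{n+m,n} x‖` whose ranges have dense union. -/
def IsIndLim (A : ℕ → BLat) (φ : ∀ n, A n →L[ℝ] A (n + 1)) (E : BLat) : Prop :=
  ∃ ι : ∀ n, A n →L[ℝ] E, (∀ n, IsLatHom (ι n)) ∧ (∀ n, (ι (n + 1)).comp (φ n) = ι n) ∧
    (∀ n x, Tendsto (fun m => ‖tr φ n m x‖) atTop (𝓝 ‖ι n x‖)) ∧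
    Dense (⋃ n, Set.range (ι n))

/-- A homomorphism from `C(Q)` with dense range. -/
theorem exists_psi (E : BLat) [TopologicalSpace.SeparableSpace E] :
    ∃ ψ : CQ →L[ℝ] E, IsLatHom ψ ∧ DenseRange ψ := by
  obtain ⟨w, hw, hc, -⟩ := exists_unit (X := E) (TopologicalSpace.denseSeq E)
  choose c hc0 hc using hc
  have hd : ∀ i, |(c i + 1)⁻¹ • TopologicalSpace.denseSeq E i| ≤ w := fun i => by
    have h0 : 0 < c i + 1 := by have := hc0 i; linarith
    rw [abs_smul', abs_of_pos (inv_pos.2 h0)]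
    have h1 := smul_le_smul_of_nonneg_left (hc i) (inv_pos.2 h0).le
    refine h1.trans ?_
    rw [smul_smul]
    have h2 : (c i + 1)⁻¹ * c i ≤ 1 := by
      rw [inv_mul_le_iff₀ h0]
      linarith
    have h3 := smul_le_smul_of_nonneg_right h2 hw
    rwa [one_smul] at h3
  obtain ⟨ψ, hψ, -, hψco⟩ := exists_calc hw _ hd
  refine ⟨ψ, hψ, (TopologicalSpace.denseRange_denseSeq E).mono ?_⟩
  rintro _ ⟨i, rfl⟩
  have h0 : 0 < c i + 1 := by have := hc0 i; linarith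
  exact ⟨(c i + 1) • co i, by rw [map_smul, hψco, smul_smul, mul_inv_cancel₀ h0.ne', one_smul]⟩

/-- The family of test functions. -/
theorem exists_fam {E : BLat} {ψ : CQ →L[ℝ] E} (hψ : IsLatHom ψ) :
    ∃ D : Fam CQ, (∀ i, ‖ψ (D.F i)‖ ≤ 1) ∧ ∀ (f : CQ) (ε : ℝ), 0 < ε →
      ∃ i, |f| ≤ (‖ψ f‖ + ε) • D.F i := by
  set G : Set C(QQ, ℝ) := {g | 0 ≤ g ∧ ‖ψ g‖ < 1} with hG
  have hne : Nonempty G := ⟨⟨0, le_rfl, by
    rw [map_zero, norm_zero]
    exact one_pos⟩⟩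
  set g := TopologicalSpace.denseSeq G with hg
  set N := ‖ψ (1 : C(QQ, ℝ))‖ + 1 with hN
  have hN0 : 0 < N := by positivity
  have hF0 : (0 : C(QQ, ℝ)) ≤ N⁻¹ • (1 : C(QQ, ℝ)) := fun t => by
    change (0 : ℝ) ≤ N⁻¹ * 1
    positivity
  have hFu : ∀ x : CQ, |x| ≤ (N * ‖x‖) • (N⁻¹ • (1 : C(QQ, ℝ))) := fun x t => by
    change |(x : C(QQ, ℝ)) t| ≤ N * ‖(x : C(QQ, ℝ))‖ * (N⁻¹ * 1)
    have h1 := ContinuousMap.norm_coe_le_norm (x : C(QQ, ℝ)) t
    have h2 : N * ‖(x : C(QQ, ℝ))‖ * (N⁻¹ * 1) = ‖(x : C(QQ, ℝ))‖ := by field_simp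
    rw [h2]
    exact h1
  let D : Fam CQ :=
    { F := fun i => Nat.casesOn i (N⁻¹ • (1 : C(QQ, ℝ))) fun j => (g j).1
      pos := fun i => by
        cases i with
        | zero => exact hF0
        | succ j => exact (g j).2.1
      c := N
      hc := hN0.le
      unit := hFu }
  refine ⟨D, fun i => ?_, fun f ε hε => ?_⟩
  · cases i with
    | zero =>
      change ‖ψ (N⁻¹ • (1 : C(QQ, ℝ)))‖ ≤ 1
      rw [map_smul, norm_smul, norm_inv, Real.norm_eq_abs, abs_of_pos hN0, inv_mul_le_iff₀ hN0,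
        hN]
      linarith
    | succ j => exact (g j).2.2.le
  · set s := ‖ψ f‖ + ε with hs
    have hs0 : 0 < s := by positivity
    set η := ε / N with hη
    have hη0 : 0 < η := by positivity
    have hmem : s⁻¹ • (|f| + η • (1 : C(QQ, ℝ))) ∈ G := by
      constructor
      · exact smul_nonneg (inv_pos.2 hs0).le (add_nonneg (abs_nonneg f)
          (smul_nonneg hη0.le fun t => zero_le_one))
      · rw [map_smul, map_add, map_smul, hψ, norm_smul, norm_inv, Real.norm_eq_abs,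
          abs_of_pos hs0, inv_mul_lt_iff₀ hs0, mul_one]
        refine (norm_add_le _ _).trans_lt ?_
        rw [norm_abs_eq_norm, norm_smul, Real.norm_eq_abs, abs_of_pos hη0, hs]
        have h1 : η * ‖ψ (1 : C(QQ, ℝ))‖ < ε := by
          rw [hη, div_mul_eq_mul_div, div_lt_iff₀ hN0, hN]
          nlinarith [norm_nonneg (ψ (1 : C(QQ, ℝ)))]
        linarith
    obtain ⟨i, hi⟩ := (TopologicalSpace.denseRange_denseSeq G).exists_dist_lt
      (⟨_, hmem⟩ : G) (show 0 < η / s by positivity)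
    refine ⟨i + 1, fun t => ?_⟩
    change |(f : C(QQ, ℝ)) t| ≤ s * (g i).1 t
    have h1 : dist (s⁻¹ • (|f| + η • (1 : C(QQ, ℝ)))) (g i).1 < η / s := hi
    rw [dist_eq_norm] at h1
    have h2 := ((s⁻¹ • (|f| + η • (1 : C(QQ, ℝ)))) - (g i).1).norm_coe_le_norm t
    have h3 := h2.trans_lt h1
    have h4 : (((s⁻¹ • (|f| + η • (1 : C(QQ, ℝ)))) - (g i).1 : C(QQ, ℝ))) t =
        s⁻¹ * (|(f : C(QQ, ℝ)) t| + η * 1) - (g i).1 t := rfl
    rw [h4, Real.norm_eq_abs] at h3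
    have h5 := (abs_lt.1 h3).2
    have h6 : s⁻¹ * (|(f : C(QQ, ℝ)) t| + η * 1) - η / s < (g i).1 t := by linarith
    have h7 := mul_lt_mul_of_pos_left h6 hs0
    have h8 : s * (s⁻¹ * (|(f : C(QQ, ℝ)) t| + η * 1) - η / s) = |(f : C(QQ, ℝ)) t| := by
      field_simp
      ring
    linarith

/-- Every separable Banach lattice is an inductive limit of semiprojective Banach lattices. -/
theorem exists_indLim (E : BLat) (hE : TopologicalSpace.SeparableSpace E) :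
    ∃ (A : ℕ → BLat) (φ : ∀ n, A n →L[ℝ] A (n + 1)), (∀ n, Semiprojective (A n)) ∧
      (∀ n, IsLatHom (φ n)) ∧ (∀ n, ‖φ n‖ ≤ 1) ∧ IsIndLim A φ E := by
  obtain ⟨ψ, hψ, hψd⟩ := exists_psi E
  obtain ⟨D, hD1, hD2⟩ := exists_fam hψ
  let φ : ∀ n, RL D n →L[ℝ] RL D (n + 1) := fun n =>
    LinearMap.mkContinuous
      { toFun := fun x => ofA D (n + 1) (toA D n x)
        map_add' := fun _ _ => rfl
        map_smul' := fun _ _ => rfl } 1 fun x => by
      rw [one_mul]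
      exact rn_anti D (Nat.le_succ n) _
  have hφ : ∀ n (x : RL D n), φ n x = ofA D (n + 1) (toA D n x) := fun n x => rfl
  have htr : ∀ n m (x : RL D n), tr φ n m x = ofA D (n + m) (toA D n x) := by
    intro n m x
    induction m with
    | zero => rfl
    | succ m ih =>
      change φ (n + m) (tr φ n m x) = _
      rw [ih]
      rfl
  refine ⟨fun n => RL D n, φ, fun n => semiproj D n, fun n x => rfl,
    fun n => LinearMap.mkContinuous_norm_le _ zero_le_one _,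
    fun n => onRL D n ψ hψ 1 fun i _ => hD1 i, fun n => onRL_hom D n ψ hψ 1 fun i _ => hD1 i,
    fun n => rfl, fun n x => ?_, ?_⟩
  · have h1 : ∀ m, ‖tr φ n m x‖ = rn D (n + m) (toA D n x) := fun m => by
      rw [htr]
      rfl
    simp only [h1]
    change Tendsto _ _ (𝓝 ‖ψ (toA D n x)‖)
    rw [Metric.tendsto_atTop]
    intro ε hε
    obtain ⟨i, hi⟩ := hD2 (toA D n x) (ε / 2) (by linarith)
    refine ⟨i, fun m hm => ?_⟩
    have h2 : rn D (n + m) (toA D n x) ≤ ‖ψ (toA D n x)‖ + ε / 2 :=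
      rn_le_of D (n + m) (by positivity) (by omega : i ≤ n + m) hi
    have h3 := hom_le D (n + m) hψ (K := 1) (fun i _ => hD1 i) (toA D n x)
    rw [one_mul] at h3
    rw [Real.dist_eq, abs_lt]
    constructor <;> linarith
  · have hsub : Set.range ψ ⊆ ⋃ n, Set.range (onRL D n ψ hψ 1 fun i _ => hD1 i) := by
      rintro _ ⟨f, rfl⟩
      exact Set.mem_iUnion.2 ⟨0, ofA D 0 f, rfl⟩
    exact hψd.mono hsub

end Pool.Agent.V1198.YS
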