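import Pool.Agent.V1198.FP1
import Pool.Agent.V1198.BLQuot

/-!
# Positive parts of functionals; approximation of positive functionals by homomorphisms
-/

set_option autoImplicit false
set_option linter.unusedSectionVars false
set_option linter.unusedVariables false

noncomputable section

open Filter Topology

namespace Pool.Agent.V1198.PJ

open Pool.Agent.V1198.BL Pool.Agent.V1198.YS Pool.Agent.V1198.FP

/-- Order continuous functionals. -/
def OrdCont {X : BLat} (f : X →L[ℝ] ℝ) : Prop :=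
  ∀ (I : Type) [Preorder I] [IsDirected I (· ≤ ·)] [Nonempty I] (x : I → X), Antitone x →
    IsGLB (Set.range x) 0 → Tendsto (fun i => f (x i)) atTop (𝓝 0)

/-- Directed downward with infimum `0`. -/
structure Dn {X : BLat} (V : Set X) : Prop where
  ne : V.Nonempty
  dir : ∀ u ∈ V, ∀ v ∈ V, ∃ w ∈ V, w ≤ u ∧ w ≤ v
  glb : IsGLB V 0

theorem OrdCont.set {X : BLat} {f : X →L[ℝ] ℝ} (hf : OrdCont f) {V : Set X} (hV : Dn V)
    {ε : ℝ} (hε : 0 < ε) : ∃ v ∈ V, ∀ u ∈ V, u ≤ v → |f u| ≤ ε := by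
  have : Nonempty (↥V)ᵒᵈ := hV.ne.to_subtype
  have : IsDirected (↥V)ᵒᵈ (· ≤ ·) := ⟨fun a b => by
    obtain ⟨w, hw, h1, h2⟩ := hV.dir _ (OrderDual.ofDual a).2 _ (OrderDual.ofDual b).2
    exact ⟨OrderDual.toDual ⟨w, hw⟩, h1, h2⟩⟩
  have h := hf (↥V)ᵒᵈ (fun i => (OrderDual.ofDual i).1) (fun a b hab => hab) (by
    have : Set.range (fun i : (↥V)ᵒᵈ => (OrderDual.ofDual i).1) = V := Subtype.range_coe
    rw [this]
    exact hV.glb)
  obtain ⟨i, hi⟩ := eventually_atTop.1 (Metric.tendsto_nhds.1 h ε hε)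
  refine ⟨_, (OrderDual.ofDual i).2, fun u hu hui => ?_⟩
  have h1 := hi (OrderDual.toDual ⟨u, hu⟩) hui
  rw [Real.dist_eq, sub_zero] at h1
  exact h1.le

/-! ### The positive part of a functional -/

section pos

variable {X : BLat} (f : X →L[ℝ] ℝ)

/-- Values on order intervals. -/
def iv (x : X) : Set ℝ := {r | ∃ y : X, 0 ≤ y ∧ y ≤ x ∧ r = f y}

/-- The positive part on the cone. -/
def fp (x : X) : ℝ := sSup (iv f x)

theorem iv_bdd {x : X} : BddAbove (iv f x) := ⟨‖f‖ * ‖x‖, by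
  rintro _ ⟨y, h0, h1, rfl⟩
  exact (le_abs_self _).trans ((f.le_opNorm y).trans
    (mul_le_mul_of_nonneg_left (norm_mono' h0 h1) (norm_nonneg _)))⟩

theorem iv_zero {x : X} (hx : 0 ≤ x) : (0 : ℝ) ∈ iv f x := ⟨0, le_rfl, hx, (map_zero f).symm⟩

theorem le_fp {x y : X} (h0 : 0 ≤ y) (h1 : y ≤ x) : f y ≤ fp f x :=
  le_csSup (iv_bdd f) ⟨y, h0, h1, rfl⟩

theorem fp_le {x : X} (hx : 0 ≤ x) {c : ℝ} (h : ∀ y, 0 ≤ y → y ≤ x → f y ≤ c) : fp f x ≤ c :=
  csSup_le ⟨0, iv_zero f hx⟩ (by rintro _ ⟨y, h0, h1, rfl⟩; exact h y h0 h1)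

theorem fp_nonneg {x : X} (hx : 0 ≤ x) : 0 ≤ fp f x := le_csSup (iv_bdd f) (iv_zero f hx)

theorem fp_norm_le {x : X} (hx : 0 ≤ x) : fp f x ≤ ‖f‖ * ‖x‖ :=
  fp_le f hx fun y h0 h1 => (le_abs_self _).trans ((f.le_opNorm y).trans
    (mul_le_mul_of_nonneg_left (norm_mono' h0 h1) (norm_nonneg _)))

theorem fp_add {x y : X} (hx : 0 ≤ x) (hy : 0 ≤ y) : fp f (x + y) = fp f x + fp f y := by
  refine le_antisymm (fp_le f (add_nonneg hx hy) fun z h0 h1 => ?_) ?_
  · have h2 : f (z ⊓ x) ≤ fp f x := le_fp f (le_inf h0 hx) inf_le_right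
    have h3 : f (z - z ⊓ x) ≤ fp f y := by
      refine le_fp f (sub_nonneg.2 inf_le_left) ?_
      have h4 : z - z ⊓ x = (z - x) ⊔ 0 := by
        have h5 := inf_add_sup z x
        have h6 : z ⊔ x = z + x - z ⊓ x := by rw [← h5]; abel
        have h7 : (z - x) ⊔ 0 = z ⊔ x - x := by
          rw [sup_sub (α := X), sub_self]
        rw [h7, h6]; abel
      rw [h4]
      exact sup_le (sub_le_iff_le_add'.2 h1) hy
    rw [map_sub] at h3
    linarith
  · have h1 : ∀ z, 0 ≤ z → z ≤ x → f z ≤ fp f (x + y) - fp f y := by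
      intro z h0 h1
      have h2 : fp f y ≤ fp f (x + y) - f z := fp_le f hy fun z' h0' h1' => by
        have := le_fp f (add_nonneg h0 h0') (add_le_add h1 h1')
        rw [map_add] at this
        linarith
      linarith
    have := fp_le f hx h1
    linarith

theorem fp_smul_le {c : ℝ} (hc : 0 ≤ c) {x : X} (hx : 0 ≤ x) : c * fp f x ≤ fp f (c • x) := by
  rcases hc.eq_or_lt with rfl | hc
  · rw [zero_mul]
    exact fp_nonneg f (by rw [zero_smul])
  · rw [← le_div_iff₀' hc]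
    refine fp_le f hx fun y h0 h1 => ?_
    rw [le_div_iff₀' hc]
    have := le_fp f (smul_nonneg hc.le h0) (smul_le_smul_of_nonneg_left h1 hc.le)
    rwa [map_smul, smul_eq_mul] at this

theorem fp_smul {c : ℝ} (hc : 0 ≤ c) {x : X} (hx : 0 ≤ x) : fp f (c • x) = c * fp f x := by
  refine le_antisymm ?_ (fp_smul_le f hc hx)
  rcases hc.eq_or_lt with rfl | hc
  · rw [zero_mul, zero_smul]
    have := fp_norm_le f (x := 0) le_rfl
    rwa [norm_zero, mul_zero] at this
  · have h1 := fp_smul_le f (inv_nonneg.2 hc.le) (smul_nonneg hc.le hx)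
    rw [smul_smul, inv_mul_cancel₀ hc.ne', one_smul, inv_mul_le_iff₀ hc] at h1
    exact h1

/-- The extension to the whole space. -/
def gf (x : X) : ℝ := fp f x⁺ - fp f x⁻

theorem gf_sub {a b : X} (ha : 0 ≤ a) (hb : 0 ≤ b) : gf f (a - b) = fp f a - fp f b := by
  have h1 : (a - b)⁺ + b = (a - b)⁻ + a := by
    have h2 := posPart_sub_negPart (a - b)
    have h3 : (a - b)⁺ = (a - b)⁻ + (a - b) := sub_eq_iff_eq_add'.1 h2
    rw [h3]; abel
  have h2 := fp_add f (posPart_nonneg (a - b)) hb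
  have h3 := fp_add f (negPart_nonneg (a - b)) ha
  rw [h1, h3] at h2
  rw [gf]
  linarith

theorem eq_parts (x : X) : x = x⁺ - x⁻ := (posPart_sub_negPart x).symm

/-- The positive part of a functional. -/
def GF : X →L[ℝ] ℝ :=
  LinearMap.mkContinuous
    { toFun := gf f
      map_add' := fun x y => by
        have h1 : x + y = (x⁺ + y⁺) - (x⁻ + y⁻) := by
          conv_lhs => rw [eq_parts x, eq_parts y]
          abel
        rw [h1, gf_sub f (add_nonneg (posPart_nonneg _) (posPart_nonneg _))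
          (add_nonneg (negPart_nonneg _) (negPart_nonneg _)),
          fp_add f (posPart_nonneg _) (posPart_nonneg _),
          fp_add f (negPart_nonneg _) (negPart_nonneg _), gf, gf]
        ring
      map_smul' := fun c x => by
        rw [RingHom.id_apply, smul_eq_mul]
        rcases le_total 0 c with hc | hc
        · have h1 : c • x = c • x⁺ - c • x⁻ := by
            conv_lhs => rw [eq_parts x]
            exact smul_sub _ _ _
          rw [h1, gf_sub f (smul_nonneg hc (posPart_nonneg _)) (smul_nonneg hc (negPart_nonneg _)),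
            fp_smul f hc (posPart_nonneg _), fp_smul f hc (negPart_nonneg _), gf]
          ring
        · have hc' : 0 ≤ -c := by linarith
          have h1 : c • x = (-c) • x⁻ - (-c) • x⁺ := by
            conv_lhs => rw [eq_parts x]
            rw [smul_sub, neg_smul, neg_smul]
            abel
          rw [h1, gf_sub f (smul_nonneg hc' (negPart_nonneg _)) (smul_nonneg hc' (posPart_nonneg _)),
            fp_smul f hc' (posPart_nonneg _), fp_smul f hc' (negPart_nonneg _), gf]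
          ring } ‖f‖ fun x => by
    change |fp f x⁺ - fp f x⁻| ≤ _
    have h1 := fp_norm_le f (posPart_nonneg x)
    have h2 := fp_norm_le f (negPart_nonneg x)
    have h3 : ‖x⁺‖ ≤ ‖x‖ := norm_mono (by
      rw [abs_of_nonneg (posPart_nonneg x)]
      exact sup_le (le_abs_self x) (abs_nonneg x))
    have h4 : ‖x⁻‖ ≤ ‖x‖ := norm_mono (by
      rw [abs_of_nonneg (negPart_nonneg x)]
      exact sup_le (neg_le_abs x) (abs_nonneg x))
    have h5 := fp_nonneg f (posPart_nonneg x)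
    have h6 := fp_nonneg f (negPart_nonneg x)
    have h7 := mul_le_mul_of_nonneg_left h3 (norm_nonneg f)
    have h8 := mul_le_mul_of_nonneg_left h4 (norm_nonneg f)
    rw [abs_le]
    constructor <;> linarith

theorem GF_apply {x : X} (hx : 0 ≤ x) : GF f x = fp f x := by
  change fp f x⁺ - fp f x⁻ = _
  have h1 : x⁺ = x := posPart_of_nonneg hx
  have h2 : x⁻ = 0 := negPart_of_nonneg hx
  rw [h1, h2]
  have h3 := fp_norm_le f (x := 0) le_rfl
  rw [norm_zero, mul_zero] at h3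
  have h4 := fp_nonneg f (x := 0) le_rfl
  linarith

theorem GF_nonneg {x : X} (hx : 0 ≤ x) : 0 ≤ GF f x := by
  rw [GF_apply f hx]
  exact fp_nonneg f hx

/-- Order continuity of the positive part. -/
theorem GF_ordCont (hf : OrdCont f) {V : Set X} (hV : Dn V) {ε : ℝ} (hε : 0 < ε) :
    ∃ u ∈ V, GF f u ≤ ε := by
  obtain ⟨v₀, hv₀⟩ := hV.ne
  have hpos : ∀ v ∈ V, 0 ≤ v := fun v hv => hV.glb.1 hv
  obtain ⟨_, ⟨y, hy0, hy1, rfl⟩, hy⟩ := exists_lt_of_lt_csSup ⟨0, iv_zero f (hpos v₀ hv₀)⟩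
    (show fp f v₀ - ε / 2 < sSup (iv f v₀) by change _ < fp f v₀; linarith)
  have hV' : Dn ((fun v => y ⊓ v) '' V) := by
    refine ⟨hV.ne.image _, ?_, ?_, ?_⟩
    · rintro _ ⟨u, hu, rfl⟩ _ ⟨v, hv, rfl⟩
      obtain ⟨w, hw, h1, h2⟩ := hV.dir u hu v hv
      exact ⟨_, ⟨w, hw, rfl⟩, inf_le_inf_left _ h1, inf_le_inf_left _ h2⟩
    · rintro _ ⟨u, hu, rfl⟩
      exact le_inf hy0 (hpos u hu)
    · intro z hz
      refine hV.glb.2 fun v hv => ?_
      exact (hz ⟨v, hv, rfl⟩).trans inf_le_right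
  obtain ⟨_, ⟨v₁, hv₁, rfl⟩, h1⟩ := hf.set hV' (half_pos hε)
  obtain ⟨u, hu, hu0, hu1⟩ := hV.dir v₀ hv₀ v₁ hv₁
  refine ⟨u, hu, ?_⟩
  have h2 := h1 _ ⟨u, hu, rfl⟩ (inf_le_inf_left _ hu1)
  have h3 : f (y - y ⊓ u) ≤ fp f (v₀ - u) := by
    refine le_fp f (sub_nonneg.2 inf_le_left) ?_
    have h4 : y - y ⊓ u = (y - u) ⊔ 0 := by
      have h5 := inf_add_sup y u
      have h6 : y ⊔ u = y + u - y ⊓ u := by rw [← h5]; abel
      have h7 : (y - u) ⊔ 0 = y ⊔ u - u := by rw [sup_sub (α := X), sub_self]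
      rw [h7, h6]; abel
    rw [h4]
    exact sup_le (sub_le_sub_right hy1 _) (sub_nonneg.2 hu0)
  have h4 : GF f u = GF f v₀ - GF f (v₀ - u) := by rw [map_sub]; ring
  rw [GF_apply f (hpos v₀ hv₀), GF_apply f (sub_nonneg.2 hu0)] at h4
  rw [map_sub] at h3
  rw [h4]
  have h5 : f (y ⊓ u) ≤ ε / 2 := (le_abs_self _).trans h2
  linarith

end pos

/-! ### Homomorphisms into `ℓ_1` -/

/-- Coordinates on `ℓ_1`. -/
def cf (j : ℕ) : ellOne →L[ℝ] realLat :=
  LinearMap.mkContinuous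
    { toFun := fun x => ((show Sp ellOneSpec from x) j : ℝ)
      map_add' := fun x y => rfl
      map_smul' := fun c x => rfl } 1 fun x => by
    rw [one_mul]
    exact Sp.apply_le (show Sp ellOneSpec from x) j

theorem cf_hom (j : ℕ) : IsLatHom (cf j) := fun x => rfl

theorem cf_e (i j : ℕ) : cf j (ellOne_l1Like.e i : ellOne) = if j = i then (1 : ℝ) else 0 :=
  L1Like.e_apply ellOne_l1Like i j

theorem norm_e (j : ℕ) : ‖(ellOne_l1Like.e j : ellOne)‖ ≤ 1 := by
  rw [ellOne_norm, tsum_eq_single j fun i hi => by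
    rw [L1Like.e_apply, if_neg hi, abs_zero]]
  rw [L1Like.e_apply, if_pos rfl, abs_one]

/-- Finitely supported vectors. -/
def vv {k : ℕ} (t : Fin k → ℝ) : ellOne := ∑ j : Fin k, t j • (ellOne_l1Like.e j : ellOne)

theorem vv_norm {k : ℕ} (t : Fin k → ℝ) : ‖vv t‖ ≤ ∑ j, |t j| := by
  refine (norm_sum_le _ _).trans (Finset.sum_le_sum fun j _ => ?_)
  rw [norm_smul, Real.norm_eq_abs]
  exact (mul_le_mul_of_nonneg_left (norm_e j) (abs_nonneg _)).trans (mul_one _).le

theorem vv_cf {k : ℕ} (t : Fin k → ℝ) (i : Fin k) : cf i (vv t) = t i := by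
  rw [vv, map_sum]
  have h : ∀ j : Fin k, cf i (t j • (ellOne_l1Like.e j : ellOne)) =
      if j = i then t i else (0 : ℝ) := by
    intro j
    have h1 : cf i (t j • (ellOne_l1Like.e j : ellOne)) =
      t j * cf i (ellOne_l1Like.e j : ellOne) := rfl
    rw [h1, cf_e]
    change t j * (if (i : ℕ) = j then (1 : ℝ) else 0) = _
    by_cases h2 : j = i
    · subst h2; simp
    · rw [if_neg h2, if_neg (fun h3 => h2 (Fin.ext h3.symm)), mul_zero]
  rw [Finset.sum_congr rfl fun j _ => h j]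
  change ∑ x : Fin k, (if x = i then t i else (0 : ℝ)) = t i
  rw [Finset.sum_ite_eq' Finset.univ i, if_pos (Finset.mem_univ _)]

theorem sum_cf_le {k : ℕ} (x : ellOne) : ∑ j : Fin k, |(cf j x : ℝ)| ≤ ‖x‖ := by
  have h2 := Sp.sum_le_norm (P := ellOneSpec) (show Sp ellOneSpec from x)
    (F := Finset.range k) (Set.mem_univ _)
  rw [Finset.sum_range] at h2
  exact h2

/-! ### Approximation of positive functionals -/

section approx

variable {X : BLat} {v : X} (hv : 0 ≤ v)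

/-- The vectors of values of positive combinations of homomorphisms. -/
def cone {r : ℕ} (x : Fin r → PV v) : Set (Fin r → ℝ) :=
  {t | ∃ (k : ℕ) (c : Fin k → ℝ) (φ : Fin k → (PV v →ₗ[ℝ] ℝ)), (∀ j, 0 ≤ c j) ∧
    (∀ j, IsHom (uu v hv) (φ j)) ∧ ∀ l, t l = ∑ j, c j * φ j (x l)}

theorem cone_add {r : ℕ} {x : Fin r → PV v} {t t' : Fin r → ℝ} (h : t ∈ cone hv x)
    (h' : t' ∈ cone hv x) : t + t' ∈ cone hv x := by
  obtain ⟨k, c, φ, hc, hφ, ht⟩ := h
  obtain ⟨k', c', φ', hc', hφ', ht'⟩ := h'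
  refine ⟨k + k', Fin.append c c', Fin.append φ φ', ?_, ?_, fun l => ?_⟩
  · intro j
    refine Fin.addCases (fun i => ?_) (fun i => ?_) j
    · rw [Fin.append_left]; exact hc i
    · rw [Fin.append_right]; exact hc' i
  · intro j
    refine Fin.addCases (fun i => ?_) (fun i => ?_) j
    · rw [Fin.append_left]; exact hφ i
    · rw [Fin.append_right]; exact hφ' i
  · rw [Fin.sum_univ_add]
    simp only [Fin.append_left, Fin.append_right]
    rw [Pi.add_apply, ht, ht']

theorem cone_smul {r : ℕ} {x : Fin r → PV v} {t : Fin r → ℝ} (h : t ∈ cone hv x)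
    {a : ℝ} (ha : 0 ≤ a) : a • t ∈ cone hv x := by
  obtain ⟨k, c, φ, hc, hφ, ht⟩ := h
  refine ⟨k, fun j => a * c j, φ, fun j => mul_nonneg ha (hc j), hφ, fun l => ?_⟩
  rw [Pi.smul_apply, ht, smul_eq_mul, Finset.mul_sum]
  exact Finset.sum_congr rfl fun j _ => by ring

theorem cone_zero {r : ℕ} {x : Fin r → PV v} : (0 : Fin r → ℝ) ∈ cone hv x :=
  ⟨0, Fin.elim0, Fin.elim0, fun j => j.elim0, fun j => j.elim0, fun l => by simp⟩

theorem mem_closure_cone {r : ℕ} (x : Fin r → PV v) {μ : X →L[ℝ] ℝ}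
    (hμ : ∀ y, 0 ≤ y → 0 ≤ μ y) : (fun l => μ (x l).1) ∈ closure (cone hv x) := by
  by_contra hcon
  have hconv : Convex ℝ (cone hv x) := by
    intro a ha b hb s t hs ht _
    exact cone_add hv (cone_smul hv ha hs) (cone_smul hv hb ht)
  obtain ⟨α, u, h1, h2⟩ := geometric_hahn_banach_point_closed hconv.closure isClosed_closure hcon
  have h3 : u < 0 := by
    have := h2 0 (subset_closure (cone_zero hv))
    rwa [map_zero] at this
  have h4 : ∀ t ∈ cone hv x, 0 ≤ α t := by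
    intro t ht
    by_contra hneg
    push Not at hneg
    have h5 := h2 _ (subset_closure (cone_smul hv ht (a := u / α t)
      (div_nonneg_of_nonpos h3.le hneg.le)))
    rw [map_smul, smul_eq_mul, div_mul_cancel₀ _ hneg.ne] at h5
    exact lt_irrefl _ h5
  have hα : ∀ t : Fin r → ℝ, α t = ∑ l, t l * α (Pi.single l 1) := by
    intro t
    conv_lhs => rw [show t = ∑ l, t l • (Pi.single l (1 : ℝ) : Fin r → ℝ) by
      funext i
      rw [Finset.sum_apply]
      simp [Pi.single_apply]]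
    rw [map_sum]
    exact Finset.sum_congr rfl fun l _ => by rw [map_smul, smul_eq_mul]
  -- the combination is nonnegative
  set y : PV v := ∑ l, α (Pi.single l 1) • x l with hy
  have hy0 : (0 : PV v) ≤ y := by
    refine PV.le_of_hom hv fun φ hφ => ?_
    rw [map_zero, hy, map_sum]
    have h5 := h4 (fun l => φ (x l)) ⟨1, fun _ => 1, fun _ => φ, fun _ => zero_le_one,
      fun _ => hφ, fun l => by simp⟩
    rw [hα] at h5
    refine h5.trans (le_of_eq (Finset.sum_congr rfl fun l _ => ?_))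
    rw [map_smul, smul_eq_mul, mul_comm]
  have h5 := hμ y.1 hy0
  have h6 : μ y.1 = ∑ l, μ (x l).1 * α (Pi.single l 1) := by
    have h7 : y.1 = ∑ l, α (Pi.single l 1) • (x l).1 := by
      have h8 := map_sum (inc v) (fun l => α (Pi.single l 1) • x l) Finset.univ
      exact h8
    rw [h7, map_sum]
    exact Finset.sum_congr rfl fun l _ => by rw [map_smul, smul_eq_mul, mul_comm]
  rw [h6, ← hα] at h5
  linarith

end approx

theorem supp_finite {Γ : Type} (w : Tm Γ) : (supp w).Finite := by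
  induction w with
  | zero => exact Set.finite_empty
  | gen γ => exact Set.finite_singleton γ
  | add u v hu hv => exact hu.union hv
  | smul c u hu => exact hu
  | abs u hu => exact hu

section pv

variable {X : BLat} {v : X} (hv : 0 ≤ v) {Γ : Type} {S : Set Γ}

/-- Evaluation inside a principal ideal. -/
theorem exists_evalPV (δ : Γ → X) (d : Γ → PV v) (hd : ∀ γ ∈ S, (d γ).1 = δ γ) (w : Tm Γ)
    (hw : supp w ⊆ S) : ∃ y : PV v, y.1 = eval X δ w ∧
      ∀ (φ : PV v →ₗ[ℝ] ℝ), IsHom (uu v hv) φ → ∀ c : ℝ, 0 ≤ c →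
        eval realLat (fun γ => c * φ (d γ)) w = c * φ y := by
  induction w with
  | zero => exact ⟨0, rfl, fun φ hφ c hc => by rw [map_zero, mul_zero]; rfl⟩
  | gen γ => exact ⟨d γ, hd γ (hw rfl), fun φ hφ c hc => rfl⟩
  | add a b ha hb =>
    obtain ⟨y, hy, h1⟩ := ha fun γ hγ => hw (Or.inl hγ)
    obtain ⟨z, hz, h2⟩ := hb fun γ hγ => hw (Or.inr hγ)
    refine ⟨y + z, ?_, fun φ hφ c hc => ?_⟩
    · change y.1 + z.1 = _ + _
      rw [hy, hz]
    · change eval realLat (fun γ => c * φ (d γ)) a + eval realLat (fun γ => c * φ (d γ)) b = _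
      rw [h1 φ hφ c hc, h2 φ hφ c hc, map_add, mul_add]
  | smul r a ha =>
    obtain ⟨y, hy, h1⟩ := ha hw
    refine ⟨r • y, ?_, fun φ hφ c hc => ?_⟩
    · change r • y.1 = r • _
      rw [hy]
    · change (r * eval realLat (fun γ => c * φ (d γ)) a : ℝ) = _
      rw [h1 φ hφ c hc, map_smul, smul_eq_mul]
      ring
  | abs a ha =>
    obtain ⟨y, hy, h1⟩ := ha hw
    refine ⟨|y|, ?_, fun φ hφ c hc => ?_⟩
    · change |y.1| = |_|
      rw [hy]
    · change |(eval realLat (fun γ => c * φ (d γ)) a : ℝ)| = _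
      rw [h1 φ hφ c hc, hφ.abs, abs_mul, abs_of_nonneg hc]

end pv

/-- `F` is a free Banach lattice with generators `δ`. -/
structure Free' {A : Type} {F : BLat} (δ : A → F) : Prop where
  norm_le : ∀ a, ‖δ a‖ ≤ 1
  dense : ∀ x : F, x ∈ closure (Set.range (eval F δ))
  lift : ∀ (X : BLat) (g : A → X) (c : ℝ), 0 ≤ c → (∀ a, ‖g a‖ ≤ c) →
    ∃ T : F →L[ℝ] X, IsLatHom T ∧ (∀ a, T (δ a) = g a) ∧ ‖T‖ ≤ c

theorem free_PP (A : Type) : Free' (pp A False) where
  norm_le a := (pp_adm A False a).2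
  dense x := dense_eval A False x
  lift X g c hc hg := exists_hom (b := False) g hc fun a => ⟨fun h => h.elim, hg a⟩

/-- Approximation of positive functionals on free Banach lattices by homomorphisms into `ℓ_1`. -/
theorem exists_approx {A : Type} {F : BLat} {δ : A → F} (hF : Free' δ) {μ : F →L[ℝ] ℝ} (hμ : ∀ y, 0 ≤ y → 0 ≤ μ y) (w : Tm A)
    {ε : ℝ} (hε : 0 < ε) (hε1 : ε ≤ 1) : ∃ Θ : F →L[ℝ] ellOne, IsLatHom Θ ∧
      ‖Θ‖ ≤ ‖μ‖ + 1 ∧
      μ |eval F δ w| ≤ ‖Θ (eval F δ w)‖ + ε := by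
  classical
  set S : Finset A := (supp_finite w).toFinset with hS
  have hSw : supp w ⊆ (S : Set A) := by rw [hS]; simp
  set v : F := ∑ a ∈ S, |δ a| with hv
  have hv0 : 0 ≤ v := Finset.sum_nonneg fun a _ => abs_nonneg _
  have hle : ∀ a ∈ S, |δ a| ≤ v := fun a ha =>
    Finset.single_le_sum (f := fun a => |δ a|) (fun b _ => abs_nonneg _) ha
  have hmem : ∀ a ∈ S, δ a ∈ pI v := fun a ha => ⟨1, by rw [one_smul]; exact hle a ha⟩
  set d : A → PV v := fun a => if h : a ∈ S then ⟨δ a, hmem a h⟩ else 0 with hd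
  have hdS : ∀ a ∈ (S : Set A), (d a).1 = δ a := fun a ha => by
    rw [hd]
    change (if h : a ∈ S then (⟨δ a, hmem a h⟩ : PV v) else 0).1 = δ a
    rw [dif_pos (Finset.mem_coe.1 ha)]
  have hd0 : ∀ a, a ∉ S → d a = 0 := fun a ha => by
    rw [hd]
    change (if h : a ∈ S then (⟨δ a, hmem a h⟩ : PV v) else 0) = 0
    rw [dif_neg ha]
  obtain ⟨y, hy, hyφ⟩ := exists_evalPV hv0 δ d hdS w hSw
  -- enumeration of `S`
  set e := S.equivFin with he
  set x : Fin (S.card + 1) → PV v := Fin.cons |y| (fun i => |d (e.symm i).1|) with hx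
  have hx0 : x 0 = |y| := rfl
  have hxs : ∀ i : Fin S.card, x i.succ = |d (e.symm i).1| := fun i => rfl
  obtain ⟨t, ⟨k, c, φ, hc, hφ, ht⟩, hdist⟩ := Metric.mem_closure_iff.1
    (mem_closure_cone hv0 x hμ) ε hε
  have hcoord : ∀ l, |μ (x l).1 - t l| ≤ ε := fun l => by
    have h1 := dist_le_pi_dist (fun l => μ (x l).1) t l
    rw [Real.dist_eq] at h1
    exact h1.trans hdist.le
  -- the homomorphism
  have hbound : ∀ a, ∑ j, |c j * φ j (d a)| ≤ ‖μ‖ + 1 := by
    intro a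
    have h1 : ∀ j, |c j * φ j (d a)| = c j * φ j |d a| := fun j => by
      rw [abs_mul, abs_of_nonneg (hc j), (hφ j).abs]
    rw [Finset.sum_congr rfl fun j _ => h1 j]
    by_cases ha : a ∈ S
    · have h2 : ∑ j, c j * φ j |d a| = t (e ⟨a, ha⟩).succ := by
        rw [ht, hxs, Equiv.symm_apply_apply]
      have h3 := hcoord (e ⟨a, ha⟩).succ
      rw [hxs, Equiv.symm_apply_apply] at h3
      have h4 : μ (|d a| : PV v).1 ≤ ‖μ‖ := by
        have h5 : (|d a| : PV v).1 = |δ a| := by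
          change |(d a).1| = _
          rw [hdS a ha]
        rw [h5]
        refine (le_abs_self _).trans ((μ.le_opNorm _).trans ?_)
        rw [norm_abs_eq_norm]
        exact (mul_le_mul_of_nonneg_left (hF.norm_le a)
          (ContinuousLinearMap.opNorm_nonneg _)).trans (mul_one _).le
      rw [h2]
      rw [abs_le] at h3
      change -ε ≤ μ (|d a| : PV v).1 - _ ∧ μ (|d a| : PV v).1 - _ ≤ ε at h3
      linarith [h3.1]
    · rw [hd0 a ha]
      have h2 : ∀ j, c j * φ j |(0 : PV v)| = 0 := fun j => by rw [abs_zero, map_zero, mul_zero]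
      rw [Finset.sum_congr rfl fun j _ => h2 j, Finset.sum_const_zero]
      have := ContinuousLinearMap.opNorm_nonneg μ
      linarith
  obtain ⟨Θ, hΘ, h1, h2⟩ := hF.lift ellOne
    (fun a => vv fun j => c j * φ j (d a)) (‖μ‖ + 1)
    (add_nonneg (ContinuousLinearMap.opNorm_nonneg μ) zero_le_one) fun a =>
      (vv_norm _).trans (hbound a)
  refine ⟨Θ, hΘ, h2, ?_⟩
  have h3 : ∀ j : Fin k, (cf j (Θ (eval F δ w)) : ℝ) = c j * φ j y := by
    intro j
    have h4 := map_eval ((cf_hom j).comp hΘ) δ w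
    rw [ContinuousLinearMap.comp_apply] at h4
    rw [h4, ← hyφ (φ j) (hφ j) (c j) (hc j)]
    congr 1
    funext a
    rw [ContinuousLinearMap.comp_apply, h1, vv_cf]
  have h4 := sum_cf_le (k := k) (Θ (eval F δ w))
  rw [Finset.sum_congr rfl fun j _ => by rw [h3 j]] at h4
  have h5 : ∑ j, |c j * φ j y| = t 0 := by
    rw [ht, hx0]
    exact Finset.sum_congr rfl fun j _ => by
      rw [abs_mul, abs_of_nonneg (hc j), (hφ j).abs]
  have h6 := hcoord 0
  rw [hx0] at h6
  have h7 : (|y| : PV v).1 = |eval F δ w| := by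
    change |y.1| = _
    rw [hy]
  rw [h7, abs_le] at h6
  rw [h5] at h4
  linarith [h6.2]

/-- The version for arbitrary elements. -/
theorem exists_approx' {A : Type} {F : BLat} {δ : A → F} (hF : Free' δ) {μ : F →L[ℝ] ℝ} (hμ : ∀ y, 0 ≤ y → 0 ≤ μ y)
    (z : F) {ε : ℝ} (hε : 0 < ε) : ∃ Θ : F →L[ℝ] ellOne, IsLatHom Θ ∧
      ‖Θ‖ ≤ ‖μ‖ + 1 ∧ μ |z| ≤ ‖Θ z‖ + ε := by
  have hM : 0 ≤ ‖μ‖ := ContinuousLinearMap.opNorm_nonneg μ
  set η := min (ε / 2) 1 with hη
  have hη0 : 0 < η := lt_min (by linarith) one_pos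
  set ρ := ε / (4 * (‖μ‖ + 1)) with hρ
  have hρ0 : 0 < ρ := by positivity
  obtain ⟨_, ⟨w, rfl⟩, hzw⟩ := Metric.mem_closure_iff.1 (hF.dense z) ρ hρ0
  obtain ⟨Θ, hΘ, h1, h2⟩ := exists_approx hF hμ w hη0 (min_le_right _ _)
  refine ⟨Θ, hΘ, h1, ?_⟩
  set x := eval F δ w with hx
  rw [dist_eq_norm] at hzw
  have h3 : μ |z| - μ |x| ≤ (‖μ‖ + 1) * ρ := by
    rw [← map_sub]
    refine (le_abs_self _).trans ((μ.le_opNorm _).trans ?_)
    refine mul_le_mul (by linarith) ?_ (norm_nonneg _) (by linarith)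
    exact (norm_mono (abs_abs_sub_abs_le z x)).trans hzw.le
  have h4 : ‖Θ x‖ ≤ ‖Θ z‖ + (‖μ‖ + 1) * ρ := by
    have h5 : Θ x = Θ z - Θ (z - x) := by rw [map_sub]; abel
    rw [h5]
    refine (norm_sub_le _ _).trans (add_le_add_right ?_ _)
    exact (Θ.le_opNorm _).trans (mul_le_mul h1 hzw.le (norm_nonneg _) (by linarith))
  have h5 : (‖μ‖ + 1) * ρ = ε / 4 := by
    rw [hρ]; field_simp
  have h6 : η ≤ ε / 2 := min_le_left _ _
  linarith

end Pool.Agent.V1198.PJ
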