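import Pool.Agent.V1198.SemiP

/-!
# Reduction of lifting problems to separable Banach lattices
-/

set_option autoImplicit false
set_option linter.unusedSectionVars false

noncomputable section

open Filter Topology

namespace Pool.Agent.V1198.YS

open Pool.Agent.V1198.BL

section closing

variable {X : BLat} (b : ℕ → X) (g : X → ℕ → X)

/-- The stages of the closing-off process. -/
def stage : ℕ → Set X
  | 0 => Set.range b
  | m + 1 => stage m ∪ Set.image2 (fun x y => x + y) (stage m) (stage m) ∪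
      Set.image2 (fun (r : ℚ) x => (r : ℝ) • x) Set.univ (stage m) ∪
      (fun x => |x|) '' stage m ∪ Set.image2 g (stage m) Set.univ

theorem stage_countable (m : ℕ) : (stage b g m).Countable := by
  induction m with
  | zero => exact Set.countable_range b
  | succ m ih =>
    exact (((ih.union (ih.image2 ih _)).union (Set.countable_univ.image2 ih _)).union
      (ih.image _)).union (ih.image2 Set.countable_univ _)

theorem stage_mono : Monotone (stage b g) :=
  monotone_nat_of_le_succ fun _ _ hx =>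
    Or.inl (Or.inl (Or.inl (Or.inl hx)))

/-- The closed-off countable set. -/
def clo : Set X := ⋃ m, stage b g m

theorem clo_countable : (clo b g).Countable := Set.countable_iUnion (stage_countable b g)

theorem clo_base (i : ℕ) : b i ∈ clo b g := Set.mem_iUnion.2 ⟨0, i, rfl⟩

theorem clo_add {x y : X} (hx : x ∈ clo b g) (hy : y ∈ clo b g) : x + y ∈ clo b g := by
  obtain ⟨m, hm⟩ := Set.mem_iUnion.1 hx
  obtain ⟨k, hk⟩ := Set.mem_iUnion.1 hy
  refine Set.mem_iUnion.2 ⟨max m k + 1, Or.inl (Or.inl (Or.inl (Or.inr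
    ⟨x, stage_mono b g (le_max_left m k) hm, y, stage_mono b g (le_max_right m k) hk, rfl⟩)))⟩

theorem clo_smul (r : ℚ) {x : X} (hx : x ∈ clo b g) : (r : ℝ) • x ∈ clo b g := by
  obtain ⟨m, hm⟩ := Set.mem_iUnion.1 hx
  exact Set.mem_iUnion.2 ⟨m + 1, Or.inl (Or.inl (Or.inr ⟨r, trivial, x, hm, rfl⟩))⟩

theorem clo_abs {x : X} (hx : x ∈ clo b g) : |x| ∈ clo b g := by
  obtain ⟨m, hm⟩ := Set.mem_iUnion.1 hx
  exact Set.mem_iUnion.2 ⟨m + 1, Or.inl (Or.inr ⟨x, hm, rfl⟩)⟩

theorem clo_g {x : X} (hx : x ∈ clo b g) (l : ℕ) : g x l ∈ clo b g := by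
  obtain ⟨m, hm⟩ := Set.mem_iUnion.1 hx
  exact Set.mem_iUnion.2 ⟨m + 1, Or.inr ⟨x, hm, l, trivial, rfl⟩⟩

/-- The closed sublattice generated. -/
def cloSub : Submodule ℝ X where
  carrier := closure (clo b g)
  zero_mem' := by
    have h := clo_smul b g 0 (clo_base b g 0)
    rw [Rat.cast_zero, zero_smul] at h
    exact subset_closure h
  add_mem' := fun {x y} hx hy =>
    map_mem_closure₂ continuous_add hx hy fun a ha c hc => clo_add b g ha hc
  smul_mem' := fun r x hx => by
    have hr : r ∈ closure (Set.range ((↑) : ℚ → ℝ)) := by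
      rw [Rat.denseRange_cast.closure_range]
      trivial
    exact map_mem_closure₂ continuous_smul hr hx fun a ha c hc => by
      obtain ⟨t, rfl⟩ := ha
      exact clo_smul b g t hc

theorem cloSub_closed : IsClosed (cloSub b g : Set X) := isClosed_closure

theorem cloSub_abs (x : X) (hx : x ∈ cloSub b g) : |x| ∈ cloSub b g :=
  map_mem_closure (continuous_id.sup continuous_neg) hx fun _ ha => clo_abs b g ha

/-- The generated closed sublattice as a Banach lattice. -/
abbrev cloLat : BLat := subLat (cloSub b g) (cloSub_closed b g) (cloSub_abs b g)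

theorem cloLat_sep : TopologicalSpace.SeparableSpace (cloLat b g) :=
  (clo_countable b g).isSeparable.closure.separableSpace

end closing

/-- Every lifting problem with a separable domain reduces to a separable one. -/
theorem exists_sep_reduction {A X Y : BLat} [TopologicalSpace.SeparableSpace A] {q : X →L[ℝ] Y}
    (hq : IsQuot q) {T : A →L[ℝ] Y} (hT : IsLatHom T) :
    ∃ (X0 Y0 : BLat) (q0 : X0 →L[ℝ] Y0) (i : X0 →L[ℝ] X) (j : Y0 →L[ℝ] Y) (T0 : A →L[ℝ] Y0),
      TopologicalSpace.SeparableSpace X0 ∧ IsQuot q0 ∧ IsLatHom i ∧ (∀ x, ‖i x‖ = ‖x‖) ∧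
      (∀ y, ‖j y‖ = ‖y‖) ∧ q.comp i = j.comp q0 ∧ j.comp T0 = T ∧ IsLatHom T0 := by
  set d := TopologicalSpace.denseSeq A with hd
  have hdr : DenseRange d := TopologicalSpace.denseRange_denseSeq A
  have hb : ∀ i, ∃ x, q x = T (d i) := fun i => hq.2.1 _
  choose b hb using hb
  have hg : ∀ (x : X) (l : ℕ), ∃ z, q z = q x ∧ ‖z‖ < ‖q x‖ + 1 / ((l : ℝ) + 1) := fun x l =>
    hq.exists_lift (q x) (by positivity)
  choose g hg1 hg2 using hg
  -- good lifts inside the generated sublattice
  have hlift : ∀ x ∈ cloSub b g, ∀ ε : ℝ, 0 < ε → ∃ z ∈ cloSub b g, q z = q x ∧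
      ‖z‖ ≤ ‖q x‖ + ε := by
    intro x hx ε hε
    obtain ⟨c, hc, hxc⟩ := Metric.mem_closure_iff.1 (show x ∈ closure (clo b g) from hx) (ε / 4)
      (by linarith)
    obtain ⟨l, hl⟩ := exists_nat_one_div_lt (show 0 < ε / 4 by linarith)
    refine ⟨g c l + (x - c), (cloSub b g).add_mem (subset_closure (clo_g b g hc l))
      ((cloSub b g).sub_mem hx (subset_closure hc)), ?_, ?_⟩
    · rw [map_add, map_sub, hg1]
      abel
    · rw [dist_eq_norm] at hxc
      have h1 := hg2 c l
      have h2 := norm_add_le (g c l) (x - c)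
      have h3 : ‖q c‖ ≤ ‖q x‖ + ‖x - c‖ := by
        have h4 : q c = q x - q (x - c) := by rw [map_sub]; abel
        rw [h4]
        refine (norm_sub_le _ _).trans ?_
        have := hq.norm_apply_le (x - c)
        linarith
      linarith
  -- the image is closed
  let f : NormedAddGroupHom (cloLat b g) Y :=
    { toFun := fun x => q x.1
      map_add' := fun x y => map_add q x.1 y.1
      bound' := ⟨1, fun x => by rw [one_mul]; exact hq.norm_apply_le x.1⟩ }
  let K : Submodule ℝ Y := (cloSub b g).map q.toLinearMap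
  have hKs : ∀ δ : ℝ, 0 < δ → f.SurjectiveOnWith K.toAddSubgroup (1 + δ) := by
    intro δ hδ y hy
    obtain ⟨x, hx, rfl⟩ := hy
    by_cases h0 : q x = 0
    · refine ⟨0, ?_, ?_⟩
      · change q (0 : X) = q x
        rw [map_zero, h0]
      · rw [norm_zero]
        positivity
    · have h1 : 0 < ‖q x‖ := norm_pos_iff.2 h0
      obtain ⟨z, hz, hqz, hzn⟩ := hlift x hx (δ * ‖q x‖) (by positivity)
      refine ⟨⟨z, hz⟩, hqz, ?_⟩
      change ‖z‖ ≤ (1 + δ) * ‖q x‖
      linarith
  have hKc : IsClosed (K : Set Y) := by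
    have hcomp : CompleteSpace (cloSub b g) := (cloSub_closed b g).completeSpace_coe
    have h1 := controlled_closure_of_complete (f := f) (K := K.toAddSubgroup)
      (show (0 : ℝ) < 1 + 1 by norm_num) one_pos (hKs 1 one_pos)
    refine isClosed_of_closure_subset fun y hy => ?_
    obtain ⟨x, hx, -⟩ := h1 y hy
    exact ⟨x.1, x.2, hx⟩
  have hKabs : ∀ y ∈ K, |y| ∈ K := by
    rintro _ ⟨x, hx, rfl⟩
    exact ⟨|x|, cloSub_abs b g x hx, hq.1 x⟩
  let Y0 : BLat := subLat K hKc hKabs
  let q0 : cloLat b g →L[ℝ] Y0 :=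
    LinearMap.mkContinuous
      { toFun := fun x => (⟨q x.1, x.1, x.2, rfl⟩ : K)
        map_add' := fun x y => Subtype.ext (map_add q x.1 y.1)
        map_smul' := fun c x => Subtype.ext (map_smul q c x.1) } 1 fun x => by
      rw [one_mul]
      exact hq.norm_apply_le x.1
  have hq0 : IsQuot q0 := by
    refine isQuot_of' (fun x => Subtype.ext (hq.1 x.1)) (fun x => hq.norm_apply_le x.1) ?_
    rintro ⟨y, x, hx, rfl⟩ ε hε
    obtain ⟨z, hz, hqz, hzn⟩ := hlift x hx ε hε
    exact ⟨⟨z, hz⟩, Subtype.ext hqz, hzn⟩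
  have hTK : ∀ a, T a ∈ K := by
    intro a
    have h1 : ∀ a, T a ∈ (K : Set Y) := fun a =>
      hdr.induction_on (p := fun a => T a ∈ (K : Set Y)) a (hKc.preimage T.continuous) fun i =>
        ⟨b i, subset_closure (clo_base b g i), hb i⟩
    exact h1 a
  let T0 : A →L[ℝ] Y0 := T.codRestrict K hTK
  exact ⟨cloLat b g, Y0, q0, (cloSub b g).subtypeL, K.subtypeL, T0, cloLat_sep b g, hq0,
    fun x => rfl, fun x => rfl, fun y => rfl, rfl, rfl, fun a => Subtype.ext (hT a)⟩

/-- Semiprojectivity implies projectivity for separable Banach lattices. -/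
theorem projective_of_semiprojective {A : BLat} (hs : TopologicalSpace.SeparableSpace A)
    (hA : Semiprojective A) : Projective A := by
  intro X Y q hq T hT ε hε
  obtain ⟨X0, Y0, q0, i, j, T0, hX0, hq0, hi, hin, hjn, hqi, hjT, hT0⟩ :=
    exists_sep_reduction hq hT
  have hT0n : ‖T0‖ = ‖T‖ := by
    refine le_antisymm ?_ ?_
    · refine ContinuousLinearMap.opNorm_le_bound _ (norm_nonneg _) fun a => ?_
      rw [← hjn, ← ContinuousLinearMap.comp_apply, hjT]
      exact T.le_opNorm a
    · refine ContinuousLinearMap.opNorm_le_bound _ (norm_nonneg _) fun a => ?_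
      rw [← hjT, ContinuousLinearMap.comp_apply, hjn]
      exact T0.le_opNorm a
  have hiN : ‖i‖ ≤ 1 := ContinuousLinearMap.opNorm_le_bound _ zero_le_one fun x => by
    rw [hin, one_mul]
  by_cases h0 : T = 0
  · refine ⟨0, fun x => by simp, ?_, ?_⟩
    · rw [h0, ContinuousLinearMap.comp_zero]
    · rw [norm_zero]
      positivity
  · have hTpos : 0 < ‖T‖ := norm_pos_iff.2 h0
    have hT1 : IsLatHom (‖T‖⁻¹ • T0) := hT0.smul (inv_pos.2 hTpos).le
    have hT2 : ‖‖T‖⁻¹ • T0‖ ≤ 1 := by
      rw [norm_smul, norm_inv, norm_norm, hT0n, inv_mul_cancel₀ hTpos.ne']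
    obtain ⟨S, hS1, hS2, hS3⟩ := lift_sep hA hq0 hT1 hT2 hε
    refine ⟨‖T‖ • i.comp S, (hi.comp hS1).smul hTpos.le, ?_, ?_⟩
    · rw [ContinuousLinearMap.comp_smul, ← ContinuousLinearMap.comp_assoc, hqi,
        ContinuousLinearMap.comp_assoc, hS2, ContinuousLinearMap.comp_smul, hjT, smul_smul,
        mul_inv_cancel₀ hTpos.ne', one_smul]
    · rw [norm_smul, norm_norm, mul_comm]
      refine mul_le_mul_of_nonneg_right ?_ hTpos.le
      refine (ContinuousLinearMap.opNorm_comp_le _ _).trans ?_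
      calc ‖i‖ * ‖S‖ ≤ 1 * (1 + ε) := mul_le_mul hiN hS3 (norm_nonneg _) zero_le_one
        _ = 1 + ε := one_mul _

end Pool.Agent.V1198.YS
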