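import Pool.Agent.V1198.PJ1
import Pool.Agent.V1198.SemiP2

/-!
# Projective Banach lattices: retracts of free lattices, separable retracts
-/

set_option autoImplicit false
set_option linter.unusedSectionVars false
set_option linter.unusedVariables false

noncomputable section

open Filter Topology

namespace Pool.Agent.V1198.PJ

open Pool.Agent.V1198.BL Pool.Agent.V1198.YS Pool.Agent.V1198.FP

/-! ### Elements with small support -/

section FS

variable {A : Type} {F : BLat} {δ : A → F}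

/-- The closed sublattice generated by the generators in `S`. -/
def FS (δ : A → F) (S : Set A) : Set F := closure {z | ∃ w : Tm A, supp w ⊆ S ∧ z = eval F δ w}

theorem FS_mono {S S' : Set A} (h : S ⊆ S') : FS δ S ⊆ FS δ S' :=
  closure_mono (by rintro _ ⟨w, hw, rfl⟩; exact ⟨w, hw.trans h, rfl⟩)

theorem exists_supp (hF : Free' δ) (z : F) : ∃ S : Set A, S.Countable ∧ z ∈ FS δ S := by
  obtain ⟨s, hs, hse⟩ := mem_closure_iff_seq_limit.1 (hF.dense z)
  choose w hw using hs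
  refine ⟨⋃ n, supp (w n), Set.countable_iUnion fun n => supp_countable _, ?_⟩
  exact mem_closure_iff_seq_limit.2 ⟨s, fun n => ⟨w n, Set.subset_iUnion (fun n => supp (w n)) n,
    (hw n).symm⟩, hse⟩

theorem eval_congr {X : BLat} {g g' : A → X} (w : Tm A) (h : ∀ γ ∈ supp w, g γ = g' γ) :
    eval X g w = eval X g' w := by
  induction w with
  | zero => rfl
  | gen γ => exact h γ rfl
  | add u v hu hv =>
    change eval X g u + eval X g v = eval X g' u + eval X g' v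
    rw [hu fun γ hγ => h γ (Or.inl hγ), hv fun γ hγ => h γ (Or.inr hγ)]
  | smul c u hu =>
    change c • eval X g u = c • eval X g' u
    rw [hu h]
  | abs u hu =>
    change |eval X g u| = |eval X g' u|
    rw [hu h]

theorem eval_mem {X : BLat} {g : A → X} {K : Submodule ℝ X} (hK : ∀ x ∈ K, |x| ∈ K) (w : Tm A)
    (h : ∀ γ ∈ supp w, g γ ∈ K) : eval X g w ∈ K := by
  induction w with
  | zero => exact K.zero_mem
  | gen γ => exact h γ rfl
  | add u v hu hv =>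
    exact K.add_mem (hu fun γ hγ => h γ (Or.inl hγ)) (hv fun γ hγ => h γ (Or.inr hγ))
  | smul c u hu => exact K.smul_mem c (hu h)
  | abs u hu => exact hK _ (hu h)

theorem hom_agree {X : BLat} {T T' : F →L[ℝ] X} (hT : IsLatHom T) (hT' : IsLatHom T')
    {S : Set A} (h : ∀ a ∈ S, T (δ a) = T' (δ a)) {z : F} (hz : z ∈ FS δ S) : T z = T' z := by
  have hc : IsClosed {x | T x = T' x} := isClosed_eq T.continuous T'.continuous
  refine closure_minimal (t := {x | T x = T' x}) ?_ hc hz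
  rintro _ ⟨w, hw, rfl⟩
  change T _ = T' _
  rw [map_eval hT, map_eval hT']
  exact eval_congr w fun γ hγ => h γ (hw hγ)

theorem hom_range {X : BLat} {T : F →L[ℝ] X} (hT : IsLatHom T) {K : Submodule ℝ X}
    (hKc : IsClosed (K : Set X)) (hK : ∀ x ∈ K, |x| ∈ K) {S : Set A} (h : ∀ a ∈ S, T (δ a) ∈ K)
    {z : F} (hz : z ∈ FS δ S) : T z ∈ K := by
  refine closure_minimal (t := {x | T x ∈ K}) ?_ (hKc.preimage T.continuous) hz
  rintro _ ⟨w, hw, rfl⟩
  change T _ ∈ K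
  rw [map_eval hT]
  exact eval_mem hK w fun γ hγ => h γ (hw hγ)

theorem mem_FS_univ (hF : Free' δ) (z : F) : z ∈ FS δ Set.univ := by
  refine closure_mono ?_ (hF.dense z)
  rintro _ ⟨w, rfl⟩
  exact ⟨w, Set.subset_univ _, rfl⟩

end FS

/-- `X` is a retract of a free Banach lattice. -/
structure Ret (X : BLat) where
  /-- generators -/
  A : Type
  /-- the free lattice -/
  F : BLat
  /-- the generators -/
  δ : A → F
  free : Free' δ
  /-- the retraction -/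
  r : F →L[ℝ] X
  /-- the section -/
  s : X →L[ℝ] F
  hr : IsLatHom r
  hs : IsLatHom s
  rs : ∀ x, r (s x) = x

theorem exists_ret {X : BLat} (hX : Projective X) : Nonempty (Ret X) := by
  obtain ⟨F, δ, hF⟩ : ∃ (F : BLat) (δ : {x : X // ‖x‖ ≤ 1} → F), Free' δ :=
    ⟨_, _, free_PP _⟩
  obtain ⟨r, hr, hrδ, hrn⟩ := hF.lift X (fun a => a.1) 1 zero_le_one fun a => a.2
  have hq : IsQuot r := by
    refine isQuot_of hr (fun x => ?_) fun y ε hε => ?_
    · exact (r.le_opNorm x).trans ((mul_le_mul_of_nonneg_right hrn (norm_nonneg _)).trans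
        (one_mul _).le)
    · rcases eq_or_ne y 0 with rfl | hy
      · exact ⟨0, map_zero r, by rw [norm_zero, norm_zero]; linarith⟩
      · have hy' : 0 < ‖y‖ := norm_pos_iff.2 hy
        have h1 : ‖‖y‖⁻¹ • y‖ ≤ 1 := by
          rw [norm_smul, norm_inv, norm_norm, inv_mul_cancel₀ hy'.ne']
        refine ⟨‖y‖ • δ ⟨‖y‖⁻¹ • y, h1⟩, ?_, ?_⟩
        · rw [map_smul, hrδ, smul_smul, mul_inv_cancel₀ hy'.ne', one_smul]
        · rw [norm_smul, norm_norm]
          have := mul_le_mul_of_nonneg_left (hF.norm_le ⟨‖y‖⁻¹ • y, h1⟩) hy'.le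
          linarith
  obtain ⟨s, hs, hrs, -⟩ := hX F X r hq (ContinuousLinearMap.id ℝ X) (fun x => rfl) 1 one_pos
  exact ⟨⟨_, F, δ, hF, r, s, hr, hs, fun x => DFunLike.congr_fun hrs x⟩⟩

/-! ### Closing off -/

/-- A disjoint pair below `b`. -/
def Pr {X : BLat} (b : X) (q : ℝ) (y z : X) : Prop :=
  0 ≤ y ∧ y ≤ b ∧ 0 ≤ z ∧ z ≤ b ∧ y ⊓ z = 0 ∧ q ≤ ‖y‖ ∧ q ≤ ‖z‖

variable {X : BLat} (R : Ret X)

/-- A separable environment. -/
structure Env where
  /-- the countable set -/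
  C : Set X
  cnt : C.Countable
  /-- the closed sublattice -/
  K : Submodule ℝ X
  Keq : (K : Set X) = closure C
  abs : ∀ x ∈ K, |x| ∈ K
  Cabs : ∀ x ∈ C, |x| ∈ C
  /-- the countable set of generators -/
  S : Set R.A
  sK : ∀ x ∈ K, R.s x ∈ FS R.δ S
  rS : ∀ a ∈ S, R.r (R.δ a) ∈ K
  pair : ∀ b ∈ C, ∀ n : ℕ, (∃ y z, Pr b (1 / ((n : ℝ) + 1)) y z) →
    ∃ y ∈ K, ∃ z ∈ K, Pr b (1 / ((n : ℝ) + 1)) y z

theorem exists_env (x₀ : X) : ∃ E : Env R, x₀ ∈ E.K := by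
  classical
  choose Sx hSc hSm using fun x : X => exists_supp R.free (R.s x)
  have hgA : ∀ x : X, ∃ g : ℕ → X, ∀ a ∈ Sx x, ∃ l, g l = R.r (R.δ a) := by
    intro x
    obtain ⟨g, hg⟩ := (((hSc x).image fun a => R.r (R.δ a)).insert 0).exists_eq_range
      (Set.insert_nonempty _ _)
    refine ⟨g, fun a ha => ?_⟩
    have h1 : R.r (R.δ a) ∈ Set.range g := by
      rw [← hg]
      exact Or.inr ⟨a, ha, rfl⟩
    exact h1
  choose gA hgA using hgA
  have hg2 : ∀ (b : X) (n : ℕ), ∃ p : X × X, (∃ y z, Pr b (1 / ((n : ℝ) + 1)) y z) →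
      Pr b (1 / ((n : ℝ) + 1)) p.1 p.2 := by
    intro b n
    by_cases h : ∃ y z, Pr b (1 / ((n : ℝ) + 1)) y z
    · obtain ⟨y, z, hyz⟩ := h
      exact ⟨(y, z), fun _ => hyz⟩
    · exact ⟨(0, 0), fun h' => absurd h' h⟩
  choose gp hgp using hg2
  set g : X → ℕ → X := fun x l =>
    if l % 3 = 0 then gA x (l / 3) else if l % 3 = 1 then (gp x (l / 3)).1 else (gp x (l / 3)).2
    with hg
  set b : ℕ → X := fun _ => x₀ with hb
  have k0 : ∀ x ∈ clo b g, ∀ l, gA x l ∈ clo b g := by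
    intro x hx l
    have h := clo_g b g hx (3 * l)
    have e : g x (3 * l) = gA x l := by
      rw [hg]
      change (if 3 * l % 3 = 0 then gA x (3 * l / 3) else _) = _
      rw [if_pos (by omega), show 3 * l / 3 = l by omega]
    rwa [e] at h
  have k1 : ∀ x ∈ clo b g, ∀ l, (gp x l).1 ∈ clo b g := by
    intro x hx l
    have h := clo_g b g hx (3 * l + 1)
    have e : g x (3 * l + 1) = (gp x l).1 := by
      rw [hg]
      change (if (3 * l + 1) % 3 = 0 then gA x ((3 * l + 1) / 3) else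
        if (3 * l + 1) % 3 = 1 then (gp x ((3 * l + 1) / 3)).1 else _) = _
      rw [if_neg (by omega), if_pos (by omega), show (3 * l + 1) / 3 = l by omega]
    rwa [e] at h
  have k2 : ∀ x ∈ clo b g, ∀ l, (gp x l).2 ∈ clo b g := by
    intro x hx l
    have h := clo_g b g hx (3 * l + 2)
    have e : g x (3 * l + 2) = (gp x l).2 := by
      rw [hg]
      change (if (3 * l + 2) % 3 = 0 then gA x ((3 * l + 2) / 3) else
        if (3 * l + 2) % 3 = 1 then (gp x ((3 * l + 2) / 3)).1 else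
          (gp x ((3 * l + 2) / 3)).2) = _
      rw [if_neg (by omega), if_neg (by omega), show (3 * l + 2) / 3 = l by omega]
    rwa [e] at h
  refine ⟨⟨clo b g, clo_countable b g, cloSub b g, rfl, cloSub_abs b g,
    fun x hx => clo_abs b g hx, ⋃ x ∈ clo b g, Sx x, ?_, ?_, ?_⟩, subset_closure (clo_base b g 0)⟩
  · intro x hx
    refine closure_minimal (t := {x | R.s x ∈ FS R.δ (⋃ x ∈ clo b g, Sx x)}) ?_
      (isClosed_closure.preimage R.s.continuous) hx
    intro y hy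
    exact FS_mono (Set.subset_biUnion_of_mem hy) (hSm y)
  · intro a ha
    obtain ⟨x, hx, hax⟩ := Set.mem_iUnion₂.1 ha
    obtain ⟨l, hl⟩ := hgA x a hax
    rw [← hl]
    exact subset_closure (k0 x hx l)
  · intro c hc n h
    exact ⟨_, subset_closure (k1 c hc n), _, subset_closure (k2 c hc n), hgp c n h⟩

variable {R}

theorem Env.closed (E : Env R) : IsClosed (E.K : Set X) := by
  rw [E.Keq]; exact isClosed_closure

theorem Env.sup (E : Env R) {x y : X} (hx : x ∈ E.K) (hy : y ∈ E.K) : x ⊔ y ∈ E.K :=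
  sub_sup E.abs hx hy

theorem Env.inf (E : Env R) {x y : X} (hx : x ∈ E.K) (hy : y ∈ E.K) : x ⊓ y ∈ E.K :=
  sub_inf E.abs hx hy

theorem Env.pos (E : Env R) {x : X} (hx : x ∈ E.K) : x⁺ ∈ E.K := E.sup hx E.K.zero_mem

/-- Retractions onto the separable sublattice that respect a given homomorphism. -/
theorem Env.retr (E : Env R) {φ : X →L[ℝ] realLat} (hφ : IsLatHom φ) {v : X} (hv : v ∈ E.K)
    (hφv : (0 : ℝ) < φ v) : ∃ ρ : X →L[ℝ] X, IsLatHom ρ ∧ (∀ x ∈ E.K, ρ x = x) ∧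
      (∀ x, ρ x ∈ E.K) ∧ ∀ x, φ (ρ x) = φ x := by
  classical
  set c : ℝ := ‖R.r‖ + ‖φ‖ * ‖R.r‖ / (φ v : ℝ) * ‖v‖ with hc
  have hc0 : 0 ≤ c := by positivity
  have hrn : ∀ a, ‖R.r (R.δ a)‖ ≤ ‖R.r‖ := fun a =>
    (R.r.le_opNorm _).trans ((mul_le_mul_of_nonneg_left (R.free.norm_le a) (norm_nonneg _)).trans
      (mul_one _).le)
  obtain ⟨Ψ, hΨ, h1, -⟩ := R.free.lift X (fun a => if a ∈ E.S then R.r (R.δ a) else
    ((φ (R.r (R.δ a)) : ℝ) / (φ v : ℝ)) • v) c hc0 (fun a => by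
      split_ifs
      · refine (hrn a).trans ?_
        have : 0 ≤ ‖φ‖ * ‖R.r‖ / (φ v : ℝ) * ‖v‖ := by positivity
        linarith
      · rw [norm_smul, norm_div, Real.norm_of_nonneg hφv.le]
        have h2 : ‖(φ (R.r (R.δ a)) : ℝ)‖ ≤ ‖φ‖ * ‖R.r‖ :=
          (φ.le_opNorm _).trans (mul_le_mul_of_nonneg_left (hrn a) (norm_nonneg _))
        have h3 : ‖(φ (R.r (R.δ a)) : ℝ)‖ / (φ v : ℝ) * ‖v‖ ≤ ‖φ‖ * ‖R.r‖ / (φ v : ℝ) * ‖v‖ := by
          gcongr
        have := norm_nonneg R.r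
        linarith)
  refine ⟨Ψ.comp R.s, hΨ.comp R.hs, fun x hx => ?_, fun x => ?_, fun x => ?_⟩
  · rw [ContinuousLinearMap.comp_apply]
    rw [hom_agree hΨ R.hr (S := E.S) (fun a ha => by rw [h1, if_pos ha]) (E.sK x hx), R.rs]
  · rw [ContinuousLinearMap.comp_apply]
    refine hom_range hΨ E.closed E.abs (S := Set.univ) (fun a _ => ?_) (mem_FS_univ R.free _)
    rw [h1]
    split_ifs with ha
    · exact E.rS a ha
    · exact E.K.smul_mem _ hv
  · rw [ContinuousLinearMap.comp_apply]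
    have h2 : φ.comp Ψ = φ.comp R.r := by
      refine ContinuousLinearMap.ext fun z => ?_
      refine hom_agree (hφ.comp hΨ) (hφ.comp R.hr) (S := Set.univ) (fun a _ => ?_)
        (mem_FS_univ R.free z)
      rw [ContinuousLinearMap.comp_apply, ContinuousLinearMap.comp_apply, h1]
      split_ifs with ha
      · rfl
      · rw [map_smul]
        change ((φ (R.r (R.δ a)) : ℝ) / (φ v : ℝ)) * (φ v : ℝ) = _
        exact div_mul_cancel₀ _ hφv.ne'
    have h3 := DFunLike.congr_fun h2 (R.s x)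
    rw [ContinuousLinearMap.comp_apply, ContinuousLinearMap.comp_apply, R.rs] at h3
    exact h3

/-- The composition of a positive functional with the retraction. -/
theorem comp_pos {g : X →L[ℝ] ℝ} (hg : ∀ x, 0 ≤ x → 0 ≤ g x) : ∀ y : R.F, 0 ≤ y →
    0 ≤ (g.comp R.r) y := fun y hy => hg _ (R.hr.nonneg hy)

/-- Homomorphisms separate the points. -/
theorem sepHom (R : Ret X) {z : X} (hz : z ≠ 0) : ∃ φ : X →L[ℝ] realLat, IsLatHom φ ∧ (φ z : ℝ) ≠ 0 := by
  obtain ⟨f, hf1, hf2⟩ := exists_dual_vector ℝ |z| (by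
    rw [norm_abs_eq_norm]; exact norm_ne_zero_iff.2 hz)
  have hf2' : f |z| = ‖z‖ := by rw [hf2, norm_abs_eq_norm]; rfl
  have hzpos : 0 < ‖z‖ := norm_pos_iff.2 hz
  have h1 : ‖z‖ ≤ GF f |z| := by
    rw [GF_apply f (abs_nonneg z), ← hf2']
    exact le_fp f (abs_nonneg z) le_rfl
  obtain ⟨Θ, hΘ, -, h2⟩ := exists_approx' R.free (μ := (GF f).comp R.r)
    (comp_pos fun x hx => GF_nonneg f hx) (R.s z) (half_pos hzpos)
  have h3 : ((GF f).comp R.r) |R.s z| = GF f |z| := by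
    rw [ContinuousLinearMap.comp_apply, R.hr, R.rs]
  rw [h3] at h2
  have h4 : Θ (R.s z) ≠ 0 := by
    intro h
    rw [h, norm_zero] at h2
    linarith
  by_contra hcon
  push Not at hcon
  apply h4
  refine Sp.ext fun j => ?_
  exact hcon (((cf j).comp Θ).comp R.s) (((cf_hom j).comp hΘ).comp R.hs)

/-- Transfer of infima. -/
theorem Env.dn (E : Env R) {V : Set X} (hVK : V ⊆ E.K) (hV0 : ∀ v ∈ V, 0 ≤ v)
    (hne : V.Nonempty) (hdir : ∀ u ∈ V, ∀ v ∈ V, ∃ w ∈ V, w ≤ u ∧ w ≤ v)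
    (hglb : ∀ z ∈ E.K, 0 ≤ z → (∀ v ∈ V, z ≤ v) → z = 0) : Dn V := by
  refine ⟨hne, hdir, hV0, fun z hz => ?_⟩
  by_contra hcon
  have hz0 : z⁺ ≠ 0 := fun h => hcon (posPart_eq_zero.1 h)
  obtain ⟨φ, hφ, hφz⟩ := sepHom R hz0
  have hφz' : (0 : ℝ) < φ z⁺ := lt_of_le_of_ne (hφ.nonneg (posPart_nonneg z)) (Ne.symm hφz)
  have hle : ∀ v ∈ V, z⁺ ≤ v := fun v hv => sup_le (hz hv) (hV0 v hv)
  obtain ⟨v, hv⟩ := hne
  obtain ⟨ρ, hρ, h1, h2, h3⟩ := E.retr hφ (hVK hv)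
    (lt_of_lt_of_le hφz' (hφ.mono (hle v hv)))
  have h4 := hglb (ρ z⁺) (h2 _) (hρ.nonneg (posPart_nonneg z)) fun v hv => by
    have := hρ.mono (hle v hv)
    rwa [h1 v (hVK hv)] at this
  have h5 := h3 z⁺
  rw [h4, map_zero] at h5
  exact hφz h5.symm

/-- Atoms. -/
def IsAtomV (a : X) : Prop := 0 < a ∧ ∀ x, 0 ≤ x → x ≤ a → ∃ t : ℝ, 0 ≤ t ∧ x = t • a

theorem inf_pos_neg (x : X) : x⁺ ⊓ x⁻ = 0 := posPart_inf_negPart_eq_zero x

theorem le_of_neg_eq_zero {x y : X} (h : (x - y)⁺ = 0) : x ≤ y :=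
  sub_nonpos.1 (posPart_eq_zero.1 h)

/-- An element without disjoint pairs below it is an atom. -/
theorem atom_of_no_pair {a : X} (ha : 0 < a)
    (h : ∀ y z : X, 0 ≤ y → y ≤ a → 0 ≤ z → z ≤ a → y ⊓ z = 0 → y = 0 ∨ z = 0) : IsAtomV a := by
  refine ⟨ha, fun x hx0 hxa => ?_⟩
  have hcmp : ∀ s : ℝ, 0 ≤ s → s ≤ 1 → x ≤ s • a ∨ s • a ≤ x := by
    intro s h0 h1
    have h2 := h (x - s • a)⁺ (x - s • a)⁻ (posPart_nonneg _)
      (sup_le ((sub_le_self _ (smul_nonneg h0 ha.le)).trans hxa) ha.le) (negPart_nonneg _)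
      (by
        rw [negPart_def, neg_sub]
        refine sup_le ((sub_le_self _ hx0).trans ?_) ha.le
        calc s • a ≤ (1 : ℝ) • a := smul_le_smul_of_nonneg_right h1 ha.le
          _ = a := one_smul ℝ a) (inf_pos_neg _)
    rcases h2 with h2 | h2
    · exact Or.inl (le_of_neg_eq_zero h2)
    · right
      rw [negPart_def, neg_sub] at h2
      exact le_of_neg_eq_zero (by rw [posPart_def]; exact h2)
  set T : Set ℝ := {s | 0 ≤ s ∧ s ≤ 1 ∧ s • a ≤ x} with hT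
  have hT0 : (0 : ℝ) ∈ T := ⟨le_rfl, zero_le_one, by rw [zero_smul]; exact hx0⟩
  have hTb : BddAbove T := ⟨1, fun s hs => hs.2.1⟩
  set t := sSup T with ht
  have ht0 : 0 ≤ t := le_csSup hTb hT0
  have ht1 : t ≤ 1 := csSup_le ⟨0, hT0⟩ fun s hs => hs.2.1
  have hTc : IsClosed T := by
    have h1 : T = Set.Icc 0 1 ∩ {s | s • a ≤ x} := by
      ext s
      constructor
      · rintro ⟨h1, h2, h3⟩; exact ⟨⟨h1, h2⟩, h3⟩
      · rintro ⟨⟨h1, h2⟩, h3⟩; exact ⟨h1, h2, h3⟩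
    rw [h1]
    exact isClosed_Icc.inter (isClosed_le (by fun_prop) continuous_const)
  have htT : t ∈ T := hTc.csSup_mem ⟨0, hT0⟩ hTb
  refine ⟨t, ht0, le_antisymm ?_ htT.2.2⟩
  rcases ht1.eq_or_lt with h1 | h1
  · rw [h1, one_smul]; exact hxa
  · -- `x ≤ s a` for all `s > t`
    have h2 : ∀ s : ℝ, t < s → s ≤ 1 → x ≤ s • a := by
      intro s hs hs1
      rcases hcmp s (ht0.trans hs.le) hs1 with h3 | h3
      · exact h3
      · exact absurd (le_csSup hTb (show s ∈ T from ⟨ht0.trans hs.le, hs1, h3⟩)) (not_le.2 hs)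
    have h3 : Tendsto (fun s : ℝ => s • a) (𝓝[>] t) (𝓝 (t • a)) :=
      ((by fun_prop : Continuous fun s : ℝ => s • a).tendsto t).mono_left nhdsWithin_le_nhds
    refine ge_of_tendsto h3 ?_
    filter_upwards [Ioo_mem_nhdsGT h1] with s hs
    exact h2 s hs.1 hs.2.le

/-- Transfer of atoms. -/
theorem Env.atom (E : Env R) {a : X} (haK : a ∈ E.K) (ha : 0 < a)
    (h : ∀ x ∈ E.K, 0 ≤ x → x ≤ a → ∃ t : ℝ, x = t • a) : IsAtomV a := by
  refine atom_of_no_pair ha fun y z hy0 hya hz0 hza hyz => ?_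
  by_contra hcon
  push Not at hcon
  obtain ⟨hy, hz⟩ := hcon
  have hyn : 0 < ‖y‖ := norm_pos_iff.2 hy
  have hzn : 0 < ‖z‖ := norm_pos_iff.2 hz
  obtain ⟨n, hn⟩ := exists_nat_one_div_lt (lt_min (half_pos hyn) (half_pos hzn))
  rw [lt_min_iff] at hn
  have hq : (0 : ℝ) < 1 / ((n : ℝ) + 1) := by positivity
  set q : ℝ := 1 / ((n : ℝ) + 1) with hqd
  obtain ⟨c, hc, hac⟩ := Metric.mem_closure_iff.1 (by rw [← E.Keq]; exact haK) (q / 2)
    (half_pos hq)
  have hbC : |c| ∈ E.C := E.Cabs c hc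
  set b := |c| with hb
  have hab : ‖a - b‖ ≤ q / 2 := by
    have h1 : a - b = |a| - |c| := by rw [abs_of_nonneg ha.le]
    rw [h1]
    rw [dist_eq_norm] at hac
    exact (norm_mono (abs_abs_sub_abs_le a c)).trans hac.le
  -- cutting down
  have hcut : ∀ {u d e : X}, 0 ≤ u → u ≤ d → 0 ≤ e → ‖d - e‖ ≤ q / 2 → ‖u‖ - q / 2 ≤ ‖u ⊓ e‖ := by
    intro u d e hu hud he hde
    have h1 : ‖u - u ⊓ e‖ ≤ q / 2 := by
      refine (norm_mono ?_).trans hde
      have h2 : u - u ⊓ e = (u - e) ⊔ 0 := by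
        have h5 := inf_add_sup u e
        have h6 : u ⊔ e = u + e - u ⊓ e := by rw [← h5]; abel
        have h7 : (u - e) ⊔ 0 = u ⊔ e - e := by rw [sup_sub (α := X), sub_self]
        rw [h7, h6]; abel
      rw [h2, abs_of_nonneg le_sup_right]
      exact sup_le ((sub_le_sub_right hud e).trans (le_abs_self _)) (abs_nonneg _)
    have h3 : ‖u‖ ≤ ‖u - u ⊓ e‖ + ‖u ⊓ e‖ := by
      have : u = (u - u ⊓ e) + u ⊓ e := by abel
      calc ‖u‖ = ‖(u - u ⊓ e) + u ⊓ e‖ := by rw [← this]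
        _ ≤ _ := norm_add_le _ _
    linarith
  have hb0 : 0 ≤ b := abs_nonneg c
  have h1 := hcut hy0 hya hb0 hab
  have h2 := hcut hz0 hza hb0 hab
  obtain ⟨y', hy'K, z', hz'K, p1, p2, p3, p4, p5, p6, p7⟩ := E.pair b hbC n
    ⟨y ⊓ b, z ⊓ b, le_inf hy0 hb0, inf_le_right, le_inf hz0 hb0, inf_le_right, by
      refine le_antisymm ?_ (le_inf (le_inf hy0 hb0) (le_inf hz0 hb0))
      rw [← hyz]
      exact inf_le_inf inf_le_left inf_le_left, by linarith, by linarith⟩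
  have hba : ‖b - a‖ ≤ q / 2 := by rw [norm_sub_rev]; exact hab
  have h3 := hcut p1 p2 ha.le hba
  have h4 := hcut p3 p4 ha.le hba
  obtain ⟨t, ht⟩ := h (y' ⊓ a) (E.inf hy'K haK) (le_inf p1 ha.le) inf_le_right
  obtain ⟨s, hs⟩ := h (z' ⊓ a) (E.inf hz'K haK) (le_inf p3 ha.le) inf_le_right
  have hy'' : 0 < ‖y' ⊓ a‖ := by linarith
  have hz'' : 0 < ‖z' ⊓ a‖ := by linarith
  have hdis : (y' ⊓ a) ⊓ (z' ⊓ a) = 0 := by
    refine le_antisymm ?_ (le_inf (le_inf p1 ha.le) (le_inf p3 ha.le))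
    rw [← p5]
    exact inf_le_inf inf_le_left inf_le_left
  have ht0 : 0 < t := by
    by_contra hcon
    push Not at hcon
    have h5 : y' ⊓ a ≤ 0 := by rw [ht]; exact smul_nonpos_of_nonpos_of_nonneg hcon ha.le
    have h6 : y' ⊓ a = 0 := le_antisymm h5 (le_inf p1 ha.le)
    rw [h6, norm_zero] at hy''
    exact lt_irrefl _ hy''
  have hs0 : 0 < s := by
    by_contra hcon
    push Not at hcon
    have h5 : z' ⊓ a ≤ 0 := by rw [hs]; exact smul_nonpos_of_nonpos_of_nonneg hcon ha.le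
    have h6 : z' ⊓ a = 0 := le_antisymm h5 (le_inf p3 ha.le)
    rw [h6, norm_zero] at hz''
    exact lt_irrefl _ hz''
  have h5 : (min t s) • a ≤ (y' ⊓ a) ⊓ (z' ⊓ a) := by
    rw [ht, hs]
    exact le_inf (smul_le_smul_of_nonneg_right (min_le_left _ _) ha.le)
      (smul_le_smul_of_nonneg_right (min_le_right _ _) ha.le)
  rw [hdis] at h5
  have h6 : (0 : ℝ) < min t s := lt_min ht0 hs0
  have h7 : a ≤ 0 := by
    have := smul_le_smul_of_nonneg_left h5 (inv_nonneg.2 h6.le)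
    rwa [smul_smul, inv_mul_cancel₀ h6.ne', one_smul, smul_zero] at this
  exact absurd (le_antisymm h7 ha.le) ha.ne'

end Pool.Agent.V1198.PJ
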