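import Pool.Agent.V1198.RD1

/-!
# Completely continuous operators on `C(K)` are weakly compact, II
-/

set_option autoImplicit false
set_option linter.unusedSectionVars false
set_option linter.unusedVariables false

noncomputable section

open Filter Topology

namespace Pool.Agent.V1198.RD

open Pool.Agent.V1198.BL Pool.Agent.V1198.PJ

section ck

variable {K : Type} [TopologicalSpace K] [CompactSpace K]
  {Y : Type} [NormedAddCommGroup Y] [NormedSpace ℝ Y] {T : C(K, ℝ) →L[ℝ] Y}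

/-- Finite suprema of the tail. -/
def GG (f : ℕ → C(K, ℝ)) (n : ℕ) : ℕ → C(K, ℝ)
  | 0 => f n
  | m + 1 => GG f n m ⊔ f (n + m + 1)

theorem GG_mono (f : ℕ → C(K, ℝ)) (n : ℕ) : Monotone (GG f n) :=
  monotone_nat_of_le_succ fun _ => le_sup_left

theorem le_GG (f : ℕ → C(K, ℝ)) (n l : ℕ) : f (n + l) ≤ GG f n l := by
  cases l with
  | zero => exact le_rfl
  | succ l => exact le_sup_right

/-- Finite infima. -/
def HH (h : ℕ → C(K, ℝ)) : ℕ → C(K, ℝ)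
  | 0 => h 0
  | n + 1 => HH h n ⊓ h (n + 1)

theorem HH_anti (h : ℕ → C(K, ℝ)) : Antitone (HH h) := antitone_nat_of_succ_le fun _ => inf_le_left

theorem HH_le (h : ℕ → C(K, ℝ)) (n : ℕ) : HH h n ≤ h n := by
  cases n with
  | zero => exact le_rfl
  | succ n => exact inf_le_right

theorem le_HH (h : ℕ → C(K, ℝ)) (x : C(K, ℝ)) (n : ℕ) (hx : ∀ i ≤ n, x ≤ h i) : x ≤ HH h n := by
  induction n with
  | zero => exact hx 0 le_rfl
  | succ n ih => exact le_inf (ih fun i hi => hx i (by omega)) (hx _ le_rfl)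

/-- Positive functionals. -/
def Pos (μ : C(K, ℝ) →L[ℝ] ℝ) : Prop := ∀ g, 0 ≤ g → 0 ≤ μ g

theorem Pos.mono {μ : C(K, ℝ) →L[ℝ] ℝ} (hμ : Pos μ) {f g : C(K, ℝ)} (h : f ≤ g) : μ f ≤ μ g := by
  have := hμ _ (sub_nonneg.2 h)
  rw [map_sub] at this
  linarith

theorem geom_le (m n : ℕ) : ∑ l ∈ Finset.range m, (1 / 2 : ℝ) ^ (n + l) ≤ 2 * (1 / 2) ^ n := by
  have h1 : ∀ l, (1 / 2 : ℝ) ^ (n + l) = (1 / 2) ^ n * (1 / 2) ^ l := fun l => pow_add _ _ _
  simp only [h1]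
  rw [← Finset.mul_sum, mul_comm]
  refine mul_le_mul_of_nonneg_right ?_ (by positivity)
  have h1 := summable_geometric_two.sum_le_tsum (Finset.range m) (fun k _ => by positivity)
  rwa [tsum_geometric_two] at h1

/-- A control functional. -/
theorem control (hD : DP T) {ε : ℝ} (hε : 0 < ε) : ∃ lam : C(K, ℝ) →L[ℝ] ℝ, Pos lam ∧
    ∃ δ : ℝ, 0 < δ ∧ ∀ f, 0 ≤ f → f ≤ 1 → lam f < δ → p T f ≤ ε := by
  classical
  by_contra hcon
  push Not at hcon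
  have step : ∀ (lam : {l : C(K, ℝ) →L[ℝ] ℝ // Pos l}) (n : ℕ), ∃ (f : C(K, ℝ))
      (μ : {l : C(K, ℝ) →L[ℝ] ℝ // Pos l}), 0 ≤ f ∧ f ≤ 1 ∧ lam.1 f < (1 / 2) ^ n ∧
      (∀ g, 0 ≤ g → μ.1 g ≤ p T g) ∧ ε < μ.1 f := by
    intro lam n
    obtain ⟨f, h0, h1, h2, h3⟩ := hcon lam.1 lam.2 ((1 / 2) ^ n) (by positivity)
    obtain ⟨μ, hμ0, hμp, hμ⟩ := exists_mu h0 h3
    exact ⟨f, ⟨μ, hμ0⟩, h0, h1, h2, hμp, hμ⟩
  choose ff mm hf0 hf1 hfl hmp hmf using step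
  let Λ : ℕ → {l : C(K, ℝ) →L[ℝ] ℝ // Pos l} := fun n => Nat.rec ⟨0, fun g _ => le_rfl⟩
    (fun n lam => ⟨lam.1 + (mm lam n).1, fun g hg => add_nonneg (lam.2 g hg) ((mm lam n).2 g hg)⟩) n
  have hΛ : ∀ n, (Λ (n + 1)).1 = (Λ n).1 + (mm (Λ n) n).1 := fun n => rfl
  set f : ℕ → C(K, ℝ) := fun n => ff (Λ n) n with hf
  set μ : ℕ → C(K, ℝ) →L[ℝ] ℝ := fun n => (mm (Λ n) n).1 with hμ
  have hμpos : ∀ n, Pos (μ n) := fun n => (mm (Λ n) n).2
  have hμp : ∀ n g, 0 ≤ g → μ n g ≤ p T g := fun n => hmp (Λ n) n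
  have hμf : ∀ n, ε < μ n (f n) := fun n => hmf (Λ n) n
  have h0 : ∀ n, 0 ≤ f n := fun n => hf0 (Λ n) n
  have h1 : ∀ n, f n ≤ 1 := fun n => hf1 (Λ n) n
  have hΛmono : ∀ (g : C(K, ℝ)), 0 ≤ g → Monotone fun n => (Λ n).1 g := fun g hg =>
    monotone_nat_of_le_succ fun n => by
      have h2 : (Λ (n + 1)).1 g = (Λ n).1 g + μ n g := by rw [hΛ]; rfl
      rw [h2]
      exact le_add_of_nonneg_right (hμpos n g hg)
  have hsmall : ∀ i n, i < n → μ i (f n) ≤ (1 / 2) ^ n := by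
    intro i n hin
    have h2 : μ i (f n) ≤ (Λ (i + 1)).1 (f n) := by
      have h3 : (Λ (i + 1)).1 (f n) = (Λ i).1 (f n) + μ i (f n) := by rw [hΛ]; rfl
      rw [h3]
      exact le_add_of_nonneg_left ((Λ i).2 _ (h0 n))
    exact h2.trans ((hΛmono (f n) (h0 n) hin).trans (hfl (Λ n) n).le)
  have hG0 : ∀ n m, 0 ≤ GG f n m := fun n m => (h0 n).trans (GG_mono f n (Nat.zero_le m))
  have hG1 : ∀ n m, GG f n m ≤ 1 := by
    intro n m
    induction m with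
    | zero => exact h1 n
    | succ m ih => exact sup_le ih (h1 (n + m + 1))
  have hM : ∀ n, ∃ M, ∀ m ≥ M, p T (GG f n m - GG f n M) ≤ ε / 8 * (1 / 2) ^ n := fun n =>
    mono_cauchy hD (GG f n) (GG_mono f n) (hG0 n) (hG1 n) (by positivity)
  choose M hM using hM
  set h : ℕ → C(K, ℝ) := fun n => GG f n (M n) with hh
  have hh0 : ∀ n, 0 ≤ h n := fun n => hG0 n _
  have hh1 : ∀ n, h n ≤ 1 := fun n => hG1 n _
  -- the values of `μ n` on the decreasing sequence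
  have hH0 : ∀ n, 0 ≤ HH h n := fun n => le_HH h 0 n fun i _ => hh0 i
  have hH1 : ∀ n, HH h n ≤ 1 := fun n => (HH_le h n).trans (hh1 n)
  have hlow : ∀ n, 3 * ε / 4 ≤ μ n (HH h n) := by
    intro n
    set e : ℕ → C(K, ℝ) := fun i => GG f i (max (n - i) (M i)) - h i with he
    have he0 : ∀ i, 0 ≤ e i := fun i => sub_nonneg.2 (GG_mono f i (le_max_right _ _))
    have hep : ∀ i, p T (e i) ≤ ε / 8 * (1 / 2) ^ i := fun i => hM i _ (le_max_right _ _)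
    have h2 : f n - ∑ i ∈ Finset.range (n + 1), e i ≤ HH h n := by
      refine le_HH h _ n fun i hi => ?_
      have h3 : e i ≤ ∑ i ∈ Finset.range (n + 1), e i :=
        Finset.single_le_sum (f := e) (fun i _ => he0 i) (Finset.mem_range.2 (by omega))
      have h4 : f n ≤ GG f i (max (n - i) (M i)) := by
        have h5 := le_GG f i (n - i)
        rw [Nat.add_sub_cancel' hi] at h5
        exact h5.trans (GG_mono f i (le_max_left _ _))
      rw [sub_le_iff_le_add]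
      calc f n ≤ GG f i (max (n - i) (M i)) := h4
        _ = h i + e i := (add_sub_cancel (h i) (GG f i (max (n - i) (M i)))).symm
        _ ≤ _ := add_le_add_right h3 _
    have h3 := (hμpos n).mono h2
    rw [map_sub, map_sum] at h3
    have h4 : ∑ i ∈ Finset.range (n + 1), μ n (e i) ≤ ε / 4 := by
      calc ∑ i ∈ Finset.range (n + 1), μ n (e i)
          ≤ ∑ i ∈ Finset.range (n + 1), ε / 8 * (1 / 2) ^ i :=
            Finset.sum_le_sum fun i _ => (hμp n _ (he0 i)).trans (hep i)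
        _ = ε / 8 * ∑ i ∈ Finset.range (n + 1), (1 / 2 : ℝ) ^ i := by rw [Finset.mul_sum]
        _ ≤ ε / 8 * 2 := by
            refine mul_le_mul_of_nonneg_left ?_ (by positivity)
            have h1 := summable_geometric_two.sum_le_tsum (Finset.range (n + 1))
              (fun k _ => by positivity)
            rwa [tsum_geometric_two] at h1
        _ = ε / 4 := by ring
    have h5 := hμf n
    linarith
  obtain ⟨n₀, hn₀⟩ := mono_cauchy hD (fun n => 1 - HH h n)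
    (fun a b hab => sub_le_sub_left (HH_anti h hab) 1) (fun n => sub_nonneg.2 (hH1 n))
    (fun n => sub_le_self _ (hH0 n)) (show (0 : ℝ) < ε / 4 by linarith)
  have hge : ∀ m ≥ n₀, ε / 2 ≤ μ n₀ (HH h m) := by
    intro m hm
    have h2 := hn₀ m hm
    have h3 : (1 - HH h m) - (1 - HH h n₀) = HH h n₀ - HH h m := by abel
    simp only [h3] at h2
    have h4 := hμp n₀ (HH h n₀ - HH h m) (sub_nonneg.2 (HH_anti h hm))
    rw [map_sub] at h4
    have h5 := hlow n₀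
    linarith
  have hle : ∀ m > n₀, μ n₀ (HH h m) ≤ 2 * (1 / 2) ^ m := by
    intro m hm
    have h2 : ∀ l, GG f m l ≤ ∑ i ∈ Finset.range (l + 1), f (m + i) := by
      intro l
      induction l with
      | zero =>
        rw [Finset.sum_range_one]
        exact le_rfl
      | succ l ih =>
        rw [Finset.sum_range_succ]
        refine sup_le (ih.trans (le_add_of_nonneg_right (h0 (m + (l + 1))))) ?_
        exact le_add_of_nonneg_left (Finset.sum_nonneg fun i _ => h0 (m + i))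
    have h3 := (hμpos n₀).mono ((HH_le h m).trans (h2 (M m)))
    rw [map_sum] at h3
    refine h3.trans ((Finset.sum_le_sum fun i _ => ?_).trans (geom_le (M m + 1) m))
    exact hsmall n₀ (m + i) (by omega)
  have hlim : Tendsto (fun m : ℕ => 2 * (1 / 2 : ℝ) ^ m) atTop (𝓝 (2 * 0)) :=
    (tendsto_pow_atTop_nhds_zero_of_lt_one (by norm_num) (by norm_num)).const_mul 2
  rw [mul_zero] at hlim
  obtain ⟨m, hm1, hm2⟩ := ((hlim.eventually (gt_mem_nhds (show (0 : ℝ) < ε / 2 by linarith))).and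
    (eventually_gt_atTop n₀)).exists
  have h2 := hge m (le_of_lt hm2)
  have h3 := hle m hm2
  linarith

/-- The estimate for the operator. -/
theorem estimate (hD : DP T) {ε : ℝ} (hε : 0 < ε) : ∃ lam : C(K, ℝ) →L[ℝ] ℝ, Pos lam ∧
    ∃ δ : ℝ, 0 < δ ∧ ∀ g : C(K, ℝ), ‖g‖ ≤ 2 → lam |g| ≤ δ → ‖T g‖ ≤ ε := by
  obtain ⟨lam, hlam, δ, hδ, h⟩ := control hD (half_pos hε)
  refine ⟨lam, hlam, δ, hδ, fun g hg hl => ?_⟩
  have h1 := h ((1 / 2 : ℝ) • |g|) (smul_nonneg (by norm_num) (abs_nonneg g)) (fun t => by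
    change (1 / 2 : ℝ) * |g t| ≤ 1
    have := g.norm_coe_le_norm t
    rw [Real.norm_eq_abs] at this
    linarith) (by
    rw [map_smul, smul_eq_mul]
    have := hlam |g| (abs_nonneg g)
    linarith)
  have h2 := le_p T (f := (1 / 2 : ℝ) • |g|) (g := (1 / 2 : ℝ) • g) (fun t => by
    change |(1 / 2 : ℝ) * g t| ≤ (1 / 2 : ℝ) * |g t|
    rw [abs_mul, abs_of_pos (by norm_num : (0 : ℝ) < 1 / 2)])
  rw [map_smul, norm_smul, Real.norm_of_nonneg (by norm_num : (0 : ℝ) ≤ 1 / 2)] at h2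
  linarith

/-- `sq g = g * g`, and the parallelogram law gives approximate convergence of convex
combinations. -/
theorem exists_center {lam : C(K, ℝ) →L[ℝ] ℝ} (hlam : Pos lam) (𝒰 : Ultrafilter C(K, ℝ))
    (hB : {g : C(K, ℝ) | ‖g‖ ≤ 1} ∈ 𝒰) {δ : ℝ} (hδ : 0 < δ) :
    ∃ h : C(K, ℝ), ‖h‖ ≤ 1 ∧ ∀ U ∈ 𝒰, ∃ g ∈ convexHull ℝ U, ‖g‖ ≤ 1 ∧ lam |g - h| ≤ δ := by
  classical
  set d : Set C(K, ℝ) → ℝ := fun U => sInf {r | ∃ g ∈ convexHull ℝ U, r = lam (g * g)} with hd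
  have hsq : ∀ g : C(K, ℝ), 0 ≤ lam (g * g) := fun g => hlam _ fun t => mul_self_nonneg (g t)
  have hbdd : ∀ U, BddBelow {r | ∃ g ∈ convexHull ℝ U, r = lam (g * g)} := fun U =>
    ⟨0, by rintro _ ⟨g, -, rfl⟩; exact hsq g⟩
  set BB : Set C(K, ℝ) := {g | ‖g‖ ≤ 1} with hBB
  have hBconv : Convex ℝ BB := by
    have : BB = Metric.closedBall (0 : C(K, ℝ)) 1 := by
      ext g; rw [mem_closedBall_zero_iff]; rfl
    rw [this]
    exact convex_closedBall _ _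
  have hch : ∀ U ⊆ BB, convexHull ℝ U ⊆ BB := fun U hU => convexHull_min hU hBconv
  have hle : ∀ g ∈ BB, lam (g * g) ≤ lam 1 := fun g hg => hlam.mono fun t => by
    have h1 : |g t| ≤ 1 := by
      have h2 := g.norm_coe_le_norm t
      rw [Real.norm_eq_abs] at h2
      exact h2.trans hg
    change g t * g t ≤ 1
    rw [← abs_mul_abs_self]
    exact mul_le_one₀ h1 (abs_nonneg _) h1
  have hne : ∀ U ∈ 𝒰, (convexHull ℝ U).Nonempty := fun U hU =>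
    (Ultrafilter.nonempty_of_mem hU).mono (subset_convexHull ℝ U)
  have hdle : ∀ U ∈ 𝒰, U ⊆ BB → d U ≤ lam 1 := by
    intro U hU hUB
    obtain ⟨g, hg⟩ := hne U hU
    exact (csInf_le (hbdd U) ⟨g, hg, rfl⟩).trans (hle g (hch U hUB hg))
  -- the supremum of `d`
  set D : ℝ := sSup {r | ∃ U ∈ 𝒰, U ⊆ BB ∧ r = d U} with hDdef
  have hDbdd : BddAbove {r | ∃ U ∈ 𝒰, U ⊆ BB ∧ r = d U} :=
    ⟨lam 1, by rintro _ ⟨U, hU, hUB, rfl⟩; exact hdle U hU hUB⟩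
  have hDne : {r | ∃ U ∈ 𝒰, U ⊆ BB ∧ r = d U}.Nonempty := ⟨_, BB, hB, subset_rfl, rfl⟩
  -- the accuracy
  set c : ℝ := δ / (lam 1 + 1) with hc
  have hl1 : 0 ≤ lam 1 := hlam 1 zero_le_one
  have hc0 : 0 < c := by positivity
  set τ : ℝ := c * δ / 8 with hτ
  have hτ0 : 0 < τ := by positivity
  obtain ⟨_, ⟨U₀, hU₀, hU₀B, rfl⟩, hDU⟩ := exists_lt_of_lt_csSup hDne (show D - τ < D by linarith)
  obtain ⟨_, ⟨h, hh, rfl⟩, hhd⟩ := exists_lt_of_csInf_lt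
    (s := {r | ∃ g ∈ convexHull ℝ U₀, r = lam (g * g)}) (by
      obtain ⟨g, hg⟩ := hne U₀ hU₀; exact ⟨_, g, hg, rfl⟩) (show d U₀ < d U₀ + τ by linarith)
  have hdD : ∀ U ∈ 𝒰, U ⊆ BB → d U ≤ D := fun U hU hUB => le_csSup hDbdd ⟨U, hU, hUB, rfl⟩
  refine ⟨h, hch U₀ hU₀B hh, fun U hU => ?_⟩
  have hV : U ∩ U₀ ∈ 𝒰 := Filter.inter_mem hU hU₀
  have hVB : U ∩ U₀ ⊆ BB := Set.inter_subset_right.trans hU₀B
  obtain ⟨_, ⟨g, hg, rfl⟩, hgd⟩ := exists_lt_of_csInf_lt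
    (s := {r | ∃ g ∈ convexHull ℝ (U ∩ U₀), r = lam (g * g)}) (by
      obtain ⟨g, hg⟩ := hne _ hV; exact ⟨_, g, hg, rfl⟩)
    (show d (U ∩ U₀) < d (U ∩ U₀) + τ by linarith)
  refine ⟨g, convexHull_mono Set.inter_subset_left hg, hch _ hVB hg, ?_⟩
  have hg₀ : g ∈ convexHull ℝ U₀ := convexHull_mono Set.inter_subset_right hg
  set m : C(K, ℝ) := (1 / 2 : ℝ) • g + (1 / 2 : ℝ) • h with hm
  have hm₀ : m ∈ convexHull ℝ U₀ := (convex_convexHull ℝ U₀) hg₀ hh (by norm_num) (by norm_num)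
    (by norm_num)
  have h1 : d U₀ ≤ lam (m * m) := csInf_le (hbdd U₀) ⟨m, hm₀, rfl⟩
  have h2 : lam ((g - h) * (g - h)) = 2 * lam (g * g) + 2 * lam (h * h) - 4 * lam (m * m) := by
    have h3 : (g - h) * (g - h) = (2 : ℝ) • (g * g) + (2 : ℝ) • (h * h) - (4 : ℝ) • (m * m) := by
      ext t
      change (g t - h t) * (g t - h t) = 2 * (g t * g t) + 2 * (h t * h t) -
        4 * ((1 / 2 * g t + 1 / 2 * h t) * (1 / 2 * g t + 1 / 2 * h t))
      ring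
    rw [h3, map_sub, map_add, map_smul, map_smul, map_smul]
    rfl
  have h3 := hdD _ hV hVB
  have h4 := hdD _ hU₀ hU₀B
  have h5 : lam ((g - h) * (g - h)) ≤ 8 * τ := by
    rw [h2]
    linarith
  have h6 : |g - h| ≤ (1 / (2 * c)) • ((g - h) * (g - h)) + (c / 2) • 1 := fun t => by
    change |g t - h t| ≤ 1 / (2 * c) * ((g t - h t) * (g t - h t)) + c / 2 * 1
    have h7 : 0 ≤ (|g t - h t| - c) ^ 2 := sq_nonneg _
    have h8 : (g t - h t) * (g t - h t) = |g t - h t| ^ 2 := by rw [sq_abs]; ring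
    rw [h8]
    have h9 : 1 / (2 * c) * |g t - h t| ^ 2 + c / 2 * 1 - |g t - h t| =
        1 / (2 * c) * (|g t - h t| - c) ^ 2 := by field_simp; ring
    have h10 : 0 ≤ 1 / (2 * c) * (|g t - h t| - c) ^ 2 := by positivity
    linarith
  have h7 := hlam.mono h6
  rw [map_add, map_smul, map_smul, smul_eq_mul, smul_eq_mul] at h7
  have h8 : 1 / (2 * c) * lam ((g - h) * (g - h)) ≤ 1 / (2 * c) * (8 * τ) :=
    mul_le_mul_of_nonneg_left h5 (by positivity)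
  have h9 : 1 / (2 * c) * (8 * τ) = δ / 2 := by rw [hτ]; field_simp
  have h10 : c / 2 * lam 1 ≤ δ / 2 := by
    have h11 : c * lam 1 ≤ c * (lam 1 + 1) := mul_le_mul_of_nonneg_left (by linarith) hc0.le
    have h12 : c * (lam 1 + 1) = δ := by rw [hc]; field_simp
    linarith
  linarith

/-- Weak limits: approximate weak limits in norm give weak limits. -/
theorem weak_limit_of_approx {I : Type} {Y : Type} [NormedAddCommGroup Y] [NormedSpace ℝ Y]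
    [CompleteSpace Y] (𝒰 : Ultrafilter I) (S : I → Y)
    (h : ∀ ε : ℝ, 0 < ε → ∃ y : Y, ∀ ψ : StrongDual ℝ Y, ‖ψ‖ ≤ 1 →
      ∀ᶠ i in (𝒰 : Filter I), |ψ (S i) - ψ y| ≤ ε) :
    ∃ y : Y, ∀ ψ : StrongDual ℝ Y, Tendsto (fun i => ψ (S i)) 𝒰 (𝓝 (ψ y)) := by
  choose! y hy using h
  have hpos : ∀ n : ℕ, (0 : ℝ) < 1 / ((n : ℝ) + 1) := fun n => by positivity
  have hdist : ∀ ε₁ ε₂ : ℝ, 0 < ε₁ → 0 < ε₂ → ‖y ε₁ - y ε₂‖ ≤ ε₁ + ε₂ := by
    intro ε₁ ε₂ h1 h2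
    obtain ⟨ψ, hψ1, hψ2⟩ := exists_dual_vector'' ℝ (y ε₁ - y ε₂)
    obtain ⟨i, hi1, hi2⟩ := ((hy ε₁ h1 ψ hψ1).and (hy ε₂ h2 ψ hψ1)).exists
    have h3 : ψ (y ε₁ - y ε₂) = ‖y ε₁ - y ε₂‖ := hψ2
    rw [← h3, map_sub]
    rw [abs_le] at hi1 hi2
    linarith [hi1.1, hi1.2, hi2.1, hi2.2]
  have hcau : CauchySeq fun n : ℕ => y (1 / ((n : ℝ) + 1)) := by
    rw [Metric.cauchySeq_iff']
    intro ε hε
    obtain ⟨N, hN⟩ := exists_nat_one_div_lt (half_pos hε)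
    refine ⟨N, fun n hn => ?_⟩
    rw [dist_eq_norm]
    have h1 : 1 / ((n : ℝ) + 1) ≤ 1 / ((N : ℝ) + 1) := by
      apply one_div_le_one_div_of_le (by positivity)
      have : (N : ℝ) ≤ n := by exact_mod_cast hn
      linarith
    have := hdist _ _ (hpos n) (hpos N)
    linarith
  obtain ⟨y₀, hy₀⟩ := cauchySeq_tendsto_of_complete hcau
  refine ⟨y₀, fun ψ => ?_⟩
  -- reduce to norm at most one
  have key : ∀ ψ : StrongDual ℝ Y, ‖ψ‖ ≤ 1 → Tendsto (fun i => ψ (S i)) 𝒰 (𝓝 (ψ y₀)) := by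
    intro ψ hψ
    rw [Metric.tendsto_nhds]
    intro ε hε
    obtain ⟨n, hn1, hn2⟩ := ((Metric.tendsto_nhds.1 hy₀ (ε / 2) (half_pos hε)).and
      ((tendsto_one_div_add_atTop_nhds_zero_nat (𝕜 := ℝ)).eventually
        (gt_mem_nhds (half_pos hε)))).exists
    filter_upwards [hy _ (hpos n) ψ hψ] with i hi
    rw [Real.dist_eq]
    have h1 : |ψ (y (1 / ((n : ℝ) + 1))) - ψ y₀| < ε / 2 := by
      rw [← map_sub]
      refine ((ψ.le_opNorm _).trans ((mul_le_mul_of_nonneg_right hψ (norm_nonneg _)).trans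
        (one_mul _).le)).trans_lt ?_
      rw [← dist_eq_norm]
      exact hn1
    have h2 : ψ (S i) - ψ y₀ = (ψ (S i) - ψ (y (1 / ((n : ℝ) + 1)))) +
      (ψ (y (1 / ((n : ℝ) + 1))) - ψ y₀) := by ring
    rw [h2]
    refine (abs_add_le _ _).trans_lt ?_
    linarith
  have h1 := key ((‖ψ‖ + 1)⁻¹ • ψ) (by
    rw [norm_smul, norm_inv, Real.norm_of_nonneg (by positivity : 0 ≤ ‖ψ‖ + 1),
      inv_mul_le_iff₀ (by positivity)]
    linarith [norm_nonneg ψ])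
  have h2 := h1.const_mul (‖ψ‖ + 1)
  have h3 : ∀ z : Y, (‖ψ‖ + 1) * ((‖ψ‖ + 1)⁻¹ • ψ) z = ψ z := fun z => by
    change (‖ψ‖ + 1) * ((‖ψ‖ + 1)⁻¹ * ψ z) = ψ z
    have : ‖ψ‖ + 1 ≠ 0 := by positivity
    field_simp
  simp only [h3] at h2
  exact h2

/-- Ultrafilters on the unit ball of `C(K)` have weak limits after applying `T`. -/
theorem weak_limit_CK [CompleteSpace Y] (hD : DP T) (𝒰 : Ultrafilter C(K, ℝ))
    (hB : {g : C(K, ℝ) | ‖g‖ ≤ 1} ∈ 𝒰) :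
    ∃ y : Y, ∀ ψ : StrongDual ℝ Y, Tendsto (fun g => ψ (T g)) 𝒰 (𝓝 (ψ y)) := by
  refine weak_limit_of_approx 𝒰 (fun g => T g) fun ε hε => ?_
  obtain ⟨lam, hlam, δ, hδ, hest⟩ := estimate hD (show (0 : ℝ) < ε / 3 by linarith)
  obtain ⟨h, hh, hU⟩ := exists_center hlam 𝒰 hB hδ
  refine ⟨T h, fun ψ hψ => ?_⟩
  -- the limit of `ψ (T g)` along the ultrafilter
  obtain ⟨L, -, hL⟩ := (isCompact_closedBall (0 : ℝ) ‖T‖).ultrafilter_le_nhds
    (𝒰.map fun g => ψ (T g)) (by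
      rw [le_principal_iff]
      refine Filter.mem_map.2 (mem_of_superset hB fun g hg => ?_)
      change ψ (T g) ∈ Metric.closedBall (0 : ℝ) ‖T‖
      rw [mem_closedBall_zero_iff]
      have hg' : ‖g‖ ≤ 1 := hg
      calc ‖ψ (T g)‖ ≤ ‖ψ‖ * ‖T g‖ := ψ.le_opNorm _
        _ ≤ 1 * (‖T‖ * 1) := by
            refine mul_le_mul hψ ?_ (norm_nonneg _) zero_le_one
            exact (T.le_opNorm g).trans
              (mul_le_mul_of_nonneg_left hg' (ContinuousLinearMap.opNorm_nonneg T))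
        _ = ‖T‖ := by ring)
  have hL' : Tendsto (fun g => ψ (T g)) 𝒰 (𝓝 L) := hL
  have hev := (Metric.tendsto_nhds.1 hL' (ε / 3) (by linarith))
  set U : Set C(K, ℝ) := {g | dist (ψ (T g)) L < ε / 3} with hUdef
  obtain ⟨g, hg, hgn, hgl⟩ := hU U hev
  have hgL : |ψ (T g) - L| ≤ ε / 3 := by
    have hconv : Convex ℝ {g : C(K, ℝ) | |ψ (T g) - L| ≤ ε / 3} := by
      have h1 : {g : C(K, ℝ) | |ψ (T g) - L| ≤ ε / 3} =
          (ψ.comp T : C(K, ℝ) →L[ℝ] ℝ) ⁻¹' Set.Icc (L - ε / 3) (L + ε / 3) := by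
        ext g
        change |ψ (T g) - L| ≤ ε / 3 ↔ L - ε / 3 ≤ ψ (T g) ∧ ψ (T g) ≤ L + ε / 3
        rw [abs_le]
        constructor <;> rintro ⟨h1, h2⟩ <;> constructor <;> linarith
      rw [h1]
      exact (convex_Icc _ _).linear_preimage (ψ.comp T : C(K, ℝ) →ₗ[ℝ] ℝ)
    exact convexHull_min (fun g (hg : dist (ψ (T g)) L < ε / 3) => by
      rw [Real.dist_eq] at hg
      exact hg.le) hconv hg
  have h1 : ‖T (g - h)‖ ≤ ε / 3 := hest (g - h) ((norm_sub_le _ _).trans (by linarith)) hgl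
  have h2 : |ψ (T g) - ψ (T h)| ≤ ε / 3 := by
    rw [← map_sub, ← map_sub]
    exact (ψ.le_opNorm _).trans ((mul_le_mul hψ h1 (norm_nonneg _) zero_le_one).trans
      (one_mul _).le)
  filter_upwards [hev] with g' hg'
  rw [Real.dist_eq] at hg'
  rw [abs_le] at hgL h2 ⊢
  rw [abs_lt] at hg'
  constructor <;> linarith [hgL.1, hgL.2, h2.1, h2.2, hg'.1, hg'.2]

end ck

end Pool.Agent.V1198.RD
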