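import Pool.Agent.V1198.RD2

/-!
# The reciprocal Dunford-Pettis property of `C(K)` and of `ℓ₂`-sums
-/

set_option autoImplicit false
set_option linter.unusedSectionVars false
set_option linter.unusedVariables false

noncomputable section

open Filter Topology

namespace Pool.Agent.V1198.RD

open Pool.Agent.V1198.BL Pool.Agent.V1198.PJ

section gen

variable {X Y : Type} [NormedAddCommGroup X] [NormedSpace ℝ X]
  [NormedAddCommGroup Y] [NormedSpace ℝ Y]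

/-- Weakly null sequences are mapped to norm null sequences. -/
def CCn (T : X →L[ℝ] Y) : Prop := ∀ x : ℕ → X,
  (∀ φ : StrongDual ℝ X, Tendsto (fun n => φ (x n)) atTop (𝓝 0)) →
  Tendsto (fun n => T (x n)) atTop (𝓝 0)

/-- Ultrafilters on the unit ball have weak limits after applying `T`. -/
def WL (T : X →L[ℝ] Y) : Prop := ∀ 𝒰 : Ultrafilter X, {x : X | ‖x‖ ≤ 1} ∈ 𝒰 →
  ∃ y : Y, ∀ ψ : StrongDual ℝ Y, Tendsto (fun x => ψ (T x)) 𝒰 (𝓝 (ψ y))

theorem CCn.comp {Z : Type} [NormedAddCommGroup Z] [NormedSpace ℝ Z] {T : X →L[ℝ] Y}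
    (hT : CCn T) (S : Z →L[ℝ] X) : CCn (T.comp S) := fun x hx =>
  hT (fun n => S (x n)) fun φ => hx (φ.comp S)

theorem weak_null {x : ℕ → X} (h : ∀ (s : Finset ℕ) (σ : ℕ → ℝ), (∀ n, |σ n| ≤ 1) →
    ‖∑ n ∈ s, σ n • x n‖ ^ 2 ≤ s.card) (φ : StrongDual ℝ X) :
    Tendsto (fun n => φ (x n)) atTop (𝓝 0) := by
  classical
  rw [tendsto_zero_iff_abs_tendsto_zero]
  by_contra hcon
  obtain ⟨ε, hε, hfr⟩ := tendsto_or (fun n => abs_nonneg (φ (x n))) hcon
  have hinf : {n : ℕ | ε ≤ |φ (x n)|}.Infinite := by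
    rw [Set.infinite_iff_frequently_cofinite, Nat.cofinite_eq_atTop, frequently_atTop]
    exact hfr
  obtain ⟨N, hN⟩ := exists_nat_gt (‖φ‖ ^ 2 / ε ^ 2)
  obtain ⟨s, hs, hsc⟩ := hinf.exists_subset_card_eq N
  have hN0 : 0 < N := by
    rcases Nat.eq_zero_or_pos N with rfl | h1
    · exfalso
      have : 0 ≤ ‖φ‖ ^ 2 / ε ^ 2 := by positivity
      rw [Nat.cast_zero] at hN
      linarith
    · exact h1
  set σ : ℕ → ℝ := fun n => SignType.sign (φ (x n)) with hσ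
  have hσ1 : ∀ n, |σ n| ≤ 1 := fun n => by
    change |((SignType.sign (φ (x n)) : SignType) : ℝ)| ≤ 1
    rcases SignType.sign (φ (x n)) with _ | _ | _ <;> simp
  have h1 := h s σ hσ1
  have h2 : (N : ℝ) * ε ≤ ‖φ‖ * ‖∑ n ∈ s, σ n • x n‖ := by
    calc (N : ℝ) * ε = ∑ n ∈ s, ε := by rw [Finset.sum_const, hsc, nsmul_eq_mul]
      _ ≤ ∑ n ∈ s, |φ (x n)| := Finset.sum_le_sum fun n hn => hs hn
      _ = φ (∑ n ∈ s, σ n • x n) := by
          rw [map_sum]
          refine Finset.sum_congr rfl fun n _ => ?_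
          rw [map_smul, smul_eq_mul]
          exact (sign_mul_self _).symm
      _ ≤ ‖φ (∑ n ∈ s, σ n • x n)‖ := le_abs_self _
      _ ≤ _ := φ.le_opNorm _
  rw [hsc] at h1
  have hNr : (0 : ℝ) < N := by exact_mod_cast hN0
  have h3 : ((N : ℝ) * ε) ^ 2 ≤ ‖φ‖ ^ 2 * N := by
    calc ((N : ℝ) * ε) ^ 2 ≤ (‖φ‖ * ‖∑ n ∈ s, σ n • x n‖) ^ 2 :=
          pow_le_pow_left₀ (by positivity) h2 2
      _ = ‖φ‖ ^ 2 * ‖∑ n ∈ s, σ n • x n‖ ^ 2 := by ring
      _ ≤ _ := mul_le_mul_of_nonneg_left h1 (by positivity)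
  have h4 : (N : ℝ) * ε ^ 2 ≤ ‖φ‖ ^ 2 := by
    have h5 : (N : ℝ) * (N * ε ^ 2) ≤ N * ‖φ‖ ^ 2 := by nlinarith
    exact le_of_mul_le_mul_left h5 hNr
  rw [div_lt_iff₀ (by positivity)] at hN
  linarith

theorem one_nonzero {E : Type} [NormedAddCommGroup E] [NormedSpace ℝ E] (s : Finset ℕ)
    (σ : ℕ → ℝ) (hσ : ∀ n, |σ n| ≤ 1) (v : ℕ → E) (hv : ∀ m n, m < n → v m = 0 ∨ v n = 0) :
    ‖∑ n ∈ s, σ n • v n‖ ^ 2 ≤ ∑ n ∈ s, ‖v n‖ ^ 2 := by
  classical
  by_cases h : ∃ n ∈ s, v n ≠ 0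
  · obtain ⟨n, hn, hne⟩ := h
    have h1 : ∀ m, m ≠ n → v m = 0 := by
      intro m hmn
      rcases lt_or_gt_of_ne hmn with h2 | h2
      · exact (hv m n h2).resolve_right hne
      · exact (hv n m h2).resolve_left hne
    rw [Finset.sum_eq_single_of_mem n hn (fun m _ hmn => by rw [h1 m hmn, smul_zero])]
    refine le_trans ?_ (Finset.single_le_sum (f := fun n => ‖v n‖ ^ 2)
      (fun m _ => by positivity) hn)
    have h2 : ‖σ n • v n‖ ≤ ‖v n‖ := by
      rw [norm_smul]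
      exact mul_le_of_le_one_left (norm_nonneg _) (hσ n)
    exact pow_le_pow_left₀ (norm_nonneg _) h2 2
  · push Not at h
    rw [Finset.sum_eq_zero (fun n hn => by rw [h n hn, smul_zero]), norm_zero]
    have : 0 ≤ ∑ n ∈ s, ‖v n‖ ^ 2 := Finset.sum_nonneg fun n _ => by positivity
    simpa using this

end gen

section ck

variable {K : Type} [TopologicalSpace K] [CompactSpace K]
  {Y : Type} [NormedAddCommGroup Y] [NormedSpace ℝ Y] {T : C(K, ℝ) →L[ℝ] Y}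

theorem DP_of_CCn (hT : CCn T) : DP T := by
  intro f h0 h1 hd
  have hex : ∀ n : ℕ, ∃ g : C(K, ℝ), |g| ≤ f n ∧ p T (f n) - 1 / ((n : ℝ) + 1) < ‖T g‖ := by
    intro n
    have h2 : (0 : ℝ) < 1 / ((n : ℝ) + 1) := by positivity
    obtain ⟨_, ⟨g, hg, rfl⟩, h3⟩ := exists_lt_of_lt_csSup (s := pv T (f n))
      ⟨0, pv_zero T (h0 n)⟩ (show p T (f n) - 1 / ((n : ℝ) + 1) < sSup (pv T (f n)) from by
        have : p T (f n) = sSup (pv T (f n)) := rfl
        linarith)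
    exact ⟨g, hg, h3⟩
  choose g hg hgT using hex
  have hgd : ∀ t, ∀ m n, m < n → g m t = 0 ∨ g n t = 0 := by
    intro t m n hmn
    rcases hd m n hmn t with h2 | h2
    · left
      have h3 : |g m t| ≤ f m t := hg m t
      rw [h2] at h3
      exact abs_nonpos_iff.1 h3
    · right
      have h3 : |g n t| ≤ f n t := hg n t
      rw [h2] at h3
      exact abs_nonpos_iff.1 h3
  have hwn := hT g (weak_null fun s σ hσ => by
    have h2 : ‖∑ n ∈ s, σ n • g n‖ ≤ Real.sqrt s.card := by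
      refine (ContinuousMap.norm_le _ (Real.sqrt_nonneg _)).2 fun t => ?_
      apply Real.le_sqrt_of_sq_le
      have h3 : (∑ n ∈ s, σ n • g n) t = ∑ n ∈ s, σ n • g n t := by
        rw [ContinuousMap.sum_apply]
        rfl
      rw [h3]
      refine (one_nonzero s σ hσ (fun n => g n t) (hgd t)).trans ?_
      calc ∑ n ∈ s, ‖g n t‖ ^ 2 ≤ ∑ n ∈ s, (1 : ℝ) := by
            refine Finset.sum_le_sum fun n _ => ?_
            have h4 : |g n t| ≤ f n t := hg n t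
            have h5 : f n t ≤ 1 := h1 n t
            rw [Real.norm_eq_abs]
            exact pow_le_one₀ (abs_nonneg _) (h4.trans h5)
        _ = s.card := by rw [Finset.sum_const, nsmul_eq_mul, mul_one]
    calc ‖∑ n ∈ s, σ n • g n‖ ^ 2 ≤ (Real.sqrt s.card) ^ 2 :=
          pow_le_pow_left₀ (norm_nonneg _) h2 2
      _ = s.card := Real.sq_sqrt (Nat.cast_nonneg _))
  have h2 : Tendsto (fun n => ‖T (g n)‖ + 1 / ((n : ℝ) + 1)) atTop (𝓝 (0 + 0)) := by
    have h3 := hwn.norm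
    rw [norm_zero] at h3
    exact h3.add tendsto_one_div_add_atTop_nhds_zero_nat
  rw [zero_add] at h2
  exact squeeze_zero (fun n => p_nonneg T (h0 n)) (fun n => by have := hgT n; linarith) h2

theorem WL_CK [CompleteSpace Y] (hT : CCn T) : WL T := fun 𝒰 h𝒰 =>
  weak_limit_CK (DP_of_CCn hT) 𝒰 h𝒰

end ck

/-! ### `ℓ₂`-sums -/

section sum

variable {E : ℕ → Type} [∀ k, NormedAddCommGroup (E k)] [∀ k, NormedSpace ℝ (E k)]
  {Y : Type} [NormedAddCommGroup Y] [NormedSpace ℝ Y]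

/-- Truncation. -/
def Tr (n : ℕ) (x : lp E 2) : lp E 2 := ∑ i ∈ Finset.range n, lp.single 2 i (x i)

theorem Tr_apply (n : ℕ) (x : lp E 2) (i : ℕ) : Tr n x i = if i < n then x i else 0 := by
  have h1 : (Tr n x : ∀ i, E i) = fun i => if i < n then x i else 0 := by
    unfold Tr
    rw [lp.coeFn_sum]
    funext i
    rw [Finset.sum_apply]
    simp only [lp.single_apply]
    rw [Finset.sum_pi_single]
    simp only [Finset.mem_range]
  rw [h1]

theorem Tr_tendsto (x : lp E 2) : Tendsto (fun n => Tr n x) atTop (𝓝 x) :=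
  (lp.hasSum_single (by norm_num) x).tendsto_sum_nat

theorem sq_norm (x : lp E 2) : HasSum (fun i => ‖x i‖ ^ 2) (‖x‖ ^ 2) := by
  have := lp.hasSum_norm (p := 2) (by norm_num) x
  simpa using this

theorem blocks {y : ℕ → lp E 2} (h1 : ∀ n, ‖y n‖ ≤ 1)
    (hd : ∀ i m n, m < n → y m i = 0 ∨ y n i = 0) (s : Finset ℕ) (σ : ℕ → ℝ)
    (hσ : ∀ n, |σ n| ≤ 1) : ‖∑ n ∈ s, σ n • y n‖ ^ 2 ≤ s.card := by
  have h2 := sq_norm (∑ n ∈ s, σ n • y n)
  have h3 : HasSum (fun i => ∑ n ∈ s, ‖y n i‖ ^ 2) (∑ n ∈ s, ‖y n‖ ^ 2) :=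
    hasSum_sum fun n _ => sq_norm (y n)
  refine (hasSum_le (fun i => ?_) h2 h3).trans ?_
  · have h4 : (∑ n ∈ s, σ n • y n : lp E 2) i = ∑ n ∈ s, σ n • y n i := by
      rw [lp.coeFn_sum, Finset.sum_apply]
      rfl
    rw [h4]
    exact one_nonzero s σ hσ (fun n => y n i) (hd i)
  · calc ∑ n ∈ s, ‖y n‖ ^ 2 ≤ ∑ n ∈ s, (1 : ℝ) :=
          Finset.sum_le_sum fun n _ => pow_le_one₀ (norm_nonneg _) (h1 n)
      _ = s.card := by rw [Finset.sum_const, nsmul_eq_mul, mul_one]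

theorem tails {T : lp E 2 →L[ℝ] Y} (hT : CCn T) {ε : ℝ} (hε : 0 < ε) :
    ∃ n, ∀ x : lp E 2, ‖x‖ ≤ 1 → ‖T (x - Tr n x)‖ ≤ ε := by
  by_contra hcon
  push Not at hcon
  choose x hx1 hx2 using hcon
  have hex : ∀ n, ∃ m, n < m ∧ ε < ‖T (Tr m (x n) - Tr n (x n))‖ := by
    intro n
    have h1 : Tendsto (fun m => ‖T (Tr m (x n) - Tr n (x n))‖) atTop
        (𝓝 ‖T (x n - Tr n (x n))‖) :=
      ((T.continuous.tendsto _).comp ((Tr_tendsto (x n)).sub_const _)).norm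
    obtain ⟨m, hm1, hm2⟩ := ((h1.eventually (lt_mem_nhds (hx2 n))).and
      (eventually_gt_atTop n)).exists
    exact ⟨m, hm2, hm1⟩
  choose g hg1 hg2 using hex
  set φ : ℕ → ℕ := fun j => g^[j] 0 with hφ
  have hφs : ∀ j, φ (j + 1) = g (φ j) := fun j => Function.iterate_succ_apply' g j 0
  have hφm : StrictMono φ := strictMono_nat_of_lt_succ fun j => by rw [hφs]; exact hg1 _
  set y : ℕ → lp E 2 := fun j => Tr (φ (j + 1)) (x (φ j)) - Tr (φ j) (x (φ j)) with hy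
  have hyi : ∀ j i, y j i = if φ j ≤ i ∧ i < φ (j + 1) then x (φ j) i else 0 := by
    intro j i
    have h1 : y j i = Tr (φ (j + 1)) (x (φ j)) i - Tr (φ j) (x (φ j)) i := rfl
    rw [h1, Tr_apply, Tr_apply]
    have h2 : φ j < φ (j + 1) := hφm (Nat.lt_succ_self j)
    by_cases h3 : i < φ j
    · rw [if_pos (by omega), if_pos h3, if_neg (by omega), sub_self]
    · rw [if_neg h3, sub_zero]
      by_cases h4 : i < φ (j + 1)
      · rw [if_pos h4, if_pos ⟨by omega, h4⟩]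
      · rw [if_neg h4, if_neg (by omega)]
  have hy1 : ∀ j, ‖y j‖ ≤ 1 := by
    intro j
    have h1 := hasSum_le (fun i => ?_) (sq_norm (y j)) (sq_norm (x (φ j)))
    · have h2 : ‖y j‖ ≤ ‖x (φ j)‖ := (sq_le_sq₀ (norm_nonneg _) (norm_nonneg _)).1 h1
      exact h2.trans (hx1 _)
    · rw [hyi]
      split_ifs
      · exact le_rfl
      · rw [norm_zero]; exact pow_le_pow_left₀ le_rfl (norm_nonneg _) 2
  have hd : ∀ i m n, m < n → y m i = 0 ∨ y n i = 0 := by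
    intro i m n hmn
    rw [hyi, hyi]
    by_cases h1 : i < φ (m + 1)
    · right
      have h2 : φ (m + 1) ≤ φ n := hφm.monotone hmn
      rw [if_neg (by omega)]
    · left
      rw [if_neg (by omega)]
  have hlim := (hT y (weak_null fun s σ hσ => blocks hy1 hd s σ hσ)).norm
  rw [norm_zero] at hlim
  obtain ⟨j, hj⟩ := (hlim.eventually (gt_mem_nhds hε)).exists
  have h1 := hg2 (φ j)
  rw [← hφs] at h1
  linarith

theorem WL_sum [CompleteSpace Y] (hE : ∀ k (S : E k →L[ℝ] Y), CCn S → WL S)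
    {T : lp E 2 →L[ℝ] Y} (hT : CCn T) : WL T := by
  intro 𝒰 h𝒰
  refine weak_limit_of_approx 𝒰 (fun x => T x) fun ε hε => ?_
  obtain ⟨n, hn⟩ := tails hT (half_pos hε)
  set J : ∀ k, E k →L[ℝ] lp E 2 := fun k => lp.singleContinuousLinearMap ℝ E 2 k with hJ
  have hex : ∀ k, ∃ y : Y, ∀ ψ : StrongDual ℝ Y,
      Tendsto (fun x : lp E 2 => ψ (T (J k (x k)))) 𝒰 (𝓝 (ψ y)) := by
    intro k
    obtain ⟨y, hy⟩ := hE k (T.comp (J k)) (hT.comp (J k)) (𝒰.map fun x : lp E 2 => x k)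
      (Filter.mem_map.2 (mem_of_superset h𝒰 fun x hx =>
        (lp.norm_apply_le_norm (by norm_num) x k).trans hx))
    exact ⟨y, fun ψ => hy ψ⟩
  choose y hy using hex
  refine ⟨∑ k ∈ Finset.range n, y k, fun ψ hψ => ?_⟩
  have h1 : Tendsto (fun x : lp E 2 => ψ (T (Tr n x))) 𝒰 (𝓝 (ψ (∑ k ∈ Finset.range n, y k))) := by
    have h2 : ∀ x : lp E 2, ψ (T (Tr n x)) = ∑ k ∈ Finset.range n, ψ (T (J k (x k))) := by
      intro x
      unfold Tr
      rw [map_sum, map_sum]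
      rfl
    simp only [h2, map_sum]
    exact tendsto_finsetSum _ fun k _ => hy k ψ
  have h2 := Metric.tendsto_nhds.1 h1 (ε / 2) (half_pos hε)
  filter_upwards [h2, h𝒰] with x hx hx1
  rw [Real.dist_eq] at hx
  have h3 : ψ (T x) = ψ (T (x - Tr n x)) + ψ (T (Tr n x)) := by
    rw [← map_add, ← map_add, sub_add_cancel]
  have h4 : |ψ (T (x - Tr n x))| ≤ ε / 2 := by
    refine (ψ.le_opNorm _).trans ?_
    calc ‖ψ‖ * ‖T (x - Tr n x)‖ ≤ 1 * (ε / 2) :=
          mul_le_mul hψ (hn x hx1) (norm_nonneg _) zero_le_one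
      _ = ε / 2 := one_mul _
  rw [h3]
  rw [abs_le] at h4 ⊢
  rw [abs_lt] at hx
  constructor <;> linarith [h4.1, h4.2, hx.1, hx.2]

end sum

end Pool.Agent.V1198.RD
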