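import Pool.Agent.V1198.RD3

/-!
# The spaces `X_k` and quantitative estimates on the Cantor space
-/

set_option autoImplicit false
set_option linter.unusedSectionVars false
set_option linter.unusedVariables false

noncomputable section

open Filter Topology

namespace Pool.Agent.V1198.RD

open Pool.Agent.V1198.MR (L1 Phi Phi_apply Phi_ge summ norm_eq)

/-- The Cantor space. -/
abbrev Dl : Type := ℕ → Bool

/-- Signs. -/
def rr (n : ℕ) (t : Dl) : ℝ := if t n then 1 else -1

theorem rr_abs (n : ℕ) (t : Dl) : |rr n t| ≤ 1 := by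
  unfold rr
  split_ifs <;> simp

theorem rr_cont (n : ℕ) : Continuous (rr n) :=
  (continuous_of_discreteTopology (f := fun b : Bool => if b then (1 : ℝ) else -1)).comp
    (continuous_apply n)

/-- The functional on `ℓ₁` given by a point of the Cantor space. -/
def pt (t : Dl) : L1 ℕ →L[ℝ] ℝ := Phi (fun n => rr n t) fun n => rr_abs n t

theorem pt_apply (t : Dl) (a : L1 ℕ) : pt t a = ∑' n, rr n t * a n := rfl

theorem pt_le (t : Dl) (a : L1 ℕ) : |pt t a| ≤ ‖a‖ := by
  rw [pt_apply, norm_eq]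
  have h1 := MR.summ' a fun n => rr_abs n t
  refine (norm_tsum_le_tsum_norm h1.norm).trans ?_
  refine Summable.tsum_le_tsum (fun n => ?_) h1.norm (summ a)
  rw [norm_mul]
  exact mul_le_of_le_one_left (abs_nonneg _) (rr_abs n t)

/-- The map `R : ℓ₁ → C(Δ)`. -/
def R (a : L1 ℕ) : C(Dl, ℝ) := ⟨fun t => pt t a, by
  change Continuous fun t => ∑' n, rr n t * a n
  refine continuous_tsum (fun n => (rr_cont n).mul continuous_const) (summ a) fun n t => ?_
  rw [norm_mul]
  exact mul_le_of_le_one_left (abs_nonneg _) (rr_abs n t)⟩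

theorem R_apply (a : L1 ℕ) (t : Dl) : R a t = pt t a := rfl

theorem R_add (a b : L1 ℕ) : R (a + b) = R a + R b := by
  ext t; exact map_add (pt t) a b

theorem R_sub (a b : L1 ℕ) : R (a - b) = R a - R b := by
  ext t; exact map_sub (pt t) a b

theorem R_neg (a : L1 ℕ) : R (-a) = -R a := by
  ext t; exact map_neg (pt t) a

theorem R_smul (c : ℝ) (a : L1 ℕ) : R (c • a) = c • R a := by
  ext t; exact map_smul (pt t) c a

theorem R_zero : R 0 = 0 := by
  ext t; exact map_zero (pt t)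

theorem R_norm (a : L1 ℕ) : ‖R a‖ ≤ ‖a‖ :=
  (ContinuousMap.norm_le _ (norm_nonneg _)).2 fun t => pt_le t a

/-- The Rademacher functions. -/
def rad (n : ℕ) : C(Dl, ℝ) := ⟨rr n, rr_cont n⟩

theorem R_single (n : ℕ) : R (lp.single 1 n (1 : ℝ)) = rad n := by
  ext t
  rw [R_apply, pt_apply, tsum_eq_single n]
  · rw [lp.single_apply_self, mul_one]; rfl
  · intro m hm
    rw [lp.single_apply_ne 1 n _ hm, mul_zero]

/-- The quantitative form of the Schur property, for pointwise convergence on the Cantor space. -/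
theorem quant {a : ℕ → L1 ℕ} {ρ : ℝ}
    (h : ∀ t : Dl, ∃ m, ∀ i ≥ m, ∀ j ≥ m, |pt t (a i - a j)| ≤ ρ) :
    ∃ m, ∀ i ≥ m, ∀ j ≥ m, ‖a i - a j‖ ≤ 3 * ρ := by
  classical
  set F : ℕ → Set Dl := fun m => {t | ∀ i ≥ m, ∀ j ≥ m, |pt t (a i - a j)| ≤ ρ} with hF
  have hFc : ∀ m, IsClosed (F m) := by
    intro m
    have h1 : F m = ⋂ i ≥ m, ⋂ j ≥ m, {t | |pt t (a i - a j)| ≤ ρ} := by
      ext t
      simp only [hF, Set.mem_ofPred_eq, Set.mem_iInter]
    rw [h1]
    refine isClosed_iInter fun i => isClosed_iInter fun _ => isClosed_iInter fun j =>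
      isClosed_iInter fun _ => isClosed_le ?_ continuous_const
    exact (R (a i - a j)).continuous.abs
  have hFu : ⋃ m, F m = Set.univ := by
    rw [Set.eq_univ_iff_forall]
    intro t
    obtain ⟨m, hm⟩ := h t
    exact Set.mem_iUnion.2 ⟨m, hm⟩
  obtain ⟨m, s, hs⟩ := nonempty_interior_of_iUnion_of_closed hFc hFu
  obtain ⟨I, u, hu1, hu2⟩ := isOpen_pi_iff.1 isOpen_interior s hs
  have hcyl : ∀ t : Dl, (∀ n ∈ I, t n = s n) → ∀ i ≥ m, ∀ j ≥ m, |pt t (a i - a j)| ≤ ρ := by
    intro t ht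
    have h1 : t ∈ F m := interior_subset (hu2 fun n hn => by
      rw [ht n hn]
      exact (hu1 n hn).2)
    exact h1
  choose M hM using h
  set tS : Finset ℕ → Dl := fun S n => decide (n ∈ S) with htS
  set m' : ℕ := max m (I.powerset.sup fun S => M (tS S)) with hm'
  refine ⟨m', fun i hi j hj => ?_⟩
  have him : i ≥ m := (le_max_left _ _).trans hi
  have hjm : j ≥ m := (le_max_left _ _).trans hj
  set b : L1 ℕ := a i - a j with hb
  -- the tail
  have htail : ‖b‖ - ∑ n ∈ I, |b n| ≤ ρ := by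
    set t : Dl := fun n => if n ∈ I then s n else decide (0 ≤ b n) with ht
    set t' : Dl := fun n => if n ∈ I then s n else !(decide (0 ≤ b n)) with ht'
    have h1 := hcyl t (fun n hn => by simp only [ht, if_pos hn]) i him j hjm
    have h2 := hcyl t' (fun n hn => by simp only [ht', if_pos hn]) i him j hjm
    have h3 : HasSum (fun n => rr n t * b n - rr n t' * b n) (pt t b - pt t' b) :=
      (MR.summ' b fun n => rr_abs n t).hasSum.sub (MR.summ' b fun n => rr_abs n t').hasSum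
    have h4 : HasSum (fun n => 2 * (|b n| - if n ∈ I then |b n| else 0))
        (2 * (‖b‖ - ∑ n ∈ I, |b n|)) := by
      refine HasSum.mul_left 2 (HasSum.sub ?_ ?_)
      · rw [norm_eq]; exact (summ b).hasSum
      · have h5 : HasSum (fun n => if n ∈ I then |b n| else 0)
            (∑ n ∈ I, if n ∈ I then |b n| else 0) :=
          hasSum_sum_of_ne_finset_zero (fun n hn => if_neg hn)
        rwa [Finset.sum_congr rfl fun n hn => if_pos hn] at h5
    have h5 : (fun n => rr n t * b n - rr n t' * b n) =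
        fun n => 2 * (|b n| - if n ∈ I then |b n| else 0) := by
      funext n
      by_cases hn : n ∈ I
      · have e1 : rr n t = rr n t' := by
          unfold rr
          simp only [ht, ht', if_pos hn]
        rw [e1, if_pos hn]
        ring
      · rw [if_neg hn]
        by_cases h0 : 0 ≤ b n
        · have e1 : rr n t = 1 := by
            unfold rr
            simp only [ht, if_neg hn]
            simp [h0]
          have e2 : rr n t' = -1 := by
            unfold rr
            simp only [ht', if_neg hn]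
            simp [h0]
          rw [e1, e2, abs_of_nonneg h0]
          ring
        · have e1 : rr n t = -1 := by
            unfold rr
            simp only [ht, if_neg hn]
            simp [h0]
          have e2 : rr n t' = 1 := by
            unfold rr
            simp only [ht', if_neg hn]
            simp [h0]
          rw [e1, e2, abs_of_neg (not_le.1 h0)]
          ring
    rw [h5] at h3
    have h6 := h3.unique h4
    rw [abs_le] at h1 h2
    linarith [h1.1, h1.2, h2.1, h2.2]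
  set S : Finset ℕ := I.filter fun n => 0 ≤ b n with hS
  have hMS : M (tS S) ≤ m' := (Finset.le_sup (f := fun S => M (tS S))
    (Finset.mem_powerset.2 (Finset.filter_subset _ _))).trans (le_max_right _ _)
  have h1 := hM (tS S) i (hMS.trans hi) j (hMS.trans hj)
  have h2 := Phi_ge (fun n => rr n (tS S)) (fun n => rr_abs n _) b I (by
    intro n hn
    change rr n (tS S) * b n = |b n|
    by_cases h0 : 0 ≤ b n
    · have e1 : rr n (tS S) = 1 := by
        unfold rr
        rw [if_pos (by simp only [htS]; exact decide_eq_true (Finset.mem_filter.2 ⟨hn, h0⟩))]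
      rw [e1, one_mul, abs_of_nonneg h0]
    · have e1 : rr n (tS S) = -1 := by
        unfold rr
        rw [if_neg]
        simp only [htS]
        intro h3
        exact h0 (Finset.mem_filter.1 (of_decide_eq_true h3)).2
      rw [e1, abs_of_neg (not_le.1 h0)]
      ring)
  have h3 : 2 * ∑ n ∈ I, |b n| - ‖b‖ ≤ pt (tS S) b := h2
  have h4 := (abs_le.1 h1).2
  linarith

/-! ### The norms -/

/-- The norm of `X_k`. -/
def NN (k : ℕ) (x : C(Dl, ℝ)) : ℝ := ⨅ a : L1 ℕ, (((k : ℝ) + 1) * ‖x - R a‖ + ‖a‖)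

variable (k : ℕ)

theorem NN_bdd (x : C(Dl, ℝ)) :
    BddBelow (Set.range fun a : L1 ℕ => (((k : ℝ) + 1) * ‖x - R a‖ + ‖a‖)) :=
  ⟨0, by rintro _ ⟨a, rfl⟩; positivity⟩

theorem NN_le (x : C(Dl, ℝ)) (a : L1 ℕ) : NN k x ≤ ((k : ℝ) + 1) * ‖x - R a‖ + ‖a‖ :=
  ciInf_le (NN_bdd k x) a

theorem le_NN {x : C(Dl, ℝ)} {c : ℝ} (h : ∀ a, c ≤ ((k : ℝ) + 1) * ‖x - R a‖ + ‖a‖) :
    c ≤ NN k x := le_ciInf h

theorem NN_near (x : C(Dl, ℝ)) {c : ℝ} (h : NN k x < c) :
    ∃ a, ((k : ℝ) + 1) * ‖x - R a‖ + ‖a‖ < c := exists_lt_of_ciInf_lt h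

theorem norm_le_NN (x : C(Dl, ℝ)) : ‖x‖ ≤ NN k x := by
  refine le_NN k fun a => ?_
  have h1 : ‖x‖ ≤ ‖x - R a‖ + ‖R a‖ := by
    have := norm_add_le (x - R a) (R a)
    rwa [sub_add_cancel] at this
  have h2 := R_norm a
  have h3 : 0 ≤ (k : ℝ) * ‖x - R a‖ := by positivity
  linarith

theorem NN_le_norm (x : C(Dl, ℝ)) : NN k x ≤ ((k : ℝ) + 1) * ‖x‖ := by
  have := NN_le k x 0
  rwa [R_zero, sub_zero, norm_zero, add_zero] at this

theorem NN_nonneg (x : C(Dl, ℝ)) : 0 ≤ NN k x := (norm_nonneg x).trans (norm_le_NN k x)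

theorem NN_rad (n : ℕ) : NN k (rad n) ≤ 1 := by
  have := NN_le k (rad n) (lp.single 1 n (1 : ℝ))
  rw [R_single, sub_self, norm_zero, mul_zero, zero_add] at this
  refine this.trans ?_
  rw [lp.norm_single (by norm_num), norm_one]

theorem NN_add (x y : C(Dl, ℝ)) : NN k (x + y) ≤ NN k x + NN k y := by
  refine le_of_forall_pos_le_add fun ε hε => ?_
  obtain ⟨a, ha⟩ := NN_near k x (show NN k x < NN k x + ε / 2 by linarith)
  obtain ⟨b, hb⟩ := NN_near k y (show NN k y < NN k y + ε / 2 by linarith)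
  have h1 := NN_le k (x + y) (a + b)
  have h2 : x + y - R (a + b) = (x - R a) + (y - R b) := by rw [R_add]; abel
  rw [h2] at h1
  have h3 := norm_add_le (x - R a) (y - R b)
  have h4 := norm_add_le a b
  have h5 : ((k : ℝ) + 1) * ‖(x - R a) + (y - R b)‖ ≤
      ((k : ℝ) + 1) * (‖x - R a‖ + ‖y - R b‖) := mul_le_mul_of_nonneg_left h3 (by positivity)
  linarith

theorem NN_smul_le (c : ℝ) (x : C(Dl, ℝ)) : NN k (c • x) ≤ |c| * NN k x := by
  refine le_of_forall_pos_le_add fun ε hε => ?_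
  obtain ⟨a, ha⟩ := NN_near k x (show NN k x < NN k x + ε / (|c| + 1) by
    have : 0 < ε / (|c| + 1) := by positivity
    linarith)
  have h1 := NN_le k (c • x) (c • a)
  rw [R_smul, ← smul_sub, norm_smul, norm_smul, Real.norm_eq_abs] at h1
  have h2 : |c| * (((k : ℝ) + 1) * ‖x - R a‖ + ‖a‖) ≤ |c| * (NN k x + ε / (|c| + 1)) :=
    mul_le_mul_of_nonneg_left ha.le (abs_nonneg _)
  have h3 : |c| * (ε / (|c| + 1)) ≤ ε := by
    rw [mul_div_assoc', div_le_iff₀ (by positivity)]
    nlinarith [abs_nonneg c]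
  nlinarith

theorem NN_neg (x : C(Dl, ℝ)) : NN k (-x) = NN k x := by
  have h : ∀ y : C(Dl, ℝ), NN k (-y) ≤ NN k y := fun y => by
    have := NN_smul_le k (-1) y
    rwa [abs_neg, abs_one, one_mul, neg_one_smul] at this
  exact le_antisymm (h x) (by have := h (-x); rwa [neg_neg] at this)

theorem NN_zero : NN k 0 = 0 := by
  have := NN_le_norm k 0
  rw [norm_zero, mul_zero] at this
  exact le_antisymm this (NN_nonneg k 0)

/-- The space `X_k`. -/
def XK (_ : ℕ) : Type := C(Dl, ℝ)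

instance : AddCommGroup (XK k) := inferInstanceAs (AddCommGroup C(Dl, ℝ))

instance : Module ℝ (XK k) := inferInstanceAs (Module ℝ C(Dl, ℝ))

/-- The norm as a group norm. -/
def NG : AddGroupNorm (XK k) where
  toFun := NN k
  map_zero' := NN_zero k
  add_le' := NN_add k
  neg' := NN_neg k
  eq_zero_of_map_eq_zero' x hx := by
    have h1 : ‖(show C(Dl, ℝ) from x)‖ ≤ NN k x := norm_le_NN k x
    have h2 : NN k x = 0 := hx
    rw [h2] at h1
    exact norm_le_zero_iff.1 h1

instance : NormedAddCommGroup (XK k) := (NG k).toNormedAddCommGroup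

theorem XK_norm (x : XK k) : ‖x‖ = NN k x := rfl

instance : NormedSpace ℝ (XK k) where
  norm_smul_le c x := NN_smul_le k c x

/-- The identity `X_k → C(Δ)` as a linear map. -/
def toCl : XK k →ₗ[ℝ] C(Dl, ℝ) where
  toFun x := x
  map_add' _ _ := rfl
  map_smul' _ _ := rfl

/-- The identity `C(Δ) → X_k` as a linear map. -/
def ofCl : C(Dl, ℝ) →ₗ[ℝ] XK k where
  toFun x := x
  map_add' _ _ := rfl
  map_smul' _ _ := rfl

/-- The identity `X_k → C(Δ)`. -/
def toC : XK k →L[ℝ] C(Dl, ℝ) :=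
  LinearMap.mkContinuous (toCl k) 1 fun x => by
    rw [one_mul]; exact norm_le_NN k x

/-- The identity `C(Δ) → X_k`. -/
def ofC : C(Dl, ℝ) →L[ℝ] XK k :=
  LinearMap.mkContinuous (ofCl k) ((k : ℝ) + 1) fun x => NN_le_norm k x

theorem toC_ofC (x : C(Dl, ℝ)) : toC k (ofC k x) = x := rfl

theorem ofC_toC (x : XK k) : ofC k (toC k x) = x := rfl

theorem toC_norm (x : XK k) : ‖toC k x‖ ≤ ‖x‖ := norm_le_NN k x

theorem ofC_norm (x : C(Dl, ℝ)) : ‖ofC k x‖ ≤ ((k : ℝ) + 1) * ‖x‖ := NN_le_norm k x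

instance : CompleteSpace (XK k) := by
  refine Metric.complete_of_cauchySeq_tendsto fun u hu => ?_
  have h1 : CauchySeq fun n => toC k (u n) := (toC k).uniformContinuous.comp_cauchySeq hu
  obtain ⟨x, hx⟩ := cauchySeq_tendsto_of_complete h1
  exact ⟨ofC k x, ((ofC k).continuous.tendsto x).comp hx⟩

theorem WL_XK {Y : Type} [NormedAddCommGroup Y] [NormedSpace ℝ Y] [CompleteSpace Y]
    (S : XK k →L[ℝ] Y) (hS : CCn S) : WL S := by
  intro 𝒰 h𝒰
  obtain ⟨y, hy⟩ := WL_CK (hS.comp (ofC k)) (𝒰.map (toC k)) (Filter.mem_map.2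
    (mem_of_superset h𝒰 fun x hx => (toC_norm k x).trans hx))
  exact ⟨y, fun ψ => hy ψ⟩

/-- The main estimate: pointwise Cauchy sequences in the unit ball of `X_k`. -/
theorem main_est {y : ℕ → C(Dl, ℝ)} (hy : ∀ i, NN k (y i) ≤ 1)
    (hc : ∀ t, CauchySeq fun i => y i t) :
    ∃ m, ∀ i ≥ m, ∀ j ≥ m, ‖y i - y j‖ ≤ 20 / ((k : ℝ) + 1) := by
  have hk : (0 : ℝ) < (k : ℝ) + 1 := by positivity
  have hex : ∀ i, ∃ a : L1 ℕ, ‖y i - R a‖ ≤ 2 / ((k : ℝ) + 1) := by
    intro i
    obtain ⟨a, ha⟩ := NN_near k (y i) (show NN k (y i) < 2 by linarith [hy i])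
    refine ⟨a, ?_⟩
    rw [le_div_iff₀ hk]
    have := norm_nonneg a
    linarith
  choose a ha using hex
  obtain ⟨m, hm⟩ := quant (a := a) (ρ := 5 / ((k : ℝ) + 1)) (by
    intro t
    obtain ⟨m, hm⟩ := Metric.cauchySeq_iff.1 (hc t) (1 / ((k : ℝ) + 1)) (by positivity)
    refine ⟨m, fun i hi j hj => ?_⟩
    have h1 := hm i hi j hj
    rw [Real.dist_eq] at h1
    have h2 : |(y i - R (a i)) t| ≤ 2 / ((k : ℝ) + 1) :=
      ((y i - R (a i)).norm_coe_le_norm t).trans (ha i)
    have h3 : |(y j - R (a j)) t| ≤ 2 / ((k : ℝ) + 1) :=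
      ((y j - R (a j)).norm_coe_le_norm t).trans (ha j)
    have e2 : (y i - R (a i)) t = y i t - pt t (a i) := rfl
    have e3 : (y j - R (a j)) t = y j t - pt t (a j) := rfl
    rw [e2] at h2
    rw [e3] at h3
    have h4 : (5 : ℝ) / ((k : ℝ) + 1) = 2 / ((k : ℝ) + 1) + 2 / ((k : ℝ) + 1) + 1 / ((k : ℝ) + 1) := by
      ring
    rw [map_sub, h4]
    rw [abs_le] at h2 h3 ⊢
    rw [abs_lt] at h1
    constructor <;> linarith [h1.1, h1.2, h2.1, h2.2, h3.1, h3.2])
  refine ⟨m, fun i hi j hj => ?_⟩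
  have h1 := hm i hi j hj
  have h2 : y i - y j = (y i - R (a i)) + R (a i - a j) - (y j - R (a j)) := by
    rw [R_sub]; abel
  rw [h2]
  refine (norm_sub_le _ _).trans ?_
  have h3 := norm_add_le (y i - R (a i)) (R (a i - a j))
  have h4 := R_norm (a i - a j)
  have h5 := ha i
  have h6 := ha j
  have h7 : (20 : ℝ) / ((k : ℝ) + 1) = 2 / ((k : ℝ) + 1) + 2 / ((k : ℝ) + 1) +
      3 * (5 / ((k : ℝ) + 1)) + 1 / ((k : ℝ) + 1) := by ring
  have h8 : (0 : ℝ) < 1 / ((k : ℝ) + 1) := by positivity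
  rw [h7]
  linarith

end Pool.Agent.V1198.RD
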