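import Pool.Agent.V1198.RD4

/-!
# The space: an `ℓ₂`-sum of renormings of `C(Δ)`
-/

set_option autoImplicit false
set_option linter.unusedSectionVars false
set_option linter.unusedVariables false

noncomputable section

open Filter Topology

namespace Pool.Agent.V1198.RD

section weak

variable {X Y : Type} [NormedAddCommGroup X] [NormedSpace ℝ X]
  [NormedAddCommGroup Y] [NormedSpace ℝ Y]

theorem weak_tendsto {I : Type} {l : Filter I} {f : I → Y} {y : Y}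
    (h : ∀ ψ : StrongDual ℝ Y, Tendsto (fun i => ψ (f i)) l (𝓝 (ψ y))) :
    Tendsto (fun i => toWeakSpace ℝ Y (f i)) l (𝓝 (toWeakSpace ℝ Y y)) := by
  have hind : Topology.IsInducing (fun (x : WeakSpace ℝ Y) (ψ : StrongDual ℝ Y) =>
    (topDualPairing ℝ Y).flip x ψ) := ⟨rfl⟩
  rw [hind.tendsto_nhds_iff, tendsto_pi_nhds]
  exact h

theorem weak_eval (ψ : StrongDual ℝ Y) : Continuous fun y : WeakSpace ℝ Y =>
    ψ ((toWeakSpace ℝ Y).symm y) :=
  WeakBilin.eval_continuous (topDualPairing ℝ Y).flip ψ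

/-- The filter generated by the open members. -/
def openF {Z : Type} [TopologicalSpace Z] (𝒱 : Filter Z) : Filter Z where
  sets := {S | ∃ U, IsOpen U ∧ U ∈ 𝒱 ∧ U ⊆ S}
  univ_sets := ⟨Set.univ, isOpen_univ, univ_mem, subset_rfl⟩
  sets_of_superset := by
    rintro S S' ⟨U, h1, h2, h3⟩ h
    exact ⟨U, h1, h2, h3.trans h⟩
  inter_sets := by
    rintro S S' ⟨U, h1, h2, h3⟩ ⟨V, h4, h5, h6⟩
    exact ⟨U ∩ V, h1.inter h4, inter_mem h2 h5, Set.inter_subset_inter h3 h6⟩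

theorem compact_of_WL {T : X →L[ℝ] Y} (hT : WL T) :
    IsCompact (closure (toWeakSpace ℝ Y '' (T '' Metric.closedBall 0 1))) := by
  rw [isCompact_iff_ultrafilter_le_nhds]
  intro 𝒱 h𝒱
  rw [le_principal_iff] at h𝒱
  set f : X → WeakSpace ℝ Y := fun x => toWeakSpace ℝ Y (T x) with hf
  set B : Set X := Metric.closedBall 0 1 with hB
  have hne : (comap f (openF (𝒱 : Filter (WeakSpace ℝ Y))) ⊓ 𝓟 B).NeBot := by
    rw [Filter.inf_principal_neBot_iff]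
    rintro U ⟨t, ⟨V, hV1, hV2, hV3⟩, htU⟩
    obtain ⟨z, hz1, hz2⟩ := Ultrafilter.nonempty_of_mem (inter_mem hV2 h𝒱)
    obtain ⟨_, hw1, ⟨_, ⟨x, hx, rfl⟩, rfl⟩⟩ := mem_closure_iff.1 hz2 V hV1 hz1
    exact ⟨x, htU (hV3 hw1), hx⟩
  set 𝒰 := Ultrafilter.of (comap f (openF (𝒱 : Filter (WeakSpace ℝ Y))) ⊓ 𝓟 B) with h𝒰
  have hle : (𝒰 : Filter X) ≤ comap f (openF (𝒱 : Filter (WeakSpace ℝ Y))) ⊓ 𝓟 B :=
    Ultrafilter.of_le _
  have hBU : B ∈ 𝒰 := hle (mem_inf_of_right (mem_principal_self B))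
  obtain ⟨y, hy⟩ := hT 𝒰 (mem_of_superset hBU fun x hx => mem_closedBall_zero_iff.1 hx)
  have hlim : Tendsto f 𝒰 (𝓝 (toWeakSpace ℝ Y y)) := weak_tendsto hy
  refine ⟨toWeakSpace ℝ Y y, ?_, ?_⟩
  · exact mem_closure_of_tendsto hlim (mem_of_superset hBU fun x hx => ⟨_, ⟨x, hx, rfl⟩, rfl⟩)
  · intro N hN
    obtain ⟨N', ⟨hN1, hN2⟩, hN3⟩ := (closed_nhds_basis (toWeakSpace ℝ Y y)).mem_iff.1 hN
    refine mem_of_superset ?_ hN3
    by_contra hcon
    have h1 : N'ᶜ ∈ 𝒱 := Ultrafilter.compl_mem_iff_notMem.2 hcon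
    have h2 : f ⁻¹' N'ᶜ ∈ 𝒰 := hle (mem_inf_of_left
      ⟨N'ᶜ, ⟨N'ᶜ, hN2.isOpen_compl, h1, subset_rfl⟩, subset_rfl⟩)
    have h3 : f ⁻¹' N' ∈ 𝒰 := hlim hN1
    obtain ⟨x, hx1, hx2⟩ := Ultrafilter.nonempty_of_mem (inter_mem h2 h3)
    exact hx1 hx2

end weak

/-- The space. -/
abbrev XX : Type := lp XK 2

theorem WL_XX {Y : Type} [NormedAddCommGroup Y] [NormedSpace ℝ Y] [CompleteSpace Y]
    {T : XX →L[ℝ] Y} (hT : CCn T) : WL T := WL_sum (fun k S hS => WL_XK k S hS) hT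

/-- The coordinate map into `C(Δ)`. -/
def PK (k : ℕ) : XX →L[ℝ] C(Dl, ℝ) := (toC k).comp (lp.evalCLM ℝ XK 2 k)

/-- The embedding of the coordinate space. -/
def JK (k : ℕ) : C(Dl, ℝ) →L[ℝ] XX := (lp.singleContinuousLinearMap ℝ XK 2 k).comp (ofC k)

theorem PK_JK (k : ℕ) (x : C(Dl, ℝ)) : PK k (JK k x) = x := by
  change toC k ((lp.single 2 k (ofC k x) : XX) k) = x
  rw [lp.single_apply_self]
  rfl

theorem JK_norm (k : ℕ) (x : C(Dl, ℝ)) : ‖JK k x‖ = NN k x := by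
  change ‖(lp.single 2 k (ofC k x) : XX)‖ = NN k x
  rw [lp.norm_single (by norm_num)]
  rfl

theorem PK_NN (k : ℕ) (x : XX) : NN k (PK k x) ≤ ‖x‖ :=
  lp.norm_apply_le_norm (by norm_num) x k

theorem PK_est (k : ℕ) {x : ℕ → XX} (hx : ∀ n, ‖x n‖ ≤ 1)
    (hc : ∀ φ : StrongDual ℝ XX, CauchySeq fun n => φ (x n)) :
    ∃ m, ∀ i ≥ m, ∀ j ≥ m, ‖PK k (x i) - PK k (x j)‖ ≤ 20 / ((k : ℝ) + 1) :=
  main_est k (fun i => (PK_NN k (x i)).trans (hx i)) fun t =>
    hc ((ContinuousMap.evalCLM ℝ t).comp (PK k))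

/-- Points used for the lower bound. -/
def tm (m : ℕ) : Dl := fun n => decide (n < m)

/-- The limit point. -/
def tt : Dl := fun _ => true

theorem tm_tendsto : Tendsto tm atTop (𝓝 tt) := by
  rw [tendsto_pi_nhds]
  intro n
  refine tendsto_const_nhds.congr' ?_
  filter_upwards [eventually_gt_atTop n] with m hm
  exact (decide_eq_true hm).symm

theorem rad_tt (n : ℕ) : rad n tt = 1 := rfl

theorem rad_tm {m n : ℕ} (h : m ≤ n) : rad n (tm m) = -1 := by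
  change (if tm m n then (1 : ℝ) else -1) = -1
  rw [if_neg]
  change ¬ (decide (n < m) = true)
  rw [decide_eq_true_iff]
  omega

/-- Evaluation functional on `X_0`, an isometric copy of `C(Δ)`. -/
def ev (t : Dl) : StrongDual ℝ (XK 0) := (ContinuousMap.evalCLM ℝ t : C(Dl, ℝ) →L[ℝ] ℝ).comp (toC 0)

theorem ev_norm (t : Dl) : ‖ev t‖ ≤ 1 := ContinuousLinearMap.opNorm_le_bound _ zero_le_one
  fun g => by
    rw [one_mul]
    exact ((toC 0 g).norm_coe_le_norm t).trans (toC_norm 0 g)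

/-- The Rademacher functions in `X_0`. -/
def rad0 (n : ℕ) : XK 0 := ofC 0 (rad n)

/-- The distance of weak* cluster points of the Rademacher functions to `C(Δ)`. -/
theorem cluster_dist {z : StrongDual ℝ (StrongDual ℝ (XK 0))}
    (hz : ∀ φ : StrongDual ℝ (XK 0), Tendsto (fun n => φ (rad0 n)) (hyperfilter ℕ) (𝓝 (z φ)))
    (f : XK 0) : 1 ≤ ‖z - NormedSpace.inclusionInDoubleDual ℝ (XK 0) f‖ := by
  set D := ‖z - NormedSpace.inclusionInDoubleDual ℝ (XK 0) f‖ with hD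
  set g : C(Dl, ℝ) := toC 0 f with hg
  have hev : ∀ t : Dl, |z (ev t) - g t| ≤ D := by
    intro t
    have h2 := (z - NormedSpace.inclusionInDoubleDual ℝ (XK 0) f).le_opNorm (ev t)
    have h3 : (z - NormedSpace.inclusionInDoubleDual ℝ (XK 0) f) (ev t) = z (ev t) - g t := rfl
    rw [h3, Real.norm_eq_abs] at h2
    refine h2.trans ?_
    calc D * ‖ev t‖ ≤ D * 1 := mul_le_mul_of_nonneg_left (ev_norm t)
            (ContinuousLinearMap.opNorm_nonneg _)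
      _ = D := mul_one D
  have hev2 : ∀ m, z (ev (tm m)) = -1 := by
    intro m
    refine tendsto_nhds_unique (hz (ev (tm m))) ?_
    refine tendsto_const_nhds.congr' ?_
    have h1 : ∀ᶠ n in atTop, (-1 : ℝ) = ev (tm m) (rad0 n) := by
      filter_upwards [eventually_ge_atTop m] with n hn
      exact (rad_tm hn).symm
    exact h1.filter_mono Nat.hyperfilter_le_atTop
  have hev1 : z (ev tt) = 1 := by
    refine tendsto_nhds_unique (hz (ev tt)) ?_
    exact tendsto_const_nhds.congr fun n => (rad_tt n).symm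
  have h1 := hev tt
  rw [hev1] at h1
  have h2 : ∀ m, 2 - |g tt - g (tm m)| ≤ 2 * D := by
    intro m
    have h3 := hev (tm m)
    rw [hev2] at h3
    have h4 : g tt - g (tm m) ≤ |g tt - g (tm m)| := le_abs_self _
    rw [abs_le] at h1 h3
    linarith [h1.1, h1.2, h3.1, h3.2]
  have h3 : Tendsto (fun m => 2 - |g tt - g (tm m)|) atTop (𝓝 (2 - |g tt - g tt|)) :=
    (((g.continuous.tendsto tt).comp tm_tendsto).const_sub _).abs.const_sub _
  rw [sub_self, abs_zero, sub_zero] at h3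
  have h4 := le_of_tendsto' h3 h2
  linarith

/-- The operators `T_k : X → X_0 = C(Δ)`. -/
def QK (k : ℕ) : XX →L[ℝ] XK 0 := (ofC 0).comp (PK k)

theorem QK_est (k : ℕ) {x : ℕ → XX} (hx : ∀ n, ‖x n‖ ≤ 1)
    (hc : ∀ φ : StrongDual ℝ XX, CauchySeq fun n => φ (x n)) :
    ∃ m, ∀ i ≥ m, ∀ j ≥ m, ‖QK k (x i) - QK k (x j)‖ ≤ 20 / ((k : ℝ) + 1) := by
  obtain ⟨m, hm⟩ := PK_est k hx hc
  refine ⟨m, fun i hi j hj => ?_⟩
  rw [← map_sub]
  have h1 := ofC_norm 0 (PK k (x i - x j))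
  rw [Nat.cast_zero, zero_add, one_mul, map_sub] at h1
  rw [map_sub]
  have h2 : QK k (x i) - QK k (x j) = ofC 0 (PK k (x i) - PK k (x j)) := by
    rw [map_sub]; rfl
  rw [h2]
  exact h1.trans (hm i hi j hj)

theorem JK_rad (k n : ℕ) : ‖JK k (rad n)‖ ≤ 1 := by
  rw [JK_norm]
  exact NN_rad k n

theorem QK_JK (k n : ℕ) : QK k (JK k (rad n)) = rad0 n := by
  change ofC 0 (PK k (JK k (rad n))) = _
  rw [PK_JK]
  rfl

end Pool.Agent.V1198.RD
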