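import Pool.Agent.V1198.RD5

/-!
# Weakly compact subsets of the unit ball, and convex combinations
-/

set_option autoImplicit false
set_option linter.unusedSectionVars false
set_option linter.unusedVariables false

noncomputable section

open Filter Topology

namespace Pool.Agent.V1198.RD

/-- Weakly compact subsets of the unit ball are nearly covered by finitely many balls. -/
theorem cover (k : ℕ) {L : Set XX} (hL : L ⊆ Metric.closedBall 0 1)
    (hc : IsCompact (toWeakSpace ℝ XX '' L)) : ∃ s : Finset XX, (∀ y ∈ s, y ∈ L) ∧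
      ∀ x ∈ L, ∃ y ∈ s, ‖PK k x - PK k y‖ ≤ 21 / ((k : ℝ) + 1) := by
  classical
  by_contra hcon
  push Not at hcon
  obtain ⟨x, hxL, hxr⟩ := exists_seq_of_forall_finset_exists (fun x : XX => x ∈ L)
    (fun y x => 21 / ((k : ℝ) + 1) < ‖PK k x - PK k y‖) (fun s hs => hcon s hs)
  -- a subsequence converging on a countable dense set
  set F : ℕ → ℕ → ℝ := fun n j => PK k (x n) (TopologicalSpace.denseSeq Dl j) with hF
  have hbd : ∀ n t, |PK k (x n) t| ≤ 1 := fun n t =>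
    ((PK k (x n)).norm_coe_le_norm t).trans ((norm_le_NN k _).trans ((PK_NN k _).trans
      (mem_closedBall_zero_iff.1 (hL (hxL n)))))
  obtain ⟨b, -, φ, hφ, hb⟩ := (isCompact_univ_pi fun _ : ℕ =>
    isCompact_Icc (a := (-1 : ℝ)) (b := 1)).tendsto_subseq (x := F) fun n j _ =>
      ⟨(abs_le.1 (hbd n _)).1, (abs_le.1 (hbd n _)).2⟩
  rw [tendsto_pi_nhds] at hb
  -- weak limits along ultrafilters
  have hlim : ∀ 𝒱 : Ultrafilter ℕ, (𝒱 : Filter ℕ) ≤ atTop → ∃ z : XX,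
      ∀ t : Dl, Tendsto (fun n => PK k (x (φ n)) t) 𝒱 (𝓝 (PK k z t)) := by
    intro 𝒱 h𝒱
    obtain ⟨_, ⟨z, -, rfl⟩, hz⟩ := hc.ultrafilter_le_nhds
      (𝒱.map fun n => toWeakSpace ℝ XX (x (φ n))) (by
        rw [le_principal_iff]
        exact Filter.mem_map.2 (Filter.univ_mem' fun n => ⟨_, hxL _, rfl⟩))
    refine ⟨z, fun t => ?_⟩
    have h1 := ((weak_eval (((ContinuousMap.evalCLM ℝ t : C(Dl, ℝ) →L[ℝ] ℝ).comp
      (PK k) : StrongDual ℝ XX))).tendsto (toWeakSpace ℝ XX z))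
    have hz' : Tendsto (fun n => toWeakSpace ℝ XX (x (φ n))) 𝒱 (𝓝 (toWeakSpace ℝ XX z)) := hz
    exact h1.comp hz'
  obtain ⟨z, hz⟩ := hlim (hyperfilter ℕ) Nat.hyperfilter_le_atTop
  have hall : ∀ 𝒱 : Ultrafilter ℕ, (𝒱 : Filter ℕ) ≤ atTop →
      ∀ t : Dl, Tendsto (fun n => PK k (x (φ n)) t) 𝒱 (𝓝 (PK k z t)) := by
    intro 𝒱 h𝒱
    obtain ⟨w, hw⟩ := hlim 𝒱 h𝒱
    have heq : PK k w = PK k z := by
      have h1 : (PK k w : Dl → ℝ) = PK k z := by
        refine Continuous.ext_on (TopologicalSpace.denseRange_denseSeq Dl)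
          (PK k w).continuous (PK k z).continuous ?_
        rintro _ ⟨j, rfl⟩
        have h2 := tendsto_nhds_unique (hw (TopologicalSpace.denseSeq Dl j))
          ((hb j).mono_left h𝒱)
        have h3 := tendsto_nhds_unique (hz (TopologicalSpace.denseSeq Dl j))
          ((hb j).mono_left Nat.hyperfilter_le_atTop)
        rw [h2, h3]
      exact DFunLike.coe_injective h1
    intro t
    rw [← heq]
    exact hw t
  have hconv : ∀ t, Tendsto (fun n => PK k (x (φ n)) t) atTop (𝓝 (PK k z t)) := by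
    intro t
    rw [tendsto_iff_ultrafilter]
    exact fun 𝒱 h𝒱 => hall 𝒱 h𝒱 t
  obtain ⟨m, hm⟩ := main_est k (y := fun n => PK k (x (φ n)))
    (fun n => (PK_NN k _).trans (mem_closedBall_zero_iff.1 (hL (hxL _))))
    (fun t => (hconv t).cauchySeq)
  have h1 := hm (m + 1) (by omega) m le_rfl
  have h2 := hxr (φ m) (φ (m + 1)) (hφ (Nat.lt_succ_self m))
  have h3 : (20 : ℝ) / ((k : ℝ) + 1) ≤ 21 / ((k : ℝ) + 1) := by gcongr; norm_num
  linarith

/-- The functionals `δ_t ∘ P_k`. -/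
def dl (k : ℕ) (t : Dl) : StrongDual ℝ XX :=
  (ContinuousMap.evalCLM ℝ t : C(Dl, ℝ) →L[ℝ] ℝ).comp (PK k)

theorem dl_apply (k : ℕ) (t : Dl) (x : XX) : dl k t x = PK k x t := rfl

theorem dl_norm (k : ℕ) (t : Dl) : ‖dl k t‖ ≤ 1 :=
  ContinuousLinearMap.opNorm_le_bound _ zero_le_one fun x => by
    rw [one_mul]
    exact ((PK k x).norm_coe_le_norm t).trans ((norm_le_NN k _).trans (PK_NN k x))

theorem cover_dual (k : ℕ) {L : Set XX} (hL : L ⊆ Metric.closedBall 0 1)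
    (hc : IsCompact (toWeakSpace ℝ XX '' L)) : ∃ s : Finset Dl,
      ∀ t, ∃ t' ∈ s, ∀ x ∈ L, |dl k t x - dl k t' x| ≤ 43 / ((k : ℝ) + 1) := by
  classical
  obtain ⟨s, hsL, hs⟩ := cover k hL hc
  have hk : (0 : ℝ) < 1 / ((k : ℝ) + 1) := by positivity
  have hU : ∀ t' : Dl, {t : Dl | ∀ y ∈ s, |PK k y t - PK k y t'| < 1 / ((k : ℝ) + 1)} ∈ 𝓝 t' := by
    intro t'
    have h1 : ∀ y ∈ s, ∀ᶠ t in 𝓝 t', |PK k y t - PK k y t'| < 1 / ((k : ℝ) + 1) := by
      intro y _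
      have h2 := Metric.tendsto_nhds.1 ((PK k y).continuous.tendsto t') _ hk
      filter_upwards [h2] with t ht
      rwa [Real.dist_eq] at ht
    exact (Finset.eventually_all s).2 h1
  obtain ⟨s', -, hs'⟩ := isCompact_univ.elim_nhds_subcover _ fun t' _ => hU t'
  refine ⟨s', fun t => ?_⟩
  obtain ⟨t', ht's, ht'⟩ := Set.mem_iUnion₂.1 (hs' (Set.mem_univ t))
  refine ⟨t', ht's, fun x hx => ?_⟩
  obtain ⟨y, hy, hxy⟩ := hs x hx
  have h1 : |PK k y t - PK k y t'| < 1 / ((k : ℝ) + 1) := ht' y hy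
  have h2 : ∀ u, |PK k x u - PK k y u| ≤ 21 / ((k : ℝ) + 1) := fun u =>
    ((PK k x - PK k y).norm_coe_le_norm u).trans hxy
  rw [dl_apply, dl_apply]
  have h3 := h2 t
  have h4 := h2 t'
  have h5 : (43 : ℝ) / ((k : ℝ) + 1) = 21 / ((k : ℝ) + 1) + 21 / ((k : ℝ) + 1) +
      1 / ((k : ℝ) + 1) := by ring
  rw [h5]
  rw [abs_le] at h3 h4 ⊢
  rw [abs_lt] at h1
  constructor <;> linarith [h1.1, h1.2, h3.1, h3.2, h4.1, h4.2]

/-- The lower bound. -/
theorem lower {Y : Type} [NormedAddCommGroup Y] [NormedSpace ℝ Y] {T : XX →L[ℝ] Y} (hT : WL T)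
    (k : ℕ) {ε : ℝ} (hε : 0 < ε) : ∃ (t : Dl) (x : XX), ‖x‖ ≤ 2 ∧ ‖T x‖ ≤ 2 * ε ∧
      dl k t x = 2 := by
  classical
  set u : ℕ → XX := fun n => JK k (rad n) with hu
  obtain ⟨y, hy⟩ := hT ((hyperfilter ℕ).map u) (Filter.mem_map.2
    (Filter.univ_mem' fun n => JK_rad k n))
  have hy' : ∀ ψ : StrongDual ℝ Y, Tendsto (fun n => ψ (T (u n))) (hyperfilter ℕ) (𝓝 (ψ y)) := hy
  have hcomb : ∀ N : ℕ, ∃ (ι : Type) (s : Finset ι) (w : ι → ℝ) (g : ι → ℕ),
      (∀ i ∈ s, 0 ≤ w i) ∧ ∑ i ∈ s, w i = 1 ∧ (∀ i ∈ s, N ≤ g i) ∧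
      ‖T (∑ i ∈ s, w i • u (g i)) - y‖ ≤ ε := by
    intro N
    set S : Set Y := (fun n => T (u n)) '' Set.Ici N with hS
    have h1 : toWeakSpace ℝ Y y ∈ closure (toWeakSpace ℝ Y '' convexHull ℝ S) := by
      refine mem_closure_of_tendsto (weak_tendsto hy') ?_
      have h2 : ∀ᶠ n in atTop, toWeakSpace ℝ Y (T (u n)) ∈ toWeakSpace ℝ Y '' convexHull ℝ S := by
        filter_upwards [eventually_ge_atTop N] with n hn
        exact ⟨_, subset_convexHull ℝ S ⟨n, hn, rfl⟩, rfl⟩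
      exact h2.filter_mono Nat.hyperfilter_le_atTop
    rw [← (convex_convexHull ℝ S).toWeakSpace_closure ℝ] at h1
    obtain ⟨y', hy', hyy⟩ := h1
    have hyy' : y' = y := (toWeakSpace ℝ Y).injective hyy
    rw [hyy'] at hy'
    obtain ⟨v, hv, hvy⟩ := Metric.mem_closure_iff.1 hy' ε hε
    rw [convexHull_eq] at hv
    obtain ⟨ι, s, w, z, hw0, hw1, hz, hc⟩ := hv
    have hex : ∀ i, ∃ n, i ∈ s → (N ≤ n ∧ T (u n) = z i) := by
      intro i
      by_cases hi : i ∈ s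
      · obtain ⟨n, hn, hn2⟩ := hz i hi
        exact ⟨n, fun _ => ⟨hn, hn2⟩⟩
      · exact ⟨0, fun h => absurd h hi⟩
    choose g hg using hex
    refine ⟨ι, s, w, g, hw0, hw1, fun i hi => (hg i hi).1, ?_⟩
    have h2 : T (∑ i ∈ s, w i • u (g i)) = v := by
      rw [← hc, Finset.centerMass_eq_of_sum_1 _ _ hw1, map_sum]
      refine Finset.sum_congr rfl fun i hi => ?_
      rw [map_smul, (hg i hi).2]
    rw [h2, ← dist_eq_norm, dist_comm]
    exact hvy.le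
  obtain ⟨ι₁, s₁, w₁, g₁, h10, h11, h1N, h1y⟩ := hcomb 0
  set N : ℕ := s₁.sup g₁ + 1 with hN
  obtain ⟨ι₂, s₂, w₂, g₂, h20, h21, h2N, h2y⟩ := hcomb N
  have hnorm : ∀ {ι : Type} (s : Finset ι) (w : ι → ℝ) (g : ι → ℕ), (∀ i ∈ s, 0 ≤ w i) →
      ∑ i ∈ s, w i = 1 → ‖∑ i ∈ s, w i • u (g i)‖ ≤ 1 := by
    intro ι s w g h0 h1
    refine (norm_sum_le _ _).trans ?_
    rw [← h1]
    refine Finset.sum_le_sum fun i hi => ?_
    rw [norm_smul, Real.norm_of_nonneg (h0 i hi)]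
    exact mul_le_of_le_one_right (h0 i hi) (JK_rad k _)
  have hdu : ∀ t n, dl k t (u n) = rad n t := by
    intro t n
    rw [dl_apply]
    change PK k (JK k (rad n)) t = _
    rw [PK_JK]
  refine ⟨tm N, ∑ i ∈ s₁, w₁ i • u (g₁ i) - ∑ i ∈ s₂, w₂ i • u (g₂ i), ?_, ?_, ?_⟩
  · have h1 := hnorm s₁ w₁ g₁ h10 h11
    have h2 := hnorm s₂ w₂ g₂ h20 h21
    exact (norm_sub_le _ _).trans (by linarith)
  · have h3 : T (∑ i ∈ s₁, w₁ i • u (g₁ i) - ∑ i ∈ s₂, w₂ i • u (g₂ i)) =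
        (T (∑ i ∈ s₁, w₁ i • u (g₁ i)) - y) - (T (∑ i ∈ s₂, w₂ i • u (g₂ i)) - y) := by
      rw [map_sub]; abel
    rw [h3]
    exact (norm_sub_le _ _).trans (by linarith)
  · rw [map_sub, map_sum, map_sum]
    have e1 : ∑ i ∈ s₁, dl k (tm N) (w₁ i • u (g₁ i)) = 1 := by
      rw [← h11]
      refine Finset.sum_congr rfl fun i hi => ?_
      rw [map_smul, hdu, smul_eq_mul]
      have h4 : g₁ i < N := Nat.lt_succ_of_le (Finset.le_sup (f := g₁) hi)
      have h5 : rad (g₁ i) (tm N) = 1 := by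
        change (if tm N (g₁ i) then (1 : ℝ) else -1) = 1
        rw [if_pos]
        exact decide_eq_true h4
      rw [h5, mul_one]
    have e2 : ∑ i ∈ s₂, dl k (tm N) (w₂ i • u (g₂ i)) = -1 := by
      rw [← h21, ← Finset.sum_neg_distrib]
      refine Finset.sum_congr rfl fun i hi => ?_
      rw [map_smul, hdu, smul_eq_mul, rad_tm (h2N i hi)]
      ring
    rw [e1, e2]
    norm_num

/-- The evaluation operator into `ℓ_∞(H)`. -/
def evH {X : Type} [NormedAddCommGroup X] [NormedSpace ℝ X] (H : Set (StrongDual ℝ X)) (C : ℝ)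
    (hH : ∀ h ∈ H, ‖h‖ ≤ C) : X →L[ℝ] lp (fun _ : H => ℝ) ⊤ :=
  LinearMap.mkContinuous
    { toFun := fun x => ⟨fun h => h.1 x, memℓp_infty ⟨C * ‖x‖, by
        rintro _ ⟨h, rfl⟩
        exact (h.1.le_opNorm x).trans (mul_le_mul_of_nonneg_right (hH h.1 h.2) (norm_nonneg _))⟩⟩
      map_add' := fun x y => by
        ext h
        exact map_add h.1 x y
      map_smul' := fun c x => by
        ext h
        exact map_smul h.1 c x } (max C 0) fun x => by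
    refine lp.norm_le_of_forall_le (by positivity) fun h => ?_
    exact (h.1.le_opNorm x).trans (mul_le_mul_of_nonneg_right ((hH h.1 h.2).trans
      (le_max_left _ _)) (norm_nonneg _))

theorem evH_apply {X : Type} [NormedAddCommGroup X] [NormedSpace ℝ X] (H : Set (StrongDual ℝ X))
    (C : ℝ) (hH : ∀ h ∈ H, ‖h‖ ≤ C) (x : X) (h : H) : evH H C hH x h = h.1 x := rfl

end Pool.Agent.V1198.RD
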