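import Mathlib

/-!
# Symmetric projective tensor products
-/

set_option autoImplicit false
set_option linter.unusedSectionVars false
set_option linter.unusedVariables false

noncomputable section

open Filter Topology
open scoped TensorProduct Pointwise

namespace Pool.Agent.V1198.SPT

/-- A Banach space is almost square. -/
def ASQ (X : Type*) [NormedAddCommGroup X] [NormedSpace ℝ X] : Prop :=
  ∀ (k : ℕ) (x : Fin k → X), (∀ i, ‖x i‖ = 1) → ∀ ε : ℝ, 0 < ε →
    ∃ y : X, ‖y‖ = 1 ∧ ∀ i, ‖x i + y‖ ≤ 1 + ε ∧ ‖x i - y‖ ≤ 1 + ε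

section defs

variable (N : ℕ) (X : Type) [NormedAddCommGroup X] [NormedSpace ℝ X]

/-- The elementary symmetric tensor `x ⊗ ⋯ ⊗ x` (`N` factors). -/
def pw (x : X) : ⨂[ℝ] _ : Fin N, X := PiTensorProduct.tprod ℝ fun _ => x

/-- The algebraic symmetric tensor product, as a subspace. -/
def STsub : Submodule ℝ (⨂[ℝ] _ : Fin N, X) := Submodule.span ℝ (Set.range (pw N X))

/-- The algebraic symmetric tensor product. -/
def ST : Type := STsub N X

instance : AddCommGroup (ST N X) := inferInstanceAs (AddCommGroup (STsub N X))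

instance : Module ℝ (ST N X) := inferInstanceAs (Module ℝ (STsub N X))

/-- The inclusion into the tensor product. -/
def inc : ST N X →ₗ[ℝ] ⨂[ℝ] _ : Fin N, X := (STsub N X).subtype

variable {N X}

/-- The numbers `∑ |λ_i| ‖x_i‖ ^ N` for the representations `t = ∑ λ_i x_i ^ {⊗ N}`. -/
def reps (t : ⨂[ℝ] _ : Fin N, X) : Set ℝ :=
  {r | ∃ (m : ℕ) (c : Fin m → ℝ) (x : Fin m → X),
    t = ∑ i, c i • pw N X (x i) ∧ r = ∑ i, |c i| * ‖x i‖ ^ N}

theorem reps_nonneg {t : ⨂[ℝ] _ : Fin N, X} {r : ℝ} (hr : r ∈ reps t) : 0 ≤ r := by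
  obtain ⟨m, c, x, -, rfl⟩ := hr
  exact Finset.sum_nonneg fun i _ => by positivity

theorem reps_bdd (t : ⨂[ℝ] _ : Fin N, X) : BddBelow (reps t) := ⟨0, fun _ hr => reps_nonneg hr⟩

theorem reps_zero : (0 : ℝ) ∈ reps (0 : ⨂[ℝ] _ : Fin N, X) :=
  ⟨0, Fin.elim0, Fin.elim0, by simp, by simp⟩

theorem reps_add {t t' : ⨂[ℝ] _ : Fin N, X} {r r' : ℝ} (hr : r ∈ reps t) (hr' : r' ∈ reps t') :
    r + r' ∈ reps (t + t') := by
  obtain ⟨m, c, x, rfl, rfl⟩ := hr
  obtain ⟨m', c', x', rfl, rfl⟩ := hr'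
  refine ⟨m + m', Fin.append c c', Fin.append x x', ?_, ?_⟩
  · rw [Fin.sum_univ_add]
    simp only [Fin.append_left, Fin.append_right]
  · rw [Fin.sum_univ_add]
    simp only [Fin.append_left, Fin.append_right]

theorem reps_smul {t : ⨂[ℝ] _ : Fin N, X} {r : ℝ} (a : ℝ) (hr : r ∈ reps t) :
    |a| * r ∈ reps (a • t) := by
  obtain ⟨m, c, x, rfl, rfl⟩ := hr
  refine ⟨m, fun i => a * c i, x, ?_, ?_⟩
  · rw [Finset.smul_sum]
    exact Finset.sum_congr rfl fun i _ => (mul_smul _ _ _).symm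
  · rw [Finset.mul_sum]
    exact Finset.sum_congr rfl fun i _ => by rw [abs_mul, mul_assoc]

theorem reps_pw (x : X) : ‖x‖ ^ N ∈ reps (pw N X x) :=
  ⟨1, fun _ => 1, fun _ => x, by simp, by simp⟩

theorem reps_nonempty (u : ST N X) : (reps (inc N X u)).Nonempty := by
  have h : ∀ t ∈ STsub N X, (reps t).Nonempty := by
    intro t ht
    refine Submodule.span_induction ?_ ?_ ?_ ?_ ht
    · rintro _ ⟨x, rfl⟩
      exact ⟨_, reps_pw x⟩
    · exact ⟨0, reps_zero⟩
    · rintro a b - - ⟨r, hr⟩ ⟨r', hr'⟩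
      exact ⟨_, reps_add hr hr'⟩
    · rintro a b - ⟨r, hr⟩
      exact ⟨_, reps_smul a hr⟩
  exact h _ u.2

/-- The symmetric projective norm. -/
def ps (u : ST N X) : ℝ := sInf (reps (inc N X u))

theorem ps_le {u : ST N X} {r : ℝ} (hr : r ∈ reps (inc N X u)) : ps u ≤ r :=
  csInf_le (reps_bdd _) hr

theorem ps_nonneg (u : ST N X) : 0 ≤ ps u := Real.sInf_nonneg fun _ hr => reps_nonneg hr

theorem le_mul_ps {u : ST N X} {a C : ℝ} (hC : 0 ≤ C)
    (h : ∀ r ∈ reps (inc N X u), a ≤ C * r) : a ≤ C * ps u := by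
  have h1 : C * ps u = sInf (C • reps (inc N X u)) := (Real.sInf_smul_of_nonneg hC _).symm
  rw [h1]
  refine le_csInf ((reps_nonempty u).smul_set) ?_
  rintro _ ⟨r, hr, rfl⟩
  exact h r hr

theorem ps_smul_le (a : ℝ) (u : ST N X) : ps (a • u) ≤ |a| * ps u :=
  le_mul_ps (abs_nonneg a) fun r hr => ps_le (by
    rw [map_smul]
    exact reps_smul a hr)

theorem ps_add_le (u v : ST N X) : ps (u + v) ≤ ps u + ps v := by
  have h1 : ∀ r ∈ reps (inc N X u), ps (u + v) - r ≤ 1 * ps v := fun r hr =>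
    le_mul_ps zero_le_one fun r' hr' => by
      have := ps_le (u := u + v) (r := r + r') (by
        rw [map_add]
        exact reps_add hr hr')
      linarith
  have h2 : ps (u + v) - ps v ≤ 1 * ps u := le_mul_ps zero_le_one fun r hr => by
    have := h1 r hr
    linarith
  linarith

/-- The seminorm. -/
def psn (N : ℕ) (X : Type) [NormedAddCommGroup X] [NormedSpace ℝ X] : AddGroupSeminorm (ST N X) where
  toFun := ps
  map_zero' := le_antisymm (ps_le (by rw [map_zero]; exact reps_zero)) (ps_nonneg _)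
  add_le' := ps_add_le
  neg' u := by
    have h : ∀ u : ST N X, ps (-u) ≤ ps u := fun u => by
      have := ps_smul_le (-1) u
      rwa [neg_one_smul, abs_neg, abs_one, one_mul] at this
    refine le_antisymm (h u) ?_
    have := h (-u)
    rwa [neg_neg] at this

instance : SeminormedAddCommGroup (ST N X) := (psn N X).toSeminormedAddCommGroup

theorem norm_def (u : ST N X) : ‖u‖ = ps u := rfl

instance : NormedSpace ℝ (ST N X) where
  norm_smul_le a u := ps_smul_le a u

/-- The completed symmetric projective tensor product. -/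
abbrev SymProj (N : ℕ) (X : Type) [NormedAddCommGroup X] [NormedSpace ℝ X] : Type :=
  UniformSpace.Completion (ST N X)

/-- The elementary symmetric tensors in `ST`. -/
def pwS (x : X) : ST N X := ⟨pw N X x, Submodule.subset_span ⟨x, rfl⟩⟩

/-- The elementary symmetric tensors in the completion. -/
def th (x : X) : SymProj N X := ((pwS x : ST N X) : SymProj N X)

theorem norm_th_le (x : X) : ‖(th x : SymProj N X)‖ ≤ ‖x‖ ^ N := by
  rw [th, UniformSpace.Completion.norm_coe, norm_def]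
  exact ps_le (reps_pw x)

theorem sum_pwS {u : ST N X} {m : ℕ} {c : Fin m → ℝ} {x : Fin m → X}
    (h : inc N X u = ∑ i, c i • pw N X (x i)) : u = ∑ i, c i • pwS (x i) := by
  have hinj : Function.Injective (inc N X) := Subtype.val_injective
  apply hinj
  rw [h, map_sum]
  exact Finset.sum_congr rfl fun i _ => by rw [map_smul]; rfl

/-- Norms of functionals. -/
theorem norm_le_of {F : SymProj N X →L[ℝ] ℝ} {C : ℝ} (hC : 0 ≤ C)
    (h : ∀ x, |F (th x)| ≤ C * ‖x‖ ^ N) : ‖F‖ ≤ C := by
  refine ContinuousLinearMap.opNorm_le_bound _ hC fun z => ?_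
  induction z using UniformSpace.Completion.induction_on with
  | hp => exact isClosed_le F.continuous.norm (continuous_const.mul continuous_norm)
  | ih u =>
    rw [UniformSpace.Completion.norm_coe, norm_def]
    refine le_mul_ps hC ?_
    rintro _ ⟨m, c, x, hu, rfl⟩
    have h1 : (u : SymProj N X) = ∑ i, c i • th (x i) := by
      have h2 := congrArg (UniformSpace.Completion.toComplₗᵢ (𝕜 := ℝ) (E := ST N X)) (sum_pwS hu)
      rw [map_sum] at h2
      refine h2.trans (Finset.sum_congr rfl fun i _ => ?_)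
      rw [map_smul]
      rfl
    rw [h1, map_sum, Finset.mul_sum]
    refine (norm_sum_le _ _).trans (Finset.sum_le_sum fun i _ => ?_)
    rw [map_smul, norm_smul, Real.norm_eq_abs, Real.norm_eq_abs]
    have := mul_le_mul_of_nonneg_left (h (x i)) (abs_nonneg (c i))
    linarith

/-- Functionals agreeing on elementary tensors agree. -/
theorem functional_ext {F G : SymProj N X →L[ℝ] ℝ} (h : ∀ x, F (th x) = G (th x)) : F = G := by
  have h1 : ‖F - G‖ ≤ 0 := norm_le_of le_rfl fun x => by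
    change |F (th x) - G (th x)| ≤ _
    rw [h, sub_self, abs_zero, zero_mul]
  exact sub_eq_zero.1 (norm_le_zero_iff.1 h1)

/-- Existence of functionals. -/
theorem exists_functional (M : MultilinearMap ℝ (fun _ : Fin N => X) ℝ) {C : ℝ} (hC : 0 ≤ C)
    (h : ∀ x, |M fun _ => x| ≤ C * ‖x‖ ^ N) :
    ∃ F : SymProj N X →L[ℝ] ℝ, ∀ x, F (th x) = M fun _ => x := by
  set L : ST N X →ₗ[ℝ] ℝ := (PiTensorProduct.lift M).comp (inc N X) with hL
  have hLx : ∀ x, L (pwS x) = M fun _ => x := fun x => by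
    change PiTensorProduct.lift M (PiTensorProduct.tprod ℝ fun _ => x) = _
    rw [PiTensorProduct.lift.tprod]
  set e : ST N X →ₗ[ℝ] SymProj N X :=
    (UniformSpace.Completion.toComplₗᵢ (𝕜 := ℝ) (E := ST N X)).toLinearMap with he
  have hbound : ∀ u, ‖L u‖ ≤ C * ‖e u‖ := by
    intro u
    have h0 : ‖e u‖ = ps u := UniformSpace.Completion.norm_coe u
    rw [h0]
    refine le_mul_ps hC ?_
    rintro _ ⟨m, c, x, hu, rfl⟩
    rw [sum_pwS hu, map_sum, Finset.mul_sum]
    refine (norm_sum_le _ _).trans (Finset.sum_le_sum fun i _ => ?_)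
    rw [map_smul, norm_smul, Real.norm_eq_abs, Real.norm_eq_abs, hLx]
    have := mul_le_mul_of_nonneg_left (h (x i)) (abs_nonneg (c i))
    linarith
  refine ⟨L.extendOfNorm e, fun x => ?_⟩
  have h1 := LinearMap.extendOfNorm_eq (f := L) (e := e)
    UniformSpace.Completion.denseRange_coe ⟨C, hbound⟩ (pwS x)
  rw [hLx] at h1
  exact h1

/-- Every functional comes from a multilinear form. -/
theorem exists_form (F : SymProj N X →L[ℝ] ℝ) :
    ∃ M : MultilinearMap ℝ (fun _ : Fin N => X) ℝ, ∀ x, F (th x) = M fun _ => x := by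
  set L : STsub N X →ₗ[ℝ] ℝ := (F : SymProj N X →ₗ[ℝ] ℝ).comp
    (UniformSpace.Completion.toComplₗᵢ (𝕜 := ℝ) (E := ST N X)).toLinearMap with hL
  obtain ⟨g, hg⟩ := LinearMap.exists_extend L
  refine ⟨g.compMultilinearMap (PiTensorProduct.tprod ℝ), fun x => ?_⟩
  have h1 := LinearMap.congr_fun hg (pwS x)
  exact h1.symm

/-- The span of the elementary tensors is dense. -/
theorem dense_span (z : SymProj N X) : z ∈ closure (Submodule.span ℝ (Set.range
    (th : X → SymProj N X)) : Set (SymProj N X)) := by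
  induction z using UniformSpace.Completion.induction_on with
  | hp => exact isClosed_closure
  | ih u =>
    refine subset_closure ?_
    obtain ⟨_, m, c, x, hu, -⟩ := reps_nonempty u
    have h1 : (u : SymProj N X) = ∑ i, c i • th (x i) := by
      have h2 := congrArg (UniformSpace.Completion.toComplₗᵢ (𝕜 := ℝ) (E := ST N X)) (sum_pwS hu)
      rw [map_sum] at h2
      refine h2.trans (Finset.sum_congr rfl fun i _ => ?_)
      rw [map_smul]
      rfl
    rw [h1]
    exact Submodule.sum_mem _ fun i _ => Submodule.smul_mem _ _ (Submodule.subset_span ⟨_, rfl⟩)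

end defs

/-! ### Degree two -/

section two

variable {X : Type} [NormedAddCommGroup X] [NormedSpace ℝ X]

/-- The multilinear form of a bilinear form. -/
def mlin (B : X →ₗ[ℝ] X →ₗ[ℝ] ℝ) : MultilinearMap ℝ (fun _ : Fin 2 => X) ℝ :=
  MultilinearMap.mk' (fun v => B (v 0) (v 1))
    (by
      intro v i x y
      fin_cases i <;> simp)
    (by
      intro v i c x
      fin_cases i <;> simp)

theorem exists_functional₂ (B : X →ₗ[ℝ] X →ₗ[ℝ] ℝ) {C : ℝ} (hC : 0 ≤ C)
    (h : ∀ x, |B x x| ≤ C * ‖x‖ ^ 2) :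
    ∃ F : SymProj 2 X →L[ℝ] ℝ, ∀ x, F (th x) = B x x :=
  exists_functional (mlin B) hC h

theorem exists_bilin (F : SymProj 2 X →L[ℝ] ℝ) :
    ∃ B : X →ₗ[ℝ] X →ₗ[ℝ] ℝ, (∀ x y, B x y = B y x) ∧ ∀ x, F (th x) = B x x := by
  obtain ⟨M, hM⟩ := exists_form F
  have u0 : ∀ x y z : X, Function.update (![x, y] : Fin 2 → X) 0 z = ![z, y] := fun x y z => by
    funext i; fin_cases i <;> rfl
  have u1 : ∀ x y z : X, Function.update (![x, y] : Fin 2 → X) 1 z = ![x, z] := fun x y z => by
    funext i; fin_cases i <;> rfl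
  have a0 : ∀ x x' y : X, M ![x + x', y] = M ![x, y] + M ![x', y] := fun x x' y => by
    have := M.map_update_add ![x, y] 0 x x'
    rwa [u0, u0, u0] at this
  have a1 : ∀ x y y' : X, M ![x, y + y'] = M ![x, y] + M ![x, y'] := fun x y y' => by
    have := M.map_update_add ![x, y] 1 y y'
    rwa [u1, u1, u1] at this
  have s0 : ∀ (c : ℝ) (x y : X), M ![c • x, y] = c • M ![x, y] := fun c x y => by
    have := M.map_update_smul ![x, y] 0 c x
    rwa [u0, u0] at this
  have s1 : ∀ (c : ℝ) (x y : X), M ![x, c • y] = c • M ![x, y] := fun c x y => by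
    have := M.map_update_smul ![x, y] 1 c y
    rwa [u1, u1] at this
  refine ⟨LinearMap.mk₂ ℝ (fun x y => (M ![x, y] + M ![y, x]) / 2) ?_ ?_ ?_ ?_, ?_, ?_⟩
  · intro x x' y
    change (M ![x + x', y] + M ![y, x + x']) / 2 = (M ![x, y] + M ![y, x]) / 2 +
      (M ![x', y] + M ![y, x']) / 2
    rw [a0, a1]; ring
  · intro c x y
    change (M ![c • x, y] + M ![y, c • x]) / 2 = c * ((M ![x, y] + M ![y, x]) / 2)
    rw [s0, s1, smul_eq_mul, smul_eq_mul]; ring
  · intro x y y'
    change (M ![x, y + y'] + M ![y + y', x]) / 2 = (M ![x, y] + M ![y, x]) / 2 +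
      (M ![x, y'] + M ![y', x]) / 2
    rw [a0, a1]; ring
  · intro c x y
    change (M ![x, c • y] + M ![c • y, x]) / 2 = c * ((M ![x, y] + M ![y, x]) / 2)
    rw [s0, s1, smul_eq_mul, smul_eq_mul]; ring
  · intro x y
    change (M ![x, y] + M ![y, x]) / 2 = (M ![y, x] + M ![x, y]) / 2
    rw [add_comm]
  · intro x
    change _ = (M ![x, x] + M ![x, x]) / 2
    rw [hM]
    have : (![x, x] : Fin 2 → X) = fun _ => x := by
      funext i; fin_cases i <;> rfl
    rw [this]; ring

end two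

end Pool.Agent.V1198.SPT
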