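import Pool.Agent.V1198.SPT1

/-!
# An abstract estimate for almost square symmetric tensor products
-/

set_option autoImplicit false
set_option linter.unusedSectionVars false
set_option linter.unusedVariables false

noncomputable section

open Filter Topology
open scoped TensorProduct Pointwise

namespace Pool.Agent.V1198.SPT

variable {X : Type} [NormedAddCommGroup X] [NormedSpace ℝ X]

/-- The data of a norm one coordinate. -/
structure Coord (X : Type) [NormedAddCommGroup X] [NormedSpace ℝ X] where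
  /-- the vector -/
  e : X
  /-- the functional -/
  d : X →ₗ[ℝ] ℝ
  e_le : ‖e‖ ≤ 1
  d_le : ∀ x, |d x| ≤ ‖x‖
  d_e : d e = 1
  proj_le : ∀ x, ‖x - d x • e‖ ≤ ‖x‖

variable (c : Coord X)

/-- The complementary projection. -/
def Coord.P : X →ₗ[ℝ] X := LinearMap.id - c.d.smulRight c.e

theorem Coord.P_apply (x : X) : c.P x = x - c.d x • c.e := rfl

theorem Coord.P_e : c.P c.e = 0 := by rw [Coord.P_apply, c.d_e, one_smul, sub_self]

theorem rank_one_le {l m : X →ₗ[ℝ] ℝ} (hl : ∀ x, |l x| ≤ ‖x‖) (hm : ∀ x, |m x| ≤ ‖x‖) (x : X) :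
    |l x * m x| ≤ 1 * ‖x‖ ^ 2 := by
  rw [abs_mul, one_mul, sq]
  exact mul_le_mul (hl x) (hm x) (abs_nonneg _) (norm_nonneg _)

theorem exists_rank_one {l m : X →ₗ[ℝ] ℝ} (hl : ∀ x, |l x| ≤ ‖x‖) (hm : ∀ x, |m x| ≤ ‖x‖) :
    ∃ F : SymProj 2 X →L[ℝ] ℝ, ∀ x, F (th x) = l x * m x :=
  exists_functional₂ (l.smulRight m) zero_le_one (rank_one_le hl hm)

section est

variable {c} {y : SymProj 2 X} {ε : ℝ}
  (hy : ∀ F : SymProj 2 X →L[ℝ] ℝ, (∀ x, |F (th x)| ≤ ‖x‖ ^ 2) → |F (th c.e)| + |F y| ≤ 1 + ε)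

include hy

theorem est_E {E : SymProj 2 X →L[ℝ] ℝ} (hE : ∀ x, E (th x) = c.d x * c.d x) : |E y| ≤ ε := by
  have h := hy E fun x => by
    rw [hE]
    have := rank_one_le c.d_le c.d_le x
    rwa [one_mul] at this
  rw [hE, c.d_e, one_mul, abs_one] at h
  linarith

theorem est_pos {R : SymProj 2 X →L[ℝ] ℝ} (h0 : ∀ x, 0 ≤ R (th x))
    (h1 : ∀ x, R (th x) ≤ ‖x‖ ^ 2) : |R y| ≤ 2 * ε + R (th c.e) := by
  obtain ⟨E, hE⟩ := exists_rank_one c.d_le c.d_le
  have h2 := est_E hy hE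
  have h3 := hy (E - R) fun x => by
    change |E (th x) - R (th x)| ≤ _
    rw [hE, abs_le]
    have h4 := rank_one_le c.d_le c.d_le x
    rw [one_mul, abs_of_nonneg (mul_self_nonneg _)] at h4
    have h5 := mul_self_nonneg (c.d x)
    have h6 := h0 x
    have h7 := h1 x
    constructor <;> linarith
  have h4 : (E - R) (th c.e) = 1 - R (th c.e) := by
    change E (th c.e) - R (th c.e) = _
    rw [hE, c.d_e, one_mul]
  have h5 : (E - R) y = E y - R y := rfl
  rw [h4, h5] at h3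
  have h6 : R (th c.e) ≤ 1 := by
    refine (h1 c.e).trans ?_
    have := c.e_le
    have := norm_nonneg c.e
    nlinarith
  rw [abs_of_nonneg (by linarith)] at h3
  have h7 : |R y| ≤ |E y - R y| + |E y| := by
    have h8 : R y = -((E y - R y) - E y) := by ring
    calc |R y| = |(E y - R y) - E y| := by rw [h8, abs_neg]; congr 1; ring
      _ ≤ _ := abs_sub _ _
  linarith

theorem est_final (hε : 0 < ε) (hε1 : ε ≤ 1 / 4) {R : SymProj 2 X →L[ℝ] ℝ}
    (h0 : ∀ x, 0 ≤ R (th x)) (h1 : ∀ x, R (th x) ≤ ‖x‖ ^ 2) : |R y| ≤ 15 * √ε := by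
  obtain ⟨E, hE⟩ := exists_rank_one c.d_le c.d_le
  have hEy := est_E hy hE
  obtain ⟨B, hsymm, hB⟩ := exists_bilin R
  have hPn : ∀ x, ‖c.P x‖ ≤ ‖x‖ := c.proj_le
  have hcs : ∀ u, (B c.e u) ^ 2 ≤ ‖u‖ ^ 2 := by
    intro u
    have h2 : ∀ s : ℝ, 0 ≤ B u u * (s * s) + 2 * B c.e u * s + B c.e c.e := by
      intro s
      have h3 := h0 (c.e + s • u)
      rw [hB] at h3
      have h4 : B (c.e + s • u) (c.e + s • u) = B u u * (s * s) + 2 * B c.e u * s + B c.e c.e := by
        simp only [map_add, map_smul, LinearMap.add_apply, LinearMap.smul_apply, smul_eq_mul]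
        rw [hsymm u c.e]
        ring
      rwa [h4] at h3
    have h3 := discrim_le_zero h2
    rw [discrim] at h3
    have h4 : B c.e c.e ≤ 1 := by
      rw [← hB]
      refine (h1 c.e).trans ?_
      have := c.e_le
      have := norm_nonneg c.e
      nlinarith
    have h5 : 0 ≤ B c.e c.e := by rw [← hB]; exact h0 _
    have h6 : B u u ≤ ‖u‖ ^ 2 := by rw [← hB]; exact h1 _
    have h7 : 0 ≤ B u u := by rw [← hB]; exact h0 _
    nlinarith
  set l : X →ₗ[ℝ] ℝ := (B c.e).comp c.P with hl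
  have hla : ∀ x, l x = B c.e (c.P x) := fun x => rfl
  have hln : ∀ x, |l x| ≤ ‖x‖ := fun x => by
    rw [hla]
    exact (abs_le_of_sq_le_sq (hcs _) (norm_nonneg _)).trans (hPn x)
  have hle : l c.e = 0 := by rw [hla, c.P_e, map_zero]
  obtain ⟨S, hS⟩ := exists_rank_one hln hln
  obtain ⟨Cr, hCr⟩ := exists_rank_one c.d_le hln
  set t := √ε with ht
  have ht0 : 0 < t := Real.sqrt_pos.2 hε
  have ht2 : t ^ 2 = ε := Real.sq_sqrt hε.le
  have ht1 : t ≤ 1 / 2 := by
    rw [ht, Real.sqrt_le_left (by norm_num)]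
    norm_num
    linarith
  set m : X →ₗ[ℝ] ℝ := t • c.d - (1 - t) • l with hm
  have hma : ∀ x, m x = t * c.d x - (1 - t) * l x := fun x => rfl
  have hmn : ∀ x, |m x| ≤ ‖x‖ := fun x => by
    rw [hma]
    refine (abs_sub _ _).trans ?_
    rw [abs_mul, abs_mul, abs_of_pos ht0, abs_of_nonneg (by linarith : 0 ≤ 1 - t)]
    have h2 := mul_le_mul_of_nonneg_left (c.d_le x) ht0.le
    have h3 := mul_le_mul_of_nonneg_left (hln x) (by linarith : 0 ≤ 1 - t)
    linarith
  obtain ⟨St, hSt⟩ := exists_rank_one hmn hmn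
  -- the projected form
  obtain ⟨R', hR'⟩ := exists_functional₂ (B.compl₁₂ c.P c.P) zero_le_one (fun x => by
    change |B (c.P x) (c.P x)| ≤ _
    rw [← hB, abs_of_nonneg (h0 _), one_mul]
    exact (h1 _).trans (pow_le_pow_left₀ (norm_nonneg _) (hPn x) 2))
  have hR'a : ∀ x, R' (th x) = R (th (c.P x)) := fun x => by rw [hR', hB]; rfl
  have b1 : |R' y| ≤ 2 * ε := by
    have := est_pos hy (R := R') (fun x => by rw [hR'a]; exact h0 _) fun x => by
      rw [hR'a]
      exact (h1 _).trans (pow_le_pow_left₀ (norm_nonneg _) (hPn x) 2)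
    rw [hR'a, c.P_e, hB, map_zero, add_zero] at this
    exact this
  have hsq : ∀ {l : X →ₗ[ℝ] ℝ}, (∀ x, |l x| ≤ ‖x‖) → ∀ x, l x * l x ≤ ‖x‖ ^ 2 := by
    intro l hl x
    have := rank_one_le hl hl x
    rw [one_mul, abs_of_nonneg (mul_self_nonneg _)] at this
    exact this
  have b2 : |S y| ≤ 2 * ε := by
    have := est_pos hy (R := S) (fun x => by rw [hS]; exact mul_self_nonneg _) fun x => by
      rw [hS]; exact hsq hln x
    rw [hS, hle, mul_zero, add_zero] at this
    exact this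
  have b3 : |St y| ≤ 2 * ε + t ^ 2 := by
    have := est_pos hy (R := St) (fun x => by rw [hSt]; exact mul_self_nonneg _) fun x => by
      rw [hSt]; exact hsq hmn x
    rw [hSt, hma, hle, c.d_e, mul_one, mul_zero, sub_zero, ← sq] at this
    exact this
  have id1 : St = (t ^ 2) • E - (2 * t * (1 - t)) • Cr + ((1 - t) ^ 2) • S :=
    functional_ext fun x => by
      change St (th x) = t ^ 2 * E (th x) - (2 * t * (1 - t)) * Cr (th x) + (1 - t) ^ 2 * S (th x)
      rw [hSt, hE, hCr, hS, hma]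
      ring
  have id2 : R = (B c.e c.e) • E + (2 : ℝ) • Cr + R' :=
    functional_ext fun x => by
      change R (th x) = B c.e c.e * E (th x) + 2 * Cr (th x) + R' (th x)
      have hx : x = c.d x • c.e + c.P x := by rw [c.P_apply]; abel
      have h4 : B x x = B (c.d x • c.e + c.P x) (c.d x • c.e + c.P x) := by rw [← hx]
      rw [hB, hE, hCr, hR'a, hB, h4, hla]
      simp only [map_add, map_smul, LinearMap.add_apply, LinearMap.smul_apply, smul_eq_mul]
      rw [hsymm (c.P x) c.e]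
      ring
  have e1 : St y = t ^ 2 * E y - (2 * t * (1 - t)) * Cr y + (1 - t) ^ 2 * S y :=
    DFunLike.congr_fun id1 y
  have e2 : R y = B c.e c.e * E y + 2 * Cr y + R' y := DFunLike.congr_fun id2 y
  have b4 : |Cr y| ≤ 6 * t := by
    have h2 : (2 * t * (1 - t)) * |Cr y| ≤ t ^ 2 * |E y| + (1 - t) ^ 2 * |S y| + |St y| := by
      have h3 : (2 * t * (1 - t)) * Cr y = t ^ 2 * E y + (1 - t) ^ 2 * S y - St y := by
        rw [e1]; ring
      have h4 : (2 * t * (1 - t)) * |Cr y| = |(2 * t * (1 - t)) * Cr y| := by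
        rw [abs_mul, abs_of_nonneg (by nlinarith : 0 ≤ 2 * t * (1 - t))]
      rw [h4, h3]
      refine (abs_sub _ _).trans (add_le_add_left ((abs_add_le _ _).trans (le_of_eq ?_)) _)
      rw [abs_mul, abs_mul, abs_of_nonneg (sq_nonneg t), abs_of_nonneg (sq_nonneg (1 - t))]
    have h5 : t ^ 2 * |E y| ≤ ε := by
      have h6 : t ^ 2 * |E y| ≤ 1 * ε := mul_le_mul (by nlinarith) hEy (abs_nonneg _) zero_le_one
      linarith
    have h7 : (1 - t) ^ 2 * |S y| ≤ 2 * ε := by
      have h8 : (1 - t) ^ 2 * |S y| ≤ 1 * (2 * ε) :=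
        mul_le_mul (by nlinarith) b2 (abs_nonneg _) zero_le_one
      linarith
    have h9 : t * |Cr y| ≤ (2 * t * (1 - t)) * |Cr y| :=
      mul_le_mul_of_nonneg_right (by nlinarith) (abs_nonneg _)
    have h10 : t * |Cr y| ≤ t * (6 * t) := by
      have : t * (6 * t) = 6 * t ^ 2 := by ring
      rw [this, ht2]
      rw [ht2] at b3
      linarith
    exact le_of_mul_le_mul_left h10 ht0
  have hBe : B c.e c.e ≤ 1 := by
    rw [← hB]
    refine (h1 c.e).trans ?_
    have := c.e_le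
    have := norm_nonneg c.e
    nlinarith
  have hBe0 : 0 ≤ B c.e c.e := by rw [← hB]; exact h0 _
  have b5 : |R y| ≤ |B c.e c.e * E y| + |2 * Cr y| + |R' y| := by
    rw [e2]
    exact (abs_add_le _ _).trans (add_le_add_left (abs_add_le _ _) _)
  rw [abs_mul, abs_mul, abs_of_nonneg hBe0, abs_of_pos (by norm_num : (0 : ℝ) < 2)] at b5
  have b6 : B c.e c.e * |E y| ≤ 1 * ε := mul_le_mul hBe hEy (abs_nonneg _) zero_le_one
  have b7 : ε ≤ t := by rw [← ht2]; nlinarith
  linarith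

end est

end Pool.Agent.V1198.SPT
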