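import Pool.Agent.V1198.SPT2
import Pool.Agent.H758R2.Groth

/-!
# The space `c_0` and Grothendieck's inequality
-/

set_option autoImplicit false
set_option linter.unusedSectionVars false
set_option linter.unusedVariables false

noncomputable section

open Filter Topology
open scoped TensorProduct Pointwise ZeroAtInfty

namespace Pool.Agent.V1198.SPT

open Pool.Agent.H758R2.Groth (BBound vals groth pietsch)

/-- The space `c_0`. -/
abbrev C0 : Type := C₀(ℕ, ℝ)

theorem C0_apply_le (f : C0) (n : ℕ) : |f n| ≤ ‖f‖ := by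
  have h := f.toBCF.norm_coe_le_norm n
  rwa [ZeroAtInftyContinuousMap.norm_toBCF_eq_norm] at h

theorem C0_norm_le {f : C0} {C : ℝ} (hC : 0 ≤ C) (h : ∀ n, |f n| ≤ C) : ‖f‖ ≤ C := by
  rw [← ZeroAtInftyContinuousMap.norm_toBCF_eq_norm]
  exact (BoundedContinuousFunction.norm_le hC).2 h

theorem C0_tendsto (f : C0) : Tendsto (fun n => f n) atTop (𝓝 0) := by
  have h := f.zero_at_infty'
  rw [cocompact_eq_cofinite, Nat.cofinite_eq_atTop] at h
  exact h

/-- The unit vectors. -/
def ev (i : ℕ) : C0 where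
  toFun := fun n => if n = i then 1 else 0
  continuous_toFun := continuous_of_discreteTopology
  zero_at_infty' := by
    rw [cocompact_eq_cofinite, Nat.cofinite_eq_atTop]
    refine tendsto_const_nhds.congr' ?_
    filter_upwards [eventually_gt_atTop i] with n hn
    rw [if_neg hn.ne']

theorem ev_apply (i n : ℕ) : ev i n = if n = i then 1 else 0 := rfl

/-- Coordinates. -/
def dl (i : ℕ) : C0 →ₗ[ℝ] ℝ where
  toFun f := f i
  map_add' _ _ := rfl
  map_smul' _ _ := rfl

theorem dl_apply (i : ℕ) (f : C0) : dl i f = f i := rfl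

/-- Truncation. -/
def Tr (n : ℕ) : C0 →ₗ[ℝ] C0 := ∑ i : Fin n, (dl i).smulRight (ev i)

theorem Tr_eq (n : ℕ) (x : C0) : Tr n x = ∑ i : Fin n, x i • ev i := by
  rw [Tr, LinearMap.sum_apply]
  rfl

theorem Tr_apply (n : ℕ) (x : C0) (k : ℕ) : Tr n x k = if k < n then x k else 0 := by
  rw [Tr_eq]
  have h1 : (∑ i : Fin n, x i • ev i : C0) k = ∑ i : Fin n, x i * ev i k := by
    have h2 := map_sum (dl k) (fun i : Fin n => x i • ev i) Finset.univ
    rw [dl_apply] at h2
    rw [h2]
    rfl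
  rw [h1]
  simp only [ev_apply]
  split_ifs with hk
  · rw [Finset.sum_eq_single (⟨k, hk⟩ : Fin n)]
    · simp
    · intro i _ hi
      rw [if_neg, mul_zero]
      intro h
      exact hi (Fin.ext h.symm)
    · intro h
      exact absurd (Finset.mem_univ _) h
  · refine Finset.sum_eq_zero fun i _ => ?_
    rw [if_neg, mul_zero]
    intro h
    exact hk (h ▸ i.2)

theorem Tr_norm_le (n : ℕ) (x : C0) : ‖Tr n x‖ ≤ ‖x‖ :=
  C0_norm_le (norm_nonneg _) fun k => by
    rw [Tr_apply]
    split_ifs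
    · exact C0_apply_le x k
    · rw [abs_zero]; exact norm_nonneg _

theorem Tr_tendsto (x : C0) : Tendsto (fun n => Tr n x) atTop (𝓝 x) := by
  rw [tendsto_iff_norm_sub_tendsto_zero, Metric.tendsto_atTop]
  intro ε hε
  obtain ⟨N, hN⟩ := Metric.tendsto_atTop.1 (C0_tendsto x) (ε / 2) (by linarith)
  refine ⟨N, fun n hn => ?_⟩
  rw [dist_zero_right, norm_norm]
  refine lt_of_le_of_lt (C0_norm_le (C := ε / 2) (by linarith) fun k => ?_) (by linarith)
  change |Tr n x k - x k| ≤ ε / 2
  rw [Tr_apply]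
  split_ifs with hk
  · rw [sub_self, abs_zero]; linarith
  · have h1 := hN k (by omega)
    rw [dist_zero_right, Real.norm_eq_abs] at h1
    rw [zero_sub, abs_neg]
    exact h1.le

theorem ASQ_C0 : ASQ C0 := by
  intro k x hx ε hε
  have h1 : ∀ i, ∀ᶠ n in atTop, |x i n| < ε := fun i => by
    have h2 := (C0_tendsto (x i)).abs
    rw [abs_zero] at h2
    exact h2.eventually_lt_const hε
  obtain ⟨n, hn⟩ := (eventually_all.2 h1).exists
  refine ⟨ev n, ?_, fun i => ?_⟩
  · refine le_antisymm (C0_norm_le zero_le_one fun m => ?_) ?_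
    · rw [ev_apply]; split_ifs <;> norm_num
    · have := C0_apply_le (ev n) n
      rwa [ev_apply, if_pos rfl, abs_one] at this
  · have h3 : ∀ s : ℝ, |s| ≤ 1 → ∀ m, |x i m + s * ev n m| ≤ 1 + ε := by
      intro s hs m
      have h4 := C0_apply_le (x i) m
      rw [hx] at h4
      rw [ev_apply]
      split_ifs with hm
      · rw [hm, mul_one]
        exact (abs_add_le _ _).trans (by linarith [hn i])
      · rw [mul_zero, add_zero]; linarith
    refine ⟨C0_norm_le (by linarith) fun m => ?_, C0_norm_le (by linarith) fun m => ?_⟩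
    · have := h3 1 (by norm_num) m
      rwa [one_mul] at this
    · have := h3 (-1) (by norm_num) m
      rwa [neg_one_mul, ← sub_eq_add_neg] at this

/-- The first coordinate. -/
def cd : Coord C0 where
  e := ev 0
  d := dl 0
  e_le := C0_norm_le zero_le_one fun m => by
    rw [ev_apply]; split_ifs <;> norm_num
  d_le x := C0_apply_le x 0
  d_e := by rw [dl_apply, ev_apply, if_pos rfl]
  proj_le x := C0_norm_le (norm_nonneg _) fun m => by
    change |x m - x 0 * ev 0 m| ≤ ‖x‖
    rw [ev_apply]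
    split_ifs with hm
    · rw [hm, mul_one, sub_self, abs_zero]; exact norm_nonneg _
    · rw [mul_zero, sub_zero]; exact C0_apply_le x m

/-- Vectors with finitely many coordinates. -/
def fv {n : ℕ} (a : Fin n → ℝ) : C0 := ∑ i, a i • ev i

theorem fv_apply {n : ℕ} (a : Fin n → ℝ) (k : ℕ) :
    fv a k = if h : k < n then a ⟨k, h⟩ else 0 := by
  have h1 : (fv a) k = ∑ i : Fin n, a i * ev i k := by
    have h2 := map_sum (dl k) (fun i : Fin n => a i • ev i) Finset.univ
    rw [dl_apply] at h2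
    rw [fv, h2]
    rfl
  rw [h1]
  simp only [ev_apply]
  split_ifs with hk
  · rw [Finset.sum_eq_single (⟨k, hk⟩ : Fin n)]
    · simp
    · intro i _ hi
      rw [if_neg, mul_zero]
      intro h
      exact hi (Fin.ext h.symm)
    · intro h
      exact absurd (Finset.mem_univ _) h
  · refine Finset.sum_eq_zero fun i _ => ?_
    rw [if_neg, mul_zero]
    intro h
    exact hk (h ▸ i.2)

theorem fv_norm_le {n : ℕ} {a : Fin n → ℝ} (ha : ∀ i, |a i| ≤ 1) : ‖fv a‖ ≤ 1 :=
  C0_norm_le zero_le_one fun k => by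
    rw [fv_apply]
    split_ifs
    · exact ha _
    · rw [abs_zero]; exact zero_le_one

theorem bilin_fv (B : C0 →ₗ[ℝ] C0 →ₗ[ℝ] ℝ) {n : ℕ} (a b : Fin n → ℝ) :
    B (fv a) (fv b) = ∑ i : Fin n, ∑ j : Fin n, B (ev i) (ev j) * a i * b j := by
  rw [fv, fv, map_sum B, LinearMap.sum_apply]
  refine Finset.sum_congr rfl fun i _ => ?_
  rw [map_sum]
  refine Finset.sum_congr rfl fun j _ => ?_
  rw [map_smul, map_smul, LinearMap.smul_apply, smul_eq_mul, smul_eq_mul]
  ring

theorem bilin_le {B : C0 →ₗ[ℝ] C0 →ₗ[ℝ] ℝ} (hs : ∀ x y, B x y = B y x)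
    (hB : ∀ x, |B x x| ≤ ‖x‖ ^ 2) {a b : C0} (ha : ‖a‖ ≤ 1) (hb : ‖b‖ ≤ 1) : |B a b| ≤ 2 := by
  have h1 : B a b = (B (a + b) (a + b) - B (a - b) (a - b)) / 4 := by
    simp only [map_add, map_sub, LinearMap.add_apply, LinearMap.sub_apply]
    rw [hs b a]
    ring
  have h2 : ‖a + b‖ ≤ 2 := (norm_add_le _ _).trans (by linarith)
  have h3 : ‖a - b‖ ≤ 2 := (norm_sub_le _ _).trans (by linarith)
  have h4 := hB (a + b)
  have h5 := hB (a - b)
  have h6 : ‖a + b‖ ^ 2 ≤ 4 := by nlinarith [norm_nonneg (a + b)]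
  have h7 : ‖a - b‖ ^ 2 ≤ 4 := by nlinarith [norm_nonneg (a - b)]
  rw [h1, abs_le]
  rw [abs_le] at h4 h5
  constructor <;> linarith [h4.1, h4.2, h5.1, h5.2]

/-- Domination of a quadratic form by a diagonal one. -/
theorem exists_weights {B : C0 →ₗ[ℝ] C0 →ₗ[ℝ] ℝ} (hs : ∀ x y, B x y = B y x)
    (hB : ∀ x, |B x x| ≤ ‖x‖ ^ 2) (n : ℕ) :
    ∃ ν : Fin (n + 1) → ℝ, (∀ i, 0 ≤ ν i) ∧ ∑ i, ν i = 1 ∧
      ∀ a : Fin (n + 1) → ℝ, B (fv a) (fv a) ≤ 768 * ∑ i, ν i * a i ^ 2 := by
  set A : Fin (n + 1) → Fin (n + 1) → ℂ := fun i j => ((B (ev i) (ev j) : ℝ) : ℂ) with hA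
  have hreal : ∀ a b : Fin (n + 1) → ℝ, ∑ i, ∑ j, A i j * (a i : ℂ) * (b j : ℂ) =
      ((B (fv a) (fv b) : ℝ) : ℂ) := by
    intro a b
    rw [bilin_fv]
    push_cast
    rfl
  have hbound : BBound A 8 := by
    intro x y hx hy
    have e1 : ∑ i, ∑ j, A i j * x i * y j =
        ((B (fv fun i => (x i).re) (fv fun j => (y j).re) : ℝ) : ℂ) +
        Complex.I * ((B (fv fun i => (x i).re) (fv fun j => (y j).im) : ℝ) : ℂ) +
        Complex.I * ((B (fv fun i => (x i).im) (fv fun j => (y j).re) : ℝ) : ℂ) -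
        ((B (fv fun i => (x i).im) (fv fun j => (y j).im) : ℝ) : ℂ) := by
      rw [← hreal, ← hreal, ← hreal, ← hreal, Finset.mul_sum, Finset.mul_sum,
        ← Finset.sum_add_distrib, ← Finset.sum_add_distrib, ← Finset.sum_sub_distrib]
      refine Finset.sum_congr rfl fun i _ => ?_
      rw [Finset.mul_sum, Finset.mul_sum,
        ← Finset.sum_add_distrib, ← Finset.sum_add_distrib, ← Finset.sum_sub_distrib]
      refine Finset.sum_congr rfl fun j _ => ?_
      have hxi : x i = ((x i).re : ℂ) + (x i).im * Complex.I := (Complex.re_add_im _).symm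
      have hyj : y j = ((y j).re : ℂ) + (y j).im * Complex.I := (Complex.re_add_im _).symm
      conv_lhs => rw [hxi, hyj]
      have hI : Complex.I * Complex.I = -1 := Complex.I_mul_I
      linear_combination A i j * (x i).im * (y j).im * hI
    rw [e1]
    have hre : ∀ i, |(x i).re| ≤ 1 := fun i => (Complex.abs_re_le_norm _).trans (hx i)
    have him : ∀ i, |(x i).im| ≤ 1 := fun i => (Complex.abs_im_le_norm _).trans (hx i)
    have hre' : ∀ i, |(y i).re| ≤ 1 := fun i => (Complex.abs_re_le_norm _).trans (hy i)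
    have him' : ∀ i, |(y i).im| ≤ 1 := fun i => (Complex.abs_im_le_norm _).trans (hy i)
    have n1 := bilin_le hs hB (fv_norm_le hre) (fv_norm_le hre')
    have n2 := bilin_le hs hB (fv_norm_le hre) (fv_norm_le him')
    have n3 := bilin_le hs hB (fv_norm_le him) (fv_norm_le hre')
    have n4 := bilin_le hs hB (fv_norm_le him) (fv_norm_le him')
    refine (norm_sub_le _ _).trans ((add_le_add_left ((norm_add_le _ _).trans
      (add_le_add_left (norm_add_le _ _) _)) _).trans ?_)
    rw [norm_mul, norm_mul, Complex.norm_I, one_mul, one_mul, Complex.norm_real, Complex.norm_real,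
      Complex.norm_real, Complex.norm_real, Real.norm_eq_abs, Real.norm_eq_abs, Real.norm_eq_abs,
      Real.norm_eq_abs]
    linarith
  obtain ⟨lam, mu, hl0, hm0, hl1, hm1, h⟩ := pietsch A ((groth A hbound).trans
    (by norm_num : (96 : ℝ) * 8 ≤ 768))
  refine ⟨fun i => (lam i + mu i) / 2, fun i => by linarith [hl0 i, hm0 i], ?_, fun a => ?_⟩
  · rw [← Finset.sum_div, Finset.sum_add_distrib, hl1, hm1]; norm_num
  · have h1 := h (fun i => (a i : ℂ)) (fun i => (a i : ℂ))
    rw [Pool.Agent.H758R2.Groth.B, hreal, Complex.ofReal_re] at h1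
    refine h1.trans (le_of_eq ?_)
    simp only [Complex.norm_real, Real.norm_eq_abs, sq_abs]
    rw [← Finset.sum_add_distrib, Finset.mul_sum, Finset.mul_sum]
    exact Finset.sum_congr rfl fun i _ => by ring

end Pool.Agent.V1198.SPT
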