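import Pool.Agent.V1198.Yos3

/-!
# Lifting homomorphisms from semiprojective Banach lattices
-/

set_option autoImplicit false
set_option linter.unusedSectionVars false

noncomputable section

open Filter Topology
open scoped BoundedContinuousFunction

namespace Pool.Agent.V1198.YS

open Pool.Agent.V1198.BL

/-! ### Closed sublattices -/

section sub

variable {B : BLat}

theorem sub_sup {S : Submodule ℝ B} (habs : ∀ x ∈ S, |x| ∈ S) {x y : B} (hx : x ∈ S)
    (hy : y ∈ S) : x ⊔ y ∈ S := by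
  rw [sup_eq_half]
  exact S.smul_mem _ (S.add_mem (S.add_mem hx hy) (habs _ (S.sub_mem hx hy)))

theorem sub_inf {S : Submodule ℝ B} (habs : ∀ x ∈ S, |x| ∈ S) {x y : B} (hx : x ∈ S)
    (hy : y ∈ S) : x ⊓ y ∈ S := by
  rw [inf_eq_half]
  exact S.smul_mem _ (S.sub_mem (S.add_mem hx hy) (habs _ (S.sub_mem hx hy)))

/-- A closed sublattice as a Banach lattice. -/
@[reducible] def subLat (S : Submodule ℝ B) (hc : IsClosed (S : Set B)) (habs : ∀ x ∈ S, |x| ∈ S) :
    BLat :=
  letI l : Lattice S := Subtype.lattice (fun _ _ hx hy => sub_sup habs hx hy)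
    (fun _ _ hx hy => sub_inf habs hx hy)
  { carrier := S
    grp := inferInstance
    lat := l
    ord := ⟨fun _ _ h c => add_le_add_left (α := B) h c.1,
      fun _ _ h c => add_le_add_right (α := B) h c.1⟩
    solid := ⟨fun x y h => norm_mono (B := B) (x := x.1) (y := y.1) h⟩
    mod := inferInstance
    omod := { smul_le_smul_of_nonneg_left := fun _ hc _ _ h =>
                smul_le_smul_of_nonneg_left (β := B) h hc
              smul_le_smul_of_nonneg_right := fun _ hx _ _ h =>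
                smul_le_smul_of_nonneg_right (β := B) h hx }
    complete := hc.completeSpace_coe }

end sub

/-! ### Bounded sequences -/

instance (X : BLat) : IsOrderedModule ℝ (ℕ →ᵇ X) where
  smul_le_smul_of_nonneg_left _ hc _ _ h := fun k => smul_le_smul_of_nonneg_left (h k) hc
  smul_le_smul_of_nonneg_right _ hx _ _ h := fun k => smul_le_smul_of_nonneg_right h (hx k)

/-- The Banach lattice of bounded sequences in `X`. -/
abbrev linf (X : BLat) : BLat := ⟨ℕ →ᵇ X⟩

/-- The data of an asymptotic splitting. -/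
structure Spl (X Y : BLat) where
  /-- The quotient map. -/
  q : X →L[ℝ] Y
  /-- The operators. -/
  M : ℕ → X →L[ℝ] X
  quot : IsQuot q
  hom : ∀ k, IsLatHom (M k)
  contr : ∀ k x, ‖M k x‖ ≤ ‖x‖
  comm : ∀ k x, q (M k x) = q x
  ker : ∀ j, q j = 0 → Tendsto (fun k => M k j) atTop (𝓝 0)

variable {X Y : BLat} (D : Spl X Y)

/-- The sequences in `B_n`. -/
def Bsub (n : ℕ) : Submodule ℝ (linf X) where
  carrier := {x : ℕ →ᵇ X | (∀ k, D.q (x k) = D.q (x 0)) ∧
    Tendsto (fun k => x k - D.M (k + n) (x 0)) atTop (𝓝 0)}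
  zero_mem' := by
    refine ⟨fun k => rfl, ?_⟩
    have h : (fun k => (0 : ℕ →ᵇ X) k - D.M (k + n) ((0 : ℕ →ᵇ X) 0)) = fun _ => (0 : X) := by
      funext k
      simp
    rw [h]
    exact tendsto_const_nhds
  add_mem' := by
    rintro x y ⟨hx1, hx2⟩ ⟨hy1, hy2⟩
    refine ⟨fun k => ?_, ?_⟩
    · change D.q (x k + y k) = D.q (x 0 + y 0)
      rw [map_add, map_add, hx1, hy1]
    · have h := hx2.add hy2
      rw [add_zero] at h
      refine h.congr fun k => ?_
      change _ = (x k + y k) - D.M (k + n) (x 0 + y 0)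
      rw [map_add]
      abel
  smul_mem' := by
    rintro c x ⟨hx1, hx2⟩
    refine ⟨fun k => ?_, ?_⟩
    · change D.q (c • x k) = D.q (c • x 0)
      rw [map_smul, map_smul, hx1]
    · have h := hx2.const_smul c
      rw [smul_zero] at h
      refine h.congr fun k => ?_
      change _ = c • x k - D.M (k + n) (c • x 0)
      rw [map_smul, smul_sub]

theorem Bsub_abs (n : ℕ) (x : linf X) (hx : x ∈ Bsub D n) : |x| ∈ Bsub D n := by
  obtain ⟨hx1, hx2⟩ := hx
  refine ⟨fun k => ?_, ?_⟩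
  · change D.q |(x : ℕ →ᵇ X) k| = D.q |(x : ℕ →ᵇ X) 0|
    rw [D.quot.1, D.quot.1, hx1]
  · rw [tendsto_zero_iff_norm_tendsto_zero] at hx2 ⊢
    refine squeeze_zero (fun k => norm_nonneg _) (fun k => ?_) hx2
    change ‖|(x : ℕ →ᵇ X) k| - D.M (k + n) |(x : ℕ →ᵇ X) 0|‖ ≤ _
    rw [D.hom]
    exact norm_mono (abs_abs_sub_abs_le _ _)

theorem Bsub_closed (n : ℕ) : IsClosed (Bsub D n : Set (linf X)) := by
  refine isClosed_of_closure_subset fun x hx => ⟨fun k => ?_, ?_⟩
  · have hc : IsClosed {x : ℕ →ᵇ X | D.q (x k) = D.q (x 0)} :=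
      isClosed_eq (D.q.continuous.comp (continuous_eval_const k))
        (D.q.continuous.comp (continuous_eval_const 0))
    exact closure_minimal (fun y hy => hy.1 k) hc hx
  · rw [Metric.tendsto_atTop]
    intro ε hε
    obtain ⟨y, hy, hxy⟩ := Metric.mem_closure_iff.1 hx (ε / 4) (by linarith)
    obtain ⟨N, hN⟩ := Metric.tendsto_atTop.1 hy.2 (ε / 4) (by linarith)
    refine ⟨N, fun k hk => ?_⟩
    have h1 := hN k hk
    rw [dist_zero_right] at h1 ⊢
    have h2 : ∀ k, ‖(x : ℕ →ᵇ X) k - (y : ℕ →ᵇ X) k‖ < ε / 4 := fun k => by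
      have h3 := BoundedContinuousFunction.dist_coe_le_dist (f := (x : ℕ →ᵇ X)) (g := y) k
      rw [dist_eq_norm] at h3
      exact h3.trans_lt hxy
    have e : (x : ℕ →ᵇ X) k - D.M (k + n) ((x : ℕ →ᵇ X) 0) =
        ((x : ℕ →ᵇ X) k - (y : ℕ →ᵇ X) k) + ((y : ℕ →ᵇ X) k - D.M (k + n) ((y : ℕ →ᵇ X) 0)) -
        D.M (k + n) ((x : ℕ →ᵇ X) 0 - (y : ℕ →ᵇ X) 0) := by
      rw [map_sub]
      abel
    rw [e]
    have h4 := D.contr (k + n) ((x : ℕ →ᵇ X) 0 - (y : ℕ →ᵇ X) 0)
    have h5 := h2 k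
    have h6 := h2 0
    have h7 := norm_sub_le (((x : ℕ →ᵇ X) k - (y : ℕ →ᵇ X) k) +
      ((y : ℕ →ᵇ X) k - D.M (k + n) ((y : ℕ →ᵇ X) 0)))
      (D.M (k + n) ((x : ℕ →ᵇ X) 0 - (y : ℕ →ᵇ X) 0))
    have h8 := norm_add_le ((x : ℕ →ᵇ X) k - (y : ℕ →ᵇ X) k)
      ((y : ℕ →ᵇ X) k - D.M (k + n) ((y : ℕ →ᵇ X) 0))
    linarith

/-- The Banach lattice `B_n`. -/
abbrev BB (n : ℕ) : BLat := subLat (Bsub D n) (Bsub_closed D n) (Bsub_abs D n)

instance instLatB (n : ℕ) : Lattice (Bsub D n) := (BB D n).lat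

/-- The entries of an element of `B_n`. -/
def en {n : ℕ} (x : BB D n) (k : ℕ) : X := (show ℕ →ᵇ X from x.1) k

variable {D}

theorem en_norm_le {n : ℕ} (x : BB D n) (k : ℕ) : ‖en D x k‖ ≤ ‖x‖ :=
  BoundedContinuousFunction.norm_coe_le_norm (show ℕ →ᵇ X from x.1) k

theorem norm_le_en {n : ℕ} {x : BB D n} {C : ℝ} (hC : 0 ≤ C) (h : ∀ k, ‖en D x k‖ ≤ C) :
    ‖x‖ ≤ C := (BoundedContinuousFunction.norm_le hC).2 h

theorem en_ext {n : ℕ} {x y : BB D n} (h : ∀ k, en D x k = en D y k) : x = y :=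
  Subtype.ext (BoundedContinuousFunction.ext h)

theorem en_add {n : ℕ} (x y : BB D n) (k : ℕ) : en D (x + y) k = en D x k + en D y k := rfl
theorem en_sub {n : ℕ} (x y : BB D n) (k : ℕ) : en D (x - y) k = en D x k - en D y k := rfl
theorem en_smul {n : ℕ} (c : ℝ) (x : BB D n) (k : ℕ) : en D (c • x) k = c • en D x k := rfl
theorem en_abs {n : ℕ} (x : BB D n) (k : ℕ) : en D |x| k = |en D x k| := rfl
theorem en_q {n : ℕ} (x : BB D n) (k : ℕ) : D.q (en D x k) = D.q (en D x 0) := x.2.1 k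
theorem en_tendsto {n : ℕ} (x : BB D n) :
    Tendsto (fun k => en D x k - D.M (k + n) (en D x 0)) atTop (𝓝 0) := x.2.2

/-- Constructor. -/
def mkB {n : ℕ} (f : ℕ → X) (C : ℝ) (hC : ∀ k, ‖f k‖ ≤ C) (h1 : ∀ k, D.q (f k) = D.q (f 0))
    (h2 : Tendsto (fun k => f k - D.M (k + n) (f 0)) atTop (𝓝 0)) : BB D n :=
  ⟨BoundedContinuousFunction.ofNormedAddCommGroupDiscrete f C hC, h1, h2⟩

theorem en_mkB {n : ℕ} (f : ℕ → X) (C : ℝ) (hC : ∀ k, ‖f k‖ ≤ C)
    (h1 : ∀ k, D.q (f k) = D.q (f 0))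
    (h2 : Tendsto (fun k => f k - D.M (k + n) (f 0)) atTop (𝓝 0)) (k : ℕ) :
    en D (mkB f C hC h1 h2 : BB D n) k = f k := rfl

variable (D)

/-- Evaluation at the first entry. -/
def ev0 (n : ℕ) : BB D n →L[ℝ] X :=
  LinearMap.mkContinuous
    { toFun := fun x => en D x 0
      map_add' := fun x y => en_add x y 0
      map_smul' := fun c x => en_smul c x 0 } 1 fun x => by
    rw [one_mul]
    exact en_norm_le x 0

theorem ev0_apply (n : ℕ) (x : BB D n) : ev0 D n x = en D x 0 := rfl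

theorem ev0_hom (n : ℕ) : IsLatHom (ev0 D n) := fun x => en_abs x 0

theorem ev0_norm (n : ℕ) : ‖ev0 D n‖ ≤ 1 := LinearMap.mkContinuous_norm_le _ zero_le_one _

theorem tail_mem (n : ℕ) (x : BB D 0) :
    Tendsto (fun k => en D x (k + n) - D.M (k + n) (en D x (0 + n))) atTop (𝓝 0) := by
  have h1 : Tendsto (fun k => en D x (k + n) - D.M (k + n) (en D x 0)) atTop (𝓝 0) :=
    (en_tendsto x).comp (tendsto_add_atTop_nat n)
  have h2 : Tendsto (fun k => D.M (k + n) (en D x (0 + n) - en D x 0)) atTop (𝓝 0) := by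
    have h3 := D.ker (en D x (0 + n) - en D x 0) (by rw [map_sub, en_q, sub_self])
    exact h3.comp (tendsto_add_atTop_nat n)
  have h3 := h1.sub h2
  rw [sub_zero] at h3
  refine h3.congr fun k => ?_
  rw [map_sub]
  abel

/-- The shift `B_0 → B_n`. -/
def sh (n : ℕ) : BB D 0 →L[ℝ] BB D n :=
  LinearMap.mkContinuous
    { toFun := fun x => mkB (fun k => en D x (k + n)) ‖x‖ (fun k => en_norm_le x _)
        (fun k => by rw [en_q, en_q x (0 + n)]) (tail_mem D n x)
      map_add' := fun x y => en_ext fun k => rfl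
      map_smul' := fun c x => en_ext fun k => rfl } 1 fun x => by
    rw [one_mul]
    exact norm_le_en (norm_nonneg _) fun k => en_norm_le x _

theorem en_sh (n : ℕ) (x : BB D 0) (k : ℕ) : en D (sh D n x) k = en D x (k + n) := rfl

/-- Recognition of quotient maps. -/
theorem isQuot_of' {B C : BLat} {q : B →L[ℝ] C} (h1 : IsLatHom q) (h2 : ∀ x, ‖q x‖ ≤ ‖x‖)
    (h3 : ∀ y, ∀ ε : ℝ, 0 < ε → ∃ x, q x = y ∧ ‖x‖ ≤ ‖y‖ + ε) : IsQuot q := by
  refine ⟨h1, fun y => ?_, fun y => le_antisymm ?_ ?_⟩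
  · obtain ⟨x, hx, -⟩ := h3 y 1 one_pos
    exact ⟨x, hx⟩
  · obtain ⟨x, hx, -⟩ := h3 y 1 one_pos
    refine le_csInf ⟨‖x‖, x, hx, rfl⟩ ?_
    rintro _ ⟨z, rfl, rfl⟩
    exact h2 z
  · refine le_of_forall_pos_le_add fun ε hε => ?_
    obtain ⟨x, hx, hx2⟩ := h3 y ε hε
    have h4 : sInf {r : ℝ | ∃ x, q x = y ∧ r = ‖x‖} ≤ ‖x‖ :=
      csInf_le ⟨0, by rintro _ ⟨z, -, rfl⟩; exact norm_nonneg z⟩ ⟨x, hx, rfl⟩
    exact h4.trans hx2

theorem sh_quot (n : ℕ) : IsQuot (sh D n) := by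
  refine isQuot_of' (fun x => en_ext fun k => rfl)
    (fun x => norm_le_en (norm_nonneg _) fun k => en_norm_le x _) fun y ε hε => ?_
  have hq : ∀ k, D.q (en D y k) = D.q (en D y 0) := en_q y
  refine ⟨mkB (fun k => en D y (k - n)) ‖y‖ (fun k => en_norm_le y _) (fun k => ?_) ?_, ?_, ?_⟩
  · rw [hq, hq (0 - n)]
  · have h1 := en_tendsto y
    have h2 : Tendsto (fun k => en D y (k - n) - D.M (k - n + n) (en D y 0)) atTop (𝓝 0) :=
      h1.comp (tendsto_sub_atTop_nat n)
    refine h2.congr' ?_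
    filter_upwards [eventually_ge_atTop n] with k hk
    rw [Nat.sub_add_cancel hk, Nat.zero_sub, Nat.add_zero]
  · refine en_ext fun k => ?_
    rw [en_sh, en_mkB, Nat.add_sub_cancel]
  · refine (norm_le_en (norm_nonneg _) fun k => ?_).trans (le_add_of_nonneg_right hε.le)
    rw [en_mkB]
    exact en_norm_le y _

/-- The quotient map `B_n → Y`. -/
def qq (n : ℕ) : BB D n →L[ℝ] Y := D.q.comp (ev0 D n)

theorem qq_apply (n : ℕ) (x : BB D n) : qq D n x = D.q (en D x 0) := rfl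

theorem qq_quot : IsQuot (qq D 0) := by
  refine isQuot_of' (IsLatHom.comp D.quot.1 (ev0_hom D 0)) (fun x => ?_) fun y ε hε => ?_
  · exact (D.quot.norm_apply_le _).trans (en_norm_le x 0)
  · obtain ⟨x, hx, hxn⟩ := D.quot.exists_lift y hε
    refine ⟨mkB (fun k => D.M k x) ‖x‖ (fun k => D.contr k x) (fun k => by
      rw [D.comm, D.comm]) ?_, ?_, ?_⟩
    · have h1 := D.ker (x - D.M 0 x) (by rw [map_sub, D.comm, sub_self])
      refine h1.congr fun k => ?_
      rw [map_sub, Nat.add_zero]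
    · rw [qq_apply, en_mkB, D.comm, hx]
    · refine (norm_le_en (norm_nonneg x) fun k => ?_).trans hxn.le
      rw [en_mkB]
      exact D.contr k x

theorem qq_sh (n : ℕ) : (qq D n).comp (sh D n) = qq D 0 := by
  ext x
  change D.q (en D (sh D n x) 0) = D.q (en D x 0)
  rw [en_sh, en_q]

theorem sh_ker (n : ℕ) (x : BB D 0) (h : sh D n x = 0) : sh D (n + 1) x = 0 := by
  refine en_ext fun k => ?_
  have h1 : en D (sh D n x) (k + 1) = 0 := by rw [h]; rfl
  rw [en_sh] at h1 ⊢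
  rw [show k + (n + 1) = k + 1 + n by ring, h1]
  rfl

theorem ker_closure : {x | qq D 0 x = 0} = closure (⋃ n, {x | sh D n x = 0}) := by
  apply subset_antisymm
  · intro x hx
    have hx0 : ∀ k, D.q (en D x k) = 0 := fun k => by rw [en_q]; exact hx
    have hlim : Tendsto (fun k => en D x k) atTop (𝓝 0) := by
      have h1 := (en_tendsto x).add (D.ker (en D x 0) (hx0 0))
      rw [add_zero] at h1
      refine h1.congr fun k => ?_
      rw [Nat.add_zero]
      abel
    rw [Metric.mem_closure_iff]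
    intro ε hε
    obtain ⟨N, hN⟩ := Metric.tendsto_atTop.1 hlim (ε / 2) (by linarith)
    have hfin : ∀ k, ‖if k < N then en D x k else 0‖ ≤ ‖x‖ := fun k => by
      split_ifs
      · exact en_norm_le x k
      · rw [norm_zero]; exact norm_nonneg _
    have hfq : ∀ k, D.q (if k < N then en D x k else 0) = 0 := fun k => by
      split_ifs
      · exact hx0 k
      · exact map_zero _
    have hft : Tendsto (fun k => (if k < N then en D x k else 0) -
        D.M (k + 0) (if 0 < N then en D x 0 else 0)) atTop (𝓝 0) := by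
      have h1 := (D.ker (if 0 < N then en D x 0 else 0) (hfq 0)).neg
      rw [neg_zero] at h1
      refine h1.congr' ?_
      filter_upwards [eventually_ge_atTop N] with k hk
      rw [if_neg (not_lt.2 hk), Nat.add_zero, zero_sub]
    refine ⟨mkB (fun k => if k < N then en D x k else 0) ‖x‖ hfin
      (fun k => by rw [hfq, hfq]) hft, ?_, ?_⟩
    · refine Set.mem_iUnion.2 ⟨N, en_ext fun k => ?_⟩
      rw [en_sh, en_mkB, if_neg (by omega)]
      rfl
    · rw [dist_eq_norm]
      refine (norm_le_en (C := ε / 2) (by linarith) fun k => ?_).trans_lt (by linarith)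
      rw [en_sub, en_mkB]
      split_ifs with hk
      · rw [sub_self, norm_zero]; linarith
      · rw [sub_zero]
        have := hN k (not_lt.1 hk)
        rw [dist_zero_right] at this
        exact this.le
  · refine closure_minimal ?_ (isClosed_eq (qq D 0).continuous continuous_const)
    intro x hx
    obtain ⟨n, hn⟩ := Set.mem_iUnion.1 hx
    change qq D 0 x = 0
    rw [← qq_sh D n, ContinuousLinearMap.comp_apply, show sh D n x = 0 from hn, map_zero]

/-- Separability of `B_0`. -/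
theorem BB_sep [TopologicalSpace.SeparableSpace X] : TopologicalSpace.SeparableSpace (BB D 0) := by
  set d := TopologicalSpace.denseSeq X
  have hd : DenseRange d := TopologicalSpace.denseRange_denseSeq X
  have hG : ∀ (p : ℕ × List ℕ), ∃ C, ∀ k,
      ‖if h : k < p.2.length then d (p.2[k]) else D.M k (d p.1)‖ ≤ C := by
    intro p
    refine ⟨‖d p.1‖ + ∑ k ∈ Finset.range p.2.length, ‖if h : k < p.2.length then d (p.2[k])
      else 0‖, fun k => ?_⟩
    split_ifs with h
    · have h1 := Finset.single_le_sum (f := fun k => ‖if h : k < p.2.length then d (p.2[k])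
        else 0‖) (fun k _ => norm_nonneg _) (Finset.mem_range.2 h)
      simp only [h, ↓reduceDIte] at h1
      exact h1.trans (le_add_of_nonneg_left (norm_nonneg _))
    · exact (D.contr k _).trans (le_add_of_nonneg_right
        (Finset.sum_nonneg fun k _ => norm_nonneg _))
  choose C hC using hG
  let G : ℕ × List ℕ → (ℕ →ᵇ X) := fun p =>
    BoundedContinuousFunction.ofNormedAddCommGroupDiscrete
      (fun k => if h : k < p.2.length then d (p.2[k]) else D.M k (d p.1)) (C p) (hC p)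
  have hsep : TopologicalSpace.IsSeparable (closure (Set.range G)) :=
    (Set.countable_range G).isSeparable.closure
  have hsub : (Bsub D 0 : Set (linf X)) ⊆ closure (Set.range G) := by
    intro x hx
    obtain ⟨hx1, hx2⟩ := hx
    rw [Metric.mem_closure_iff]
    intro ε hε
    obtain ⟨N, hN⟩ := Metric.tendsto_atTop.1 hx2 (ε / 4) (by linarith)
    have hex : ∀ z : X, ∃ i, dist z (d i) < ε / 4 := fun z =>
      hd.exists_dist_lt z (by linarith)
    choose g hg using hex
    refine ⟨G (g ((x : ℕ →ᵇ X) 0), (List.range N).map fun k => g ((x : ℕ →ᵇ X) k)),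
      ⟨_, rfl⟩, ?_⟩
    have hle : ∀ k, dist ((x : ℕ →ᵇ X) k)
        (G (g ((x : ℕ →ᵇ X) 0), (List.range N).map fun k => g ((x : ℕ →ᵇ X) k)) k) ≤ ε / 2 := by
      intro k
      change dist ((x : ℕ →ᵇ X) k) (if h : k < ((List.range N).map
        fun k => g ((x : ℕ →ᵇ X) k)).length then d (((List.range N).map
        fun k => g ((x : ℕ →ᵇ X) k))[k]) else D.M k (d (g ((x : ℕ →ᵇ X) 0)))) ≤ ε / 2
      split_ifs with h
      · simp only [List.getElem_map, List.getElem_range]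
        have := hg ((x : ℕ →ᵇ X) k)
        linarith
      · have hk : N ≤ k := by
          simpa using h
        have h1 := hN k hk
        rw [dist_zero_right, Nat.add_zero] at h1
        have h2 := hg ((x : ℕ →ᵇ X) 0)
        rw [dist_eq_norm] at h2 ⊢
        have h3 := D.contr k ((x : ℕ →ᵇ X) 0 - d (g ((x : ℕ →ᵇ X) 0)))
        have e : (x : ℕ →ᵇ X) k - D.M k (d (g ((x : ℕ →ᵇ X) 0))) =
            ((x : ℕ →ᵇ X) k - D.M k ((x : ℕ →ᵇ X) 0)) +
            D.M k ((x : ℕ →ᵇ X) 0 - d (g ((x : ℕ →ᵇ X) 0))) := by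
          rw [map_sub]
          abel
        rw [e]
        have h4 := norm_add_le ((x : ℕ →ᵇ X) k - D.M k ((x : ℕ →ᵇ X) 0))
          (D.M k ((x : ℕ →ᵇ X) 0 - d (g ((x : ℕ →ᵇ X) 0))))
        linarith
    exact ((BoundedContinuousFunction.dist_le (by linarith)).2 hle).trans_lt (by linarith)
  exact (hsep.mono hsub).separableSpace

/-- Lifting for separable domains of the quotient map. -/
theorem lift_sep {A : BLat} (hA : Semiprojective A) {X Y : BLat}
    [TopologicalSpace.SeparableSpace X] {q : X →L[ℝ] Y} (hq : IsQuot q) {T : A →L[ℝ] Y}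
    (hT : IsLatHom T) (hT1 : ‖T‖ ≤ 1) {ε : ℝ} (hε : 0 < ε) :
    ∃ S : A →L[ℝ] X, IsLatHom S ∧ q.comp S = T ∧ ‖S‖ ≤ 1 + ε := by
  obtain ⟨M, hM1, hM2, hM3, hM4⟩ := exists_split hq.1
  let D : Spl X Y := ⟨q, M, hq, hM1, hM2, hM3, hM4⟩
  obtain ⟨n, hn⟩ := hA (BB D 0) (fun n => BB D n) Y (fun n => sh D n) (qq D 0) (fun n => qq D n)
    (BB_sep D) (fun n => sh_quot D n) (qq_quot D) (fun n => qq_sh D n)
    (fun n x h => sh_ker D n x h) (ker_closure D) T hT hT1
  obtain ⟨ψ, hψ1, hψ2, hψ3⟩ := hn ε hε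
  refine ⟨(ev0 D n).comp ψ, IsLatHom.comp (ev0_hom D n) hψ1, ?_, ?_⟩
  · rw [← hψ2]
    rfl
  · refine (ContinuousLinearMap.opNorm_comp_le _ _).trans ?_
    calc ‖ev0 D n‖ * ‖ψ‖ ≤ 1 * (1 + ε) :=
          mul_le_mul (ev0_norm D n) hψ3 (norm_nonneg _) zero_le_one
      _ = 1 + ε := one_mul _

end Pool.Agent.V1198.YS
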