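import Pool.Agent.V1198.BL

/-!
# Sick compacta
-/

set_option autoImplicit false
set_option linter.unusedSectionVars false

noncomputable section

open Filter Topology

namespace Pool.Agent.V1198.SK

open Pool.Agent.V1198.BL

/-- A compact space `K` is sick if `C(K)` is vector lattice isomorphic to a principal ideal of a
separable Banach lattice. -/
def Sick (K : Type) [TopologicalSpace K] : Prop :=
  ∃ (E : BLat) (x : E) (T : C(K, ℝ) →ₗ[ℝ] E), TopologicalSpace.SeparableSpace E ∧ 0 ≤ x ∧
    Function.Injective T ∧ (∀ f, T |f| = |T f|) ∧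
    Set.range T = {y : E | ∃ c : ℝ, 0 < c ∧ |y| ≤ c • x}

section elem

variable {K : Type} [TopologicalSpace K]

theorem csup (f g : C(K, ℝ)) : f ⊔ g = (1 / 2 : ℝ) • (f + g + |f - g|) := by
  ext t
  simp only [ContinuousMap.sup_apply, ContinuousMap.smul_apply, ContinuousMap.add_apply,
    ContinuousMap.abs_apply, ContinuousMap.sub_apply, smul_eq_mul]
  rcases le_total (f t) (g t) with h | h
  · rw [sup_eq_right.2 h, abs_of_nonpos (by linarith)]; ring
  · rw [sup_eq_left.2 h, abs_of_nonneg (by linarith)]; ring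

theorem cinf (f g : C(K, ℝ)) : f ⊓ g = (1 / 2 : ℝ) • (f + g - |f - g|) := by
  ext t
  simp only [ContinuousMap.inf_apply, ContinuousMap.smul_apply, ContinuousMap.add_apply,
    ContinuousMap.abs_apply, ContinuousMap.sub_apply, smul_eq_mul]
  rcases le_total (f t) (g t) with h | h
  · rw [inf_eq_left.2 h, abs_of_nonpos (by linarith)]; ring
  · rw [inf_eq_right.2 h, abs_of_nonneg (by linarith)]; ring

variable {E : BLat} {T : C(K, ℝ) →ₗ[ℝ] E} (hT : ∀ f, T |f| = |T f|)
include hT

theorem T_nonneg {f : C(K, ℝ)} (hf : 0 ≤ f) : 0 ≤ T f := by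
  rw [← abs_of_nonneg hf, hT]
  exact abs_nonneg _

theorem T_mono {f g : C(K, ℝ)} (h : f ≤ g) : T f ≤ T g := by
  have := T_nonneg hT (sub_nonneg.2 h)
  rw [map_sub] at this
  exact sub_nonneg.1 this

theorem T_sup (f g : C(K, ℝ)) : T (f ⊔ g) = T f ⊔ T g := by
  rw [csup, map_smul, map_add, map_add, hT, map_sub, sup_eq_half]

theorem T_inf (f g : C(K, ℝ)) : T (f ⊓ g) = T f ⊓ T g := by
  rw [cinf, map_smul, map_sub, map_add, hT, map_sub, inf_eq_half]

theorem T_le (hinj : Function.Injective T) {f g : C(K, ℝ)} (h : T f ≤ T g) : f ≤ g := by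
  have h1 : T (f ⊔ g) = T g := by rw [T_sup hT, sup_eq_right.2 h]
  exact sup_eq_right.1 (hinj h1)

theorem T_norm_mono {f g : C(K, ℝ)} (h : |f| ≤ |g|) : ‖T f‖ ≤ ‖T g‖ := by
  refine norm_mono ?_
  rw [← hT, ← hT]
  exact T_mono hT h

theorem T_bound [CompactSpace K] (f : C(K, ℝ)) : ‖T f‖ ≤ ‖f‖ * ‖T 1‖ := by
  have h1 : |f| ≤ ‖f‖ • (1 : C(K, ℝ)) := fun t => by
    have := f.norm_coe_le_norm t
    simpa using this
  have h2 : |T f| ≤ ‖f‖ • T 1 := by
    rw [← hT, ← map_smul]
    exact T_mono hT h1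
  rw [← norm_abs_eq_norm]
  refine (norm_mono' (abs_nonneg _) h2).trans ?_
  rw [norm_smul, norm_norm]

end elem

/-- A compact Hausdorff space with second countable `C(K)` is metrizable. -/
theorem metrizable_of_secondCountable {K : Type} [TopologicalSpace K] [CompactSpace K] [T2Space K]
    [SecondCountableTopology C(K, ℝ)] : TopologicalSpace.MetrizableSpace K := by
  set d := TopologicalSpace.denseSeq C(K, ℝ) with hd
  have hdr : DenseRange d := TopologicalSpace.denseRange_denseSeq _
  let F : K → ℕ → ℝ := fun x n => d n x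
  have hF : Continuous F := continuous_pi fun n => (d n).continuous
  have hinj : Function.Injective F := by
    intro x y hxy
    by_contra hne
    obtain ⟨f, hf0, hf1, -⟩ := exists_continuous_zero_one_of_isClosed
      (isClosed_singleton (x := x)) (isClosed_singleton (x := y)) (Set.disjoint_singleton.2 hne)
    obtain ⟨n, hn⟩ := hdr.exists_dist_lt f (show (0 : ℝ) < 1 / 3 by norm_num)
    have h0 : f x = 0 := hf0 rfl
    have h1 : f y = 1 := hf1 rfl
    have hx := (f - d n).norm_coe_le_norm x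
    have hy := (f - d n).norm_coe_le_norm y
    rw [dist_eq_norm] at hn
    rw [ContinuousMap.sub_apply, Real.norm_eq_abs, h0] at hx
    rw [ContinuousMap.sub_apply, Real.norm_eq_abs, h1] at hy
    have hxy' : d n x = d n y := congrFun hxy n
    rw [hxy'] at hx
    have h2 := abs_le.1 (hx.trans hn.le)
    have h3 := abs_le.1 (hy.trans hn.le)
    linarith [h2.1, h2.2, h3.1, h3.2]
  exact (hF.isClosedEmbedding hinj).isEmbedding.metrizableSpace

/-- The key summation lemma: sums of small functions. -/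
theorem exists_sum {Z : Type} [TopologicalSpace Z] {E : BLat} {x : E} {T : C(Z, ℝ) →ₗ[ℝ] E}
    (hinj : Function.Injective T) (hT : ∀ f, T |f| = |T f|)
    (hr : Set.range T = {y : E | ∃ c : ℝ, 0 < c ∧ |y| ≤ c • x}) {f : ℕ → C(Z, ℝ)}
    (hf : ∀ k, 0 ≤ f k) (hle : ∀ N, ∑ k ∈ Finset.range N, f k ≤ 1)
    (hs : Summable fun k => ‖T (f k)‖) :
    ∃ F : C(Z, ℝ), (∀ k, f k ≤ F) ∧ ∀ h : C(Z, ℝ), 0 ≤ h → (∀ k, h ⊓ f k = 0) → h ⊓ F = 0 := by
  have hs' : Summable fun k => T (f k) := hs.of_norm
  have hlim : Tendsto (fun N => T (∑ k ∈ Finset.range N, f k)) atTop (𝓝 (∑' k, T (f k))) := by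
    have := hs'.hasSum.tendsto_sum_nat
    simpa only [map_sum] using this
  set g := ∑' k, T (f k) with hg
  have hg0 : 0 ≤ g := tsum_nonneg fun k => T_nonneg hT (hf k)
  have hg1 : g ≤ T 1 := le_of_tendsto' hlim fun N => T_mono hT (hle N)
  have hmem : g ∈ Set.range T := by
    have h1 : T 1 ∈ Set.range T := ⟨1, rfl⟩
    rw [hr] at h1 ⊢
    obtain ⟨c, hc, hc1⟩ := h1
    refine ⟨c, hc, ?_⟩
    rw [abs_of_nonneg hg0]
    exact hg1.trans ((le_abs_self _).trans hc1)
  obtain ⟨F, hF⟩ := hmem
  refine ⟨F, fun k => T_le hT hinj ?_, fun h hh hd => ?_⟩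
  · rw [hF]
    exact hs'.le_tsum k fun j _ => T_nonneg hT (hf j)
  · have hdisj : ∀ N, h ⊓ (∑ k ∈ Finset.range N, f k) = 0 := by
      intro N
      ext t
      simp only [ContinuousMap.inf_apply, ContinuousMap.zero_apply]
      have hht : 0 ≤ h t := hh t
      rcases hht.eq_or_lt with h0 | h0
      · rw [← h0]
        refine inf_eq_left.2 ?_
        rw [ContinuousMap.sum_apply]
        exact Finset.sum_nonneg fun k _ => hf k t
      · have hz : ∀ k, f k t = 0 := fun k => by
          have h1 := congrArg (fun φ : C(Z, ℝ) => φ t) (hd k)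
          simp only [ContinuousMap.inf_apply, ContinuousMap.zero_apply] at h1
          rcases le_total (h t) (f k t) with h2 | h2
          · rw [inf_eq_left.2 h2] at h1; linarith
          · rwa [inf_eq_right.2 h2] at h1
        rw [ContinuousMap.sum_apply]
        simp only [hz, Finset.sum_const_zero]
        exact inf_eq_right.2 hht
    have h1 : Tendsto (fun N => T h ⊓ T (∑ k ∈ Finset.range N, f k)) atTop (𝓝 (T h ⊓ g)) :=
      tendsto_const_nhds.inf_nhds hlim
    have h2 : ∀ N, T h ⊓ T (∑ k ∈ Finset.range N, f k) = 0 := fun N => by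
      rw [← T_inf hT, hdisj, map_zero]
    simp only [h2] at h1
    have h3 : T h ⊓ g = 0 := tendsto_nhds_unique h1 tendsto_const_nhds |>.symm ▸ rfl
    rw [← hF, ← T_inf hT] at h3
    exact hinj (by rw [h3, map_zero])

end Pool.Agent.V1198.SK
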