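import Pool.Agent.V1198.Sick

/-!
# Sick products
-/

set_option autoImplicit false
set_option linter.unusedSectionVars false

noncomputable section

open Filter Topology

namespace Pool.Agent.V1198.SK

open Pool.Agent.V1198.BL

variable {K L : Type} [TopologicalSpace K] [CompactSpace K] [T2Space K]
  [TopologicalSpace L] [CompactSpace L] [T2Space L]

/-- Elementary tensors. -/
def tens (v : C(K, ℝ)) (w : C(L, ℝ)) : C(K × L, ℝ) := ⟨fun p => v p.1 * w p.2, by fun_prop⟩

theorem tens_apply (v : C(K, ℝ)) (w : C(L, ℝ)) (a : K) (b : L) : tens v w (a, b) = v a * w b := rfl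

section

variable {E : BLat} {x : E} {T : C(K × L, ℝ) →ₗ[ℝ] E} (hinj : Function.Injective T)
  (hT : ∀ f, T |f| = |T f|) (hr : Set.range T = {y : E | ∃ c : ℝ, 0 < c ∧ |y| ≤ c • x})
include hinj hT hr

/-- There are no small disjoint rectangles. -/
theorem rect_false (v : ℕ → C(K, ℝ)) (w : ℕ → C(L, ℝ)) (a : ℕ → K) (b : ℕ → L)
    (hv : ∀ n t, 0 ≤ v n t ∧ v n t ≤ 1) (hw : ∀ n t, 0 ≤ w n t ∧ w n t ≤ 1)
    (hva : ∀ n, v n (a n) = 1) (hwb : ∀ n, w n (b n) = 1)
    (hvd : ∀ n m, n ≠ m → ∀ t, v n t = 0 ∨ v m t = 0)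
    (hwd : ∀ n m, n ≠ m → ∀ t, w n t = 0 ∨ w m t = 0)
    (hs : Summable fun n => ‖T (tens (v n) (w n))‖) : False := by
  have hf : ∀ n, 0 ≤ tens (v n) (w n) := fun n p => mul_nonneg (hv n _).1 (hw n _).1
  have hle : ∀ N, ∑ k ∈ Finset.range N, tens (v k) (w k) ≤ 1 := by
    intro N p
    change (∑ k ∈ Finset.range N, tens (v k) (w k) : C(K × L, ℝ)) p ≤ (1 : C(K × L, ℝ)) p
    rw [ContinuousMap.sum_apply]
    change ∑ k ∈ Finset.range N, v k p.1 * w k p.2 ≤ 1
    by_cases h : ∃ k ∈ Finset.range N, v k p.1 ≠ 0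
    · obtain ⟨k, hk, hk0⟩ := h
      rw [Finset.sum_eq_single k]
      · have h1 := hv k p.1
        have h2 := hw k p.2
        nlinarith
      · intro j _ hj
        rcases hvd j k hj p.1 with h1 | h1
        · rw [h1, zero_mul]
        · exact absurd h1 hk0
      · intro h'
        exact absurd hk h'
    · have h0 : ∀ k ∈ Finset.range N, v k p.1 * w k p.2 = 0 := fun k hk => by
        by_contra h1
        exact h ⟨k, hk, fun h2 => h1 (by rw [h2, zero_mul])⟩
      rw [Finset.sum_eq_zero h0]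
      exact zero_le_one
  obtain ⟨F, hF1, hF2⟩ := exists_sum hinj hT hr hf hle hs
  have hdiag : ∀ n, 1 ≤ F (a n, b n) := fun n => by
    have h : tens (v n) (w n) (a n, b n) ≤ F (a n, b n) := hF1 n (a n, b n)
    rwa [tens_apply, hva, hwb, mul_one] at h
  have hoff : ∀ n m, n ≠ m → F (a n, b m) = 0 := fun n m hnm => by
    have h := hF2 (tens (v n) (w m)) (fun p => mul_nonneg (hv n _).1 (hw m _).1) fun k => by
      ext ⟨s, t⟩
      simp only [ContinuousMap.inf_apply, ContinuousMap.zero_apply, tens_apply]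
      by_cases hk : k = n
      · rw [hk]
        rcases hwd n m hnm t with h1 | h1
        · rw [h1, mul_zero]
          exact inf_eq_right.2 (mul_nonneg (hv n _).1 (hw m _).1)
        · rw [h1, mul_zero]
          exact inf_eq_left.2 (mul_nonneg (hv n _).1 (hw n _).1)
      · rcases hvd k n hk s with h1 | h1
        · rw [h1, zero_mul]
          exact inf_eq_right.2 (mul_nonneg (hv n _).1 (hw m _).1)
        · rw [h1, zero_mul]
          exact inf_eq_left.2 (mul_nonneg (hv k _).1 (hw k _).1)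
    have h1 := congrArg (fun φ : C(K × L, ℝ) => φ (a n, b m)) h
    simp only [ContinuousMap.inf_apply, ContinuousMap.zero_apply, tens_apply, hva, hwb,
      mul_one] at h1
    rcases le_total 1 (F (a n, b m)) with h2 | h2
    · rw [inf_eq_left.2 h2] at h1; linarith
    · rwa [inf_eq_right.2 h2] at h1
  -- limits along an ultrafilter
  let U : Ultrafilter ℕ := hyperfilter ℕ
  obtain ⟨a0, -, ha0⟩ := isCompact_univ.ultrafilter_le_nhds (U.map a) (by simp)
  obtain ⟨b0, -, hb0⟩ := isCompact_univ.ultrafilter_le_nhds (U.map b) (by simp)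
  have ha : Tendsto a U (𝓝 a0) := ha0
  have hb : Tendsto b U (𝓝 b0) := hb0
  have h1 : Tendsto (fun n => F (a n, b n)) U (𝓝 (F (a0, b0))) :=
    (F.continuous.tendsto (a0, b0)).comp (ha.prodMk_nhds hb)
  have h1' : 1 ≤ F (a0, b0) := ge_of_tendsto' h1 hdiag
  have h2 : ∀ m, F (a0, b m) = 0 := by
    intro m
    have h3 : Tendsto (fun n => F (a n, b m)) U (𝓝 (F (a0, b m))) :=
      (F.continuous.tendsto (a0, b m)).comp (ha.prodMk_nhds tendsto_const_nhds)
    have h4 : ∀ᶠ n in (U : Filter ℕ), F (a n, b m) = 0 := by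
      have h5 : ∀ᶠ n in (U : Filter ℕ), n ≠ m := by
        have h6 : {n | n ≠ m} ∈ cofinite := by
          rw [mem_cofinite]
          have : {n | n ≠ m}ᶜ = {m} := by ext; simp
          rw [this]
          exact Set.finite_singleton m
        exact hyperfilter_le_cofinite h6
      exact h5.mono fun n hn => hoff n m hn
    exact tendsto_nhds_unique (h3.congr' h4) tendsto_const_nhds
  have h3 : Tendsto (fun m => F (a0, b m)) U (𝓝 (F (a0, b0))) :=
    (F.continuous.tendsto (a0, b0)).comp (tendsto_const_nhds.prodMk_nhds hb)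
  simp only [h2] at h3
  have h4 := tendsto_nhds_unique h3 tendsto_const_nhds
  linarith

end

/-- The stages of the construction. -/
structure St (D : ℕ → Set K) (y0 : L) where
  /-- Closed set in `K`. -/
  C : Set K
  /-- Closed set in `L`. -/
  G : Set L
  hC : IsClosed C
  hG : IsClosed G
  hy : y0 ∉ G
  inf : ∀ m, (D m \ C).Infinite

/-- Among two points one can be removed. -/
theorem exists_point {D : ℕ → Set K} (hD : Antitone D) {C : Set K}
    (hinf : ∀ m, (D m \ C).Infinite) (n : ℕ) :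
    ∃ a ∈ D n \ C, ∃ U : Set K, IsOpen U ∧ a ∈ U ∧ ∀ m, (D m \ (C ∪ closure U)).Infinite := by
  obtain ⟨a, ha⟩ := (hinf n).nonempty
  obtain ⟨b, hb, hba⟩ := (hinf n).exists_notMem_finset {a}
  have hab : a ≠ b := fun h => hba (by rw [h]; exact Finset.mem_singleton_self _)
  obtain ⟨U, haU, hU, V, hbV, hV, hUV⟩ := exists_open_nhds_disjoint_closure hab
  by_cases h1 : ∀ m, (D m \ (C ∪ closure U)).Infinite
  · exact ⟨a, ha, U, hU, haU, h1⟩
  · by_cases h2 : ∀ m, (D m \ (C ∪ closure V)).Infinite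
    · exact ⟨b, hb, V, hV, hbV, h2⟩
    · exfalso
      push Not at h1 h2
      obtain ⟨m, hm⟩ := h1
      obtain ⟨k, hk⟩ := h2
      have h3 : (D (max m k) \ C) ⊆ (D m \ (C ∪ closure U)) ∪ (D k \ (C ∪ closure V)) := by
        rintro t ⟨ht, htC⟩
        by_cases htU : t ∈ closure U
        · right
          refine ⟨hD (le_max_right m k) ht, ?_⟩
          rintro (h | h)
          · exact htC h
          · exact Set.disjoint_left.1 hUV htU h
        · left
          refine ⟨hD (le_max_left m k) ht, ?_⟩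
          rintro (h | h)
          · exact htC h
          · exact htU h
      exact hinf (max m k) ((hm.union hk).subset h3)

section

variable {E : BLat} {x : E} {T : C(K × L, ℝ) →ₗ[ℝ] E} (hinj : Function.Injective T)
  (hT : ∀ f, T |f| = |T f|) (hr : Set.range T = {y : E | ∃ c : ℝ, 0 < c ∧ |y| ≤ c • x})

/-- The points at which small functions are large. -/
def Bad (T : C(K × L, ℝ) →ₗ[ℝ] E) (y0 : L) (n : ℕ) : Set K :=
  {a | ∃ f : C(K × L, ℝ), 0 ≤ f ∧ 1 < f (a, y0) ∧ ‖T f‖ < (1 / 2 : ℝ) ^ n}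

theorem Bad_anti (T : C(K × L, ℝ) →ₗ[ℝ] E) (y0 : L) : Antitone (Bad T y0) := by
  rintro n m hnm a ⟨f, hf0, hf1, hf⟩
  exact ⟨f, hf0, hf1, hf.trans_le (pow_le_pow_of_le_one (by norm_num) (by norm_num) hnm)⟩

include hT in
theorem exists_step {y0 : L} (hy0 : ¬ IsOpen ({y0} : Set L)) (s : St (Bad T y0) y0) (n : ℕ) :
    ∃ (s' : St (Bad T y0) y0) (v : C(K, ℝ)) (w : C(L, ℝ)) (a : K) (b : L), s.C ⊆ s'.C ∧
      s.G ⊆ s'.G ∧ (∀ t, 0 ≤ v t ∧ v t ≤ 1) ∧ (∀ t, 0 ≤ w t ∧ w t ≤ 1) ∧ v a = 1 ∧ w b = 1 ∧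
      (∀ t ∈ s.C, v t = 0) ∧ (∀ t, t ∉ s'.C → v t = 0) ∧ (∀ t ∈ s.G, w t = 0) ∧
      (∀ t, t ∉ s'.G → w t = 0) ∧ ‖T (tens v w)‖ ≤ (1 / 2 : ℝ) ^ n := by
  obtain ⟨a, ⟨haD, haC⟩, U, hU, haU, hUinf⟩ := exists_point (Bad_anti T y0) s.inf n
  obtain ⟨f, hf0, hf1, hfn⟩ := haD
  -- a rectangle on which `f > 1`
  have hopen : IsOpen {p : K × L | 1 < f p} := isOpen_lt continuous_const f.continuous
  obtain ⟨V, W, hV, hW, haV, hyW, hVW⟩ := isOpen_prod_iff.1 hopen a y0 hf1
  -- the set in K
  set V' : Set K := (U ∩ V) ∩ s.Cᶜ with hV'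
  have hV'o : IsOpen V' := (hU.inter hV).inter s.hC.isOpen_compl
  have haV' : a ∈ V' := ⟨⟨haU, haV⟩, haC⟩
  obtain ⟨v, hv0, hv1, hv⟩ := exists_continuous_zero_one_of_isClosed hV'o.isClosed_compl
    (isClosed_singleton (x := a)) (Set.disjoint_singleton_right.2 fun h => h haV')
  -- a point of L
  set W' : Set L := W ∩ s.Gᶜ with hW'
  have hW'o : IsOpen W' := hW.inter s.hG.isOpen_compl
  have hyW' : y0 ∈ W' := ⟨hyW, s.hy⟩
  obtain ⟨b, hbW, hby⟩ : ∃ b ∈ W', b ≠ y0 := by
    by_contra h
    push Not at h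
    have : W' = {y0} := Set.eq_singleton_iff_unique_mem.2 ⟨hyW', h⟩
    exact hy0 (this ▸ hW'o)
  obtain ⟨P, hbP, hP, Q, hyQ, hQ, hPQ⟩ := exists_open_nhds_disjoint_closure hby
  set R : Set L := P ∩ W' with hR
  have hRo : IsOpen R := hP.inter hW'o
  obtain ⟨w, hw0, hw1, hw⟩ := exists_continuous_zero_one_of_isClosed hRo.isClosed_compl
    (isClosed_singleton (x := b)) (Set.disjoint_singleton_right.2 fun h => h ⟨hbP, hbW⟩)
  let s' : St (Bad T y0) y0 :=
    { C := s.C ∪ closure V'
      G := s.G ∪ closure R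
      hC := s.hC.union isClosed_closure
      hG := s.hG.union isClosed_closure
      hy := by
        rintro (h | h)
        · exact s.hy h
        · exact Set.disjoint_left.1 hPQ (closure_mono Set.inter_subset_left h)
            (subset_closure hyQ)
      inf := fun m => (hUinf m).mono (Set.sdiff_subset_sdiff_right (Set.union_subset_union_right _
        (closure_mono fun t ht => ht.1.1))) }
  refine ⟨s', v, w, a, b, Set.subset_union_left, Set.subset_union_left, fun t => hv t,
    fun t => hw t, hv1 rfl, hw1 rfl, fun t ht => hv0 fun h => h.2 ht, fun t ht => hv0 fun h =>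
    ht (Or.inr (subset_closure h)), fun t ht => hw0 fun h => h.2.2 ht, fun t ht => hw0 fun h =>
    ht (Or.inr (subset_closure h)), ?_⟩
  refine le_trans (T_norm_mono hT fun p => ?_) hfn.le
  change |v p.1 * w p.2| ≤ |f p|
  have hfp : 0 ≤ f p := hf0 p
  rw [abs_of_nonneg (mul_nonneg (hv _).1 (hw _).1), abs_of_nonneg hfp]
  by_cases h1 : p.1 ∈ V'
  · by_cases h2 : p.2 ∈ R
    · have h3 : 1 < f p := hVW (a := p) ⟨h1.1.2, h2.2.1⟩
      have h4 := hv p.1
      have h5 := hw p.2
      nlinarith [h4.1, h4.2, h5.1, h5.2]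
    · rw [hw0 h2]
      simpa using hfp
  · rw [hv0 h1]
    simpa using hfp

include hinj hT hr in
theorem exists_finite {y0 : L} (hy0 : ¬ IsOpen ({y0} : Set L)) : ∃ n, (Bad T y0 n).Finite := by
  by_contra hcon
  push Not at hcon
  choose S v w a b hSC hSG hv hw hva hwb hvC hvC' hwG hwG' hn using
    fun (s : St (Bad T y0) y0) (n : ℕ) => exists_step hT hy0 s n
  let s0 : St (Bad T y0) y0 :=
    { C := ∅
      G := ∅
      hC := isClosed_empty
      hG := isClosed_empty
      hy := Set.notMem_empty _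
      inf := fun m => by rw [Set.sdiff_empty]; exact hcon m }
  let s : ℕ → St (Bad T y0) y0 := fun n => Nat.rec s0 (fun n s => S s n) n
  have hs : ∀ n, s (n + 1) = S (s n) n := fun n => rfl
  have hCm : Monotone fun n => (s n).C := monotone_nat_of_le_succ fun n => hSC (s n) n
  have hGm : Monotone fun n => (s n).G := monotone_nat_of_le_succ fun n => hSG (s n) n
  have hvlt : ∀ n m, n < m → ∀ t, v (s n) n t = 0 ∨ v (s m) m t = 0 := by
    intro n m hnm t
    by_cases ht : t ∈ (s (n + 1)).C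
    · exact Or.inr (hvC (s m) m t (hCm hnm ht))
    · exact Or.inl (hvC' (s n) n t ht)
  have hwlt : ∀ n m, n < m → ∀ t, w (s n) n t = 0 ∨ w (s m) m t = 0 := by
    intro n m hnm t
    by_cases ht : t ∈ (s (n + 1)).G
    · exact Or.inr (hwG (s m) m t (hGm hnm ht))
    · exact Or.inl (hwG' (s n) n t ht)
  refine rect_false hinj hT hr (fun n => v (s n) n) (fun n => w (s n) n) (fun n => a (s n) n)
    (fun n => b (s n) n) (fun n => hv _ _) (fun n => hw _ _) (fun n => hva _ _)
    (fun n => hwb _ _) ?_ ?_ ?_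
  · intro n m hnm t
    rcases lt_or_gt_of_ne hnm with h | h
    · exact hvlt n m h t
    · exact (hvlt m n h t).symm
  · intro n m hnm t
    rcases lt_or_gt_of_ne hnm with h | h
    · exact hwlt n m h t
    · exact (hwlt m n h t).symm
  · exact Summable.of_nonneg_of_le (fun n => norm_nonneg _) (fun n => hn (s n) n)
      (summable_geometric_of_lt_one (by norm_num) (by norm_num))

end

/-- The first factor of a sick product with infinite second factor is metrizable. -/
theorem metrizable_left [Infinite L] (h : Sick (K × L)) : TopologicalSpace.MetrizableSpace K := by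
  obtain ⟨E, x, T, hE, hx, hinj, hT, hr⟩ := h
  obtain ⟨y0, hy0⟩ : ∃ y0 : L, ¬ IsOpen ({y0} : Set L) := by
    by_contra hcon
    push Not at hcon
    have : DiscreteTopology L := discreteTopology_iff_isOpen_singleton.2 hcon
    exact (inferInstance : Infinite L).not_finite finite_of_compact_of_discrete
  obtain ⟨n, hn⟩ := exists_finite hinj hT hr hy0
  have hfin : Finite (Bad T y0 n) := hn
  let _ : Fintype (Bad T y0 n) := Fintype.ofFinite _
  have hsE : SecondCountableTopology E := UniformSpace.secondCountable_of_separable E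
  -- the embedding of C(K)
  let Φ : C(K, ℝ) → E × (Bad T y0 n → ℝ) := fun g => (T (tens g 1), fun a => g a.1)
  have hlin : ∀ g g' : C(K, ℝ), tens (g - g') (1 : C(L, ℝ)) = tens g 1 - tens g' 1 := by
    intro g g'
    ext ⟨s, t⟩
    simp only [ContinuousMap.sub_apply, tens_apply]
    ring
  have hbound : ∀ g : C(K, ℝ), ∀ a ∉ Bad T y0 n, |g a| ≤ 2 ^ n * ‖T (tens g 1)‖ := by
    intro g a ha
    by_contra hlt
    push Not at hlt
    have hga : 0 < |g a| := lt_of_le_of_lt (by positivity) hlt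
    -- scale
    have hex : ∃ c : ℝ, 0 < c ∧ 1 < c * |g a| ∧ c * ‖T (tens g 1)‖ < (1 / 2 : ℝ) ^ n := by
      by_cases h0 : ‖T (tens g 1)‖ = 0
      · refine ⟨2 / |g a|, by positivity, ?_, ?_⟩
        · rw [div_mul_cancel₀ _ hga.ne']; norm_num
        · rw [h0, mul_zero]; positivity
      · have hpos : 0 < ‖T (tens g 1)‖ := lt_of_le_of_ne (norm_nonneg _) (Ne.symm h0)
        obtain ⟨r, hr1, hr2⟩ := exists_between hlt
        have hr0 : 0 < r := lt_of_le_of_lt (by positivity) hr1
        refine ⟨1 / r, by positivity, ?_, ?_⟩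
        · rw [div_mul_eq_mul_div, one_mul, lt_div_iff₀ hr0, one_mul]
          exact hr2
        · rw [div_mul_eq_mul_div, one_mul, div_lt_iff₀ hr0]
          have h2 : ((1 : ℝ) / 2) ^ n * 2 ^ n = 1 := by
            rw [← mul_pow]; norm_num
          have h3 : (0 : ℝ) < (1 / 2) ^ n := by positivity
          nlinarith
    obtain ⟨c, hc0, hc1, hc2⟩ := hex
    refine ha ⟨c • |tens g 1|, ?_, ?_, ?_⟩
    · intro p
      exact mul_nonneg hc0.le (abs_nonneg _)
    · change 1 < c * |g a * 1|
      rwa [mul_one]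
    · rw [map_smul, hT, norm_smul, norm_abs_eq_norm, Real.norm_eq_abs, abs_of_pos hc0]
      exact hc2
  have hlip : ∀ g g' : C(K, ℝ), dist g g' ≤ 2 ^ n * dist (Φ g) (Φ g') := by
    intro g g'
    have h1 : (1 : ℝ) ≤ 2 ^ n := one_le_pow₀ (by norm_num)
    have h2 : dist (T (tens g 1)) (T (tens g' 1)) ≤ dist (Φ g) (Φ g') := le_max_left _ _
    have h3 : dist (fun a : Bad T y0 n => g a.1) (fun a : Bad T y0 n => g' a.1) ≤
        dist (Φ g) (Φ g') := le_max_right _ _
    rw [ContinuousMap.dist_le (by positivity)]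
    intro a
    by_cases ha : a ∈ Bad T y0 n
    · have h4 : dist (g a) (g' a) ≤ dist (fun a : Bad T y0 n => g a.1)
          (fun a : Bad T y0 n => g' a.1) := by
        exact dist_le_pi_dist (fun a : Bad T y0 n => g a.1) (fun a : Bad T y0 n => g' a.1) ⟨a, ha⟩
      have h5 : 0 ≤ dist (Φ g) (Φ g') := dist_nonneg
      nlinarith
    · have h4 := hbound (g - g') a ha
      rw [hlin, map_sub, ← dist_eq_norm] at h4
      rw [Real.dist_eq]
      refine h4.trans (mul_le_mul_of_nonneg_left h2 (by positivity))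
  have hcont : Continuous Φ := by
    refine Continuous.prodMk ?_ (continuous_pi fun a => continuous_eval_const a.1)
    have hL : LipschitzWith (Real.toNNReal ‖T 1‖) (fun g : C(K, ℝ) => T (tens g 1)) := by
      refine LipschitzWith.of_dist_le_mul fun g g' => ?_
      rw [dist_eq_norm, dist_eq_norm, ← map_sub, ← hlin, Real.coe_toNNReal _ (norm_nonneg _),
        mul_comm]
      refine (T_bound hT _).trans (mul_le_mul_of_nonneg_right ?_ (norm_nonneg _))
      refine (ContinuousMap.norm_le _ (norm_nonneg _)).2 fun p => ?_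
      change ‖(g - g') p.1 * 1‖ ≤ _
      rw [mul_one]
      exact (g - g').norm_coe_le_norm p.1
    exact hL.continuous
  have hind : Topology.IsInducing Φ := by
    have hanti : AntilipschitzWith (2 ^ n) Φ := AntilipschitzWith.of_le_mul_dist fun g g' => by
      have := hlip g g'
      simpa using this
    rw [isInducing_iff_nhds]
    intro g
    refine le_antisymm (hcont.tendsto g).le_comap ?_
    intro s hs
    obtain ⟨ε, hε, hball⟩ := Metric.mem_nhds_iff.1 hs
    refine ⟨Metric.ball (Φ g) (ε / 2 ^ n), Metric.ball_mem_nhds _ (by positivity), ?_⟩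
    intro g' hg'
    refine hball ?_
    have h1 : dist (Φ g') (Φ g) < ε / 2 ^ n := hg'
    have h2 := hlip g' g
    rw [Metric.mem_ball]
    refine h2.trans_lt ?_
    have h3 := mul_lt_mul_of_pos_left h1 (show (0 : ℝ) < 2 ^ n by positivity)
    rwa [mul_div_cancel₀ _ (by positivity : (2 : ℝ) ^ n ≠ 0)] at h3
  have hsc : SecondCountableTopology C(K, ℝ) := hind.secondCountableTopology
  exact metrizable_of_secondCountable

/-- Sickness is invariant under homeomorphisms. -/
theorem Sick.homeo {Z W : Type} [TopologicalSpace Z] [TopologicalSpace W] (e : Z ≃ₜ W)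
    (h : Sick Z) : Sick W := by
  obtain ⟨E, x, T, hE, hx, hinj, hT, hr⟩ := h
  let c : C(W, ℝ) →ₗ[ℝ] C(Z, ℝ) :=
    { toFun := fun f => f.comp (e : C(Z, W))
      map_add' := fun _ _ => rfl
      map_smul' := fun _ _ => rfl }
  have hcs : Function.Surjective c := fun f => ⟨f.comp (e.symm : C(W, Z)), by
    ext t
    change f (e.symm (e t)) = f t
    rw [e.symm_apply_apply]⟩
  have hci : Function.Injective c := fun f g hfg => by
    ext t
    have h1 := congrArg (fun φ : C(Z, ℝ) => φ (e.symm t)) hfg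
    change f (e (e.symm t)) = g (e (e.symm t)) at h1
    rwa [e.apply_symm_apply] at h1
  refine ⟨E, x, T.comp c, hE, hx, hinj.comp hci, fun f => ?_, ?_⟩
  · change T (c |f|) = |T (c f)|
    rw [← hT]
    rfl
  · rw [← hr]
    ext y
    constructor
    · rintro ⟨f, rfl⟩
      exact ⟨c f, rfl⟩
    · rintro ⟨f, rfl⟩
      obtain ⟨g, rfl⟩ := hcs f
      exact ⟨g, rfl⟩

theorem metrizable_prod [Infinite K] [Infinite L] (h : Sick (K × L)) :
    TopologicalSpace.MetrizableSpace (K × L) := by
  have h1 : TopologicalSpace.MetrizableSpace K := metrizable_left h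
  have h2 : TopologicalSpace.MetrizableSpace L := metrizable_left (h.homeo (Homeomorph.prodComm K L))
  infer_instance

end Pool.Agent.V1198.SK
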