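import Pool.Agent.V1198.Sick
import Pool.Agent.V1198.SemiP

/-!
# Stone spaces of clopen algebras of sick compacta
-/

set_option autoImplicit false
set_option linter.unusedSectionVars false

noncomputable section

open Filter Topology
open TopologicalSpace (Clopens)

namespace Pool.Agent.V1198.SK

open Pool.Agent.V1198.BL

/-- A compact space `K` is sick if there are a separable Banach lattice `E`, `u ≥ 0` in `E` and an
injective vector lattice homomorphism `T : C(K) → E` with `T 1 = u` whose range is the principal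
ideal generated by `u`. -/
def Sick1 (K : Type) [TopologicalSpace K] : Prop :=
  ∃ (E : BLat) (u : E) (T : C(K, ℝ) →ₗ[ℝ] E), TopologicalSpace.SeparableSpace E ∧ 0 ≤ u ∧
    Function.Injective T ∧ (∀ f, T |f| = |T f|) ∧ T 1 = u ∧
    Set.range T = {y : E | ∃ r : ℝ, 0 < r ∧ |y| ≤ r • u}

/-! ### The map onto the Stone space -/

section top

variable {K S : Type} [TopologicalSpace K] [TopologicalSpace S] [CompactSpace S]

theorem exists_pt (e : Clopens S ≃o Clopens K) (x : K) : ∃ s : S, ∀ c : Clopens S, s ∈ c ↔ x ∈ e c := by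
  have h : (⋂ c : {c : Clopens S // x ∈ e c}, (c.1 : Set S)).Nonempty := by
    have : Nonempty {c : Clopens S // x ∈ e c} := ⟨⟨⊤, by rw [e.map_top]; trivial⟩⟩
    refine IsCompact.nonempty_iInter_of_directed_nonempty_isCompact_isClosed _ ?_ ?_ ?_ ?_
    · intro a b
      refine ⟨⟨a.1 ⊓ b.1, ?_⟩, ?_, ?_⟩
      · rw [e.map_inf]; exact ⟨a.2, b.2⟩
      · exact Set.inter_subset_left
      · exact Set.inter_subset_right
    · intro c
      by_contra hc
      have h1 : c.1 = ⊥ := by
        ext t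
        constructor
        · intro ht
          exact (hc ⟨t, ht⟩).elim
        · intro ht
          exact ht.elim
      have h2 := c.2
      rw [h1, e.map_bot] at h2
      exact h2
    · intro c
      exact c.1.isClopen.isClosed.isCompact
    · intro c
      exact c.1.isClopen.isClosed
  obtain ⟨s, hs⟩ := h
  have hs' : ∀ c : Clopens S, x ∈ e c → s ∈ c := fun c hc => Set.mem_iInter.1 hs ⟨c, hc⟩
  refine ⟨s, fun c => ⟨fun h => ?_, hs' c⟩⟩
  by_contra hx
  have h1 : x ∈ e cᶜ := by
    rw [map_compl']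
    exact hx
  exact hs' _ h1 h

variable [T2Space S] [TotallyDisconnectedSpace S]

theorem pt_unique {s t : S} (h : ∀ c : Clopens S, s ∈ c → t ∈ c) : s = t := by
  by_contra hne
  obtain ⟨V, hV, hsV, hVU⟩ := compact_exists_isClopen_in_isOpen
    (isOpen_compl_singleton (x := t)) (show s ∈ ({t}ᶜ : Set S) from hne)
  exact hVU (h ⟨V, hV⟩ hsV) rfl

/-- The canonical map onto the Stone space. -/
theorem exists_pi [CompactSpace K] (e : Clopens S ≃o Clopens K) :
    ∃ π : C(K, S), Function.Surjective π ∧ ∀ (c : Clopens S) (x : K), π x ∈ c ↔ x ∈ e c := by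
  choose p hp using exists_pt e
  refine ⟨⟨p, ?_⟩, ?_, fun c x => hp x c⟩
  · rw [continuous_iff_continuousAt]
    intro x U hU
    obtain ⟨U', hU'U, hU', hxU'⟩ := mem_nhds_iff.1 hU
    obtain ⟨V, hV, hsV, hVU⟩ := compact_exists_isClopen_in_isOpen hU' hxU'
    have h1 : x ∈ e ⟨V, hV⟩ := (hp x ⟨V, hV⟩).1 hsV
    refine Filter.mem_map.2 (Filter.mem_of_superset ((e ⟨V, hV⟩).isClopen.isOpen.mem_nhds h1) ?_)
    intro y hy
    exact hU'U (hVU ((hp y ⟨V, hV⟩).2 hy))
  · intro s
    obtain ⟨x, hx⟩ := exists_pt e.symm s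
    refine ⟨x, pt_unique fun c hc => ?_⟩
    have h1 := (hp x c).1 hc
    have h2 := (hx (e c)).1 h1
    rwa [OrderIso.symm_apply_apply] at h2

/-- The characteristic function of a clopen set. -/
def chi {X : Type} [TopologicalSpace X] (c : Clopens X) : C(X, ℝ) :=
  ⟨Set.indicator (c : Set X) 1, continuous_one.indicator (fun a ha => by
    rw [c.isClopen.frontier_eq] at ha
    exact ha.elim)⟩

theorem chi_mem {X : Type} [TopologicalSpace X] {c : Clopens X} {x : X} (h : x ∈ c) :
    chi c x = 1 := Set.indicator_of_mem (s := (c : Set X)) h _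

theorem chi_notMem {X : Type} [TopologicalSpace X] {c : Clopens X} {x : X} (h : x ∉ c) :
    chi c x = 0 := Set.indicator_of_notMem (s := (c : Set X)) h _

theorem exists_between {C U : Set S} (hC : IsClosed C) (hU : IsOpen U) (h : C ⊆ U) :
    ∃ c : Clopens S, C ⊆ c ∧ (c : Set S) ⊆ U := by
  choose V hV hsV hVU using fun s : C => compact_exists_isClopen_in_isOpen hU (h s.2)
  obtain ⟨I, hI⟩ := hC.isCompact.elim_finite_subcover V (fun s => (hV s).isOpen)
    (fun s hs => Set.mem_iUnion.2 ⟨⟨s, hs⟩, hsV ⟨s, hs⟩⟩)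
  refine ⟨⟨⋃ i ∈ I, V i, I.finite_toSet.isClopen_biUnion fun i _ => hV i⟩, hI, ?_⟩
  exact Set.iUnion₂_subset fun i _ => hVU i

end top

/-! ### The main step -/

section main

variable {K S : Type} [TopologicalSpace K] [CompactSpace K] [TopologicalSpace S] [CompactSpace S]
  [T2Space S] [TotallyDisconnectedSpace S]

theorem fib (π : C(K, S)) (hπ : ∀ W : Clopens K, ∃ c : Clopens S, ∀ x, π x ∈ c ↔ x ∈ W)
    {E : BLat} {T : C(K, ℝ) →ₗ[ℝ] E} (hT : ∀ f, T |f| = |T f|) (hinj : Function.Injective T)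
    (hr : Set.range T = {y : E | ∃ r : ℝ, 0 < r ∧ |y| ≤ r • T 1}) {g : C(K, ℝ)}
    (hg : T g ∈ closure (Set.range fun f : C(S, ℝ) => T (f.comp π))) {x x' : K} (h : π x = π x') :
    g x' ≤ g x := by
  by_contra hlt
  rw [not_le] at hlt
  obtain ⟨c, η, hη, hc1, hc2⟩ : ∃ c η : ℝ, 0 < η ∧ g x = c - 2 * η ∧ g x' = c + 2 * η :=
    ⟨(g x + g x') / 2, (g x' - g x) / 4, by linarith, by ring, by ring⟩
  have h1 : ∀ n : ℕ, ∃ f : C(S, ℝ), ‖T g - T (f.comp π)‖ < (1 / 4 : ℝ) ^ n := by
    intro n
    obtain ⟨_, ⟨f, rfl⟩, hf⟩ := Metric.mem_closure_iff.1 hg ((1 / 4 : ℝ) ^ n) (by positivity)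
    exact ⟨f, by rwa [dist_eq_norm] at hf⟩
  choose f hf using h1
  obtain ⟨δ, hδ, hδη⟩ : ∃ δ : ℝ, 0 < δ ∧ 12 * δ = η := ⟨η / 12, by positivity, by ring⟩
  have hpw : ∀ n : ℕ, 0 < (1 / 2 : ℝ) ^ n := fun n => by positivity
  have hD : ∀ n : ℕ, ∃ D : Clopens S, (∀ s, s ∉ D → |f (n + 1) s - f n s| < 3 * δ * (1 / 2) ^ n) ∧
      ∀ s, s ∈ D → δ * (1 / 2) ^ n < |f (n + 1) s - f n s| := by
    intro n
    obtain ⟨D, hD1, hD2⟩ := exists_between (S := S)
      (C := {s | 3 * δ * (1 / 2) ^ n ≤ |f (n + 1) s - f n s|})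
      (U := {s | δ * (1 / 2) ^ n < |f (n + 1) s - f n s|})
      (isClosed_le continuous_const (((f (n + 1)).continuous.sub (f n).continuous).abs))
      (isOpen_lt continuous_const (((f (n + 1)).continuous.sub (f n).continuous).abs))
      (fun s hs => by
        have h1 : 3 * δ * (1 / 2) ^ n ≤ |f (n + 1) s - f n s| := hs
        have h2 := mul_pos hδ (hpw n)
        show δ * (1 / 2) ^ n < |f (n + 1) s - f n s|
        nlinarith)
    refine ⟨D, fun s hs => ?_, fun s hs => hD2 hs⟩
    by_contra hcon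
    exact hs (hD1 (not_lt.1 hcon))
  choose D hD1 hD2 using hD
  have hA : ∀ n : ℕ, ∃ A : Clopens S, (∀ s, s ∉ A → c - η / 2 < f n s) ∧
      ∀ s, s ∈ A → f n s < c + η / 2 := by
    intro n
    obtain ⟨A, hA1, hA2⟩ := exists_between (S := S)
      (C := {s | f n s ≤ c - η / 2}) (U := {s | f n s < c + η / 2})
      (isClosed_le (f n).continuous continuous_const)
      (isOpen_lt (f n).continuous continuous_const)
      (fun s hs => by
        have h1 : f n s ≤ c - η / 2 := hs
        show f n s < c + η / 2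
        linarith)
    refine ⟨A, fun s hs => ?_, fun s hs => hA2 hs⟩
    by_contra hcon
    exact hs (hA1 (not_lt.1 hcon))
  choose A hA1 hA2 using hA
  let B : ℕ → Clopens S := fun n => Nat.rec (A 0) (fun n b => (b \ D n) ⊔ (A (n + 1) ⊓ D n)) n
  have hB0 : B 0 = A 0 := rfl
  have hB1 : ∀ n, B (n + 1) = (B n \ D n) ⊔ (A (n + 1) ⊓ D n) := fun n => rfl
  have hBs : ∀ n s, s ∈ B (n + 1) ↔ (s ∈ B n ∧ s ∉ D n) ∨ (s ∈ A (n + 1) ∧ s ∈ D n) := by
    intro n s
    rw [hB1]
    exact Iff.rfl
  have hinv : ∀ n s, (s ∈ B n → f n s < c + η / 2 + 6 * δ * (1 - (1 / 2) ^ n)) ∧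
      (s ∉ B n → c - η / 2 - 6 * δ * (1 - (1 / 2) ^ n) < f n s) := by
    intro n
    induction n with
    | zero =>
      intro s
      rw [hB0]
      refine ⟨fun h => ?_, fun h => ?_⟩
      · simpa using hA2 0 s h
      · simpa using hA1 0 s h
    | succ n ih =>
      intro s
      have hnn : 6 * δ * (1 - (1 / 2 : ℝ) ^ (n + 1)) = 6 * δ * (1 - (1 / 2 : ℝ) ^ n) +
        3 * δ * (1 / 2) ^ n := by rw [pow_succ]; ring
      have hn0 : 0 ≤ 6 * δ * (1 - (1 / 2 : ℝ) ^ (n + 1)) := by
        have h1 : (1 / 2 : ℝ) ^ (n + 1) ≤ 1 := pow_le_one₀ (by norm_num) (by norm_num)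
        have h2 : 0 ≤ 1 - (1 / 2 : ℝ) ^ (n + 1) := by linarith
        positivity
      rw [hBs]
      constructor
      · rintro (⟨h1, h2⟩ | ⟨h1, h2⟩)
        · have h3 := (abs_lt.1 (hD1 n s h2)).2
          have h4 := (ih s).1 h1
          rw [hnn]
          linarith
        · have h3 := hA2 (n + 1) s h1
          linarith
      · intro h1
        push Not at h1
        by_cases h2 : s ∈ D n
        · have h3 : s ∉ A (n + 1) := fun h3 => h1.2 h3 h2
          have h4 := hA1 (n + 1) s h3
          linarith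
        · have h3 : s ∉ B n := fun h3 => h2 (h1.1 h3)
          have h4 := (abs_lt.1 (hD1 n s h2)).1
          have h5 := (ih s).2 h3
          rw [hnn]
          linarith
  have hBlt : ∀ n s, s ∈ B n → f n s < c + η := by
    intro n s hs
    have h1 := (hinv n s).1 hs
    have h2 := mul_pos hδ (hpw n)
    nlinarith
  have hBgt : ∀ n s, s ∉ B n → c - η < f n s := by
    intro n s hs
    have h1 := (hinv n s).2 hs
    have h2 := mul_pos hδ (hpw n)
    nlinarith
  -- the Cauchy sequence
  have hTD : ∀ n, ‖T ((chi (D n)).comp π)‖ ≤ (2 / δ) * (1 / 2) ^ n := by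
    intro n
    have h1 : |(chi (D n)).comp π| ≤ |(δ * (1 / 2) ^ n)⁻¹ • ((f (n + 1)).comp π - (f n).comp π)| := by
      intro t
      change |chi (D n) (π t)| ≤ |(δ * (1 / 2) ^ n)⁻¹ * (f (n + 1) (π t) - f n (π t))|
      by_cases ht : π t ∈ D n
      · rw [chi_mem ht, abs_one, abs_mul, abs_of_pos (inv_pos.2 (mul_pos hδ (hpw n))),
          inv_mul_eq_div, le_div_iff₀ (mul_pos hδ (hpw n)), one_mul]
        exact (hD2 n _ ht).le
      · rw [chi_notMem ht, abs_zero]
        exact abs_nonneg _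
    have h2 := T_norm_mono hT h1
    refine h2.trans ?_
    rw [map_smul, norm_smul, norm_inv, Real.norm_of_nonneg (mul_pos hδ (hpw n)).le, map_sub]
    have h3 : ‖T ((f (n + 1)).comp π) - T ((f n).comp π)‖ ≤ 2 * (1 / 4) ^ n := by
      have h4 := hf n
      have h5 := hf (n + 1)
      have h6 : (1 / 4 : ℝ) ^ (n + 1) ≤ (1 / 4) ^ n := by
        rw [pow_succ]
        have : 0 < (1 / 4 : ℝ) ^ n := by positivity
        linarith
      calc ‖T ((f (n + 1)).comp π) - T ((f n).comp π)‖
          = ‖(T g - T ((f n).comp π)) - (T g - T ((f (n + 1)).comp π))‖ := by congr 1; abel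
        _ ≤ ‖T g - T ((f n).comp π)‖ + ‖T g - T ((f (n + 1)).comp π)‖ := norm_sub_le _ _
        _ ≤ 2 * (1 / 4) ^ n := by linarith
    have h4 : (1 / 4 : ℝ) ^ n = (1 / 2) ^ n * (1 / 2) ^ n := by
      rw [← mul_pow]; norm_num
    calc (δ * (1 / 2) ^ n)⁻¹ * ‖T ((f (n + 1)).comp π) - T ((f n).comp π)‖
        ≤ (δ * (1 / 2) ^ n)⁻¹ * (2 * (1 / 4) ^ n) :=
          mul_le_mul_of_nonneg_left h3 (inv_pos.2 (mul_pos hδ (hpw n))).le
      _ = (2 / δ) * (1 / 2) ^ n := by
          rw [h4]
          have := (hpw n).ne'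
          field_simp
  set b : ℕ → C(K, ℝ) := fun n => (chi (B n)).comp π with hb
  have hbb : ∀ n, |b (n + 1) - b n| ≤ |(chi (D n)).comp π| := by
    intro n t
    change |chi (B (n + 1)) (π t) - chi (B n) (π t)| ≤ |chi (D n) (π t)|
    by_cases ht : π t ∈ D n
    · rw [chi_mem ht, abs_one]
      by_cases h1 : π t ∈ B (n + 1) <;> by_cases h2 : π t ∈ B n <;>
        simp [chi_mem, chi_notMem, h1, h2]
    · have h1 : π t ∈ B (n + 1) ↔ π t ∈ B n := by
        rw [hBs]
        tauto
      by_cases h2 : π t ∈ B n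
      · rw [chi_mem h2, chi_mem (h1.2 h2), sub_self, abs_zero]
        exact abs_nonneg _
      · rw [chi_notMem h2, chi_notMem (fun h3 => h2 (h1.1 h3)), sub_self, abs_zero]
        exact abs_nonneg _
  have hcau : CauchySeq fun n => T (b n) := by
    refine cauchySeq_of_le_geometric (1 / 2) (2 / δ) (by norm_num) fun n => ?_
    rw [dist_comm, dist_eq_norm, ← map_sub]
    exact (T_norm_mono hT (hbb n)).trans (hTD n)
  obtain ⟨z, hz⟩ := cauchySeq_tendsto_of_complete hcau
  have hb01 : ∀ n, 0 ≤ b n ∧ b n ≤ 1 := by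
    intro n
    refine ⟨fun t => ?_, fun t => ?_⟩
    · change 0 ≤ chi (B n) (π t)
      by_cases ht : π t ∈ B n
      · rw [chi_mem ht]; exact zero_le_one
      · rw [chi_notMem ht]
    · change chi (B n) (π t) ≤ 1
      by_cases ht : π t ∈ B n
      · rw [chi_mem ht]
      · rw [chi_notMem ht]; exact zero_le_one
  have hz0 : 0 ≤ z := ge_of_tendsto' hz fun n => T_nonneg hT (hb01 n).1
  have hz1 : z ≤ T 1 := le_of_tendsto' hz fun n => T_mono hT (hb01 n).2
  have hzr : z ∈ Set.range T := by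
    rw [hr]
    exact ⟨1, one_pos, by rw [one_smul, abs_of_nonneg hz0]; exact hz1⟩
  obtain ⟨β, rfl⟩ := hzr
  have hfl : Tendsto (fun n => T ((f n).comp π)) atTop (𝓝 (T g)) := by
    rw [tendsto_iff_norm_sub_tendsto_zero]
    refine squeeze_zero (fun n => norm_nonneg _) (fun n => ?_)
      (tendsto_pow_atTop_nhds_zero_of_lt_one (r := (1 / 4 : ℝ)) (by norm_num) (by norm_num))
    rw [norm_sub_rev]
    exact (hf n).le
  -- β is 0-1 valued
  have hβ : ∀ t, β t = 0 ∨ β t = 1 := by
    have h1 : ∀ n, T (b n) ⊓ (T 1 - T (b n)) = 0 := by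
      intro n
      rw [← map_sub, ← T_inf hT, ← map_zero T]
      congr 1
      ext t
      simp only [hb, ContinuousMap.inf_apply, ContinuousMap.sub_apply, ContinuousMap.one_apply,
        ContinuousMap.comp_apply, ContinuousMap.zero_apply]
      by_cases ht : π t ∈ B n
      · rw [chi_mem ht]; simp
      · rw [chi_notMem ht]; simp
    have h2 : Tendsto (fun n => T (b n) ⊓ (T 1 - T (b n))) atTop (𝓝 (T β ⊓ (T 1 - T β))) :=
      hz.inf_nhds (tendsto_const_nhds.sub hz)
    simp only [h1] at h2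
    have h3 : T β ⊓ (T 1 - T β) = 0 := (tendsto_nhds_unique h2 tendsto_const_nhds)
    rw [← map_sub, ← T_inf hT] at h3
    have h4 : β ⊓ (1 - β) = 0 := hinj (by rw [h3, map_zero])
    intro t
    have h5 := congrArg (fun φ : C(K, ℝ) => φ t) h4
    simp only [ContinuousMap.inf_apply, ContinuousMap.sub_apply, ContinuousMap.one_apply,
      ContinuousMap.zero_apply] at h5
    rcases le_total (β t) (1 - β t) with h6 | h6
    · rw [inf_eq_left.2 h6] at h5; exact Or.inl h5
    · rw [inf_eq_right.2 h6] at h5; right; linarith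
  have hx' : β x' = 0 := by
    have h1 : ∀ n, T (b n) ⊓ ((T ((f n).comp π) - (c + η) • T 1) ⊔ 0) = 0 := by
      intro n
      rw [← map_smul, ← map_sub, ← map_zero T, ← T_sup hT, ← T_inf hT]
      congr 1
      ext t
      simp only [hb, ContinuousMap.inf_apply, ContinuousMap.sub_apply, ContinuousMap.one_apply,
        ContinuousMap.comp_apply, ContinuousMap.zero_apply, ContinuousMap.sup_apply,
        ContinuousMap.smul_apply, smul_eq_mul, mul_one]
      by_cases ht : π t ∈ B n
      · have := hBlt n _ ht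
        rw [chi_mem ht, sup_eq_right.2 (by linarith)]; simp
      · rw [chi_notMem ht]; simp
    have h2 : Tendsto (fun n => T (b n) ⊓ ((T ((f n).comp π) - (c + η) • T 1) ⊔ 0)) atTop
        (𝓝 (T β ⊓ ((T g - (c + η) • T 1) ⊔ 0))) :=
      hz.inf_nhds ((hfl.sub tendsto_const_nhds).sup_nhds tendsto_const_nhds)
    simp only [h1] at h2
    have h3 := (tendsto_nhds_unique h2 tendsto_const_nhds)
    rw [← map_smul, ← map_sub, ← map_zero T, ← T_sup hT, ← T_inf hT] at h3
    have h4 := hinj h3
    have h5 := congrArg (fun φ : C(K, ℝ) => φ x') h4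
    simp only [ContinuousMap.inf_apply, ContinuousMap.sub_apply, ContinuousMap.one_apply,
      ContinuousMap.zero_apply, ContinuousMap.sup_apply,
        ContinuousMap.smul_apply, smul_eq_mul, mul_one] at h5
    rw [sup_eq_left.2 (by linarith)] at h5
    rcases hβ x' with h6 | h6
    · exact h6
    · exfalso
      rw [h6] at h5
      rcases le_total (1 : ℝ) (g x' - (c + η)) with h7 | h7
      · rw [inf_eq_left.2 h7] at h5; linarith
      · rw [inf_eq_right.2 h7] at h5; linarith
  have hx : β x = 1 := by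
    have h1 : ∀ n, (T 1 - T (b n)) ⊓ (((c - η) • T 1 - T ((f n).comp π)) ⊔ 0) = 0 := by
      intro n
      rw [← map_smul, ← map_sub, ← map_sub, ← map_zero T, ← T_sup hT, ← T_inf hT]
      congr 1
      ext t
      simp only [hb, ContinuousMap.inf_apply, ContinuousMap.sub_apply, ContinuousMap.one_apply,
        ContinuousMap.comp_apply, ContinuousMap.zero_apply, ContinuousMap.sup_apply,
        ContinuousMap.smul_apply, smul_eq_mul, mul_one]
      by_cases ht : π t ∈ B n
      · rw [chi_mem ht]; simp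
      · have := hBgt n _ ht
        rw [chi_notMem ht, sup_eq_right.2 (by linarith)]; simp
    have h2 : Tendsto (fun n => (T 1 - T (b n)) ⊓ (((c - η) • T 1 - T ((f n).comp π)) ⊔ 0)) atTop
        (𝓝 ((T 1 - T β) ⊓ (((c - η) • T 1 - T g) ⊔ 0))) :=
      (tendsto_const_nhds.sub hz).inf_nhds ((tendsto_const_nhds.sub hfl).sup_nhds tendsto_const_nhds)
    simp only [h1] at h2
    have h3 := (tendsto_nhds_unique h2 tendsto_const_nhds)
    rw [← map_smul, ← map_sub, ← map_sub, ← map_zero T, ← T_sup hT, ← T_inf hT] at h3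
    have h4 := hinj h3
    have h5 := congrArg (fun φ : C(K, ℝ) => φ x) h4
    simp only [ContinuousMap.inf_apply, ContinuousMap.sub_apply, ContinuousMap.one_apply,
      ContinuousMap.zero_apply, ContinuousMap.sup_apply,
        ContinuousMap.smul_apply, smul_eq_mul, mul_one] at h5
    rw [sup_eq_left.2 (by linarith)] at h5
    rcases hβ x with h6 | h6
    · exfalso
      rw [h6] at h5
      rcases le_total (1 - 0 : ℝ) (c - η - g x) with h7 | h7
      · rw [inf_eq_left.2 h7] at h5; linarith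
      · rw [inf_eq_right.2 h7] at h5; linarith
    · exact h6
  have hclopen : IsClopen {t | β t = 1} := by
    constructor
    · exact isClosed_eq β.continuous continuous_const
    · have : {t | β t = 1} = {t | 1 / 2 < β t} := by
        ext t
        simp only [Set.mem_ofPred_eq]
        rcases hβ t with h1 | h1 <;> rw [h1] <;> norm_num
      rw [this]
      exact isOpen_lt continuous_const β.continuous
  obtain ⟨c₀, hc₀⟩ := hπ ⟨_, hclopen⟩
  have h1 : π x ∈ c₀ := (hc₀ x).2 hx
  rw [h] at h1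
  have h2 : β x' = 1 := (hc₀ x').1 h1
  rw [hx'] at h2
  exact zero_ne_one h2

theorem sick_stone [T2Space K] (e : Clopens S ≃o Clopens K) (hK : Sick1 K) : Sick1 S := by
  obtain ⟨π, hsur, hπ⟩ := exists_pi e
  obtain ⟨E, u, T, hsep, hu, hinj, hT, rfl, hr⟩ := hK
  have hπ' : ∀ W : Clopens K, ∃ c : Clopens S, ∀ x, π x ∈ c ↔ x ∈ W := fun W =>
    ⟨e.symm W, fun x => by rw [hπ, OrderIso.apply_symm_apply]⟩
  let L : C(S, ℝ) →ₗ[ℝ] E :=
    { toFun := fun f => T (f.comp π)
      map_add' := fun f g => by rw [← map_add]; rfl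
      map_smul' := fun c f => by rw [RingHom.id_apply, ← map_smul]; rfl }
  have hL : ∀ f, L f = T (f.comp π) := fun f => rfl
  have hLabs : ∀ f, L |f| = |L f| := fun f => by rw [hL, hL, ← hT]; rfl
  let M : Submodule ℝ E := (LinearMap.range L).topologicalClosure
  have hMc : IsClosed (M : Set E) := Submodule.isClosed_topologicalClosure _
  have hMm : ∀ f, L f ∈ M := fun f => Submodule.le_topologicalClosure _ ⟨f, rfl⟩
  have hMabs : ∀ x ∈ M, |x| ∈ M := by
    intro x hx
    have hcabs : Continuous fun x : E => |x| := continuous_id.sup continuous_neg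
    refine map_mem_closure hcabs hx ?_
    rintro _ ⟨f, rfl⟩
    exact ⟨|f|, hLabs f⟩
  have hMcl : ∀ x ∈ M, x ∈ closure (Set.range fun f : C(S, ℝ) => T (f.comp π)) := by
    intro x hx
    exact hx
  refine ⟨YS.subLat M hMc hMabs, ⟨T 1, hMm 1⟩, LinearMap.codRestrict M L hMm, ?_, hu, ?_, ?_, ?_, ?_⟩
  · have := hsep
    have : SecondCountableTopology E := UniformSpace.secondCountable_of_separable E
    show TopologicalSpace.SeparableSpace M
    infer_instance
  · intro f g hfg
    have h1 : L f = L g := congrArg Subtype.val hfg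
    have h2 : f.comp π = g.comp π := hinj h1
    ext s
    obtain ⟨x, rfl⟩ := hsur s
    exact congrArg (fun φ : C(K, ℝ) => φ x) h2
  · intro f
    exact Subtype.ext (hLabs f)
  · rfl
  · ext y
    constructor
    · rintro ⟨f, rfl⟩
      have h1 : T (f.comp π) ∈ Set.range T := ⟨_, rfl⟩
      rw [hr] at h1
      exact h1
    · rintro ⟨r, hr0, hy⟩
      have h1 : (y.1 : E) ∈ Set.range T := by
        rw [hr]
        exact ⟨r, hr0, hy⟩
      obtain ⟨g, hg⟩ := h1
      have hgc : T g ∈ closure (Set.range fun f : C(S, ℝ) => T (f.comp π)) := by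
        rw [hg]
        exact hMcl _ y.2
      have hfac : Function.FactorsThrough g π := fun a b hab =>
        le_antisymm (fib π hπ' hT hinj hr hgc hab.symm) (fib π hπ' hT hinj hr hgc hab)
      have hq : Topology.IsQuotientMap π := π.continuous.isClosedMap.isQuotientMap π.continuous hsur
      refine ⟨hq.lift g hfac, Subtype.ext ?_⟩
      show T ((hq.lift g hfac).comp π) = y.1
      rw [hq.lift_comp, hg]

end main

end Pool.Agent.V1198.SK
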