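import Mathlib

/-!
# The projective tensor product of two Banach spaces
-/

set_option autoImplicit false
set_option linter.unusedSectionVars false
set_option linter.unusedVariables false

noncomputable section

open Filter Topology
open scoped TensorProduct Pointwise

namespace Pool.Agent.V1198.TP

section defs

variable (X Y : Type*) [NormedAddCommGroup X] [NormedSpace ℝ X]
  [NormedAddCommGroup Y] [NormedSpace ℝ Y]

/-- The algebraic tensor product. -/
def AT : Type _ := X ⊗[ℝ] Y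

instance : AddCommGroup (AT X Y) := inferInstanceAs (AddCommGroup (X ⊗[ℝ] Y))

instance : Module ℝ (AT X Y) := inferInstanceAs (Module ℝ (X ⊗[ℝ] Y))

variable {X Y}

/-- Elementary tensors. -/
def tm (x : X) (y : Y) : AT X Y := x ⊗ₜ[ℝ] y

/-- The numbers `∑ ‖x_i‖ ‖y_i‖` for the representations `t = ∑ x_i ⊗ y_i`. -/
def reps (t : AT X Y) : Set ℝ :=
  {r | ∃ (m : ℕ) (x : Fin m → X) (y : Fin m → Y),
    t = ∑ i, tm (x i) (y i) ∧ r = ∑ i, ‖x i‖ * ‖y i‖}

theorem reps_nonneg {t : AT X Y} {r : ℝ} (hr : r ∈ reps t) : 0 ≤ r := by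
  obtain ⟨m, x, y, -, rfl⟩ := hr
  exact Finset.sum_nonneg fun i _ => by positivity

theorem reps_bdd (t : AT X Y) : BddBelow (reps t) := ⟨0, fun _ hr => reps_nonneg hr⟩

theorem reps_zero : (0 : ℝ) ∈ reps (0 : AT X Y) :=
  ⟨0, Fin.elim0, Fin.elim0, by simp, by simp⟩

theorem reps_add {t t' : AT X Y} {r r' : ℝ} (hr : r ∈ reps t) (hr' : r' ∈ reps t') :
    r + r' ∈ reps (t + t') := by
  obtain ⟨m, x, y, rfl, rfl⟩ := hr
  obtain ⟨m', x', y', rfl, rfl⟩ := hr'
  refine ⟨m + m', Fin.append x x', Fin.append y y', ?_, ?_⟩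
  · rw [Fin.sum_univ_add]
    simp only [Fin.append_left, Fin.append_right]
  · rw [Fin.sum_univ_add]
    simp only [Fin.append_left, Fin.append_right]

theorem smul_tm (a : ℝ) (x : X) (y : Y) : a • tm x y = tm (a • x) y :=
  TensorProduct.smul_tmul' (R := ℝ) a x y

theorem reps_smul {t : AT X Y} {r : ℝ} (a : ℝ) (hr : r ∈ reps t) :
    |a| * r ∈ reps (a • t) := by
  obtain ⟨m, x, y, rfl, rfl⟩ := hr
  refine ⟨m, fun i => a • x i, y, ?_, ?_⟩
  · rw [Finset.smul_sum]
    exact Finset.sum_congr rfl fun i _ => smul_tm _ _ _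
  · rw [Finset.mul_sum]
    exact Finset.sum_congr rfl fun i _ => by rw [norm_smul, Real.norm_eq_abs, mul_assoc]

theorem reps_tm (x : X) (y : Y) : ‖x‖ * ‖y‖ ∈ reps (tm x y) :=
  ⟨1, fun _ => x, fun _ => y, by simp, by simp⟩

theorem reps_nonempty (u : AT X Y) : (reps u).Nonempty := by
  refine TensorProduct.induction_on (motive := fun u : X ⊗[ℝ] Y => (reps (show AT X Y from u)).Nonempty)
    u ?_ ?_ ?_
  · exact ⟨0, reps_zero⟩
  · intro x y
    exact ⟨_, reps_tm x y⟩
  · rintro a b ⟨r, hr⟩ ⟨r', hr'⟩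
    exact ⟨_, reps_add hr hr'⟩

/-- The projective norm. -/
def ps (u : AT X Y) : ℝ := sInf (reps u)

theorem ps_le {u : AT X Y} {r : ℝ} (hr : r ∈ reps u) : ps u ≤ r := csInf_le (reps_bdd _) hr

theorem ps_nonneg (u : AT X Y) : 0 ≤ ps u := Real.sInf_nonneg fun _ hr => reps_nonneg hr

theorem le_mul_ps {u : AT X Y} {a C : ℝ} (hC : 0 ≤ C)
    (h : ∀ r ∈ reps u, a ≤ C * r) : a ≤ C * ps u := by
  have h1 : C * ps u = sInf (C • reps u) := (Real.sInf_smul_of_nonneg hC _).symm
  rw [h1]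
  refine le_csInf ((reps_nonempty u).smul_set) ?_
  rintro _ ⟨r, hr, rfl⟩
  exact h r hr

theorem ps_smul_le (a : ℝ) (u : AT X Y) : ps (a • u) ≤ |a| * ps u :=
  le_mul_ps (abs_nonneg a) fun r hr => ps_le (reps_smul a hr)

theorem ps_add_le (u v : AT X Y) : ps (u + v) ≤ ps u + ps v := by
  have h1 : ∀ r ∈ reps u, ps (u + v) - r ≤ 1 * ps v := fun r hr =>
    le_mul_ps zero_le_one fun r' hr' => by
      have := ps_le (u := u + v) (r := r + r') (reps_add hr hr')
      linarith
  have h2 : ps (u + v) - ps v ≤ 1 * ps u := le_mul_ps zero_le_one fun r hr => by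
    have := h1 r hr
    linarith
  linarith

/-- The seminorm. -/
def psn (X Y : Type*) [NormedAddCommGroup X] [NormedSpace ℝ X]
    [NormedAddCommGroup Y] [NormedSpace ℝ Y] : AddGroupSeminorm (AT X Y) where
  toFun := ps
  map_zero' := le_antisymm (ps_le reps_zero) (ps_nonneg _)
  add_le' := ps_add_le
  neg' u := by
    have h : ∀ u : AT X Y, ps (-u) ≤ ps u := fun u => by
      have := ps_smul_le (-1) u
      rwa [neg_one_smul, abs_neg, abs_one, one_mul] at this
    refine le_antisymm (h u) ?_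
    have := h (-u)
    rwa [neg_neg] at this

instance : SeminormedAddCommGroup (AT X Y) := (psn X Y).toSeminormedAddCommGroup

theorem norm_def (u : AT X Y) : ‖u‖ = ps u := rfl

instance : NormedSpace ℝ (AT X Y) where
  norm_smul_le a u := ps_smul_le a u

/-- The completed projective tensor product. -/
abbrev Pr (X Y : Type*) [NormedAddCommGroup X] [NormedSpace ℝ X]
    [NormedAddCommGroup Y] [NormedSpace ℝ Y] : Type _ :=
  UniformSpace.Completion (AT X Y)

/-- The elementary tensors in the completion. -/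
def el (x : X) (y : Y) : Pr X Y := ((tm x y : AT X Y) : Pr X Y)

theorem norm_el_le (x : X) (y : Y) : ‖(el x y : Pr X Y)‖ ≤ ‖x‖ * ‖y‖ := by
  rw [el, UniformSpace.Completion.norm_coe, norm_def]
  exact ps_le (reps_tm x y)

/-- The inclusion. -/
def inc : AT X Y →ₗ[ℝ] Pr X Y :=
  (UniformSpace.Completion.toComplₗᵢ (𝕜 := ℝ) (E := AT X Y)).toLinearMap

theorem inc_tm (x : X) (y : Y) : inc (tm x y) = el x y := rfl

theorem inc_norm (u : AT X Y) : ‖(inc u : Pr X Y)‖ = ps u := UniformSpace.Completion.norm_coe u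

theorem el_add_left (x x' : X) (y : Y) : (el (x + x') y : Pr X Y) = el x y + el x' y := by
  have h : (tm (x + x') y : AT X Y) = tm x y + tm x' y := TensorProduct.add_tmul x x' y
  rw [← inc_tm, h, map_add]
  rfl

theorem el_add_right (x : X) (y y' : Y) : (el x (y + y') : Pr X Y) = el x y + el x y' := by
  have h : (tm x (y + y') : AT X Y) = tm x y + tm x y' := TensorProduct.tmul_add x y y'
  rw [← inc_tm, h, map_add]
  rfl

theorem el_smul_left (c : ℝ) (x : X) (y : Y) : (el (c • x) y : Pr X Y) = c • el x y := by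
  have h : (tm (c • x) y : AT X Y) = c • tm x y := (smul_tm c x y).symm
  rw [← inc_tm, h, map_smul]
  rfl

theorem el_smul_right (c : ℝ) (x : X) (y : Y) : (el x (c • y) : Pr X Y) = c • el x y := by
  have h : (tm x (c • y) : AT X Y) = c • tm x y := TensorProduct.tmul_smul c x y
  rw [← inc_tm, h, map_smul]
  rfl

/-- Norms of functionals. -/
theorem norm_le_of {F : Pr X Y →L[ℝ] ℝ} {C : ℝ} (hC : 0 ≤ C)
    (h : ∀ x y, |F (el x y)| ≤ C * (‖x‖ * ‖y‖)) : ‖F‖ ≤ C := by
  refine ContinuousLinearMap.opNorm_le_bound _ hC fun z => ?_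
  induction z using UniformSpace.Completion.induction_on with
  | hp => exact isClosed_le F.continuous.norm (continuous_const.mul continuous_norm)
  | ih u =>
    rw [UniformSpace.Completion.norm_coe, norm_def]
    refine le_mul_ps hC ?_
    rintro _ ⟨m, x, y, hu, rfl⟩
    have h1 : (u : Pr X Y) = ∑ i, el (x i) (y i) := by
      have h2 := congrArg (inc (X := X) (Y := Y)) hu
      rw [map_sum] at h2
      exact h2
    rw [h1, map_sum, Finset.mul_sum]
    exact (norm_sum_le _ _).trans (Finset.sum_le_sum fun i _ => h (x i) (y i))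

/-- Existence of functionals. -/
theorem exists_functional (B : X →ₗ[ℝ] Y →ₗ[ℝ] ℝ) {C : ℝ} (hC : 0 ≤ C)
    (h : ∀ x y, |B x y| ≤ C * (‖x‖ * ‖y‖)) :
    ∃ F : Pr X Y →L[ℝ] ℝ, (∀ x y, F (el x y) = B x y) ∧ ‖F‖ ≤ C := by
  set L : AT X Y →ₗ[ℝ] ℝ := (TensorProduct.lift B : X ⊗[ℝ] Y →ₗ[ℝ] ℝ) with hL
  have hLx : ∀ x y, L (tm x y) = B x y := fun x y => TensorProduct.lift.tmul x y
  have hbound : ∀ u, ‖L u‖ ≤ C * ‖(inc u : Pr X Y)‖ := by
    intro u
    rw [inc_norm]
    refine le_mul_ps hC ?_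
    rintro _ ⟨m, x, y, hu, rfl⟩
    rw [hu, map_sum, Finset.mul_sum]
    refine (norm_sum_le _ _).trans (Finset.sum_le_sum fun i _ => ?_)
    rw [hLx]
    exact h (x i) (y i)
  have hF : ∀ x y, L.extendOfNorm (inc (X := X) (Y := Y)) (el x y) = B x y := fun x y => by
    have h1 := LinearMap.extendOfNorm_eq (f := L) (e := (inc (X := X) (Y := Y)))
      UniformSpace.Completion.denseRange_coe ⟨C, hbound⟩ (tm x y)
    rw [hLx] at h1
    exact h1
  exact ⟨L.extendOfNorm inc, hF, norm_le_of hC fun x y => by rw [hF]; exact h x y⟩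

/-- Finite sums of elementary tensors are dense. -/
theorem exists_near (z : Pr X Y) {ε : ℝ} (hε : 0 < ε) : ∃ (m : ℕ) (x : Fin m → X)
    (y : Fin m → Y), ‖z - ∑ i, el (x i) (y i)‖ < ε := by
  obtain ⟨u, hu⟩ := Metric.denseRange_iff.1 (UniformSpace.Completion.denseRange_coe
    (α := AT X Y)) z ε hε
  obtain ⟨_, m, x, y, h1, -⟩ := reps_nonempty u
  refine ⟨m, x, y, ?_⟩
  have h2 := congrArg (inc (X := X) (Y := Y)) h1
  rw [map_sum] at h2
  have h3 : (u : Pr X Y) = ∑ i, el (x i) (y i) := h2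
  rw [← h3, ← dist_eq_norm]
  exact hu

end defs

end Pool.Agent.V1198.TP
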