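import Mathlib

/-!
# Goldstine's theorem and approximate local reflexivity
-/

set_option autoImplicit false
set_option linter.unusedSectionVars false
set_option linter.unusedVariables false

noncomputable section

open Filter Topology

namespace Pool.Agent.V1198.TP

/-- Separation in finite dimensions. -/
theorem fin_sep {V : Type*} [AddCommGroup V] [Module ℝ V] {ι : Type*} [Fintype ι]
    {C : Set V} (hC : Convex ℝ C) (hne : C.Nonempty) (Λ : V →ₗ[ℝ] (ι → ℝ)) (lam : ι → ℝ)
    (h : ∀ (b : ι → ℝ) (s : ℝ), (∀ v ∈ C, ∑ i, b i * Λ v i ≤ s) → ∑ i, b i * lam i ≤ s)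
    {ε : ℝ} (hε : 0 < ε) : ∃ v ∈ C, ∀ i, |Λ v i - lam i| < ε := by
  classical
  have hmem : lam ∈ closure (Λ '' C) := by
    by_contra hcon
    obtain ⟨f, u, hu1, hu2⟩ := geometric_hahn_banach_closed_point
      ((hC.linear_image Λ).closure) isClosed_closure hcon
    have hf : ∀ w : ι → ℝ, f w = ∑ i, f (Pi.single i 1) * w i := by
      intro w
      have h1 : w = ∑ i, w i • (Pi.single i 1 : ι → ℝ) := by
        funext j
        rw [Finset.sum_apply]
        simp [Pi.single_apply]
      conv_lhs => rw [h1]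
      rw [map_sum]
      refine Finset.sum_congr rfl fun i _ => ?_
      rw [map_smul, smul_eq_mul, mul_comm]
    have h1 := h (fun i => f (Pi.single i 1)) u (fun v hv => by
      rw [← hf]
      exact (hu1 _ (subset_closure ⟨v, hv, rfl⟩)).le)
    rw [← hf] at h1
    linarith
  obtain ⟨_, ⟨v, hv, rfl⟩, hd⟩ := Metric.mem_closure_iff.1 hmem ε hε
  refine ⟨v, hv, fun i => ?_⟩
  have h1 := (dist_pi_lt_iff hε).1 hd i
  rwa [Real.dist_eq, abs_sub_comm] at h1

/-- Goldstine's theorem for finitely many functionals. -/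
theorem goldstine {X : Type*} [NormedAddCommGroup X] [NormedSpace ℝ X]
    (u : StrongDual ℝ (StrongDual ℝ X)) (hu : ‖u‖ ≤ 1) {ι : Type*} [Fintype ι]
    (φ : ι → StrongDual ℝ X) {ε : ℝ} (hε : 0 < ε) :
    ∃ x : X, ‖x‖ ≤ 1 ∧ ∀ i, |φ i x - u (φ i)| < ε := by
  obtain ⟨x, hx, h⟩ := fin_sep (V := X) (C := Metric.closedBall 0 1) (convex_closedBall _ _)
    ⟨0, by simp⟩ (LinearMap.pi fun i => (φ i : X →ₗ[ℝ] ℝ)) (fun i => u (φ i)) (by
      intro b s hs
      have h0 : 0 ≤ s := by
        have := hs 0 (by simp)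
        simpa using this
      have h1 : ‖∑ i, b i • φ i‖ ≤ s := by
        refine ContinuousLinearMap.opNorm_le_of_unit_norm h0 fun x hx => ?_
        have e1 : ∀ y, (∑ i, b i • φ i) y = ∑ i, b i * φ i y := fun y => by
          rw [sum_apply]
          rfl
        rw [e1, Real.norm_eq_abs, abs_le]
        have h2 := hs x (by rw [mem_closedBall_zero_iff, hx])
        have h3 := hs (-x) (by rw [mem_closedBall_zero_iff, norm_neg, hx])
        have h4 : ∑ i, b i * (LinearMap.pi fun i => (φ i : X →ₗ[ℝ] ℝ)) (-x) i =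
            -∑ i, b i * φ i x := by
          rw [← Finset.sum_neg_distrib]
          refine Finset.sum_congr rfl fun i _ => ?_
          change b i * φ i (-x) = _
          rw [map_neg]; ring
        rw [h4] at h3
        have h5 : ∑ i, b i * (LinearMap.pi fun i => (φ i : X →ₗ[ℝ] ℝ)) x i =
            ∑ i, b i * φ i x := rfl
        rw [h5] at h2
        constructor <;> linarith
      have h2 : ∑ i, b i * u (φ i) = u (∑ i, b i • φ i) := by
        rw [map_sum]
        exact Finset.sum_congr rfl fun i _ => by rw [map_smul, smul_eq_mul]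
      rw [h2]
      calc u (∑ i, b i • φ i) ≤ ‖u (∑ i, b i • φ i)‖ := le_abs_self _
        _ ≤ ‖u‖ * ‖∑ i, b i • φ i‖ := u.le_opNorm _
        _ ≤ 1 * s := mul_le_mul hu h1 (norm_nonneg _) zero_le_one
        _ = s := one_mul s) hε
  exact ⟨x, mem_closedBall_zero_iff.1 hx, h⟩

section plr

variable {V : Type*} [NormedAddCommGroup V] [NormedSpace ℝ V]
  (E : Type*) [NormedAddCommGroup E] [NormedSpace ℝ E] [FiniteDimensional ℝ E]

/-- Finite nets in the unit ball. -/
theorem exists_net {δ : ℝ} (hδ : 0 < δ) : ∃ N : Finset E, (∀ a ∈ N, ‖a‖ ≤ 1) ∧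
    ∀ e : E, ‖e‖ ≤ 1 → ∃ a ∈ N, ‖e - a‖ ≤ δ := by
  classical
  have : ProperSpace E := FiniteDimensional.proper ℝ E
  have hc : IsCompact (Metric.closedBall (0 : E) 1) := isCompact_closedBall _ _
  obtain ⟨t, ht1, ht2, ht3⟩ := hc.finite_cover_balls hδ
  refine ⟨ht2.toFinset, fun a ha => ?_, fun e he => ?_⟩
  · exact mem_closedBall_zero_iff.1 (ht1 (ht2.mem_toFinset.1 ha))
  · obtain ⟨a, ha, hea⟩ := Set.mem_iUnion₂.1 (ht3 (mem_closedBall_zero_iff.2 he))
    refine ⟨a, ht2.mem_toFinset.2 ha, ?_⟩
    rw [← dist_eq_norm]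
    exact hea.le

variable {E}

/-- Operators bounded on a net. -/
theorem bound_of_net {N : Finset E} {δ : ℝ} (hδ : δ < 1)
    (hN : ∀ e : E, ‖e‖ ≤ 1 → ∃ a ∈ N, ‖e - a‖ ≤ δ) (R : E →ₗ[ℝ] V) {q : ℝ} (hq : 0 ≤ q)
    (hR : ∀ a ∈ N, ‖R a‖ ≤ q) (e : E) : ‖R e‖ ≤ q / (1 - δ) * ‖e‖ := by
  set T : E →L[ℝ] V := LinearMap.toContinuousLinearMap R with hT
  have h1 : ‖T‖ ≤ q + δ * ‖T‖ := by
    have hδ0 : 0 ≤ δ := by
      obtain ⟨a, -, ha⟩ := hN 0 (by rw [norm_zero]; exact zero_le_one)
      exact (norm_nonneg _).trans ha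
    refine ContinuousLinearMap.opNorm_le_of_unit_norm (by positivity) fun e he => ?_
    obtain ⟨a, ha, hea⟩ := hN e he.le
    have h2 : T e = R a + T (e - a) := by
      rw [map_sub]
      change R e = R a + (R e - R a)
      abel
    rw [h2]
    refine (norm_add_le _ _).trans (add_le_add (hR a ha) ?_)
    refine (T.le_opNorm _).trans ?_
    rw [mul_comm]
    exact mul_le_mul_of_nonneg_right hea (norm_nonneg _)
  have h3 : ‖T‖ ≤ q / (1 - δ) := by
    rw [le_div_iff₀ (by linarith)]
    linarith
  exact (T.le_opNorm e).trans (mul_le_mul_of_nonneg_right h3 (norm_nonneg _))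

/-- Approximate local reflexivity. -/
theorem local_refl (pr : E →ₗ[ℝ] StrongDual ℝ V →ₗ[ℝ] ℝ) (hpr : ∀ e f, |pr e f| ≤ ‖e‖ * ‖f‖)
    {κ : Type*} [Fintype κ] (ee : κ → E) (ff : κ → StrongDual ℝ V)
    {ε : ℝ} (hε : 0 < ε) (hε1 : ε ≤ 1) : ∃ R : E →ₗ[ℝ] V, (∀ e, ‖R e‖ ≤ (1 + ε) * ‖e‖) ∧
      ∀ k, |ff k (R (ee k)) - pr (ee k) (ff k)| < ε := by
  classical
  set δ : ℝ := ε / 2 with hδdef
  have hδ0 : 0 < δ := half_pos hε
  have hδ1 : δ < 1 := by rw [hδdef]; linarith
  obtain ⟨N, hN1, hN2⟩ := exists_net E hδ0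
  set C : Set (E →ₗ[ℝ] V) := {R | ∀ a ∈ N, ‖R a‖ ≤ 1} with hC
  have hCconv : Convex ℝ C := by
    intro R hR S hS a b ha hb hab c hc
    change ‖a • R c + b • S c‖ ≤ 1
    refine (norm_add_le _ _).trans ?_
    rw [norm_smul, norm_smul, Real.norm_of_nonneg ha, Real.norm_of_nonneg hb]
    have h1 := mul_le_mul_of_nonneg_left (hR c hc) ha
    have h2 := mul_le_mul_of_nonneg_left (hS c hc) hb
    linarith
  set Λ : (E →ₗ[ℝ] V) →ₗ[ℝ] (κ → ℝ) := LinearMap.pi fun k =>
    (ff k : V →ₗ[ℝ] ℝ).comp (LinearMap.applyₗ (ee k)) with hΛ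
  have hΛa : ∀ R k, Λ R k = ff k (R (ee k)) := fun R k => rfl
  obtain ⟨R, hR, hR2⟩ := fin_sep hCconv ⟨0, fun a _ => by
      change ‖(0 : V)‖ ≤ 1
      rw [norm_zero]; exact zero_le_one⟩ Λ
    (fun k => pr (ee k) (ff k)) (by
      intro b s hs
      have hs0 : 0 ≤ s := by
        have := hs 0 (fun a _ => by
          change ‖(0 : V)‖ ≤ 1
          rw [norm_zero]; exact zero_le_one)
        rw [map_zero] at this
        simpa using this
      -- the functional on operators
      set ℓ : (E →ₗ[ℝ] V) →ₗ[ℝ] ℝ := ∑ k, b k • (LinearMap.proj k).comp Λ with hℓ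
      have hℓa : ∀ R, ℓ R = ∑ k, b k * ff k (R (ee k)) := by
        intro R
        rw [hℓ, LinearMap.sum_apply]
        rfl
      -- the embedding into the finite product
      set J : (E →ₗ[ℝ] V) →ₗ[ℝ] (N → V) := LinearMap.pi fun a => LinearMap.applyₗ (a : E) with hJ
      have hJa : ∀ R a, J R a = R (a : E) := fun R a => rfl
      have hJinj : Function.Injective J := by
        rw [← LinearMap.ker_eq_bot, LinearMap.ker_eq_bot']
        intro R hR
        have h1 := bound_of_net hδ1 hN2 R le_rfl (fun a ha => by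
          have := congrFun hR ⟨a, ha⟩
          rw [hJa] at this
          change ‖R a‖ ≤ 0
          rw [this]
          change ‖(0 : V)‖ ≤ 0
          rw [norm_zero])
        ext e
        have h2 := h1 e
        rw [zero_div, zero_mul] at h2
        exact norm_le_zero_iff.1 h2
      have hℓb : ∀ R, |ℓ R| ≤ s * ‖J R‖ := by
        have key : ∀ R, ℓ R ≤ s * ‖J R‖ := by
          intro R
          rcases (norm_nonneg (J R)).eq_or_lt with h0 | h0
          · have h1 : R = 0 := hJinj (by rw [map_zero]; exact norm_eq_zero.1 h0.symm)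
            rw [h1, map_zero, map_zero, norm_zero, mul_zero]
          · have h1 := hs (‖J R‖⁻¹ • R) (fun a ha => by
              change ‖‖J R‖⁻¹ • R a‖ ≤ 1
              rw [norm_smul, norm_inv, norm_norm, inv_mul_le_iff₀ h0, mul_one]
              exact norm_le_pi_norm (J R) ⟨a, ha⟩)
            have h2 : ∑ i, b i * Λ (‖J R‖⁻¹ • R) i = ‖J R‖⁻¹ * ℓ R := by
              rw [hℓa, Finset.mul_sum]
              refine Finset.sum_congr rfl fun k _ => ?_
              rw [hΛa]
              change b k * ff k (‖J R‖⁻¹ • R (ee k)) = _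
              rw [map_smul, smul_eq_mul]
              ring
            rw [h2, inv_mul_le_iff₀ h0, mul_comm] at h1
            exact h1
        intro R
        rw [abs_le]
        refine ⟨?_, key R⟩
        have h1 := key (-R)
        rw [map_neg, map_neg, norm_neg] at h1
        linarith
      -- extend
      set W : Submodule ℝ (N → V) := LinearMap.range J with hW
      set Je : (E →ₗ[ℝ] V) ≃ₗ[ℝ] W := LinearEquiv.ofInjective J hJinj with hJe
      have hJe' : ∀ w : W, J (Je.symm w) = (w : N → V) := fun w => by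
        have := Je.apply_symm_apply w
        have h2 := congrArg Subtype.val this
        exact h2
      set g : StrongDual ℝ W := LinearMap.mkContinuous (ℓ.comp Je.symm.toLinearMap) s
        (fun w => by
          have h1 := hℓb (Je.symm w)
          rw [hJe'] at h1
          exact h1) with hg
      obtain ⟨Ψ, hΨ1, hΨ2⟩ := _root_.exists_extension_norm_eq W g
      have hΨn : ‖Ψ‖ ≤ s := by
        rw [hΨ2]
        exact LinearMap.mkContinuous_norm_le _ hs0 _
      have hΨJ : ∀ R, Ψ (J R) = ℓ R := by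
        intro R
        have h1 := hΨ1 ⟨J R, ⟨R, rfl⟩⟩
        have h2 : g ⟨J R, ⟨R, rfl⟩⟩ = ℓ R := by
          change ℓ (Je.symm ⟨J R, ⟨R, rfl⟩⟩) = ℓ R
          congr 1
          rw [LinearEquiv.symm_apply_eq]
          rfl
        rw [← h2, ← h1]
      -- the components
      set Ψc : N → StrongDual ℝ V := fun a => Ψ.comp (ContinuousLinearMap.single ℝ (fun _ : N => V) a)
        with hΨc
      have hΨs : ∀ w : N → V, Ψ w = ∑ a, Ψc a (w a) := by
        intro w
        have h1 : w = ∑ a, Pi.single a (w a) := (Finset.univ_sum_single w).symm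
        conv_lhs => rw [h1]
        rw [map_sum]
        rfl
      have hcomp : ∀ (ρ : E →ₗ[ℝ] ℝ), ∑ k, (b k * ρ (ee k)) • ff k = ∑ a : N, ρ (a : E) • Ψc a := by
        intro ρ
        ext v
        have h1 := hΨJ (ρ.smulRight v)
        rw [hΨs, hℓa] at h1
        rw [sum_apply, sum_apply]
        have e1 : ∀ k, ff k (ρ.smulRight v (ee k)) = ρ (ee k) * ff k v := fun k => by
          change ff k (ρ (ee k) • v) = _
          rw [map_smul, smul_eq_mul]
        have e2 : ∀ a : N, Ψc a (J (ρ.smulRight v) a) = ρ (a : E) * Ψc a v := fun a => by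
          change Ψc a (ρ (a : E) • v) = _
          rw [map_smul, smul_eq_mul]
        simp only [e1, e2] at h1
        change ∑ k, (b k * ρ (ee k)) * ff k v = ∑ a : N, ρ (a : E) * Ψc a v
        rw [h1]
        exact Finset.sum_congr rfl fun k _ => by ring
      -- evaluate with a basis
      set β := Module.finBasis ℝ E with hβ
      have hfin : ∑ k, b k * pr (ee k) (ff k) = ∑ a : N, pr (a : E) (Ψc a) := by
        have h1 : ∀ j, ∑ k, (b k * β.repr (ee k) j) * pr (β j) (ff k) =
            ∑ a : N, β.repr (a : E) j * pr (β j) (Ψc a) := by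
          intro j
          have h2 := congrArg (pr (β j)) (hcomp (β.coord j))
          rw [map_sum, map_sum] at h2
          simp only [map_smul, smul_eq_mul] at h2
          exact h2
        have h3 : ∀ (e : E) (f : StrongDual ℝ V), pr e f =
            ∑ j, β.repr e j * pr (β j) f := by
          intro e f
          conv_lhs => rw [← β.sum_repr e]
          rw [map_sum, LinearMap.sum_apply]
          refine Finset.sum_congr rfl fun j _ => ?_
          rw [map_smul]
          rfl
        calc ∑ k, b k * pr (ee k) (ff k)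
            = ∑ k, ∑ j, (b k * β.repr (ee k) j) * pr (β j) (ff k) := by
              refine Finset.sum_congr rfl fun k _ => ?_
              rw [h3, Finset.mul_sum]
              exact Finset.sum_congr rfl fun j _ => by ring
          _ = ∑ j, ∑ a : N, β.repr (a : E) j * pr (β j) (Ψc a) := by
              rw [Finset.sum_comm]
              exact Finset.sum_congr rfl fun j _ => h1 j
          _ = _ := by
              rw [Finset.sum_comm]
              exact Finset.sum_congr rfl fun a _ => (h3 _ _).symm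
      rw [hfin]
      -- the sum of the norms of the components
      refine le_of_forall_pos_le_add fun η hη => ?_
      set η' : ℝ := η / (N.card + 1) with hη'
      have hη'0 : 0 < η' := by positivity
      have hex : ∀ a : N, ∃ w : V, ‖w‖ ≤ 1 ∧ ‖Ψc a‖ - η' < Ψc a w := by
        intro a
        obtain ⟨w, hw1, hw2⟩ := (Ψc a).exists_lt_apply_of_lt_opNorm
          (show ‖Ψc a‖ - η' < ‖Ψc a‖ by linarith)
        rcases le_total 0 (Ψc a w) with h1 | h1
        · exact ⟨w, hw1.le, by rwa [Real.norm_of_nonneg h1] at hw2⟩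
        · refine ⟨-w, by rw [norm_neg]; exact hw1.le, ?_⟩
          rw [map_neg]
          rwa [Real.norm_of_nonpos h1] at hw2
      choose w hw1 hw2 using hex
      have h1 : ∀ a : N, pr (a : E) (Ψc a) ≤ Ψc a (w a) + η' := by
        intro a
        have h2 : pr (a : E) (Ψc a) ≤ ‖Ψc a‖ := by
          refine (le_abs_self _).trans ((hpr _ _).trans ?_)
          exact mul_le_of_le_one_left (norm_nonneg _) (hN1 a a.2)
        have := hw2 a
        linarith
      calc ∑ a : N, pr (a : E) (Ψc a)
          ≤ ∑ a : N, (Ψc a (w a) + η') := Finset.sum_le_sum fun a _ => h1 a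
        _ = Ψ w + N.card * η' := by
            rw [Finset.sum_add_distrib, ← hΨs, Finset.sum_const, Finset.card_univ,
              Fintype.card_coe, nsmul_eq_mul]
        _ ≤ s + η := by
            have h2 : Ψ w ≤ s := by
              refine (le_abs_self _).trans ((Ψ.le_opNorm w).trans ?_)
              have h3 : ‖w‖ ≤ 1 := (pi_norm_le_iff_of_nonneg zero_le_one).2 hw1
              calc ‖Ψ‖ * ‖w‖ ≤ s * 1 := mul_le_mul hΨn h3 (norm_nonneg _) hs0
                _ = s := mul_one s
            have h4 : (N.card : ℝ) * η' ≤ η := by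
              rw [hη', mul_div_assoc', div_le_iff₀ (by positivity)]
              nlinarith
            linarith) hε
  refine ⟨R, fun e => ?_, hR2⟩
  refine (bound_of_net hδ1 hN2 R zero_le_one hR e).trans ?_
  refine mul_le_mul_of_nonneg_right ?_ (norm_nonneg _)
  rw [div_le_iff₀ (by linarith), hδdef]
  nlinarith

end plr

end Pool.Agent.V1198.TP
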