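import Mathlib

/-!
# Daugavet property and L-embedded spaces
-/

set_option autoImplicit false
set_option linter.unusedSectionVars false
set_option linter.unusedVariables false

noncomputable section

open Filter Topology

namespace Pool.Agent.V1198.TP

section defs

variable (X : Type*) [NormedAddCommGroup X] [NormedSpace ℝ X]

/-- The Daugavet property: `‖I + T‖ = 1 + ‖T‖` for every rank-one operator `T = φ(·) x`. -/
def Daugavet : Prop := ∀ (φ : StrongDual ℝ X) (x : X), φ ≠ 0 → x ≠ 0 →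
  ‖ContinuousLinearMap.id ℝ X + φ.smulRight x‖ = 1 + ‖φ.smulRight x‖

/-- `L`-embedded spaces: `X** = X ⊕_1 Z`. -/
def LEmbedded : Prop := ∃ Z : Submodule ℝ (StrongDual ℝ (StrongDual ℝ X)),
  IsClosed (Z : Set (StrongDual ℝ (StrongDual ℝ X))) ∧
  (∀ u : StrongDual ℝ (StrongDual ℝ X), ∃ x : X, ∃ z ∈ Z,
    u = NormedSpace.inclusionInDoubleDual ℝ X x + z) ∧
  ∀ (x : X), ∀ z ∈ Z, ‖NormedSpace.inclusionInDoubleDual ℝ X x + z‖ = ‖x‖ + ‖z‖

end defs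

section slices

variable {X : Type*} [NormedAddCommGroup X] [NormedSpace ℝ X]

theorem gsmul (c : ℝ) (g : StrongDual ℝ X) : ‖c • g‖ = |c| * ‖g‖ := by
  rw [norm_smul, Real.norm_eq_abs]

theorem gzero : ‖(0 : StrongDual ℝ X)‖ = 0 := norm_zero

theorem geq0 {g : StrongDual ℝ X} (h : ‖g‖ = 0) : g = 0 := norm_eq_zero.1 h

/-- Slices of the closed unit ball. -/
def Sl (φ : StrongDual ℝ X) (δ : ℝ) : Set X := {x | ‖x‖ ≤ 1 ∧ 1 - δ < φ x}

theorem Sl_convex (φ : StrongDual ℝ X) (δ : ℝ) : Convex ℝ (Sl φ δ) := by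
  have h1 : Sl φ δ = Metric.closedBall 0 1 ∩ {x | 1 - δ < (φ : X →ₗ[ℝ] ℝ) x} := by
    ext x
    rw [Set.mem_inter_iff, mem_closedBall_zero_iff]
    rfl
  rw [h1]
  exact (convex_closedBall _ _).inter (convex_halfSpace_gt (φ : X →ₗ[ℝ] ℝ).isLinear _)

theorem Sl_nonempty {φ : StrongDual ℝ X} (hφ : ‖φ‖ = 1) {δ : ℝ} (hδ : 0 < δ) :
    (Sl φ δ).Nonempty := by
  obtain ⟨w, hw1, hw2⟩ := φ.exists_lt_apply_of_lt_opNorm (show 1 - δ < ‖φ‖ by linarith)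
  rcases le_total 0 (φ w) with h1 | h1
  · exact ⟨w, hw1.le, by rwa [Real.norm_of_nonneg h1] at hw2⟩
  · refine ⟨-w, by rw [norm_neg]; exact hw1.le, ?_⟩
    rw [map_neg]
    rwa [Real.norm_of_nonpos h1] at hw2

theorem slice_one (hD : Daugavet X) {φ : StrongDual ℝ X} (hφ : ‖φ‖ = 1) {v : X} (hv : ‖v‖ = 1)
    {δ ε : ℝ} (hδ : 0 < δ) (hε : 0 < ε) : ∃ (ψ : StrongDual ℝ X) (δ' : ℝ), ‖ψ‖ = 1 ∧ 0 < δ' ∧
      Sl ψ δ' ⊆ Sl φ δ ∧ ∀ x ∈ Sl ψ δ', 2 - ε < ‖v + x‖ := by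
  have hφ0 : φ ≠ 0 := fun h => by rw [h, norm_zero] at hφ; exact zero_ne_one hφ
  have hv0 : v ≠ 0 := fun h => by rw [h, norm_zero] at hv; exact zero_ne_one hv
  have hn := hD φ v hφ0 hv0
  rw [ContinuousLinearMap.norm_smulRight_apply, hφ, hv, one_mul] at hn
  set η : ℝ := min (min δ ε) 1 / 5 with hη
  have hη0 : 0 < η := by positivity
  have hη1 : 5 * η ≤ δ := by
    rw [hη]; have := min_le_left (min δ ε) 1; have := min_le_left δ ε; linarith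
  have hη2 : 5 * η ≤ ε := by
    rw [hη]; have := min_le_left (min δ ε) 1; have := min_le_right δ ε; linarith
  have hη3 : 5 * η ≤ 1 := by
    rw [hη]; have := min_le_right (min δ ε) 1; linarith
  obtain ⟨w, hw1, hw2⟩ := ContinuousLinearMap.exists_lt_apply_of_lt_opNorm
    (ContinuousLinearMap.id ℝ X + φ.smulRight v) (show 2 - η < _ by rw [hn]; linarith)
  have e1 : (ContinuousLinearMap.id ℝ X + φ.smulRight v) w = w + φ w • v := rfl
  rw [e1] at hw2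
  obtain ⟨y, hy1, hy2⟩ := exists_dual_vector'' ℝ (w + φ w • v)
  have hy2' : y (w + φ w • v) = ‖w + φ w • v‖ := hy2
  rw [← hy2', map_add, map_smul, smul_eq_mul] at hw2
  have hb : ∀ (f : StrongDual ℝ X) (x : X), ‖f‖ ≤ 1 → ‖x‖ ≤ 1 → |f x| ≤ 1 := fun f x hf hx => by
    refine (f.le_opNorm x).trans ?_
    calc ‖f‖ * ‖x‖ ≤ 1 * 1 := mul_le_mul hf hx (norm_nonneg _) zero_le_one
      _ = 1 := one_mul 1
  -- symmetrise
  obtain ⟨w, y, hw1, hy1, hφw, hyv, hyw⟩ : ∃ (w : X) (y : StrongDual ℝ X), ‖w‖ ≤ 1 ∧ ‖y‖ ≤ 1 ∧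
      1 - η < φ w ∧ 1 - η < y v ∧ 1 - η < y w := by
    have a1 := abs_le.1 (hb y w hy1 hw1.le)
    have a2 := abs_le.1 (hb φ w hφ.le hw1.le)
    have a3 := abs_le.1 (hb y v hy1 hv.le)
    rcases le_total 0 (φ w) with h0 | h0
    · have b1 : 0 ≤ y v := by
        by_contra hneg
        have : φ w * y v ≤ 0 := mul_nonpos_of_nonneg_of_nonpos h0 (not_le.1 hneg).le
        linarith
      refine ⟨w, y, hw1.le, hy1, ?_, ?_, ?_⟩
      · have : φ w * y v ≤ φ w * 1 := mul_le_mul_of_nonneg_left a3.2 h0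
        linarith
      · have : φ w * y v ≤ 1 * y v := mul_le_mul_of_nonneg_right a2.2 b1
        linarith
      · have : φ w * y v ≤ 1 * 1 := mul_le_mul a2.2 a3.2 b1 zero_le_one
        linarith
    · have b1 : y v ≤ 0 := by
        by_contra hneg
        have : φ w * y v ≤ 0 := mul_nonpos_of_nonpos_of_nonneg h0 (not_le.1 hneg).le
        linarith
      have c1 : φ w * y v = (-φ w) * (-y v) := by ring
      rw [c1] at hw2
      have d1 : 0 ≤ -φ w := by linarith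
      have d2 : 0 ≤ -y v := by linarith
      refine ⟨-w, -y, by rw [norm_neg]; exact hw1.le, by rw [norm_neg]; exact hy1, ?_, ?_, ?_⟩
      · rw [map_neg]
        have : (-φ w) * (-y v) ≤ (-φ w) * 1 := mul_le_mul_of_nonneg_left (by linarith [a3.1]) d1
        linarith
      · change 1 - η < -(y v)
        have : (-φ w) * (-y v) ≤ 1 * (-y v) := mul_le_mul_of_nonneg_right (by linarith [a2.1]) d2
        linarith
      · change 1 - η < -(y (-w))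
        rw [map_neg, neg_neg]
        have : (-φ w) * (-y v) ≤ 1 * 1 :=
          mul_le_mul (by linarith [a2.1]) (by linarith [a3.1]) d2 zero_le_one
        linarith
  set χ : StrongDual ℝ X := φ + y with hχ
  have hχw : 2 - 2 * η < χ w := by
    change 2 - 2 * η < φ w + y w
    linarith
  have hχn : 2 - 2 * η < ‖χ‖ := by
    refine hχw.trans_le ((le_abs_self _).trans ((χ.le_opNorm w).trans ?_))
    exact mul_le_of_le_one_right (norm_nonneg _) hw1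
  have hχ0 : 0 < ‖χ‖ := by linarith
  have hkey : ∀ x ∈ Sl (‖χ‖⁻¹ • χ) η, 1 - 4 * η < φ x ∧ 1 - 4 * η < y x := by
    rintro x ⟨hx1, hx2⟩
    change 1 - η < ‖χ‖⁻¹ * χ x at hx2
    rw [← div_eq_inv_mul, lt_div_iff₀ hχ0] at hx2
    have h1 : (1 - η) * (2 - 2 * η) ≤ (1 - η) * ‖χ‖ :=
      mul_le_mul_of_nonneg_left hχn.le (by linarith)
    have h2 : 2 - 4 * η ≤ (1 - η) * (2 - 2 * η) := by nlinarith
    have h3 : χ x = φ x + y x := rfl
    have a1 := abs_le.1 (hb y x hy1 hx1)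
    have a2 := abs_le.1 (hb φ x hφ.le hx1)
    constructor <;> linarith [a1.2, a2.2]
  refine ⟨‖χ‖⁻¹ • χ, η, ?_, hη0, ?_, ?_⟩
  · rw [norm_smul, norm_inv, norm_norm, inv_mul_cancel₀ hχ0.ne']
  · intro x hx
    exact ⟨hx.1, by have := (hkey x hx).1; linarith⟩
  · intro x hx
    have h1 := (hkey x hx).2
    have h2 : y (v + x) ≤ ‖v + x‖ := by
      refine (le_abs_self _).trans ((y.le_opNorm _).trans ?_)
      exact mul_le_of_le_one_left (norm_nonneg _) hy1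
    rw [map_add] at h2
    linarith

theorem slice_fin (hD : Daugavet X) {ε : ℝ} (hε : 0 < ε) (F : Finset X) :
    ∀ (φ : StrongDual ℝ X) (δ : ℝ), ‖φ‖ = 1 → 0 < δ → (∀ v ∈ F, ‖v‖ = 1) →
      ∃ (ψ : StrongDual ℝ X) (δ' : ℝ), ‖ψ‖ = 1 ∧ 0 < δ' ∧
        Sl ψ δ' ⊆ Sl φ δ ∧ ∀ v ∈ F, ∀ x ∈ Sl ψ δ', 2 - ε < ‖v + x‖ := by
  classical
  induction F using Finset.induction_on with
  | empty => exact fun φ δ hφ hδ _ => ⟨φ, δ, hφ, hδ, subset_rfl, by simp⟩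
  | insert a F ha ih =>
    intro φ δ hφ hδ hF
    obtain ⟨ψ₁, δ₁, h1, h2, h3, h4⟩ := ih φ δ hφ hδ fun v hv => hF v (Finset.mem_insert_of_mem hv)
    obtain ⟨ψ₂, δ₂, h5, h6, h7, h8⟩ := slice_one hD h1 (hF a (Finset.mem_insert_self a F)) h2 hε
    refine ⟨ψ₂, δ₂, h5, h6, h7.trans h3, fun v hv x hx => ?_⟩
    rcases Finset.mem_insert.1 hv with rfl | hv
    · exact h8 x hx
    · exact h4 v hv x (h7 hx)

/-- Slices far from the convex hull of a finite set. -/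
theorem slice_hull (hD : Daugavet X) {φ : StrongDual ℝ X} (hφ : ‖φ‖ = 1) {δ : ℝ} (hδ1 : δ ≤ 1 / 8)
    (A : Finset X) (hA : ∀ a ∈ A, a ∈ Sl φ δ) (ψ : StrongDual ℝ X) (δ' : ℝ) (hψ : ‖ψ‖ = 1)
    (hδ' : 0 < δ') : ∃ (ψ₁ : StrongDual ℝ X) (δ₁ : ℝ), ‖ψ₁‖ = 1 ∧ 0 < δ₁ ∧
      Sl ψ₁ δ₁ ⊆ Sl ψ δ' ∧ ∀ c ∈ convexHull ℝ (A : Set X), ∀ x ∈ Sl ψ₁ δ₁, 1 < ‖x - c‖ := by
  classical
  have hconv : convexHull ℝ (A : Set X) ⊆ Sl φ δ := convexHull_min (fun a ha => hA a ha)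
    (Sl_convex φ δ)
  have hcomp : IsCompact (convexHull ℝ (A : Set X)) := A.finite_toSet.isCompact_convexHull ℝ
  obtain ⟨t, ht1, ht2, ht3⟩ := hcomp.finite_cover_balls (show (0 : ℝ) < 1 / 8 by norm_num)
  have hnorm : ∀ c ∈ t, 7 / 8 < ‖c‖ ∧ ‖c‖ ≤ 1 := by
    intro c hc
    obtain ⟨h1, h2⟩ := hconv (ht1 hc)
    refine ⟨?_, h1⟩
    have h3 : φ c ≤ ‖c‖ := (le_abs_self _).trans ((φ.le_opNorm c).trans (by rw [hφ, one_mul]))
    linarith
  obtain ⟨ψ₁, δ₁, h1, h2, h3, h4⟩ := slice_fin hD (show (0 : ℝ) < 1 / 8 by norm_num)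
    (ht2.toFinset.image fun c => -(‖c‖⁻¹ • c)) ψ δ' hψ hδ' (by
      intro v hv
      obtain ⟨c, hc, rfl⟩ := Finset.mem_image.1 hv
      have h1 := (hnorm c (ht2.mem_toFinset.1 hc)).1
      rw [norm_neg, norm_smul, norm_inv, norm_norm, inv_mul_cancel₀ (by linarith)])
  refine ⟨ψ₁, δ₁, h1, h2, h3, fun c hc x hx => ?_⟩
  obtain ⟨c', hc', hcc'⟩ := Set.mem_iUnion₂.1 (ht3 hc)
  have h5 := h4 _ (Finset.mem_image_of_mem _ (ht2.mem_toFinset.2 hc')) x hx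
  obtain ⟨h6, h7⟩ := hnorm c' hc'
  have h8 : ‖c' - ‖c'‖⁻¹ • c'‖ ≤ 1 / 8 := by
    have e1 : c' - ‖c'‖⁻¹ • c' = (1 - ‖c'‖⁻¹) • c' := by rw [sub_smul, one_smul]
    rw [e1, norm_smul, Real.norm_eq_abs]
    have h9 : 0 < ‖c'‖ := by linarith
    have h10 : 1 ≤ ‖c'‖⁻¹ := (one_le_inv₀ h9).2 h7
    rw [abs_of_nonpos (by linarith), neg_sub, sub_mul, inv_mul_cancel₀ h9.ne', one_mul]
    linarith
  have h9 : ‖c - c'‖ < 1 / 8 := by rw [← dist_eq_norm]; exact hcc'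
  have h10 : -(‖c'‖⁻¹ • c') + x = (x - c) + ((c - c') + (c' - ‖c'‖⁻¹ • c')) := by abel
  rw [h10] at h5
  have h11 := norm_add_le (x - c) ((c - c') + (c' - ‖c'‖⁻¹ • c'))
  have h12 := norm_add_le (c - c') (c' - ‖c'‖⁻¹ • c')
  linarith

/-- A Mazur type argument. -/
theorem mazur {C : Set X} (hC : Convex ℝ C) {xs : ℕ → X} (hxs : ∀ᶠ n in atTop, xs n ∈ C)
    {u z : StrongDual ℝ (StrongDual ℝ X)} {x : X}
    (hu : ∀ f : StrongDual ℝ X, Tendsto (fun n => f (xs n)) (hyperfilter ℕ) (𝓝 (u f)))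
    (huz : ∀ f : StrongDual ℝ X, u f = f x + z f) (hz : ‖z‖ ≤ 1 / 8) :
    ∃ c ∈ C, ‖c - x‖ < 1 / 4 := by
  by_contra hcon
  push Not at hcon
  obtain ⟨f, s, hf1, hf2⟩ := geometric_hahn_banach_open (convex_ball x (1 / 4 : ℝ))
    Metric.isOpen_ball hC (Set.disjoint_left.2 fun c hc hcC => by
      have h1 := hcon c hcC
      rw [Metric.mem_ball, dist_eq_norm] at hc
      linarith)
  have h1 : s ≤ u f := by
    refine ge_of_tendsto (hu f) ?_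
    exact (hxs.mono fun n hn => hf2 _ hn).filter_mono Nat.hyperfilter_le_atTop
  have h2 : f x < s := hf1 x (Metric.mem_ball_self (by norm_num))
  have h3 : z f ≤ ‖f‖ / 8 := by
    refine (le_abs_self _).trans ((z.le_opNorm f).trans ?_)
    have := mul_le_mul_of_nonneg_right hz (norm_nonneg f)
    linarith
  rw [huz] at h1
  have hf0 : 0 < ‖f‖ := by linarith
  obtain ⟨w, hw1, hw2⟩ := f.exists_lt_apply_of_lt_opNorm (show ‖f‖ / 2 < ‖f‖ by linarith)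
  obtain ⟨w, hw1, hw2⟩ : ∃ w : X, ‖w‖ < 1 ∧ ‖f‖ / 2 < f w := by
    rcases le_total 0 (f w) with h4 | h4
    · exact ⟨w, hw1, by rwa [Real.norm_of_nonneg h4] at hw2⟩
    · refine ⟨-w, by rw [norm_neg]; exact hw1, ?_⟩
      rw [map_neg]
      rwa [Real.norm_of_nonpos h4] at hw2
  have h4 := hf1 (x + (1 / 4 : ℝ) • w) (by
    rw [Metric.mem_ball, dist_eq_norm, add_sub_cancel_left, norm_smul,
      Real.norm_of_nonneg (by norm_num : (0 : ℝ) ≤ 1 / 4)]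
    linarith)
  rw [map_add, map_smul, smul_eq_mul] at h4
  linarith

/-- The complement is norming. -/
theorem norming_one (hD : Daugavet X) {Z : Submodule ℝ (StrongDual ℝ (StrongDual ℝ X))}
    (hZ1 : ∀ u : StrongDual ℝ (StrongDual ℝ X), ∃ x : X, ∃ z ∈ Z,
      u = NormedSpace.inclusionInDoubleDual ℝ X x + z)
    (hZ2 : ∀ (x : X), ∀ z ∈ Z, ‖NormedSpace.inclusionInDoubleDual ℝ X x + z‖ = ‖x‖ + ‖z‖)
    {φ : StrongDual ℝ X} (hφ : ‖φ‖ = 1) {α : ℝ} (hα : 0 < α) (hα1 : α ≤ 1) :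
    ∃ z ∈ Z, ‖z‖ ≤ 1 ∧ 1 - α < z φ := by
  classical
  by_contra hcon
  push Not at hcon
  set δ₀ : ℝ := α / 8 with hδ₀
  have hδ₀0 : 0 < δ₀ := by positivity
  have hδ₀1 : δ₀ ≤ 1 / 8 := by rw [hδ₀]; linarith
  -- states
  let St : Type _ := {s : Finset X × StrongDual ℝ X × ℝ // (∀ a ∈ s.1, a ∈ Sl φ δ₀) ∧
    ‖s.2.1‖ = 1 ∧ 0 < s.2.2 ∧ Sl s.2.1 s.2.2 ⊆ Sl φ δ₀}
  have step : ∀ s : St, ∃ s' : St, ∃ x : X, s.1.1 ⊆ s'.1.1 ∧ x ∈ s'.1.1 ∧
      x ∈ Sl s'.1.2.1 s'.1.2.2 ∧ Sl s'.1.2.1 s'.1.2.2 ⊆ Sl s.1.2.1 s.1.2.2 ∧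
      ∀ c ∈ convexHull ℝ (s.1.1 : Set X), ∀ y ∈ Sl s'.1.2.1 s'.1.2.2, 1 < ‖y - c‖ := by
    rintro ⟨⟨A, ψ, δ'⟩, hA, hψ, hδ', hS⟩
    obtain ⟨ψ₁, δ₁, h1, h2, h3, h4⟩ := slice_hull hD hφ hδ₀1 A hA ψ δ' hψ hδ'
    obtain ⟨x, hx⟩ := Sl_nonempty h1 h2
    refine ⟨⟨⟨insert x A, ψ₁, δ₁⟩, ?_, h1, h2, h3.trans hS⟩, x, Finset.subset_insert x A,
      Finset.mem_insert_self x A, hx, h3, h4⟩
    intro a ha
    rcases Finset.mem_insert.1 ha with rfl | ha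
    · exact hS (h3 hx)
    · exact hA a ha
  choose nx pt h1 h2 h3 h4 h5 using step
  let s : ℕ → St := fun n => Nat.rec ⟨⟨∅, φ, δ₀⟩, by simp, hφ, hδ₀0, subset_rfl⟩ (fun _ s => nx s) n
  have hs : ∀ n, s (n + 1) = nx (s n) := fun n => rfl
  set xs : ℕ → X := fun n => pt (s n) with hxs
  have hSm : ∀ n m, n ≤ m → Sl (s m).1.2.1 (s m).1.2.2 ⊆ Sl (s n).1.2.1 (s n).1.2.2 := by
    intro n m hnm
    induction m, hnm using Nat.le_induction with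
    | base => exact subset_rfl
    | succ m hm ih => exact (h4 (s m)).trans ih
  have hAm : Monotone fun n => (s n).1.1 := monotone_nat_of_le_succ fun n => h1 (s n)
  have hxS : ∀ n m, n ≤ m + 1 → xs m ∈ Sl (s n).1.2.1 (s n).1.2.2 := fun n m hnm =>
    hSm n (m + 1) hnm (h3 (s m))
  have hx0 : ∀ m, xs m ∈ Sl φ δ₀ := fun m => (s (m + 1)).2.2.2.2 (h3 (s m))
  -- the weak* limit
  set F : ℕ → WeakDual ℝ (StrongDual ℝ X) := fun n =>
    StrongDual.toWeakDual (NormedSpace.inclusionInDoubleDual ℝ X (xs n)) with hF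
  have hball : ∀ n, F n ∈ WeakDual.toStrongDual ⁻¹'
      Metric.closedBall (0 : StrongDual ℝ (StrongDual ℝ X)) 1 := by
    intro n
    have h2 : ‖NormedSpace.inclusionInDoubleDual ℝ X (xs n)‖ ≤ 1 :=
      (NormedSpace.double_dual_bound ℝ X (xs n)).trans (hx0 n).1
    have h3 := dist_zero_right (NormedSpace.inclusionInDoubleDual ℝ X (xs n))
    exact h3.trans_le h2
  obtain ⟨u, hu1, hu2⟩ := (WeakDual.isCompact_closedBall
    (0 : StrongDual ℝ (StrongDual ℝ X)) 1).ultrafilter_le_nhds ((hyperfilter ℕ).map F) (by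
      rw [le_principal_iff]
      exact Filter.mem_map.2 (Filter.univ_mem' hball))
  have hu2' : Tendsto F (hyperfilter ℕ) (𝓝 u) := hu2
  set v : StrongDual ℝ (StrongDual ℝ X) := WeakDual.toStrongDual u with hv
  have hv1 : ‖v‖ ≤ 1 := by
    have h3 := dist_zero_right v
    exact h3.symm.trans_le hu1
  have hlim : ∀ f : StrongDual ℝ X, Tendsto (fun n => f (xs n)) (hyperfilter ℕ) (𝓝 (v f)) :=
    fun f => ((WeakDual.eval_continuous f).tendsto u).comp hu2'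
  obtain ⟨x, z, hz, hxz⟩ := hZ1 v
  have hnorm : ‖x‖ + ‖z‖ ≤ 1 := by
    rw [← hZ2 x z hz, ← hxz]
    exact hv1
  have hvf : ∀ f : StrongDual ℝ X, v f = f x + z f := fun f => by
    rw [hxz]
    rfl
  have hzα : z φ ≤ (1 - α) * ‖z‖ := by
    rcases (norm_nonneg z).eq_or_lt with h0 | h0
    · have h6 : z = 0 := geq0 (X := StrongDual ℝ X) h0.symm
      have h7 : z φ = 0 := by rw [h6]; rfl
      rw [h7, ← h0, mul_zero]
    · have h6 := hcon (‖z‖⁻¹ • z) (Z.smul_mem _ hz) (by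
        have h8 := gsmul (X := StrongDual ℝ X) ‖z‖⁻¹ z
        refine h8.trans_le ?_
        rw [abs_of_pos (inv_pos.2 h0)]
        exact (inv_mul_cancel₀ h0.ne').le)
      have h7 : (‖z‖⁻¹ • z) φ = ‖z‖⁻¹ * z φ := rfl
      rw [h7, inv_mul_le_iff₀ h0, mul_comm] at h6
      exact h6
  have hvφ : 1 - δ₀ ≤ v φ := ge_of_tendsto (hlim φ) (Filter.univ_mem' fun n => (hx0 n).2.le)
  have hzn : ‖z‖ ≤ 1 / 8 := by
    rw [hvf] at hvφ
    have h6 : φ x ≤ ‖x‖ := (le_abs_self _).trans ((φ.le_opNorm x).trans (by rw [hφ, one_mul]))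
    have h7 : α * ‖z‖ ≤ α * (1 / 8) := by rw [hδ₀] at hvφ; nlinarith
    exact le_of_mul_le_mul_left h7 hα
  -- two points
  obtain ⟨c₁, hc₁, hc₁x⟩ := mazur (C := ⋃ n, convexHull ℝ ((s n).1.1 : Set X))
    (Directed.convex_iUnion (directed_of_isDirected_le fun n m hnm =>
      convexHull_mono (Finset.coe_subset.2 (hAm hnm))) fun n => convex_convexHull ℝ _)
    (xs := xs) (Filter.Eventually.of_forall fun n => Set.mem_iUnion.2 ⟨n + 1,
      subset_convexHull ℝ _ (Finset.mem_coe.2 (h2 (s n)))⟩) hlim hvf hzn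
  obtain ⟨n, hn⟩ := Set.mem_iUnion.1 hc₁
  obtain ⟨c₂, hc₂, hc₂x⟩ := mazur (C := Sl (s (n + 1)).1.2.1 (s (n + 1)).1.2.2) (Sl_convex _ _)
    (xs := xs) (by
      filter_upwards [eventually_ge_atTop n] with m hm
      exact hxS (n + 1) m (by omega)) hlim hvf hzn
  have h6 := h5 (s n) c₁ hn c₂ hc₂
  have h7 : c₂ - c₁ = (c₂ - x) - (c₁ - x) := by abel
  rw [h7] at h6
  have h8 := norm_sub_le (c₂ - x) (c₁ - x)
  linarith

theorem norming (hD : Daugavet X) {Z : Submodule ℝ (StrongDual ℝ (StrongDual ℝ X))}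
    (hZ1 : ∀ u : StrongDual ℝ (StrongDual ℝ X), ∃ x : X, ∃ z ∈ Z,
      u = NormedSpace.inclusionInDoubleDual ℝ X x + z)
    (hZ2 : ∀ (x : X), ∀ z ∈ Z, ‖NormedSpace.inclusionInDoubleDual ℝ X x + z‖ = ‖x‖ + ‖z‖)
    (φ : StrongDual ℝ X) {ε : ℝ} (hε : 0 < ε) :
    ∃ z ∈ Z, ‖z‖ ≤ 1 ∧ ‖φ‖ - ε < z φ := by
  rcases (norm_nonneg φ).eq_or_lt with h0 | h0
  · refine ⟨0, Z.zero_mem, ?_, ?_⟩
    · exact (gzero (X := StrongDual ℝ X)).trans_le zero_le_one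
    · change ‖φ‖ - ε < 0
      linarith
  · obtain ⟨z, hz, hz1, hz2⟩ := norming_one hD hZ1 hZ2 (φ := ‖φ‖⁻¹ • φ)
      (by rw [norm_smul, norm_inv, norm_norm, inv_mul_cancel₀ h0.ne'])
      (α := min (ε / ‖φ‖) 1) (by positivity) (min_le_right _ _)
    refine ⟨z, hz, hz1, ?_⟩
    rw [map_smul, smul_eq_mul, ← div_eq_inv_mul, lt_div_iff₀ h0] at hz2
    have h1 : min (ε / ‖φ‖) 1 * ‖φ‖ ≤ ε := by
      calc min (ε / ‖φ‖) 1 * ‖φ‖ ≤ ε / ‖φ‖ * ‖φ‖ :=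
            mul_le_mul_of_nonneg_right (min_le_left _ _) h0.le
        _ = ε := div_mul_cancel₀ _ h0.ne'
    nlinarith

end slices

end Pool.Agent.V1198.TP
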