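import Pool.Agent.V1198.TP1
import Pool.Agent.V1198.TP2
import Pool.Agent.V1198.TP3

/-!
# Projective tensor products of `L`-embedded Daugavet spaces
-/

set_option autoImplicit false
set_option linter.unusedSectionVars false
set_option linter.unusedVariables false

noncomputable section

open Filter Topology

namespace Pool.Agent.V1198.TP

/-- The metric approximation property. -/
def MAP (X : Type*) [NormedAddCommGroup X] [NormedSpace ℝ X] : Prop :=
  ∀ K : Set X, IsCompact K → ∀ ε : ℝ, 0 < ε → ∃ S : X →L[ℝ] X,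
    FiniteDimensional ℝ (LinearMap.range (S : X →ₗ[ℝ] X)) ∧ ‖S‖ ≤ 1 ∧ ∀ x ∈ K, ‖S x - x‖ < ε

section core

variable {V Y : Type*} [NormedAddCommGroup V] [NormedSpace ℝ V]
  [NormedAddCommGroup Y] [NormedSpace ℝ Y]

/-- Approximation of bilinear forms on `V* × Y` by operators `Y → V`. -/
theorem core (B : StrongDual ℝ V →ₗ[ℝ] Y →ₗ[ℝ] ℝ) (hB : ∀ f y, |B f y| ≤ ‖f‖ * ‖y‖)
    (N : Submodule ℝ Y) (hN : IsClosed (N : Set Y)) (hfd : FiniteDimensional ℝ (Y ⧸ N))
    (hNB : ∀ f, ∀ y ∈ N, B f y = 0) {κ : Type*} [Fintype κ] (yy : κ → Y)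
    (ff : κ → StrongDual ℝ V) {ε : ℝ} (hε : 0 < ε) (hε1 : ε ≤ 1) :
    ∃ R : Y →ₗ[ℝ] V, (∀ y, ‖R y‖ ≤ (1 + ε) * ‖y‖) ∧
      ∀ k, |ff k (R (yy k)) - B (ff k) (yy k)| < ε := by
  have : IsClosed (N : Set Y) := hN
  set pr : (Y ⧸ N) →ₗ[ℝ] StrongDual ℝ V →ₗ[ℝ] ℝ := N.liftQ B.flip (fun y hy => by
    rw [LinearMap.mem_ker]
    ext f
    exact hNB f y hy) with hpr
  have hpra : ∀ y f, pr (N.mkQ y) f = B f y := fun y f => rfl
  have hprb : ∀ e f, |pr e f| ≤ ‖e‖ * ‖f‖ := by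
    intro e f
    refine le_of_forall_pos_le_add fun η hη => ?_
    obtain ⟨y, hy, hyn⟩ := Submodule.Quotient.norm_mk_lt (S := N) e
      (show 0 < η / (‖f‖ + 1) by positivity)
    have h1 : pr e f = B f y := by rw [← hy]; rfl
    rw [h1]
    refine (hB f y).trans ?_
    have h2 : ‖f‖ * ‖y‖ ≤ ‖f‖ * (‖e‖ + η / (‖f‖ + 1)) :=
      mul_le_mul_of_nonneg_left hyn.le (norm_nonneg _)
    have h3 : ‖f‖ * (η / (‖f‖ + 1)) ≤ η := by
      rw [mul_div_assoc', div_le_iff₀ (by positivity)]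
      nlinarith [norm_nonneg f]
    nlinarith
  obtain ⟨R, hR1, hR2⟩ := local_refl pr hprb (fun k => N.mkQ (yy k)) ff hε hε1
  refine ⟨R.comp N.mkQ, fun y => ?_, fun k => hR2 k⟩
  refine (hR1 (N.mkQ y)).trans ?_
  exact mul_le_mul_of_nonneg_left (Submodule.Quotient.norm_mk_le N y) (by positivity)

end core

section appr

variable {W Y : Type*} [NormedAddCommGroup W] [NormedSpace ℝ W]
  [NormedAddCommGroup Y] [NormedSpace ℝ Y]

theorem MAP_fin (h : MAP W) (F : Finset W) {ε : ℝ} (hε : 0 < ε) : ∃ S : W →ₗ[ℝ] W,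
    (∀ x, ‖S x‖ ≤ ‖x‖) ∧ IsClosed (LinearMap.ker S : Set W) ∧
    FiniteDimensional ℝ (LinearMap.range S) ∧ ∀ x ∈ F, ‖S x - x‖ < ε := by
  obtain ⟨S, h1, h2, h3⟩ := h F F.finite_toSet.isCompact ε hε
  refine ⟨S, fun x => ?_, S.isClosed_ker, h1, h3⟩
  exact (S.le_opNorm x).trans (mul_le_of_le_one_left (norm_nonneg _) h2)

theorem approx_B (h : MAP W ∨ MAP Y) (B : W →ₗ[ℝ] Y →ₗ[ℝ] ℝ) (hB : ∀ f y, |B f y| ≤ ‖f‖ * ‖y‖)
    {κ : Type*} [Fintype κ] (ww : κ → W) (yy : κ → Y) {ε : ℝ} (hε : 0 < ε) :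
    ∃ B' : W →ₗ[ℝ] Y →ₗ[ℝ] ℝ, (∀ f y, |B' f y| ≤ ‖f‖ * ‖y‖) ∧
      (∃ N : Submodule ℝ Y, IsClosed (N : Set Y) ∧ FiniteDimensional ℝ (Y ⧸ N) ∧
        ∀ f, ∀ y ∈ N, B' f y = 0) ∧ ∀ k, |B' (ww k) (yy k) - B (ww k) (yy k)| < ε := by
  classical
  rcases h with h | h
  · set M : ℝ := ∑ k, ‖yy k‖ + 1 with hM
    have hM0 : 0 < M := by positivity
    obtain ⟨S, hS1, hS2, hS3, hS4⟩ := MAP_fin h (Finset.univ.image ww) (div_pos hε hM0)
    refine ⟨B.comp S, fun f y => ?_, ?_, fun k => ?_⟩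
    · exact (hB (S f) y).trans (mul_le_mul_of_nonneg_right (hS1 f) (norm_nonneg _))
    · set β := Module.finBasis ℝ (LinearMap.range S) with hβ
      set T : Y →ₗ[ℝ] (Fin (Module.finrank ℝ (LinearMap.range S)) → ℝ) :=
        LinearMap.pi fun j => B (β j : W) with hT
      refine ⟨LinearMap.ker T, ?_, ?_, ?_⟩
      · have h1 : (LinearMap.ker T : Set Y) = ⋂ j, {y | B (β j : W) y = 0} := by
          ext y
          rw [Set.mem_iInter]
          change T y = 0 ↔ _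
          rw [funext_iff]
          rfl
        rw [h1]
        refine isClosed_iInter fun j => isClosed_eq ?_ continuous_const
        exact (LinearMap.mkContinuous (B (β j : W)) ‖(β j : W)‖ fun y => hB _ y).continuous
      · exact T.quotKerEquivRange.symm.finiteDimensional
      · intro f y hy
        have h1 : ∀ j, B (β j : W) y = 0 := fun j => congrFun (LinearMap.mem_ker.1 hy) j
        change B (S f) y = 0
        have h2 : S f = ∑ j, β.repr ⟨S f, ⟨f, rfl⟩⟩ j • (β j : W) := by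
          have h3 := congrArg Subtype.val (β.sum_repr ⟨S f, ⟨f, rfl⟩⟩)
          conv_lhs => rw [show S f = ((⟨S f, ⟨f, rfl⟩⟩ : LinearMap.range S) : W) from rfl, ← h3]
          push_cast
          rfl
        rw [h2, map_sum, LinearMap.sum_apply]
        refine Finset.sum_eq_zero fun j _ => ?_
        rw [map_smul, LinearMap.smul_apply, h1, smul_zero]
    · have h1 : B.comp S (ww k) (yy k) - B (ww k) (yy k) = B (S (ww k) - ww k) (yy k) := by
        rw [map_sub]; rfl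
      rw [h1]
      have h2 := hS4 (ww k) (Finset.mem_image_of_mem _ (Finset.mem_univ k))
      have h3 : ‖yy k‖ ≤ ∑ k, ‖yy k‖ :=
        Finset.single_le_sum (f := fun k => ‖yy k‖) (fun _ _ => norm_nonneg _) (Finset.mem_univ k)
      refine (hB _ _).trans_lt ?_
      calc ‖S (ww k) - ww k‖ * ‖yy k‖ ≤ ε / M * ‖yy k‖ :=
            mul_le_mul_of_nonneg_right h2.le (norm_nonneg _)
        _ < ε / M * M := mul_lt_mul_of_pos_left (by rw [hM]; linarith) (div_pos hε hM0)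
        _ = ε := div_mul_cancel₀ _ hM0.ne'
  · set M : ℝ := ∑ k, ‖ww k‖ + 1 with hM
    have hM0 : 0 < M := by positivity
    obtain ⟨S, hS1, hS2, hS3, hS4⟩ := MAP_fin h (Finset.univ.image yy) (div_pos hε hM0)
    refine ⟨B.compl₂ S, fun f y => ?_, ⟨LinearMap.ker S, hS2, ?_, ?_⟩, fun k => ?_⟩
    · exact (hB f (S y)).trans (mul_le_mul_of_nonneg_left (hS1 y) (norm_nonneg _))
    · exact S.quotKerEquivRange.symm.finiteDimensional
    · intro f y hy
      change B f (S y) = 0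
      rw [LinearMap.mem_ker.1 hy, map_zero]
    · have h1 : B.compl₂ S (ww k) (yy k) - B (ww k) (yy k) = B (ww k) (S (yy k) - yy k) := by
        rw [map_sub]; rfl
      rw [h1]
      have h2 := hS4 (yy k) (Finset.mem_image_of_mem _ (Finset.mem_univ k))
      have h3 : ‖ww k‖ ≤ ∑ k, ‖ww k‖ :=
        Finset.single_le_sum (f := fun k => ‖ww k‖) (fun _ _ => norm_nonneg _) (Finset.mem_univ k)
      refine (hB _ _).trans_lt ?_
      calc ‖ww k‖ * ‖S (yy k) - yy k‖ ≤ ‖ww k‖ * (ε / M) :=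
            mul_le_mul_of_nonneg_left h2.le (norm_nonneg _)
        _ = ε / M * ‖ww k‖ := mul_comm _ _
        _ < ε / M * M := mul_lt_mul_of_pos_left (by rw [hM]; linarith) (div_pos hε hM0)
        _ = ε := div_mul_cancel₀ _ hM0.ne'

end appr

section lemb

variable {X Y : Type*} [NormedAddCommGroup X] [NormedSpace ℝ X]
  [NormedAddCommGroup Y] [NormedSpace ℝ Y]

/-- The inclusion into the bidual. -/
abbrev ι (x : X) : StrongDual ℝ (StrongDual ℝ X) := NormedSpace.inclusionInDoubleDual ℝ X x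

/-- The bilinear form on `X** × Y` built from a bilinear form on `X × Y` and functionals. -/
theorem exists_B {Z : Submodule ℝ (StrongDual ℝ (StrongDual ℝ X))}
    (hZ1 : ∀ u : StrongDual ℝ (StrongDual ℝ X), ∃ x : X, ∃ z ∈ Z, u = ι x + z)
    (hZ2 : ∀ (x : X), ∀ z ∈ Z, ‖ι x + z‖ = ‖x‖ + ‖z‖)
    (B₀ : X →ₗ[ℝ] Y →ₗ[ℝ] ℝ) (hB₀ : ∀ x y, |B₀ x y| ≤ ‖x‖ * ‖y‖)
    (θ : StrongDual ℝ (StrongDual ℝ X) →ₗ[ℝ] ℝ) (hθ : ∀ u, |θ u| ≤ ‖u‖)
    (g : StrongDual ℝ Y) (hg : ‖g‖ ≤ 1) :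
    ∃ B : StrongDual ℝ (StrongDual ℝ X) →ₗ[ℝ] Y →ₗ[ℝ] ℝ, (∀ u y, |B u y| ≤ ‖u‖ * ‖y‖) ∧
      (∀ x y, B (ι x) y = B₀ x y) ∧ ∀ z ∈ Z, ∀ y, B z y = θ z * g y := by
  choose px pz hpz hdec using hZ1
  have huniq : ∀ (x x' : X) (z z' : StrongDual ℝ (StrongDual ℝ X)), z ∈ Z → z' ∈ Z →
      ι x + z = ι x' + z' → x = x' ∧ z = z' := by
    intro x x' z z' hz hz' h
    have hmem : z - z' ∈ Z := by
      have h0 := Z.add_mem hz (Z.smul_mem (-1) hz')
      have e : z + (-1 : ℝ) • z' = z - z' := ContinuousLinearMap.ext fun f => by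
        change z f + (-1) * z' f = z f - z' f
        ring
      rwa [e] at h0
    have h1 := hZ2 (x - x') (z - z') hmem
    have h2 : ι (x - x') + (z - z') = 0 := ContinuousLinearMap.ext fun f => by
      have e1 : f x + z f = f x' + z' f := DFunLike.congr_fun h f
      change f (x - x') + (z f - z' f) = 0
      rw [map_sub]
      linarith
    have h3 : ‖ι (x - x') + (z - z')‖ = 0 := by
      rw [h2]
      exact gzero (X := StrongDual ℝ X)
    rw [h3] at h1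
    have h4 := norm_nonneg (x - x')
    have h5 : 0 ≤ ‖z - z'‖ := ContinuousLinearMap.opNorm_nonneg _
    have h6 : ‖x - x'‖ = 0 := by linarith
    have h7 : ‖z - z'‖ = 0 := by linarith
    exact ⟨sub_eq_zero.1 (norm_eq_zero.1 h6), sub_eq_zero.1 (geq0 (X := StrongDual ℝ X) h7)⟩
  have hadd : ∀ u v, px (u + v) = px u + px v ∧ pz (u + v) = pz u + pz v := by
    intro u v
    refine huniq _ _ _ _ (hpz _) (Z.add_mem (hpz u) (hpz v)) ?_
    rw [← hdec]
    have e1 : ι (px u + px v) = ι (px u) + ι (px v) := map_add _ _ _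
    rw [e1]
    conv_lhs => rw [hdec u, hdec v]
    abel
  have hsmul : ∀ (c : ℝ) u, px (c • u) = c • px u ∧ pz (c • u) = c • pz u := by
    intro c u
    refine huniq _ _ _ _ (hpz _) (Z.smul_mem c (hpz u)) ?_
    rw [← hdec]
    have e1 : ι (c • px u) = c • ι (px u) := map_smul _ _ _
    rw [e1]
    conv_lhs => rw [hdec u]
    exact smul_add _ _ _
  have hx : ∀ x, px (ι x) = x ∧ pz (ι x) = 0 := by
    intro x
    refine huniq _ _ _ _ (hpz _) Z.zero_mem ?_
    rw [← hdec, add_zero]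
  have hz : ∀ z ∈ Z, px z = 0 ∧ pz z = z := by
    intro z hz
    refine huniq _ _ _ _ (hpz _) hz ?_
    have e1 : ι (0 : X) = 0 := map_zero _
    rw [← hdec, e1, zero_add]
  refine ⟨LinearMap.mk₂ ℝ (fun u y => B₀ (px u) y + θ (pz u) * g y) ?_ ?_ ?_ ?_, ?_, ?_, ?_⟩
  · intro u v y
    rw [(hadd u v).1, (hadd u v).2, map_add, map_add, LinearMap.add_apply]
    ring
  · intro c u y
    rw [(hsmul c u).1, (hsmul c u).2, map_smul, map_smul, LinearMap.smul_apply, smul_eq_mul,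
      smul_eq_mul, smul_eq_mul]
    ring
  · intro u y y'
    rw [map_add, map_add]
    ring
  · intro c u y
    rw [map_smul, map_smul, smul_eq_mul, smul_eq_mul, smul_eq_mul]
    ring
  · intro u y
    change |B₀ (px u) y + θ (pz u) * g y| ≤ ‖u‖ * ‖y‖
    have h1 : ‖u‖ = ‖px u‖ + ‖pz u‖ := by
      rw [← hZ2 _ _ (hpz u), ← hdec]
    rw [h1]
    refine (abs_add_le _ _).trans ?_
    rw [add_mul]
    refine add_le_add (hB₀ _ _) ?_
    rw [abs_mul]
    refine mul_le_mul (hθ _) ?_ (abs_nonneg _) (ContinuousLinearMap.opNorm_nonneg _)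
    exact (g.le_opNorm y).trans (mul_le_of_le_one_left (norm_nonneg _) hg)
  · intro x y
    change B₀ (px (ι x)) y + θ (pz (ι x)) * g y = _
    rw [(hx x).1, (hx x).2, map_zero, zero_mul, add_zero]
  · intro z hz' y
    change B₀ (px z) y + θ (pz z) * g y = _
    rw [(hz z hz').1, (hz z hz').2, map_zero, LinearMap.zero_apply, zero_add]

end lemb

end Pool.Agent.V1198.TP
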