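import Pool.Agent.V1198.TP4

/-!
# The Daugavet property of projective tensor products
-/

set_option autoImplicit false
set_option linter.unusedSectionVars false
set_option linter.unusedVariables false

noncomputable section

open Filter Topology

namespace Pool.Agent.V1198.TP

theorem dual_vec {W : Type*} [NormedAddCommGroup W] [NormedSpace ℝ W] (w : W) :
    ∃ θ : W →ₗ[ℝ] ℝ, (∀ u, |θ u| ≤ ‖u‖) ∧ θ w = ‖w‖ := by
  obtain ⟨g, hg1, hg2⟩ := exists_dual_vector'' ℝ w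
  refine ⟨g, fun u => ?_, hg2⟩
  exact (g.le_opNorm u).trans (mul_le_of_le_one_left (norm_nonneg _) hg1)

variable {X Y : Type*} [NormedAddCommGroup X] [NormedSpace ℝ X]
  [NormedAddCommGroup Y] [NormedSpace ℝ Y]

/-- The functional `x ↦ G (x ⊗ y)`. -/
def Gy (G : Pr X Y →L[ℝ] ℝ) (y : Y) : StrongDual ℝ X :=
  LinearMap.mkContinuous
    { toFun := fun x => G (el x y)
      map_add' := fun x x' => by rw [el_add_left, map_add]
      map_smul' := fun c x => by rw [el_smul_left, map_smul]; rfl } (‖G‖ * ‖y‖) fun x => by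
    refine (G.le_opNorm _).trans ?_
    rw [mul_assoc, mul_comm ‖y‖]
    exact mul_le_mul_of_nonneg_left (norm_el_le x y) (norm_nonneg _)

theorem Gy_apply (G : Pr X Y →L[ℝ] ℝ) (y : Y) (x : X) : Gy G y x = G (el x y) := rfl

theorem Gy_norm (G : Pr X Y →L[ℝ] ℝ) (y : Y) : ‖Gy G y‖ ≤ ‖G‖ * ‖y‖ :=
  LinearMap.mkContinuous_norm_le _ (by positivity) _

theorem el_zero (x : X) : (el x (0 : Y) : Pr X Y) = 0 := by
  have := el_smul_right (0 : ℝ) x (0 : Y)
  rwa [zero_smul, zero_smul] at this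

theorem exists_y {G : Pr X Y →L[ℝ] ℝ} {ε : ℝ} (hε : 0 < ε) (hεa : ε ≤ ‖G‖) :
    ∃ y : Y, ‖y‖ = 1 ∧ ‖G‖ - ε < ‖Gy G y‖ := by
  by_contra hcon
  push Not at hcon
  have h1 : ‖G‖ ≤ ‖G‖ - ε := norm_le_of (by linarith) fun x y => by
    rcases eq_or_ne y 0 with rfl | hy
    · rw [el_zero, map_zero, abs_zero, norm_zero, mul_zero, mul_zero]
    · have hy0 : 0 < ‖y‖ := norm_pos_iff.2 hy
      have h2 : (el x y : Pr X Y) = ‖y‖ • el x (‖y‖⁻¹ • y) := by
        rw [← el_smul_right, smul_smul, mul_inv_cancel₀ hy0.ne', one_smul]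
      have h3 := hcon (‖y‖⁻¹ • y) (by
        rw [norm_smul, norm_inv, norm_norm, inv_mul_cancel₀ hy0.ne'])
      have h4 := (Gy G (‖y‖⁻¹ • y)).le_opNorm x
      rw [Gy_apply, Real.norm_eq_abs] at h4
      rw [h2, map_smul, smul_eq_mul, abs_mul, abs_of_pos hy0]
      have h5 := mul_le_mul_of_nonneg_right h3 (norm_nonneg x)
      have h6 := mul_le_mul_of_nonneg_left (h4.trans h5) hy0.le
      calc ‖y‖ * |G (el x (‖y‖⁻¹ • y))| ≤ ‖y‖ * ((‖G‖ - ε) * ‖x‖) := h6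
        _ = (‖G‖ - ε) * (‖x‖ * ‖y‖) := by ring
  linarith

set_option maxHeartbeats 4000000 in
/-- The main estimate. -/
theorem main_step (hD : Daugavet X) (hL : LEmbedded X)
    (hM : MAP (StrongDual ℝ (StrongDual ℝ X)) ∨ MAP Y) (G : Pr X Y →L[ℝ] ℝ) (z₀ : Pr X Y)
    {M : ℝ} (hMle : ∀ w : Pr X Y, ‖w‖ ≤ 1 → ‖w + G w • z₀‖ ≤ M) (hM0 : 0 ≤ M) {ε : ℝ}
    (hε : 0 < ε) (hε1 : ε ≤ 1) (hεa : ε ≤ ‖G‖) :
    1 + ‖G‖ * ‖z₀‖ ≤ M + ε * (2 / ‖G‖ + 2 + 2 * ‖G‖ + M + 2 * (3 * ‖z₀‖ + ‖G‖)) := by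
  classical
  obtain ⟨Z, -, hZ1, hZ2⟩ := hL
  set a : ℝ := ‖G‖ with ha
  have ha0 : 0 < a := hε.trans_le hεa
  obtain ⟨y₁, hy₁, hy₁'⟩ := exists_y hε hεa
  set φ := Gy G y₁ with hφ
  have hφn : ‖φ‖ ≤ a := (Gy_norm G y₁).trans (by rw [hy₁, mul_one])
  obtain ⟨z, hz, hz1, hz2⟩ := norming hD hZ1 hZ2 φ hε
  have hzn : 1 - 2 * ε / a < ‖z‖ := by
    have h1 : z φ ≤ ‖z‖ * a := by
      refine (le_abs_self _).trans ((z.le_opNorm φ).trans ?_)
      exact mul_le_mul_of_nonneg_left hφn (ContinuousLinearMap.opNorm_nonneg _)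
    have h2 : a - 2 * ε < ‖z‖ * a := by linarith
    have h3 : (a - 2 * ε) / a < ‖z‖ := by rwa [div_lt_iff₀ ha0]
    have h4 : (a - 2 * ε) / a = 1 - 2 * ε / a := by field_simp
    rwa [h4] at h3
  obtain ⟨m, xx, yy, hw₀⟩ := exists_near z₀ hε
  set w₀ : Pr X Y := ∑ i, el (xx i) (yy i) with hw₀def
  obtain ⟨F₀, hF₀1, hF₀2⟩ := exists_dual_vector'' ℝ w₀
  have hF₀2' : F₀ w₀ = ‖w₀‖ := hF₀2
  obtain ⟨g, hg1, hg2⟩ := exists_dual_vector'' ℝ y₁
  have hg2' : g y₁ = 1 := by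
    have : g y₁ = ‖y₁‖ := hg2
    rw [this, hy₁]
  obtain ⟨θ, hθ1, hθ2⟩ := dual_vec z
  set B₀ : X →ₗ[ℝ] Y →ₗ[ℝ] ℝ := LinearMap.mk₂ ℝ (fun x y => F₀ (el x y))
    (fun x x' y => by rw [el_add_left, map_add]) (fun c x y => by rw [el_smul_left, map_smul])
    (fun x y y' => by rw [el_add_right, map_add]) (fun c x y => by rw [el_smul_right, map_smul])
    with hB₀
  have hB₀b : ∀ x y, |B₀ x y| ≤ ‖x‖ * ‖y‖ := fun x y => by
    change |F₀ (el x y)| ≤ _
    refine (F₀.le_opNorm _).trans ?_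
    exact (mul_le_of_le_one_left (norm_nonneg _) hF₀1).trans (norm_el_le x y)
  obtain ⟨B, hB1, hB2, hB3⟩ := exists_B hZ1 hZ2 B₀ hB₀b θ hθ1 g hg1
  set ε' : ℝ := ε / (2 * (m + 1)) with hε'
  have hm0 : (0 : ℝ) ≤ m := Nat.cast_nonneg m
  have hε'0 : 0 < ε' := by positivity
  have hε'ε : 2 * (m + 1) * ε' = ε := by rw [hε']; field_simp
  have hε'2 : 2 * ε' ≤ ε := by
    have e1 : 2 * ((m : ℝ) + 1) * ε' = 2 * (m * ε') + 2 * ε' := by ring
    have e2 := mul_nonneg hm0 hε'0.le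
    linarith
  have hε'1 : ε' ≤ ε := by linarith
  set ww : Option (Fin m) → StrongDual ℝ (StrongDual ℝ X) := fun k => k.elim z fun i => ι (xx i)
    with hww
  set yy' : Option (Fin m) → Y := fun k => k.elim y₁ yy with hyy'
  obtain ⟨B', hB'1, ⟨N, hN1, hN2, hN3⟩, hB'2⟩ := approx_B hM B hB1 ww yy' hε'0
  obtain ⟨R, hR1, hR2⟩ := core (V := StrongDual ℝ X) B' hB'1 N hN1 hN2 hN3 yy' ww hε'0
    (hε'1.trans hε1)
  have hR3 : ∀ k, |ww k (R (yy' k)) - B (ww k) (yy' k)| < 2 * ε' := by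
    intro k
    have h1 := abs_lt.1 (hR2 k)
    have h2 := abs_lt.1 (hB'2 k)
    rw [abs_lt]
    constructor <;> linarith [h1.1, h1.2, h2.1, h2.2]
  -- the functional on the tensor product
  obtain ⟨H, hH1, hH2⟩ := exists_functional (X := X) (Y := Y) (LinearMap.mk₂ ℝ (fun x y => R y x)
    (fun x x' y => map_add _ _ _) (fun c x y => map_smul _ _ _)
    (fun x y y' => by rw [map_add]; rfl) (fun c x y => by rw [map_smul]; rfl)) (C := 1 + ε)
    (by linarith) (fun x y => by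
      change |R y x| ≤ _
      refine ((R y).le_opNorm x).trans ?_
      calc ‖R y‖ * ‖x‖ ≤ ((1 + ε') * ‖y‖) * ‖x‖ := mul_le_mul_of_nonneg_right (hR1 y) (norm_nonneg _)
        _ ≤ ((1 + ε) * ‖y‖) * ‖x‖ := by gcongr
        _ = (1 + ε) * (‖x‖ * ‖y‖) := by ring)
  have hH1' : ∀ x y, H (el x y) = R y x := hH1
  have hHw₀ : ‖w₀‖ - ε ≤ H w₀ := by
    have h1 : H w₀ = ∑ i, R (yy i) (xx i) := by
      rw [hw₀def, map_sum]
      exact Finset.sum_congr rfl fun i _ => hH1' _ _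
    have h2 : F₀ w₀ = ∑ i, B₀ (xx i) (yy i) := by
      rw [hw₀def, map_sum]
      rfl
    rw [← hF₀2', h1, h2]
    have h3 : ∀ i ∈ Finset.univ, B₀ (xx i) (yy i) - 2 * ε' ≤ R (yy i) (xx i) := by
      intro i _
      have h4 := abs_lt.1 (hR3 (some i))
      have h5 : ww (some i) (R (yy' (some i))) = R (yy i) (xx i) := rfl
      have h6 : B (ww (some i)) (yy' (some i)) = B₀ (xx i) (yy i) := hB2 (xx i) (yy i)
      rw [h5, h6] at h4
      linarith [h4.1]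
    have h4 := Finset.sum_le_sum h3
    rw [Finset.sum_sub_distrib, Finset.sum_const, Finset.card_univ, Fintype.card_fin,
      nsmul_eq_mul] at h4
    have e1 : 2 * ((m : ℝ) + 1) * ε' = m * (2 * ε') + 2 * ε' := by ring
    linarith
  -- the point
  obtain ⟨x, hx1, hx2⟩ := goldstine z hz1 (fun b : Bool => if b then φ else R y₁) hε
  have hx3 : |φ x - z φ| < ε := hx2 true
  have hx4 : |R y₁ x - z (R y₁)| < ε := hx2 false
  have hzR := abs_lt.1 (hR3 none)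
  have e1 : ww none (R (yy' none)) = z (R y₁) := rfl
  have e2 : B (ww none) (yy' none) = ‖z‖ := by
    change B z y₁ = ‖z‖
    rw [hB3 z hz, hθ2, hg2', mul_one]
  rw [e1, e2] at hzR
  set w : Pr X Y := el x y₁ with hw
  have hw1 : ‖w‖ ≤ 1 := (norm_el_le x y₁).trans (by rw [hy₁, mul_one]; exact hx1)
  have hGw : G w = φ x := rfl
  have hGw1 : G w ≤ a := by
    refine (le_abs_self _).trans ((G.le_opNorm w).trans ?_)
    exact mul_le_of_le_one_right (norm_nonneg _) hw1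
  have hGw2 : a - 3 * ε < G w := by
    rw [hGw]
    have := (abs_lt.1 hx3).1
    linarith
  have hHw : 1 - 2 * ε / a - 2 * ε < H w := by
    have h1 : H w = R y₁ x := hH1' _ _
    rw [h1]
    have h2 := (abs_lt.1 hx4).1
    linarith [hzR.1]
  have hnorm : ‖w + a • w₀‖ ≤ M + 3 * ε * ‖z₀‖ + a * ε := by
    have h1 : w + a • w₀ = (w + G w • z₀) + ((a - G w) • z₀ + a • (w₀ - z₀)) := by
      rw [sub_smul, smul_sub]
      abel
    rw [h1]
    refine (norm_add_le _ _).trans ?_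
    have h2 := hMle w hw1
    have h3 := norm_add_le ((a - G w) • z₀) (a • (w₀ - z₀))
    rw [norm_smul, norm_smul, Real.norm_of_nonneg (by linarith : 0 ≤ a - G w),
      Real.norm_of_nonneg ha0.le, norm_sub_rev w₀ z₀] at h3
    have h4 : (a - G w) * ‖z₀‖ ≤ 3 * ε * ‖z₀‖ :=
      mul_le_mul_of_nonneg_right (by linarith) (norm_nonneg _)
    have h5 : a * ‖z₀ - w₀‖ ≤ a * ε := mul_le_mul_of_nonneg_left hw₀.le ha0.le
    linarith
  have hHle : H (w + a • w₀) ≤ (1 + ε) * (M + 3 * ε * ‖z₀‖ + a * ε) := by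
    refine (le_abs_self _).trans ((H.le_opNorm _).trans ?_)
    exact mul_le_mul hH2 hnorm (norm_nonneg _) (by linarith)
  rw [map_add, map_smul, smul_eq_mul] at hHle
  have hw₀n : ‖z₀‖ - ε ≤ ‖w₀‖ := by
    have := norm_sub_norm_le z₀ w₀
    linarith
  have h6 : a * (‖z₀‖ - 2 * ε) ≤ a * H w₀ := mul_le_mul_of_nonneg_left (by linarith) ha0.le
  have h7 : 2 * ε / a = ε * (2 / a) := by ring
  rw [h7] at hHw
  have h8 : ε * ε ≤ ε := mul_le_of_le_one_left hε.le hε1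
  have h9 : 0 ≤ ‖z₀‖ := norm_nonneg _
  have h10 : ε * ε * ‖z₀‖ ≤ ε * ‖z₀‖ := mul_le_mul_of_nonneg_right h8 h9
  have h11 : ε * ε * a ≤ ε * a := mul_le_mul_of_nonneg_right h8 ha0.le
  have e1 : (1 + ε) * (M + 3 * ε * ‖z₀‖ + a * ε) = M + 3 * (ε * ‖z₀‖) + ε * a + ε * M +
    3 * (ε * ε * ‖z₀‖) + ε * ε * a := by ring
  have e2 : M + ε * (2 / a + 2 + 2 * a + M + 2 * (3 * ‖z₀‖ + a)) = M + ε * (2 / a) + 2 * ε +
    2 * (ε * a) + ε * M + 6 * (ε * ‖z₀‖) + 2 * (ε * a) := by ring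
  have e3 : a * (‖z₀‖ - 2 * ε) = a * ‖z₀‖ - 2 * (ε * a) := by ring
  rw [e1] at hHle
  rw [e3] at h6
  rw [e2]
  linarith

/-- The projective tensor product has the Daugavet property. -/
theorem main (hD : Daugavet X) (hL : LEmbedded X)
    (hM : MAP (StrongDual ℝ (StrongDual ℝ X)) ∨ MAP Y) : Daugavet (Pr X Y) := by
  intro G z₀ hG hz₀
  set T : Pr X Y →L[ℝ] Pr X Y := ContinuousLinearMap.id ℝ (Pr X Y) + G.smulRight z₀ with hT
  rw [ContinuousLinearMap.norm_smulRight_apply]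
  have hG0 : 0 < ‖G‖ := norm_pos_iff.2 hG
  refine le_antisymm ?_ ?_
  · refine (norm_add_le _ _).trans ?_
    rw [ContinuousLinearMap.norm_smulRight_apply]
    have := ContinuousLinearMap.norm_id_le (𝕜 := ℝ) (E := Pr X Y)
    linarith
  · by_contra hcon
    push Not at hcon
    set M := ‖T‖ with hM'
    have hM0 : 0 ≤ M := norm_nonneg _
    have hMle : ∀ w : Pr X Y, ‖w‖ ≤ 1 → ‖w + G w • z₀‖ ≤ M := fun w hw => by
      have h1 : w + G w • z₀ = T w := rfl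
      rw [h1]
      exact (T.le_opNorm w).trans (mul_le_of_le_one_right hM0 hw)
    set K : ℝ := 2 / ‖G‖ + 2 + 2 * ‖G‖ + M + 2 * (3 * ‖z₀‖ + ‖G‖) with hK
    have hK0 : 0 < K := by positivity
    set d : ℝ := 1 + ‖G‖ * ‖z₀‖ - M with hd
    have hd0 : 0 < d := by rw [hd]; linarith
    set ε : ℝ := min (min 1 ‖G‖) (d / (2 * K)) with hε
    have hε0 : 0 < ε := by positivity
    have h1 := main_step hD hL hM G z₀ hMle hM0 hε0
      ((min_le_left _ _).trans (min_le_left _ _)) ((min_le_left _ _).trans (min_le_right _ _))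
    have h2 : ε * K ≤ d / 2 := by
      calc ε * K ≤ d / (2 * K) * K := mul_le_mul_of_nonneg_right (min_le_right _ _) hK0.le
        _ = d / 2 := by field_simp
    linarith

end Pool.Agent.V1198.TP
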