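import Mathlib

/-!
# Real lattice homomorphisms on vector lattices with an order unit
-/

set_option autoImplicit false
set_option linter.unusedSectionVars false

noncomputable section

open Filter Topology
open scoped NNReal

namespace Pool.Agent.V1198.YS

variable {V : Type*} [AddCommGroup V] [Lattice V] [IsOrderedAddMonoid V] [Module ℝ V]
  [IsOrderedModule ℝ V]

/-- Sublinear functions that preserve finite suprema and are normalised at `u`. -/
structure SubHom (u : V) (p : V → ℝ) : Prop where
  add : ∀ x y, p (x + y) ≤ p x + p y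
  smul : ∀ (t : ℝ) x, 0 ≤ t → p (t • x) = t * p x
  sup : ∀ x y, p (x ⊔ y) = max (p x) (p y)
  unit : p u ≤ 1
  negunit : p (-u) ≤ -1

namespace SubHom

variable {u : V} {p : V → ℝ} (hp : SubHom u p)
include hp

theorem zero : p 0 = 0 := by
  have h := hp.smul 0 0 le_rfl
  rwa [smul_zero, zero_mul] at h

theorem mono {x y : V} (h : x ≤ y) : p x ≤ p y := by
  have h1 := hp.sup x y
  rw [sup_eq_right.2 h] at h1
  rw [h1]
  exact le_max_left _ _

theorem neg_le (x : V) : -p (-x) ≤ p x := by
  have h := hp.add x (-x)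
  rw [add_neg_cancel, hp.zero] at h
  linarith

theorem lower {x : V} {c : ℝ} (hc : 0 ≤ c) (h : -(c • u) ≤ x) : -c ≤ p x := by
  have h1 := hp.mono h
  rw [← smul_neg, hp.smul c _ hc] at h1
  have h2 := hp.neg_le (-u)
  rw [neg_neg] at h2
  have h3 := hp.unit
  nlinarith

end SubHom

/-- The modification of `p` in the direction `z`. -/
def md (p : V → ℝ) (z x : V) : ℝ := ⨅ t : ℝ≥0, (p (x + (t : ℝ) • z) - t * p z)

section md

variable {u : V} {p : V → ℝ} (hp : SubHom u p) (z : V)
include hp

theorem md_lower (x : V) {t : ℝ} (ht : 0 ≤ t) : -p (-x) ≤ p (x + t • z) - t * p z := by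
  have h := hp.add (x + t • z) (-x)
  have e : x + t • z + -x = t • z := by abel
  rw [e, hp.smul _ _ ht] at h
  linarith

theorem md_bdd (x : V) : BddBelow (Set.range fun t : ℝ≥0 => p (x + (t : ℝ) • z) - t * p z) :=
  ⟨-p (-x), by rintro _ ⟨t, rfl⟩; exact md_lower hp z x t.coe_nonneg⟩

theorem md_le (x : V) {t : ℝ} (ht : 0 ≤ t) : md p z x ≤ p (x + t • z) - t * p z := by
  have h := ciInf_le (md_bdd hp z x) t.toNNReal
  rwa [Real.coe_toNNReal t ht] at h

omit hp in
theorem md_exists (x : V) {c : ℝ} (h : md p z x < c) : ∃ t : ℝ, 0 ≤ t ∧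
    p (x + t • z) - t * p z < c := by
  obtain ⟨t, ht⟩ := exists_lt_of_ciInf_lt h
  exact ⟨t, t.coe_nonneg, ht⟩

omit hp in
theorem le_md (x : V) {c : ℝ} (h : ∀ t : ℝ, 0 ≤ t → c ≤ p (x + t • z) - t * p z) :
    c ≤ md p z x := le_ciInf fun t => h t t.coe_nonneg

theorem md_le_self (x : V) : md p z x ≤ p x := by
  have h := md_le hp z x le_rfl
  rwa [zero_smul, add_zero, zero_mul, sub_zero] at h

theorem md_anti (x : V) {s t : ℝ} (h : s ≤ t) :
    p (x + t • z) - t * p z ≤ p (x + s • z) - s * p z := by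
  have h1 := hp.add (x + s • z) ((t - s) • z)
  have e : x + s • z + (t - s) • z = x + t • z := by
    rw [sub_smul]; abel
  rw [e, hp.smul _ _ (sub_nonneg.2 h)] at h1
  linarith

theorem md_subHom : SubHom u (md p z) where
  add x y := by
    refine le_of_forall_pos_le_add fun ε hε => ?_
    obtain ⟨t, ht0, ht⟩ := md_exists z x (show md p z x < md p z x + ε / 2 by linarith)
    obtain ⟨s, hs0, hs⟩ := md_exists z y (show md p z y < md p z y + ε / 2 by linarith)
    have h1 := md_le hp z (x + y) (add_nonneg ht0 hs0)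
    have h2 := hp.add (x + t • z) (y + s • z)
    have e : x + t • z + (y + s • z) = x + y + (t + s) • z := by
      rw [add_smul]; abel
    rw [e] at h2
    nlinarith
  smul c x hc := by
    rcases hc.eq_or_lt with rfl | hc'
    · rw [zero_smul, zero_mul]
      refine le_antisymm ?_ ?_
      · have h := md_le_self hp z 0
        rwa [hp.zero] at h
      · refine le_md z 0 fun t ht => ?_
        rw [zero_add, hp.smul _ _ ht]
        linarith
    · refine le_antisymm ?_ ?_
      · refine le_of_forall_pos_le_add fun ε hε => ?_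
        obtain ⟨t, ht0, ht⟩ := md_exists z x (show md p z x < md p z x + ε / c by
          have := div_pos hε hc'; linarith)
        have h1 := md_le hp z (c • x) (mul_nonneg hc ht0)
        have e : c • x + (c * t) • z = c • (x + t • z) := by
          rw [smul_add, smul_smul]
        rw [e, hp.smul _ _ hc] at h1
        have h3 : c * (p (x + t • z) - t * p z) ≤ c * (md p z x + ε / c) :=
          mul_le_mul_of_nonneg_left ht.le hc
        have h4 : c * (md p z x + ε / c) = c * md p z x + ε := by field_simp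
        linarith
      · refine le_md z (c • x) fun t ht => ?_
        have h1 := md_le hp z x (div_nonneg ht hc)
        have e : c • (x + (t / c) • z) = c • x + t • z := by
          rw [smul_add, smul_smul, mul_div_cancel₀ t hc'.ne']
        have h2 := hp.smul c (x + (t / c) • z) hc
        rw [e] at h2
        rw [h2]
        have h3 := mul_le_mul_of_nonneg_left h1 hc
        refine h3.trans (le_of_eq ?_)
        field_simp
  sup x y := by
    refine le_antisymm ?_ (max_le ?_ ?_)
    · refine le_of_forall_pos_le_add fun ε hε => ?_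
      obtain ⟨t, ht0, ht⟩ := md_exists z x (show md p z x < md p z x + ε by linarith)
      obtain ⟨s, hs0, hs⟩ := md_exists z y (show md p z y < md p z y + ε by linarith)
      have h1 := md_le hp z (x ⊔ y) (le_max_of_le_left ht0 : 0 ≤ max t s)
      have e : x ⊔ y + (max t s) • z = (x + (max t s) • z) ⊔ (y + (max t s) • z) :=
        sup_add _ _ _
      rw [e, hp.sup] at h1
      have h2 := md_anti hp z x (le_max_left t s)
      have h3 := md_anti hp z y (le_max_right t s)
      have h4 := le_max_left (md p z x) (md p z y)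
      have h5 := le_max_right (md p z x) (md p z y)
      refine h1.trans ?_
      rw [sub_le_iff_le_add]
      refine max_le ?_ ?_
      · linarith
      · linarith
    · refine le_md z _ fun t ht => ?_
      refine (md_le hp z x ht).trans ?_
      have h1 : x + t • z ≤ x ⊔ y + t • z := add_le_add le_sup_left le_rfl
      have := hp.mono h1
      linarith
    · refine le_md z _ fun t ht => ?_
      refine (md_le hp z y ht).trans ?_
      have h1 : y + t • z ≤ x ⊔ y + t • z := add_le_add le_sup_right le_rfl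
      have := hp.mono h1
      linarith
  unit := (md_le_self hp z u).trans hp.unit
  negunit := (md_le_self hp z (-u)).trans hp.negunit

end md

/-- Minimal elements exist. -/
theorem exists_min {u : V} (hu : ∀ x : V, ∃ c : ℝ, 0 ≤ c ∧ -(c • u) ≤ x) {p : V → ℝ}
    (hp : SubHom u p) : ∃ m : V → ℝ, m ≤ p ∧ SubHom u m ∧
      ∀ q : V → ℝ, SubHom u q → q ≤ m → q = m := by
  have hz := zorn_le_nonempty₀ (α := (V → ℝ)ᵒᵈ) {q | SubHom u (OrderDual.ofDual q)} ?_
    (OrderDual.toDual p) hp
  · obtain ⟨m, hm1, hm2⟩ := hz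
    refine ⟨OrderDual.ofDual m, hm1, hm2.1, fun q hq hqm => ?_⟩
    have := hm2.2 (y := OrderDual.toDual q) hq hqm
    exact le_antisymm hqm this
  · intro C hC hchain y hy
    let q : V → ℝ := fun x => ⨅ r : C, (OrderDual.ofDual r.1) x
    have hbdd : ∀ x, BddBelow (Set.range fun r : C => (OrderDual.ofDual r.1) x) := by
      intro x
      obtain ⟨c, hc, hcx⟩ := hu x
      refine ⟨-c, ?_⟩
      rintro _ ⟨r, rfl⟩
      exact SubHom.lower (hC r.2) hc hcx
    have hne : Nonempty C := ⟨⟨y, hy⟩⟩
    have hle : ∀ (r : C) x, q x ≤ (OrderDual.ofDual r.1) x := fun r x => ciInf_le (hbdd x) r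
    have hex : ∀ x ε, 0 < ε → ∃ r : C, (OrderDual.ofDual r.1) x < q x + ε := fun x ε hε =>
      exists_lt_of_ciInf_lt (show q x < q x + ε by linarith)
    have hcommon : ∀ r s : C, ∃ w : C, (∀ x, (OrderDual.ofDual w.1) x ≤ (OrderDual.ofDual r.1) x) ∧
        ∀ x, (OrderDual.ofDual w.1) x ≤ (OrderDual.ofDual s.1) x := by
      intro r s
      rcases hchain.total r.2 s.2 with h | h
      · exact ⟨s, fun x => h x, fun x => le_rfl⟩
      · exact ⟨r, fun x => le_rfl, fun x => h x⟩
    refine ⟨OrderDual.toDual q, ?_, fun r hr => fun x => hle ⟨r, hr⟩ x⟩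
    refine ⟨?_, ?_, ?_, ?_, ?_⟩
    · intro x y
      refine le_of_forall_pos_le_add fun ε hε => ?_
      obtain ⟨r, hr⟩ := hex x (ε / 2) (by linarith)
      obtain ⟨s, hs⟩ := hex y (ε / 2) (by linarith)
      obtain ⟨w, hw1, hw2⟩ := hcommon r s
      have h1 := (hC w.2 : SubHom u _).add x y
      have h2 := hle w (x + y)
      have h3 := hw1 x
      have h4 := hw2 y
      change q (x + y) ≤ q x + q y + ε
      linarith
    · intro t x ht
      change (⨅ r : C, (OrderDual.ofDual r.1) (t • x)) = t * ⨅ r : C, (OrderDual.ofDual r.1) x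
      rw [Real.mul_iInf_of_nonneg ht]
      congr 1
      funext r
      exact (hC r.2 : SubHom u _).smul t x ht
    · intro x y
      refine le_antisymm ?_ (max_le ?_ ?_)
      · refine le_of_forall_pos_le_add fun ε hε => ?_
        obtain ⟨r, hr⟩ := hex x ε hε
        obtain ⟨s, hs⟩ := hex y ε hε
        obtain ⟨w, hw1, hw2⟩ := hcommon r s
        have h1 := (hC w.2 : SubHom u _).sup x y
        have h2 := hle w (x ⊔ y)
        rw [h1] at h2
        change q (x ⊔ y) ≤ max (q x) (q y) + ε
        refine h2.trans (max_le ?_ ?_)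
        · have := hw1 x
          have := le_max_left (q x) (q y)
          linarith
        · have := hw2 y
          have := le_max_right (q x) (q y)
          linarith
      · refine le_ciInf fun r => ?_
        exact (hle r x).trans ((hC r.2 : SubHom u _).mono le_sup_left)
      · refine le_ciInf fun r => ?_
        exact (hle r y).trans ((hC r.2 : SubHom u _).mono le_sup_right)
    · exact (hle ⟨y, hy⟩ u).trans (hC hy : SubHom u _).unit
    · exact (hle ⟨y, hy⟩ (-u)).trans (hC hy : SubHom u _).negunit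

/-- Normalised real lattice homomorphisms. -/
structure IsHom (u : V) (φ : V →ₗ[ℝ] ℝ) : Prop where
  sup : ∀ x y, φ (x ⊔ y) = max (φ x) (φ y)
  unit : φ u = 1

/-- Every `p` dominates a lattice homomorphism. -/
theorem exists_hom_le {u : V} (hu : ∀ x : V, ∃ c : ℝ, 0 ≤ c ∧ -(c • u) ≤ x) {p : V → ℝ}
    (hp : SubHom u p) : ∃ φ : V →ₗ[ℝ] ℝ, IsHom u φ ∧ ∀ x, φ x ≤ p x := by
  obtain ⟨m, hmp, hm, hmin⟩ := exists_min hu hp
  have hadd : ∀ x z, m (x + z) = m x + m z := by
    intro x z
    refine le_antisymm (hm.add x z) ?_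
    have h1 := hmin _ (md_subHom hm z) (fun y => md_le_self hm z y)
    have h2 := md_le hm z x zero_le_one
    rw [h1, one_smul, one_mul] at h2
    linarith
  have hneg : ∀ x, m (-x) = -m x := by
    intro x
    have h := hadd x (-x)
    rw [add_neg_cancel, hm.zero] at h
    linarith
  have hsmul : ∀ (t : ℝ) x, m (t • x) = t * m x := by
    intro t x
    rcases le_total 0 t with ht | ht
    · exact hm.smul t x ht
    · have h1 := hm.smul (-t) x (by linarith)
      rw [neg_smul, hneg] at h1
      linarith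
  refine ⟨{ toFun := m, map_add' := hadd, map_smul' := fun t x => hsmul t x }, ⟨hm.sup, ?_⟩, hmp⟩
  refine le_antisymm hm.unit ?_
  have h1 := hm.negunit
  rw [hneg] at h1
  change 1 ≤ m u
  linarith

namespace IsHom

variable {u : V} {φ : V →ₗ[ℝ] ℝ} (h : IsHom u φ)
include h

theorem mono {x y : V} (hxy : x ≤ y) : φ x ≤ φ y := by
  have h1 := h.sup x y
  rw [sup_eq_right.2 hxy] at h1
  rw [h1]
  exact le_max_left _ _

theorem abs (x : V) : φ |x| = |φ x| := by
  have h1 : |x| = x ⊔ -x := rfl
  rw [h1, h.sup, map_neg]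
  rfl

theorem inf (x y : V) : φ (x ⊓ y) = min (φ x) (φ y) := by
  have h1 : x ⊓ y = x + y - x ⊔ y := by
    rw [eq_sub_iff_add_eq]; exact inf_add_sup x y
  rw [h1, map_sub, map_add, h.sup]
  have := min_add_max (φ x) (φ y)
  linarith

end IsHom

/-- The gauge of `u`. -/
def gg (u : V) (x : V) : ℝ := sInf {t : ℝ | x ≤ t • u}

section gg

variable {u : V} (hu0 : 0 ≤ u) (hune : u ≠ 0)
include hu0 hune

theorem nonneg_of_smul {t : ℝ} (h : 0 ≤ t • u) : 0 ≤ t := by
  by_contra ht
  have ht' : 0 < -t := by linarith [not_le.1 ht]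
  have h1 : (-t) • u ≤ 0 := by
    rw [neg_smul]
    exact neg_nonpos.2 h
  have h2 : 0 ≤ (-t) • u := smul_nonneg ht'.le hu0
  have h3 : (-t) • u = 0 := le_antisymm h1 h2
  rcases smul_eq_zero.1 h3 with h4 | h4
  · linarith
  · exact hune h4

theorem gg_subHom (hu : ∀ x : V, ∃ c : ℝ, 0 ≤ c ∧ -(c • u) ≤ x) : SubHom u (gg u) := by
  have hne : ∀ x : V, {t : ℝ | x ≤ t • u}.Nonempty := by
    intro x
    obtain ⟨c, -, hc⟩ := hu (-x)
    exact ⟨c, by have := neg_le_neg hc; rwa [neg_neg, neg_neg] at this⟩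
  have hbdd : ∀ x : V, BddBelow {t : ℝ | x ≤ t • u} := by
    intro x
    obtain ⟨c, hc0, hc⟩ := hu x
    refine ⟨-c, fun t ht => ?_⟩
    have h1 : -(c • u) ≤ t • u := hc.trans ht
    have h2 : 0 ≤ (t + c) • u := by
      rw [add_smul]
      have := add_le_add_left h1 (c • u)
      rwa [neg_add_cancel] at this
    have := nonneg_of_smul hu0 hune h2
    linarith
  have hlt : ∀ x : V, ∀ ε, 0 < ε → ∃ t : ℝ, x ≤ t • u ∧ t < gg u x + ε := by
    intro x ε hε
    obtain ⟨t, ht, htlt⟩ := exists_lt_of_csInf_lt (hne x)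
      (show sInf {t : ℝ | x ≤ t • u} < gg u x + ε by unfold gg; linarith)
    exact ⟨t, ht, htlt⟩
  have hle : ∀ (x : V) (t : ℝ), x ≤ t • u → gg u x ≤ t := fun x t ht => csInf_le (hbdd x) ht
  refine ⟨?_, ?_, ?_, ?_, ?_⟩
  · intro x y
    refine le_of_forall_pos_le_add fun ε hε => ?_
    obtain ⟨t, ht, htl⟩ := hlt x (ε / 2) (by linarith)
    obtain ⟨s, hs, hsl⟩ := hlt y (ε / 2) (by linarith)
    have h1 := hle (x + y) (t + s) (by rw [add_smul]; exact add_le_add ht hs)
    linarith
  · intro c x hc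
    rcases hc.eq_or_lt with rfl | hc'
    · rw [zero_smul, zero_mul]
      refine le_antisymm (hle 0 0 (by rw [zero_smul])) ?_
      refine le_csInf (hne 0) fun t ht => nonneg_of_smul hu0 hune ht
    · have key : ∀ (d : ℝ), 0 < d → ∀ y : V, gg u (d • y) ≤ d * gg u y := by
        intro d hd y
        refine le_of_forall_pos_le_add fun ε hε => ?_
        obtain ⟨t, ht, htl⟩ := hlt y (ε / d) (div_pos hε hd)
        have h1 := hle (d • y) (d * t) (by
          rw [mul_smul]; exact smul_le_smul_of_nonneg_left ht hd.le)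
        have h2 := mul_lt_mul_of_pos_left htl hd
        have h3 : d * (gg u y + ε / d) = d * gg u y + ε := by field_simp
        linarith
      refine le_antisymm (key c hc' x) ?_
      have h1 := key c⁻¹ (inv_pos.2 hc') (c • x)
      rw [smul_smul, inv_mul_cancel₀ hc'.ne', one_smul] at h1
      have h2 := mul_le_mul_of_nonneg_left h1 hc
      rwa [← mul_assoc, mul_inv_cancel₀ hc'.ne', one_mul] at h2
  · intro x y
    have hmono : ∀ a b : V, a ≤ b → gg u a ≤ gg u b := fun a b hab => by
      refine le_csInf (hne b) fun t ht => hle a t (hab.trans ht)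
    refine le_antisymm ?_ (max_le (hmono _ _ le_sup_left) (hmono _ _ le_sup_right))
    refine le_of_forall_pos_le_add fun ε hε => ?_
    obtain ⟨t, ht, htl⟩ := hlt x ε hε
    obtain ⟨s, hs, hsl⟩ := hlt y ε hε
    have hmul : ∀ a b : ℝ, a ≤ b → a • u ≤ b • u := fun a b hab =>
      smul_le_smul_of_nonneg_right hab hu0
    have h1 := hle (x ⊔ y) (max t s) (sup_le (ht.trans (hmul _ _ (le_max_left _ _)))
      (hs.trans (hmul _ _ (le_max_right _ _))))
    refine h1.trans (max_le ?_ ?_)
    · have := le_max_left (gg u x) (gg u y)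
      linarith
    · have := le_max_right (gg u x) (gg u y)
      linarith
  · exact hle u 1 (by rw [one_smul])
  · exact hle (-u) (-1) (by rw [neg_smul, one_smul])

/-- Enough lattice homomorphisms: a homomorphism attaining the gauge at `x`. -/
theorem exists_hom_gauge (hu : ∀ x : V, ∃ c : ℝ, 0 ≤ c ∧ -(c • u) ≤ x) (x : V) :
    ∃ φ : V →ₗ[ℝ] ℝ, IsHom u φ ∧ gg u x ≤ φ x := by
  have h0 := gg_subHom hu0 hune hu
  obtain ⟨φ, hφ, hle⟩ := exists_hom_le hu (md_subHom h0 x)
  refine ⟨φ, hφ, ?_⟩
  have h1 := hle (-x)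
  have h2 := md_le h0 x (-x) zero_le_one
  rw [one_smul, one_mul, neg_add_cancel, h0.zero] at h2
  rw [map_neg] at h1
  linarith

/-- The order is determined by the lattice homomorphisms. -/
theorem le_of_hom (hu : ∀ x : V, ∃ c : ℝ, 0 ≤ c ∧ -(c • u) ≤ x)
    (harch : ∀ x : V, (∀ t : ℝ, 0 < t → x ≤ t • u) → x ≤ 0) {x y : V}
    (h : ∀ φ : V →ₗ[ℝ] ℝ, IsHom u φ → φ x ≤ φ y) : x ≤ y := by
  have h0 := gg_subHom hu0 hune hu
  obtain ⟨φ, hφ, hle⟩ := exists_hom_gauge hu0 hune hu (x - y)
  have h1 := h φ hφ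
  rw [map_sub] at hle
  have h2 : gg u (x - y) ≤ 0 := by linarith
  rw [← sub_nonpos]
  refine harch _ fun t ht => ?_
  have hne : {s : ℝ | x - y ≤ s • u}.Nonempty := by
    obtain ⟨c, -, hc⟩ := hu (-(x - y))
    exact ⟨c, by have := neg_le_neg hc; rwa [neg_neg, neg_neg] at this⟩
  obtain ⟨s, hs, hst⟩ := exists_lt_of_csInf_lt hne (show sInf {s : ℝ | x - y ≤ s • u} < t from
    lt_of_le_of_lt h2 ht)
  exact hs.trans (smul_le_smul_of_nonneg_right hst.le hu0)

end gg

end Pool.Agent.V1198.YS
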