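import Pool.Agent.V1198.Yos
import Pool.Agent.V1198.BL

/-!
# Principal ideals, multiplication, and asymptotic splittings of quotients
-/

set_option autoImplicit false
set_option linter.unusedSectionVars false

noncomputable section

open Filter Topology

namespace Pool.Agent.V1198.YS

open Pool.Agent.V1198.BL

variable {X : BLat}

/-- The principal ideal generated by `u`, as a submodule. -/
def pI (u : X) : Submodule ℝ X where
  carrier := {x | ∃ c : ℝ, |x| ≤ c • u}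
  zero_mem' := ⟨0, by rw [abs_zero, zero_smul]⟩
  add_mem' := by
    rintro x y ⟨c, hc⟩ ⟨d, hd⟩
    exact ⟨c + d, (abs_add_le x y).trans (by rw [add_smul]; exact add_le_add hc hd)⟩
  smul_mem' := by
    rintro t x ⟨c, hc⟩
    refine ⟨|t| * c, ?_⟩
    rw [abs_smul', mul_smul]
    exact smul_le_smul_of_nonneg_left hc (abs_nonneg t)

theorem abs_mem_pI {u x : X} (hx : x ∈ pI u) : |x| ∈ pI u := by
  obtain ⟨c, hc⟩ := hx
  exact ⟨c, by rwa [abs_abs]⟩

theorem sup_mem_pI {u x y : X} (hx : x ∈ pI u) (hy : y ∈ pI u) : x ⊔ y ∈ pI u := by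
  rw [sup_eq_half]
  exact (pI u).smul_mem _ ((pI u).add_mem ((pI u).add_mem hx hy)
    (abs_mem_pI ((pI u).sub_mem hx hy)))

theorem inf_mem_pI {u x y : X} (hx : x ∈ pI u) (hy : y ∈ pI u) : x ⊓ y ∈ pI u := by
  rw [inf_eq_half]
  exact (pI u).smul_mem _ ((pI u).sub_mem ((pI u).add_mem hx hy)
    (abs_mem_pI ((pI u).sub_mem hx hy)))

/-- The principal ideal generated by `u`. -/
def PV (u : X) : Type := pI u

variable {u : X}

instance : AddCommGroup (PV u) := inferInstanceAs (AddCommGroup (pI u))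
instance : Module ℝ (PV u) := inferInstanceAs (Module ℝ (pI u))
instance : Lattice (PV u) :=
  Subtype.lattice (fun _ _ hx hy => sup_mem_pI hx hy) (fun _ _ hx hy => inf_mem_pI hx hy)

instance : IsOrderedAddMonoid (PV u) where
  add_le_add_left _ _ h c := add_le_add_left (α := X) h c.1

instance : IsOrderedModule ℝ (PV u) where
  smul_le_smul_of_nonneg_left _ hc _ _ h := smul_le_smul_of_nonneg_left (β := X) h hc
  smul_le_smul_of_nonneg_right _ hx _ _ h := smul_le_smul_of_nonneg_right (β := X) h hx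

theorem PV.ext {x y : PV u} (h : x.1 = y.1) : x = y := Subtype.ext h

/-- The unit. -/
def uu (u : X) (hu : 0 ≤ u) : PV u := ⟨u, 1, by rw [abs_of_nonneg hu, one_smul]⟩

/-- The inclusion. -/
def inc (u : X) : PV u →ₗ[ℝ] X := (pI u).subtype

theorem inc_apply (x : PV u) : inc u x = x.1 := rfl

theorem PV.exists_bound (hu : 0 ≤ u) (x : PV u) : ∃ c : ℝ, 0 < c ∧ |x| ≤ c • uu u hu := by
  obtain ⟨c, hc⟩ := x.2
  refine ⟨max c 1, lt_max_of_lt_right one_pos, ?_⟩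
  change |x.1| ≤ (max c 1) • u
  exact hc.trans (smul_le_smul_of_nonneg_right (le_max_left _ _) hu)

theorem PV.exists_lower (hu : 0 ≤ u) (x : PV u) : ∃ c : ℝ, 0 ≤ c ∧ -(c • uu u hu) ≤ x := by
  obtain ⟨c, hc0, hc⟩ := x.exists_bound hu
  exact ⟨c, hc0.le, neg_le.1 ((neg_le_abs x).trans hc)⟩

theorem PV.arch (hu : 0 ≤ u) (x : PV u) (h : ∀ t : ℝ, 0 < t → x ≤ t • uu u hu) : x ≤ 0 := by
  have h1 : Tendsto (fun n : ℕ => (1 / ((n : ℝ) + 1)) • u) atTop (𝓝 ((0 : ℝ) • u)) :=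
    (tendsto_one_div_add_atTop_nhds_zero_nat (𝕜 := ℝ)).smul_const u
  rw [zero_smul] at h1
  change x.1 ≤ 0
  refine ge_of_tendsto' h1 fun n => ?_
  exact h _ (by positivity)

/-- The order of a principal ideal is determined by its real homomorphisms. -/
theorem PV.le_of_hom (hu : 0 ≤ u) {x y : PV u}
    (h : ∀ φ : PV u →ₗ[ℝ] ℝ, IsHom (uu u hu) φ → φ x ≤ φ y) : x ≤ y := by
  by_cases h0 : u = 0
  · obtain ⟨c, hc0, hc⟩ := (x - y).exists_bound hu
    change |x.1 - y.1| ≤ c • u at hc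
    have h5 : c • u = 0 := by
      have h6 : c • u = c • (0 : X) := congrArg (fun z : X => c • z) h0
      rw [h6, smul_zero]
    rw [h5] at hc
    have h1 : x.1 - y.1 = 0 := by
      have h2 := le_antisymm hc (abs_nonneg _)
      rw [← norm_eq_zero, ← norm_abs_eq_norm, h2, norm_zero]
    change x.1 ≤ y.1
    rw [sub_eq_zero.1 h1]
  · refine YS.le_of_hom (u := uu u hu) (show (0 : X) ≤ u from hu) ?_ (PV.exists_lower hu)
      (PV.arch hu) h
    intro h2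
    exact h0 (congrArg Subtype.val h2)

theorem PV.eq_of_hom (hu : 0 ≤ u) {x y : PV u}
    (h : ∀ φ : PV u →ₗ[ℝ] ℝ, IsHom (uu u hu) φ → φ x = φ y) : x = y :=
  le_antisymm (PV.le_of_hom hu fun φ hφ => (h φ hφ).le)
    (PV.le_of_hom hu fun φ hφ => (h φ hφ).ge)

/-! ### Squares -/

/-- The iterated tent map. -/
def tent (hu : 0 ≤ u) (s : PV u) : ℕ → PV u
  | 0 => s
  | n + 1 => (2 : ℝ) • (tent hu s n ⊓ (uu u hu - tent hu s n))

/-- The partial sums of `s - s²`. -/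
def psum (hu : 0 ≤ u) (s : PV u) : ℕ → PV u
  | 0 => 0
  | n + 1 => psum hu s n + ((1 / 4 : ℝ) ^ (n + 1)) • tent hu s (n + 1)

theorem two_inf_le {a b : X} : (2 : ℝ) • (a ⊓ b) ≤ a + b := by
  rw [two_smul]
  exact add_le_add inf_le_left inf_le_right

theorem tent_bounds (hu : 0 ≤ u) {s : PV u} (h0 : 0 ≤ s) (h1 : s ≤ uu u hu) (n : ℕ) :
    0 ≤ tent hu s n ∧ tent hu s n ≤ uu u hu := by
  induction n with
  | zero => exact ⟨h0, h1⟩
  | succ n ih =>
    obtain ⟨ih1, ih2⟩ := ih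
    constructor
    · exact smul_nonneg zero_le_two (le_inf ih1 (sub_nonneg.2 ih2))
    · change (2 : ℝ) • ((tent hu s n).1 ⊓ (u - (tent hu s n).1)) ≤ u
      refine two_inf_le.trans (le_of_eq ?_)
      abel

theorem psum_step (hu : 0 ≤ u) {s : PV u} (h0 : 0 ≤ s) (h1 : s ≤ uu u hu) (n : ℕ) :
    psum hu s n ≤ psum hu s (n + 1) ∧ psum hu s (n + 1) + ((1 / 4 : ℝ) ^ (n + 1)) • uu u hu ≤
      psum hu s n + ((1 / 4 : ℝ) ^ n) • uu u hu := by
  obtain ⟨h2, h3⟩ := tent_bounds hu h0 h1 (n + 1)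
  have hpos : (0 : ℝ) ≤ (1 / 4 : ℝ) ^ (n + 1) := by positivity
  constructor
  · exact le_add_of_nonneg_right (smul_nonneg hpos h2)
  · change psum hu s n + ((1 / 4 : ℝ) ^ (n + 1)) • tent hu s (n + 1) +
      ((1 / 4 : ℝ) ^ (n + 1)) • uu u hu ≤ _
    have h4 : ((1 / 4 : ℝ) ^ (n + 1)) • tent hu s (n + 1) ≤ ((1 / 4 : ℝ) ^ (n + 1)) • uu u hu :=
      smul_le_smul_of_nonneg_left h3 hpos
    have h5 : ((1 / 4 : ℝ) ^ (n + 1)) • uu u hu + ((1 / 4 : ℝ) ^ (n + 1)) • uu u hu ≤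
        ((1 / 4 : ℝ) ^ n) • uu u hu := by
      rw [← add_smul]
      refine smul_le_smul_of_nonneg_right ?_ (show (0 : X) ≤ u from hu)
      rw [pow_succ]
      have : (0 : ℝ) < (1 / 4 : ℝ) ^ n := by positivity
      linarith
    rw [add_assoc]
    exact add_le_add le_rfl ((add_le_add h4 le_rfl).trans h5)

theorem psum_mono (hu : 0 ≤ u) {s : PV u} (h0 : 0 ≤ s) (h1 : s ≤ uu u hu) :
    Monotone (psum hu s) := monotone_nat_of_le_succ fun n => (psum_step hu h0 h1 n).1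

theorem psum_anti (hu : 0 ≤ u) {s : PV u} (h0 : 0 ≤ s) (h1 : s ≤ uu u hu) :
    Antitone (fun n => psum hu s n + ((1 / 4 : ℝ) ^ n) • uu u hu) :=
  antitone_nat_of_succ_le fun n => (psum_step hu h0 h1 n).2

/-- The limit of the partial sums. -/
theorem exists_lim (hu : 0 ≤ u) {s : PV u} (h0 : 0 ≤ s) (h1 : s ≤ uu u hu) :
    ∃ D : PV u, ∀ n, psum hu s n ≤ D ∧ D ≤ psum hu s n + ((1 / 4 : ℝ) ^ n) • uu u hu := by
  have hmono := psum_mono hu h0 h1
  have hanti := psum_anti hu h0 h1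
  have hpos : ∀ n : ℕ, (0 : ℝ) ≤ (1 / 4 : ℝ) ^ n := fun n => by positivity
  have hcau : CauchySeq (fun n => (psum hu s n).1) := by
    refine cauchySeq_of_le_geometric (1 / 4) ‖u‖ (by norm_num) fun n => ?_
    rw [dist_eq_norm', ]
    have h2 := (psum_step hu h0 h1 n).1
    have h3 := (psum_step hu h0 h1 n).2
    have h4 : (psum hu s (n + 1)).1 - (psum hu s n).1 ≤ ((1 / 4 : ℝ) ^ n) • u := by
      have h5 : (psum hu s (n + 1)).1 + ((1 / 4 : ℝ) ^ (n + 1)) • u ≤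
        (psum hu s n).1 + ((1 / 4 : ℝ) ^ n) • u := h3
      rw [sub_le_iff_le_add']
      exact (le_add_of_nonneg_right (smul_nonneg (hpos (n + 1)) hu)).trans h5
    refine (norm_mono' (sub_nonneg.2 (show (psum hu s n).1 ≤ (psum hu s (n + 1)).1 from h2))
      h4).trans ?_
    rw [norm_smul, Real.norm_eq_abs, abs_of_nonneg (hpos n), mul_comm]
  obtain ⟨D, hD⟩ := cauchySeq_tendsto_of_complete hcau
  have hle : ∀ n, (psum hu s n).1 ≤ D ∧ D ≤ (psum hu s n).1 + ((1 / 4 : ℝ) ^ n) • u := by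
    intro n
    constructor
    · refine ge_of_tendsto hD ?_
      filter_upwards [eventually_ge_atTop n] with m hm
      exact hmono hm
    · refine le_of_tendsto hD ?_
      filter_upwards [eventually_ge_atTop n] with m hm
      have h2 : (psum hu s m).1 + ((1 / 4 : ℝ) ^ m) • u ≤
        (psum hu s n).1 + ((1 / 4 : ℝ) ^ n) • u := hanti hm
      exact (le_add_of_nonneg_right (smul_nonneg (hpos m) hu)).trans h2
  have hmem : D ∈ pI u := by
    have h2 := hle 0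
    have e0 : (psum hu s 0).1 = 0 := rfl
    rw [e0, pow_zero, one_smul, zero_add] at h2
    exact ⟨1, by rw [abs_of_nonneg h2.1, one_smul]; exact h2.2⟩
  exact ⟨⟨D, hmem⟩, fun n => hle n⟩

theorem hom_tent (hu : 0 ≤ u) (s : PV u) {φ : PV u →ₗ[ℝ] ℝ} (hφ : IsHom (uu u hu) φ) (n : ℕ) :
    φ (tent hu s (n + 1)) = 2 * min (φ (tent hu s n)) (1 - φ (tent hu s n)) := by
  change φ ((2 : ℝ) • (tent hu s n ⊓ (uu u hu - tent hu s n))) = _
  rw [map_smul, hφ.inf, map_sub, hφ.unit, smul_eq_mul]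

theorem hom_psum (hu : 0 ≤ u) (s : PV u) {φ : PV u →ₗ[ℝ] ℝ} (hφ : IsHom (uu u hu) φ) (n : ℕ) :
    φ s - φ s ^ 2 = φ (psum hu s n) +
      (1 / 4 : ℝ) ^ n * (φ (tent hu s n) - φ (tent hu s n) ^ 2) := by
  induction n with
  | zero =>
    change _ = φ (0 : PV u) + (1 / 4 : ℝ) ^ 0 * (φ s - φ s ^ 2)
    rw [map_zero]
    ring
  | succ n ih =>
    rw [ih]
    change _ = φ (psum hu s n + ((1 / 4 : ℝ) ^ (n + 1)) • tent hu s (n + 1)) + _
    rw [map_add, map_smul, smul_eq_mul, hom_tent hu s hφ, pow_succ]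
    set t := φ (tent hu s n)
    rcases le_total t (1 - t) with h | h
    · rw [min_eq_left h]
      ring
    · rw [min_eq_right h]
      ring

theorem hom_range (hu : 0 ≤ u) {s : PV u} (h0 : 0 ≤ s) (h1 : s ≤ uu u hu)
    {φ : PV u →ₗ[ℝ] ℝ} (hφ : IsHom (uu u hu) φ) : 0 ≤ φ s ∧ φ s ≤ 1 := by
  constructor
  · have := hφ.mono h0
    rwa [map_zero] at this
  · have := hφ.mono h1
    rwa [hφ.unit] at this

theorem exists_sq (hu : 0 ≤ u) {s : PV u} (h0 : 0 ≤ s) (h1 : s ≤ uu u hu) :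
    ∃ y : PV u, ∀ φ : PV u →ₗ[ℝ] ℝ, IsHom (uu u hu) φ → φ y = φ s ^ 2 := by
  obtain ⟨D, hD⟩ := exists_lim hu h0 h1
  refine ⟨s - D, fun φ hφ => ?_⟩
  rw [map_sub]
  have hlim : Tendsto (fun n : ℕ => (1 / 4 : ℝ) ^ n) atTop (𝓝 0) :=
    tendsto_pow_atTop_nhds_zero_of_lt_one (by norm_num) (by norm_num)
  have hb : ∀ n : ℕ, |φ D - (φ s - φ s ^ 2)| ≤ (1 / 4 : ℝ) ^ n := by
    intro n
    have h2 := hφ.mono (hD n).1
    have h3 := hφ.mono (hD n).2
    rw [map_add, map_smul, hφ.unit, smul_eq_mul, mul_one] at h3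
    have h4 := hom_psum hu s hφ n
    obtain ⟨h5, h6⟩ := hom_range hu (tent_bounds hu h0 h1 n).1 (tent_bounds hu h0 h1 n).2 hφ
    have h7 : 0 ≤ (1 / 4 : ℝ) ^ n := by positivity
    have h8 : 0 ≤ φ (tent hu s n) - φ (tent hu s n) ^ 2 := by nlinarith
    have h9 : φ (tent hu s n) - φ (tent hu s n) ^ 2 ≤ 1 := by nlinarith
    have h10 : (1 / 4 : ℝ) ^ n * (φ (tent hu s n) - φ (tent hu s n) ^ 2) ≤ (1 / 4 : ℝ) ^ n := by
      nlinarith
    have h11 : 0 ≤ (1 / 4 : ℝ) ^ n * (φ (tent hu s n) - φ (tent hu s n) ^ 2) := by positivity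
    rw [abs_le]
    constructor <;> linarith
  have h2 : |φ D - (φ s - φ s ^ 2)| ≤ 0 := ge_of_tendsto' hlim hb
  have h3 := abs_nonpos_iff.1 h2
  linarith

/-- Products of elements of `[0,u]`. -/
theorem exists_mul_unit (hu : 0 ≤ u) {h x : PV u} (h0 : 0 ≤ h) (h1 : h ≤ uu u hu) (x0 : 0 ≤ x)
    (x1 : x ≤ uu u hu) :
    ∃ y : PV u, ∀ φ : PV u →ₗ[ℝ] ℝ, IsHom (uu u hu) φ → φ y = φ h * φ x := by
  obtain ⟨a, ha⟩ := exists_sq hu h0 h1
  obtain ⟨b, hb⟩ := exists_sq hu x0 x1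
  have hm0 : 0 ≤ (1 / 2 : ℝ) • (h + x) := smul_nonneg (by norm_num) (add_nonneg h0 x0)
  have hm1 : (1 / 2 : ℝ) • (h + x) ≤ uu u hu := by
    have h2 : (1 / 2 : ℝ) • (h + x) ≤ (1 / 2 : ℝ) • (uu u hu + uu u hu) :=
      smul_le_smul_of_nonneg_left (add_le_add h1 x1) (by norm_num)
    refine h2.trans (le_of_eq ?_)
    rw [← two_smul ℝ, smul_smul]
    norm_num
  obtain ⟨c, hc⟩ := exists_sq hu hm0 hm1
  refine ⟨(2 : ℝ) • c - (1 / 2 : ℝ) • a - (1 / 2 : ℝ) • b, fun φ hφ => ?_⟩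
  rw [map_sub, map_sub, map_smul, map_smul, map_smul, ha φ hφ, hb φ hφ, hc φ hφ, map_smul,
    map_add]
  simp only [smul_eq_mul]
  ring

/-- Products. -/
theorem exists_mul (hu : 0 ≤ u) {h : PV u} (h0 : 0 ≤ h) (h1 : h ≤ uu u hu) (x : PV u) :
    ∃ y : PV u, ∀ φ : PV u →ₗ[ℝ] ℝ, IsHom (uu u hu) φ → φ y = φ h * φ x := by
  obtain ⟨c, hc, hx⟩ := x.exists_bound hu
  have hpart : ∀ z : PV u, z ≤ c • uu u hu → ∃ y : PV u, ∀ φ : PV u →ₗ[ℝ] ℝ,
      IsHom (uu u hu) φ → φ y = φ h * φ (z ⊔ 0) := by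
    intro z hz
    have hz1 : z ⊔ 0 ≤ c • uu u hu :=
      sup_le hz (smul_nonneg hc.le (show (0 : X) ≤ u from hu))
    have hz2 : c⁻¹ • (z ⊔ 0) ≤ uu u hu := by
      have := smul_le_smul_of_nonneg_left hz1 (inv_pos.2 hc).le
      rwa [smul_smul, inv_mul_cancel₀ hc.ne', one_smul] at this
    have hz3 : 0 ≤ c⁻¹ • (z ⊔ 0) := smul_nonneg (inv_pos.2 hc).le le_sup_right
    obtain ⟨y, hy⟩ := exists_mul_unit hu h0 h1 hz3 hz2
    refine ⟨c • y, fun φ hφ => ?_⟩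
    rw [map_smul, hy φ hφ, map_smul]
    simp only [smul_eq_mul]
    field_simp
  obtain ⟨y1, hy1⟩ := hpart x ((le_abs_self x).trans hx)
  obtain ⟨y2, hy2⟩ := hpart (-x) ((neg_le_abs x).trans hx)
  refine ⟨y1 - y2, fun φ hφ => ?_⟩
  rw [map_sub, hy1 φ hφ, hy2 φ hφ, hφ.sup, hφ.sup, map_zero, map_neg]
  rcases le_total 0 (φ x) with h2 | h2
  · rw [max_eq_left h2, max_eq_right (by linarith)]
    ring
  · rw [max_eq_right h2, max_eq_left (by linarith)]
    ring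

/-- The multiplication operator on the principal ideal. -/
theorem exists_mulOp (hu : 0 ≤ u) {h : PV u} (h0 : 0 ≤ h) (h1 : h ≤ uu u hu) :
    ∃ R : PV u →ₗ[ℝ] PV u, ∀ x, ∀ φ : PV u →ₗ[ℝ] ℝ, IsHom (uu u hu) φ →
      φ (R x) = φ h * φ x := by
  choose f hf using exists_mul hu h0 h1
  refine ⟨{ toFun := f
            map_add' := fun x y => PV.eq_of_hom hu fun φ hφ => ?_
            map_smul' := fun c x => PV.eq_of_hom hu fun φ hφ => ?_ }, hf⟩
  · rw [map_add, hf _ φ hφ, hf _ φ hφ, hf _ φ hφ, map_add]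
    ring
  · rw [RingHom.id_apply, map_smul, hf _ φ hφ, hf _ φ hφ, map_smul]
    simp only [smul_eq_mul]
    ring

end Pool.Agent.V1198.YS
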