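import Pool.Agent.V1198.Yos2

/-!
# Asymptotic splittings of quotients of separable Banach lattices
-/

set_option autoImplicit false
set_option linter.unusedSectionVars false

noncomputable section

open Filter Topology

namespace Pool.Agent.V1198.YS

open Pool.Agent.V1198.BL

variable {X : BLat}

/-- A common upper bound for the multiples of countably many elements. -/
theorem exists_unit (a : ℕ → X) : ∃ w : X, 0 ≤ w ∧ (∀ i, ∃ c : ℝ, 0 ≤ c ∧ |a i| ≤ c • w) ∧
    ∀ (Y : BLat) (q : X →L[ℝ] Y), IsLatHom q → (∀ i, q (a i) = 0) → q w = 0 := by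
  set f : ℕ → X := fun i => ((1 / 2 : ℝ) ^ i * (1 + ‖a i‖)⁻¹) • |a i| with hf
  have hcpos : ∀ i, 0 < (1 / 2 : ℝ) ^ i * (1 + ‖a i‖)⁻¹ := fun i => by positivity
  have hf0 : ∀ i, 0 ≤ f i := fun i => smul_nonneg (hcpos i).le (abs_nonneg _)
  have hs : Summable f := by
    refine Summable.of_norm_bounded (g := fun i : ℕ => (1 / 2 : ℝ) ^ i)
      (summable_geometric_of_lt_one (by norm_num) (by norm_num)) fun i => ?_
    rw [hf]
    simp only
    rw [norm_smul, norm_abs_eq_norm, Real.norm_eq_abs, abs_of_pos (hcpos i), mul_assoc]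
    have h1 : (1 + ‖a i‖)⁻¹ * ‖a i‖ ≤ 1 := by
      rw [inv_mul_le_iff₀ (by positivity)]
      linarith
    have h2 : (0 : ℝ) ≤ (1 / 2 : ℝ) ^ i := by positivity
    nlinarith
  refine ⟨∑' i, f i, tsum_nonneg hf0, fun i => ?_, fun Y q hq hqa => ?_⟩
  · refine ⟨((1 / 2 : ℝ) ^ i * (1 + ‖a i‖)⁻¹)⁻¹, (inv_pos.2 (hcpos i)).le, ?_⟩
    have h1 : f i ≤ ∑' i, f i := hs.le_tsum i fun j _ => hf0 j
    have h2 := smul_le_smul_of_nonneg_left h1 (inv_pos.2 (hcpos i)).le
    rw [hf] at h2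
    simp only at h2
    rwa [smul_smul, inv_mul_cancel₀ (hcpos i).ne', one_smul] at h2
  · rw [q.map_tsum hs]
    have h1 : ∀ i, q (f i) = 0 := fun i => by
      rw [hf]
      simp only
      rw [map_smul, hq, hqa i, abs_zero, smul_zero]
    simp only [h1, tsum_zero]

/-- A central operator that kills most of the ideal generated by `w`. -/
theorem exists_M {u w : X} (hu : 0 ≤ u) (hw : 0 ≤ w) (hwu : w ≤ u)
    (hd : Dense (pI u : Set X)) (k : ℕ) :
    ∃ M : X →L[ℝ] X, IsLatHom M ∧ (∀ x, ‖M x‖ ≤ ‖x‖) ∧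
      (∀ (Y : BLat) (q : X →L[ℝ] Y), IsLatHom q → q w = 0 → ∀ x, q (M x) = q x) ∧
      ∀ (j : X) (c : ℝ), 0 ≤ c → |j| ≤ c • w → ‖M j‖ ≤ c / (k + 1) * ‖u‖ := by
  have hk : (0 : ℝ) < (k : ℝ) + 1 := by positivity
  have hwP : w ∈ pI u := ⟨1, by rwa [abs_of_nonneg hw, one_smul]⟩
  let wP : PV u := ⟨w, hwP⟩
  have hwP0 : (0 : PV u) ≤ wP := hw
  let h : PV u := (((k : ℝ) + 1) • wP) ⊓ uu u hu
  have h0 : 0 ≤ h := le_inf (smul_nonneg hk.le hwP0) (show (0 : X) ≤ u from hu)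
  have h1 : h ≤ uu u hu := inf_le_right
  obtain ⟨R, hR⟩ := exists_mulOp hu h0 h1
  have hh : ∀ φ : PV u →ₗ[ℝ] ℝ, IsHom (uu u hu) φ → φ h = min (((k : ℝ) + 1) * φ wP) 1 := by
    intro φ hφ
    change φ ((((k : ℝ) + 1) • wP) ⊓ uu u hu) = _
    rw [hφ.inf, hφ.unit, map_smul, smul_eq_mul]
  have hh0 : ∀ φ : PV u →ₗ[ℝ] ℝ, IsHom (uu u hu) φ → 0 ≤ φ h ∧ φ h ≤ 1 := fun φ hφ =>
    hom_range hu h0 h1 hφ
  let M0 : PV u →ₗ[ℝ] PV u := LinearMap.id - R
  have hM0 : ∀ x, ∀ φ : PV u →ₗ[ℝ] ℝ, IsHom (uu u hu) φ → φ (M0 x) = (1 - φ h) * φ x := by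
    intro x φ hφ
    change φ (x - R x) = _
    rw [map_sub, hR x φ hφ]
    ring
  have hle : ∀ x, |M0 x| ≤ |x| := fun x => PV.le_of_hom hu fun φ hφ => by
    rw [hφ.abs, hφ.abs, hM0 x φ hφ, abs_mul]
    obtain ⟨h2, h3⟩ := hh0 φ hφ
    have h4 : |1 - φ h| ≤ 1 := by rw [abs_le]; constructor <;> linarith
    have h5 := abs_nonneg (φ x)
    nlinarith
  have habs : ∀ x, M0 |x| = |M0 x| := fun x => PV.eq_of_hom hu fun φ hφ => by
    obtain ⟨h2, h3⟩ := hh0 φ hφ
    rw [hφ.abs, hM0 _ φ hφ, hM0 x φ hφ, hφ.abs, abs_mul, abs_of_nonneg (by linarith : 0 ≤ 1 - φ h)]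
  let f : PV u →ₗ[ℝ] X := (inc u).comp M0
  have hf : ∀ x, f x = (M0 x).1 := fun x => rfl
  have hnorm : ∀ x, ‖f x‖ ≤ 1 * ‖inc u x‖ := by
    intro x
    rw [one_mul]
    exact norm_mono (show |(M0 x).1| ≤ |x.1| from hle x)
  have hdr : DenseRange (inc u) := by
    have h2 : Set.range (inc u) = (pI u : Set X) := by
      ext z
      constructor
      · rintro ⟨y, rfl⟩
        exact y.2
      · intro hz
        exact ⟨⟨z, hz⟩, rfl⟩
    rw [DenseRange, h2]
    exact hd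
  set M : X →L[ℝ] X := f.extendOfNorm (inc u) with hM
  have hMe : ∀ z : PV u, M z.1 = (M0 z).1 := fun z =>
    LinearMap.extendOfNorm_eq hdr ⟨1, hnorm⟩ z
  refine ⟨M, ?_, ?_, ?_, ?_⟩
  · intro x
    refine hdr.induction_on (p := fun x => M |x| = |M x|) x ?_ fun z => ?_
    · exact isClosed_eq (M.continuous.comp (continuous_id.sup continuous_neg))
        (M.continuous.sup M.continuous.neg)
    · have h2 : |inc u z| = (|z| : PV u).1 := rfl
      have h3 : inc u z = z.1 := rfl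
      rw [h2, hMe, habs, h3, hMe]
      rfl
  · intro x
    have := LinearMap.norm_extendOfNorm_apply_le hdr 1 hnorm x
    rwa [one_mul] at this
  · intro Y q hq hqw x
    refine hdr.induction_on (p := fun x => q (M x) = q x) x ?_ fun z => ?_
    · exact isClosed_eq (q.continuous.comp M.continuous) q.continuous
    · obtain ⟨c, hc, hz⟩ := z.exists_bound hu
      have h2 : |z - M0 z| ≤ c • h := PV.le_of_hom hu fun φ hφ => by
        obtain ⟨h2, h3⟩ := hh0 φ hφ
        rw [hφ.abs, map_sub, hM0 z φ hφ, map_smul, smul_eq_mul]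
        have h4 : φ z - (1 - φ h) * φ z = φ h * φ z := by ring
        rw [h4, abs_mul, abs_of_nonneg h2, mul_comm]
        have h5 := hφ.mono hz
        rw [hφ.abs, map_smul, hφ.unit, smul_eq_mul, mul_one] at h5
        exact mul_le_mul_of_nonneg_right h5 h2
      have h3 : |z.1 - (M0 z).1| ≤ c • (((k : ℝ) + 1) • w) := by
        have h4 : |z.1 - (M0 z).1| ≤ c • h.1 := h2
        refine h4.trans (smul_le_smul_of_nonneg_left ?_ hc.le)
        change (((k : ℝ) + 1) • w) ⊓ u ≤ _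
        exact inf_le_left
      have h4 := hq.mono h3
      rw [hq, map_smul, map_smul, hqw, smul_zero, smul_zero] at h4
      have h5 : q (z.1 - (M0 z).1) = 0 := by
        have h6 := le_antisymm h4 (abs_nonneg _)
        rw [← norm_eq_zero, ← norm_abs_eq_norm, h6, norm_zero]
      rw [map_sub, sub_eq_zero] at h5
      rw [inc_apply, hMe, ← h5]
  · intro j c hc hj
    have hjP : j ∈ pI u := ⟨c, hj.trans (smul_le_smul_of_nonneg_left hwu hc)⟩
    let z : PV u := ⟨j, hjP⟩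
    have hz : |z| ≤ c • wP := hj
    have h2 : |M0 z| ≤ (c / ((k : ℝ) + 1)) • uu u hu := PV.le_of_hom hu fun φ hφ => by
      rw [hφ.abs, hM0 z φ hφ, map_smul, hφ.unit, smul_eq_mul, mul_one, abs_mul]
      obtain ⟨h2, h3⟩ := hh0 φ hφ
      rw [abs_of_nonneg (by linarith : 0 ≤ 1 - φ h)]
      have h5 := hφ.mono hz
      rw [hφ.abs, map_smul, smul_eq_mul] at h5
      have h6 : 0 ≤ φ wP := by
        have := hφ.mono hwP0
        rwa [map_zero] at this
      rw [hh φ hφ]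
      rcases le_total (((k : ℝ) + 1) * φ wP) 1 with h7 | h7
      · rw [min_eq_left h7]
        have h8 : (1 - ((k : ℝ) + 1) * φ wP) * |φ z| ≤ 1 * (c * φ wP) := by
          refine mul_le_mul ?_ h5 (abs_nonneg _) zero_le_one
          have : 0 ≤ ((k : ℝ) + 1) * φ wP := by positivity
          linarith
        refine h8.trans ?_
        rw [one_mul, le_div_iff₀ hk]
        nlinarith
      · rw [min_eq_right h7, sub_self, zero_mul]
        positivity
    have h3 : |M j| ≤ (c / ((k : ℝ) + 1)) • u := by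
      have h4 : M j = (M0 z).1 := hMe z
      rw [h4]
      exact h2
    have h4 : (0 : ℝ) ≤ c / ((k : ℝ) + 1) := by positivity
    rw [← norm_abs_eq_norm]
    refine (norm_mono' (abs_nonneg _) h3).trans ?_
    rw [norm_smul, Real.norm_eq_abs, abs_of_nonneg h4]

/-- **Asymptotic splitting.** For a lattice homomorphism `q` on a separable Banach lattice there are
contractive lattice homomorphisms `M k` with `q ∘ M k = q` that tend to zero on the kernel. -/
theorem exists_split [TopologicalSpace.SeparableSpace X] {Y : BLat} {q : X →L[ℝ] Y}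
    (hq : IsLatHom q) : ∃ M : ℕ → X →L[ℝ] X, (∀ k, IsLatHom (M k)) ∧ (∀ k x, ‖M k x‖ ≤ ‖x‖) ∧
      (∀ k x, q (M k x) = q x) ∧ ∀ j, q j = 0 → Tendsto (fun k => M k j) atTop (𝓝 0) := by
  -- a dense sequence in the kernel
  have hne : Nonempty {x : X | q x = 0} := ⟨⟨0, map_zero q⟩⟩
  obtain ⟨w, hw0, hwj, hwq⟩ := exists_unit (X := X)
    (fun i => (TopologicalSpace.denseSeq {x : X | q x = 0} i).1)
  obtain ⟨v, hv0, hvd, -⟩ := exists_unit (X := X) (TopologicalSpace.denseSeq X)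
  have hqw : q w = 0 := hwq Y q hq fun i => (TopologicalSpace.denseSeq {x : X | q x = 0} i).2
  have hu : 0 ≤ w + v := add_nonneg hw0 hv0
  have hwu : w ≤ w + v := le_add_of_nonneg_right hv0
  have hd : Dense (pI (w + v) : Set X) := by
    refine (TopologicalSpace.denseRange_denseSeq X).mono ?_
    rintro _ ⟨i, rfl⟩
    obtain ⟨c, hc0, hc⟩ := hvd i
    exact ⟨c, hc.trans (smul_le_smul_of_nonneg_left (le_add_of_nonneg_left hw0) hc0)⟩
  choose M hM1 hM2 hM3 hM4 using fun k : ℕ => exists_M hu hw0 hwu hd k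
  refine ⟨M, hM1, hM2, fun k x => hM3 k Y q hq hqw x, fun j hj => ?_⟩
  rw [Metric.tendsto_atTop]
  intro ε hε
  -- approximate j
  obtain ⟨i, hi⟩ : ∃ i, dist (⟨j, hj⟩ : {x : X | q x = 0})
      (TopologicalSpace.denseSeq {x : X | q x = 0} i) < ε / 2 := by
    have h1 := (TopologicalSpace.denseRange_denseSeq {x : X | q x = 0}).exists_dist_lt
      (⟨j, hj⟩ : {x : X | q x = 0}) (show (0 : ℝ) < ε / 2 by linarith)
    exact h1
  obtain ⟨c, hc0, hc⟩ := hwj i
  set a := (TopologicalSpace.denseSeq {x : X | q x = 0} i).1 with ha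
  have hja : ‖j - a‖ < ε / 2 := by
    rw [← dist_eq_norm]
    exact hi
  have hlim : Tendsto (fun k : ℕ => c / ((k : ℝ) + 1) * ‖w + v‖) atTop (𝓝 (0 * ‖w + v‖)) := by
    have h1 : Tendsto (fun k : ℕ => c * (1 / ((k : ℝ) + 1))) atTop (𝓝 (c * 0)) :=
      (tendsto_one_div_add_atTop_nhds_zero_nat (𝕜 := ℝ)).const_mul c
    rw [mul_zero] at h1
    refine (h1.congr fun k => ?_).mul_const _
    ring
  rw [zero_mul] at hlim
  obtain ⟨N, hN⟩ := Metric.tendsto_atTop.1 hlim (ε / 2) (by linarith)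
  refine ⟨N, fun k hk => ?_⟩
  rw [dist_zero_right]
  have h1 : M k j = M k (j - a) + M k a := by rw [map_sub]; abel
  have h2 := hN k hk
  rw [dist_zero_right, Real.norm_eq_abs] at h2
  have h3 := (le_abs_self _).trans_lt h2
  calc ‖M k j‖ ≤ ‖M k (j - a)‖ + ‖M k a‖ := by rw [h1]; exact norm_add_le _ _
    _ ≤ ‖j - a‖ + c / ((k : ℝ) + 1) * ‖w + v‖ := add_le_add (hM2 k _) (hM4 k a c hc0 hc)
    _ < ε / 2 + ε / 2 := add_lt_add hja h3
    _ = ε := by ring

end Pool.Agent.V1198.YS
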